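import Pool.Agent.Lib.ION.Basic

/-!
# Newton's theorem for radial charges and uniform shells
-/

open MeasureTheory Set Metric Real Filter Topology
open scoped ENNReal

noncomputable section

namespace Pool.Agent.Lib.ION

open Pool.Agent.Lib.MP_689e73_mp

lemma newton_sin : ∫⁻ θ in Ioo (-π) π, ENNReal.ofReal (sin θ) = ENNReal.ofReal 2 := by
  have hu : Ioo (-π) π = Ioc (-π) 0 ∪ Ioo 0 π :=
    (Ioc_union_Ioo_eq_Ioo (by linarith [pi_pos]) pi_pos).symm
  rw [hu, lintegral_union measurableSet_Ioo (by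
    rw [Set.disjoint_left]; intro a h1 h2; exact absurd h2.1 (not_lt.2 h1.2))]
  have z : ∫⁻ θ in Ioc (-π) 0, ENNReal.ofReal (sin θ) = 0 := by
    rw [setLIntegral_congr_fun measurableSet_Ioc (g := fun _ => 0) fun θ hθ =>
      ENNReal.ofReal_of_nonpos (sin_nonpos_of_nonpos_of_neg_pi_le hθ.2 hθ.1.le)]
    simp
  rw [z, zero_add, ← ofReal_integral_eq_lintegral_ofReal
    ((continuous_sin.integrableOn_Icc (a := 0) (b := π)).mono_set Ioo_subset_Icc_self)
    ((ae_restrict_iff' measurableSet_Ioo).2 (Eventually.of_forall fun θ hθ =>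
      sin_nonneg_of_nonneg_of_le_pi hθ.1.le hθ.2.le)),
    ← integral_Ioc_eq_integral_Ioo, ← intervalIntegral.integral_of_le pi_pos.le, integral_sin]
  norm_num

lemma newton_axis_nn {γ : ℝ → ℝ} (hm : Measurable γ) (hn : ∀ t, 0 ≤ γ t) {s : ℝ} (hs : 0 < s) :
    psi (fun y => γ ‖y‖) (s • e0) = ∫ y : E3, γ ‖y‖ * (max s ‖y‖)⁻¹ := by
  have hmax : ∀ r : ℝ, 0 < max s r := fun r => hs.trans_le (le_max_left _ _)
  have m0 : Measurable fun y : E3 => γ ‖y‖ := hm.comp measurable_norm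
  unfold psi
  rw [integral_eq_lintegral_of_nonneg_ae
      (Eventually.of_forall fun y => mul_nonneg (inv_nonneg.2 (norm_nonneg _)) (hn _))
      ((measurable_ker _).mul m0).aestronglyMeasurable,
    integral_eq_lintegral_of_nonneg_ae
      (Eventually.of_forall fun y => mul_nonneg (hn _) (inv_nonneg.2 (hmax _).le))
      (m0.mul (measurable_const.max measurable_norm).inv).aestronglyMeasurable]
  congr 1
  have hG : Measurable (fun p : ℝ × ℝ =>
      ENNReal.ofReal ((√(s ^ 2 + p.2 ^ 2 - 2 * s * p.1))⁻¹ * γ p.2)) :=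
    (((measurable_const.add (measurable_snd.pow_const 2)).sub
      (measurable_fst.const_mul _)).sqrt.inv.mul (hm.comp measurable_snd)).ennreal_ofReal
  have hG' : Measurable (fun p : ℝ × ℝ => ENNReal.ofReal (γ p.2 * (max s p.2)⁻¹)) :=
    ((hm.comp measurable_snd).mul (measurable_const.max measurable_snd).inv).ennreal_ofReal
  have h1 := spherical hG
  have h2 := spherical hG'
  simp only [norm_e0_sub]
  rw [h1, h2, ← lintegral_indicator measurableSet_Ioi, ← lintegral_indicator measurableSet_Ioi]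
  refine lintegral_congr_ae ?_
  have hae : ∀ᵐ r : ℝ, r ≠ s := compl_mem_ae_iff.2 (measure_singleton s)
  filter_upwards [hae] with r hr
  by_cases h0 : r ∈ Ioi (0 : ℝ)
  · have hr0 : 0 < r := h0
    have hp := hn r
    have hq := hmax r
    have hpi := pi_pos
    have e : ∀ θ : ℝ, ENNReal.ofReal r * (ENNReal.ofReal (2 * π) * (ENNReal.ofReal (r * sin θ) *
        ENNReal.ofReal ((√(s ^ 2 + r ^ 2 - 2 * s * (r * cos θ)))⁻¹ * γ r))) =
        ENNReal.ofReal (r * (2 * π) * (r * γ r)) *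
          ENNReal.ofReal (sin θ * (√(s ^ 2 + r ^ 2 - 2 * s * (r * cos θ)))⁻¹) := by
      intro θ
      rw [← ENNReal.ofReal_mul' (by positivity), ← ENNReal.ofReal_mul (by positivity),
        ← ENNReal.ofReal_mul (by positivity), ← ENNReal.ofReal_mul (by positivity)]
      congr 1; ring
    have e' : ∀ θ : ℝ, ENNReal.ofReal r * (ENNReal.ofReal (2 * π) * (ENNReal.ofReal (r * sin θ) *
        ENNReal.ofReal (γ r * (max s r)⁻¹))) =
        ENNReal.ofReal (r * (2 * π) * (r * γ r) * (max s r)⁻¹) * ENNReal.ofReal (sin θ) := by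
      intro θ
      rw [← ENNReal.ofReal_mul' (by positivity), ← ENNReal.ofReal_mul (by positivity),
        ← ENNReal.ofReal_mul (by positivity), ← ENNReal.ofReal_mul (by positivity)]
      congr 1; ring
    rw [indicator_of_mem h0, indicator_of_mem h0]
    simp only [e, e']
    rw [lintegral_const_mul' _ _ ENNReal.ofReal_ne_top, angular hs hr0 hr,
      lintegral_const_mul' _ _ ENNReal.ofReal_ne_top, newton_sin,
      ← ENNReal.ofReal_mul (by positivity), ← ENNReal.ofReal_mul (by positivity)]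
    congr 1; ring
  · rw [indicator_of_notMem h0, indicator_of_notMem h0]

lemma newton_nn {γ : ℝ → ℝ} (hm : Measurable γ) (hn : ∀ t, 0 ≤ γ t) (c x : E3) :
    psi (fun y => γ ‖y - c‖) x = ∫ y : E3, γ ‖y‖ * (max ‖x - c‖ ‖y‖)⁻¹ := by
  have e1 := integral_sub_right_eq_self (μ := (volume : Measure E3))
    (fun y => ‖x - c - y‖⁻¹ * γ ‖y‖) c
  simp only [sub_sub_sub_cancel_right] at e1
  by_cases h0 : x = c
  · subst h0
    unfold psi
    rw [e1]
    congr 1; ext y
    simp [mul_comm]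
  · rw [← newton_axis_nn hm hn (norm_pos_iff.2 (sub_ne_zero.2 h0))]
    obtain ⟨Q, hQ⟩ := exists_iso (x - c)
    unfold psi
    rw [e1, ← Q.measurePreserving.integral_comp Q.toHomeomorph.measurableEmbedding]
    congr 1; ext y
    rw [Q.norm_map]
    nth_rewrite 1 [← hQ]
    rw [← map_sub, Q.norm_map]

lemma newton_int {γ : ℝ → ℝ} {ℓ : ℝ} (h : Rad γ ℓ) (t : ℝ) :
    Integrable fun y : E3 => γ ‖y‖ * (max t ‖y‖)⁻¹ := by
  have h1 := (h.ll 0).psi_int 0
  simp only [sub_zero, zero_sub, norm_neg] at h1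
  refine h1.mono ((h.bd.meas.comp measurable_norm).mul
    (measurable_const.max measurable_norm).inv).aestronglyMeasurable ?_
  filter_upwards [ae_ne (0 : E3)] with y hy
  have hy0 : 0 < ‖y‖ := norm_pos_iff.2 hy
  have hq : 0 < max t ‖y‖ := hy0.trans_le (le_max_right _ _)
  rw [norm_mul, norm_mul, mul_comm, Real.norm_of_nonneg (inv_nonneg.2 hq.le),
    Real.norm_of_nonneg (inv_nonneg.2 hy0.le)]
  exact mul_le_mul_of_nonneg_right (inv_anti₀ hy0 (le_max_right _ _)) (norm_nonneg _)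

lemma newton_rad_pos {γ : ℝ → ℝ} {ℓ : ℝ} (h : Rad γ ℓ) : Rad (fun t => max (γ t) 0) ℓ :=
  ⟨h.bd.max (Bd.const 0), fun t ht => by simp [h.supp t ht]⟩

lemma newton_rad_neg {γ : ℝ → ℝ} {ℓ : ℝ} (h : Rad γ ℓ) : Rad (fun t => -γ t) ℓ :=
  ⟨h.bd.neg, fun t ht => by simp [h.supp t ht]⟩

theorem st_newton : St_newton := by
  intro γ ℓ c x h
  have hp := newton_rad_pos h
  have hq := newton_rad_pos (newton_rad_neg h)
  have e : ∀ t, γ t = max (γ t) 0 - max (-γ t) 0 := fun t =>
    (max_zero_sub_max_neg_zero_eq_self _).symm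
  have e1 : (fun y : E3 => γ ‖y - c‖) =
      fun y => max (γ ‖y - c‖) 0 - max (-γ ‖y - c‖) 0 := funext fun y => e _
  rw [e1, (hp.ll c).psi_sub (hq.ll c) x,
    newton_nn hp.bd.meas (fun t => le_max_right _ _) c x,
    newton_nn hq.bd.meas (fun t => le_max_right _ _) c x,
    ← integral_sub (newton_int hp _) (newton_int hq _)]
  congr 1; ext y
  rw [← sub_mul, ← e]

/-! ## Shells -/

lemma newton_shell_meas (R₁ R₂ : ℝ) : MeasurableSet {y : E3 | R₁ ≤ ‖y‖ ∧ ‖y‖ ≤ R₂} :=
  (measurableSet_le measurable_const measurable_norm).inter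
    (measurableSet_le measurable_norm measurable_const)

lemma newton_shell_vol {R₁ R₂ : ℝ} (h0 : 0 ≤ R₁) (h : R₁ ≤ R₂) :
    volume.real {y : E3 | R₁ ≤ ‖y‖ ∧ ‖y‖ ≤ R₂} = 4 * π / 3 * (R₂ ^ 3 - R₁ ^ 3) := by
  have e : {y : E3 | R₁ ≤ ‖y‖ ∧ ‖y‖ ≤ R₂} = closedBall 0 R₂ \ ball 0 R₁ := by
    ext y; simp [and_comm]
  have hsub : ball (0 : E3) R₁ ⊆ closedBall 0 R₂ :=
    ball_subset_closedBall.trans (closedBall_subset_closedBall h)
  rw [e, measureReal_sdiff hsub measurableSet_ball measure_closedBall_lt_top.ne]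
  have h2 : 0 ≤ R₂ := h0.trans h
  have hpi := pi_pos
  simp only [Measure.real, EuclideanSpace.volume_ball_fin_three,
    EuclideanSpace.volume_closedBall_fin_three, ENNReal.toReal_mul, ENNReal.toReal_pow,
    ENNReal.toReal_ofReal h0, ENNReal.toReal_ofReal h2,
    ENNReal.toReal_ofReal (show 0 ≤ π * 4 / 3 by positivity)]
  ring

lemma newton_int_shell {R₁ R₂ : ℝ} (h0 : 0 ≤ R₁) (h : R₁ ≤ R₂) (A : ℝ) :
    HI (fun y : E3 => if R₁ ≤ ‖y‖ ∧ ‖y‖ ≤ R₂ then A else 0)
      (A * (4 * π / 3 * (R₂ ^ 3 - R₁ ^ 3))) := by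
  have e : (fun y : E3 => if R₁ ≤ ‖y‖ ∧ ‖y‖ ≤ R₂ then A else 0) =
      indicator {y : E3 | R₁ ≤ ‖y‖ ∧ ‖y‖ ≤ R₂} fun _ => A := by
    ext y; simp [indicator]
  rw [e]
  refine ⟨(integrable_indicator_iff (newton_shell_meas _ _)).2 (integrableOn_const ?_), ?_⟩
  · exact ((measure_mono (t := closedBall (0 : E3) R₂) fun y hy =>
      mem_closedBall_zero_iff.2 hy.2).trans_lt measure_closedBall_lt_top).ne
  · rw [integral_indicator_const _ (newton_shell_meas _ _), newton_shell_vol h0 h, smul_eq_mul,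
      mul_comm]

lemma newton_rad_shell (R₁ R₂ A : ℝ) : Rad (fun t => if R₁ ≤ t ∧ t ≤ R₂ then A else 0) R₂ :=
  ⟨Bd.ite (measurableSet_Icc (a := R₁) (b := R₂)) (Bd.const A) (Bd.const 0),
    fun _ ht => if_neg fun h => absurd h.2 (not_le.2 ht)⟩

lemma newton_sh_rad (R : ℝ) : Rad (sh R) R := newton_rad_shell _ _ _

lemma newton_sh_nonneg {R : ℝ} (hR : 0 < R) (t : ℝ) : 0 ≤ sh R t := by
  have := pi_pos
  unfold sh; split_ifs <;> positivity

lemma newton_sh_HI {R : ℝ} (hR : 0 < R) : HI (fun y : E3 => sh R ‖y‖) 1 := by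
  have h := newton_int_shell (R₁ := R / 2) (R₂ := R) (by positivity) (by linarith)
    (7 * π / 6 * R ^ 3)⁻¹
  have e : (7 * π / 6 * R ^ 3)⁻¹ * (4 * π / 3 * (R ^ 3 - (R / 2) ^ 3)) = 1 := by
    have := pi_pos
    field_simp
    ring
  rw [e] at h
  exact h

lemma newton_sh_mono {R u a b : ℝ} (hR : 0 < R) (h : R / 2 ≤ u → u ≤ R → a ≤ b) :
    sh R u * a ≤ sh R u * b := by
  by_cases hu : R / 2 ≤ u ∧ u ≤ R
  · exact mul_le_mul_of_nonneg_left (h hu.1 hu.2) (newton_sh_nonneg hR u)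
  · simp [sh, hu]

theorem st_shell : St_shell := by
  refine ⟨fun R hR => ⟨newton_sh_rad R, newton_sh_nonneg hR, (newton_sh_HI hR).2,
    fun c x => st_newton _ _ c x (newton_sh_rad R), fun t ht => ?_⟩, ?_⟩
  · have hc : ∀ a : ℝ, HI (fun y : E3 => sh R ‖y‖ * a) a := fun a => by
      have := (newton_sh_HI hR).const_mul a
      simpa only [one_mul, mul_comm a] using this
    have hU : ∀ t, HI (fun y : E3 => sh R ‖y‖ * (max t ‖y‖)⁻¹) (Ub R t) := fun t =>
      HI.of (newton_int (newton_sh_rad R) t)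
    refine ⟨(hc _).le (hU t) (Eventually.of_forall fun y => newton_sh_mono hR fun h1 h2 => ?_),
      (hU t).le (hc _) (Eventually.of_forall fun y => newton_sh_mono hR fun h1 h2 => ?_),
      (hU t).le (hU 0) (Eventually.of_forall fun y => newton_sh_mono hR fun h1 h2 => ?_),
      fun h => (hU t).eq (hU 0) (Eventually.of_forall fun y => ?_)⟩
    · exact inv_anti₀ (lt_max_of_lt_right (by linarith)) (max_le_max le_rfl h2)
    · exact inv_anti₀ (lt_max_of_lt_right (by linarith)) (max_le_max le_rfl h1)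
    · exact inv_anti₀ (lt_max_of_lt_right (by linarith)) (max_le_max ht le_rfl)
    · by_cases hu : R / 2 ≤ ‖y‖ ∧ ‖y‖ ≤ R
      · simp only [max_eq_right (h.trans hu.1), max_eq_right (norm_nonneg y)]
      · simp [sh, hu]
  · intro ν A R₁ R₂ hm h1 h12 hν hs
    have hA : 0 ≤ A := (hν 0).1.trans (hν 0).2
    have hpi := pi_pos
    have hv : 4 * π / 3 * (R₂ ^ 3 - R₁ ^ 3) ≤ 4 * π * R₂ ^ 2 * (R₂ - R₁) := by
      have h2 : 0 ≤ (R₂ - R₁) ^ 2 * (2 * R₂ + R₁) := by
        have : 0 ≤ R₂ := by linarith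
        positivity
      nlinarith [mul_nonneg hpi.le h2]
    have hout : ∀ y : E3, ¬(R₁ ≤ ‖y‖ ∧ ‖y‖ ≤ R₂) → ν y = 0 := fun y hy => hs y (by
      rcases not_and_or.1 hy with h | h
      · exact Or.inl (not_le.1 h)
      · exact Or.inr (not_le.1 h))
    have hL : LL ν := LL_of_bd ⟨hm, A, fun y => by rw [abs_of_nonneg (hν y).1]; exact (hν y).2⟩
      (c := 0) (L := R₂) fun y hy => hs y (Or.inr (by simpa using hy))
    refine ⟨?_, ?_, fun x => ?_⟩
    · refine (hL.HN.le (newton_int_shell h1.le h12 A) (Eventually.of_forall fun y => ?_)).trans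
        (mul_le_mul_of_nonneg_left hv hA)
      split_ifs with hy
      · rw [abs_of_nonneg (hν y).1]; exact (hν y).2
      · rw [hout y hy, abs_zero]
    · refine (hL.HK.le (newton_int_shell h1.le h12 (A ^ (5 / 3 : ℝ)))
        (Eventually.of_forall fun y => ?_)).trans (mul_le_mul_of_nonneg_left hv (by positivity))
      split_ifs with hy
      · rw [abs_of_nonneg (hν y).1]
        exact Real.rpow_le_rpow (hν y).1 (hν y).2 (by norm_num)
      · rw [hout y hy, abs_zero, Real.zero_rpow (by norm_num)]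
    · have hr := newton_rad_shell R₁ R₂ A
      have s1 : psi ν x ≤ psi (fun y => if R₁ ≤ ‖y - 0‖ ∧ ‖y - 0‖ ≤ R₂ then A else 0) x := by
        refine (hL.Hpsi x).le ((hr.ll 0).Hpsi x) (Eventually.of_forall fun y => ?_)
        refine mul_le_mul_of_nonneg_left ?_ (inv_nonneg.2 (norm_nonneg _))
        simp only [sub_zero]
        split_ifs with hy
        · exact (hν y).2
        · exact (hout y hy).le
      rw [st_newton _ _ 0 x hr] at s1
      have s2 := (HI.of (newton_int hr ‖x - 0‖)).le (newton_int_shell h1.le h12 (A / R₁))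
        (Eventually.of_forall fun y => by
          split_ifs with hy
          · exact mul_le_mul_of_nonneg_left
              (inv_anti₀ h1 (hy.1.trans (le_max_right _ _))) hA
          · simp)
      refine s1.trans (s2.trans ?_)
      rw [div_mul_eq_mul_div]
      exact div_le_div_of_nonneg_right (mul_le_mul_of_nonneg_left hv hA) h1.le

end Pool.Agent.Lib.ION
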