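import Pool.Agent.Lib.ION.Basic
import Pool.Agent.Lib.MP_6c3a95_mp.Fields

/-!
# Weak eigenfunctions give tight families of test functions
-/

open MeasureTheory Set Metric Real Filter Topology
open scoped ContDiff

set_option linter.unusedSectionVars false

noncomputable section

namespace Pool.Agent.Lib.ION

open Pool.Agent.Lib.MP_6c3a95_mp

namespace Brg

section Gen

variable {X : Type} [NormedAddCommGroup X] [NormedSpace ℝ X] [FiniteDimensional ℝ X]
  [MeasurableSpace X] [BorelSpace X] {μ : Measure X} [μ.IsAddHaarMeasure]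
  {a a' : ℕ → X → ℝ} {b b' : X → ℝ}

lemma cv_sq (h : Cv μ a b) : Tendsto (fun n => ∫ x, (a n x - b x) ^ 2 ∂μ) atTop (𝓝 0) := by
  have h1 : Cv μ (fun n => a n - b) fun _ => 0 :=
    ⟨fun n => (h.mem n).sub h.lim, MemLp.zero', by
      simpa only [← Pi.zero_def, sub_zero] using h.tend⟩
  simpa [sq] using h1.integral_mul h1

lemma cv_of_sq (ha : ∀ n, MemLp (a n) 2 μ) (hb : MemLp b 2 μ) {e : ℕ → ℝ}
    (he : Tendsto e atTop (𝓝 0)) (h : ∀ n, ∫ x, (a n x - b x) ^ 2 ∂μ ≤ e n) : Cv μ a b := by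
  refine ⟨ha, hb, tendsto_of_tendsto_of_tendsto_of_le_of_le tendsto_const_nhds ?_
    (fun _ => zero_le) fun n => eLpNorm_le_of_sq ((ha n).sub hb) (h n)⟩
  simpa using ENNReal.tendsto_ofReal he.sqrt

lemma cv_add (h : Cv μ a b) (h' : Cv μ a' b') :
    Cv μ (fun n x => a n x + a' n x) fun x => b x + b' x := by
  refine cv_of_sq (fun n => (h.mem n).add (h'.mem n)) (h.lim.add h'.lim)
    (by simpa using ((cv_sq h).const_mul 2).add ((cv_sq h').const_mul 2)) fun n => ?_
  refine (HI.of (((h.mem n).add (h'.mem n)).sub (h.lim.add h'.lim)).integrable_sq).le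
    (((HI.of ((h.mem n).sub h.lim).integrable_sq).const_mul 2).add
      ((HI.of ((h'.mem n).sub h'.lim).integrable_sq).const_mul 2))
    (Eventually.of_forall fun x => ?_)
  simp only [Pi.sub_apply, Pi.add_apply]
  nlinarith [sq_nonneg (a n x - b x - (a' n x - b' x))]

lemma cv_sum {κ : Type} (s : Finset κ) {a : κ → ℕ → X → ℝ} {b : κ → X → ℝ}
    (h : ∀ i ∈ s, Cv μ (a i) (b i)) :
    Cv μ (fun n x => ∑ i ∈ s, a i n x) fun x => ∑ i ∈ s, b i x := by
  classical
  induction s using Finset.induction_on with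
  | empty => simpa using Cv.const (μ := μ) (b := fun _ => (0 : ℝ)) MemLp.zero'
  | insert i s hi ih =>
    simp only [Finset.sum_insert hi]
    exact cv_add (h i (Finset.mem_insert_self _ _)) (ih fun j hj => h j (Finset.mem_insert_of_mem hj))

lemma cv_cmul (h : Cv μ a b) (c : ℝ) : Cv μ (fun n x => c * a n x) fun x => c * b x :=
  h.mul (memLp_top_const c)

lemma cv_congr (h : Cv μ a b) (e : b =ᵐ[μ] b') : Cv μ a b' :=
  ⟨h.mem, h.lim.ae_eq e, h.tend.congr fun _ => eLpNorm_congr_ae (EventuallyEq.rfl.sub e)⟩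

lemma cv_comp (h : Cv μ a b) {T : X → X} (hT : MeasurePreserving T μ μ) :
    Cv μ (fun n x => a n (T x)) fun x => b (T x) :=
  ⟨fun n => (h.mem n).comp_measurePreserving hT, h.lim.comp_measurePreserving hT,
    h.tend.congr fun n => (eLpNorm_comp_measurePreserving ((h.mem n).sub h.lim).1 hT).symm⟩

lemma cv_bmul (h : Cv μ a b) {k : ℕ → X → ℝ} {c C : ℝ} (hk : ∀ n, Continuous (k n))
    (hC : ∀ n x, |k n x| ≤ C) (ht : ∀ x, Tendsto (fun n => k n x) atTop (𝓝 c)) :
    Cv μ (fun n x => k n x * a n x) fun x => c * b x := by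
  have m : ∀ n, MemLp (k n) ⊤ μ := fun n =>
    memLp_top_of_bound (hk n).aestronglyMeasurable C (Eventually.of_forall (hC n))
  have m2 : ∀ n, MemLp (fun x => (k n x - c) * b x) 2 μ := fun n =>
    h.lim.mul' ((m n).sub (memLp_top_const c))
  have t : Tendsto (fun n => ∫ x, ((k n x - c) * b x) ^ 2 ∂μ) atTop (𝓝 (∫ _, (0 : ℝ) ∂μ)) := by
    refine tendsto_integral_of_dominated_convergence (fun x => (C + |c|) ^ 2 * b x ^ 2)
      (fun n => (m2 n).integrable_sq.1) (h.lim.integrable_sq.const_mul _)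
      (fun n => Eventually.of_forall fun x => ?_) (Eventually.of_forall fun x => ?_)
    · rw [Real.norm_of_nonneg (sq_nonneg _), mul_pow, ← sq_abs (k n x - c)]
      gcongr
      exact (abs_sub _ _).trans (add_le_add_left (hC n x) _)
    · simpa using (((ht x).sub_const c).mul_const (b x)).pow 2
  refine cv_of_sq (fun n => (h.mem n).mul' (m n)) (h.lim.const_mul c)
    (by simpa using ((cv_sq h).const_mul (2 * C ^ 2)).add (t.const_mul 2)) fun n => ?_
  refine (HI.of (((h.mem n).mul' (r := 2) (m n)).sub (h.lim.const_mul c)).integrable_sq).le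
    (((HI.of ((h.mem n).sub h.lim).integrable_sq).const_mul (2 * C ^ 2)).add
      ((HI.of (m2 n).integrable_sq).const_mul 2)) (Eventually.of_forall fun x => ?_)
  simp only [Pi.sub_apply]
  have h1 : k n x ^ 2 ≤ C ^ 2 := by
    rw [← sq_abs]; exact pow_le_pow_left₀ (abs_nonneg _) (hC n x) 2
  nlinarith [sq_nonneg (k n x * (a n x - b x) - (k n x - c) * b x),
    mul_le_mul_of_nonneg_right h1 (sq_nonneg (a n x - b x))]

lemma ld_dd {f : X → ℝ} (hf : ContDiff ℝ ∞ f) (w : X) : LD f (dd f w) w := fun x =>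
  (hf.differentiable (by simp) x).hasFDerivAt.hasLineDerivAt w

lemma wd_test {φ : X → ℝ} (h : Test φ) (w : X) : WD μ φ (dd φ w) w := fun ψ hψ =>
  integral_mul_fderiv_eq_neg_fderiv_mul_of_integrable
    ((h.dd w).memLp.integrable_mul hψ.memLp) (h.memLp.integrable_mul (hψ.dd w).memLp)
    (h.memLp.integrable_mul hψ.memLp) (fun x _ => h.smooth.differentiable (by simp) x)
    fun x _ => hψ.smooth.differentiable (by simp) x

lemma wd_sub {u g u' g' : X → ℝ} {w : X} (h : WD μ u g w) (h' : WD μ u' g' w)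
    (hu : MemLp u 2 μ) (hg : MemLp g 2 μ) (hu' : MemLp u' 2 μ) (hg' : MemLp g' 2 μ) :
    WD μ (u - u') (g - g') w := fun φ hφ => by
  simp only [Pi.sub_apply, sub_mul]
  refine (integral_sub (hu.integrable_mul (hφ.dd w).memLp)
    (hu'.integrable_mul (hφ.dd w).memLp)).trans (((congrArg₂ (· - ·) (h φ hφ) (h' φ hφ)).trans
    (neg_sub_neg _ _)).trans ((neg_sub _ _).symm.trans (congrArg Neg.neg
    (integral_sub (hg.integrable_mul hφ.memLp) (hg'.integrable_mul hφ.memLp)).symm)))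

lemma wd_unique {u g g' : X → ℝ} {w : X} (ha : ∀ n, Test (a n)) (h1 : Cv μ a u)
    (h2 : Cv μ (fun n => dd (a n) w) g') (h : WD μ u g w) (hg : MemLp g 2 μ) : g' =ᵐ[μ] g := by
  refine ae_eq_of_integral_contDiff_smul_eq (h2.lim.locallyIntegrable (by norm_num))
    (hg.locallyIntegrable (by norm_num)) fun φ s c => ?_
  have hφ : Test φ := ⟨s, c⟩
  have t1 := h1.integral_mul (Cv.const (hφ.dd w).memLp)
  have t2 := (h2.integral_mul (Cv.const hφ.memLp)).neg
  have := tendsto_nhds_unique t1 (t2.congr fun n => (wd_test (ha n) w φ hφ).symm)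
  have e := h φ hφ
  simp only [smul_eq_mul, mul_comm (φ _)]
  exact neg_injective (this.symm.trans e)

lemma cv_hardy (L : X →L[ℝ] E3) (w : Fin 3 → X) (hw : ∀ i, L (w i) = bv i) {u : X → ℝ}
    {G : Fin 3 → X → ℝ} (ha : ∀ n, Test (a n)) (h1 : Cv μ a u)
    (h2 : ∀ i, Cv μ (fun n => dd (a n) (w i)) (G i)) (hd : ∀ i, WD μ u (G i) (w i)) :
    Cv μ (fun n x => ‖L x‖⁻¹ * a n x) fun x => ‖L x‖⁻¹ * u x := by
  simp only [← one_div]
  refine cv_of_sq (fun n => (hardy L w hw (h1.mem n) (fun i => (h2 i).mem n)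
    fun i => wd_test (ha n) _).lim) (hardy L w hw h1.lim (fun i => (h2 i).lim) hd).lim
    (by simpa using (tendsto_finsetSum Finset.univ fun i _ => cv_sq (h2 i)).const_mul 4) fun n => ?_
  have m1 := (h1.mem n).sub h1.lim
  have m2 := fun i => ((h2 i).mem n).sub (h2 i).lim
  have d := fun i => wd_sub (wd_test (ha n) (w i)) (hd i) (h1.mem n) ((h2 i).mem n) h1.lim
    (h2 i).lim
  have c := hardy L w hw m1 m2 d
  have := le_of_tendsto' (c.integral_mul c) fun m => by
    simpa only [sq] using hardy_reg L w hw m1 m2 d (eta_pos m)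
  simpa only [Pi.sub_apply, mul_sub, sq] using this

lemma approx {ι : Type} (e : ι → X) {u : X → ℝ} {G : ι → X → ℝ} (hu : MemLp u 2 μ)
    (hG : ∀ i, MemLp (G i) 2 μ) (hd : ∀ i, WD μ u (G i) (e i)) :
    ∃ v : ℕ → X → ℝ, (∀ n, Test (v n)) ∧ Cv μ v u ∧
      ∀ i, Cv μ (fun n => dd (v n) (e i)) (G i) := by
  have hχ : Test (bump X 0) := ⟨(bump X 0).contDiff, (bump X 0).hasCompactSupport⟩
  have hk : ∀ n, Test fun x => bump X 0 (eta n • x) := fun n =>
    ⟨hχ.smooth.comp (contDiff_const_smul _), hχ.cpt.comp_smul (eta_pos n).ne'⟩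
  have t0 : ∀ x : X, Tendsto (fun n => eta n • x) atTop (𝓝 0) := fun x => by
    simpa using eta_tendsto.smul_const x
  have hc : ∀ {a : ℕ → X → ℝ} {b : X → ℝ}, Cv μ a b →
      Cv μ (fun n x => bump X 0 (eta n • x) * a n x) b := fun h => by
    simpa using cv_bmul h (c := 1) (C := 1) (fun n => (hk n).smooth.continuous)
      (fun n x => abs_le.2 ⟨neg_one_lt_zero.le.trans (bump X 0).nonneg, (bump X 0).le_one⟩)
      fun x => by
        have := (hχ.smooth.continuous.tendsto 0).comp (t0 x)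
        rwa [(bump X 0).one_of_mem_closedBall (mem_closedBall_self (bump X 0).rIn_pos.le)] at this
  have ht : ∀ n, Test fun x => bump X 0 (eta n • x) * mol μ u (rho μ n) x := fun n =>
    ⟨(hk n).smooth.mul (mol_smooth hu (rho_test n)), (hk n).cpt.mul_right⟩
  refine ⟨_, ht, hc (mol_cv hu), fun i => ?_⟩
  obtain ⟨C, hC⟩ := (hχ.dd (e i)).smooth.continuous.bounded_above_of_compact_support
    (hχ.dd (e i)).cpt
  have c1 := cv_bmul (mol_cv hu) (k := fun n x => eta n * dd (bump X 0) (e i) (eta n • x))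
    (c := 0) (C := C)
    (fun n => continuous_const.mul ((hχ.dd (e i)).smooth.continuous.comp (continuous_const_smul _)))
    (fun n x => by
      rw [abs_mul, abs_of_pos (eta_pos n)]
      refine (mul_le_of_le_one_left (abs_nonneg _) ?_).trans (hC _)
      rw [eta, div_le_one (by positivity)]
      simp)
    fun x => by simpa using eta_tendsto.mul (((hχ.dd (e i)).smooth.continuous.tendsto 0).comp (t0 x))
  have c2 := cv_add c1 (hc (mol_cv (hG i)))
  simp only [zero_mul, zero_add] at c2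
  convert c2 using 3 with n x
  refine (ld_dd (ht n).smooth (e i) x).unique (LD.mul (f := fun x => bump X 0 (eta n • x))
    (f' := fun x => eta n * dd (bump X 0) (e i) (eta n • x)) (fun y => ?_)
    ((hd i).ld hu (rho_test (μ := μ) n)) x)
  have := ((hχ.smooth.differentiable (by simp) (eta n • y)).hasFDerivAt.comp y
    ((hasFDerivAt_id y).const_smul (eta n))).hasLineDerivAt (e i)
  exact this.congr_deriv (by simp [dd])

end Gen

variable {ι : Type} [Fintype ι] [DecidableEq ι]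

/-- permutation of the particles -/
def pm (σ : Equiv.Perm ι) : Cfg ι ≃L[ℝ] Cfg ι :=
  (LinearEquiv.funCongrLeft ℝ E3 σ).toContinuousLinearEquiv

lemma pm_apply (σ : Equiv.Perm ι) (X : Cfg ι) : pm σ X = X ∘ σ := rfl

lemma pm_mp (σ : Equiv.Perm ι) : MeasurePreserving (fun X : Cfg ι => X ∘ σ) volume volume :=
  volume_preserving_arrowCongr' σ.symm (MeasurableEquiv.refl E3) (MeasurePreserving.id _)

lemma test_pm {φ : Cfg ι → ℝ} (h : Test φ) (σ : Equiv.Perm ι) : Test fun X => φ (X ∘ σ) :=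
  ⟨h.smooth.comp (pm σ).contDiff, h.cpt.comp_homeomorph (pm σ).toHomeomorph⟩

/-- antisymmetrisation -/
def asy (f : Equiv.Perm ι → Cfg ι → ℝ) (X : Cfg ι) : ℝ :=
  (Fintype.card (Equiv.Perm ι) : ℝ)⁻¹ * ∑ σ : Equiv.Perm ι, ((σ.sign : ℤ) : ℝ) * f σ (X ∘ σ)

lemma cv_asy {a : Equiv.Perm ι → ℕ → Cfg ι → ℝ} {b : Equiv.Perm ι → Cfg ι → ℝ}
    (h : ∀ σ, Cv volume (a σ) (b σ)) : Cv volume (fun n => asy fun σ => a σ n) (asy b) :=
  cv_cmul (cv_sum _ fun σ _ => cv_cmul (cv_comp (h σ) (pm_mp σ)) _) _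

lemma test_asy {φ : Cfg ι → ℝ} (h : Test φ) : Test (asy fun _ => φ) := by
  refine ⟨contDiff_const.mul (ContDiff.sum fun σ _ => contDiff_const.mul (test_pm h σ).smooth),
    HasCompactSupport.mul_left ?_⟩
  have := HasCompactSupport.finset_sum (s := Finset.univ)
    (f := fun (σ : Equiv.Perm ι) (X : Cfg ι) => ((σ.sign : ℤ) : ℝ) * φ (X ∘ σ))
    fun σ _ => (test_pm h σ).cpt.mul_left
  rwa [Finset.sum_fn] at this

lemma dd_asy {φ : Cfg ι → ℝ} (h : Test φ) (j : ι) (a : Fin 3) :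
    dd (asy fun _ => φ) (ev j a) = asy fun σ => dd φ (ev (σ.symm j) a) := by
  funext X
  refine (ld_dd (test_asy h).smooth _ X).unique (HasDerivAt.const_mul _
    (HasDerivAt.fun_sum fun σ _ => HasDerivAt.const_mul _ ?_))
  have e : ev (σ.symm j) a = ev j a ∘ σ := by
    funext i
    simp [ev, Pi.single_apply, Equiv.eq_symm_apply]
  have := ld_dd h.smooth (ev j a ∘ σ) (X ∘ σ)
  simp only [e]
  exact this

lemma asy_swap (φ : Cfg ι → ℝ) {i j : ι} (h : i ≠ j) (X : Cfg ι) :
    asy (fun _ => φ) (X ∘ Equiv.swap i j) = -asy (fun _ => φ) X := by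
  simp only [asy]
  rw [← mul_neg, ← Finset.sum_neg_distrib,
    ← Equiv.sum_comp (Equiv.mulLeft (Equiv.swap i j)) fun σ => -_]
  refine congrArg _ (Finset.sum_congr rfl fun σ _ => ?_)
  simp [Equiv.Perm.sign_swap h, Function.comp_def]

lemma asy_eq {u : Cfg ι → ℝ} (h : ∀ i j, i ≠ j → ∀ᵐ X : Cfg ι, u (X ∘ Equiv.swap i j) = -u X) :
    asy (fun _ => u) =ᵐ[volume] u := by
  have k : ∀ σ : Equiv.Perm ι, ∀ᵐ X : Cfg ι, ((σ.sign : ℤ) : ℝ) * u (X ∘ σ) = u X := fun σ => by
    induction σ using Equiv.Perm.swap_induction_on with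
    | one => simp
    | swap_mul f i j hij ih =>
      filter_upwards [(pm_mp (Equiv.swap i j)).quasiMeasurePreserving.ae ih, h i j hij]
        with X h1 h2
      rw [h2] at h1
      simpa [Equiv.Perm.sign_swap hij, Function.comp_def, neg_eq_iff_eq_neg] using h1
  filter_upwards [eventually_all.2 k] with X hX
  have : (Fintype.card (Equiv.Perm ι) : ℝ) ≠ 0 := by simp
  simp [asy, hX, this]

lemma cv_V (Z : ℝ) {w : ℕ → Cfg ι → ℝ} {u : Cfg ι → ℝ} {G : ι → Fin 3 → Cfg ι → ℝ}
    (hw : ∀ n, Test (w n)) (h1 : Cv volume w u)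
    (h2 : ∀ j a, Cv volume (fun n => dd (w n) (ev j a)) (G j a))
    (hd : ∀ j a, WD volume u (G j a) (ev j a)) :
    Cv volume (fun n X => VOn Z Finset.univ X * w n X) fun X => VOn Z Finset.univ X * u X := by
  have p : ∀ i j, Cv volume (fun n (X : Cfg ι) => ‖X i - X j‖⁻¹ * w n X)
      fun X => ‖X i - X j‖⁻¹ * u X := fun i j => by
    by_cases h : j = i
    · simpa [h] using Cv.const (μ := volume) (b := fun _ : Cfg ι => (0 : ℝ)) MemLp.zero'
    · exact cv_hardy (ContinuousLinearMap.proj (R := ℝ) (φ := fun _ : ι => E3) i -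
        ContinuousLinearMap.proj (R := ℝ) (φ := fun _ : ι => E3) j) (ev i) (fun a => by
          change ev i a i - ev i a j = _
          simp [ev, h]; rfl) hw h1 (h2 i) (hd i)
  have q : ∀ j, Cv volume (fun n (X : Cfg ι) => ‖X j‖⁻¹ * w n X) fun X => ‖X j‖⁻¹ * u X :=
    fun j => cv_hardy (ContinuousLinearMap.proj (R := ℝ) (φ := fun _ : ι => E3) j) (ev j)
      (fun a => by simp [ev]; rfl) hw h1 (h2 j) (hd j)
  simpa only [VOn, add_mul, mul_assoc, Finset.sum_mul] using
    cv_add (cv_cmul (cv_sum Finset.univ fun j _ => q j) (-Z))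
      (cv_cmul (cv_sum Finset.univ fun i _ => cv_sum Finset.univ fun j _ => p i j) (1 / 2))

/-- a real function times a constant, as a complex function -/
def cx (c : ℝ) (φ : Cfg ι → ℝ) (X : Cfg ι) : ℂ := (c * φ X : ℝ)

lemma Ex_cx (c : ℝ) (φ G : Cfg ι → ℝ) : Ex (cx c φ) G = c ^ 2 * ∫ X, G X * φ X * φ X := by
  rw [Ex, ← integral_const_mul]
  congr 1
  funext X
  rw [cx, Complex.norm_real, Real.norm_eq_abs, sq_abs]
  ring

lemma Kn_cx (c : ℝ) {φ : Cfg ι → ℝ} (h : Test φ) (j : ι) :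
    Kn (cx c φ) j = c ^ 2 * ∑ a, ∫ X, dd φ (ev j a) X * dd φ (ev j a) X := by
  rw [← integral_finsetSum (f := fun a X => dd φ (ev j a) X * dd φ (ev j a) X) _
    fun a _ => (h.dd _).memLp.integrable_mul (h.dd _).memLp, Kn, ← integral_const_mul]
  congr 1
  funext X
  rw [kin, Finset.mul_sum]
  refine Finset.sum_congr rfl fun a _ => ?_
  have := Complex.ofRealCLM.hasFDerivAt.comp X
    ((h.smooth.differentiable (by simp) X).hasFDerivAt.const_mul c)
  rw [show cx c φ = Complex.ofRealCLM ∘ fun X => c * φ X from rfl, this.fderiv]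
  simp [dd, sq, mul_mul_mul_comm]

end Brg

open Brg in
theorem st_bridge (_ : St_cut) : St_bridge := by
  intro N Z lam u G hu hG hd heq ha h0
  have hd' : ∀ j a, WD volume u (G j a) (ev j a) := fun j a φ h => hd j a φ h.1 h.2
  obtain ⟨v, hv, c1, c2⟩ := approx (fun p : Fin N × Fin 3 => ev p.1 p.2)
    (G := fun p => G p.1 p.2) hu (fun p => hG _ _) fun p => hd' _ _
  have hw := fun n => test_asy (hv n)
  have d1 := cv_congr (cv_asy fun _ => c1) (asy_eq ha)
  have d2 : ∀ j a, Cv volume (fun n => dd (asy fun _ => v n) (ev j a)) (G j a) := fun j a => by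
    have := cv_asy fun σ => c2 (σ.symm j, a)
    simp only [← dd_asy (hv _)] at this
    exact cv_congr this (wd_unique hw d1 this (hd' j a) (hG j a))
  obtain ⟨w, hw, d1, d2, hs⟩ : ∃ w : ℕ → Cfg (Fin N) → ℝ, (∀ n, Test (w n)) ∧ Cv volume w u ∧
      (∀ j a, Cv volume (fun n => dd (w n) (ev j a)) (G j a)) ∧
      ∀ n i j, i ≠ j → ∀ X, w n (X ∘ Equiv.swap i j) = -w n X :=
    ⟨_, hw, d1, d2, fun n _ _ => asy_swap (v n)⟩
  have d3 := cv_V Z hw d1 d2 hd'
  set M := ∫ X, u X * u X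
  set K := ∑ j, ∑ a, ∫ X, G j a X * G j a X
  have hM : 0 < M := by
    refine (integral_nonneg fun X => mul_self_nonneg _).lt_of_ne' fun h => h0 ?_
    filter_upwards [(integral_eq_zero_iff_of_nonneg (fun X => mul_self_nonneg (u X))
      (hu.integrable_mul hu)).1 h] with X hX
    exact mul_self_eq_zero.1 hX
  have e1 : K + ∫ X, VOn Z Finset.univ X * u X * u X = lam * M := by
    refine tendsto_nhds_unique ((tendsto_finsetSum _ fun j _ => tendsto_finsetSum _ fun a _ =>
      (Cv.const (hG j a)).integral_mul (d2 j a)).add ((Cv.const d3.lim).integral_mul d1))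
      ((((Cv.const hu).integral_mul d1).const_mul lam).congr fun n => ?_)
    rw [← heq _ (hw n).1 (hw n).2]
    exact ((HI.sum _ fun j _ => HI.sum _ fun a _ => HI.of ((hG j a).integrable_mul
      ((d2 j a).mem n))).add (HI.of (d3.lim.integrable_mul (d1.mem n)))).eq
  have tM := (d1.integral_mul d1).inv₀ hM.ne'
  have tK := tendsto_finsetSum Finset.univ fun j _ => tendsto_finsetSum Finset.univ fun a _ =>
    (d2 j a).integral_mul (d2 j a)
  have tE := tM.mul (tK.add (d3.integral_mul d1))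
  rw [e1, mul_comm lam, inv_mul_cancel_left₀ hM.ne'] at tE
  have bN : ∀ L X, |Nge L (X : Cfg (Fin N))| ≤ N := fun L X =>
    (Finset.abs_sum_le_sum_abs _ _).trans ((Finset.sum_le_card_nsmul _ _ 1 fun j _ => by
      split_ifs <;> simp).trans (by simp))
  have mN : ∀ L, MemLp (Nge L : Cfg (Fin N) → ℝ) ⊤ := fun L =>
    memLp_top_of_bound (bd_Nge L).meas.aestronglyMeasurable N (Eventually.of_forall (bN L))
  have tT : Tendsto (fun L : ℕ => Tri volume (Nge L) u u) atTop
      (𝓝 (∫ _ : Cfg (Fin N), (0 : ℝ))) := by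
    refine tendsto_integral_of_dominated_convergence (fun X => N * (u X * u X))
      (fun L => (Tri_int (mN L) hu hu).1) ((hu.integrable_mul hu).const_mul _)
      (fun L => Eventually.of_forall fun X => ?_) (Eventually.of_forall fun X => ?_)
    · rw [mul_assoc, norm_mul, Real.norm_of_nonneg (mul_self_nonneg _)]
      exact mul_le_mul_of_nonneg_right (bN L X) (mul_self_nonneg _)
    · refine tendsto_const_nhds.congr' ?_
      filter_upwards [tendsto_natCast_atTop_atTop.eventually_gt_atTop ‖X‖] with L hL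
      simp [Nge, fun j => not_le.2 ((norm_le_pi_norm X j).trans_lt hL)]
  refine ⟨M⁻¹ * K + 1, fun ε hε => ?_⟩
  obtain ⟨L, hL1, hL2⟩ := (((tT.const_mul M⁻¹).eventually_lt_const
    (by simpa using hε)).and (eventually_gt_atTop 0)).exists
  refine ⟨L, by exact_mod_cast hL2, fun δ hδ => ?_⟩
  obtain ⟨n, n1, n2, n3, n4⟩ := ((tM.eventually_const_lt (inv_pos.2 hM)).and
    ((tE.eventually_lt_const (lt_add_of_pos_right _ hδ)).and
    (((tM.mul tK).eventually_lt_const (lt_add_one _)).and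
    ((tM.mul (d1.tri d1 (mN L))).eventually_lt_const hL1)))).exists
  have q := Real.sq_sqrt n1.le
  have eK := Finset.sum_congr rfl fun j (_ : j ∈ Finset.univ) =>
    Kn_cx √(∫ X, w n X * w n X)⁻¹ (hw n) j
  rw [← Finset.mul_sum, q] at eK
  refine ⟨cx √(∫ X, w n X * w n X)⁻¹ (w n), ⟨⟨Complex.ofRealCLM.contDiff.comp
    (contDiff_const.mul (hw n).1), (hw n).2.comp_left (g := fun t : ℝ => ((_ * t : ℝ) : ℂ))
    (by simp)⟩, fun i _ j _ h X => by simp [cx, hs n i j h X]⟩, ?_, ?_, eK.trans_le n3.le, ?_⟩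
  · have := Ex_cx √(∫ X, w n X * w n X)⁻¹ (w n) fun _ => 1
    rw [Ex_const, q] at this
    simp only [one_mul] at this
    rw [this, inv_mul_cancel₀ (inv_pos.1 n1).ne']
  · rw [En, EnOn, eK, Ex_cx, q, ← mul_add]
    exact n2.le
  · rw [Ex_cx, q]
    exact n4.le

end Pool.Agent.Lib.ION
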