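import Pool.Agent.Lib.ION.Blue2
import Pool.Agent.Lib.ION.BRIDGE

/-!
# Weak eigenfunctions are limits of antisymmetric test functions
-/

open MeasureTheory Set Metric Real Filter Topology
open scoped ContDiff

noncomputable section

namespace Pool.Agent.Lib.ION

open Pool.Agent.Lib.MP_6c3a95_mp

open Brg in
theorem st_br2 : St_br2 := by
  rintro N Z lam u G ⟨hu, hG, hd, heq⟩ ha
  have hd' : ∀ j a, WD volume u (G j a) (ev j a) := fun j a φ h => hd j a φ h.1 h.2
  obtain ⟨v, hv, c1, c2⟩ := approx (fun p : Fin N × Fin 3 => ev p.1 p.2)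
    (G := fun p => G p.1 p.2) hu (fun p => hG _ _) fun p => hd' _ _
  have hw := fun n => test_asy (hv n)
  have d1 := cv_congr (cv_asy fun _ => c1) (asy_eq ha)
  have d2 : ∀ j a, Cv volume (fun n => dd (asy fun _ => v n) (ev j a)) (G j a) := fun j a => by
    have := cv_asy fun σ => c2 (σ.symm j, a)
    simp only [← dd_asy (hv _)] at this
    exact cv_congr this (wd_unique hw d1 this (hd' j a) (hG j a))
  obtain ⟨w, hw, d1, d2, hs⟩ : ∃ w : ℕ → Cfg (Fin N) → ℝ, (∀ n, Test (w n)) ∧ Cv volume w u ∧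
      (∀ j a, Cv volume (fun n => dd (w n) (ev j a)) (G j a)) ∧
      ∀ n i j, i ≠ j → ∀ X, w n (X ∘ Equiv.swap i j) = -w n X :=
    ⟨_, hw, d1, d2, fun n _ _ => asy_swap (v n)⟩
  have d3 := cv_V Z hw d1 d2 hd'
  set M := ∫ X, u X * u X
  set K := ∑ j, ∑ a, ∫ X, G j a X * G j a X
  have e1 : K + ∫ X, VOn Z Finset.univ X * u X * u X = lam * M := by
    refine tendsto_nhds_unique ((tendsto_finsetSum _ fun j _ => tendsto_finsetSum _ fun a _ =>
      (Cv.const (hG j a)).integral_mul (d2 j a)).add ((Cv.const d3.lim).integral_mul d1))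
      ((((Cv.const hu).integral_mul d1).const_mul lam).congr fun n => ?_)
    rw [← heq _ (hw n).1 (hw n).2]
    exact ((HI.sum _ fun j _ => HI.sum _ fun a _ => HI.of ((hG j a).integrable_mul
      ((d2 j a).mem n))).add (HI.of (d3.lim.integrable_mul (d1.mem n)))).eq
  have tK := tendsto_finsetSum Finset.univ fun j _ => tendsto_finsetSum Finset.univ fun a _ =>
    (d2 j a).integral_mul (d2 j a)
  have tE := tK.add (d3.integral_mul d1)
  rw [e1] at tE
  refine ⟨fun n => cx 1 (w n), fun n => ⟨⟨Complex.ofRealCLM.contDiff.comp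
    (contDiff_const.mul (hw n).1), (hw n).2.comp_left (g := fun t : ℝ => ((1 * t : ℝ) : ℂ))
    (by simp)⟩, fun i _ j _ h X => by simp [cx, hs n i j h X]⟩, ?_, fun f hf => ?_⟩
  · simp only [sq]
    refine tE.congr fun n => ?_
    rw [En, EnOn, Finset.sum_congr rfl fun j (_ : j ∈ Finset.univ) => Kn_cx 1 (hw n) j, Ex_cx]
    simp only [one_pow, one_mul]
  · obtain ⟨B, hB⟩ := hf.bdd
    have mf : MemLp f ⊤ :=
      memLp_top_of_bound hf.meas.aestronglyMeasurable B (Eventually.of_forall hB)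
    have t := d1.tri d1 mf
    simp only [Tri] at t
    simp only [sq, ← mul_assoc]
    refine t.congr fun n => ?_
    rw [Ex_cx]
    simp only [one_pow, one_mul]

end Pool.Agent.Lib.ION
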