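import Pool.Agent.Lib.ION.Blue

/-!
# The ionization bound for ground states: basic lemmas
-/

open MeasureTheory Set Metric Real Filter Topology
open scoped ContDiff ComplexConjugate

set_option linter.unusedSectionVars false

noncomputable section

namespace Pool.Agent.Lib.ION

open Pool.Agent.Lib.MP_689e73_mp

/-! ## Bounded measurable functions -/

section Bd

variable {α : Type} [MeasurableSpace α] {f g : α → ℝ}

lemma Bd.const (c : ℝ) : Bd fun _ : α => c := ⟨measurable_const, |c|, fun _ => le_rfl⟩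

lemma Bd.add (hf : Bd f) (hg : Bd g) : Bd fun x => f x + g x := by
  obtain ⟨C, hC⟩ := hf.bdd
  obtain ⟨D, hD⟩ := hg.bdd
  exact ⟨hf.meas.add hg.meas, C + D, fun x => (abs_add_le _ _).trans (add_le_add (hC x) (hD x))⟩

lemma Bd.mul (hf : Bd f) (hg : Bd g) : Bd fun x => f x * g x := by
  obtain ⟨C, hC⟩ := hf.bdd
  obtain ⟨D, hD⟩ := hg.bdd
  refine ⟨hf.meas.mul hg.meas, C * D, fun x => ?_⟩
  rw [abs_mul]
  exact mul_le_mul (hC x) (hD x) (abs_nonneg _) ((abs_nonneg _).trans (hC x))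

lemma Bd.const_mul (hf : Bd f) (c : ℝ) : Bd fun x => c * f x := (Bd.const c).mul hf

lemma Bd.div_const (hf : Bd f) (c : ℝ) : Bd fun x => f x / c := by
  simpa only [div_eq_mul_inv] using hf.mul (Bd.const c⁻¹)

lemma Bd.neg (hf : Bd f) : Bd fun x => -f x := by simpa using hf.const_mul (-1)

lemma Bd.sub (hf : Bd f) (hg : Bd g) : Bd fun x => f x - g x := by
  simpa only [sub_eq_add_neg] using hf.add hg.neg

lemma Bd.pow (hf : Bd f) (n : ℕ) : Bd fun x => f x ^ n := by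
  induction n with
  | zero => simpa using Bd.const (α := α) 1
  | succ n ih => simpa only [pow_succ] using ih.mul hf

lemma Bd.max (hf : Bd f) (hg : Bd g) : Bd fun x => max (f x) (g x) := by
  obtain ⟨C, hC⟩ := hf.bdd
  obtain ⟨D, hD⟩ := hg.bdd
  refine ⟨hf.meas.max hg.meas, C + D, fun x => ?_⟩
  have h1 := hC x
  have h2 := hD x
  have h3 := abs_nonneg (f x)
  have h4 := abs_nonneg (g x)
  rcases max_choice (f x) (g x) with h | h <;> rw [h] <;> linarith

lemma Bd.sqrt (hf : Bd f) : Bd fun x => √(f x) := by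
  obtain ⟨C, hC⟩ := hf.bdd
  refine ⟨hf.meas.sqrt, √C, fun x => ?_⟩
  rw [abs_of_nonneg (Real.sqrt_nonneg _)]
  exact Real.sqrt_le_sqrt ((le_abs_self _).trans (hC x))

lemma Bd.sum {κ : Type} (s : Finset κ) {f : κ → α → ℝ} (h : ∀ i ∈ s, Bd (f i)) :
    Bd fun x => ∑ i ∈ s, f i x := by
  classical
  induction s using Finset.induction_on with
  | empty => simpa using Bd.const (α := α) 0
  | insert a s ha ih =>
    simp only [Finset.sum_insert ha]
    exact (h a (Finset.mem_insert_self _ _)).add (ih fun i hi => h i (Finset.mem_insert_of_mem hi))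

lemma Bd.ite {p : α → Prop} [DecidablePred p] (hp : MeasurableSet {x | p x}) (hf : Bd f)
    (hg : Bd g) : Bd fun x => if p x then f x else g x := by
  obtain ⟨C, hC⟩ := hf.bdd
  obtain ⟨D, hD⟩ := hg.bdd
  refine ⟨Measurable.ite hp hf.meas hg.meas, C + D, fun x => ?_⟩
  have h1 := hC x
  have h2 := hD x
  have h3 := abs_nonneg (f x)
  have h4 := abs_nonneg (g x)
  split_ifs <;> linarith

lemma Bd.comp {β : Type} [MeasurableSpace β] (hf : Bd f) {φ : β → α} (hφ : Measurable φ) :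
    Bd fun x => f (φ x) := by
  obtain ⟨C, hC⟩ := hf.bdd
  exact ⟨hf.meas.comp hφ, C, fun x => hC _⟩

end Bd

lemma LL_of_bd {ρ : E3 → ℝ} (h : Bd ρ) {c : E3} {L : ℝ} (hs : ∀ y, L < ‖y - c‖ → ρ y = 0) :
    LL ρ := by
  obtain ⟨B, hB⟩ := h.bdd
  have key : ∀ p, MemLp ρ p := fun p => by
    have h1 : MemLp (indicator (closedBall c L) fun _ : E3 => B) p volume :=
      memLp_indicator_const p measurableSet_closedBall B (Or.inr measure_closedBall_lt_top.ne)
    refine h1.mono h.meas.aestronglyMeasurable (Eventually.of_forall fun y => ?_)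
    by_cases hy : y ∈ closedBall c L
    · rw [indicator_of_mem hy]; exact (hB y).trans (le_abs_self _)
    · rw [hs y (by simpa [mem_closedBall, dist_eq_norm] using hy)]; simp
  exact ⟨h.meas, memLp_one_iff_integrable.1 (key 1), key _⟩

lemma Dens.ll {ρ : E3 → ℝ} (h : Dens ρ) : LL ρ := by
  obtain ⟨L, hL⟩ := h.supp
  exact LL_of_bd h.bd (c := 0) (L := L) (by simpa using hL)

lemma Rad.ll {γ : ℝ → ℝ} {ℓ : ℝ} (h : Rad γ ℓ) (c : E3) : LL fun y => γ ‖y - c‖ :=
  LL_of_bd (h.bd.comp (by fun_prop)) (c := c) fun _ hy => h.supp _ hy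

lemma Dens.zero : Dens fun _ => 0 := ⟨Bd.const 0, fun _ => le_rfl, 0, fun _ _ => rfl⟩

lemma Dens.add {ρ σ : E3 → ℝ} (h : Dens ρ) (h' : Dens σ) : Dens fun y => ρ y + σ y := by
  obtain ⟨L, hL⟩ := h.supp
  obtain ⟨L', hL'⟩ := h'.supp
  refine ⟨h.bd.add h'.bd, fun y => add_nonneg (h.nn y) (h'.nn y), max L L', fun y hy => ?_⟩
  rw [hL y (lt_of_le_of_lt (le_max_left _ _) hy), hL' y (lt_of_le_of_lt (le_max_right _ _) hy),
    add_zero]

lemma LL_sum {κ : Type} (s : Finset κ) {f : κ → E3 → ℝ} (h : ∀ i ∈ s, LL (f i)) :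
    LL fun x => ∑ i ∈ s, f i x := by
  classical
  induction s using Finset.induction_on with
  | empty => simpa using LL.zero
  | insert a s ha ih =>
    simp only [Finset.sum_insert ha]
    exact (h a (Finset.mem_insert_self _ _)).add (ih fun i hi => h i (Finset.mem_insert_of_mem hi))

lemma c1_pos : 0 < c1 := by unfold c1; positivity

lemma cT_pos : 0 < cT := by unfold cT; positivity

/-! ## The mean value class -/

section Harm

variable {f g : E3 → ℝ} {s t : Set E3}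

lemma Harm.int (hf : ContinuousOn f s) {c : E3} {ℓ : ℝ} {γ : ℝ → ℝ} (hs : closedBall c ℓ ⊆ s)
    (hγ : Rad γ ℓ) : Integrable fun y => γ ‖y - c‖ * f y := by
  have h1 : IntegrableOn f (closedBall c ℓ) :=
    (hf.mono hs).integrableOn_compact (isCompact_closedBall c ℓ)
  obtain ⟨B, hB⟩ := hγ.bd.bdd
  have h2 : IntegrableOn (fun y => γ ‖y - c‖ * f y) (closedBall c ℓ) :=
    h1.bdd_mul (c := B) (hγ.bd.meas.comp (by fun_prop)).aestronglyMeasurable
      (Eventually.of_forall fun y => hB _)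
  refine (integrableOn_iff_integrable_of_support_subset fun y hy => ?_).1 h2
  by_contra h
  exact hy (by
    simp only [hγ.supp _ (by simpa [mem_closedBall, dist_eq_norm] using h), zero_mul])

lemma Harm.mono (hf : Harm f s) (h : t ⊆ s) : Harm f t :=
  ⟨hf.cont.mono h, fun c ℓ γ hc hγ => hf.mv c ℓ γ (hc.trans h) hγ⟩

lemma Harm.const (a : ℝ) (s : Set E3) : Harm (fun _ => a) s :=
  ⟨continuousOn_const, fun c ℓ γ _ _ => by
    rw [integral_mul_const, integral_sub_right_eq_self (fun y : E3 => γ ‖y‖) c]⟩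

lemma Harm.add (hf : Harm f s) (hg : Harm g s) : Harm (fun y => f y + g y) s :=
  ⟨hf.cont.add hg.cont, fun c ℓ γ hc hγ => by
    simp only [mul_add]
    rw [integral_add (Harm.int hf.cont hc hγ) (Harm.int hg.cont hc hγ), hf.mv c ℓ γ hc hγ,
      hg.mv c ℓ γ hc hγ]⟩

lemma Harm.const_mul (hf : Harm f s) (a : ℝ) : Harm (fun y => a * f y) s :=
  ⟨continuousOn_const.mul hf.cont, fun c ℓ γ hc hγ => by
    simp only [mul_left_comm _ a]
    rw [integral_const_mul, hf.mv c ℓ γ hc hγ]⟩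

lemma Harm.neg (hf : Harm f s) : Harm (fun y => -f y) s := by simpa using hf.const_mul (-1)

lemma Harm.sub (hf : Harm f s) (hg : Harm g s) : Harm (fun y => f y - g y) s := by
  simpa only [sub_eq_add_neg] using hf.add hg.neg

lemma Harm.sum {κ : Type} (S : Finset κ) {f : κ → E3 → ℝ} (h : ∀ i ∈ S, Harm (f i) s) :
    Harm (fun y => ∑ i ∈ S, f i y) s := by
  classical
  induction S using Finset.induction_on with
  | empty => simpa using Harm.const 0 s
  | insert a S ha ih =>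
    simp only [Finset.sum_insert ha]
    exact (h a (Finset.mem_insert_self _ _)).add (ih fun i hi => h i (Finset.mem_insert_of_mem hi))

end Harm

lemma Ext.meas {V : E3 → ℝ} {q a₀ : ℝ} (h : Ext V q a₀) : Measurable V := by
  obtain ⟨m, z, p, -, -, h⟩ := h
  rw [funext h]
  fun_prop

lemma ext_Vq {m : ℕ} (q : ℝ) (c : Fin m → ℝ) {p : Fin m → E3} {a₀ : ℝ} (h0 : 0 ≤ a₀)
    (hp : ∀ α, ‖p α‖ ≤ a₀) : Ext (Vq q c p) q a₀ := by
  refine ⟨m + 1, Fin.cons (q - ∑ α, c α) c, Fin.cons 0 p, fun α => ?_, ?_, fun y => ?_⟩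
  · refine Fin.cases ?_ (fun α => ?_) α
    · simpa using h0
    · simpa using hp α
  · simp [Fin.sum_univ_succ]
  · simp only [Vq, Fin.sum_univ_succ, Fin.cons_zero, Fin.cons_succ, sub_zero, mul_sub,
      Finset.sum_sub_distrib, sub_mul, Finset.sum_mul]
    ring

lemma ext_point (Z : ℝ) : Ext (fun y => Z * ‖y‖⁻¹) Z 0 :=
  ⟨1, fun _ => Z, fun _ => 0, by simp, by simp, by simp⟩

/-! ## Configuration space -/

section Many

variable {ι : Type} [Fintype ι] [DecidableEq ι] {Φ : Cfg ι → ℂ} {G G' : Cfg ι → ℝ}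

lemma Bd.loc (h : Bd G) : LocallyIntegrable G := by
  obtain ⟨B, hB⟩ := h.bdd
  exact (locallyIntegrable_const B).mono h.meas.aestronglyMeasurable
    (Eventually.of_forall fun X => (hB X).trans (le_abs_self _))

lemma loc_mul_bd (h : LocallyIntegrable G) (h' : Bd G') :
    LocallyIntegrable fun X => G' X * G X := by
  obtain ⟨B, hB⟩ := h'.bdd
  refine (h.smul B).mono (h'.meas.aestronglyMeasurable.mul h.aestronglyMeasurable)
    (Eventually.of_forall fun X => ?_)
  simp only [norm_mul, Pi.smul_apply, smul_eq_mul, Real.norm_eq_abs]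
  exact mul_le_mul_of_nonneg_right ((hB X).trans (le_abs_self _)) (abs_nonneg _)

lemma loc_sum {κ : Type} (s : Finset κ) {f : κ → Cfg ι → ℝ}
    (h : ∀ i ∈ s, LocallyIntegrable (f i)) : LocallyIntegrable fun X => ∑ i ∈ s, f i X :=
  locallyIntegrable_finsetSum s h

lemma loc_const_mul (h : LocallyIntegrable G) (c : ℝ) : LocallyIntegrable fun X => c * G X :=
  h.smul c

lemma Sm.cont {α : Type} [NormedAddCommGroup α] [NormedSpace ℝ α] {Φ : α → ℂ} (h : Sm Φ) :
    Continuous Φ := h.smooth.continuous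

lemma Sm.int (h : Sm Φ) (hG : LocallyIntegrable G) : Integrable fun X => G X * ‖Φ X‖ ^ 2 := by
  have h1 : Continuous fun X => ‖Φ X‖ ^ 2 := h.cont.norm.pow 2
  have h2 : HasCompactSupport fun X => ‖Φ X‖ ^ 2 :=
    h.cpt.comp_left (g := fun z : ℂ => ‖z‖ ^ 2) (by simp)
  simpa only [smul_eq_mul] using hG.integrable_smul_right_of_hasCompactSupport h1 h2

lemma Sm.int_sq (h : Sm Φ) : Integrable fun X => ‖Φ X‖ ^ 2 := by
  simpa using h.int (locallyIntegrable_const (1 : ℝ))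

lemma Sm.cont_kin (h : Sm Φ) (j : ι) : Continuous (kin Φ j) := by
  have := h.smooth.continuous_fderiv (by simp)
  unfold kin
  fun_prop

lemma Sm.int_kin (h : Sm Φ) (j : ι) : Integrable (kin Φ j) := by
  refine (h.cont_kin j).integrable_of_hasCompactSupport ?_
  exact (h.cpt.fderiv (𝕜 := ℝ)).comp_left
    (g := fun L : Cfg ι →L[ℝ] ℂ => ∑ a, ‖L (ev j a)‖ ^ 2) (by simp)

lemma kin_nonneg (Φ : Cfg ι → ℂ) (j : ι) (X : Cfg ι) : 0 ≤ kin Φ j X := by
  unfold kin; positivity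

lemma Kn_nonneg (Φ : Cfg ι → ℂ) (j : ι) : 0 ≤ Kn Φ j := integral_nonneg (kin_nonneg Φ j)

lemma Nm_nonneg (Φ : Cfg ι → ℂ) : 0 ≤ Nm Φ := integral_nonneg fun _ => by positivity

lemma Ex_const (Φ : Cfg ι → ℂ) (c : ℝ) : Ex Φ (fun _ => c) = c * Nm Φ := integral_const_mul _ _

lemma Ex_add (h : Sm Φ) (hG : LocallyIntegrable G) (hG' : LocallyIntegrable G') :
    Ex Φ (fun X => G X + G' X) = Ex Φ G + Ex Φ G' := by
  simp only [Ex, add_mul]
  exact integral_add (h.int hG) (h.int hG')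

lemma Ex_sub (h : Sm Φ) (hG : LocallyIntegrable G) (hG' : LocallyIntegrable G') :
    Ex Φ (fun X => G X - G' X) = Ex Φ G - Ex Φ G' := by
  simp only [Ex, sub_mul]
  exact integral_sub (h.int hG) (h.int hG')

lemma Ex_const_mul (Φ : Cfg ι → ℂ) (G : Cfg ι → ℝ) (c : ℝ) :
    Ex Φ (fun X => c * G X) = c * Ex Φ G := by
  simp only [Ex, mul_assoc]
  exact integral_const_mul _ _

lemma Ex_sum {κ : Type} (s : Finset κ) {f : κ → Cfg ι → ℝ} (h : Sm Φ)
    (hf : ∀ i ∈ s, LocallyIntegrable (f i)) :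
    Ex Φ (fun X => ∑ i ∈ s, f i X) = ∑ i ∈ s, Ex Φ (f i) := by
  simp only [Ex, Finset.sum_mul]
  exact integral_finsetSum s fun i hi => h.int (hf i hi)

lemma Ex_mono_ae (h : Sm Φ) (hG : LocallyIntegrable G) (hG' : LocallyIntegrable G')
    (hle : ∀ᵐ X, Φ X ≠ 0 → G X ≤ G' X) : Ex Φ G ≤ Ex Φ G' := by
  refine integral_mono_ae (h.int hG) (h.int hG') ?_
  filter_upwards [hle] with X hX
  by_cases h0 : Φ X = 0
  · simp [h0]
  · exact mul_le_mul_of_nonneg_right (hX h0) (by positivity)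

lemma Ex_mono (h : Sm Φ) (hG : LocallyIntegrable G) (hG' : LocallyIntegrable G')
    (hle : ∀ X, Φ X ≠ 0 → G X ≤ G' X) : Ex Φ G ≤ Ex Φ G' :=
  Ex_mono_ae h hG hG' (Eventually.of_forall hle)

lemma Ex_nonneg (Φ : Cfg ι → ℂ) (hG : ∀ X, 0 ≤ G X) : 0 ≤ Ex Φ G :=
  integral_nonneg fun X => mul_nonneg (hG X) (by positivity)

lemma Ex_congr (hG : ∀ X, Φ X ≠ 0 → G X = G' X) : Ex Φ G = Ex Φ G' := by
  refine integral_congr_ae (Eventually.of_forall fun X => ?_)
  by_cases h0 : Φ X = 0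
  · simp [h0]
  · simp only [hG X h0]

lemma Sm.mul (h : Sm Φ) {χ : Cfg ι → ℝ} (hχ : ContDiff ℝ ∞ χ) : Sm (mul χ Φ) :=
  ⟨(Complex.ofRealCLM.contDiff.comp hχ).mul h.smooth, h.cpt.mul_left⟩

lemma Sm.mulj (h : Sm Φ) {χ : E3 → ℝ} (hχ : ContDiff ℝ ∞ χ) (j : ι) : Sm (mulj χ j Φ) :=
  h.mul (χ := fun X => χ (X j)) (hχ.comp (contDiff_apply ℝ E3 j))

lemma Core.mul (h : Core Φ) {χ : Cfg ι → ℝ} (hχ : ContDiff ℝ ∞ χ)
    (hs : ∀ i j X, χ (X ∘ Equiv.swap i j) = χ X) : Core (mul χ Φ) :=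
  ⟨h.sm.mul hχ, fun i hi j hj hij X => by
    simp only [ION.mul, hs, h.anti i hi j hj hij X, mul_neg]⟩

lemma Ex_mul (Φ : Cfg ι → ℂ) (χ G : Cfg ι → ℝ) :
    Ex (mul χ Φ) G = Ex Φ fun X => χ X ^ 2 * G X := by
  simp only [Ex, mul, norm_mul, Complex.norm_real, Real.norm_eq_abs, mul_pow, sq_abs]
  congr 1; ext X; ring

lemma Nm_mul (Φ : Cfg ι → ℂ) (χ : Cfg ι → ℝ) : Nm (mul χ Φ) = Ex Φ fun X => χ X ^ 2 := by
  simp only [Ex, Nm, mul, norm_mul, Complex.norm_real, Real.norm_eq_abs, mul_pow, sq_abs]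

lemma Part.sum_Ex {Ω : Type} [Fintype Ω] {χ : Ω → Cfg ι → ℝ} {I : Cfg ι → ℝ} (hp : Part χ I)
    (h : Sm Φ) (hG : LocallyIntegrable G) : ∑ o, Ex (ION.mul (χ o) Φ) G = Ex Φ G := by
  simp only [Ex]
  rw [← integral_finsetSum _ fun o _ => (h.mul (hp.sm o)).int hG]
  congr 1; ext X
  simp only [ION.mul, norm_mul, Complex.norm_real, Real.norm_eq_abs, mul_pow, sq_abs]
  rw [← Finset.mul_sum, ← Finset.sum_mul, hp.sum X, one_mul]

lemma Part.sum_Nm {Ω : Type} [Fintype Ω] {χ : Ω → Cfg ι → ℝ} {I : Cfg ι → ℝ} (hp : Part χ I)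
    (h : Sm Φ) : ∑ o, Nm (ION.mul (χ o) Φ) = Nm Φ := by
  simpa only [Ex_const, one_mul] using hp.sum_Ex h (locallyIntegrable_const (1 : ℝ))

lemma Sm.supp_bound (h : Sm Φ) : ∃ L > 0, ∀ X, Φ X ≠ 0 → ∀ j, ‖X j‖ ≤ L := by
  obtain ⟨L, hL⟩ := h.cpt.isCompact.isBounded.subset_closedBall 0
  refine ⟨max L 1, by positivity, fun X hX j => ?_⟩
  have := hL (subset_tsupport _ hX)
  rw [mem_closedBall_zero_iff] at this
  exact ((norm_le_pi_norm X j).trans this).trans (le_max_left _ _)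

lemma sum_swap (f : E3 → ℝ) (i j : ι) (X : Cfg ι) :
    ∑ k, f ((X ∘ Equiv.swap i j) k) = ∑ k, f (X k) :=
  Equiv.sum_comp (Equiv.swap i j) fun k => f (X k)

lemma fderiv_comp_apply {u : E3 → ℝ} (hu : Differentiable ℝ u) (k j : ι) (a : Fin 3)
    (X : Cfg ι) : fderiv ℝ (fun X : Cfg ι => u (X k)) X (ev j a) =
      if k = j then fderiv ℝ u (X k) (e1 a) else 0 := by
  have h := (hu (X k)).hasFDerivAt.comp X (hasFDerivAt_apply (𝕜 := ℝ) k X)
  rw [show (fun X : Cfg ι => u (X k)) = u ∘ fun X : Cfg ι => X k from rfl, h.fderiv]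
  simp only [ContinuousLinearMap.comp_apply, ContinuousLinearMap.proj_apply, ev, Pi.single_apply]
  split_ifs <;> simp

lemma gsq_sum {u : E3 → ℝ} (hu : Differentiable ℝ u) (X : Cfg ι) :
    gsq (fun X : Cfg ι => ∑ k, u (X k)) X = ∑ j, g1 u (X j) := by
  unfold gsq g1
  refine Finset.sum_congr rfl fun j _ => Finset.sum_congr rfl fun a _ => ?_
  rw [fderiv_fun_sum (A := fun k (X : Cfg ι) => u (X k))
    fun k _ => (hu.comp (differentiable_apply k)).differentiableAt]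
  simp only [_root_.sum_apply, fderiv_comp_apply hu]
  simp

lemma gsq_single {u : E3 → ℝ} (hu : Differentiable ℝ u) (k : ι) (X : Cfg ι) :
    gsq (fun X : Cfg ι => u (X k)) X = g1 u (X k) := by
  unfold gsq g1
  simp only [fderiv_comp_apply hu]
  rw [Finset.sum_eq_single k] <;> simp +contextual [eq_comm]

/-- splitting off the variable `j` -/
def insE (j : ι) : E3 × Cfg {i // i ≠ j} ≃ᵐ Cfg ι where
  toFun p := ins j p.1 p.2
  invFun X := (X j, fun i => X i)
  left_inv p := by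
    ext1
    · simp [ins]
    · ext1 i; simp [ins, i.2]
  right_inv X := by
    ext1 i
    by_cases h : i = j <;> simp [ins, h]
  measurable_toFun := by
    refine measurable_pi_lambda _ fun i => ?_
    by_cases h : i = j
    · simpa [ins, h] using measurable_fst
    · have e : (fun p : E3 × Cfg {i // i ≠ j} => ins j p.1 p.2 i) = fun p => p.2 ⟨i, h⟩ := by
        ext1 p; simp [ins, h]
      exact e ▸ (measurable_pi_apply _).comp measurable_snd
  measurable_invFun := by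
    change Measurable fun X : Cfg ι => (X j, fun i : {i // i ≠ j} => X i)
    fun_prop

lemma me_ins (j : ι) : MeasurableEmbedding
    (fun p : E3 × Cfg {i // i ≠ j} => ins j p.1 p.2) := (insE j).measurableEmbedding

lemma mp_ins (j : ι) : MeasurePreserving
    (fun p : E3 × Cfg {i // i ≠ j} => ins j p.1 p.2) (volume.prod volume) volume := by
  refine ⟨(insE j).measurable, (Measure.pi_eq fun s hs => ?_).symm⟩
  rw [(me_ins j).map_apply]
  have e : (fun p : E3 × Cfg {i // i ≠ j} => ins j p.1 p.2) ⁻¹' univ.pi s =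
      s j ×ˢ univ.pi fun i : {i // i ≠ j} => s i := by
    ext p
    simp only [mem_preimage, Set.mem_pi, mem_univ, true_imp_iff, mem_prod]
    refine ⟨fun h => ⟨by simpa [ins] using h j, fun i => by simpa [ins, i.2] using h i⟩,
      fun h i => ?_⟩
    by_cases hi : i = j
    · simpa [ins, hi] using h.1
    · simpa [ins, hi] using h.2 ⟨i, hi⟩
  rw [e, Measure.prod_prod, volume_pi_pi, Fintype.prod_eq_mul_prod_subtype_ne _ j]

lemma integrable_ins {β : Type} [NormedAddCommGroup β] {f : Cfg ι → β} (j : ι) :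
    Integrable (fun p : E3 × Cfg {i // i ≠ j} => f (ins j p.1 p.2)) (volume.prod volume) ↔
      Integrable f :=
  (mp_ins j).integrable_comp_emb (me_ins j)

/-- Fubini in the variable `j` -/
lemma integral_ins {β : Type} [NormedAddCommGroup β] [NormedSpace ℝ β] {f : Cfg ι → β} (j : ι)
    (hf : Integrable f) : ∫ X, f X = ∫ Y : Cfg {i // i ≠ j}, ∫ y, f (ins j y Y) := by
  rw [← (mp_ins j).integral_comp (me_ins j), integral_prod_symm _ ((integrable_ins j).2 hf)]

lemma update_ins (j : ι) (y z : E3) (Y : Cfg {i // i ≠ j}) :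
    Function.update (ins j y Y) j z = ins j z Y := by
  ext1 i
  by_cases h : i = j
  · subst h; simp [ins]
  · simp [ins, h]

lemma ins_self (j : ι) (y : E3) (Y : Cfg {i // i ≠ j}) : ins j y Y j = y := by simp [ins]

lemma ins_ne {j i : ι} (h : i ≠ j) (y : E3) (Y : Cfg {i // i ≠ j}) : ins j y Y i = Y ⟨i, h⟩ := by
  simp [ins, h]

lemma int_inv_ball (c : E3) (R : ℝ) : IntegrableOn (fun y : E3 => ‖y - c‖⁻¹) (ball c R) := by
  have h := integrableOn_rpow_ball (α := 1) (by norm_num) R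
  simp only [Real.rpow_neg_one] at h
  have h2 := (measurePreserving_sub_right volume c).integrableOn_comp_preimage
    (MeasurableEquiv.subRight c).measurableEmbedding (f := fun y : E3 => ‖y‖⁻¹) (s := ball 0 R)
  have e : (fun y : E3 => y - c) ⁻¹' ball 0 R = ball c R := by
    ext y; simp [mem_ball, dist_eq_norm]
  rw [e] at h2
  exact h2.2 h

lemma loc_aux (j : ι) (c : Cfg {i // i ≠ j} → E3) (hc : Continuous c) {f : Cfg ι → ℝ}
    (hf : Measurable f) (he : ∀ y Y, f (ins j y Y) = ‖y - c Y‖⁻¹)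
    (hb : ∀ Y, ‖c Y‖ ≤ ‖Y‖) : LocallyIntegrable f := by
  rw [locallyIntegrable_iff]
  intro K hK
  obtain ⟨R, hR⟩ := hK.isBounded.subset_closedBall 0
  refine IntegrableOn.mono_set ?_ hR
  rw [← integrable_indicator_iff measurableSet_closedBall, ← integrable_ins j]
  have hm : Measurable fun p : E3 × Cfg {i // i ≠ j} =>
      indicator (closedBall (0 : Cfg ι) R) f (ins j p.1 p.2) :=
    (hf.indicator measurableSet_closedBall).comp (me_ins j).measurable
  let g : E3 × Cfg {i // i ≠ j} → ℝ := fun p =>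
    indicator (ball 0 (2 * |R| + 1)) (fun y : E3 => ‖y‖⁻¹) (p.1 - c p.2) *
      indicator (closedBall 0 R) (fun _ => (1 : ℝ)) p.2
  have i1 : Integrable (indicator (ball 0 (2 * |R| + 1)) fun y : E3 => ‖y‖⁻¹) := by
    rw [integrable_indicator_iff measurableSet_ball]
    simpa using int_inv_ball 0 (2 * |R| + 1)
  have hg : Integrable g (volume.prod volume) := by
    have mg : Measurable g := by
      refine Measurable.mul ?_ ((measurable_const.indicator measurableSet_closedBall).comp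
        measurable_snd)
      exact (Measurable.indicator (by fun_prop) measurableSet_ball).comp
        (measurable_fst.sub (hc.measurable.comp measurable_snd))
    rw [integrable_prod_iff' mg.aestronglyMeasurable]
    refine ⟨Eventually.of_forall fun Y => (i1.comp_sub_right (c Y)).mul_const
      (indicator (closedBall 0 R) (fun _ => (1 : ℝ)) Y), ?_⟩
    have e : (fun Y : Cfg {i // i ≠ j} => ∫ y, ‖g (y, Y)‖) = fun Y =>
        (∫ y, ‖indicator (ball 0 (2 * |R| + 1)) (fun y : E3 => ‖y‖⁻¹) y‖) *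
          ‖indicator (closedBall 0 R) (fun _ => (1 : ℝ)) Y‖ := by
      ext Y
      simp only [g, norm_mul]
      rw [integral_mul_const, integral_sub_right_eq_self
        (fun y => ‖indicator (ball 0 (2 * |R| + 1)) (fun y : E3 => ‖y‖⁻¹) y‖) (c Y)]
    rw [e]
    refine Integrable.const_mul (Integrable.norm ?_) _
    rw [integrable_indicator_iff measurableSet_closedBall]
    exact integrableOn_const measure_closedBall_lt_top.ne
  refine hg.mono' hm.aestronglyMeasurable (Eventually.of_forall fun p => ?_)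
  have g0 : 0 ≤ g p := mul_nonneg (indicator_nonneg (fun _ _ => by positivity) _)
    (indicator_nonneg (fun _ _ => zero_le_one) _)
  by_cases hp : ins j p.1 p.2 ∈ closedBall (0 : Cfg ι) R
  · rw [indicator_of_mem hp, he]
    rw [mem_closedBall_zero_iff] at hp
    have h1 : ‖p.1‖ ≤ R := by simpa [ins_self] using (norm_le_pi_norm _ j).trans hp
    have h2 : ‖p.2‖ ≤ R := by
      refine (pi_norm_le_iff_of_nonneg ((norm_nonneg _).trans h1)).2 fun i => ?_
      simpa [ins_ne i.2] using (norm_le_pi_norm _ i.1).trans hp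
    have h3 : p.1 - c p.2 ∈ ball (0 : E3) (2 * |R| + 1) := by
      rw [mem_ball_zero_iff]
      have := norm_sub_le p.1 (c p.2)
      have := hb p.2
      have := le_abs_self R
      linarith
    simp only [g]
    rw [indicator_of_mem h3, indicator_of_mem (mem_closedBall_zero_iff.2 h2), mul_one,
      Real.norm_of_nonneg (by positivity)]
  · rw [indicator_of_notMem hp]; simpa using g0

lemma loc_nuc (j : ι) : LocallyIntegrable fun X : Cfg ι => ‖X j‖⁻¹ :=
  loc_aux j (fun _ => 0) continuous_const (by fun_prop) (fun y Y => by simp [ins_self])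
    fun Y => by simp

lemma loc_pair (i j : ι) : LocallyIntegrable fun X : Cfg ι => ‖X i - X j‖⁻¹ := by
  by_cases h : j = i
  · subst h; simpa using locallyIntegrable_const (0 : ℝ)
  · exact loc_aux i (fun Y => Y ⟨j, h⟩) (continuous_apply _) (by fun_prop)
      (fun y Y => by simp [ins_self, ins_ne h]) fun Y => norm_le_pi_norm Y _

lemma loc_VOn (Z : ℝ) (A : Finset ι) : LocallyIntegrable (VOn Z A) :=
  (loc_const_mul (loc_sum A fun j _ => loc_nuc j) _).add
    (loc_const_mul (loc_sum A fun i _ => loc_sum A fun j _ => loc_pair i j) _)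

lemma ae_lin (L : Cfg ι →L[ℝ] E3) {w : Cfg ι} (hw : L w ≠ 0) : ∀ᵐ X : Cfg ι, L X ≠ 0 := by
  have := Measure.addHaar_submodule (volume : Measure (Cfg ι))
    (LinearMap.ker (L : Cfg ι →ₗ[ℝ] E3)) fun h => by
    have : w ∈ LinearMap.ker (L : Cfg ι →ₗ[ℝ] E3) := h ▸ Submodule.mem_top
    exact hw this
  exact compl_mem_ae_iff.2 this

lemma e1_ne (a : Fin 3) : e1 a ≠ 0 := fun h => by
  have := congrArg (fun y : E3 => y a) h
  simp [e1] at this

lemma ae_nz : ∀ᵐ X : Cfg ι, ∀ j, X j ≠ 0 :=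
  eventually_all.2 fun j => ae_lin (ContinuousLinearMap.proj j) (w := ev j 0)
    (by simpa [ev] using e1_ne 0)

lemma ae_inj : ∀ᵐ X : Cfg ι, Function.Injective X := by
  have : ∀ᵐ X : Cfg ι, ∀ i j, j ≠ i → X i - X j ≠ 0 :=
    eventually_all.2 fun i => eventually_all.2 fun j => eventually_all.2 fun hij =>
      ae_lin (ContinuousLinearMap.proj (R := ℝ) (φ := fun _ : ι => E3) i -
        ContinuousLinearMap.proj (R := ℝ) (φ := fun _ : ι => E3) j) (w := ev i 0)
        (by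
          change ev i 0 i - ev i 0 j ≠ 0
          simpa [ev, hij] using e1_ne 0)
  filter_upwards [this] with X hX i j hij
  by_contra h
  exact hX i j (Ne.symm h) (sub_eq_zero.2 hij)

lemma bd_cnt {s : Set E3} (hs : MeasurableSet s) : Bd (cnt s : Cfg ι → ℝ) :=
  Bd.sum _ fun j _ => Bd.comp (f := indicator s fun _ => (1 : ℝ))
    ⟨measurable_const.indicator hs, 1, fun y => by
      by_cases h : y ∈ s <;> simp [h]⟩ (measurable_pi_apply j)

lemma bd_Nlt (R : ℝ) : Bd (Nlt R : Cfg ι → ℝ) :=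
  Bd.sum _ fun _ _ => Bd.ite (measurableSet_lt (by fun_prop) measurable_const) (Bd.const 1)
    (Bd.const 0)

lemma bd_Nge (R : ℝ) : Bd (Nge R : Cfg ι → ℝ) :=
  Bd.sum _ fun _ _ => Bd.ite (measurableSet_le measurable_const (by fun_prop)) (Bd.const 1)
    (Bd.const 0)

lemma bd_Nbt (a b : ℝ) : Bd (Nbt a b : Cfg ι → ℝ) :=
  Bd.sum _ fun j _ => Bd.ite ((measurableSet_le (g := fun X : Cfg ι => ‖X j‖) measurable_const
    (by fun_prop)).inter (measurableSet_lt (f := fun X : Cfg ι => ‖X j‖) (by fun_prop)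
      measurable_const)) (Bd.const 1) (Bd.const 0)

lemma bd_mul_inv {β : E3 → ℝ} (hβ : Bd β) {R : ℝ} (hR : 0 < R) (h0 : ∀ y, ‖y‖ < R → β y = 0) :
    Bd fun y => β y * ‖y‖⁻¹ := by
  obtain ⟨B, hB⟩ := hβ.bdd
  refine ⟨hβ.meas.mul (by fun_prop), B * R⁻¹, fun y => ?_⟩
  have hB0 : 0 ≤ B := (abs_nonneg _).trans (hB y)
  rcases lt_or_ge ‖y‖ R with h | h
  · rw [h0 y h]; simp only [zero_mul, abs_zero]; positivity
  · rw [abs_mul, abs_of_nonneg (by positivity : 0 ≤ ‖y‖⁻¹)]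
    exact mul_le_mul (hB y) (inv_anti₀ hR h) (by positivity) hB0

lemma bd_Sw {β : E3 → ℝ} (hβ : Bd β) {R : ℝ} (hR : 0 < R) (h0 : ∀ y, ‖y‖ < R → β y = 0) :
    Bd (Sw β : Cfg ι → ℝ) :=
  Bd.sum _ fun j _ => (bd_mul_inv hβ hR h0).comp (measurable_pi_apply j)

lemma bd_Sge {R : ℝ} (hR : 0 < R) : Bd (Sge R : Cfg ι → ℝ) := by
  have := bd_Sw (ι := ι) (β := fun y => if R ≤ ‖y‖ then 1 else 0)
    (Bd.ite (measurableSet_le measurable_const (by fun_prop)) (Bd.const 1) (Bd.const 0)) hR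
    fun y hy => if_neg (not_le.2 hy)
  have e : (Sge R : Cfg ι → ℝ) = Sw fun y => if R ≤ ‖y‖ then 1 else 0 := by
    ext X; simp [Sge, Sw]
  rwa [e]

lemma bd_BB (Z : ℝ) {r : ℝ} (hr : 0 < r) : Bd (BB Z r : Cfg ι → ℝ) :=
  (((((bd_Sge hr).pow 2).const_mul r).add
    (((((Bd.const Z).sub (bd_Nlt r)).max (Bd.const 0)).pow 2).div_const r)).add
    (((((bd_Nlt (2 * r)).sub (Bd.const Z)).max (Bd.const 0)).pow 2).div_const r)).add (Bd.const _)

lemma loc_Vscr {β : E3 → ℝ} (hβ : Bd β) (Z R : ℝ) (j : ι) :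
    LocallyIntegrable fun X : Cfg ι => β (X j) * Vscr Z R X (X j) := by
  refine loc_mul_bd ((loc_const_mul (loc_nuc j) Z).sub (loc_sum _ fun i _ => ?_))
    (hβ.comp (measurable_pi_apply j))
  have := loc_mul_bd (loc_pair j i) (G' := fun X : Cfg ι => if ‖X i‖ < R then 1 else 0)
    (Bd.ite (measurableSet_lt (by fun_prop) measurable_const) (Bd.const 1) (Bd.const 0))
  simpa using this

lemma loc_Ww {ϑ : E3 → ℝ} (h : Bd ϑ) : LocallyIntegrable (Ww ϑ : Cfg ι → ℝ) :=
  loc_const_mul (loc_sum _ fun i _ => loc_sum _ fun j _ => loc_mul_bd (loc_pair i j)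
    ((h.comp (measurable_pi_apply i)).mul (h.comp (measurable_pi_apply j)))) _

lemma loc_Uw {ϑ : E3 → ℝ} (h : Bd ϑ) (i : ι) :
    LocallyIntegrable fun X : Cfg ι => Uw ϑ X (X i) :=
  loc_sum _ fun j _ => loc_mul_bd (loc_pair i j) (h.comp (measurable_pi_apply j))

lemma Sge_nonneg (R : ℝ) (X : Cfg ι) : 0 ≤ Sge R X :=
  Finset.sum_nonneg fun _ _ => by split_ifs <;> positivity

lemma IsLB.ee_nonneg {Z E : ℝ} (h : IsLB Z E) (hΦ : Core Φ) : 0 ≤ ee Z E Φ :=
  sub_nonneg.2 (h ι Φ hΦ)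

lemma IsLB.bb_nonneg {Z E r : ℝ} (h : IsLB Z E) (hΦ : Core Φ) (hr : 0 ≤ r) : 0 ≤ bb Z E r Φ :=
  add_nonneg (h.ee_nonneg hΦ) (mul_nonneg (by positivity) (Nm_nonneg Φ))

end Many

lemma Cut.abs_η {C a₀ a₁ : ℝ} {η ζ : E3 → ℝ} (h : Cut C a₀ a₁ η ζ) (y : E3) : |η y| ≤ 1 :=
  (sq_le_one_iff_abs_le_one _).1 (by nlinarith [h.sq y, sq_nonneg (ζ y)])

lemma Cut.abs_ζ {C a₀ a₁ : ℝ} {η ζ : E3 → ℝ} (h : Cut C a₀ a₁ η ζ) (y : E3) : |ζ y| ≤ 1 :=
  (sq_le_one_iff_abs_le_one _).1 (by nlinarith [h.sq y, sq_nonneg (η y)])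

lemma Cut.bd_η {C a₀ a₁ : ℝ} {η ζ : E3 → ℝ} (h : Cut C a₀ a₁ η ζ) : Bd η :=
  ⟨h.sη.continuous.measurable, 1, h.abs_η⟩

lemma Cut.bd_ζ {C a₀ a₁ : ℝ} {η ζ : E3 → ℝ} (h : Cut C a₀ a₁ η ζ) : Bd ζ :=
  ⟨h.sζ.continuous.measurable, 1, h.abs_ζ⟩

lemma g1_nonneg (u : E3 → ℝ) (y : E3) : 0 ≤ g1 u y := by unfold g1; positivity

lemma continuous_g1 {u : E3 → ℝ} (hu : ContDiff ℝ ∞ u) : Continuous (g1 u) := by
  have := hu.continuous_fderiv (by simp)
  unfold g1
  fun_prop

lemma core_empty : Core (fun _ : Cfg Empty => (1 : ℂ)) ∧ Nm (fun _ : Cfg Empty => (1 : ℂ)) = 1 ∧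
    ∀ Z, En Z (fun _ : Cfg Empty => (1 : ℂ)) = 0 := by
  refine ⟨⟨⟨contDiff_const, HasCompactSupport.of_compactSpace _⟩, fun i => i.elim⟩, ?_,
    fun Z => ?_⟩
  · simp [Nm, volume_pi, Measure.real]
  · simp [En, EnOn, Ex, VOn]

end Pool.Agent.Lib.ION
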