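import Pool.Agent.Lib.ION.Defs

/-!
# The ionization bound for ground states: statements of the blocks
-/

open MeasureTheory Set Metric Real
open scoped ContDiff ComplexConjugate

noncomputable section

namespace Pool.Agent.Lib.ION

open Pool.Agent.Lib.MP_689e73_mp

/-! ## Calculus on configuration space -/

def St_hardy : Prop := ∀ (ι : Type) [Fintype ι] [DecidableEq ι] (Φ : Cfg ι → ℂ), Sm Φ →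
  (∀ j, Integrable (fun X : Cfg ι => ‖X j‖⁻¹ ^ 2 * ‖Φ X‖ ^ 2) ∧
    Ex Φ (fun X => ‖X j‖⁻¹ ^ 2) ≤ 4 * Kn Φ j) ∧
  ∀ i j, i ≠ j → Integrable (fun X : Cfg ι => ‖X i - X j‖⁻¹ ^ 2 * ‖Φ X‖ ^ 2) ∧
    Ex Φ (fun X => ‖X i - X j‖⁻¹ ^ 2) ≤ 4 * Kn Φ i

def St_ims : Prop := ∀ (ι Ω : Type) [Fintype ι] [DecidableEq ι] [Fintype Ω]
  (χ : Ω → Cfg ι → ℝ) (I : Cfg ι → ℝ) (Φ : Cfg ι → ℂ) (Z : ℝ), Part χ I → Sm Φ →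
  LocallyIntegrable I → ∑ o, En Z (mul (χ o) Φ) ≤ En Z Φ + Ex Φ I

def St_partpi : Prop := ∀ (ι κ Ω : Type) [Fintype ι] [DecidableEq ι] [Fintype κ] [DecidableEq κ]
  [Fintype Ω] (χ : κ → Ω → Cfg ι → ℝ) (I : κ → Cfg ι → ℝ), (∀ α, Part (χ α) (I α)) →
  Part (fun (n : κ → Ω) X => ∏ α, χ α (n α) X) fun X => ∑ α, I α X

def St_lab : Prop := ∀ (ι : Type) [Fintype ι] [DecidableEq ι] (η ζ : E3 → ℝ), ContDiff ℝ ∞ η →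
  ContDiff ℝ ∞ ζ → (∀ y, η y ^ 2 + ζ y ^ 2 = 1) →
  Part (lab η ζ : Finset ι → Cfg ι → ℝ) (fun X => ∑ j, (g1 η (X j) + g1 ζ (X j))) ∧
  (∀ (j : ι) (X : Cfg ι), ∑ A : Finset ι, (if j ∈ A then 0 else lab η ζ A X ^ 2) = ζ (X j) ^ 2) ∧
  ∀ (Φ : Cfg ι → ℂ) (A : Finset ι), AntiOn Finset.univ Φ →
    AntiOn A (mul (lab η ζ A) Φ) ∧ AntiOn Aᶜ (mul (lab η ζ A) Φ)

def St_bin : Prop := ∀ (ι : Type) [Fintype ι] [DecidableEq ι] (η ζ : E3 → ℝ) (F : Cfg ι → ℂ)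
  (j : ι), ContDiff ℝ ∞ η → ContDiff ℝ ∞ ζ → (∀ y, η y ^ 2 + ζ y ^ 2 = 1) → Sm F →
  Kn (mulj η j F) j + Kn (mulj ζ j F) j = Kn F j + Ex F fun X => g1 η (X j) + g1 ζ (X j)

def St_meas : Prop := ∃ C > 0, ∀ w > 0, ∀ B : ℝ, ∃ (m : ℕ) (χ : Fin m → ℝ → ℝ) (c : Fin m → ℝ),
  (∀ o t, |t| ≤ B → χ o t ≠ 0 → |t - c o| ≤ w) ∧
  ∀ (ι : Type) [Fintype ι] [DecidableEq ι] (F : Cfg ι → ℝ), ContDiff ℝ ∞ F →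
    Part (fun o X => χ o (F X)) fun X => C / w ^ 2 * gsq F X

def St_cut : Prop := ∃ C > 0, ∀ a₀ a₁ : ℝ, 0 < a₀ → a₀ < a₁ → ∃ η ζ, Cut C a₀ a₁ η ζ

def St_fm : Prop := ∀ Cc > 0, ∃ C > 0, ∀ (b b₀ h : ℝ) (η ζ : E3 → ℝ) (p : E3), Cut Cc b b₀ η ζ →
  0 < h → ‖p‖ + h ≤ b → b + h ≤ b₀ →
  ContDiff ℝ ∞ (fun y => ζ y ^ 2 * (‖p - y‖⁻¹ - ‖y‖⁻¹)) ∧
  ∀ y, g1 (fun y => ζ y ^ 2 * (‖p - y‖⁻¹ - ‖y‖⁻¹)) y ≤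
    if b ≤ ‖y‖ then C * b / h ^ 4 * ‖y‖⁻¹ else 0

def St_net : Prop := ∃ C > 0, ∀ a κ : ℝ, 0 < κ → κ ≤ a → ∃ (m : ℕ) (p : Fin m → E3),
  (m : ℝ) ≤ C * (a / κ) ^ 3 ∧ (∀ α, ‖p α‖ ≤ a) ∧ ∀ x : E3, ‖x‖ ≤ a → ∃ α, ‖x - p α‖ ≤ κ

def St_slice : Prop := ∀ (ι : Type) [Fintype ι] [DecidableEq ι] (A : Finset ι),
  (∀ f : Cfg ι → ℝ, Integrable f →
    (∀ᵐ Y : Cfg ι, Integrable (slice A Y f) → 0 ≤ ∫ X, slice A Y f X) → 0 ≤ ∫ X, f X) ∧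
  (∀ (F : Cfg ι → ℂ) (Y : Cfg ι), Sm F → Sm (slice A Y F) ∧ (AntiOn A F → Core (slice A Y F)) ∧
    ∀ (i : A) (X : Cfg A), kin (slice A Y F) i X = slice A Y (kin F i) X) ∧
  ∀ (F : Cfg ι → ℂ) (W : Cfg ι → ℝ) (Z e : ℝ), Sm F → LocallyIntegrable W →
    (∀ᵐ Y : Cfg ι, Integrable (fun X => slice A Y W X * ‖slice A Y F X‖ ^ 2) →
      e * Nm (slice A Y F) ≤ En Z (slice A Y F) + Ex (slice A Y F) (slice A Y W)) →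
    e * Nm F ≤ EnOn Z A F + Ex F W

def St_reidx : Prop := ∀ (Z E : ℝ) (N : ℕ),
  (∀ Φ : Cfg (Fin N) → ℂ, Core Φ → E * Nm Φ ≤ En Z Φ) → LBc Z N E

/-! ## Potential theory -/

def St_newton : Prop := ∀ (γ : ℝ → ℝ) (ℓ : ℝ) (c x : E3), Rad γ ℓ →
  psi (fun y => γ ‖y - c‖) x = ∫ y : E3, γ ‖y‖ * (max ‖x - c‖ ‖y‖)⁻¹

def St_harm : Prop :=
  (∀ p : E3, Harm (fun y => ‖y - p‖⁻¹) {p}ᶜ) ∧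
  (∀ (σ : E3 → ℝ) (s : Set E3), LL σ → (∀ y ∈ s, σ y = 0) → Harm (psi σ) s) ∧
  (∀ (γ : ℝ → ℝ) (ℓ : ℝ) (c p : E3), Rad γ ℓ → (∀ t, 0 ≤ γ t) → c ≠ p →
    ∫ y, γ ‖y - c‖ * ‖y - p‖⁻¹ ≤ (∫ y : E3, γ ‖y‖) * ‖c - p‖⁻¹) ∧
  (∀ (σ : E3 → ℝ) (γ : ℝ → ℝ) (ℓ : ℝ) (c : E3), LL σ → (∀ y, 0 ≤ σ y) → Rad γ ℓ →
    (∀ t, 0 ≤ γ t) → ∫ y, γ ‖y - c‖ * psi σ y ≤ (∫ y : E3, γ ‖y‖) * psi σ c) ∧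
  ∀ (V : E3 → ℝ) (q a₀ : ℝ), Ext V q a₀ → Harm V {y | a₀ < ‖y‖}

def St_shell : Prop :=
  (∀ R > 0, Rad (sh R) R ∧ (∀ t, 0 ≤ sh R t) ∧ ∫ y : E3, sh R ‖y‖ = 1 ∧
    (∀ c x : E3, psi (fun y => sh R ‖y - c‖) x = Ub R ‖x - c‖) ∧
    ∀ t, 0 ≤ t → (max t R)⁻¹ ≤ Ub R t ∧ Ub R t ≤ (max t (R / 2))⁻¹ ∧ Ub R t ≤ Ub R 0 ∧
      (t ≤ R / 2 → Ub R t = Ub R 0)) ∧
  ∀ (ν : E3 → ℝ) (A R₁ R₂ : ℝ), Measurable ν → 0 < R₁ → R₁ ≤ R₂ → (∀ y, 0 ≤ ν y ∧ ν y ≤ A) →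
    (∀ y, ‖y‖ < R₁ ∨ R₂ < ‖y‖ → ν y = 0) →
    N1 ν ≤ A * (4 * π * R₂ ^ 2 * (R₂ - R₁)) ∧
    KK ν ≤ A ^ (5 / 3 : ℝ) * (4 * π * R₂ ^ 2 * (R₂ - R₁)) ∧
    ∀ x, psi ν x ≤ A * (4 * π * R₂ ^ 2 * (R₂ - R₁)) / R₁

def St_cs : Prop := ∀ a b : E3 → ℝ, LL a → LL b →
  0 ≤ DD a a ∧ |DD a b| ≤ √(DD a a) * √(DD b b)

def St_ker : Prop := ∃ C > 0, ∀ s > 0, ContDiff ℝ ∞ (gs s) ∧ (∀ y, s ≤ ‖y‖ → gs s y = 0) ∧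
  (∀ y, gs s y ^ 2 = gam s ‖y‖) ∧ Rad (gam s) s ∧ (∀ t, 0 ≤ gam s t) ∧
  ∫ y : E3, gam s ‖y‖ = 1 ∧ ∫ y, g1 (gs s) y ≤ C / s ^ 2 ∧
  ∀ c x : E3, psi (fun y => gam s ‖y - c‖) x ≤ C / s

def St_sweep : Prop := ∃ C > 0, ∀ (R h σ : ℝ) (f : E3 → ℝ), 0 < h → 2 * h ≤ R →
  Harm f (ball 0 R) → (∀ x ∈ ball (0 : E3) R, |f x| ≤ σ) →
  ∃ (ν : E3 → ℝ) (c : ℝ), Measurable ν ∧ (∀ y, 0 ≤ ν y ∧ ν y ≤ C * σ / h ^ 2) ∧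
    (∀ y, ‖y‖ < R - h ∨ R + h < ‖y‖ → ν y = 0) ∧ ∀ x, ‖x‖ < R - h → psi ν x = f x + c

def St_cmp : Prop := ∀ (H σ : E3 → ℝ) (a : ℝ), 0 < a → ContinuousOn H {y | a ≤ ‖y‖} →
  Harm H {y | a < ‖y‖} → LL σ → (∀ y, ‖y‖ = a → H y - psi σ y ≤ 0) →
  (∀ ε > 0, ∃ R, ∀ y, R ≤ ‖y‖ → H y - psi σ y ≤ ε) →
  (∀ y, a < ‖y‖ → 0 < H y - psi σ y → 0 ≤ σ y) → ∀ y, a ≤ ‖y‖ → H y - psi σ y ≤ 0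

def St_rad : Prop := ∀ (f f₁ f₂ : ℝ → ℝ) (a b : ℝ) (τ : E3 → ℝ), 0 < a → a ≤ b →
  (∀ t ∈ Icc a b, HasDerivAt f (f₁ t) t ∧ HasDerivAt f₁ (f₂ t) t) → ContinuousOn f₂ (Icc a b) →
  (∀ y, τ y = if a ≤ ‖y‖ ∧ ‖y‖ ≤ b then f₂ ‖y‖ / (4 * π * ‖y‖) else 0) →
  LL τ ∧ (∀ y, a ≤ ‖y‖ → ‖y‖ ≤ b →
    psi τ y = -f ‖y‖ / ‖y‖ + (f a - a * f₁ a) / ‖y‖ + f₁ b) ∧
  ∀ y, b ≤ ‖y‖ → psi τ y = (b * f₁ b - a * f₁ a - f b + f a) / ‖y‖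

def St_harn : Prop := ∃ C > 0,
  (∀ (P : E3 → ℝ) (p x x' : E3) (r : ℝ), 0 < r → Harm P (ball p r) → (∀ y ∈ ball p r, 0 ≤ P y) →
    x ∈ ball p (r / 8) → x' ∈ ball p (r / 8) → |P x - P x'| ≤ C * P x' * ‖x - x'‖ / r) ∧
  ∀ (σ : E3 → ℝ) (B r : ℝ) (p x x' : E3), 0 < r → Measurable σ → (∀ y, 0 ≤ σ y ∧ σ y ≤ B) →
    (∀ y, y ∉ ball p r → σ y = 0) → x ∈ ball p r → x' ∈ ball p r →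
    psi σ x ≤ C * B * r ^ 2 ∧ |psi σ x - psi σ x'| ≤ C * B * r * ‖x - x'‖

/-- comparison of a weighted point configuration with a density -/
def St_trans : Prop := ∃ C > 0, ∀ (ρ ϑ ℓ : E3 → ℝ) (b b₀ δ D R : ℝ) (ι : Type) [Fintype ι]
  [DecidableEq ι] (X : Cfg ι), LL ρ → (∀ y, 0 ≤ ρ y) → Wt ϑ ℓ b b₀ δ → δ ≤ 1 / 8 →
  Dv ϑ ℓ X ρ ≤ D → 0 < R →
  ∑ j, (if ‖X j‖ < R then ϑ (X j) else 0) ≤ N1 ρ + C * √(R * D) ∧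
  ∑ j, (if R ≤ ‖X j‖ then ϑ (X j) * ‖X j‖⁻¹ else 0) ≤
    C * (∫ y in {y | R / 16 ≤ ‖y‖}, ρ y * (max R ‖y‖)⁻¹) + C * √(D / R) ∧
  ∫ y, ρ y * Ub R ‖y‖ ≤ ∑ j, ϑ (X j) * Ub R ‖X j‖ + C * √(D / R) ∧
  ∀ p : E3, δ * ‖p‖ ≤ R / 4 →
    ∑ j, (if ‖X j - p‖ < R then ϑ (X j) else 0) ≤
      4 * (∫ y in ball p (8 * R), ρ y) + C * √(R * D) ∧
    ∫ y in ball p (R / 8), ρ y ≤ 4 * cnt (ball p R) X + C * √(R * D)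

/-! ## Thomas-Fermi theory outside a ball -/

def St_tfex : Prop := ∀ (m : ℕ) (q a₀ a L η : ℝ) (p : Fin m → E3) (Mb : Fin m → ℝ), 0 < η →
  0 < a → a₀ < a → (∀ α, ‖p α‖ ≤ a₀) → ∃ (c : Fin m → ℝ) (ρ : E3 → ℝ),
    TFS (Vq q c p) a L ρ ∧ ∀ α, η * c α = Mb α - (psi ρ (p α) - psi ρ 0)

def St_ko : Prop := ∃ A > 0, ∀ (V ρ : E3 → ℝ) (q a₀ a L : ℝ), Ext V q a₀ → a₀ < a → 0 < a →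
  2 * a ≤ L → TFS V a L ρ → ∀ y, a < ‖y‖ → ‖y‖ ≤ L → V y - psi ρ y ≤ A / (‖y‖ - a) ^ 4

def St_neut : Prop := ∀ (V ρ : E3 → ℝ) (q a₀ a L t : ℝ), Ext V q a₀ → a₀ < t → 0 < t →
  TFS V a L ρ → (∀ y, ‖y‖ = t → 0 ≤ V y - psi ρ y) →
  (∀ y, t ≤ ‖y‖ → 0 ≤ V y - psi ρ y) ∧ N1 ρ ≤ q

def St_low : Prop := ∀ (V ρ : E3 → ℝ) (q a₀ a L t c : ℝ), Ext V q a₀ → a₀ < a → 0 < a → a ≤ t →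
  t ≤ L → TFS V a L ρ → 0 < c → (∀ y, ‖y‖ = t → c / t ^ 4 ≤ V y - psi ρ y) →
  ∀ y, t ≤ ‖y‖ → 6 * π * t / √c ≤ ‖y‖ → ‖y‖ ≤ L → 9 * π ^ 2 / ‖y‖ ^ 4 ≤ V y - psi ρ y

def St_tfb : Prop := ∃ C > 0, ∀ (V ρ : E3 → ℝ) (q a₀ a L r : ℝ), Ext V q a₀ → a₀ < a → 0 < a →
  a ≤ 2 * r → 4 * r ≤ L → TFS V a L ρ →
  (∀ y, 5 * r / 2 ≤ ‖y‖ → ρ y ≤ C / ‖y‖ ^ 6) ∧ N1 ρ ≤ C * (r * psi ρ 0 + r⁻¹ ^ 3) ∧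
  ∀ y, 3 * r ≤ ‖y‖ → ‖y‖ ≤ 5 * r → psi ρ y ≤ C * (psi ρ 0 + r⁻¹ ^ 4)

def St_t12 : Prop := ∃ C > 0, ∀ (V ρ ϑ ℓ : E3 → ℝ) (q a₀ a L r b b₀ δ D : ℝ) (ι : Type)
  [Fintype ι] [DecidableEq ι] (X : Cfg ι), Ext V q a₀ → a₀ < a → 0 < a → a ≤ 2 * r →
  16 * r ≤ L → TFS V a L ρ → Wt ϑ ℓ b b₀ δ → δ ≤ 1 / 8 → b₀ ≤ 2 * r → Dv ϑ ℓ X ρ ≤ D →
  (q - ∑ j, (if ‖X j‖ < 64 * r then ϑ (X j) else 0) ≤ C * (r⁻¹ ^ 3 + √(r * D))) ∧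
  Sge (64 * r) X ≤ C * (r⁻¹ ^ 4 + √(D / r))

def St_up3 : Prop := ∃ c > 0, ∀ κ : ℝ, 0 < κ → κ ≤ 1 / 64 → ∃ ε > 0,
  ∀ (V ρ ϑ ℓ : E3 → ℝ) (a L r b b₀ D : ℝ) (ι : Type) [Fintype ι] [DecidableEq ι] (X : Cfg ι),
  0 < r → a ≤ 2 * r → 5 * r ≤ L → TFS V a L ρ → Wt ϑ ℓ b b₀ (κ / 16) → Dv ϑ ℓ X ρ ≤ D →
  (∀ y, 3 * r ≤ ‖y‖ → ‖y‖ ≤ 5 * r → 9 * π ^ 2 / ‖y‖ ^ 4 ≤ V y - psi ρ y) →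
  D ≤ ε * r⁻¹ ^ 7 → PP c κ r X

def St_down : Prop := ∀ c > 0, ∃ c' > 0, ∃ κ₀ > 0, ∀ κ : ℝ, 0 < κ → κ ≤ κ₀ → κ ≤ 1 / 64 →
  ∃ ε > 0, ∀ (V ρ ϑ ℓ : E3 → ℝ) (q a₀ a L r b b₀ D : ℝ) (ι : Type) [Fintype ι] [DecidableEq ι]
  (X : Cfg ι), Ext V q a₀ → a₀ < a → 0 < a → a ≤ 2 * r → 16 * r ≤ L → TFS V a L ρ →
  Wt ϑ ℓ b b₀ (κ / 16) → b₀ ≤ 2 * r → Dv ϑ ℓ X ρ ≤ D → PP c κ r X → D ≤ ε * r⁻¹ ^ 7 →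
  ∀ y, ‖y‖ = 4 * r → c' / (4 * r) ^ 4 ≤ V y - psi ρ y

def St_det : Prop := ∃ k, TFP k

/-! ## Fermions -/

def St_pauli : Prop := ∀ (ι : Type) [Fintype ι] [DecidableEq ι] (Φ : Cfg ι → ℂ) (u : E3 → ℂ),
  Core Φ → Continuous u → Integrable (fun y => ‖u y‖ ^ 2) →
  ∑ j, ∫ Y : Cfg {i // i ≠ j}, ‖∫ y, conj (u y) * Φ (ins j y Y)‖ ^ 2 ≤ (∫ y, ‖u y‖ ^ 2) * Nm Φ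

def St_cell : Prop := ∀ (ι : Type) [Fintype ι] [DecidableEq ι] (A : Finset ι) (F : Cfg ι → ℂ)
  (χ : E3 → ℝ) (v : ℝ), Sm F → AntiOn A F → ContDiff ℝ ∞ χ → Integrable (fun y => χ y ^ 2) →
  0 ≤ v → v * Ex F (fun X => ∑ j ∈ A, χ (X j) ^ 2) -
    2 / 5 * c1 * v ^ (5 / 2 : ℝ) * (∫ y, χ y ^ 2) * Nm F ≤ ∑ j ∈ A, Kn (mulj χ j F) j

def St_wedge : Prop := ∀ (ι : Type) [Fintype ι] [DecidableEq ι] (Z : ℝ) (Φ : Cfg ι → ℂ)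
  (e : E3 → ℂ), Core Φ → Sm e → (∀ j X, ann e Φ j X = 0) →
  ∃ Θ : Cfg (Option ι) → ℂ, Core Θ ∧
    Nm Θ = (Fintype.card ι + 1) * ((∫ y, ‖e y‖ ^ 2) * Nm Φ) ∧
    En Z Θ ≤ (Fintype.card ι + 1) * ((∫ y, ‖e y‖ ^ 2) * En Z Φ +
      Nm Φ * ((∫ y, k1 e y) - Z * psi (fun y => ‖e y‖ ^ 2) 0) +
      Ex Φ fun X => ∑ j, psi (fun y => ‖e y‖ ^ 2) (X j)) ∧
    (∀ W : E3 → ℝ, Continuous W → Ex Θ (fun X => ∑ j, W (X j)) =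
      (Fintype.card ι + 1) * ((∫ y, ‖e y‖ ^ 2) * Ex Φ (fun X => ∑ j, W (X j)) +
        Nm Φ * ∫ y, W y * ‖e y‖ ^ 2)) ∧
    ∀ e' : E3 → ℂ, Sm e' → ∫ y, conj (e' y) * e y = 0 → (∀ j X, ann e' Φ j X = 0) →
      ∀ j X, ann e' Θ j X = 0

def St_mono : Prop := ∀ (Z E : ℝ) (n m : ℕ), 0 ≤ Z → m ≤ n → LBc Z n E → LBc Z m E

def St_upfin : Prop := ∀ (Z E : ℝ), IsLB Z E → ∀ (m : ℕ) (g : Fin m → E3 → ℂ), (∀ i, Sm (g i)) →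
  (∀ i j, i ≠ j → ∫ y, conj (g i y) * g j y = 0) → (∀ i, ∫ y, ‖g i y‖ ^ 2 ≤ 1) →
  ∀ (ι : Type) [Fintype ι] [DecidableEq ι] (ψ : Cfg ι → ℂ), Core ψ →
  (∀ i j X, ann (g i) ψ j X = 0) →
  E * Nm ψ ≤ En Z ψ + Ex ψ (fun X => ∑ j, psi (fun y => ∑ i, ‖g i y‖ ^ 2) (X j)) +
    Nm ψ * (∑ i, (∫ y, k1 (g i) y) - Z * psi (fun y => ∑ i, ‖g i y‖ ^ 2) 0 +
      1 / 2 * DD (fun y => ∑ i, ‖g i y‖ ^ 2) fun y => ∑ i, ‖g i y‖ ^ 2)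

def St_frame : Prop := ∀ (m : ℕ) (f : Fin m → E3 → ℂ), (∀ i, Sm (f i)) →
  (∀ c : Fin m → ℂ, ∫ y, ‖∑ i, c i * f i y‖ ^ 2 ≤ ∑ i, ‖c i‖ ^ 2) →
  ∃ g : Fin m → E3 → ℂ, (∀ i, Sm (g i)) ∧ (∀ i j, i ≠ j → ∫ y, conj (g i y) * g j y = 0) ∧
    (∀ i, ∫ y, ‖g i y‖ ^ 2 ≤ 1) ∧ (∀ y, ∑ i, ‖g i y‖ ^ 2 = ∑ i, ‖f i y‖ ^ 2) ∧
    ∀ y, ∑ i, k1 (g i) y = ∑ i, k1 (f i) y

def St_coh : Prop := ∃ C > 0, ∀ (ρ : E3 → ℝ) (s δ : ℝ), Dens ρ → 0 < s → 0 < δ →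
  ∃ (m : ℕ) (f : Fin m → E3 → ℂ), (∀ i, Sm (f i)) ∧
    (∀ c : Fin m → ℂ, ∫ y, ‖∑ i, c i * f i y‖ ^ 2 ≤ ∑ i, ‖c i‖ ^ 2) ∧
    (∀ y, ∑ i, ‖f i y‖ ^ 2 ≤ ∫ u, ρ u * gam s ‖y - u‖) ∧
    (∀ y, (∫ u, ρ u * gam s ‖y - u‖) - δ ≤ ∑ i, ‖f i y‖ ^ 2) ∧
    ∑ i, ∫ y, k1 (f i) y ≤ cT * KK ρ + C / s ^ 2 * N1 ρ

def UP (C : ℝ) : Prop := ∀ (Z E : ℝ), 0 ≤ Z → IsLB Z E →
  ∀ (ι : Type) [Fintype ι] [DecidableEq ι] (ψ : Cfg ι → ℂ) (a s : ℝ) (ρ : E3 → ℝ), Core ψ →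
  0 < s → 0 ≤ a → (∀ X, ψ X ≠ 0 → ∀ j, ‖X j‖ ≤ a) → Dens ρ → (∀ y, ‖y‖ < a + 2 * s → ρ y = 0) →
  E * Nm ψ ≤ En Z ψ + Ex ψ (fun X => ∑ j, psi ρ (X j)) + Nm ψ * (EQ Z ρ + C / s ^ 2 * N1 ρ)

def St_up : Prop := ∃ C > 0, UP C

def UPS (C : ℝ) : Prop := ∀ (Z E : ℝ), 0 ≤ Z → IsLB Z E →
  ∀ (ι : Type) [Fintype ι] [DecidableEq ι] (A : Finset ι) (F : Cfg ι → ℂ) (W : Cfg ι → ℝ)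
  (a s : ℝ), Sm F → AntiOn A F → 0 < s → 0 ≤ a → (∀ X, F X ≠ 0 → ∀ i ∈ A, ‖X i‖ ≤ a) →
  LocallyIntegrable W →
  (∀ Y : Cfg ι, Function.Injective Y → ∃ ρ, Dens ρ ∧ (∀ y, ‖y‖ < a + 2 * s → ρ y = 0) ∧
    ∀ X : Cfg ι, (∀ j, j ∉ A → X j = Y j) → F X ≠ 0 →
      ∑ i ∈ A, psi ρ (X i) + EQ Z ρ + C / s ^ 2 * N1 ρ ≤ W X) →
  E * Nm F ≤ EnOn Z A F + Ex F W

def St_ups : Prop := ∃ C > 0, UPS C ∧ UP C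

def St_lbkin : Prop := ∃ C > 0, ∀ (ι : Type) [Fintype ι] [DecidableEq ι] (A : Finset ι)
  (F : Cfg ι → ℂ) (ζ v : E3 → ℝ) (s R : ℝ), Sm F → AntiOn A F → ContDiff ℝ ∞ ζ →
  (∀ y, |ζ y| ≤ 1) → Bd v → (∀ u, 0 ≤ v u) → (∀ u, R < ‖u‖ → v u = 0) → 0 < s →
  Ex F (fun X => ∑ j ∈ A, ζ (X j) ^ 2 *
      ((∫ u, v u * gam s ‖X j - u‖) - if ‖X j‖ ≤ R + s then C / s ^ 2 else 0)) -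
    2 / 5 * c1 * (∫ u, v u ^ (5 / 2 : ℝ)) * Nm F ≤ ∑ j ∈ A, Kn (mulj ζ j F) j

/-- geometry of the lower bound -/
structure Geo (a₀ a s b R₁ L : ℝ) : Prop where
  h0 : a₀ < a
  h1 : 0 < a
  h2 : 0 < s
  h3 : s ≤ 1
  h4 : a + s ≤ b
  h5 : 2 * a ≤ R₁
  h6 : 2 * s ≤ R₁
  h7 : 3 * R₁ ≤ L

def St_ons : Prop := ∃ C > 0, ∀ (V ρ ϑ : E3 → ℝ) (q a₀ a s b R₁ L : ℝ) (ι : Type) [Fintype ι]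
  [DecidableEq ι] (X : Cfg ι), Ext V q a₀ → Geo a₀ a s b R₁ L → TFS V a L ρ →
  (∀ y, 0 ≤ ϑ y ∧ ϑ y ≤ 1) → (∀ y, ‖y‖ < b → ϑ y = 0) →
  (∀ i j, i ≠ j → ϑ (X i) ≠ 0 → ϑ (X j) ≠ 0 → X i ≠ X j) → (∀ j, ϑ (X j) ≠ 0 → ‖X j‖ ≤ L / 2) →
  Dv ϑ (ell s R₁) X ρ ≤ Ww ϑ X - ∑ j, ϑ (X j) * V (X j) + 1 / 2 * DD ρ ρ +
    ∑ j, ϑ (X j) * (∫ u, (if a ≤ ‖u‖ ∧ ‖u‖ ≤ 3 * R₁ then max (V u - psi ρ u) 0 else 0) *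
      gam s ‖X j - u‖) + C * (R₁ / s ^ 2 + R₁⁻¹ ^ 3) * Sw ϑ X

def St_lb : Prop := ∃ C > 0, ∀ (V ρ ζ : E3 → ℝ) (q a₀ a s b R₁ L : ℝ), Ext V q a₀ →
  Geo a₀ a s b R₁ L → TFS V a L ρ → ContDiff ℝ ∞ ζ → (∀ y, |ζ y| ≤ 1) →
  (∀ y, ‖y‖ < b → ζ y = 0) → ∀ (ι : Type) [Fintype ι] [DecidableEq ι],
  ∃ D : Cfg ι → ℝ, LocallyIntegrable D ∧
    (∀ X : Cfg ι, (∀ i j, i ≠ j → ζ (X i) ≠ 0 → ζ (X j) ≠ 0 → X i ≠ X j) →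
      (∀ j, ζ (X j) ≠ 0 → ‖X j‖ ≤ L / 2) → Dv (fun y => ζ y ^ 2) (ell s R₁) X ρ ≤ D X) ∧
    ∀ (A : Finset ι) (F : Cfg ι → ℂ), Sm F → AntiOn A F →
      (∀ X, F X ≠ 0 → ∀ j, j ∉ A → ζ (X j) = 0) →
      Ex F (fun X => EV V ρ + D X - C * (R₁ / s ^ 2 + R₁⁻¹ ^ 3) * Sw (fun y => ζ y ^ 2) X -
        Ww (fun y => ζ y ^ 2) X + ∑ j, ζ (X j) ^ 2 * V (X j)) ≤ ∑ j ∈ A, Kn (mulj ζ j F) j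

/-! ## One scale -/

/-- the layer between `t` and `t + l * r` -/
structure Lay (l r t : ℝ) : Prop where
  l0 : 0 < l
  r0 : 0 < r
  rl : r ≤ l ^ 10
  t0 : r ≤ t
  t1 : t + l * r ≤ 2 * r

def St_cost : Prop := ∀ C₀ > 0, ∃ C > 0, ∃ l₀ > 0, ∀ (l r t h q L b₀ w D : ℝ) (m : ℕ)
  (p : Fin m → E3) (c : Fin m → ℝ) (ρ ϑ ℓ β : E3 → ℝ) (ι : Type) [Fintype ι] [DecidableEq ι]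
  (X : Cfg ι), Lay l r t → l ≤ l₀ → h = l * r / 20 → (∀ α, ‖p α‖ ≤ t + 6 * h) →
  (∀ x : E3, ‖x‖ ≤ t + 6 * h → ∃ α, ‖x - p α‖ ≤ l ^ 5 * r) → 4 * r ≤ L →
  TFS (Vq q c p) (t + 8 * h) L ρ → Wt ϑ ℓ (t + 10 * h) b₀ (1 / 8) → Dv ϑ ℓ X ρ ≤ D →
  (∀ y, 0 ≤ β y) → (∀ y, ‖y‖ < 8 * r → β y = 0) → 0 ≤ w →
  (∀ α, |Uw ϑ X (p α) - Sw ϑ X - (psi ρ (p α) - psi ρ 0)| ≤ w + l ^ 6 / r * |c α|) →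
  ∃ ρt, Dens ρt ∧ (∀ y, ‖y‖ < t + 4 * h → ρt y = 0) ∧
    (∀ x, ‖x‖ ≤ t + 2 * h →
      psi ρt x - psi ρt 0 = Uw ϑ X x - Sw ϑ X + (Uw β X x - Sw β X)) ∧
    EQ q ρt + C₀ / h ^ 2 * N1 ρt ≤ EQ q ρ + 3 / 4 * D + l ^ 6 / r / 2 * ∑ α, c α ^ 2 +
      C * r * w ^ 2 / l ^ 5 + C * l * (r * Sw ϑ X ^ 2 + max (-q) 0 ^ 2 / r + r⁻¹ ^ 7) +
      C * (r * Sw β X ^ 2 +
        Sw β X * √(r * (r * Sw ϑ X ^ 2 + max (-q) 0 ^ 2 / r + r⁻¹ ^ 7)))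

def St_piece : Prop := ∀ k, TFP k → ∀ Cc > 0, ∀ Cn > 0, ∃ C > 0, ∃ l₀ > 0,
  ∀ (Z E l r t h : ℝ) (m : ℕ) (p : Fin m → E3) (Mb : Fin m → ℝ) (η ζ β : E3 → ℝ) (ι : Type)
  [Fintype ι] [DecidableEq ι] (A : Finset ι) (F : Cfg ι → ℂ) (G : Cfg ι → ℝ),
  0 ≤ Z → IsLB Z E → Lay l r t → l ≤ l₀ → h = l * r / 20 → (m : ℝ) ≤ Cn * l⁻¹ ^ 15 →
  (∀ α, ‖p α‖ ≤ t + 6 * h) → (∀ x : E3, ‖x‖ ≤ t + 6 * h → ∃ α, ‖x - p α‖ ≤ l ^ 5 * r) →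
  Cut Cc (t + 10 * h) (t + 12 * h) η ζ → Bd β → (∀ y, 0 ≤ β y) → (∀ y, ‖y‖ < 8 * r → β y = 0) →
  Sm F → AntiOn A F → AntiOn Aᶜ F →
  (∀ X, F X ≠ 0 → (∀ i ∈ A, ‖X i‖ ≤ t + 2 * h) ∧ (∀ j, j ∉ A → t ≤ ‖X j‖) ∧
    ∀ α, |Uw (fun y => ζ y ^ 2) X (p α) - Sw (fun y => ζ y ^ 2) X - Mb α| ≤ l ^ 11 * r⁻¹ ^ 4) →
  Bd G → (∀ X Δ, 0 ≤ Δ → Cert k Z r X Δ → G X ≤ Δ) →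
  Ex F (fun X => G X / 4 + ∑ j, β (X j) * Vscr Z (2 * r) X (X j)) ≤ ee Z E F +
    Ex F fun X => C * l * BB Z r X + Nbt t (t + l * r) X ^ 2 / r +
      C * (r * Sw β X ^ 2 + Sw β X * √(r * BB Z r X)) +
      ∑ j ∈ Aᶜ, η (X j) ^ 2 * Vscr Z (r / 4) X (X j)

def STEP (k : Cs) : Prop := ∃ C₁ > 0, ∀ K > 0, ∃ K₁ > 0, ∀ K₂ > 0, ∃ C₂ > 0, ∃ D > 0,
  ∀ Z E r : ℝ, 0 ≤ Z → 0 < r → r ≤ D → IsLB Z E → HH K Z E r → LR K₂ Z E (r / 8) →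
  StepG k C₁ (C₂ * r ^ (1 / 20 : ℝ)) Z E r ∧ LR K₁ Z E r

def St_step : Prop := ∀ k, TFP k → STEP k

/-! ## The Thomas-Fermi scale -/

def St_inner : Prop := ∃ C > 0, ∀ (Z r v : ℝ) (c : E3 → ℝ) (ι : Type) [Fintype ι] [DecidableEq ι]
  (Φ : Cfg ι → ℂ), 1 ≤ Z → 0 < r → 0 ≤ v → ContDiff ℝ ∞ c → (∀ y, |c y| ≤ 1) →
  (∀ y, r ≤ ‖y‖ → c y = 0) → Core Φ →
  Ex Φ (fun X => ∑ j, c (X j) ^ 2 * (Z * ‖X j‖⁻¹ + v)) -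
    C * (Z ^ 2 * √(Z * r) + Z ^ 2 + v ^ 2 * √v * r ^ 3 + r⁻¹ ^ 2) * Nm Φ ≤
    ∑ j, Kn (mulj c j Φ) j

/-- a priori bounds for the Thomas-Fermi atom -/
def St_tf0 : Prop := ∃ C > 0, ∀ (Z a L z : ℝ) (ρ : E3 → ℝ), 0 < z → Z = z ^ 3 → 0 < a →
  TFS (fun y => Z * ‖y‖⁻¹) a L ρ → N1 ρ ≤ Z ∧ ∀ x, psi ρ x ≤ C * z ^ 4

def STEP0 (k : Cs) : Prop := ∃ Θ > 0, ∃ C₀ > 0, ∃ C₁ > 0, ∀ e > 0, ∃ Z₀ : ℝ, ∀ Z r : ℝ, Z₀ ≤ Z →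
  0 < r → Z * r ^ 3 = Θ → (∃ E, IsLB Z E) ∧ ∀ E, IsLB Z E → Step0G k C₀ C₁ e Z E r

def St_step0 : Prop := ∀ k, TFP k → STEP0 k

/-! ## Induction on scales -/

def St_kl : Prop := ∀ k : Cs, k.Pos → ∀ C₀ > 0, ∀ C₁ > 0, ∃ c > 0, ∃ M₀ > 0, ∃ e > 0,
  ∀ C₂ > 0, ∃ D > 0, ∀ Z E r₁ R : ℝ, IsLB Z E → 0 < r₁ → 64 * r₁ ≤ R → R ≤ D →
  Step0G k C₀ C₁ e Z E r₁ →
  (∀ r, r₁ ≤ r → r ≤ R / 64 → StepG k C₁ (C₂ * r ^ (1 / 20 : ℝ)) Z E r) → KL c M₀ Z E R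

def St_h2 : Prop := ∀ c > 0, ∀ M₀ > 0, ∃ K₀ > 0, ∀ K > 0, ∃ D > 0, ∀ Z E R : ℝ, 0 < R → R ≤ D →
  IsLB Z E → KL c M₀ Z E R → H3 K Z E R → H2 K₀ Z E R

def FIN : Prop := ∃ K > 0, ∃ K₁ > 0, ∃ r > 0, ∃ Z₀ : ℝ, ∀ Z, Z₀ ≤ Z →
  (∃ E, IsLB Z E) ∧ ∀ E, IsLB Z E → LR K₁ Z E r ∧ HH K Z E (8 * r)

def St_ind : Prop := ∀ k : Cs, k.Pos → STEP k → STEP0 k → FIN

/-! ## The end of the proof -/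

def St_f1 : Prop := ∀ K > 0, ∀ K₁ > 0, ∀ r > 0, ∃ C₁ > 0, ∃ C₂ > 0, ∀ (Z E lam : ℝ) (N : ℕ),
  0 ≤ Z → IsLB Z E → ¬IsLB Z (E + 1) → LR K₁ Z E r → HH K Z E (8 * r) → Z + C₂ ≤ N →
  LBc Z N lam → lam ≤ E + C₁

def St_f2 : Prop := ∀ K > 0, ∀ K₁ > 0, ∀ r > 0, ∀ C₁ > 0, ∃ C : ℝ, ∀ (Z E lam : ℝ) (N : ℕ),
  0 ≤ Z → IsLB Z E → LR K₁ Z E r → HH K Z E (8 * r) → LBc Z N lam → lam ≤ E + C₁ →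
  Bound Z lam N → (N : ℝ) ≤ Z + C

def St_sup : Prop := ∀ Z : ℝ, (∃ E, IsLB Z E) → ∃ E, IsLB Z E ∧ ¬IsLB Z (E + 1)

def St_bridge : Prop := ∀ (N : ℕ) (Z lam : ℝ) (u : Cfg (Fin N) → ℝ)
  (G : Fin N → Fin 3 → Cfg (Fin N) → ℝ), MemLp u 2 → (∀ j a, MemLp (G j a) 2) →
  (∀ j a (φ : Cfg (Fin N) → ℝ), ContDiff ℝ ∞ φ → HasCompactSupport φ →
    ∫ X, u X * fderiv ℝ φ X (ev j a) = -∫ X, G j a X * φ X) →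
  (∀ φ : Cfg (Fin N) → ℝ, ContDiff ℝ ∞ φ → HasCompactSupport φ →
    ∫ X, (∑ j, ∑ a, G j a X * fderiv ℝ φ X (ev j a) + VOn Z Finset.univ X * u X * φ X) =
      lam * ∫ X, u X * φ X) →
  (∀ i j, i ≠ j → ∀ᵐ X : Cfg (Fin N), u (X ∘ Equiv.swap i j) = -u X) → ¬u =ᵐ[volume] 0 →
  Bound Z lam N

def CORE : Prop := ∃ C Z₀ : ℝ, ∀ (Z lam : ℝ) (N : ℕ), Z₀ ≤ Z → LBc Z N lam → Bound Z lam N →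
  (N : ℝ) ≤ Z + C

theorem core_of (hdet : St_det) (hstep : St_step) (hstep0 : St_step0) (hind : St_ind)
    (hf1 : St_f1) (hf2 : St_f2) (hsup : St_sup) : CORE := by
  obtain ⟨k, hk⟩ := hdet
  obtain ⟨K, hK, K₁, hK₁, r, hr, Z₀, h⟩ := hind k hk.1 (hstep k hk) (hstep0 k hk)
  obtain ⟨C₁, hC₁, C₂, hC₂, h1⟩ := hf1 K hK K₁ hK₁ r hr
  obtain ⟨C, h2⟩ := hf2 K hK K₁ hK₁ r hr C₁ hC₁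
  refine ⟨max C C₂, max Z₀ 0, fun Z lam N hZ hl hb => ?_⟩
  have hZ0 : 0 ≤ Z := le_trans (le_max_right _ _) hZ
  obtain ⟨hE, h3⟩ := h Z (le_trans (le_max_left _ _) hZ)
  obtain ⟨E, hE1, hE2⟩ := hsup Z hE
  obtain ⟨h4, h5⟩ := h3 E hE1
  rcases le_total (Z + C₂) N with hN | hN
  · have := h2 Z E lam N hZ0 hE1 h4 h5 hl (h1 Z E lam N hZ0 hE1 hE2 h4 h5 hN hl) hb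
    linarith [le_max_left C C₂]
  · linarith [le_max_right C C₂]

end Pool.Agent.Lib.ION
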