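import Pool.Agent.Lib.ION.Basic

/-!
# Embedded eigenvalues: definitions and statements of the blocks
-/

open MeasureTheory Set Metric Real Filter Topology
open scoped ContDiff

noncomputable section

namespace Pool.Agent.Lib.ION

open Pool.Agent.Lib.MP_689e73_mp

/-- the radial force kernel -/
def Kf (x y : E3) : ℝ := inner ℝ y (y - x) / ‖y - x‖ ^ 3

/-- radial force of the nucleus screened by the particles inside radius `R` -/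
def VK {ι : Type} [Fintype ι] (Z R : ℝ) (X : Cfg ι) (y : E3) : ℝ :=
  Z * ‖y‖⁻¹ - ∑ i, if ‖X i‖ < R then Kf (X i) y else 0

/-- the linear response bound on the screened force -/
def LRK (K Z E r : ℝ) : Prop :=
  ∀ (ι : Type) [Fintype ι] [DecidableEq ι] (Φ : Cfg ι → ℂ), Core Φ → ∀ β : E3 → ℝ, Bd β →
    (∀ y, 0 ≤ β y) → (∀ y, ‖y‖ < 8 * r → β y = 0) →
    Ex Φ (fun X => ∑ j, β (X j) * VK Z (2 * r) X (X j)) ≤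
      K * (bb Z E r Φ + r * Ex Φ fun X => Sw β X ^ 2)

/-- real weak solutions of the eigenvalue equation -/
structure WS {N : ℕ} (Z lam : ℝ) (u : Cfg (Fin N) → ℝ) (G : Fin N → Fin 3 → Cfg (Fin N) → ℝ) :
    Prop where
  hu : MemLp u 2
  hG : ∀ j a, MemLp (G j a) 2
  hd : ∀ j a (φ : Cfg (Fin N) → ℝ), ContDiff ℝ ∞ φ → HasCompactSupport φ →
    ∫ X, u X * fderiv ℝ φ X (ev j a) = -∫ X, G j a X * φ X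
  heq : ∀ φ : Cfg (Fin N) → ℝ, ContDiff ℝ ∞ φ → HasCompactSupport φ →
    ∫ X, (∑ j, ∑ a, G j a X * fderiv ℝ φ X (ev j a) + VOn Z Finset.univ X * u X * φ X) =
      lam * ∫ X, u X * φ X

def St_kf : Prop :=
  (∀ (r : ℝ) (y : E3), 0 < r → 8 * r ≤ ‖y‖ → Harm (fun x => Kf x y) (ball 0 (4 * r)) ∧
    Kf 0 y = ‖y‖⁻¹ ∧ ∀ x : E3, ‖x‖ ≤ 4 * r → 0 ≤ Kf x y ∧ Kf x y ≤ 4 * ‖y‖⁻¹) ∧
  ∀ (ι : Type) [Fintype ι] [DecidableEq ι] (Z r R : ℝ) (β : E3 → ℝ), 0 < r → R ≤ 4 * r → Bd β →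
    (∀ y, ‖y‖ < 8 * r → β y = 0) →
    (∀ i j : ι, Bd fun X : Cfg ι => β (X j) * if ‖X i‖ < R then Kf (X i) (X j) else 0) ∧
    Bd fun X : Cfg ι => ∑ j, β (X j) * VK Z R X (X j)

def St_costK : Prop := ∀ C₀ > 0, ∃ C > 0, ∃ l₀ > 0, ∀ (l r t h q L b₀ w D Sb : ℝ) (m : ℕ)
  (p : Fin m → E3) (c : Fin m → ℝ) (ρ ϑ ℓ hb : E3 → ℝ) (ι : Type) [Fintype ι] [DecidableEq ι]
  (X : Cfg ι), Lay l r t → l ≤ l₀ → h = l * r / 20 → (∀ α, ‖p α‖ ≤ t + 6 * h) →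
  (∀ x : E3, ‖x‖ ≤ t + 6 * h → ∃ α, ‖x - p α‖ ≤ l ^ 5 * r) → 4 * r ≤ L →
  TFS (Vq q c p) (t + 8 * h) L ρ → Wt ϑ ℓ (t + 10 * h) b₀ (1 / 8) → Dv ϑ ℓ X ρ ≤ D →
  Harm hb (ball 0 (4 * r)) → (∀ x ∈ ball (0 : E3) (4 * r), |hb x| ≤ Sb) → hb 0 = 0 → 0 ≤ w →
  (∀ α, |Uw ϑ X (p α) - Sw ϑ X - (psi ρ (p α) - psi ρ 0)| ≤ w + l ^ 6 / r * |c α|) →
  ∃ ρt, Dens ρt ∧ (∀ y, ‖y‖ < t + 4 * h → ρt y = 0) ∧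
    (∀ x, ‖x‖ ≤ t + 2 * h → psi ρt x - psi ρt 0 = Uw ϑ X x - Sw ϑ X + hb x) ∧
    EQ q ρt + C₀ / h ^ 2 * N1 ρt ≤ EQ q ρ + 3 / 4 * D + l ^ 6 / r / 2 * ∑ α, c α ^ 2 +
      C * r * w ^ 2 / l ^ 5 + C * l * (r * Sw ϑ X ^ 2 + max (-q) 0 ^ 2 / r + r⁻¹ ^ 7) +
      C * (r * Sb ^ 2 + Sb * √(r * (r * Sw ϑ X ^ 2 + max (-q) 0 ^ 2 / r + r⁻¹ ^ 7)))

def St_pieceK : Prop := ∀ Cc > 0, ∀ Cn > 0, ∃ C > 0, ∃ l₀ > 0,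
  ∀ (Z E l r t h : ℝ) (m : ℕ) (p : Fin m → E3) (Mb : Fin m → ℝ) (η ζ β : E3 → ℝ) (ι : Type)
  [Fintype ι] [DecidableEq ι] (A : Finset ι) (F : Cfg ι → ℂ),
  0 ≤ Z → IsLB Z E → Lay l r t → l ≤ l₀ → h = l * r / 20 → (m : ℝ) ≤ Cn * l⁻¹ ^ 15 →
  (∀ α, ‖p α‖ ≤ t + 6 * h) → (∀ x : E3, ‖x‖ ≤ t + 6 * h → ∃ α, ‖x - p α‖ ≤ l ^ 5 * r) →
  Cut Cc (t + 10 * h) (t + 12 * h) η ζ → Bd β → (∀ y, 0 ≤ β y) → (∀ y, ‖y‖ < 8 * r → β y = 0) →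
  Sm F → AntiOn A F → AntiOn Aᶜ F →
  (∀ X, F X ≠ 0 → (∀ i ∈ A, ‖X i‖ ≤ t + 2 * h) ∧ (∀ j, j ∉ A → t ≤ ‖X j‖) ∧
    ∀ α, |Uw (fun y => ζ y ^ 2) X (p α) - Sw (fun y => ζ y ^ 2) X - Mb α| ≤ l ^ 11 * r⁻¹ ^ 4) →
  Ex F (fun X => ∑ j, β (X j) * VK Z (2 * r) X (X j)) ≤ ee Z E F +
    Ex F fun X => C * l * BB Z r X + C * (r * Sw β X ^ 2 + Sw β X * √(r * BB Z r X)) +
      ∑ j ∈ Aᶜ, η (X j) ^ 2 * Vscr Z (r / 4) X (X j)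

def St_stepK : Prop := ∀ K > 0, ∀ K₂ > 0, ∃ K₁ > 0, ∃ D > 0, ∀ Z E r : ℝ, 0 ≤ Z → 0 < r → r ≤ D →
  IsLB Z E → HH K Z E r → LR K₂ Z E (r / 8) → LRK K₁ Z E r

/-- the estimates at all scales -/
def FINK : Prop := ∃ K > 0, ∃ K₂ > 0, ∃ D > 0, ∃ Θ > 0, ∃ Z₀ : ℝ, ∀ Z, Z₀ ≤ Z →
  (∃ E, IsLB Z E) ∧ ∀ E, IsLB Z E → ∀ r, 0 < r → r ≤ D → Θ ≤ Z * r ^ 3 →
    HH K Z E r ∧ LR K₂ Z E (r / 8)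

def St_indK : Prop := ∀ k : Cs, k.Pos → STEP k → STEP0 k → FINK

def St_br2 : Prop := ∀ (N : ℕ) (Z lam : ℝ) (u : Cfg (Fin N) → ℝ)
  (G : Fin N → Fin 3 → Cfg (Fin N) → ℝ), WS Z lam u G →
  (∀ i j, i ≠ j → ∀ᵐ X : Cfg (Fin N), u (X ∘ Equiv.swap i j) = -u X) →
  ∃ Φ : ℕ → Cfg (Fin N) → ℂ, (∀ n, Core (Φ n)) ∧
    Tendsto (fun n => En Z (Φ n)) atTop (𝓝 (lam * ∫ X, u X ^ 2)) ∧
    ∀ f : Cfg (Fin N) → ℝ, Bd f → Tendsto (fun n => Ex (Φ n) f) atTop (𝓝 (∫ X, f X * u X ^ 2))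

/-- the localised virial inequality -/
def St_vir : Prop := ∃ C > 0, ∀ (N : ℕ) (Z lam r L : ℝ) (u : Cfg (Fin N) → ℝ)
  (G : Fin N → Fin 3 → Cfg (Fin N) → ℝ), 0 ≤ Z → WS Z lam u G → 0 < r → 16 * r ≤ L →
  ∃ β : E3 → ℝ, Bd β ∧ (∀ y, 0 ≤ β y ∧ β y ≤ 2 * ‖y‖) ∧ (∀ y, ‖y‖ < 8 * r → β y = 0) ∧
    ∫ X, (Nbt (16 * r) L X ^ 2 - Nbt (16 * r) L X) * u X ^ 2 ≤
      50 * (∫ X, (∑ j, β (X j) * VK Z (2 * r) X (X j)) * u X ^ 2) +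
        C * ∫ X, Sge (8 * r) X * u X ^ 2

def St_f2K : Prop := ∀ K > 0, ∀ K₁ > 0, ∃ C > 0, ∀ (N : ℕ) (Z E lam r : ℝ) (u : Cfg (Fin N) → ℝ)
  (G : Fin N → Fin 3 → Cfg (Fin N) → ℝ), 0 ≤ Z → 0 < r → r ≤ 1 → WS Z lam u G →
  (∀ i j, i ≠ j → ∀ᵐ X : Cfg (Fin N), u (X ∘ Equiv.swap i j) = -u X) → ¬u =ᵐ[volume] 0 →
  LRK K₁ Z E r → HH K Z E (8 * r) → lam - E ≤ r⁻¹ ^ 7 → (N : ℝ) ≤ Z + C * r⁻¹ ^ 3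

def COREK : Prop := ∃ C > 0, ∃ Z₀ : ℝ, ∀ (N : ℕ) (Z lam μ : ℝ) (u : Cfg (Fin N) → ℝ)
  (G : Fin N → Fin 3 → Cfg (Fin N) → ℝ), Z₀ ≤ Z → WS Z lam u G →
  (∀ i j, i ≠ j → ∀ᵐ X : Cfg (Fin N), u (X ∘ Equiv.swap i j) = -u X) → ¬u =ᵐ[volume] 0 →
  LBc Z N μ → (N : ℝ) ≤ 5 * Z → (N : ℝ) ≤ Z + C * (1 + max (lam - μ) 0 ^ (3 / 7 : ℝ))

def St_coreK : Prop := FINK → St_stepK → St_f1 → St_f2K → St_sup → COREK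

end Pool.Agent.Lib.ION
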