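import Pool.Agent.Lib.ION.Basic

/-!
# The ionization bound for ground states: the semiclassical bound in one cell
-/

open MeasureTheory Set Metric Real Filter Topology LineDeriv
open scoped ContDiff ComplexConjugate FourierTransform SchwartzMap

noncomputable section

namespace Pool.Agent.Lib.ION

open Pool.Agent.Lib.MP_689e73_mp

lemma cell_sq (g : 𝓢(E3, ℂ)) : Integrable fun x => ‖g x‖ ^ 2 :=
  (memLp_two_iff_integrable_sq_norm g.continuous.aestronglyMeasurable).1 (g.memLp 2 volume)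

lemma cell_der (g : 𝓢(E3, ℂ)) (a : Fin 3) (ξ : E3) :
    ‖𝓕 (∂_{e1 a} g) ξ‖ ^ 2 = 4 * π ^ 2 * ξ a ^ 2 * ‖𝓕 g ξ‖ ^ 2 := by
  have h : (fun x : E3 => inner ℝ x (e1 a)).HasTemperateGrowth :=
    ((innerSL ℝ).flip (e1 a)).hasTemperateGrowth
  have e : inner ℝ ξ (e1 a) = ξ a := by simp [e1, EuclideanSpace.inner_single_right]
  rw [SchwartzMap.fourier_lineDerivOp_eq, _root_.smul_apply,
    SchwartzMap.smulLeftCLM_apply_apply h, e]
  simp only [norm_smul, norm_mul, Complex.norm_I, Complex.norm_real, Real.norm_eq_abs, mul_pow,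
    sq_abs, Complex.norm_ofNat]
  ring

/-- the weight in momentum space -/
def cellW (v : ℝ) (ξ : E3) : ℝ := max (v - 4 * π ^ 2 * ‖ξ‖ ^ 2) 0

lemma cellW_nonneg (v : ℝ) (ξ : E3) : 0 ≤ cellW v ξ := le_max_right _ _

lemma cellW_le {v : ℝ} (hv : 0 ≤ v) (ξ : E3) : cellW v ξ ≤ v :=
  max_le (sub_le_self _ (by positivity)) hv

lemma cellW_cont (v : ℝ) : Continuous (cellW v) := by
  unfold cellW
  fun_prop

lemma cell_rad {v t : ℝ} (hv : 0 ≤ v) (ht : √v / (2 * π) ≤ t) : v - 4 * π ^ 2 * t ^ 2 ≤ 0 := by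
  rw [div_le_iff₀ (by positivity)] at ht
  have := pow_le_pow_left₀ (Real.sqrt_nonneg v) ht 2
  rw [Real.sq_sqrt hv] at this
  nlinarith

lemma cell_rad' {v t : ℝ} (hv : 0 ≤ v) (h0 : 0 ≤ t) (ht : t ≤ √v / (2 * π)) :
    0 ≤ v - 4 * π ^ 2 * t ^ 2 := by
  rw [le_div_iff₀ (by positivity)] at ht
  have := pow_le_pow_left₀ (by positivity) ht 2
  rw [Real.sq_sqrt hv] at this
  nlinarith

lemma cellW_int {v : ℝ} (hv : 0 ≤ v) : Integrable (cellW v) :=
  (cellW_cont v).integrable_of_hasCompactSupport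
    (HasCompactSupport.intro (isCompact_closedBall 0 (√v / (2 * π))) fun _ hξ =>
      max_eq_right (cell_rad hv (le_of_not_ge fun h => hξ (mem_closedBall_zero_iff.2 h))))

lemma cellW_integral {v : ℝ} (hv : 0 ≤ v) : ∫ ξ, cellW v ξ = 2 / 5 * c1 * v ^ (5 / 2 : ℝ) := by
  have h := integral_fun_norm_addHaar (volume : Measure E3)
    fun t : ℝ => max (v - 4 * π ^ 2 * t ^ 2) 0
  have hR : 0 ≤ √v / (2 * π) := by positivity
  have h1 : ∫ y in Ioi (0 : ℝ), y ^ 2 * max (v - 4 * π ^ 2 * y ^ 2) 0 =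
      ∫ y in (0 : ℝ)..(√v / (2 * π)), (v * y ^ 2 - 4 * π ^ 2 * y ^ 4) := by
    rw [intervalIntegral.integral_of_le hR, setIntegral_eq_of_subset_of_forall_sdiff_eq_zero
      measurableSet_Ioi (Ioc_subset_Ioi_self : Ioc 0 (√v / (2 * π)) ⊆ Ioi 0)]
    · refine setIntegral_congr_fun measurableSet_Ioc fun y hy => ?_
      simp only [max_eq_left (cell_rad' hv hy.1.le hy.2)]
      ring
    · intro y hy
      rw [max_eq_right (cell_rad hv (le_of_not_ge fun h => hy.2 ⟨hy.1, h⟩)), mul_zero]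
  have h2 : (volume : Measure E3).real (ball 0 1) = π * 4 / 3 := by
    rw [Measure.real, EuclideanSpace.volume_ball_fin_three, ENNReal.ofReal_one, one_pow, one_mul,
      ENNReal.toReal_ofReal (by positivity)]
  have h3 : v ^ (5 / 2 : ℝ) = √v ^ 5 := by
    rw [Real.sqrt_eq_rpow, ← Real.rpow_natCast, ← Real.rpow_mul hv]
    norm_num
  simp only [finrank_euclideanSpace, Fintype.card_fin, smul_eq_mul, nsmul_eq_mul, h2,
    Nat.reduceSub, h1] at h
  rw [intervalIntegral.integral_sub (Continuous.intervalIntegrable (by fun_prop) _ _)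
    (Continuous.intervalIntegrable (by fun_prop) _ _),
    intervalIntegral.integral_const_mul, intervalIntegral.integral_const_mul, integral_pow,
    integral_pow] at h
  refine h.trans ?_
  rw [h3, c1]
  nth_rewrite 1 [← Real.sq_sqrt hv]
  push_cast
  field_simp
  ring

lemma cell_one {G : E3 → ℂ} (h : Sm G) {v : ℝ} (hv : 0 ≤ v) :
    (Integrable fun ξ => cellW v ξ * ‖𝓕 G ξ‖ ^ 2) ∧
    ∫ ξ, cellW v ξ * ‖𝓕 G ξ‖ ^ 2 ≤ v * ∫ y, ‖G y‖ ^ 2 ∧
    v * (∫ y, ‖G y‖ ^ 2) - ∫ y, k1 G y ≤ ∫ ξ, cellW v ξ * ‖𝓕 G ξ‖ ^ 2 := by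
  let g := h.cpt.toSchwartzMap h.smooth
  have i0 : Integrable fun ξ => ‖𝓕 G ξ‖ ^ 2 := cell_sq (𝓕 g)
  have p0 : ∫ ξ, ‖𝓕 G ξ‖ ^ 2 = ∫ y, ‖G y‖ ^ 2 := g.integral_norm_sq_fourier
  have i1 : Integrable fun ξ => cellW v ξ * ‖𝓕 G ξ‖ ^ 2 :=
    i0.bdd_mul (c := v) (cellW_cont v).aestronglyMeasurable (Eventually.of_forall fun ξ => by
      rw [Real.norm_of_nonneg (cellW_nonneg v ξ)]
      exact cellW_le hv ξ)
  have i2 : ∀ a, Integrable fun ξ => ‖𝓕 (∂_{e1 a} g) ξ‖ ^ 2 := fun a => cell_sq _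
  have p1 : ∫ y, k1 G y = ∫ ξ, ∑ a, ‖𝓕 (∂_{e1 a} g) ξ‖ ^ 2 := by
    rw [integral_finsetSum _ fun a _ => i2 a]
    simp only [SchwartzMap.integral_norm_sq_fourier]
    exact integral_finsetSum _ fun a _ => cell_sq (∂_{e1 a} g)
  refine ⟨i1, ?_, ?_⟩
  · rw [← p0, ← integral_const_mul]
    exact integral_mono i1 (i0.const_mul v) fun ξ =>
      mul_le_mul_of_nonneg_right (cellW_le hv ξ) (by positivity)
  · have i3 := integrable_finsetSum Finset.univ fun a _ => i2 a
    rw [← p0, p1, ← integral_const_mul, ← integral_sub (i0.const_mul v) i3]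
    refine integral_mono ((i0.const_mul v).sub i3) i1 fun ξ => ?_
    have e : ∑ a, ‖𝓕 (∂_{e1 a} g) ξ‖ ^ 2 = 4 * π ^ 2 * ‖ξ‖ ^ 2 * ‖𝓕 G ξ‖ ^ 2 := by
      simp only [cell_der, ← Finset.sum_mul, ← Finset.mul_sum, EuclideanSpace.real_norm_sq_eq]
      rfl
    simp only [e, ← sub_mul]
    exact mul_le_mul_of_nonneg_right (le_max_left _ _) (by positivity)

section Many

variable {ι : Type} [Fintype ι] [DecidableEq ι] {Φ : Cfg ι → ℂ}

lemma cell_sl (h : Sm Φ) (j : ι) (Y : Cfg {i // i ≠ j}) :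
    Sm (fun y => Φ (ins j y Y)) ∧
      ∀ y, k1 (fun y => Φ (ins j y Y)) y = kin Φ j (ins j y Y) := by
  have e : (fun y => Φ (ins j y Y)) = Φ ∘ Function.update (ins j 0 Y) j :=
    funext fun y => by simp only [Function.comp_apply, update_ins]
  obtain ⟨L, -, hL⟩ := h.supp_bound
  refine ⟨⟨e ▸ h.smooth.comp (contDiff_update _ _ _), HasCompactSupport.intro
    (isCompact_closedBall 0 L) fun y hy => ?_⟩, fun y => ?_⟩
  · by_contra k
    exact hy (mem_closedBall_zero_iff.2 (by simpa only [ins_self] using hL _ k j))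
  · have d := ((h.smooth.differentiable (by simp)) _).hasFDerivAt.comp y
      (hasFDerivAt_update (𝕜 := ℝ) (ins j 0 Y) (i := j) y)
    unfold k1 kin
    refine Finset.sum_congr rfl fun a _ => ?_
    rw [e, d.fderiv, update_ins, ContinuousLinearMap.comp_apply]
    congr 3
    ext1 i
    by_cases hi : i = j
    · subst hi
      simp [ev]
    · simp [ev, hi]

lemma cell_cont_ins (j : ι) : Continuous fun p : E3 × Cfg {i // i ≠ j} => ins j p.1 p.2 := by
  refine continuous_pi fun i => ?_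
  by_cases h : i = j
  · simpa [ins, h] using continuous_fst
  · simp only [ins_ne h]
    fun_prop

lemma cell_j (h : Sm Φ) (j : ι) {v : ℝ} (hv : 0 ≤ v) :
    (Integrable fun ξ => cellW v ξ * ∫ Y, ‖𝓕 (fun y => Φ (ins j y Y)) ξ‖ ^ 2) ∧
    v * Nm Φ - Kn Φ j ≤ ∫ ξ, cellW v ξ * ∫ Y, ‖𝓕 (fun y => Φ (ins j y Y)) ξ‖ ^ 2 := by
  have c1 := fun Y => cell_one (cell_sl h j Y).1 hv
  have m0 : StronglyMeasurable fun p : Cfg {i // i ≠ j} × E3 =>
      𝓕 (fun y => Φ (ins j y p.1)) p.2 := by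
    have : Continuous fun q : (Cfg {i // i ≠ j} × E3) × E3 =>
        𝐞 (-inner ℝ q.2 q.1.2) • Φ (ins j q.2 q.1.1) := by
      have k : Continuous fun q : (Cfg {i // i ≠ j} × E3) × E3 => -inner ℝ q.2 q.1.2 := by
        fun_prop
      refine Continuous.smul (continuous_subtype_val.comp (Real.continuous_fourierChar.comp k))
        (h.cont.comp ?_)
      exact (cell_cont_ins j).comp (f := fun q : (Cfg {i // i ≠ j} × E3) × E3 => (q.2, q.1.1))
        (by fun_prop)
    exact this.stronglyMeasurable.integral_prod_right'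
  have m1 : AEStronglyMeasurable (fun p : Cfg {i // i ≠ j} × E3 =>
      cellW v p.2 * ‖𝓕 (fun y => Φ (ins j y p.1)) p.2‖ ^ 2) (volume.prod volume) :=
    (((cellW_cont v).comp continuous_snd).stronglyMeasurable.mul
      (m0.norm.pow 2)).aestronglyMeasurable
  have i0 : Integrable fun Y : Cfg {i // i ≠ j} => ∫ y, ‖Φ (ins j y Y)‖ ^ 2 :=
    ((integrable_ins j).2 h.int_sq).integral_prod_right
  have i1 : Integrable fun Y : Cfg {i // i ≠ j} => ∫ y, kin Φ j (ins j y Y) :=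
    ((integrable_ins j).2 (h.int_kin j)).integral_prod_right
  have i2 : Integrable (fun p : Cfg {i // i ≠ j} × E3 =>
      cellW v p.2 * ‖𝓕 (fun y => Φ (ins j y p.1)) p.2‖ ^ 2) (volume.prod volume) := by
    rw [integrable_prod_iff m1]
    refine ⟨Eventually.of_forall fun Y => (c1 Y).1, (i0.const_mul v).mono'
      m1.norm.integral_prod_right' (Eventually.of_forall fun Y => ?_)⟩
    rw [Real.norm_of_nonneg (integral_nonneg fun _ => norm_nonneg _)]
    refine le_trans (le_of_eq (integral_congr_ae (Eventually.of_forall fun ξ => ?_))) (c1 Y).2.1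
    exact Real.norm_of_nonneg (mul_nonneg (cellW_nonneg v ξ) (by positivity))
  simp only [← integral_const_mul]
  refine ⟨i2.integral_prod_right, ?_⟩
  rw [← integral_integral_swap i2, Nm, Kn, integral_ins j h.int_sq, integral_ins j (h.int_kin j),
    ← integral_const_mul, ← integral_sub (i0.const_mul v) i1]
  refine integral_mono ((i0.const_mul v).sub i1) i2.integral_prod_left fun Y => ?_
  simpa only [(cell_sl h j Y).2] using (c1 Y).2.2

lemma cell_univ (h1 : St_pauli) (h : Core Φ) {χ : E3 → ℝ} (hχ : ContDiff ℝ ∞ χ)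
    (hi : Integrable fun y => χ y ^ 2) {v : ℝ} (hv : 0 ≤ v) :
    ∑ j, (v * Nm (mulj χ j Φ) - Kn (mulj χ j Φ) j) ≤
      2 / 5 * c1 * v ^ (5 / 2 : ℝ) * (∫ y, χ y ^ 2) * Nm Φ := by
  have c := fun j => cell_j (h.sm.mulj hχ j) j hv
  refine (Finset.sum_le_sum fun j _ => (c j).2).trans ?_
  rw [← integral_finsetSum _ fun j _ => (c j).1, ← cellW_integral hv, mul_assoc,
    ← integral_mul_const]
  refine integral_mono (integrable_finsetSum _ fun j _ => (c j).1) ((cellW_int hv).mul_const _)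
    fun ξ => ?_
  simp only [← Finset.mul_sum]
  refine mul_le_mul_of_nonneg_left ?_ (cellW_nonneg v ξ)
  have e : ∀ y, ‖(χ y : ℂ) * 𝐞 (inner ℝ y ξ)‖ ^ 2 = χ y ^ 2 := fun y => by
    rw [norm_mul, Circle.norm_coe, mul_one, Complex.norm_real, Real.norm_eq_abs, sq_abs]
  have k := h1 ι Φ (fun y => χ y * 𝐞 (inner ℝ y ξ)) h
    ((Complex.continuous_ofReal.comp hχ.continuous).mul (continuous_subtype_val.comp
      (Real.continuous_fourierChar.comp (by fun_prop)))) (by simpa only [e] using hi)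
  simp only [e] at k
  refine le_trans (le_of_eq ?_) k
  refine Finset.sum_congr rfl fun j _ => integral_congr_ae (Eventually.of_forall fun Y => ?_)
  simp only [Real.fourier_eq, mulj, ins_self]
  congr 3
  ext y
  rw [map_mul, Complex.conj_ofReal, Circle.smul_def, AddChar.map_neg_eq_inv, Circle.coe_inv_eq_conj,
    smul_eq_mul]
  ring

end Many

theorem st_cell (h1 : St_pauli) (h2 : St_slice) : St_cell := by
  intro ι _ _ A F χ v hF hA hχ hi hv
  obtain ⟨s1, s2, -⟩ := h2 ι A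
  set c := 2 / 5 * c1 * v ^ (5 / 2 : ℝ) * ∫ y, χ y ^ 2 with hc
  have sj := fun j => hF.mulj hχ j
  have i1 : Integrable fun X => ∑ j ∈ A, (v * ‖mulj χ j F X‖ ^ 2 - kin (mulj χ j F) j X) :=
    integrable_finsetSum _ fun j _ => ((sj j).int_sq.const_mul v).sub ((sj j).int_kin j)
  have key : ∀ (κ : Type) [Fintype κ] [DecidableEq κ] (B : Finset κ) (Φ : Cfg κ → ℂ), Sm Φ →
      ∫ X, (c * ‖Φ X‖ ^ 2 - ∑ j ∈ B, (v * ‖mulj χ j Φ X‖ ^ 2 - kin (mulj χ j Φ) j X)) =
        c * Nm Φ - ∑ j ∈ B, (v * Nm (mulj χ j Φ) - Kn (mulj χ j Φ) j) := by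
    intro κ _ _ B Φ hΦ
    have tj := fun j => hΦ.mulj hχ j
    have t1 : ∀ j, Integrable fun X => v * ‖mulj χ j Φ X‖ ^ 2 - kin (mulj χ j Φ) j X :=
      fun j => ((tj j).int_sq.const_mul v).sub ((tj j).int_kin j)
    rw [integral_sub (hΦ.int_sq.const_mul c) (integrable_finsetSum _ fun j _ => t1 j),
      integral_finsetSum _ fun j _ => t1 j, integral_const_mul]
    congr 1
    refine Finset.sum_congr rfl fun j _ => ?_
    rw [integral_sub ((tj j).int_sq.const_mul v) ((tj j).int_kin j), integral_const_mul]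
    rfl
  have k := s1 (fun X => c * ‖F X‖ ^ 2 -
      ∑ j ∈ A, (v * ‖mulj χ j F X‖ ^ 2 - kin (mulj χ j F) j X))
    ((hF.int_sq.const_mul c).sub i1) (Eventually.of_forall fun Y _ => by
      have hs := (s2 F Y hF).2.1 hA
      have e : ∀ j : A, slice A Y (mulj χ j F) = mulj χ j (slice A Y F) := fun j => by
        ext X
        simp [slice, mulj, Function.updateFinset]
      refine le_trans (sub_nonneg.2 (cell_univ h1 hs hχ hi hv)) (le_of_eq ?_)
      rw [← key _ _ _ hs.sm]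
      refine integral_congr_ae (Eventually.of_forall fun X => ?_)
      simp only [← e, (s2 _ Y (sj _)).2.2]
      simp only [slice]
      rw [← Finset.sum_coe_sort A])
  rw [key _ _ _ hF, Finset.sum_sub_distrib, ← Finset.mul_sum] at k
  have e : Ex F (fun X => ∑ j ∈ A, χ (X j) ^ 2) = ∑ j ∈ A, Nm (mulj χ j F) := by
    rw [Ex_sum A (f := fun j X => χ (X j) ^ 2) hF fun j _ => Continuous.locallyIntegrable
      ((hχ.continuous.comp (continuous_apply j)).pow 2)]
    exact Finset.sum_congr rfl fun j _ => (Nm_mul F fun X => χ (X j)).symm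
  rw [e]
  linarith

end Pool.Agent.Lib.ION
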