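import Pool.Agent.Lib.ION.Basic

/-!
# The comparison principle outside a ball
-/

open MeasureTheory Set Metric Real Filter Topology

noncomputable section

namespace Pool.Agent.Lib.ION

open Pool.Agent.Lib.MP_689e73_mp

lemma cmp_ll {σ : E3 → ℝ} (h : LL σ) {s : Set E3} (hs : MeasurableSet s) : LL (indicator s σ) :=
  ⟨h.meas.indicator hs, h.int.indicator hs, h.lp.indicator hs⟩

/-- at a maximum point the function is locally constant -/
lemma cmp_loc (h1 : St_harm) {H σ : E3 → ℝ} {c : E3} {ℓ : ℝ} (hH : Harm H (closedBall c ℓ))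
    (hσ : LL σ) (h0 : ∀ y ∈ closedBall c ℓ, 0 ≤ σ y)
    (hm : ∀ y ∈ closedBall c ℓ, H y - psi σ y ≤ H c - psi σ c) :
    ∀ y ∈ ball c ℓ, H y - psi σ y = H c - psi σ c := by
  let γ : ℝ → ℝ := fun t => if t ≤ ℓ then 1 else 0
  have hγ : Rad γ ℓ := ⟨Bd.ite measurableSet_Iic (Bd.const 1) (Bd.const 0),
    fun t ht => if_neg (not_le.2 ht)⟩
  have g0 : ∀ t, 0 ≤ γ t := fun t => by simp only [γ]; split_ifs <;> norm_num
  have l1 := cmp_ll hσ (measurableSet_closedBall (x := c) (ε := ℓ))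
  have l2 := cmp_ll hσ (measurableSet_closedBall (x := c) (ε := ℓ)).compl
  have e : ∀ y, psi σ y = psi (indicator (closedBall c ℓ) σ) y +
      psi (indicator (closedBall c ℓ)ᶜ σ) y := fun y => by
    rw [← l1.psi_add l2]
    simp only [indicator_self_add_compl_apply]
  have k1 : Harm (fun y => H c - psi σ c - H y + psi (indicator (closedBall c ℓ)ᶜ σ) y)
      (closedBall c ℓ) := ((Harm.const _ _).sub hH).add
    (h1.2.1 _ _ l2 fun y hy => indicator_of_notMem (notMem_compl_iff.2 hy) _)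
  have k2 := h1.2.2.2.1 _ γ ℓ c l1 (indicator_nonneg h0) hγ g0
  have i1 := Harm.int k1.cont Subset.rfl hγ
  have i2 := Harm.int (s := univ) (c := c) l1.continuous_psi.continuousOn (subset_univ _) hγ
  let f : E3 → ℝ := fun y => γ ‖y - c‖ * (H c - psi σ c - (H y - psi σ y))
  have ef : f = fun y => γ ‖y - c‖ * (H c - psi σ c - H y +
      psi (indicator (closedBall c ℓ)ᶜ σ) y) + γ ‖y - c‖ * psi (indicator (closedBall c ℓ) σ) y :=
    funext fun y => by simp only [f]; rw [e y]; ring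
  have f0 : 0 ≤ f := fun y => by
    simp only [f, γ, Pi.zero_apply]
    split_ifs with h
    · have := hm y (mem_closedBall_iff_norm.2 h)
      linarith
    · rw [zero_mul]
  have fi : Integrable f := ef ▸ i1.add i2
  have fz : ∫ y, f y = 0 := by
    refine le_antisymm ?_ (integral_nonneg f0)
    rw [ef, integral_add i1 i2, k1.mv c ℓ γ Subset.rfl hγ, e c]
    linarith
  have ae := (integral_eq_zero_iff_of_nonneg f0 fi).1 fz
  have cu : ContinuousOn (fun y => H y - psi σ y) (ball c ℓ) :=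
    (hH.cont.mono ball_subset_closedBall).sub hσ.continuous_psi.continuousOn
  refine Measure.eqOn_open_of_ae_eq (μ := volume) (g := fun _ => H c - psi σ c) ?_ isOpen_ball cu
    continuousOn_const
  filter_upwards [ae_restrict_of_ae ae, ae_restrict_mem measurableSet_ball] with y h2 h3
  simp only [f, γ, if_pos (mem_ball_iff_norm.1 h3).le, Pi.zero_apply] at h2
  linarith

theorem st_cmp (h1 : St_harm) : St_cmp := by
  intro H σ a ha hc hH hσ hb hinf hs y₁ hy₁
  by_contra hp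
  rw [not_le] at hp
  let u : E3 → ℝ := fun y => H y - psi σ y
  have cu : ContinuousOn u {y | a ≤ ‖y‖} := hc.sub hσ.continuous_psi.continuousOn
  obtain ⟨R, hR⟩ := hinf _ (half_pos hp)
  have cl : IsClosed {y : E3 | a ≤ ‖y‖} := isClosed_le continuous_const continuous_norm
  have hK := (isCompact_closedBall (0 : E3) (max R ‖y₁‖)).inter_left cl
  have m1 : y₁ ∈ {y : E3 | a ≤ ‖y‖} ∩ closedBall 0 (max R ‖y₁‖) :=
    ⟨hy₁, mem_closedBall_zero_iff.2 (le_max_right _ _)⟩
  obtain ⟨y₂, m2, hM⟩ := hK.exists_isMaxOn ⟨_, m1⟩ (cu.mono inter_subset_left)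
  have h12 : H y₁ - psi σ y₁ ≤ u y₂ := hM m1
  have out : ∀ y, y ∉ closedBall (0 : E3) (max R ‖y₁‖) → u y < u y₂ := fun y hy => by
    rw [mem_closedBall_zero_iff, not_le, max_lt_iff] at hy
    have : u y ≤ _ := hR y hy.1.le
    linarith
  have all : ∀ y, a ≤ ‖y‖ → u y ≤ u y₂ := fun y hy => by
    by_cases h : y ∈ closedBall (0 : E3) (max R ‖y₁‖)
    · exact hM ⟨hy, h⟩
    · exact (out y h).le
  have hK0 : IsCompact ({y : E3 | a ≤ ‖y‖} ∩ u ⁻¹' {u y₂}) :=
    (isCompact_closedBall (0 : E3) (max R ‖y₁‖)).of_isClosed_subset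
      (cu.preimage_isClosed_of_isClosed cl isClosed_singleton) fun y hy => by
        by_contra h
        exact (out y h).ne hy.2
  obtain ⟨y₀, ⟨m3, m4⟩, hN⟩ := hK0.exists_isMaxOn ⟨y₂, m2.1, rfl⟩ continuous_norm.continuousOn
  have m4 : u y₀ = u y₂ := m4
  have p0 : 0 < u y₀ := by linarith
  have lt : a < ‖y₀‖ := lt_of_le_of_ne m3 fun h => (hb y₀ h.symm).not_gt p0
  have n1 : {y : E3 | a < ‖y‖} ∈ 𝓝 y₀ := (isOpen_lt continuous_const continuous_norm).mem_nhds lt
  have n2 : ∀ᶠ y in 𝓝 y₀, 0 < u y :=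
    (cu.continuousAt (mem_of_superset n1 fun y (h : a < ‖y‖) => (h.le : a ≤ ‖y‖))).eventually
      (lt_mem_nhds p0)
  obtain ⟨ℓ, hℓ, hB⟩ := nhds_basis_closedBall.mem_iff.1 (inter_mem n1 n2)
  have key := cmp_loc h1 (hH.mono fun y hy => (hB hy).1) hσ
    (fun y hy => hs y (hB hy).1 (hB hy).2) fun y hy => (all y (le_of_lt ((hB hy).1 : a < ‖y‖))).trans m4.ge
  have n0 : 0 < ‖y₀‖ := ha.trans lt
  have t0 : 0 < ℓ / 2 / ‖y₀‖ := by positivity
  have mem : (1 + ℓ / 2 / ‖y₀‖) • y₀ ∈ ball y₀ ℓ := by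
    rw [mem_ball_iff_norm, add_smul, one_smul, add_sub_cancel_left, norm_smul,
      Real.norm_of_nonneg t0.le, div_mul_cancel₀ _ n0.ne']
    linarith
  have := hN ⟨(le_of_lt ((hB (ball_subset_closedBall mem)).1 : a < ‖_‖) : a ≤ ‖_‖), (key _ mem).trans m4⟩
  simp only [mem_ofPred_eq, norm_smul, Real.norm_of_nonneg (by positivity : 0 ≤ 1 + ℓ / 2 / ‖y₀‖)]
    at this
  nlinarith

end Pool.Agent.Lib.ION
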