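import Pool.Agent.Lib.ION.COH2

/-!
Coherent states: a finite family with prescribed density and semiclassical kinetic energy.
-/

open MeasureTheory Set Metric Real Filter Topology
open scoped ContDiff ComplexConjugate

noncomputable section

namespace Pool.Agent.Lib.ION

open Pool.Agent.Lib.MP_689e73_mp

lemma coh_rad {ρ : E3 → ℝ} (h : Dens ρ) : ∃ (r : E3 → ℝ) (R : ℝ), Measurable r ∧
    (∀ u, 0 ≤ r u) ∧ (∀ u, 4 * π / 3 * r u ^ 3 = ρ u) ∧
    {p : CohP | ‖p.2‖ < r p.1} ⊆ closedBall 0 R := by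
  have hπ := Real.pi_pos
  obtain ⟨B, hB⟩ := h.bd.bdd
  obtain ⟨L, hL⟩ := h.supp
  have hm := h.bd.meas
  have h0 : ∀ u, 0 ≤ 3 / (4 * π) * ρ u := fun u => mul_nonneg (by positivity) (h.nn u)
  refine ⟨fun u => (3 / (4 * π) * ρ u) ^ ((3 : ℕ) : ℝ)⁻¹,
    max L ((3 / (4 * π) * B) ^ ((3 : ℕ) : ℝ)⁻¹), (hm.const_mul _).pow_const _,
    fun u => Real.rpow_nonneg (h0 u) _, fun u => ?_, fun p hp => ?_⟩
  · rw [Real.rpow_inv_natCast_pow (h0 u) (by norm_num)]
    field_simp
  · have hp' : ‖p.2‖ < (3 / (4 * π) * ρ p.1) ^ ((3 : ℕ) : ℝ)⁻¹ := hp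
    rw [mem_closedBall_zero_iff, Prod.norm_def]
    refine max_le_max ?_ (hp'.le.trans ?_)
    · by_contra hn
      rw [hL _ (not_le.1 hn), mul_zero, Real.zero_rpow (by norm_num)] at hp'
      exact absurd hp' (not_lt.2 (norm_nonneg _))
    · exact Real.rpow_le_rpow (h0 _)
        (mul_le_mul_of_nonneg_left ((le_abs_self _).trans (hB _)) (by positivity)) (by positivity)

lemma coh_unif {g : E3 → ℝ} {s : ℝ} (hg : CohW g s) (R : ℝ) {ε : ℝ} (hε : 0 < ε) :
    ∃ η > 0, ∀ y, ∀ p ∈ closedBall (0 : CohP) R, ∀ q ∈ closedBall (0 : CohP) R, dist p q < η →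
      ‖cohK g (y, p) - cohK g (y, q)‖ ≤ ε := by
  have hu := ((isCompact_closedBall (0 : E3) (R + s)).prod
    (isCompact_closedBall (0 : CohP) R)).uniformContinuousOn_of_continuous
    (cohK_smooth hg.sm).continuous.continuousOn
  obtain ⟨η, hη, h⟩ := Metric.uniformContinuousOn_iff.1 hu ε hε
  refine ⟨η, hη, fun y p hp q hq hpq => ?_⟩
  by_cases hy : R + s < ‖y‖
  · rw [cohK_zero hg hy hp, cohK_zero hg hy hq]
    simpa using hε.le
  · have hy' : y ∈ closedBall (0 : E3) (R + s) := mem_closedBall_zero_iff.2 (not_lt.1 hy)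
    rw [← dist_eq_norm]
    exact (h (y, p) ⟨hy', hp⟩ (y, q) ⟨hy', hq⟩ (by rwa [dist_prod_same_left])).le

theorem st_coh (h1 : St_ker) : St_coh := by
  obtain ⟨C, hC, hk⟩ := h1
  refine ⟨C, hC, fun ρ s δ hρ hs hδ => ?_⟩
  obtain ⟨k1', k2, k3, -, -, k6, k7, -⟩ := hk s hs
  have hg : CohW (gs s) s := ⟨k1', k2, by simp only [k3, k6]⟩
  set g := gs s
  obtain ⟨r, R, hr, hr0, hr3, hΩ⟩ := coh_rad hρ
  set Ω := {p : CohP | ‖p.2‖ < r p.1} with hΩd
  have hm : MeasurableSet Ω := measurableSet_lt measurable_snd.norm (hr.comp measurable_fst)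
  have hK := isCompact_closedBall (0 : CohP) R
  obtain ⟨M, hM⟩ := k1'.continuous.bounded_above_of_compact_support
    (coh_cpt (L := s) fun y hy => k2 y hy.le)
  have hM0 : 0 ≤ M := (norm_nonneg _).trans (hM 0)
  have hV : 0 ≤ volume.real Ω := measureReal_nonneg
  have hε : 0 < δ / (2 * M * volume.real Ω + 1) := by positivity
  obtain ⟨η, hη, hu⟩ := coh_unif hg R hε
  obtain ⟨m, S, hS, hd, hU, hη'⟩ := coh_part hK hΩ hm hη
  have hs' : ∀ i, S i ⊆ closedBall 0 R := fun i => (subset_iUnion S i).trans (hU ▸ hΩ)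
  have ck := (cohK_smooth k1').continuous
  have cy : ∀ y, Continuous fun p => cohK g (y, p) := fun y => ck.comp (by fun_prop)
  have hden : ∀ y, ∫ u, ρ u * gam s ‖y - u‖ = ∑ i, ∫ p in S i, ‖cohK g (y, p)‖ ^ 2 := fun y => by
    rw [← integral_iUnion_fintype hS hd fun i => coh_int hK (hs' i) ((cy y).norm.fun_pow 2), hU,
      coh_fib hr hK hΩ ((cy y).norm.fun_pow 2)]
    refine integral_congr_ae (Eventually.of_forall fun u => ?_)
    simp only [cohK_sq, setIntegral_const, smul_eq_mul, coh_vol (hr0 u), hr3, k3]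
  refine ⟨m, fun i => cohF g (S i), fun i => cohF_sm hg (hs' i) (hS i),
    coh_frame hg hr hΩ hS hd hU, fun y => ?_, fun y => ?_, ?_⟩
  · rw [hden]
    refine Finset.sum_le_sum fun i _ => ?_
    unfold cohF
    rw [coh_nsq]
    exact coh_A hK (hs' i) (cy y)
  · have e1 : ∑ i, ∫ p in S i, ‖cohK g (y, p)‖ ^ 2 ≤ ∑ i, (‖cohF g (S i) y‖ ^ 2 +
        2 * M * (δ / (2 * M * volume.real Ω + 1)) * volume.real (S i)) :=
      Finset.sum_le_sum fun i _ => by
        unfold cohF
        rw [coh_nsq]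
        refine coh_B hK (hs' i) (hS i) (cy y) (fun p _ => ?_) fun p hp q hq =>
          hu y p (hs' i hp) q (hs' i hq) (hη' i p hp q hq)
        rw [cohK_norm]
        exact hM _
    rw [Finset.sum_add_distrib, ← Finset.mul_sum,
      ← measureReal_iUnion_fintype hd hS fun i => coh_fin hK (hs' i), hU, ← hden] at e1
    have e2 : 2 * M * (δ / (2 * M * volume.real Ω + 1)) * volume.real Ω ≤ δ := by
      rw [mul_right_comm, mul_div_assoc', div_le_iff₀ (by positivity)]
      nlinarith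
    linarith
  · set G := ∫ y, g1 g y
    have cG : Continuous fun p : CohP => G + 4 * π ^ 2 * ‖p.2‖ ^ 2 := by fun_prop
    refine (Finset.sum_le_sum fun i _ => cohF_kin hg (hs' i) (hS i)).trans ?_
    rw [← integral_iUnion_fintype hS hd fun i => coh_int hK (hs' i) cG, hU, coh_fib hr hK hΩ cG]
    have e : ∀ u, ∫ ξ in ball (0 : E3) (r u), (G + 4 * π ^ 2 * ‖ξ‖ ^ 2) =
        cT * |ρ u| ^ (5 / 3 : ℝ) + G * |ρ u| := fun u => by
      have i0 : ∀ {φ : E3 → ℝ}, Continuous φ → IntegrableOn φ (ball 0 (r u)) := fun hφ =>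
        (hφ.continuousOn.integrableOn_compact (isCompact_closedBall 0 (r u))).mono_set
          ball_subset_closedBall
      rw [integral_add (i0 continuous_const) (i0 (by fun_prop)), setIntegral_const,
        integral_const_mul, coh_vol (hr0 u), coh_mom (hr0 u), abs_of_nonneg (hρ.nn u), ← hr3,
        coh_cT (hr0 u), smul_eq_mul]
      ring
    simp only [e]
    rw [integral_add (hρ.ll.intK.const_mul _) (hρ.ll.int.abs.const_mul _), integral_const_mul,
      integral_const_mul]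
    exact add_le_add le_rfl (mul_le_mul_of_nonneg_right k7 (N1_nonneg ρ))

end Pool.Agent.Lib.ION
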