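import Pool.Agent.Lib.ION.Basic

/-!
Coherent states: averaging over small pieces of phase space.
-/

open MeasureTheory Set Metric Real Filter Topology
open scoped ContDiff ComplexConjugate

noncomputable section

namespace Pool.Agent.Lib.ION

open Pool.Agent.Lib.MP_689e73_mp

/-- phase space -/
abbrev CohP : Type := E3 × E3

lemma coh_fin {S K : Set CohP} (hK : IsCompact K) (h : S ⊆ K) : volume S ≠ ⊤ :=
  ((measure_mono h).trans_lt hK.measure_lt_top).ne

lemma coh_int {F : Type} [NormedAddCommGroup F] {S K : Set CohP} (hK : IsCompact K) (h : S ⊆ K)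
    {H : CohP → F} (hH : Continuous H) : IntegrableOn H S :=
  (hH.continuousOn.integrableOn_compact hK).mono_set h

/-- the Cauchy-Schwarz inequality on a piece -/
lemma coh_A {S K : Set CohP} (hK : IsCompact K) (h : S ⊆ K) {H : CohP → ℂ} (hH : Continuous H) :
    (volume.real S)⁻¹ * ‖∫ p in S, H p‖ ^ 2 ≤ ∫ p in S, ‖H p‖ ^ 2 := by
  set w := volume.real S with hw
  have hw0 : 0 ≤ w := measureReal_nonneg
  have hJ : 0 ≤ ∫ p in S, ‖H p‖ ^ 2 := integral_nonneg fun _ => by positivity
  rcases hw0.eq_or_lt with h0 | h0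
  · rw [← h0]; simpa using hJ
  set I := ∫ p in S, ‖H p‖ with hI
  have h1 : ‖∫ p in S, H p‖ ≤ I := norm_integral_le_integral_norm _
  have i1 : IntegrableOn (fun p => ‖H p‖) S := coh_int hK h hH.norm
  have i2 : IntegrableOn (fun p => ‖H p‖ ^ 2) S := coh_int hK h (hH.norm.pow 2)
  have i3 : IntegrableOn (fun _ : CohP => (I / w) ^ 2) S := coh_int hK h continuous_const
  have h2 : ∫ p in S, 2 * (I / w) * ‖H p‖ ≤ ∫ p in S, (‖H p‖ ^ 2 + (I / w) ^ 2) :=
    integral_mono (i1.const_mul _) (i2.add i3) fun p => by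
      have := sq_nonneg (‖H p‖ - I / w)
      simp only
      nlinarith
  rw [integral_const_mul, integral_add i2 i3, setIntegral_const, smul_eq_mul, ← hI, ← hw] at h2
  have h3 : w⁻¹ * I ^ 2 ≤ ∫ p in S, ‖H p‖ ^ 2 := by
    have e1 : 2 * (I / w) * I = 2 * (w⁻¹ * I ^ 2) := by field_simp
    have e2 : w * (I / w) ^ 2 = w⁻¹ * I ^ 2 := by field_simp
    linarith
  refine le_trans ?_ h3
  gcongr

/-- the reverse inequality for nearly constant functions -/
lemma coh_B {S K : Set CohP} (hK : IsCompact K) (h : S ⊆ K) (hS : MeasurableSet S) {H : CohP → ℂ}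
    (hH : Continuous H) {M ε : ℝ} (hM : ∀ p ∈ S, ‖H p‖ ≤ M)
    (hε : ∀ p ∈ S, ∀ q ∈ S, ‖H p - H q‖ ≤ ε) :
    ∫ p in S, ‖H p‖ ^ 2 ≤
      (volume.real S)⁻¹ * ‖∫ p in S, H p‖ ^ 2 + 2 * M * ε * volume.real S := by
  set w := volume.real S with hw
  have hw0 : 0 ≤ w := measureReal_nonneg
  have hf := coh_fin hK h
  rcases hw0.eq_or_lt with h0 | h0
  · have : volume S = 0 := by
      rwa [hw, eq_comm, measureReal_eq_zero_iff hf] at h0
    rw [← h0, setIntegral_measure_zero _ this]
    simp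
  set a : ℂ := (w⁻¹ : ℝ) • ∫ p in S, H p with ha
  have i0 : IntegrableOn H S := coh_int hK h hH
  have hlt : volume S < ⊤ := hf.lt_top
  have hna : ‖a‖ = w⁻¹ * ‖∫ p in S, H p‖ := by
    rw [ha, norm_smul, Real.norm_of_nonneg (by positivity)]
  have h1 : ‖a‖ ≤ M := by
    have := norm_setIntegral_le_of_norm_le_const hlt hM
    rw [hna, inv_mul_le_iff₀ h0, mul_comm]
    exact this
  have h2 : ∀ p ∈ S, ‖H p - a‖ ≤ ε := fun p hp => by
    have := norm_setIntegral_le_of_norm_le_const (f := fun q => H p - H q) hlt (hε p hp)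
    rw [integral_sub (coh_int hK h continuous_const) i0, setIntegral_const, ← hw] at this
    have e : H p - a = (w⁻¹ : ℝ) • (w • H p - ∫ q in S, H q) := by
      rw [smul_sub, smul_smul, inv_mul_cancel₀ h0.ne', one_smul]
    rw [e, norm_smul, Real.norm_of_nonneg (by positivity), inv_mul_le_iff₀ h0, mul_comm]
    exact this
  have h3 : ∫ p in S, ‖H p‖ ^ 2 ≤ ∫ _ in S, (‖a‖ ^ 2 + 2 * M * ε) :=
    setIntegral_mono_on (coh_int hK h (hH.norm.pow 2)) (coh_int hK h continuous_const) hS
      fun p hp => by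
        have e1 := h2 p hp
        have e2 := hM p hp
        have e3 : ‖H p‖ - ‖a‖ ≤ ε := (norm_sub_norm_le _ _).trans e1
        have e4 : 0 ≤ ε := (norm_nonneg _).trans e1
        have e5 := norm_nonneg (H p)
        have e6 := norm_nonneg a
        have : (‖H p‖ - ‖a‖) * (‖H p‖ + ‖a‖) ≤ ε * (M + M) :=
          (mul_le_mul_of_nonneg_right e3 (by positivity)).trans
            (mul_le_mul_of_nonneg_left (by linarith) e4)
        nlinarith
  rw [setIntegral_const, smul_eq_mul, ← hw, hna] at h3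
  refine h3.trans (le_of_eq ?_)
  field_simp

/-- partitions into pieces of small diameter -/
lemma coh_part {Ω K : Set CohP} (hK : IsCompact K) (h : Ω ⊆ K) (hΩ : MeasurableSet Ω) {η : ℝ}
    (hη : 0 < η) : ∃ (m : ℕ) (S : Fin m → Set CohP), (∀ i, MeasurableSet (S i)) ∧
      Pairwise (Function.onFun Disjoint S) ∧ ⋃ i, S i = Ω ∧
      ∀ i, ∀ p ∈ S i, ∀ q ∈ S i, dist p q < η := by
  obtain ⟨t, -, ht, hc⟩ := finite_cover_balls_of_compact hK (half_pos hη)
  obtain ⟨m, c, hc'⟩ := ht.fin_param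
  let B : Fin m → Set CohP := fun i => ball (c i) (η / 2)
  refine ⟨m, fun i => disjointed B i ∩ Ω, fun i => ?_, fun i j hij => ?_, ?_, ?_⟩
  · refine MeasurableSet.inter ?_ hΩ
    rw [disjointed_eq_inter_compl]
    exact measurableSet_ball.inter (MeasurableSet.iInter fun _ => MeasurableSet.iInter fun _ =>
      measurableSet_ball.compl)
  · exact (disjoint_disjointed B hij).mono inter_subset_left inter_subset_left
  · rw [← iUnion_inter, iUnion_disjointed, inter_eq_right]
    intro p hp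
    obtain ⟨x, hx, hpx⟩ := mem_iUnion₂.1 (hc (h hp))
    rw [← hc'.2] at hx
    obtain ⟨i, rfl⟩ := hx
    exact mem_iUnion.2 ⟨i, hpx⟩
  · intro i p hp q hq
    have h1 : p ∈ B i := disjointed_subset B i hp.1
    have h2 : q ∈ B i := disjointed_subset B i hq.1
    have := dist_triangle_right p q (c i)
    simp only [B, mem_ball] at h1 h2
    linarith

lemma coh_hasF {S K : Set CohP} (hK : IsCompact K) (h : S ⊆ K) (hS : MeasurableSet S)
    {F : E3 × CohP → ℂ} (hF : ContDiff ℝ ∞ F) (y : E3) :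
    HasFDerivAt (fun y => ∫ p in S, F (y, p))
      (∫ p in S, (fderiv ℝ F (y, p)).comp (ContinuousLinearMap.inl ℝ E3 CohP)) y := by
  have hc : Continuous fun q => (fderiv ℝ F q).comp (ContinuousLinearMap.inl ℝ E3 CohP) :=
    (hF.continuous_fderiv (by simp)).clm_comp continuous_const
  obtain ⟨B, hB⟩ := ((isCompact_closedBall y 1).prod hK).exists_bound_of_continuousOn
    hc.continuousOn
  refine hasFDerivAt_integral_of_dominated_of_fderiv_le (s := closedBall y 1) (bound := fun _ => B)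
    (F' := fun y p => (fderiv ℝ F (y, p)).comp (ContinuousLinearMap.inl ℝ E3 CohP))
    (closedBall_mem_nhds y one_pos) (Eventually.of_forall fun x => ?_) ?_ ?_ ?_ ?_ ?_
  · exact (hF.continuous.comp (by fun_prop)).aestronglyMeasurable
  · exact coh_int hK h (hF.continuous.comp (by fun_prop))
  · exact (hc.comp (by fun_prop : Continuous fun p : CohP => (y, p))).aestronglyMeasurable
  · exact (ae_restrict_iff' hS).2 (Eventually.of_forall fun p hp x hx => hB (x, p) ⟨hx, h hp⟩)
  · exact coh_int hK h continuous_const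
  · refine Eventually.of_forall fun p x _ => ?_
    exact (hF.differentiable (by simp) (x, p)).hasFDerivAt.comp x (hasFDerivAt_prodMk_left x p)

lemma coh_fderiv {S K : Set CohP} (hK : IsCompact K) (h : S ⊆ K) (hS : MeasurableSet S)
    {F : E3 × CohP → ℂ} (hF : ContDiff ℝ ∞ F) (y v : E3) :
    fderiv ℝ (fun y => ∫ p in S, F (y, p)) y v = ∫ p in S, fderiv ℝ F (y, p) (v, 0) := by
  have hc : Continuous fun q => (fderiv ℝ F q).comp (ContinuousLinearMap.inl ℝ E3 CohP) :=
    (hF.continuous_fderiv (by simp)).clm_comp continuous_const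
  have hi : IntegrableOn
      (fun p => (fderiv ℝ F (y, p)).comp (ContinuousLinearMap.inl ℝ E3 CohP)) S :=
    coh_int hK h (hc.comp (by fun_prop : Continuous fun p : CohP => (y, p)))
  rw [(coh_hasF hK h hS hF y).fderiv, ContinuousLinearMap.integral_apply hi]
  rfl

lemma coh_smooth {S K : Set CohP} (hK : IsCompact K) (h : S ⊆ K) (hS : MeasurableSet S)
    {F : E3 × CohP → ℂ} (hF : ContDiff ℝ ∞ F) : ContDiff ℝ ∞ fun y => ∫ p in S, F (y, p) := by
  rw [contDiff_infty]
  intro n
  induction n generalizing F with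
  | zero =>
    exact contDiff_zero.2 (continuous_iff_continuousAt.2 fun y =>
      (coh_hasF hK h hS hF y).continuousAt)
  | succ n ih =>
    rw [Nat.cast_succ, contDiff_succ_iff_fderiv_apply]
    refine ⟨fun y => (coh_hasF hK h hS hF y).differentiableAt, by simp, fun v => ?_⟩
    simp only [coh_fderiv hK h hS hF]
    exact ih (F := fun q => fderiv ℝ F q (v, 0))
      ((hF.fderiv_right (m := ∞) (by simp)).clm_apply contDiff_const)

lemma coh_int2 {G : Type} [NormedAddCommGroup G] {S K : Set CohP} (hK : IsCompact K) (h : S ⊆ K)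
    (hS : MeasurableSet S) {H : E3 × CohP → G} (hH : Continuous H) {R : ℝ}
    (h0 : ∀ y, R < ‖y‖ → ∀ p ∈ S, H (y, p) = 0) :
    Integrable H (volume.prod (volume.restrict S)) := by
  rw [← Measure.restrict_univ (μ := (volume : Measure E3)), Measure.prod_restrict]
  have h1 : IntegrableOn H (closedBall 0 R ×ˢ K) (volume.prod volume) :=
    hH.continuousOn.integrableOn_compact ((isCompact_closedBall 0 R).prod hK)
  refine (h1.mono_set (prod_mono subset_rfl h)).of_forall_sdiff_eq_zero
    (MeasurableSet.univ.prod hS) fun q hq => h0 q.1 ?_ q.2 hq.1.2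
  by_contra hn
  exact hq.2 ⟨mem_closedBall_zero_iff.2 (not_lt.1 hn), hq.1.2⟩

/-- integration over a union of balls in the fibres -/
lemma coh_fib {r : E3 → ℝ} (hr : Measurable r) {K : Set CohP} (hK : IsCompact K)
    (h : {p : CohP | ‖p.2‖ < r p.1} ⊆ K) {H : CohP → ℝ} (hH : Continuous H) :
    ∫ p in {p : CohP | ‖p.2‖ < r p.1}, H p = ∫ u, ∫ ξ in ball 0 (r u), H (u, ξ) := by
  have hm : MeasurableSet {p : CohP | ‖p.2‖ < r p.1} :=
    measurableSet_lt measurable_snd.norm (hr.comp measurable_fst)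
  rw [← integral_indicator hm, Measure.volume_eq_prod, integral_prod _
    ((integrable_indicator_iff hm).2 (coh_int hK h hH))]
  refine integral_congr_ae (Eventually.of_forall fun u => ?_)
  simp only
  rw [← integral_indicator measurableSet_ball]
  refine integral_congr_ae (Eventually.of_forall fun ξ => ?_)
  simp only [indicator, mem_ofPred_eq, mem_ball_zero_iff]

lemma coh_vol {r : ℝ} (hr : 0 ≤ r) : volume.real (ball (0 : E3) r) = 4 * π / 3 * r ^ 3 := by
  rw [measureReal_def, EuclideanSpace.volume_ball_fin_three, ENNReal.toReal_mul,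
    ENNReal.toReal_pow, ENNReal.toReal_ofReal hr, ENNReal.toReal_ofReal (by positivity)]
  ring

lemma coh_mom {r : ℝ} (hr : 0 ≤ r) :
    ∫ ξ in ball (0 : E3) r, ‖ξ‖ ^ 2 = 4 * π / 5 * r ^ 5 := by
  have h1 := integral_fun_norm_addHaar (volume : Measure E3)
    (indicator (Iio r) fun t : ℝ => t ^ 2)
  have h2 : ∫ ξ in ball (0 : E3) r, ‖ξ‖ ^ 2 = ∫ ξ : E3, indicator (Iio r) (fun t : ℝ => t ^ 2) ‖ξ‖ := by
    rw [← integral_indicator measurableSet_ball]
    refine integral_congr_ae (Eventually.of_forall fun ξ => ?_)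
    simp only [indicator, mem_ball_zero_iff, mem_Iio]
  have h3 : ∫ t in Ioi (0 : ℝ), t ^ (3 - 1) • indicator (Iio r) (fun t : ℝ => t ^ 2) t =
      r ^ 5 / 5 := by
    have e : ∀ t : ℝ, t ^ (3 - 1) • indicator (Iio r) (fun t : ℝ => t ^ 2) t =
        indicator (Iio r) (fun t : ℝ => t ^ 4) t := fun t => by
      by_cases ht : t ∈ Iio r
      · simp only [indicator_of_mem ht, smul_eq_mul]; ring
      · simp only [indicator_of_notMem ht, smul_zero]
    simp only [e]
    rw [setIntegral_indicator measurableSet_Iio, Ioi_inter_Iio, ← integral_Ioc_eq_integral_Ioo,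
      ← intervalIntegral.integral_of_le hr, integral_pow]
    norm_num
  rw [h2, h1, finrank_E3, h3, coh_vol zero_le_one]
  simp only [nsmul_eq_mul, smul_eq_mul]
  push_cast
  ring

lemma coh_cT {r : ℝ} (hr : 0 ≤ r) :
    cT * (4 * π / 3 * r ^ 3) ^ (5 / 3 : ℝ) = 4 * π ^ 2 * (4 * π / 5 * r ^ 5) := by
  have hπ := Real.pi_pos
  have e1 : (4 * π / 3 * r ^ 3) ^ (5 / 3 : ℝ) =
      (4 * π / 3 * r ^ 3) * (4 * π / 3 * r ^ 3) ^ (2 / 3 : ℝ) := by
    rw [show (5 / 3 : ℝ) = 1 + 2 / 3 by norm_num, Real.rpow_add' (by positivity) (by norm_num),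
      Real.rpow_one]
  have e2 : (6 * π ^ 2) ^ (2 / 3 : ℝ) * (4 * π / 3 * r ^ 3) ^ (2 / 3 : ℝ) = (2 * π * r) ^ 2 := by
    rw [← Real.mul_rpow (by positivity) (by positivity),
      show 6 * π ^ 2 * (4 * π / 3 * r ^ 3) = (2 * π * r) ^ 3 by ring,
      ← Real.rpow_natCast, ← Real.rpow_mul (by positivity), ← Real.rpow_natCast]
    norm_num
  unfold cT
  rw [e1]
  linear_combination (3 / 5 * (4 * π / 3 * r ^ 3)) * e2

/-- Plancherel on a ball -/
lemma coh_planch {φ : E3 → ℂ} (h : Sm φ) (B : Set E3) :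
    ∫ ξ in B, ‖∫ y, Complex.exp (↑(-2 * π * inner ℝ y ξ) * Complex.I) • φ y‖ ^ 2 ≤
      ∫ y, ‖φ y‖ ^ 2 := by
  let f := h.cpt.toSchwartzMap h.smooth
  have h1 := SchwartzMap.integral_norm_sq_fourier f
  have h2 : ∀ ξ, ∫ y, Complex.exp (↑(-2 * π * inner ℝ y ξ) * Complex.I) • φ y =
      (FourierTransform.fourier f) ξ := fun ξ => by
    rw [SchwartzMap.fourier_coe, Real.fourier_eq']
    rfl
  simp only [h2]
  refine (setIntegral_le_integral ?_ (Eventually.of_forall fun _ => by positivity)).trans h1.le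
  exact (memLp_two_iff_integrable_sq_norm (FourierTransform.fourier f).continuous.aestronglyMeasurable).1
    ((FourierTransform.fourier f).memLp 2 volume)

end Pool.Agent.Lib.ION
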