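import Pool.Agent.Lib.ION.COH1

/-!
Coherent states: the kernel and its averages.
-/

open MeasureTheory Set Metric Real Filter Topology
open scoped ContDiff ComplexConjugate

noncomputable section

namespace Pool.Agent.Lib.ION

open Pool.Agent.Lib.MP_689e73_mp

/-- the coherent state with centre `q.2` evaluated at `q.1` -/
def cohK (g : E3 → ℝ) (q : E3 × CohP) : ℂ :=
  Complex.exp (↑(-2 * π * inner ℝ q.1 q.2.2) * Complex.I) * ↑(g (q.1 - q.2.1))

/-- its normalised average over a piece -/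
def cohF (g : E3 → ℝ) (S : Set CohP) (y : E3) : ℂ :=
  ↑(√(volume.real S))⁻¹ * ∫ p in S, cohK g (y, p)

/-- admissible windows -/
structure CohW (g : E3 → ℝ) (s : ℝ) : Prop where
  sm : ContDiff ℝ ∞ g
  supp : ∀ y, s ≤ ‖y‖ → g y = 0
  one : ∫ y, g y ^ 2 = 1

variable {g : E3 → ℝ} {s R : ℝ} {S : Set CohP}

lemma cohK_smooth (hg : ContDiff ℝ ∞ g) : ContDiff ℝ ∞ (cohK g) := by
  unfold cohK
  refine ContDiff.mul (Complex.contDiff_exp.comp (ContDiff.mul ?_ contDiff_const)) ?_
  · exact Complex.ofRealCLM.contDiff.comp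
      (contDiff_const.mul (contDiff_fst.inner ℝ (contDiff_snd.comp contDiff_snd)))
  · exact Complex.ofRealCLM.contDiff.comp (hg.comp (by fun_prop))

lemma cohK_norm (q : E3 × CohP) : ‖cohK g q‖ = |g (q.1 - q.2.1)| := by
  unfold cohK
  rw [norm_mul, Complex.norm_exp_ofReal_mul_I, one_mul, Complex.norm_real, Real.norm_eq_abs]

lemma cohK_sq (q : E3 × CohP) : ‖cohK g q‖ ^ 2 = g (q.1 - q.2.1) ^ 2 := by
  rw [cohK_norm, sq_abs]

lemma coh_far {y : E3} {p : CohP} (hy : R + s < ‖y‖) (hp : p ∈ closedBall (0 : CohP) R) :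
    s < ‖y - p.1‖ := by
  have h1 : ‖p.1‖ ≤ R := (norm_fst_le p).trans (mem_closedBall_zero_iff.1 hp)
  have := norm_sub_norm_le y p.1
  linarith

lemma cohK_zero (hg : CohW g s) {y : E3} {p : CohP} (hy : R + s < ‖y‖)
    (hp : p ∈ closedBall (0 : CohP) R) : cohK g (y, p) = 0 := by
  unfold cohK
  rw [hg.supp _ (coh_far hy hp).le]
  simp

lemma cohK_deriv (hg : ContDiff ℝ ∞ g) (y v : E3) (p : CohP) :
    ‖fderiv ℝ (cohK g) (y, p) (v, 0)‖ ^ 2 =
      fderiv ℝ g (y - p.1) v ^ 2 + 4 * π ^ 2 * inner ℝ v p.2 ^ 2 * g (y - p.1) ^ 2 := by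
  have l1 : HasDerivAt (fun t : ℝ => y + t • v) v 0 := by
    simpa using ((hasDerivAt_id (0 : ℝ)).smul_const v).const_add y
  have h1 : HasDerivAt (fun t : ℝ => cohK g (y + t • v, p))
      (fderiv ℝ (cohK g) (y, p) (v, 0)) 0 := by
    have := ((cohK_smooth hg).differentiable (by simp) (y + (0 : ℝ) • v, p)).hasFDerivAt.comp_hasDerivAt
      (0 : ℝ) (l1.prodMk (hasDerivAt_const (0 : ℝ) p))
    rw [zero_smul, add_zero] at this
    exact this
  have ha : HasDerivAt (fun t : ℝ => -2 * π * inner ℝ (y + t • v) p.2)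
      (-2 * π * inner ℝ v p.2) 0 := by
    simpa using (l1.inner ℝ (hasDerivAt_const (0 : ℝ) p.2)).const_mul (-2 * π)
  have hb : HasDerivAt (fun t : ℝ => g (y + t • v - p.1)) (fderiv ℝ g (y - p.1) v) 0 := by
    have := (hg.differentiable (by simp) (y + (0 : ℝ) • v - p.1)).hasFDerivAt.comp_hasDerivAt
      (0 : ℝ) (l1.sub_const p.1)
    rw [zero_smul, add_zero] at this
    exact this
  have h2 := (ha.ofReal_comp.mul_const Complex.I).cexp.mul hb.ofReal_comp
  have h3 := h1.unique h2
  simp only [zero_smul, add_zero] at h3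
  rw [h3, mul_assoc, ← mul_add, norm_mul, Complex.norm_exp_ofReal_mul_I, one_mul,
    Complex.sq_norm, Complex.normSq_apply]
  simp
  ring

lemma cohK_kin (hg : ContDiff ℝ ∞ g) (y : E3) (p : CohP) :
    ∑ a, ‖fderiv ℝ (cohK g) (y, p) (e1 a, 0)‖ ^ 2 =
      g1 g (y - p.1) + 4 * π ^ 2 * ‖p.2‖ ^ 2 * g (y - p.1) ^ 2 := by
  simp only [cohK_deriv hg, Finset.sum_add_distrib, g1, EuclideanSpace.real_norm_sq_eq, e1,
    EuclideanSpace.inner_single_left, Finset.mul_sum, Finset.sum_mul]
  simp

lemma coh_nsq (S : Set CohP) (z : ℂ) :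
    ‖(↑(√(volume.real S))⁻¹ : ℂ) * z‖ ^ 2 = (volume.real S)⁻¹ * ‖z‖ ^ 2 := by
  rw [norm_mul, mul_pow, Complex.norm_real, Real.norm_eq_abs, sq_abs, inv_pow,
    Real.sq_sqrt measureReal_nonneg]

lemma cohF_zero (hg : CohW g s) (h : S ⊆ closedBall 0 R) {y : E3}
    (hy : R + s < ‖y‖) : cohF g S y = 0 := by
  unfold cohF
  rw [setIntegral_eq_zero_of_forall_eq_zero fun p hp => cohK_zero hg hy (h hp), mul_zero]

lemma coh_cpt {G : Type} [Zero G] {φ : E3 → G} {L : ℝ} (h : ∀ y, L < ‖y‖ → φ y = 0) :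
    HasCompactSupport φ :=
  HasCompactSupport.intro (isCompact_closedBall 0 L) fun y hy =>
    h y (not_le.1 fun h' => hy (mem_closedBall_zero_iff.2 h'))

lemma cohF_sm (hg : CohW g s) (h : S ⊆ closedBall 0 R) (hS : MeasurableSet S) : Sm (cohF g S) :=
  ⟨contDiff_const.mul (coh_smooth (isCompact_closedBall 0 R) h hS (cohK_smooth hg.sm)),
    coh_cpt fun _ hy => cohF_zero hg h hy⟩

lemma CohW.g1_zero (hg : CohW g s) {y : E3} (hy : s < ‖y‖) : g1 g y = 0 := by
  have : g =ᶠ[𝓝 y] fun _ => 0 := by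
    filter_upwards [(isOpen_lt continuous_const continuous_norm).mem_nhds hy] with z hz
    exact hg.supp z (le_of_lt hz)
  simp [g1, this.fderiv_eq]

lemma CohW.int_g1 (hg : CohW g s) : Integrable (g1 g) :=
  (continuous_g1 hg.sm).integrable_of_hasCompactSupport (coh_cpt fun _ hy => hg.g1_zero hy)

lemma CohW.int_sq (hg : CohW g s) : Integrable fun y => g y ^ 2 :=
  (hg.sm.continuous.pow 2).integrable_of_hasCompactSupport
    (coh_cpt (L := s) fun y hy => by simp [hg.supp y hy.le])

/-- kinetic energy of an average -/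
lemma cohF_kin (hg : CohW g s) (h : S ⊆ closedBall 0 R) (hS : MeasurableSet S) :
    ∫ y, k1 (cohF g S) y ≤ ∫ p in S, ((∫ y, g1 g y) + 4 * π ^ 2 * ‖p.2‖ ^ 2) := by
  have hK := isCompact_closedBall (0 : CohP) R
  have hk := cohK_smooth hg.sm
  let D : E3 × CohP → ℝ := fun q =>
    g1 g (q.1 - q.2.1) + 4 * π ^ 2 * ‖q.2.2‖ ^ 2 * g (q.1 - q.2.1) ^ 2
  have c1 := continuous_g1 hg.sm
  have c2 := hg.sm.continuous
  have hD : Continuous D := by fun_prop
  have hI : Integrable D (volume.prod (volume.restrict S)) :=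
    coh_int2 hK h hS hD (R := R + s) fun y hy p hp => by
      have := coh_far hy (h hp)
      simp only [D]
      rw [hg.g1_zero this, hg.supp _ this.le]
      simp
  have hc : ∀ y a, Continuous fun p : CohP => fderiv ℝ (cohK g) (y, p) (e1 a, 0) := fun y a =>
    ((hk.continuous_fderiv (by simp)).comp (by fun_prop)).clm_apply continuous_const
  have h1 : ∀ y, k1 (cohF g S) y ≤ ∫ p in S, D (y, p) := fun y => by
    have e : ∫ p in S, D (y, p) = ∑ a, ∫ p in S, ‖fderiv ℝ (cohK g) (y, p) (e1 a, 0)‖ ^ 2 := by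
      rw [← integral_finsetSum _ fun a _ => coh_int hK h ((hc y a).norm.fun_pow 2)]
      simp only [cohK_kin hg.sm, D]
    rw [e]
    refine Finset.sum_le_sum fun a _ => ?_
    unfold cohF
    rw [fderiv_const_mul (coh_hasF hK h hS hk y).differentiableAt, smul_apply,
      smul_eq_mul, coh_nsq, coh_fderiv hK h hS hk]
    exact coh_A hK h (hc y a)
  refine (integral_mono_of_nonneg (Eventually.of_forall fun y => ?_) hI.integral_prod_left
    (Eventually.of_forall h1)).trans (le_of_eq ?_)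
  · unfold k1; positivity
  rw [integral_integral_swap (f := fun y p => D (y, p)) hI]
  refine integral_congr_ae (Eventually.of_forall fun p => ?_)
  simp only [D]
  rw [integral_add (hg.int_g1.comp_sub_right p.1) ((hg.int_sq.comp_sub_right p.1).const_mul _),
    integral_const_mul, integral_sub_right_eq_self (g1 g),
    integral_sub_right_eq_self (fun y => g y ^ 2), hg.one, mul_one]

/-- the analysis operator has norm at most one -/
lemma coh_T (hg : CohW g s) {r : E3 → ℝ} (hr : Measurable r)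
    (h : {p : CohP | ‖p.2‖ < r p.1} ⊆ closedBall 0 R) {F : E3 → ℂ} (hF : Sm F) :
    Continuous (fun p => ∫ y, cohK g (y, p) * F y) ∧
      ∫ p in {p : CohP | ‖p.2‖ < r p.1}, ‖∫ y, cohK g (y, p) * F y‖ ^ 2 ≤ ∫ y, ‖F y‖ ^ 2 := by
  have c1 := (cohK_smooth hg.sm).continuous
  have c2 := hF.cont
  have c3 := hg.sm.continuous
  have hT : Continuous fun p => ∫ y, cohK g (y, p) * F y := by
    have := continuous_parametric_integral_of_continuous (μ := volume)
      (f := fun (p : CohP) (y : E3) => cohK g (y, p) * F y) (by fun_prop) hF.cpt.isCompact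
    refine this.congr fun p => setIntegral_eq_integral_of_forall_compl_eq_zero fun y hy => ?_
    rw [image_eq_zero_of_notMem_tsupport hy, mul_zero]
  refine ⟨hT, ?_⟩
  rw [coh_fib hr (isCompact_closedBall 0 R) h (hT.norm.fun_pow 2)]
  obtain ⟨L, hL⟩ := hF.cpt.isCompact.isBounded.subset_closedBall 0
  let H : E3 × E3 → ℝ := fun q => g (q.2 - q.1) ^ 2 * ‖F q.2‖ ^ 2
  have hH : Integrable H (volume.prod volume) := by
    refine Continuous.integrable_of_hasCompactSupport (by fun_prop)
      (HasCompactSupport.intro ((isCompact_closedBall 0 (L + s)).prod (isCompact_closedBall 0 L))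
        fun q hq => ?_)
    by_cases h2 : q.2 ∈ closedBall (0 : E3) L
    · have h3 : L + s < ‖q.1‖ := not_le.1 fun h' => hq ⟨mem_closedBall_zero_iff.2 h', h2⟩
      have h4 := mem_closedBall_zero_iff.1 h2
      have h5 := norm_sub_norm_le q.1 q.2
      rw [norm_sub_rev] at h5
      simp only [H]
      rw [hg.supp _ (by linarith)]
      simp
    · simp only [H]
      rw [image_eq_zero_of_notMem_tsupport fun h' => h2 (hL h')]
      simp
  refine (integral_mono_of_nonneg (Eventually.of_forall fun u => ?_) hH.integral_prod_left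
    (Eventually.of_forall fun u => ?_)).trans (le_of_eq ?_)
  · exact integral_nonneg fun _ => by positivity
  · have hs : Sm fun y => (g (y - u) : ℂ) * F y :=
      ⟨(Complex.ofRealCLM.contDiff.comp (hg.sm.comp (by fun_prop))).mul hF.smooth, hF.cpt.mul_left⟩
    have := coh_planch hs (ball 0 (r u))
    simp only [smul_eq_mul, ← mul_assoc, norm_mul, mul_pow, Complex.norm_real, Real.norm_eq_abs,
      sq_abs] at this
    exact this
  · rw [integral_integral_swap (f := fun u y => H (u, y)) hH]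
    refine integral_congr_ae (Eventually.of_forall fun y => ?_)
    simp only [H]
    rw [integral_mul_const, integral_sub_left_eq_self (fun y => g y ^ 2), hg.one, one_mul]

/-- the frame bound -/
lemma coh_frame (hg : CohW g s) {r : E3 → ℝ} (hr : Measurable r)
    (h : {p : CohP | ‖p.2‖ < r p.1} ⊆ closedBall 0 R) {m : ℕ} {S : Fin m → Set CohP}
    (hS : ∀ i, MeasurableSet (S i)) (hd : Pairwise (Function.onFun Disjoint S))
    (hu : ⋃ i, S i = {p : CohP | ‖p.2‖ < r p.1}) (c : Fin m → ℂ) :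
    ∫ y, ‖∑ i, c i * cohF g (S i) y‖ ^ 2 ≤ ∑ i, ‖c i‖ ^ 2 := by
  have hK := isCompact_closedBall (0 : CohP) R
  have hs : ∀ i, S i ⊆ closedBall 0 R := fun i => (subset_iUnion S i).trans (hu ▸ h)
  have hf := fun i => cohF_sm hg (hs i) (hS i)
  set F : E3 → ℂ := fun y => ∑ i, c i * cohF g (S i) y with hFd
  have hF : Sm fun y => conj (F y) :=
    ⟨Complex.conjCLE.contDiff.comp
      (ContDiff.sum fun i _ => contDiff_const.mul (hf i).smooth),
      coh_cpt (L := R + s) fun y hy => by
        simp [hFd, fun i => cohF_zero hg (hs i) hy]⟩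
  obtain ⟨hT, hT'⟩ := coh_T hg hr h hF
  set T : CohP → ℂ := fun p => ∫ y, cohK g (y, p) * conj (F y) with hTd
  simp only [Complex.norm_conj] at hT'
  set N := ∫ y, ‖F y‖ ^ 2 with hN
  have c1 := (cohK_smooth hg.sm).continuous
  have c2 := hF.cont
  have h1 : ∀ i, ∫ y, cohF g (S i) y * conj (F y) =
      ↑(√(volume.real (S i)))⁻¹ * ∫ p in S i, T p := fun i => by
    have hI : Integrable (fun q : E3 × CohP => cohK g q * conj (F q.1))
        (volume.prod (volume.restrict (S i))) :=
      coh_int2 hK (hs i) (hS i) (c1.mul (c2.comp continuous_fst)) (R := R + s) fun y hy p hp => by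
        rw [cohK_zero hg hy (hs i hp), zero_mul]
    rw [← integral_integral_swap (f := fun y p => cohK g (y, p) * conj (F y)) hI,
      ← integral_const_mul]
    refine integral_congr_ae (Eventually.of_forall fun y => ?_)
    simp only [cohF]
    rw [integral_mul_const, mul_assoc]
  have h2 : (N : ℂ) = ∑ i, c i * (↑(√(volume.real (S i)))⁻¹ * ∫ p in S i, T p) := by
    simp only [← h1, ← integral_const_mul]
    rw [← integral_finsetSum _ fun i _ => Integrable.const_mul
      (((hf i).cont.fun_mul c2).integrable_of_hasCompactSupport (hf i).cpt.mul_right) _,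
      hN, ← integral_complex_ofReal]
    refine integral_congr_ae (Eventually.of_forall fun y => ?_)
    simp only [← mul_assoc, ← Finset.sum_mul]
    rw [Complex.mul_conj', Complex.ofReal_pow]
  have h3 : N ≤ ∑ i, (‖c i‖ ^ 2 + ∫ p in S i, ‖T p‖ ^ 2) / 2 := by
    refine (le_abs_self N).trans ?_
    rw [← Real.norm_eq_abs, ← Complex.norm_real, h2]
    refine (norm_sum_le _ _).trans (Finset.sum_le_sum fun i _ => ?_)
    have e1 := coh_A hK (hs i) hT
    rw [← coh_nsq] at e1
    rw [norm_mul]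
    nlinarith [sq_nonneg (‖c i‖ - ‖(↑(√(volume.real (S i)))⁻¹ : ℂ) * ∫ p in S i, T p‖)]
  rw [← Finset.sum_div, Finset.sum_add_distrib,
    ← integral_iUnion_fintype hS hd (fun i => coh_int hK (hs i) (hT.norm.fun_pow 2)), hu] at h3
  linarith

end Pool.Agent.Lib.ION
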