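import Pool.Agent.Lib.ION.Blue2

open MeasureTheory Set Metric Real Filter Topology

noncomputable section

namespace Pool.Agent.Lib.ION

theorem corek_scale {D C₁ y : ℝ} (hD : 0 < D) (hC : 0 < C₁) (hy : 0 ≤ y) :
    ∃ r > 0, r ≤ D ∧ y + C₁ ≤ r⁻¹ ^ 7 ∧
      r⁻¹ ^ 3 ≤ (D⁻¹ ^ 3 + C₁ ^ (3 / 7 : ℝ) + 1) * (1 + y ^ (3 / 7 : ℝ)) := by
  have hx : 0 ≤ y + C₁ := by linarith
  have hs : 0 < max D⁻¹ ((y + C₁) ^ (1 / 7 : ℝ)) := lt_max_of_lt_left (inv_pos.2 hD)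
  refine ⟨_, inv_pos.2 hs, inv_le_of_inv_le₀ hD (le_max_left _ _), ?_, ?_⟩
  · rw [inv_inv]
    refine le_trans (le_of_eq ?_) (pow_le_pow_left₀ (rpow_nonneg hx _) (le_max_right _ _) 7)
    rw [← rpow_natCast, ← rpow_mul hx]
    norm_num
  · rw [inv_inv]
    have a1 : ((y + C₁) ^ (1 / 7 : ℝ)) ^ 3 ≤ y ^ (3 / 7 : ℝ) + C₁ ^ (3 / 7 : ℝ) := by
      refine le_trans (le_of_eq ?_) (rpow_add_le_add_rpow hy hC.le (by norm_num) (by norm_num))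
      rw [← rpow_natCast, ← rpow_mul hx]
      norm_num
    have a2 : 0 ≤ y ^ (3 / 7 : ℝ) := rpow_nonneg hy _
    have a3 : 0 ≤ C₁ ^ (3 / 7 : ℝ) := rpow_nonneg hC.le _
    have a4 : 0 ≤ D⁻¹ ^ 3 := by positivity
    have a5 := mul_nonneg (add_nonneg a4 a3) a2
    rcases le_total D⁻¹ ((y + C₁) ^ (1 / 7 : ℝ)) with h | h
    · rw [max_eq_right h]; nlinarith
    · rw [max_eq_left h]; nlinarith

theorem st_coreK : St_coreK := by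
  rintro ⟨K, hK, K₂, hK₂, D, hD, Θ, hΘ, Z₀, h⟩ hstep hf1 hf2 hsup
  obtain ⟨K₁, hK₁, D', hD', h1⟩ := hstep K hK K₂ hK₂
  obtain ⟨C₁, hC₁, C₂, hC₂, h2⟩ := hf1 K hK K₂ hK₂ (D / 8) (by positivity)
  obtain ⟨C, hC, h3⟩ := hf2 K hK K₁ hK₁
  obtain ⟨D₀, hD₀⟩ : ∃ D₀, D₀ = min (D / 8) (min D' 1) := ⟨_, rfl⟩
  have d0 : 0 < D₀ := by rw [hD₀]; positivity
  obtain ⟨B, hB⟩ : ∃ B, B = D₀⁻¹ ^ 3 + C₁ ^ (3 / 7 : ℝ) + 1 := ⟨_, rfl⟩
  have b0 : 0 < B := by rw [hB]; positivity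
  refine ⟨C₂ + (C + 4 * Θ) * B, by positivity, max Z₀ (Θ / D ^ 3),
    fun N Z lam μ u G hZ hW ha hu hl h5 => ?_⟩
  have z1 : Θ ≤ Z * D ^ 3 := (div_le_iff₀ (by positivity)).1 ((le_max_right _ _).trans hZ)
  have z0 : 0 ≤ Z := le_trans (by positivity) ((le_max_right _ _).trans hZ)
  obtain ⟨hE, h4⟩ := h Z ((le_max_left _ _).trans hZ)
  obtain ⟨E, e1, e2⟩ := hsup Z hE
  have y0 : 0 ≤ max (lam - μ) 0 := le_max_right _ _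
  have y1 : 0 ≤ max (lam - μ) 0 ^ (3 / 7 : ℝ) := rpow_nonneg y0 _
  have y2 := mul_nonneg hC₂.le y1
  obtain ⟨r, r0, r1, r2, r3⟩ := corek_scale d0 hC₁ y0
  rw [← hB] at r3
  have r4 : 0 < r⁻¹ ^ 3 := by positivity
  have r5 := mul_le_mul_of_nonneg_left r3 (show 0 ≤ C + 4 * Θ by positivity)
  have r6 := mul_pos hC r4
  have r7 := mul_pos hΘ r4
  rcases le_total (N : ℝ) (Z + C₂) with hN | hN
  · nlinarith
  obtain ⟨f1, f2⟩ := h4 E e1 D hD le_rfl z1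
  have m1 := h2 Z E μ N z0 e1 e2 f2 (by rwa [mul_div_cancel₀ D (by norm_num)]) hN hl
  rw [hD₀] at r1
  simp only [le_min_iff] at r1
  rcases le_total Θ (Z * r ^ 3) with hr | hr
  · obtain ⟨g1, g2⟩ := h4 E e1 r r0 (by linarith) hr
    have g3 := (h4 E e1 (8 * r) (by positivity) (by linarith)
      (hr.trans (mul_le_mul_of_nonneg_left (pow_le_pow_left₀ r0.le (by linarith) 3) z0))).1
    have g4 := h3 N Z E lam r u G z0 r0 r1.2.2 hW ha hu (h1 Z E r z0 r0 r1.2.1 e1 g1 g2) g3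
      (by linarith [le_max_left (lam - μ) 0])
    nlinarith
  · have g1 : Z ≤ Θ * r⁻¹ ^ 3 := by
      rw [inv_pow, ← div_eq_mul_inv, le_div_iff₀ (by positivity)]
      exact hr
    nlinarith

end Pool.Agent.Lib.ION
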