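import Pool.Agent.Lib.ION.Basic

/-!
# The ionization bound for ground states: cost of the correction, potentials
-/

open MeasureTheory Set Metric Real Filter Topology
open scoped ContDiff ComplexConjugate

set_option linter.unusedSectionVars false

noncomputable section

namespace Pool.Agent.Lib.ION

open Pool.Agent.Lib.MP_689e73_mp

lemma cost_rad_gam {s : ℝ} (hs : 0 < s) : Rad (gam s) s := by
  have hc : Continuous gp0 := by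
    unfold gp0
    exact (smoothTransition.continuous.comp (by fun_prop)).div_const _
  refine ⟨⟨?_, (s ^ 3)⁻¹ * (1 / √(∫ y : E3, smoothTransition (1 - ‖y‖ ^ 2) ^ 2)) ^ 2,
    fun t => ?_⟩, fun t ht => ?_⟩
  · exact (continuous_const.mul ((hc.comp (continuous_id.div_const s)).pow 2)).measurable
  · unfold gam gp0
    rw [abs_of_nonneg (by positivity)]
    refine mul_le_mul_of_nonneg_left (pow_le_pow_left₀ ?_ ?_ 2) (by positivity)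
    · exact div_nonneg (smoothTransition.nonneg _) (Real.sqrt_nonneg _)
    · exact div_le_div_of_nonneg_right (smoothTransition.le_one _) (Real.sqrt_nonneg _)
  · unfold gam gp0
    have h1 : 1 < t / s := (one_lt_div hs).2 ht
    rw [smoothTransition.zero_of_nonpos (by nlinarith)]
    simp

lemma cost_ker_low {x y : E3} {a k r : ℝ} (hk : 0 < k) (hx : ‖x‖ ≤ a) (hy : a + k ≤ ‖y‖)
    (hr : a + k ≤ 2 * r) : k ≤ ‖x - y‖ ∧ k / (2 * r) * ‖y‖ ≤ ‖x - y‖ := by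
  have h1 : ‖y‖ - ‖x‖ ≤ ‖x - y‖ := by rw [norm_sub_rev]; exact norm_sub_norm_le y x
  have a0 : 0 ≤ a := (norm_nonneg x).trans hx
  have r0 : 0 < r := by linarith
  refine ⟨by linarith, ?_⟩
  rw [div_mul_eq_mul_div, div_le_iff₀ (by positivity)]
  nlinarith [mul_nonneg (sub_nonneg.2 hy) (by linarith : 0 ≤ 2 * r - k),
    mul_nonneg hk.le (sub_nonneg.2 hr)]

lemma cost_ker_le {x y : E3} {a k r : ℝ} (hk : 0 < k) (hx : ‖x‖ ≤ a) (hy : a + k ≤ ‖y‖)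
    (hr : a + k ≤ 2 * r) : ‖x - y‖⁻¹ ≤ 2 * r / k * ‖y‖⁻¹ := by
  have a0 : 0 ≤ a := (norm_nonneg x).trans hx
  have r0 : 0 < r := by linarith
  have y0 : 0 < ‖y‖ := by linarith
  have h := inv_anti₀ (by positivity) (cost_ker_low hk hx hy hr).2
  rwa [mul_inv, inv_div] at h

lemma cost_ker_lip {x x' y : E3} {a k r : ℝ} (hk : 0 < k) (hx : ‖x‖ ≤ a) (hx' : ‖x'‖ ≤ a)
    (hy : a + k ≤ ‖y‖) (hr : a + k ≤ 2 * r) :
    |‖x - y‖⁻¹ - ‖x' - y‖⁻¹| ≤ ‖x - x'‖ * (2 * r / k ^ 2) * ‖y‖⁻¹ := by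
  have h1 := (cost_ker_low hk hx hy hr).1
  have h2 := (cost_ker_low hk hx' hy hr).1
  have h3 := cost_ker_le hk hx' hy hr
  have h4 : ‖x - y‖⁻¹ ≤ k⁻¹ := inv_anti₀ hk h1
  have p1 : 0 < ‖x - y‖ := by linarith
  have p2 : 0 < ‖x' - y‖ := by linarith
  have h5 : |‖x' - y‖ - ‖x - y‖| ≤ ‖x - x'‖ := by
    have := abs_norm_sub_norm_le (x' - y) (x - y)
    rwa [sub_sub_sub_cancel_right, norm_sub_rev x' x] at this
  have e : ‖x - y‖⁻¹ - ‖x' - y‖⁻¹ = (‖x' - y‖ - ‖x - y‖) * (‖x - y‖⁻¹ * ‖x' - y‖⁻¹) := by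
    field_simp
  rw [e, abs_mul, abs_of_nonneg (by positivity : 0 ≤ ‖x - y‖⁻¹ * ‖x' - y‖⁻¹)]
  calc |‖x' - y‖ - ‖x - y‖| * (‖x - y‖⁻¹ * ‖x' - y‖⁻¹)
      ≤ ‖x - x'‖ * (k⁻¹ * (2 * r / k * ‖y‖⁻¹)) :=
        mul_le_mul h5 (mul_le_mul h4 h3 (by positivity) (by positivity)) (by positivity)
          (norm_nonneg _)
    _ = _ := by field_simp

lemma cost_psi_le {ρ : E3 → ℝ} (hρ : LL ρ) (h0 : ∀ y, 0 ≤ ρ y) {x : E3} {a k r : ℝ} (hk : 0 < k)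
    (hx : ‖x‖ ≤ a) (hs : ∀ y, ‖y‖ < a + k → ρ y = 0) (hr : a + k ≤ 2 * r) :
    psi ρ x ≤ 2 * r / k * psi ρ 0 := by
  refine (hρ.Hpsi x).le ((hρ.Hpsi 0).const_mul _) (Eventually.of_forall fun y => ?_)
  rcases lt_or_ge ‖y‖ (a + k) with h | h
  · simp [hs y h]
  · rw [← mul_assoc, zero_sub, norm_neg]
    exact mul_le_mul_of_nonneg_right (cost_ker_le hk hx h hr) (h0 y)

lemma cost_psi_lip {ρ : E3 → ℝ} (hρ : LL ρ) (h0 : ∀ y, 0 ≤ ρ y) {x x' : E3} {a k r : ℝ}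
    (hk : 0 < k) (hx : ‖x‖ ≤ a) (hx' : ‖x'‖ ≤ a) (hs : ∀ y, ‖y‖ < a + k → ρ y = 0)
    (hr : a + k ≤ 2 * r) : |psi ρ x - psi ρ x'| ≤ ‖x - x'‖ * (2 * r / k ^ 2) * psi ρ 0 := by
  have key : ∀ y, |‖x - y‖⁻¹ * ρ y - ‖x' - y‖⁻¹ * ρ y| ≤
      ‖x - x'‖ * (2 * r / k ^ 2) * (‖0 - y‖⁻¹ * ρ y) := fun y => by
    rcases lt_or_ge ‖y‖ (a + k) with h | h
    · simp [hs y h]
    · rw [← sub_mul, abs_mul, abs_of_nonneg (h0 y), ← mul_assoc, zero_sub, norm_neg]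
      exact mul_le_mul_of_nonneg_right (cost_ker_lip hk hx hx' h hr) (h0 y)
  have h1 := ((hρ.Hpsi x).sub (hρ.Hpsi x')).le ((hρ.Hpsi 0).const_mul _)
    (Eventually.of_forall fun y => (le_abs_self _).trans (key y))
  have h2 := ((hρ.Hpsi x').sub (hρ.Hpsi x)).le ((hρ.Hpsi 0).const_mul _)
    (Eventually.of_forall fun y => (le_abs_self _).trans (by rw [abs_sub_comm]; exact key y))
  exact abs_le.2 ⟨by linarith, h1⟩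

section Many

variable {ι : Type} [Fintype ι] [DecidableEq ι]

lemma cost_Uw_lip {ϑ : E3 → ℝ} (h0 : ∀ y, 0 ≤ ϑ y) (X : Cfg ι) {x x' : E3} {a k r : ℝ}
    (hk : 0 < k) (hx : ‖x‖ ≤ a) (hx' : ‖x'‖ ≤ a) (hs : ∀ y, ‖y‖ < a + k → ϑ y = 0)
    (hr : a + k ≤ 2 * r) :
    |Uw ϑ X x - Uw ϑ X x'| ≤ ‖x - x'‖ * (2 * r / k ^ 2) * Sw ϑ X := by
  unfold Uw Sw
  rw [← Finset.sum_sub_distrib, Finset.mul_sum]
  refine (Finset.abs_sum_le_sum_abs _ _).trans (Finset.sum_le_sum fun j _ => ?_)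
  rcases lt_or_ge ‖X j‖ (a + k) with h | h
  · simp [hs _ h]
  · rw [← mul_sub, abs_mul, abs_of_nonneg (h0 _), mul_left_comm]
    exact mul_le_mul_of_nonneg_left (cost_ker_lip hk hx hx' h hr) (h0 _)

lemma cost_Uw_zero (ϑ : E3 → ℝ) (X : Cfg ι) : Uw ϑ X 0 = Sw ϑ X := by simp [Uw, Sw]

lemma cost_Sw_nonneg {ϑ : E3 → ℝ} (h0 : ∀ y, 0 ≤ ϑ y) (X : Cfg ι) : 0 ≤ Sw ϑ X :=
  Finset.sum_nonneg fun j _ => mul_nonneg (h0 _) (by positivity)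

lemma cost_harm_Uw (h1 : St_harm) {ϑ : E3 → ℝ} (X : Cfg ι) {R : ℝ}
    (hs : ∀ y, ‖y‖ < R → ϑ y = 0) : Harm (Uw ϑ X) (ball 0 R) := by
  refine Harm.sum Finset.univ (f := fun j y => ϑ (X j) * ‖y - X j‖⁻¹) fun j _ => ?_
  rcases lt_or_ge ‖X j‖ R with h | h
  · simpa [hs _ h] using Harm.const 0 (ball (0 : E3) R)
  · refine ((h1.1 (X j)).mono fun y hy => ?_).const_mul _
    rw [mem_ball_zero_iff] at hy
    intro hy'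
    rw [mem_singleton_iff.1 hy'] at hy
    linarith

lemma cost_hb {β : E3 → ℝ} (h0 : ∀ y, 0 ≤ β y) (X : Cfg ι) {r : ℝ} (hr : 0 < r)
    (hs : ∀ y, ‖y‖ < 8 * r → β y = 0) {x : E3} (hx : ‖x‖ ≤ 4 * r) :
    |Uw β X x - Sw β X| ≤ Sw β X := by
  unfold Uw Sw
  rw [← Finset.sum_sub_distrib]
  refine (Finset.abs_sum_le_sum_abs _ _).trans (Finset.sum_le_sum fun j _ => ?_)
  rcases lt_or_ge ‖X j‖ (8 * r) with h | h
  · simp [hs _ h]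
  · rw [← mul_sub, abs_mul, abs_of_nonneg (h0 _)]
    refine mul_le_mul_of_nonneg_left ?_ (h0 _)
    have h1 := cost_ker_le (r := 4 * r) (by positivity : 0 < 4 * r) hx
      (by linarith : 4 * r + 4 * r ≤ ‖X j‖) (by linarith)
    rw [mul_div_assoc, div_self (by positivity), mul_one] at h1
    have h2 : 0 ≤ ‖x - X j‖⁻¹ := by positivity
    exact abs_le.2 ⟨by linarith, by linarith⟩

lemma cost_Dv (h3 : St_cs) {ϑ ℓ ρ : E3 → ℝ} (X : Cfg ι) (hρ : LL ρ) (hℓ : ∀ y, 0 < ℓ y) :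
    0 ≤ Dv ϑ ℓ X ρ := by
  have hm : LL (ION.mu ϑ ℓ X) :=
    LL_sum Finset.univ (f := fun j y => ϑ (X j) * gam (ℓ (X j)) ‖y - X j‖) fun j _ =>
      ((cost_rad_gam (hℓ _)).ll (X j)).const_mul _
  exact mul_nonneg (by norm_num) (h3 _ _ (hm.sub hρ) (hm.sub hρ)).1

lemma cost_St (h2 : St_shell) {ϑ ρ : E3 → ℝ} (X : Cfg ι) (hρ : LL ρ) (h0 : ∀ y, 0 ≤ ρ y)
    (hϑ : ∀ y, 0 ≤ ϑ y) {r e : ℝ} (hr : 0 < r) (hs : ∀ y, ‖y‖ < r → ρ y = 0)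
    (hs' : ∀ y, ‖y‖ < r → ϑ y = 0)
    (h : ∫ y, ρ y * Ub r ‖y‖ ≤ ∑ j, ϑ (X j) * Ub r ‖X j‖ + e) : psi ρ 0 ≤ Sw ϑ X + e := by
  obtain ⟨g1, -, -, g2, g3⟩ := h2.1 r hr
  have i1 : Integrable fun y => ρ y * Ub r ‖y‖ := by
    have := (g1.ll 0).int_mul_psi hρ.int
    simp only [g2] at this
    simpa only [sub_zero] using this
  have k1 : psi ρ 0 ≤ ∫ y, ρ y * Ub r ‖y‖ := by
    refine (hρ.Hpsi 0).le (HI.of i1) (Eventually.of_forall fun y => ?_)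
    rcases lt_or_ge ‖y‖ r with h | h
    · simp [hs y h]
    · have := (g3 _ (norm_nonneg y)).1
      rw [max_eq_left h] at this
      rw [zero_sub, norm_neg, mul_comm]
      exact mul_le_mul_of_nonneg_left this (h0 y)
  have k2 : ∑ j, ϑ (X j) * Ub r ‖X j‖ ≤ Sw ϑ X := Finset.sum_le_sum fun j _ => by
    rcases lt_or_ge ‖X j‖ r with h | h
    · simp [hs' _ h]
    · have := (g3 _ (norm_nonneg (X j))).2.1
      rw [max_eq_left (by linarith)] at this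
      exact mul_le_mul_of_nonneg_left this (hϑ _)
  linarith

end Many

lemma cost_dens {ν : E3 → ℝ} {A R : ℝ} (hm : Measurable ν) (hb : ∀ y, 0 ≤ ν y ∧ ν y ≤ A)
    (hs : ∀ y, R < ‖y‖ → ν y = 0) : Dens ν :=
  ⟨⟨hm, A, fun y => by rw [abs_of_nonneg (hb y).1]; exact (hb y).2⟩, fun y => (hb y).1, R, hs⟩

lemma cost_23 {a A r : ℝ} (hr : 0 < r) (h0 : 0 ≤ a) (h1 : r ^ 2 * a ≤ A) :
    a ^ (2 / 3 : ℝ) ≤ A + r⁻¹ ^ 4 := by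
  have := rpow23_le h0 (by positivity : 0 < r ^ 2)
  rw [show ((r ^ 2) ^ 2)⁻¹ = r⁻¹ ^ 4 by field_simp] at this
  linarith

lemma cost_53 {a A r : ℝ} (hr : 0 < r) (h0 : 0 ≤ a) (h1 : r ^ 2 * a ≤ A) :
    a ^ (5 / 3 : ℝ) ≤ (A + r⁻¹ ^ 4) * a := by
  rw [show (5 / 3 : ℝ) = 2 / 3 + 1 by norm_num, Real.rpow_add' h0 (by norm_num), Real.rpow_one]
  exact mul_le_mul_of_nonneg_right (cost_23 hr h0 h1) h0

lemma cost_DD_le {ν σ : E3 → ℝ} (hν : LL ν) (hσ : LL σ) (h0 : ∀ y, 0 ≤ ν y) {F M : ℝ}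
    (hF : 0 ≤ F) (h : ∀ y, ν y ≠ 0 → psi σ y ≤ F) (hM : N1 ν ≤ M) : DD ν σ ≤ F * M := by
  refine le_trans ((hν.HD hσ).le ((hν.HN' h0).const_mul F) (Eventually.of_forall fun y => ?_))
    (mul_le_mul_of_nonneg_left hM hF)
  by_cases hy : ν y = 0
  · simp [hy]
  · rw [mul_comm]; exact mul_le_mul_of_nonneg_right (h y hy) (h0 y)

/-- the energy of the corrected density -/
lemma cost_energy {ρ ν₁ ν₂ : E3 → ℝ} (hρ : Dens ρ) (h₁ : Dens ν₁) (h₂ : Dens ν₂)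
    {q r A₀ A₁ A₂ M₁ M₂ P₁ P₂ F₁ F₂ : ℝ} (hr : 0 < r) (A0 : 0 ≤ A₀) (A1 : 0 ≤ A₁) (A2 : 0 ≤ A₂)
    (F1 : 0 ≤ F₁) (F2 : 0 ≤ F₂)
    (s₁ : ∀ y, ν₁ y ≠ 0 → ρ y = 0 ∧ ν₂ y = 0 ∧ r ^ 2 * ν₁ y ≤ A₁ ∧ psi ρ y ≤ F₁)
    (s₂ : ∀ y, ν₂ y ≠ 0 → r ^ 2 * ρ y ≤ A₀ ∧ r ^ 2 * ν₂ y ≤ A₂ ∧ psi ρ y ≤ F₂)
    (m₁ : N1 ν₁ ≤ M₁) (m₂ : N1 ν₂ ≤ M₂) (p₁ : ∀ x, psi ν₁ x ≤ P₁) (p₂ : ∀ x, psi ν₂ x ≤ P₂) :
    EQ q (fun y => ρ y + (ν₁ y + ν₂ y)) ≤ EQ q ρ +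
      (cT * ((A₁ + r⁻¹ ^ 4) * M₁ + 5 / 3 * (A₀ + 2 * r⁻¹ ^ 4 + A₂) * M₂) +
      max (-q) 0 * (P₁ + P₂) + F₁ * M₁ + F₂ * M₂ + 1 / 2 * ((P₁ + P₂) * (M₁ + M₂))) ∧
    N1 (fun y => ρ y + (ν₁ y + ν₂ y)) ≤ N1 ρ + M₁ + M₂ := by
  have h12 := h₁.add h₂
  have ht := hρ.add h12
  have n12 : N1 (fun y => ν₁ y + ν₂ y) = N1 ν₁ + N1 ν₂ :=
    (h12.ll.HN' h12.nn).unique ((h₁.ll.HN' h₁.nn).add (h₂.ll.HN' h₂.nn))
  have nt : N1 (fun y => ρ y + (ν₁ y + ν₂ y)) = N1 ρ + N1 fun y => ν₁ y + ν₂ y :=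
    (ht.ll.HN' ht.nn).unique ((hρ.ll.HN' hρ.nn).add (h12.ll.HN' h12.nn))
  refine ⟨?_, by linarith⟩
  have k1 : KK (fun y => ρ y + (ν₁ y + ν₂ y)) ≤ KK ρ + ((A₁ + r⁻¹ ^ 4) * N1 ν₁ +
      5 / 3 * (A₀ + 2 * r⁻¹ ^ 4 + A₂) * N1 ν₂) := by
    refine (ht.ll.HK' ht.nn).le ((hρ.ll.HK' hρ.nn).add (((h₁.ll.HN' h₁.nn).const_mul _).add
      ((h₂.ll.HN' h₂.nn).const_mul _))) (Eventually.of_forall fun y => ?_)
    by_cases y1 : ν₁ y = 0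
    · by_cases y2 : ν₂ y = 0
      · simp [y1, y2]
      · obtain ⟨a1, a2, -⟩ := s₂ y y2
        have t1 := (abs_le.1 (taylor53 (hρ.nn y) (add_nonneg (hρ.nn y) (h₂.nn y)))).2
        rw [add_sub_cancel_left, abs_of_nonneg (h₂.nn y)] at t1
        have t2 := cost_53 hr (h₂.nn y) a2
        have t3 := mul_le_mul_of_nonneg_right (cost_23 hr (hρ.nn y) a1) (h₂.nn y)
        simp only [y1, zero_add, mul_zero]
        linarith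
    · obtain ⟨a1, a2, a3, -⟩ := s₁ y y1
      simp only [a1, a2, zero_add, add_zero, mul_zero]
      rw [Real.zero_rpow (by norm_num), zero_add]
      exact cost_53 hr (h₁.nn y) a3
  have k2 : (A₁ + r⁻¹ ^ 4) * N1 ν₁ ≤ (A₁ + r⁻¹ ^ 4) * M₁ :=
    mul_le_mul_of_nonneg_left m₁ (by positivity)
  have k3 : 5 / 3 * (A₀ + 2 * r⁻¹ ^ 4 + A₂) * N1 ν₂ ≤ 5 / 3 * (A₀ + 2 * r⁻¹ ^ 4 + A₂) * M₂ :=
    mul_le_mul_of_nonneg_left m₂ (by positivity)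
  have k4 := mul_le_mul_of_nonneg_left (k1.trans (add_le_add le_rfl (add_le_add k2 k3))) cT_pos.le
  have q1 : psi (fun y => ρ y + (ν₁ y + ν₂ y)) 0 = psi ρ 0 + (psi ν₁ 0 + psi ν₂ 0) := by
    rw [hρ.ll.psi_add h12.ll, h₁.ll.psi_add h₂.ll]
  have q2 : -q * (psi ν₁ 0 + psi ν₂ 0) ≤ max (-q) 0 * (P₁ + P₂) :=
    mul_le_mul (le_max_left _ _) (add_le_add (p₁ 0) (p₂ 0))
      (add_nonneg (psi_nonneg h₁.nn 0) (psi_nonneg h₂.nn 0)) (le_max_right _ _)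
  have d1 := DD_expand hρ.ll h12.ll 1
  simp only [one_mul, mul_one, one_pow] at d1
  rw [DD_add_left h₁.ll h₂.ll hρ.ll] at d1
  have d2 := cost_DD_le h₁.ll hρ.ll h₁.nn F1 (fun y hy => (s₁ y hy).2.2.2) m₁
  have d3 := cost_DD_le h₂.ll hρ.ll h₂.nn F2 (fun y hy => (s₂ y hy).2.2) m₂
  have d4 := cost_DD_le (F := P₁ + P₂) (M := M₁ + M₂) h12.ll h12.ll h12.nn
    (add_nonneg ((psi_nonneg h₁.nn 0).trans (p₁ 0)) ((psi_nonneg h₂.nn 0).trans (p₂ 0)))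
    (fun y _ => by rw [h₁.ll.psi_add h₂.ll]; exact add_le_add (p₁ y) (p₂ y)) (by linarith)
  unfold EQ
  rw [q1, d1]
  linarith

end Pool.Agent.Lib.ION
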