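import Pool.Agent.Lib.ION.COST1
import Pool.Agent.Lib.ION.COST2

/-!
# The ionization bound for ground states: cost of the correction
-/

open MeasureTheory Set Metric Real Filter Topology
open scoped ContDiff ComplexConjugate

noncomputable section

namespace Pool.Agent.Lib.ION

open Pool.Agent.Lib.MP_689e73_mp

lemma cost_K {K c a j m₁ m₂ sb q p f₁ f₂ g n G N : ℝ} (hK : 1 ≤ K) (hc : c ≤ K) (a0 : 0 ≤ a)
    (j0 : 0 ≤ j) (m1 : 0 ≤ m₁) (m2 : 0 ≤ m₂) (s0 : 0 ≤ sb) (q0 : 0 ≤ q) (p0 : 0 ≤ p)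
    (f1 : 0 ≤ f₁) (f2 : 0 ≤ f₂) (g0 : 0 ≤ g) (n0 : 0 ≤ n) (N0 : 0 ≤ N) (hG : G ≤ K * g)
    (hN : N ≤ K * n + K * m₁ + K * m₂) :
    c * ((K * a + j) * (K * m₁) + 5 / 3 * (K * j + 2 * j + K * sb) * (K * m₂)) +
      q * (K * p + K * sb) + K * f₁ * (K * m₁) + K * f₂ * (K * m₂) +
      1 / 2 * ((K * p + K * sb) * (K * m₁ + K * m₂)) + G * N ≤
    K ^ 3 * ((a + j) * m₁ + 5 / 3 * (3 * j + sb) * m₂ + q * (p + sb) + f₁ * m₁ + f₂ * m₂ +
      1 / 2 * ((m₁ + m₂) * (p + sb)) + g * (n + m₁ + m₂)) := by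
  have K0 : 0 ≤ K := by linarith
  have hj : j ≤ K * j := le_mul_of_one_le_left j0 hK
  have k1 : K ≤ K ^ 3 := by simpa using pow_le_pow_right₀ hK (by norm_num : 1 ≤ 3)
  have k2 : K ^ 2 ≤ K ^ 3 := pow_le_pow_right₀ hK (by norm_num)
  have t1 : c * ((K * a + j) * (K * m₁) + 5 / 3 * (K * j + 2 * j + K * sb) * (K * m₂)) ≤
      K * ((K * a + K * j) * (K * m₁) + 5 / 3 * (K * j + 2 * (K * j) + K * sb) * (K * m₂)) := by
    gcongr
  have t2 := mul_le_mul_of_nonneg_right k1 (by positivity : 0 ≤ q * (p + sb))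
  have t3 := mul_le_mul_of_nonneg_right k2 (by positivity : 0 ≤ f₁ * m₁ + f₂ * m₂ +
    1 / 2 * ((m₁ + m₂) * (p + sb)) + g * (n + m₁ + m₂))
  have t4 : G * N ≤ K * g * (K * n + K * m₁ + K * m₂) := mul_le_mul hG hN N0 (by positivity)
  linarith

lemma cost_shell (h2 : St_shell) {ν : E3 → ℝ} {A R h M r : ℝ} (hm : Measurable ν) (hr : 0 < r)
    (hh : 0 < h) (hR : r ≤ R - h) (hb : ∀ y, 0 ≤ ν y ∧ ν y ≤ A)
    (hs : ∀ y, ‖y‖ < R - h ∨ R + h < ‖y‖ → ν y = 0) (hM : A * (32 * (R + h) ^ 2 * h) ≤ M) :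
    N1 ν ≤ M ∧ ∀ x, psi ν x ≤ M / r := by
  obtain ⟨a1, -, a2⟩ := h2.2 ν A (R - h) (R + h) hm (by linarith) (by linarith) hb hs
  have A0 : 0 ≤ A := (hb 0).1.trans (hb 0).2
  have k : A * (4 * π * (R + h) ^ 2 * (R + h - (R - h))) ≤ M := by
    refine le_trans (mul_le_mul_of_nonneg_left ?_ A0) hM
    have := mul_le_mul_of_nonneg_right Real.pi_le_four (by positivity : 0 ≤ (R + h) ^ 2 * h)
    linarith
  have M0 : 0 ≤ M := le_trans (by positivity) hM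
  exact ⟨a1.trans k, fun x => (a2 x).trans (div_le_div₀ M0 k hr hR)⟩

theorem st_cost (h1 : St_harm) (h2 : St_shell) (h3 : St_cs) (h4 : St_sweep) (h5 : St_trans)
    (h6 : St_tfb) : St_cost := by
  intro C₀ hC₀
  obtain ⟨Cs, hCs, hsw⟩ := h4
  obtain ⟨Cr, hCr, htr⟩ := h5
  obtain ⟨Ct, hCt, htf⟩ := h6
  obtain ⟨K, K40, KCs, KCr, KCt, KC0, KcT⟩ : ∃ K : ℝ, 40 ≤ K ∧ 3000 * Cs ≤ K ∧ Cr ≤ K ∧ Ct ≤ K ∧
      400 * C₀ ≤ K ∧ cT ≤ K :=
    ⟨40 + 3000 * Cs + Cr + Ct + 400 * C₀ + cT, by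
      have := cT_pos
      refine ⟨?_, ?_, ?_, ?_, ?_, ?_⟩ <;> linarith⟩
  have K1 : 1 ≤ K := by linarith
  have K0 : 0 < K := by linarith
  have A1 : 1 ≤ 10 * K ^ 3 := by have := one_le_pow₀ (n := 3) K1; linarith
  refine ⟨10 ^ 6 * (10 * K ^ 3) + (10 * K ^ 3 * K) ^ 2, by positivity,
    (10 ^ 6 * (10 * K ^ 3) * K ^ 2)⁻¹, by positivity, ?_⟩
  intro l r t h q L b₀ w D m p c ρ ϑ ℓ β ι _ _ X hL hl hh hp hnet hLr hρ hW hD hβ0 hβ hw hM
  obtain ⟨l0, r0, rl, t0, t1⟩ := hL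
  have h0 : 0 < h := by rw [hh]; positivity
  have t2 : t + 20 * h ≤ 2 * r := by rw [hh]; linarith
  have l1 : l ≤ 1 := by nlinarith
  have rl2 : r ≤ l ^ 2 := rl.trans (pow_le_pow_of_le_one l0.le l1 (by norm_num))
  have ρd := hρ.dens
  have ρ0 : ∀ y, ‖y‖ < t + 8 * h → ρ y = 0 := fun y hy => by
    rw [hρ.eq, if_neg fun h => absurd h.1 (not_le.2 hy)]
  obtain ⟨f1, f2, f3⟩ := htf _ ρ q (t + 6 * h) (t + 8 * h) L r (ext_Vq q c (by linarith) hp)
    (by linarith) (by linarith) (by linarith) hLr hρ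
  have D0 : 0 ≤ D := (cost_Dv h3 X ρd.ll hW.lp).trans hD
  have hSt := cost_St h2 X ρd.ll ρd.nn hW.nn r0 (fun y hy => ρ0 y (by linarith))
    (fun y hy => hW.inn y (by linarith))
    (htr ρ ϑ ℓ _ b₀ _ D r ι X ρd.ll ρd.nn hW le_rfl hD r0).2.2.1
  have hSt' : psi ρ 0 ≤ Sw ϑ X + K * √(D / r) :=
    hSt.trans (add_le_add le_rfl (mul_le_mul_of_nonneg_right KCr (Real.sqrt_nonneg _)))
  have S0 := cost_Sw_nonneg hW.nn X
  have Sb0 := cost_Sw_nonneg hβ0 X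
  have St0 := psi_nonneg ρd.nn 0
  have c0 : 0 ≤ ∑ α, c α ^ 2 := Finset.sum_nonneg fun _ _ => sq_nonneg _
  obtain ⟨sg, hsg⟩ : ∃ sg, sg = w + l ^ 6 / r * √(∑ α, c α ^ 2) +
    200 * l ^ 3 * (Sw ϑ X + psi ρ 0) := ⟨_, rfl⟩
  have sg0 : 0 ≤ sg := by rw [hsg]; positivity
  have hdl : Harm (fun x => Uw ϑ X x - Sw ϑ X - (psi ρ x - psi ρ 0)) (ball 0 (t + 6 * h)) :=
    ((cost_harm_Uw h1 X fun y hy => hW.inn y (by linarith)).sub (Harm.const _ _)).sub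
      ((h1.2.1 ρ _ ρd.ll fun y hy => ρ0 y (by
        rw [mem_ball_zero_iff] at hy; linarith)).sub (Harm.const _ _))
  have bdl : ∀ x ∈ ball (0 : E3) (t + 6 * h),
      |Uw ϑ X x - Sw ϑ X - (psi ρ x - psi ρ 0)| ≤ sg := fun x hx => by
    have hx' := (mem_ball_zero_iff.1 hx).le
    obtain ⟨α, hα⟩ := hnet x hx'
    have g1 := cost_Uw_lip (k := 2 * h) (r := r) hW.nn X (by positivity) hx' (hp α)
      (fun y hy => hW.inn y (by linarith)) (by linarith)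
    have g2 := cost_psi_lip (k := 2 * h) (r := r) ρd.ll ρd.nn (by positivity) hx' (hp α)
      (fun y hy => ρ0 y (by linarith)) (by linarith)
    have g3 : ‖x - p α‖ * (2 * r / (2 * h) ^ 2) ≤ 200 * l ^ 3 :=
      (mul_le_mul_of_nonneg_right hα (by positivity)).trans
        (le_of_eq (by rw [hh]; field_simp; norm_num))
    have g4 : |c α| ≤ √(∑ α, c α ^ 2) := Real.abs_le_sqrt
      (Finset.single_le_sum (f := fun α => c α ^ 2) (fun _ _ => sq_nonneg _) (Finset.mem_univ α))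
    have g5 := mul_le_mul_of_nonneg_left g4 (by positivity : 0 ≤ l ^ 6 / r)
    have g6 := mul_le_mul_of_nonneg_right g3 S0
    have g7 := mul_le_mul_of_nonneg_right g3 St0
    have g8 := abs_le.1 (hM α)
    have g9 := abs_le.1 g1
    have g10 := abs_le.1 g2
    rw [hsg]
    exact abs_le.2 ⟨by linarith, by linarith⟩
  obtain ⟨ν₁, c₁, n1, n2, n3, n4⟩ := hsw (t + 6 * h) h sg _ h0 (by linarith) hdl bdl
  obtain ⟨ν₂, c₂, o1, o2, o3, o4⟩ := hsw (4 * r) r (Sw β X) (fun x => Uw β X x - Sw β X) r0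
    (by linarith) ((cost_harm_Uw h1 X fun y hy => hβ y (by linarith)).sub (Harm.const _ _))
    fun x hx => cost_hb hβ0 X r0 hβ (mem_ball_zero_iff.1 hx).le
  have d1 : Dens ν₁ := cost_dens n1 n2 fun y hy => n3 y (Or.inr hy)
  have d2 : Dens ν₂ := cost_dens o1 o2 fun y hy => o3 y (Or.inr hy)
  obtain ⟨m1, p1⟩ := cost_shell h2 (M := K * (sg * r / l)) n1 r0 h0 (by linarith) n2 n3 (by
    calc Cs * sg / h ^ 2 * (32 * (t + 6 * h + h) ^ 2 * h)
        ≤ Cs * sg / h ^ 2 * (32 * (2 * r) ^ 2 * h) := by gcongr <;> linarith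
      _ = 2560 * Cs * (sg * r / l) := by rw [hh]; field_simp; ring
      _ ≤ _ := mul_le_mul_of_nonneg_right (by linarith) (by positivity))
  obtain ⟨m2, p2⟩ := cost_shell h2 (M := K * (Sw β X * r)) o1 r0 r0 (by linarith) o2 o3 (by
    calc Cs * Sw β X / r ^ 2 * (32 * (4 * r + r) ^ 2 * r)
        = 800 * Cs * (Sw β X * r) := by field_simp; ring
      _ ≤ _ := mul_le_mul_of_nonneg_right (by linarith) (by positivity))
  rw [show K * (sg * r / l) / r = K * (sg / l) by field_simp] at p1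
  rw [show K * (Sw β X * r) / r = K * Sw β X by field_simp] at p2
  obtain ⟨e1, e2⟩ := cost_energy (q := q) (A₀ := K * r⁻¹ ^ 4) (A₁ := K * (sg / l ^ 2))
    (A₂ := K * Sw β X) (F₁ := K * (psi ρ 0 / l)) (F₂ := K * (psi ρ 0 + r⁻¹ ^ 4)) ρd d1 d2 r0
    (by positivity) (by positivity) (by positivity) (by positivity) (by positivity)
    (fun y hy => by
      have y1 : ‖y‖ ≤ t + 6 * h + h := not_lt.1 fun h => hy (n3 y (Or.inr h))
      refine ⟨ρ0 y (by linarith), o3 y (Or.inl (by linarith)), ?_, ?_⟩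
      · calc r ^ 2 * ν₁ y ≤ r ^ 2 * (Cs * sg / h ^ 2) :=
            mul_le_mul_of_nonneg_left (n2 y).2 (by positivity)
          _ = 400 * Cs * (sg / l ^ 2) := by rw [hh]; field_simp; norm_num
          _ ≤ _ := mul_le_mul_of_nonneg_right (by linarith) (by positivity)
      · calc psi ρ y ≤ 2 * r / h * psi ρ 0 := cost_psi_le ρd.ll ρd.nn h0 y1
              (fun y hy => ρ0 y (by linarith)) (by linarith)
          _ = 40 * (psi ρ 0 / l) := by rw [hh]; field_simp; ring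
          _ ≤ _ := mul_le_mul_of_nonneg_right K40 (by positivity))
    (fun y hy => by
      have y1 : ‖y‖ ≤ 4 * r + r := not_lt.1 fun h => hy (o3 y (Or.inr h))
      have y2 : 4 * r - r ≤ ‖y‖ := not_lt.1 fun h => hy (o3 y (Or.inl h))
      refine ⟨?_, ?_, (f3 y (by linarith) (by linarith)).trans
        (mul_le_mul_of_nonneg_right KCt (by positivity))⟩
      · calc r ^ 2 * ρ y ≤ r ^ 2 * (Ct / ‖y‖ ^ 6) :=
            mul_le_mul_of_nonneg_left (f1 y (by linarith)) (by positivity)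
          _ ≤ r ^ 2 * (K / r ^ 6) := by gcongr; linarith
          _ = _ := by field_simp
      · calc r ^ 2 * ν₂ y ≤ r ^ 2 * (Cs * Sw β X / r ^ 2) :=
            mul_le_mul_of_nonneg_left (o2 y).2 (by positivity)
          _ = Cs * Sw β X := by field_simp
          _ ≤ _ := mul_le_mul_of_nonneg_right (by linarith) Sb0)
    m1 m2 p1 p2
  refine ⟨fun y => ρ y + (ν₁ y + ν₂ y), ρd.add (d1.add d2), fun y hy => ?_, fun x hx => ?_, ?_⟩
  · simp only [ρ0 y (by linarith), n3 y (Or.inl (by linarith)), o3 y (Or.inl (by linarith)),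
      add_zero]
  · have z : ‖(0 : E3)‖ = 0 := norm_zero
    rw [ρd.ll.psi_add (d1.add d2).ll, ρd.ll.psi_add (d1.add d2).ll, d1.ll.psi_add d2.ll,
      d1.ll.psi_add d2.ll, n4 x (by linarith), n4 0 (by linarith), o4 x (by linarith),
      o4 0 (by linarith)]
    simp only [cost_Uw_zero]
    ring
  · obtain ⟨Q, hQ⟩ : ∃ Q, Q = √(r * (r * Sw ϑ X ^ 2 + max (-q) 0 ^ 2 / r + r⁻¹ ^ 7)) := ⟨_, rfl⟩
    have eQ : r * (r * Sw ϑ X ^ 2 + max (-q) 0 ^ 2 / r + r⁻¹ ^ 7) =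
        (r * Sw ϑ X) ^ 2 + max (-q) 0 ^ 2 + (r⁻¹ ^ 3) ^ 2 := by field_simp
    have v1 := sq_nonneg (r * Sw ϑ X)
    have v2 := sq_nonneg (max (-q) 0)
    have v3 := sq_nonneg (r⁻¹ ^ 3)
    have Q1 : r * Sw ϑ X ≤ Q := by
      rw [hQ, eQ]; exact Real.le_sqrt_of_sq_le (by linarith)
    have Q2 : max (-q) 0 ≤ Q := by
      rw [hQ, eQ]; exact Real.le_sqrt_of_sq_le (by linarith)
    have Q3 : r⁻¹ ^ 3 ≤ Q := by
      rw [hQ, eQ]; exact Real.le_sqrt_of_sq_le (by linarith)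
    have z1 := cost_mono l0 l1 r0 rl2 sg0 St0 Sb0 (le_max_right (-q) 0) Q3 Q2
    have z2 := cost_abs (q := max (-q) 0) l0 r0 A1 K1 hl D0 S0 St0 Sb0 hSt' hsg Q1
    rw [Real.sq_sqrt c0] at z2
    have z3 := cost_K (a := sg / l ^ 2) (j := r⁻¹ ^ 4) (m₁ := sg * r / l) (m₂ := Sw β X * r)
      (p := sg / l) (f₁ := psi ρ 0 / l) (f₂ := psi ρ 0 + r⁻¹ ^ 4) (g := (l ^ 2 * r ^ 2)⁻¹)
      (n := r * psi ρ 0 + r⁻¹ ^ 3) (G := C₀ / h ^ 2) K1 KcT (by positivity) (by positivity)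
      (by positivity) (by positivity) Sb0 (le_max_right (-q) 0) (by positivity) (by positivity)
      (by positivity) (by positivity) (by positivity) (N1_nonneg _)
      (by
        rw [show C₀ / h ^ 2 = 400 * C₀ * (l ^ 2 * r ^ 2)⁻¹ by rw [hh]; field_simp; norm_num]
        exact mul_le_mul_of_nonneg_right KC0 (by positivity))
      (e2.trans (add_le_add (add_le_add (f2.trans
        (mul_le_mul_of_nonneg_right KCt (by positivity))) le_rfl) le_rfl))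
    have z4 := mul_le_mul_of_nonneg_left z1 (by positivity : 0 ≤ K ^ 3)
    rw [← hQ]
    have z5 := (z3.trans z4).trans ((le_of_eq (by ring)).trans z2)
    linarith

end Pool.Agent.Lib.ION
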