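import Pool.Agent.Lib.ION.Basic

/-!
# The ionization bound for ground states: cost of the correction, real inequalities
-/

open MeasureTheory Set Metric Real Filter Topology
open scoped ContDiff ComplexConjugate

noncomputable section

namespace Pool.Agent.Lib.ION

open Pool.Agent.Lib.MP_689e73_mp

lemma cost_amgm {x y z : ℝ} (hx : 0 ≤ x) (hy : 0 ≤ y) (h : z ^ 2 ≤ x * y) : z ≤ x + y := by
  by_contra h1
  have h2 : x + y < z := not_le.1 h1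
  nlinarith [mul_nonneg hx hy, sq_nonneg (x - y)]

/-- the monomials of the energy estimate -/
lemma cost_mono {l r sg St Sb q Q : ℝ} (l0 : 0 < l) (l1 : l ≤ 1) (r0 : 0 < r) (rl : r ≤ l ^ 2)
    (_hsg : 0 ≤ sg) (hSt : 0 ≤ St) (hSb : 0 ≤ Sb) (hq : 0 ≤ q) (hQ1 : r⁻¹ ^ 3 ≤ Q) (hQ2 : q ≤ Q) :
    (sg / l ^ 2 + r⁻¹ ^ 4) * (sg * r / l) + 5 / 3 * (3 * r⁻¹ ^ 4 + Sb) * (Sb * r) +
      q * (sg / l + Sb) + St / l * (sg * r / l) + (St + r⁻¹ ^ 4) * (Sb * r) +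
      1 / 2 * ((sg * r / l + Sb * r) * (sg / l + Sb)) +
      (l ^ 2 * r ^ 2)⁻¹ * (r * St + r⁻¹ ^ 3 + sg * r / l + Sb * r) ≤
    10 * (sg ^ 2 * r / l ^ 5 + l * r⁻¹ ^ 7 + l * (q ^ 2 / r) + l * r * St ^ 2 + r * Sb ^ 2 +
      Sb * Q + r * Sb * St) := by
  obtain ⟨i, hi⟩ : ∃ i, i = l⁻¹ := ⟨_, rfl⟩
  obtain ⟨j, hj⟩ : ∃ j, j = r⁻¹ := ⟨_, rfl⟩
  have i1 : 1 ≤ i := hi ▸ (one_le_inv₀ l0).2 l1
  have ij : i ^ 2 ≤ j := by
    rw [hi, hj, inv_pow]; exact inv_anti₀ r0 rl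
  have j1 : 1 ≤ j := le_trans (one_le_pow₀ i1) ij
  have ij1 : i ≤ j := le_trans (by nlinarith) ij
  have j0 : 0 ≤ j := by linarith
  have i0 : 0 ≤ i := by linarith
  have e1 : sg ^ 2 * r / l ^ 5 = sg ^ 2 * r * i ^ 5 := by rw [hi]; field_simp
  set u1 := sg ^ 2 * r / l ^ 5 with hu1
  set u2 := l * r⁻¹ ^ 7 with hu2
  set u3 := l * (q ^ 2 / r) with hu3
  set u4 := l * r * St ^ 2 with hu4
  have p1 : 0 ≤ u1 := by positivity
  have p2 : 0 ≤ u2 := by positivity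
  have p3 : 0 ≤ u3 := by positivity
  have p4 : 0 ≤ u4 := by positivity
  have e12 : u1 * u2 = sg ^ 2 * (i ^ 4 * j ^ 6) := by rw [hu1, hu2, hi, hj]; field_simp
  have e13 : u1 * u3 = (q * sg) ^ 2 * i ^ 4 := by rw [hu1, hu3, hi]; field_simp
  have e14 : u1 * u4 = (St * sg * r * i ^ 2) ^ 2 := by rw [hu1, hu4, hi]; field_simp
  have e42 : u4 * u2 = St ^ 2 * (l ^ 2 * j ^ 6) := by rw [hu4, hu2, hj]; field_simp
  have hli : l * i = 1 := by rw [hi]; field_simp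
  have pw : ∀ {a b : ℕ}, a ≤ b → i ^ a ≤ i ^ b := fun h => pow_le_pow_right₀ i1 h
  have m1 : sg ^ 2 * r * i ^ 3 ≤ u1 := by
    rw [e1]; exact mul_le_mul_of_nonneg_left (pw (by norm_num)) (by positivity)
  have m9 : sg ^ 2 * r * i ^ 2 ≤ u1 := by
    rw [e1]; exact mul_le_mul_of_nonneg_left (pw (by norm_num)) (by positivity)
  have m2 : sg * j ^ 3 * i ≤ u1 + u2 := cost_amgm p1 p2 (by
    rw [e12, show (sg * j ^ 3 * i) ^ 2 = sg ^ 2 * (i ^ 2 * j ^ 6) by ring]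
    exact mul_le_mul_of_nonneg_left (mul_le_mul_of_nonneg_right (pw (by norm_num))
      (by positivity)) (by positivity))
  have m3 : Sb * j ^ 3 ≤ Sb * Q := mul_le_mul_of_nonneg_left (hj ▸ hQ1) hSb
  have m5 : q * sg * i ≤ u1 + u3 := cost_amgm p1 p3 (by
    rw [e13, mul_pow]
    exact mul_le_mul_of_nonneg_left (pw (by norm_num)) (by positivity))
  have m6 : Sb * q ≤ Sb * Q := mul_le_mul_of_nonneg_left hQ2 hSb
  have m7 : St * sg * r * i ^ 2 ≤ u1 + u4 := cost_amgm p1 p4 e14.ge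
  have ij4 : i ^ 8 ≤ j ^ 4 := by
    rw [show i ^ 8 = (i ^ 2) ^ 4 by ring]; exact pow_le_pow_left₀ (by positivity) ij 4
  have ij2 : i ^ 4 ≤ j ^ 2 := by
    rw [show i ^ 4 = (i ^ 2) ^ 2 by ring]; exact pow_le_pow_left₀ (by positivity) ij 2
  have m10 : St * i ^ 2 * j ≤ u4 + u2 := cost_amgm p4 p2 (by
    rw [e42, show (St * i ^ 2 * j) ^ 2 = St ^ 2 * (i ^ 4 * j ^ 2) by ring]
    refine mul_le_mul_of_nonneg_left ?_ (by positivity)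
    have h1 : i ^ 6 ≤ j ^ 4 := (pw (by norm_num)).trans ij4
    calc i ^ 4 * j ^ 2 = (l * i) ^ 2 * (i ^ 4 * j ^ 2) := by rw [hli]; ring
      _ = l ^ 2 * j ^ 2 * i ^ 6 := by ring
      _ ≤ l ^ 2 * j ^ 2 * j ^ 4 := mul_le_mul_of_nonneg_left h1 (by positivity)
      _ = _ := by ring)
  have m11 : j ^ 5 * i ^ 2 ≤ u2 := by
    have h1 : i ^ 3 ≤ j ^ 2 := (pw (by norm_num)).trans ij2
    calc j ^ 5 * i ^ 2 = (l * i) * (j ^ 5 * i ^ 2) := by rw [hli]; ring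
      _ = l * j ^ 5 * i ^ 3 := by ring
      _ ≤ l * j ^ 5 * j ^ 2 := mul_le_mul_of_nonneg_left h1 (by positivity)
      _ = _ := by rw [hu2, ← hj]; ring
  have m12 : sg * i ^ 3 * j ≤ u1 + u2 := cost_amgm p1 p2 (by
    rw [e12, show (sg * i ^ 3 * j) ^ 2 = sg ^ 2 * (i ^ 4 * j ^ 2 * i ^ 2) by ring,
      show i ^ 4 * j ^ 6 = i ^ 4 * j ^ 2 * j ^ 4 by ring]
    exact mul_le_mul_of_nonneg_left (mul_le_mul_of_nonneg_left ((pw (by norm_num)).trans ij4)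
      (by positivity)) (by positivity))
  have m13 : Sb * i ^ 2 * j ≤ Sb * Q := by
    refine le_trans ?_ m3
    rw [mul_assoc, show j ^ 3 = j ^ 2 * j by ring]
    exact mul_le_mul_of_nonneg_left (mul_le_mul_of_nonneg_right ((pw (by norm_num)).trans ij2)
      j0) hSb
  have m14 : sg * i * Sb * r ≤ sg ^ 2 * r * i ^ 2 + r * Sb ^ 2 :=
    cost_amgm (by positivity) (by positivity) (le_of_eq (by ring))
  have E : (sg / l ^ 2 + r⁻¹ ^ 4) * (sg * r / l) + 5 / 3 * (3 * r⁻¹ ^ 4 + Sb) * (Sb * r) +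
      q * (sg / l + Sb) + St / l * (sg * r / l) + (St + r⁻¹ ^ 4) * (Sb * r) +
      1 / 2 * ((sg * r / l + Sb * r) * (sg / l + Sb)) +
      (l ^ 2 * r ^ 2)⁻¹ * (r * St + r⁻¹ ^ 3 + sg * r / l + Sb * r) =
      sg ^ 2 * r * i ^ 3 + sg * j ^ 3 * i + 6 * (Sb * j ^ 3) + 13 / 6 * (r * Sb ^ 2) +
      q * sg * i + Sb * q + St * sg * r * i ^ 2 + r * Sb * St + 1 / 2 * (sg ^ 2 * r * i ^ 2) +
      sg * i * Sb * r + St * i ^ 2 * j + j ^ 5 * i ^ 2 + sg * i ^ 3 * j + Sb * i ^ 2 * j := by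
    rw [hi, hj]; field_simp; ring
  rw [E]
  have p5 : 0 ≤ r * Sb ^ 2 := by positivity
  have p6 : 0 ≤ Sb * Q := le_trans (by positivity) m6
  have p7 : 0 ≤ r * Sb * St := by positivity
  linarith

/-- absorption of the error terms -/
lemma cost_abs {l r w D cn S St Sb q Q A K sg : ℝ} (l0 : 0 < l) (r0 : 0 < r) (hA : 1 ≤ A)
    (hK : 1 ≤ K) (hl : l ≤ (10 ^ 6 * A * K ^ 2)⁻¹) (hD : 0 ≤ D) (hS : 0 ≤ S) (hSt : 0 ≤ St)
    (hSb : 0 ≤ Sb) (hSS : St ≤ S + K * √(D / r))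
    (hsg : sg = w + l ^ 6 / r * cn + 200 * l ^ 3 * (S + St)) (hQ : r * S ≤ Q) :
    A * (sg ^ 2 * r / l ^ 5 + l * r⁻¹ ^ 7 + l * (q ^ 2 / r) + l * r * St ^ 2 + r * Sb ^ 2 +
      Sb * Q + r * Sb * St) ≤ 3 / 4 * D + l ^ 6 / r / 2 * cn ^ 2 +
      (10 ^ 6 * A + (A * K) ^ 2) * r * w ^ 2 / l ^ 5 +
      (10 ^ 6 * A + (A * K) ^ 2) * l * (r * S ^ 2 + q ^ 2 / r + r⁻¹ ^ 7) +
      (10 ^ 6 * A + (A * K) ^ 2) * (r * Sb ^ 2 + Sb * Q) := by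
  obtain ⟨e, he⟩ : ∃ e, e = √(D / r) := ⟨_, rfl⟩
  have e0 : 0 ≤ e := he ▸ Real.sqrt_nonneg _
  have e2 : r * e ^ 2 = D := by
    rw [he, Real.sq_sqrt (by positivity)]; field_simp
  rw [← he] at hSS
  have A0 : 0 < A := by linarith
  have K0 : 0 < K := by linarith
  have hl1 : 10 ^ 6 * (A * K ^ 2 * l) ≤ 1 := by
    have h1 : (0 : ℝ) < 10 ^ 6 * A * K ^ 2 := by positivity
    have h2 := mul_le_mul_of_nonneg_left hl h1.le
    rw [mul_inv_cancel₀ h1.ne'] at h2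
    linarith
  have hl2 : A * l ≤ A * K ^ 2 * l := by
    have : 1 ≤ K ^ 2 := one_le_pow₀ hK
    nlinarith [mul_pos A0 l0]
  have Q0 : 0 ≤ Q := le_trans (by positivity) hQ
  have s1 : sg ^ 2 ≤ 3 * w ^ 2 + 3 * (l ^ 6 / r * cn) ^ 2 +
      240000 * l ^ 6 * (S ^ 2 + St ^ 2) := by
    have h1 : (S + St) ^ 2 ≤ 2 * (S ^ 2 + St ^ 2) := by nlinarith [sq_nonneg (S - St)]
    have h2 : (200 * l ^ 3 * (S + St)) ^ 2 ≤ 80000 * l ^ 6 * (S ^ 2 + St ^ 2) := by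
      rw [show (200 * l ^ 3 * (S + St)) ^ 2 = 40000 * l ^ 6 * (S + St) ^ 2 by ring]
      nlinarith [pow_pos l0 6]
    rw [hsg]
    generalize l ^ 6 / r * cn = b at *
    generalize 200 * l ^ 3 * (S + St) = c at *
    nlinarith [sq_nonneg (w - b), sq_nonneg (w - c), sq_nonneg (b - c)]
  have s2 : sg ^ 2 * r / l ^ 5 ≤ 3 * (r * w ^ 2 / l ^ 5) + 3 * (l * (l ^ 6 / r * cn ^ 2)) +
      240000 * (l * (r * S ^ 2)) + 240000 * (l * r * St ^ 2) := by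
    calc sg ^ 2 * r / l ^ 5 = sg ^ 2 * (r / l ^ 5) := by ring
      _ ≤ (3 * w ^ 2 + 3 * (l ^ 6 / r * cn) ^ 2 + 240000 * l ^ 6 * (S ^ 2 + St ^ 2)) *
          (r / l ^ 5) := mul_le_mul_of_nonneg_right s1 (by positivity)
      _ = _ := by field_simp; ring
  have s3 : l * r * St ^ 2 ≤ 2 * (l * (r * S ^ 2)) + 2 * (K ^ 2 * l * D) := by
    have h1 : St ^ 2 ≤ (S + K * e) ^ 2 := pow_le_pow_left₀ hSt hSS 2
    have h2 : St ^ 2 ≤ 2 * S ^ 2 + 2 * (K * e) ^ 2 := by nlinarith [sq_nonneg (S - K * e)]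
    calc l * r * St ^ 2 ≤ l * r * (2 * S ^ 2 + 2 * (K * e) ^ 2) :=
          mul_le_mul_of_nonneg_left h2 (by positivity)
      _ = _ := by rw [← e2]; ring
  have s4 : A * (r * Sb * St) ≤ A * (Sb * Q) + D / 4 + (A * K) ^ 2 * (r * Sb ^ 2) := by
    have h1 : r * Sb * St ≤ r * Sb * (S + K * e) := mul_le_mul_of_nonneg_left hSS (by positivity)
    have h2 : Sb * (r * S) ≤ Sb * Q := mul_le_mul_of_nonneg_left hQ hSb
    have h3 : A * (r * Sb * (K * e)) ≤ D / 4 + (A * K) ^ 2 * (r * Sb ^ 2) := by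
      rw [← e2]
      nlinarith [mul_nonneg r0.le (sq_nonneg (e / 2 - A * K * Sb))]
    have h4 : r * Sb * St ≤ Sb * Q + r * Sb * (K * e) := by linarith
    nlinarith [mul_le_mul_of_nonneg_left h4 A0.le]
  have s5 : A * (K ^ 2 * l * D) ≤ D / 10 ^ 6 := by
    have := mul_le_mul_of_nonneg_right hl1 hD
    linarith
  have s6 : A * (l * (l ^ 6 / r * cn ^ 2)) ≤ l ^ 6 / r * cn ^ 2 / 10 ^ 6 := by
    have h1 : 10 ^ 6 * (A * l) ≤ 1 := by linarith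
    have := mul_le_mul_of_nonneg_right h1 (by positivity : 0 ≤ l ^ 6 / r * cn ^ 2)
    linarith
  have s2' := mul_le_mul_of_nonneg_left s2 A0.le
  have s3' := mul_le_mul_of_nonneg_left s3 A0.le
  have p0 : 0 ≤ l ^ 6 / r * cn ^ 2 := by positivity
  have p1 : 0 ≤ A * (r * w ^ 2 / l ^ 5) := by positivity
  have p2 : 0 ≤ A * (l * (r * S ^ 2)) := by positivity
  have p3 : 0 ≤ A * (l * (q ^ 2 / r)) := by positivity
  have p4 : 0 ≤ A * (l * r⁻¹ ^ 7) := by positivity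
  have p5 : 0 ≤ A * (r * Sb ^ 2) := by positivity
  have p6 : 0 ≤ A * (Sb * Q) := by positivity
  have p7 : 0 ≤ (A * K) ^ 2 * (r * w ^ 2 / l ^ 5 + l * (r * S ^ 2 + q ^ 2 / r + r⁻¹ ^ 7) +
    Sb * Q) := by positivity
  have E : 3 / 4 * D + l ^ 6 / r / 2 * cn ^ 2 +
      (10 ^ 6 * A + (A * K) ^ 2) * r * w ^ 2 / l ^ 5 +
      (10 ^ 6 * A + (A * K) ^ 2) * l * (r * S ^ 2 + q ^ 2 / r + r⁻¹ ^ 7) +
      (10 ^ 6 * A + (A * K) ^ 2) * (r * Sb ^ 2 + Sb * Q) =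
      3 / 4 * D + 1 / 2 * (l ^ 6 / r * cn ^ 2) + 10 ^ 6 * (A * (r * w ^ 2 / l ^ 5) +
      A * (l * (r * S ^ 2)) + A * (l * (q ^ 2 / r)) + A * (l * r⁻¹ ^ 7) + A * (r * Sb ^ 2) +
      A * (Sb * Q)) + (A * K) ^ 2 * (r * Sb ^ 2) +
      (A * K) ^ 2 * (r * w ^ 2 / l ^ 5 + l * (r * S ^ 2 + q ^ 2 / r + r⁻¹ ^ 7) + Sb * Q) := by
    ring
  rw [E]
  linarith

end Pool.Agent.Lib.ION
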