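import Pool.Agent.Lib.ION.Basic

/-!
# Propagation of the point counts through the Thomas-Fermi density
-/

open MeasureTheory Set Metric Real

noncomputable section

namespace Pool.Agent.Lib.ION

open Pool.Agent.Lib.MP_689e73_mp

lemma det_vol (p : E3) {R : ℝ} (hR : 0 ≤ R) : volume.real (ball p R) = R ^ 3 * (π * 4 / 3) := by
  rw [Measure.real, EuclideanSpace.volume_ball_fin_three, ENNReal.toReal_mul, ENNReal.toReal_pow,
    ENNReal.toReal_ofReal hR, ENNReal.toReal_ofReal (by positivity)]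

lemma det_sqrt {R r D x : ℝ} (hr : 0 < r) (h0 : 0 ≤ R) (hR : R ≤ r) (hx : 0 ≤ x)
    (hD : D ≤ x ^ 2 * r⁻¹ ^ 7) : √(R * D) ≤ x * r⁻¹ ^ 3 := by
  refine Real.sqrt_le_iff.2 ⟨by positivity, ?_⟩
  calc R * D ≤ r * (x ^ 2 * r⁻¹ ^ 7) :=
        (mul_le_mul_of_nonneg_left hD h0).trans (mul_le_mul_of_nonneg_right hR (by positivity))
    _ = (x * r⁻¹ ^ 3) ^ 2 := by field_simp

lemma det_gp {u : ℝ} (hu : 0 ≤ u) : gp (u ^ 2) = u ^ 3 := by
  rw [gp_of_nonneg (by positivity), rpow_three_halves (by positivity), Real.sqrt_sq hu]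

lemma det_norm {p y : E3} {r R : ℝ} (hp : ‖p‖ = 4 * r) (hy : y ∈ ball p R) (hR : R ≤ r) :
    3 * r ≤ ‖y‖ ∧ ‖y‖ ≤ 5 * r := by
  rw [mem_ball, dist_eq_norm] at hy
  have := abs_le.1 (abs_norm_sub_norm_le y p)
  constructor <;> linarith [this.1, this.2]

lemma det_ge {ρ : E3 → ℝ} (h : LL ρ) (p : E3) {R m : ℝ} (hR : 0 ≤ R)
    (hm : ∀ y ∈ ball p R, m ≤ ρ y) : R ^ 3 * (π * 4 / 3) * m ≤ ∫ y in ball p R, ρ y := by
  have := setIntegral_mono_on (μ := volume) (s := ball p R) (f := fun _ => m)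
    (integrableOn_const measure_ball_lt_top.ne) h.int.integrableOn measurableSet_ball hm
  rwa [setIntegral_const, det_vol p hR, smul_eq_mul] at this

lemma det_le {ρ : E3 → ℝ} (h : LL ρ) (p : E3) {R m : ℝ} (hR : 0 ≤ R)
    (hm : ∀ y ∈ ball p R, ρ y ≤ m) : ∫ y in ball p R, ρ y ≤ R ^ 3 * (π * 4 / 3) * m := by
  have := setIntegral_mono_on (μ := volume) (s := ball p R) (g := fun _ => m)
    h.int.integrableOn (integrableOn_const measure_ball_lt_top.ne) measurableSet_ball hm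
  rwa [setIntegral_const, det_vol p hR, smul_eq_mul] at this

theorem st_up3 (h1 : St_trans) : St_up3 := by
  obtain ⟨C, hC, h1⟩ := h1
  have c0 := c1_pos
  set m : ℝ := c1 / (15625 * 128) with hm
  have m0 : 0 < m := by positivity
  refine ⟨m / 8, by positivity, fun κ k0 k1 => ⟨(m * κ ^ 3 / (2 * C)) ^ 2, by positivity, ?_⟩⟩
  intro V ρ ϑ ℓ a L r b b₀ D ι _ _ X hr ha hL ht hw hD hφ hε p hp
  have kr : κ * r ≤ r := by nlinarith
  have t := ((h1 ρ ϑ ℓ b b₀ _ D (κ * r) ι X ht.dens.ll ht.dens.nn hw (by linarith) hD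
    (by positivity)).2.2.2 p (by rw [hp]; linarith)).2
  have s := det_sqrt hr (R := κ * r) (by positivity) kr (by positivity) hε
  have g := det_ge ht.dens.ll p (R := κ * r / 8) (m := c1 * (r⁻¹ ^ 2 / 25) ^ 3) (by positivity)
    fun y hy => by
      obtain ⟨a1, a2⟩ := det_norm hp hy (by nlinarith)
      rw [ht.eq y, if_pos ⟨by linarith, by linarith⟩, ← det_gp (by positivity)]
      refine mul_le_mul_of_nonneg_left (gp_mono (le_trans ?_ (hφ y a1 a2))) c0.le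
      have y0 : 0 < ‖y‖ := by linarith
      rw [le_div_iff₀ (by positivity)]
      calc (r⁻¹ ^ 2 / 25) ^ 2 * ‖y‖ ^ 4 ≤ (r⁻¹ ^ 2 / 25) ^ 2 * (5 * r) ^ 4 := by gcongr
        _ = 1 := by field_simp; norm_num
        _ ≤ 9 * π ^ 2 := by nlinarith [pi_gt_three]
  have e : m * κ ^ 3 * r⁻¹ ^ 3 * (π / 3) =
      (κ * r / 8) ^ 3 * (π * 4 / 3) * (c1 * (r⁻¹ ^ 2 / 25) ^ 3) := by
    rw [hm]; field_simp; norm_num
  have e2 : C * (m * κ ^ 3 / (2 * C) * r⁻¹ ^ 3) = m * κ ^ 3 * r⁻¹ ^ 3 / 2 := by field_simp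
  have w : 0 < m * κ ^ 3 * r⁻¹ ^ 3 := by positivity
  have := mul_le_mul_of_nonneg_left s hC.le
  nlinarith [pi_gt_three]

lemma det_cnt {ι : Type} [Fintype ι] {X : Cfg ι} {ϑ ℓ : E3 → ℝ} {b b₀ δ r R : ℝ} {p : E3}
    (hw : Wt ϑ ℓ b b₀ δ) (hb : b₀ ≤ 3 * r) (hp : ‖p‖ = 4 * r) (hR : R ≤ r) :
    cnt (ball p R) X = ∑ j, if ‖X j - p‖ < R then ϑ (X j) else 0 := by
  refine Finset.sum_congr rfl fun j _ => ?_
  split_ifs with h
  · have m : X j ∈ ball p R := by rwa [mem_ball, dist_eq_norm]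
    rw [indicator_of_mem m, hw.out _ (hb.trans (det_norm hp m hR).1)]
  · exact indicator_of_notMem (by rwa [mem_ball, dist_eq_norm]) _

/-- a point of large density near the sphere -/
lemma det_pt (h3 : St_trans) {c : ℝ} (hc : 0 < c) : ∃ c₂ > 0, ∀ κ : ℝ, 0 < κ → κ ≤ 1 / 64 →
    ∃ ε > 0, ∀ (V ρ ϑ ℓ : E3 → ℝ) (a L r b b₀ D : ℝ) (ι : Type) [Fintype ι] [DecidableEq ι]
    (X : Cfg ι), 0 < r → a ≤ 2 * r → 16 * r ≤ L → TFS V a L ρ →
    Wt ϑ ℓ b b₀ (κ / 16) → b₀ ≤ 2 * r → Dv ϑ ℓ X ρ ≤ D → PP c κ r X → D ≤ ε * r⁻¹ ^ 7 →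
    ∀ p, ‖p‖ = 4 * r → ∃ x ∈ ball p (8 * (κ * r)), c₂ * r⁻¹ ^ 4 ≤ V x - psi ρ x := by
  obtain ⟨C, hC, h1⟩ := h3
  have c0 := c1_pos
  set u : ℝ := min 1 (c / (65536 * c1)) with hu
  have u0 : 0 < u := by positivity
  have u1 : u ≤ 1 := min_le_left _ _
  have u2 : c1 * u ^ 3 ≤ c / 65536 := by
    have a : u ≤ c / (65536 * c1) := min_le_right _ _
    rw [le_div_iff₀ (by positivity)] at a
    have b : u ^ 3 ≤ u := by nlinarith [sq_nonneg u, mul_le_one₀ u1 u0.le u1]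
    nlinarith
  refine ⟨u ^ 2, by positivity, fun κ k0 k1 => ⟨(c * κ ^ 3 / (2 * C)) ^ 2, by positivity, ?_⟩⟩
  intro V ρ ϑ ℓ a L r b b₀ D ι _ _ X hr ha hL ht hw hb hD hP hε p hp
  have kr : κ * r ≤ r := by nlinarith
  have t := ((h1 ρ ϑ ℓ b b₀ _ D (κ * r) ι X ht.dens.ll ht.dens.nn hw (by linarith) hD
    (by positivity)).2.2.2 p (by rw [hp]; linarith)).1
  rw [← det_cnt hw (by linarith) hp kr] at t
  have s := det_sqrt hr (R := κ * r) (by positivity) kr (by positivity) hε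
  by_contra hn
  push Not at hn
  have g := det_le ht.dens.ll p (R := 8 * (κ * r)) (m := c / 65536 * r⁻¹ ^ 6) (by positivity)
    fun y hy => by
      obtain ⟨a1, a2⟩ := det_norm hp hy (by nlinarith)
      rw [ht.eq y, if_pos ⟨by linarith, by linarith⟩]
      calc c1 * gp (V y - psi ρ y) ≤ c1 * gp ((u * r⁻¹ ^ 2) ^ 2) :=
            mul_le_mul_of_nonneg_left (gp_mono ((hn y hy).le.trans_eq (by ring))) c0.le
        _ = c1 * u ^ 3 * r⁻¹ ^ 6 := by rw [det_gp (by positivity)]; ring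
        _ ≤ _ := by gcongr
  have e : (8 * (κ * r)) ^ 3 * (π * 4 / 3) * (c / 65536 * r⁻¹ ^ 6) =
      c * κ ^ 3 * r⁻¹ ^ 3 * (π / 96) := by field_simp; norm_num
  have e2 : C * (c * κ ^ 3 / (2 * C) * r⁻¹ ^ 3) = c * κ ^ 3 * r⁻¹ ^ 3 / 2 := by field_simp
  have w : 0 < c * κ ^ 3 * r⁻¹ ^ 3 := by positivity
  have := mul_le_mul_of_nonneg_left s hC.le
  have := hP p hp
  nlinarith [pi_le_four]

/-- the Thomas-Fermi potential varies slowly near a point where it is positive -/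
lemma det_lip (h1 : St_ko) (h2 : St_tfb) (h4 : St_harm) (h5 : St_harn) : ∃ C > 0,
    ∀ (V ρ : E3 → ℝ) (q a₀ a L r : ℝ) (p x : E3), Ext V q a₀ → a₀ < a → 0 < a → a ≤ 2 * r →
    16 * r ≤ L → TFS V a L ρ → ‖p‖ = 4 * r → x ∈ ball p (r / 8) → 0 ≤ V x - psi ρ x →
    V x - psi ρ x - C * r⁻¹ ^ 5 * ‖p - x‖ ≤ V p - psi ρ p := by
  obtain ⟨A, hA, h1⟩ := h1
  obtain ⟨B, hB, h2⟩ := h2
  obtain ⟨C, hC, h5, h6⟩ := h5
  refine ⟨C * (A + C * B) + C * B, by positivity, ?_⟩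
  intro V ρ q a₀ a L r p x hV a0 a1 a2 hL ht hp hx x0
  have hr : 0 < r := by linarith
  set σ : E3 → ℝ := indicator (ball p r) ρ with hσ
  have sb : Bd σ := by
    obtain ⟨M, hM⟩ := ht.dens.bd.bdd
    refine ⟨ht.dens.bd.meas.indicator measurableSet_ball, M, fun y => ?_⟩
    exact (norm_indicator_le_norm_self ρ y).trans (hM y)
  have s0 : ∀ y, y ∉ ball p r → σ y = 0 := fun y hy => indicator_of_notMem hy _
  have sl : LL σ := LL_of_bd sb (c := p) (L := r) fun y hy =>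
    s0 y (by rw [mem_ball, dist_eq_norm]; linarith)
  have s1 : ∀ y, 0 ≤ σ y ∧ σ y ≤ B * r⁻¹ ^ 6 := fun y => by
    by_cases hy : y ∈ ball p r
    · obtain ⟨b1, b2⟩ := det_norm hp hy le_rfl
      rw [hσ, indicator_of_mem hy]
      refine ⟨ht.dens.nn y, ((h2 V ρ q a₀ a L r hV a0 a1 a2 (by linarith) ht).1 y
        (by linarith)).trans ?_⟩
      rw [inv_pow, ← div_eq_mul_inv]
      gcongr
      linarith
    · rw [s0 y hy]; exact ⟨le_rfl, by positivity⟩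
  have e : ∀ y, psi (fun y => ρ y - σ y) y = psi ρ y - psi σ y := ht.dens.ll.psi_sub sl
  have H : Harm (fun y => (A + C * B) * r⁻¹ ^ 4 - (V y - psi (fun y => ρ y - σ y) y))
      (ball p r) :=
    (Harm.const _ _).sub (((h4.2.2.2.2 V q a₀ hV).mono fun y hy => by
      have := (det_norm hp hy le_rfl).1
      change a₀ < ‖y‖
      linarith).sub (h4.2.1 _ _ (ht.dens.ll.sub sl) fun y hy => by
        rw [hσ, indicator_of_mem hy, sub_self]))
  have pm : p ∈ ball p r := mem_ball_self hr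
  have xm : x ∈ ball p r := ball_subset_ball (by linarith) hx
  have k := h5 _ p p x r hr H (fun y hy => by
    obtain ⟨b1, b2⟩ := det_norm hp hy le_rfl
    have t1 := h1 V ρ q a₀ a L hV a0 a1 (by linarith) ht y (by linarith) (by linarith)
    have t2 := (h6 σ _ r p y y hr sb.meas s1 s0 hy hy).1
    have t3 : A / (‖y‖ - a) ^ 4 ≤ A * r⁻¹ ^ 4 := by
      rw [inv_pow, ← div_eq_mul_inv]
      gcongr
      linarith
    have t4 : C * (B * r⁻¹ ^ 6) * r ^ 2 = C * B * r⁻¹ ^ 4 := by field_simp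
    rw [e]
    nlinarith) (mem_ball_self (by linarith)) hx
  have k2 := (h6 σ _ r p p x hr sb.meas s1 s0 pm xm).2
  have k3 := psi_nonneg (fun y => (s1 y).1) x
  simp only [e] at k
  have k4 : C * ((A + C * B) * r⁻¹ ^ 4 - (V x - (psi ρ x - psi σ x))) * ‖p - x‖ / r ≤
      C * ((A + C * B) * r⁻¹ ^ 4) * ‖p - x‖ / r := by
    gcongr
    linarith
  have k5 : C * ((A + C * B) * r⁻¹ ^ 4) * ‖p - x‖ / r + C * (B * r⁻¹ ^ 6) * r * ‖p - x‖ =
      (C * (A + C * B) + C * B) * r⁻¹ ^ 5 * ‖p - x‖ := by field_simp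
  have := (abs_le.1 k).2
  have := (abs_le.1 k2).2
  linarith

theorem st_down (h1 : St_ko) (h2 : St_tfb) (h3 : St_trans) (h4 : St_harm) (h5 : St_harn) :
    St_down := by
  intro c hc
  obtain ⟨c₂, c2, hp⟩ := det_pt h3 hc
  obtain ⟨C, hC, hl⟩ := det_lip h1 h2 h4 h5
  refine ⟨c₂ / 2, by positivity, c₂ / (16 * C), by positivity, fun κ k0 k1 k2 => ?_⟩
  obtain ⟨ε, e0, hp⟩ := hp κ k0 k2
  refine ⟨ε, e0, ?_⟩
  intro V ρ ϑ ℓ q a₀ a L r b b₀ D ι _ _ X hV a0 a1 a2 hL ht hw hb hD hP hε y hy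
  have hr : 0 < r := by linarith
  obtain ⟨x, x1, x2⟩ := hp V ρ ϑ ℓ a L r b b₀ D ι X hr a2 hL ht hw hb hD hP hε y hy
  have w : 0 < c₂ * r⁻¹ ^ 4 := by positivity
  have t := hl V ρ q a₀ a L r y x hV a0 a1 a2 hL ht hy (ball_subset_ball (by nlinarith) x1)
    (by linarith)
  rw [mem_ball', dist_eq_norm] at x1
  have t2 : C * r⁻¹ ^ 5 * ‖y - x‖ ≤ C * r⁻¹ ^ 5 * (8 * (c₂ / (16 * C) * r)) := by
    gcongr
    exact x1.le.trans (by gcongr)
  have t3 : C * r⁻¹ ^ 5 * (8 * (c₂ / (16 * C) * r)) = c₂ * r⁻¹ ^ 4 / 2 := by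
    field_simp; norm_num
  have t4 : c₂ / 2 / (4 * r) ^ 4 = c₂ * r⁻¹ ^ 4 / 512 := by field_simp; norm_num
  linarith

theorem st_det (h1 : St_t12) (h2 : St_up3) (h3 : St_down) (h4 : St_low) (h5 : St_neut)
    (h6 : St_trans) : St_det := by
  obtain ⟨C₁, hC1, h1⟩ := h1
  obtain ⟨c, hc, h2⟩ := h2
  obtain ⟨c', hc', κ₀, k0, h3⟩ := h3 c hc
  obtain ⟨C₂, hC2, h6⟩ := h6
  have kp : 0 < min κ₀ (1 / 64) := by positivity
  have kl : min κ₀ (1 / 64) ≤ 1 / 64 := min_le_right _ _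
  obtain ⟨ε₁, e1, h2⟩ := h2 _ kp kl
  obtain ⟨ε₂, e2, h3⟩ := h3 _ kp (min_le_left _ _) kl
  set T : ℝ := max 2 (8 * π / √c') with hT
  have T2 : 2 ≤ T := le_max_left _ _
  refine ⟨⟨C₁ + C₂ + 1, c, min κ₀ (1 / 64), T, min ε₁ ε₂⟩,
    ⟨by dsimp only; linarith, hc, kp, kl, T2, by positivity⟩, ?_⟩
  intro V ρ ϑ ℓ q a₀ a L r b b₀ D ι _ _ X hV a0 a1 a2 hL ht hw hb hD
  dsimp only at hL hw ⊢
  have hr : 0 < r := by linarith
  have Tr : 2 * r ≤ T * r := by nlinarith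
  have hL' : 8 * (T * r) ≤ L := by linarith
  obtain ⟨t1, t2⟩ := h1 V ρ ϑ ℓ q a₀ a L r b b₀ _ D ι X hV a0 a1 a2 (by linarith) ht hw
    (by linarith) hb hD
  refine ⟨t1.trans (by gcongr; linarith), t2.trans (by gcongr; linarith), fun hP hε => ?_,
    fun hφ hε => h2 V ρ ϑ ℓ a L r b b₀ D ι X hr a2 (by linarith) ht hw hD hφ
      (hε.trans (by gcongr; exact min_le_left _ _))⟩
  have d := h3 V ρ ϑ ℓ q a₀ a L r b b₀ D ι X hV a0 a1 a2 (by linarith) ht hw hb hD hP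
    (hε.trans (by gcongr; exacts [min_le_right _ _, by linarith]))
  refine ⟨h2 V ρ ϑ ℓ a L (T * r) b b₀ D ι X (by linarith) (by linarith) (by linarith) ht hw hD
    (fun y y1 y2 => h4 V ρ q a₀ a L (4 * r) c' hV a0 a1 (by linarith) (by linarith) ht hc' d y
      (by linarith) (le_trans ?_ y1) (by linarith))
    (hε.trans (by gcongr; exact min_le_left _ _)), fun R hR => ?_⟩
  · have : 8 * π / √c' * r ≤ T * r := by gcongr; exact le_max_right _ _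
    calc 6 * π * (4 * r) / √c' = 3 * (8 * π / √c' * r) := by ring
      _ ≤ _ := by linarith
  · have n := (h5 V ρ q a₀ a L (4 * r) hV (by linarith) (by linarith) ht fun y hy =>
      le_trans (by positivity) (d y hy)).2
    have t := (h6 ρ ϑ ℓ b b₀ _ D R ι X ht.dens.ll ht.dens.nn hw (by linarith) hD hR).1
    nlinarith [Real.sqrt_nonneg (R * D)]

end Pool.Agent.Lib.ION
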