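import Pool.Agent.Lib.MP_689e73_mp.TFeq
import Pool.Agent.Lib.MP_689e73_mp.Newton

/-!
# The ionization bound for ground states: definitions
-/

open MeasureTheory Set Metric Real
open scoped ContDiff ComplexConjugate

noncomputable section

namespace Pool.Agent.Lib.ION

open Pool.Agent.Lib.MP_689e73_mp

/-- configurations of particles indexed by `ι` -/
abbrev Cfg (ι : Type) : Type := ι → E3

/-- bounded measurable functions -/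
structure Bd {α : Type} [MeasurableSpace α] (G : α → ℝ) : Prop where
  meas : Measurable G
  bdd : ∃ B, ∀ x, |G x| ≤ B

/-- smooth functions with compact support -/
structure Sm {α : Type} [NormedAddCommGroup α] [NormedSpace ℝ α] (Φ : α → ℂ) : Prop where
  smooth : ContDiff ℝ ∞ Φ
  cpt : HasCompactSupport Φ

/-! ## One particle -/

def e1 (a : Fin 3) : E3 := EuclideanSpace.single a 1

/-- squared gradient of a real function -/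
def g1 (u : E3 → ℝ) (y : E3) : ℝ := ∑ a, fderiv ℝ u y (e1 a) ^ 2

/-- squared gradient of a complex function -/
def k1 (u : E3 → ℂ) (y : E3) : ℝ := ∑ a, ‖fderiv ℝ u y (e1 a)‖ ^ 2

/-- `η` is one inside radius `a₀`, `ζ` is one outside radius `a₁` -/
structure Cut (C a₀ a₁ : ℝ) (η ζ : E3 → ℝ) : Prop where
  sη : ContDiff ℝ ∞ η
  sζ : ContDiff ℝ ∞ ζ
  sq : ∀ y, η y ^ 2 + ζ y ^ 2 = 1
  inn : ∀ y, ‖y‖ ≤ a₀ → ζ y = 0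
  out : ∀ y, a₁ ≤ ‖y‖ → η y = 0
  grad : ∀ y, g1 η y + g1 ζ y ≤ if a₀ ≤ ‖y‖ ∧ ‖y‖ ≤ a₁ then C / (a₁ - a₀) ^ 2 else 0

/-- radial profiles supported in radius `ℓ` -/
structure Rad (γ : ℝ → ℝ) (ℓ : ℝ) : Prop where
  bd : Bd γ
  supp : ∀ t, ℓ < t → γ t = 0

/-- continuous functions with the mean value property -/
structure Harm (f : E3 → ℝ) (s : Set E3) : Prop where
  cont : ContinuousOn f s
  mv : ∀ c ℓ γ, closedBall c ℓ ⊆ s → Rad γ ℓ →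
    ∫ y, γ ‖y - c‖ * f y = (∫ y : E3, γ ‖y‖) * f c

/-- profile of the uniform unit charge on the shell between `R / 2` and `R` -/
def sh (R t : ℝ) : ℝ := if R / 2 ≤ t ∧ t ≤ R then (7 * π / 6 * R ^ 3)⁻¹ else 0

/-- its potential -/
def Ub (R t : ℝ) : ℝ := ∫ y : E3, sh R ‖y‖ * (max t ‖y‖)⁻¹

def gp0 (t : ℝ) : ℝ :=
  smoothTransition (1 - t ^ 2) / √(∫ y : E3, smoothTransition (1 - ‖y‖ ^ 2) ^ 2)

/-- the normalised radial bump of radius `s` -/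
def gs (s : ℝ) (y : E3) : ℝ := (s * √s)⁻¹ * gp0 (‖y‖ / s)

/-- the profile of its square -/
def gam (s t : ℝ) : ℝ := (s ^ 3)⁻¹ * gp0 (t / s) ^ 2

/-- bounded densities with bounded support -/
structure Dens (ρ : E3 → ℝ) : Prop where
  bd : Bd ρ
  nn : ∀ y, 0 ≤ ρ y
  supp : ∃ L, ∀ y, L < ‖y‖ → ρ y = 0

def c1 : ℝ := (6 * π ^ 2)⁻¹

def cT : ℝ := 3 / 5 * (6 * π ^ 2) ^ (2 / 3 : ℝ)

/-- potentials of finitely many point charges of total charge `q` inside radius `a₀` -/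
def Ext (V : E3 → ℝ) (q a₀ : ℝ) : Prop :=
  ∃ (m : ℕ) (z : Fin m → ℝ) (p : Fin m → E3), (∀ α, ‖p α‖ ≤ a₀) ∧ ∑ α, z α = q ∧
    ∀ y, V y = ∑ α, z α * ‖y - p α‖⁻¹

def Vq {κ : Type} [Fintype κ] (q : ℝ) (c : κ → ℝ) (p : κ → E3) (y : E3) : ℝ :=
  q * ‖y‖⁻¹ + ∑ α, c α * (‖y - p α‖⁻¹ - ‖y‖⁻¹)

/-- solutions of the Thomas-Fermi equation on the shell between `a` and `L` -/
structure TFS (V : E3 → ℝ) (a L : ℝ) (ρ : E3 → ℝ) : Prop where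
  dens : Dens ρ
  eq : ∀ y, ρ y = if a ≤ ‖y‖ ∧ ‖y‖ ≤ L then c1 * gp (V y - psi ρ y) else 0

/-- Thomas-Fermi energy in the potential `V` -/
def EV (V ρ : E3 → ℝ) : ℝ := cT * KK ρ - (∫ y, V y * ρ y) + 1 / 2 * DD ρ ρ

/-- Thomas-Fermi energy in the field of a point charge -/
def EQ (q : ℝ) (ρ : E3 → ℝ) : ℝ := cT * KK ρ - q * psi ρ 0 + 1 / 2 * DD ρ ρ

/-- weights that vanish inside radius `b` and are one outside `b₀`, smearing radii -/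
structure Wt (ϑ ℓ : E3 → ℝ) (b b₀ δ : ℝ) : Prop where
  pos : 0 < b
  nn : ∀ y, 0 ≤ ϑ y
  le : ∀ y, ϑ y ≤ 1
  inn : ∀ y, ‖y‖ < b → ϑ y = 0
  out : ∀ y, b₀ ≤ ‖y‖ → ϑ y = 1
  lp : ∀ y, 0 < ℓ y
  ll : ∀ y, b ≤ ‖y‖ → ℓ y ≤ δ * ‖y‖

/-- the smearing radius -/
def ell (s R₁ : ℝ) (y : E3) : ℝ := s * max 1 (‖y‖ / (2 * R₁))

/-! ## Many particles -/

section Many

variable {ι : Type} [Fintype ι] [DecidableEq ι]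

def ev (j : ι) (a : Fin 3) : Cfg ι := Pi.single j (e1 a)

def kin (Φ : Cfg ι → ℂ) (j : ι) (X : Cfg ι) : ℝ := ∑ a, ‖fderiv ℝ Φ X (ev j a)‖ ^ 2

def gsq (f : Cfg ι → ℝ) (X : Cfg ι) : ℝ := ∑ j, ∑ a, fderiv ℝ f X (ev j a) ^ 2

def Ex (Φ : Cfg ι → ℂ) (G : Cfg ι → ℝ) : ℝ := ∫ X, G X * ‖Φ X‖ ^ 2

def Nm (Φ : Cfg ι → ℂ) : ℝ := ∫ X, ‖Φ X‖ ^ 2

def Kn (Φ : Cfg ι → ℂ) (j : ι) : ℝ := ∫ X, kin Φ j X

/-- potential energy of the particles in `A` -/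
def VOn (Z : ℝ) (A : Finset ι) (X : Cfg ι) : ℝ :=
  -Z * ∑ j ∈ A, ‖X j‖⁻¹ + 1 / 2 * ∑ i ∈ A, ∑ j ∈ A, ‖X i - X j‖⁻¹

def EnOn (Z : ℝ) (A : Finset ι) (Φ : Cfg ι → ℂ) : ℝ := ∑ j ∈ A, Kn Φ j + Ex Φ (VOn Z A)

def En (Z : ℝ) (Φ : Cfg ι → ℂ) : ℝ := EnOn Z Finset.univ Φ

def AntiOn (A : Finset ι) (Φ : Cfg ι → ℂ) : Prop :=
  ∀ i ∈ A, ∀ j ∈ A, i ≠ j → ∀ X, Φ (X ∘ Equiv.swap i j) = -Φ X

structure Core (Φ : Cfg ι → ℂ) : Prop where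
  sm : Sm Φ
  anti : AntiOn Finset.univ Φ

def mulj (χ : E3 → ℝ) (j : ι) (Φ : Cfg ι → ℂ) (X : Cfg ι) : ℂ := χ (X j) * Φ X

def mul (χ : Cfg ι → ℝ) (Φ : Cfg ι → ℂ) (X : Cfg ι) : ℂ := χ X * Φ X

/-- the function of the particles in `A`, the others being fixed -/
def slice (A : Finset ι) (Y : Cfg ι) {β : Type} (F : Cfg ι → β) (X : Cfg A) : β :=
  F (Function.updateFinset Y A X)

/-- insert the position `y` of particle `j` -/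
def ins (j : ι) (y : E3) (Y : Cfg {i // i ≠ j}) : Cfg ι := fun i => if h : i = j then y else Y ⟨i, h⟩

/-- annihilation of the orbital `u` in the variable `j` -/
def ann (u : E3 → ℂ) (Φ : Cfg ι → ℂ) (j : ι) (X : Cfg ι) : ℂ :=
  ∫ y, conj (u y) * Φ (Function.update X j y)

/-- quadratic partitions of unity with localisation cost `I` -/
structure Part {Ω : Type} [Fintype Ω] (χ : Ω → Cfg ι → ℝ) (I : Cfg ι → ℝ) : Prop where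
  sm : ∀ o, ContDiff ℝ ∞ (χ o)
  sum : ∀ X, ∑ o, χ o X ^ 2 = 1
  grad : ∀ X, ∑ o, gsq (χ o) X ≤ I X

/-- the label partition -/
def lab (η ζ : E3 → ℝ) (A : Finset ι) (X : Cfg ι) : ℝ := ∏ j, if j ∈ A then η (X j) else ζ (X j)

def cnt (s : Set E3) (X : Cfg ι) : ℝ := ∑ j, indicator s (fun _ => (1 : ℝ)) (X j)

def Nlt (R : ℝ) (X : Cfg ι) : ℝ := ∑ j, if ‖X j‖ < R then 1 else 0

def Nbt (a b : ℝ) (X : Cfg ι) : ℝ := ∑ j, if a ≤ ‖X j‖ ∧ ‖X j‖ < b then 1 else 0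

def Nge (R : ℝ) (X : Cfg ι) : ℝ := ∑ j, if R ≤ ‖X j‖ then 1 else 0

def Sge (R : ℝ) (X : Cfg ι) : ℝ := ∑ j, if R ≤ ‖X j‖ then ‖X j‖⁻¹ else 0

def Sw (β : E3 → ℝ) (X : Cfg ι) : ℝ := ∑ j, β (X j) * ‖X j‖⁻¹

def Uw (β : E3 → ℝ) (X : Cfg ι) (x : E3) : ℝ := ∑ j, β (X j) * ‖x - X j‖⁻¹

def Ww (ϑ : E3 → ℝ) (X : Cfg ι) : ℝ := 1 / 2 * ∑ i, ∑ j, ϑ (X i) * ϑ (X j) * ‖X i - X j‖⁻¹

/-- nuclear potential screened by the particles inside radius `R` -/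
def Vscr (Z R : ℝ) (X : Cfg ι) (y : E3) : ℝ :=
  Z * ‖y‖⁻¹ - ∑ i, if ‖X i‖ < R then ‖y - X i‖⁻¹ else 0

/-- smeared empirical density -/
def mu (ϑ ℓ : E3 → ℝ) (X : Cfg ι) (y : E3) : ℝ := ∑ j, ϑ (X j) * gam (ℓ (X j)) ‖y - X j‖

/-- Coulomb distance of the smeared empirical density from `ρ` -/
def Dv (ϑ ℓ : E3 → ℝ) (X : Cfg ι) (ρ : E3 → ℝ) : ℝ :=
  1 / 2 * DD (fun y => mu ϑ ℓ X y - ρ y) (fun y => mu ϑ ℓ X y - ρ y)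

/-- excess energy -/
def ee (Z E : ℝ) (Φ : Cfg ι → ℂ) : ℝ := En Z Φ - E * Nm Φ

def bb (Z E r : ℝ) (Φ : Cfg ι → ℂ) : ℝ := ee Z E Φ + r⁻¹ ^ 7 * Nm Φ

def BB (Z r : ℝ) (X : Cfg ι) : ℝ :=
  r * Sge r X ^ 2 + max (Z - Nlt r X) 0 ^ 2 / r + max (Nlt (2 * r) X - Z) 0 ^ 2 / r + r⁻¹ ^ 7

/-- many points in every small ball centred on the sphere of radius `4 r` -/
def PP (c κ r : ℝ) (X : Cfg ι) : Prop :=
  ∀ p : E3, ‖p‖ = 4 * r → c * κ ^ 3 * r⁻¹ ^ 3 ≤ cnt (ball p (κ * r)) X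

end Many

/-- `E` is a lower bound of the energy for all particle numbers -/
def IsLB (Z E : ℝ) : Prop :=
  ∀ (ι : Type) [Fintype ι] [DecidableEq ι] (Φ : Cfg ι → ℂ), Core Φ → E * Nm Φ ≤ En Z Φ

/-- `E` is a lower bound of the energy for `n` particles -/
def LBc (Z : ℝ) (n : ℕ) (E : ℝ) : Prop :=
  ∀ (ι : Type) [Fintype ι] [DecidableEq ι], Fintype.card ι = n →
    ∀ Φ : Cfg ι → ℂ, Core Φ → E * Nm Φ ≤ En Z Φ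

/-- there is a tight normalised family whose energy is at most `E` in the limit -/
def Bound (Z E : ℝ) (N : ℕ) : Prop :=
  ∃ B : ℝ, ∀ ε > 0, ∃ L > 0, ∀ δ > 0, ∃ Φ : Cfg (Fin N) → ℂ, Core Φ ∧ Nm Φ = 1 ∧
    En Z Φ ≤ E + δ ∧ ∑ j, Kn Φ j ≤ B ∧ Ex Φ (Nge L) ≤ ε

def H1 (K Z E r : ℝ) : Prop :=
  ∀ (ι : Type) [Fintype ι] [DecidableEq ι] (Φ : Cfg ι → ℂ), Core Φ →
    Ex Φ (fun X => max (Z - Nlt r X) 0 ^ 2) ≤ K * r * bb Z E r Φ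

def H2 (K Z E r : ℝ) : Prop :=
  ∀ (ι : Type) [Fintype ι] [DecidableEq ι] (Φ : Cfg ι → ℂ), Core Φ →
    Ex Φ (fun X => max (Nlt (2 * r) X - Z) 0 ^ 2) ≤ K * r * bb Z E r Φ

def H3 (K Z E r : ℝ) : Prop :=
  ∀ (ι : Type) [Fintype ι] [DecidableEq ι] (Φ : Cfg ι → ℂ), Core Φ →
    Ex Φ (fun X => Sge r X ^ 2) ≤ K / r * bb Z E r Φ

def HH (K Z E r : ℝ) : Prop := H1 K Z E r ∧ H2 K Z E r ∧ H3 K Z E r

/-- the linear response bound on the screened potential -/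
def LR (K Z E r : ℝ) : Prop :=
  ∀ (ι : Type) [Fintype ι] [DecidableEq ι] (Φ : Cfg ι → ℂ), Core Φ → ∀ β : E3 → ℝ, Bd β →
    (∀ y, 0 ≤ β y) → (∀ y, ‖y‖ < 8 * r → β y = 0) →
    Ex Φ (fun X => ∑ j, β (X j) * Vscr Z (2 * r) X (X j)) ≤
      K * (bb Z E r Φ + r * Ex Φ fun X => Sw β X ^ 2)

/-- excess charge costs energy -/
def KL (c M₀ Z E R : ℝ) : Prop :=
  ∀ (ι : Type) [Fintype ι] [DecidableEq ι] (Φ : Cfg ι → ℂ), Core Φ → ∀ M, M₀ * R⁻¹ ^ 3 ≤ M →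
    (∀ X, Φ X ≠ 0 → M ≤ Nlt (4 * R) X - Z) → c * M ^ 2 / R * Nm Φ ≤ ee Z E Φ

/-- the universal constants of the Thomas-Fermi analysis -/
structure Cs where
  C : ℝ
  c : ℝ
  κ : ℝ
  T : ℝ
  ε : ℝ

structure Cs.Pos (k : Cs) : Prop where
  C : 1 ≤ k.C
  c : 0 < k.c
  κ : 0 < k.κ
  κ1 : k.κ ≤ 1 / 64
  T : 2 ≤ k.T
  ε : 0 < k.ε

section Cert

variable {ι : Type} [Fintype ι] [DecidableEq ι]

structure Cert (k : Cs) (Z r : ℝ) (X : Cfg ι) (Δ : ℝ) : Prop where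
  d1 : Z - Nlt (64 * r) X ≤ k.C * (r⁻¹ ^ 3 + √(r * Δ))
  d2 : Sge (64 * r) X ≤ k.C * (r⁻¹ ^ 4 + √(Δ / r))
  d3 : PP k.c k.κ r X → Δ ≤ k.ε * (k.T * r)⁻¹ ^ 7 →
    PP k.c k.κ (k.T * r) X ∧ ∀ R, r ≤ R → Nlt R X - Z ≤ k.C * √(R * Δ)

structure Cert0 (k : Cs) (C₀ Z r : ℝ) (X : Cfg ι) (Δ : ℝ) : Prop where
  d1 : Δ ≤ k.ε * r⁻¹ ^ 7 → PP k.c k.κ r X
  d2 : ∀ R, r ≤ R → Nlt R X - Z ≤ C₀ * √(R * Δ)
  d3 : ∀ R, r ≤ R → Sge R X ≤ C₀ * (Z / R + √(Δ / R))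

end Cert

def StepG (k : Cs) (C₁ e Z E r : ℝ) : Prop :=
  ∀ (ι : Type) [Fintype ι] [DecidableEq ι] (Φ : Cfg ι → ℂ), Core Φ → ∀ G : Cfg ι → ℝ, Bd G →
    (∀ X Δ, 0 ≤ Δ → Cert k Z r X Δ → G X ≤ Δ) → Ex Φ G ≤ C₁ * ee Z E Φ + e * bb Z E r Φ

def Step0G (k : Cs) (C₀ C₁ e Z E r : ℝ) : Prop :=
  ∀ (ι : Type) [Fintype ι] [DecidableEq ι] (Φ : Cfg ι → ℂ), Core Φ → ∀ G : Cfg ι → ℝ, Bd G →
    (∀ X Δ, 0 ≤ Δ → Cert0 k C₀ Z r X Δ → G X ≤ Δ) →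
    Ex Φ G ≤ C₁ * ee Z E Φ + e * r⁻¹ ^ 7 * Nm Φ

/-- what the Thomas-Fermi analysis gives for weighted point configurations -/
def TFP (k : Cs) : Prop :=
  k.Pos ∧ ∀ (V ρ ϑ ℓ : E3 → ℝ) (q a₀ a L r b b₀ D : ℝ) (ι : Type) [Fintype ι] [DecidableEq ι]
    (X : Cfg ι), Ext V q a₀ → a₀ < a → 0 < a → a ≤ 2 * r → 8 * k.T * r ≤ L → TFS V a L ρ →
    Wt ϑ ℓ b b₀ (k.κ / 16) → b₀ ≤ 2 * r → Dv ϑ ℓ X ρ ≤ D →
    (q - ∑ j, (if ‖X j‖ < 64 * r then ϑ (X j) else 0) ≤ k.C * (r⁻¹ ^ 3 + √(r * D))) ∧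
    Sge (64 * r) X ≤ k.C * (r⁻¹ ^ 4 + √(D / r)) ∧
    (PP k.c k.κ r X → D ≤ k.ε * (k.T * r)⁻¹ ^ 7 → PP k.c k.κ (k.T * r) X ∧
      ∀ R, 0 < R → ∑ j, (if ‖X j‖ < R then ϑ (X j) else 0) - q ≤ (k.C - 1) * √(R * D)) ∧
    ((∀ y, 3 * r ≤ ‖y‖ → ‖y‖ ≤ 5 * r → 9 * π ^ 2 / ‖y‖ ^ 4 ≤ V y - psi ρ y) →
      D ≤ k.ε * r⁻¹ ^ 7 → PP k.c k.κ r X)

end Pool.Agent.Lib.ION
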