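import Pool.Agent.Lib.ION.Basic

/-!
# The ionization bound for ground states: removing the excess particles costs bounded energy
-/

open MeasureTheory Set Metric Real Filter Topology
open scoped ContDiff ComplexConjugate

set_option linter.unusedSectionVars false

noncomputable section

namespace Pool.Agent.Lib.ION

open Pool.Agent.Lib.MP_689e73_mp

section

variable {ι : Type} [Fintype ι] [DecidableEq ι]

lemma f1_supp {C a₀ a₁ : ℝ} {η ζ : E3 → ℝ} (h : Cut C a₀ a₁ η ζ) {A : Finset ι} {X : Cfg ι}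
    (hX : lab η ζ A X ≠ 0) : (∀ j ∈ A, ‖X j‖ < a₁) ∧ ∀ j ∉ A, a₀ < ‖X j‖ := by
  unfold lab at hX
  rw [Finset.prod_ne_zero_iff] at hX
  refine ⟨fun j hj => ?_, fun j hj => ?_⟩
  · have := hX j (Finset.mem_univ _)
    rw [if_pos hj] at this
    exact lt_of_not_ge fun h' => this (h.out _ h')
  · have := hX j (Finset.mem_univ _)
    rw [if_neg hj] at this
    exact lt_of_not_ge fun h' => this (h.inn _ h')

lemma f1_pot (Z R : ℝ) (A : Finset ι) (X : Cfg ι) (h : ∀ j ∉ A, R ≤ ‖X j‖) :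
    VOn Z A X - ∑ j ∈ Aᶜ, Vscr Z R X (X j) ≤ VOn Z Finset.univ X := by
  have h1 : ∀ j, (∑ i, if ‖X i‖ < R then ‖X j - X i‖⁻¹ else 0) ≤ ∑ i ∈ A, ‖X j - X i‖⁻¹ := by
    intro j
    rw [← Finset.sum_add_sum_compl A]
    have e : (∑ i ∈ Aᶜ, if ‖X i‖ < R then ‖X j - X i‖⁻¹ else 0) = 0 :=
      Finset.sum_eq_zero fun i hi => if_neg (not_lt.2 (h i (Finset.mem_compl.1 hi)))
    rw [e, add_zero]
    refine Finset.sum_le_sum fun i _ => ?_
    split_ifs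
    · exact le_rfl
    · positivity
  have h2 : ∑ i ∈ A, ∑ j ∈ Aᶜ, ‖X i - X j‖⁻¹ = ∑ j ∈ Aᶜ, ∑ i ∈ A, ‖X j - X i‖⁻¹ := by
    rw [Finset.sum_comm]
    exact Finset.sum_congr rfl fun j _ => Finset.sum_congr rfl fun i _ => by rw [norm_sub_rev]
  have h3 : 0 ≤ ∑ i ∈ Aᶜ, ∑ j ∈ Aᶜ, ‖X i - X j‖⁻¹ := by positivity
  have h4 : ∑ i, ∑ j, ‖X i - X j‖⁻¹ = ∑ i ∈ A, ∑ j ∈ A, ‖X i - X j‖⁻¹ +
      ∑ i ∈ A, ∑ j ∈ Aᶜ, ‖X i - X j‖⁻¹ + (∑ i ∈ Aᶜ, ∑ j ∈ A, ‖X i - X j‖⁻¹ +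
      ∑ i ∈ Aᶜ, ∑ j ∈ Aᶜ, ‖X i - X j‖⁻¹) := by
    rw [← Finset.sum_add_distrib, ← Finset.sum_add_distrib, ← Finset.sum_add_sum_compl A]
    simp only [Finset.sum_add_sum_compl]
  have h5 : ∑ j ∈ Aᶜ, (∑ i, if ‖X i‖ < R then ‖X j - X i‖⁻¹ else 0) ≤
      ∑ j ∈ Aᶜ, ∑ i ∈ A, ‖X j - X i‖⁻¹ := Finset.sum_le_sum fun j _ => h1 j
  simp only [VOn, Vscr, Finset.sum_sub_distrib, ← Finset.mul_sum]
  rw [h4, h2, ← Finset.sum_add_sum_compl A fun j => ‖X j‖⁻¹]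
  linarith

lemma f1_loc (Z R : ℝ) (j : ι) : LocallyIntegrable fun X : Cfg ι => Vscr Z R X (X j) := by
  simpa using loc_Vscr (ι := ι) (Bd.const (1 : ℝ)) Z R j

lemma f1_piece (h4 : St_slice) {Z e R : ℝ} {A : Finset ι} {F : Cfg ι → ℂ} (hF : Sm F)
    (hA : AntiOn A F) (he : LBc Z A.card e) (hs : ∀ X, F X ≠ 0 → ∀ j ∉ A, R ≤ ‖X j‖) :
    e * Nm F ≤ En Z F + Ex F fun X => ∑ j ∈ Aᶜ, Vscr Z R X (X j) := by
  obtain ⟨-, s2, s3⟩ := h4 ι A
  have h1 := s3 F (fun _ => 0) Z e hF (locallyIntegrable_const 0)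
    (Eventually.of_forall fun Y _ => by
      have h0 : Ex (slice A Y F) (slice A Y fun _ => (0 : ℝ)) = 0 := by simp [Ex, slice]
      rw [h0, add_zero]
      exact he A (by simp) _ ((s2 F Y hF).2.1 hA))
  have h0 : Ex F (fun _ => (0 : ℝ)) = 0 := by simp [Ex]
  rw [h0, add_zero] at h1
  have lv : LocallyIntegrable fun X : Cfg ι => ∑ j ∈ Aᶜ, Vscr Z R X (X j) :=
    loc_sum _ fun j _ => f1_loc Z R j
  have h2 : Ex F (fun X => VOn Z A X - ∑ j ∈ Aᶜ, Vscr Z R X (X j)) ≤ Ex F (VOn Z Finset.univ) :=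
    Ex_mono hF ((loc_VOn Z A).sub lv) (loc_VOn Z _) fun X hX => f1_pot Z R A X (hs X hX)
  rw [Ex_sub hF (loc_VOn Z A) lv] at h2
  have h3 : ∑ j ∈ A, Kn F j ≤ ∑ j, Kn F j :=
    Finset.sum_le_sum_of_subset_of_nonneg (Finset.subset_univ _) fun j _ _ => Kn_nonneg F j
  simp only [En, EnOn] at h1 ⊢
  linarith

lemma f1_ims {C r : ℝ} (hC : 0 < C) (hr : 0 < r) {η ζ : E3 → ℝ} (h : Cut C (8 * r) (16 * r) η ζ)
    (X : Cfg ι) :
    ∑ j, (g1 η (X j) + g1 ζ (X j)) ≤ C / (4 * r) * (1 + Sge (8 * r) X ^ 2) := by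
  have h1 : ∑ j, (g1 η (X j) + g1 ζ (X j)) ≤ C / (4 * r) * Sge (8 * r) X := by
    unfold Sge
    rw [Finset.mul_sum]
    refine Finset.sum_le_sum fun j _ => (h.grad (X j)).trans ?_
    by_cases h1 : 8 * r ≤ ‖X j‖
    · rw [if_pos h1]
      have hx : 0 < ‖X j‖ := by linarith
      split_ifs with h2
      · have h3 : (16 * r)⁻¹ ≤ ‖X j‖⁻¹ := inv_anti₀ hx h2.2
        calc C / (16 * r - 8 * r) ^ 2 = C / (4 * r) * (16 * r)⁻¹ := by field_simp; ring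
          _ ≤ _ := by gcongr
      · positivity
    · rw [if_neg h1, if_neg fun h' => h1 h'.1, mul_zero]
  refine h1.trans (mul_le_mul_of_nonneg_left ?_ (by positivity))
  nlinarith [sq_nonneg (Sge (8 * r) X - 1), Sge_nonneg (8 * r) X]

lemma f1_sw {C r : ℝ} {η ζ : E3 → ℝ} (h : Cut C (8 * r) (16 * r) η ζ) (X : Cfg ι) :
    Sw (fun y => ζ y ^ 2) X ^ 2 ≤ Sge (8 * r) X ^ 2 := by
  have h0 : 0 ≤ Sw (fun y => ζ y ^ 2) X := Finset.sum_nonneg fun j _ => by positivity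
  refine pow_le_pow_left₀ h0 (Finset.sum_le_sum fun j _ => ?_) 2
  split_ifs with h1
  · have : ζ (X j) ^ 2 ≤ 1 := by nlinarith [h.sq (X j), sq_nonneg (η (X j))]
    exact mul_le_of_le_one_left (by positivity) this
  · simp [h.inn _ (le_of_not_ge h1)]

lemma f1_card {R : ℝ} {A : Finset ι} {X : Cfg ι} (h : ∀ j ∈ A, ‖X j‖ < R) :
    (A.card : ℝ) ≤ Nlt R X := by
  unfold Nlt
  calc (A.card : ℝ) = ∑ j ∈ A, if ‖X j‖ < R then 1 else 0 := by
        rw [Finset.sum_congr rfl fun j hj => if_pos (h j hj)]; simp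
    _ ≤ _ := Finset.sum_le_sum_of_subset_of_nonneg (Finset.subset_univ _) fun j _ _ => by
        split_ifs <;> norm_num

end

theorem st_f1 (h1 : St_ims) (h2 : St_lab) (h3 : St_cut) (h4 : St_slice) (h5 : St_mono) :
    St_f1 := by
  intro K hK K₁ hK₁ r hr
  obtain ⟨Cc, hCc, hcut⟩ := h3
  obtain ⟨η, ζ, hc⟩ := hcut (8 * r) (16 * r) (by positivity) (by linarith)
  obtain ⟨B8, hB8⟩ : ∃ B, B = 1 + (8 * r)⁻¹ ^ 7 := ⟨_, rfl⟩
  obtain ⟨B1, hB1⟩ : ∃ B, B = 1 + r⁻¹ ^ 7 := ⟨_, rfl⟩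
  have pB8 : 0 < B8 := by rw [hB8]; positivity
  have pB1 : 0 < B1 := by rw [hB1]; positivity
  obtain ⟨S, hS⟩ : ∃ S, S = K / (8 * r) * B8 := ⟨_, rfl⟩
  have pS : 0 < S := by rw [hS]; positivity
  obtain ⟨T, hT⟩ : ∃ T, T = K * (8 * r) * B8 := ⟨_, rfl⟩
  have pT : 0 < T := by rw [hT]; positivity
  obtain ⟨C, hC⟩ : ∃ C, C = Cc / (4 * r) * (1 + S) + K₁ * (B1 + r * S) := ⟨_, rfl⟩
  have pC : 0 < C := by rw [hC]; positivity
  refine ⟨2 * (1 + C), by positivity, 1 + 2 * T, by positivity,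
    fun Z E lam N hZ hE hE1 hLR hH hN hl => ?_⟩
  by_contra hcon
  rw [not_le] at hcon
  unfold IsLB at hE1
  push Not at hE1
  obtain ⟨ι, _, _, Φ, hΦ, hlt⟩ := hE1
  have hge := hE ι Φ hΦ
  have hn : 0 < Nm Φ := by nlinarith
  have hee : ee Z E Φ ≤ Nm Φ := by unfold ee; nlinarith
  have hb8 : bb Z E (8 * r) Φ ≤ B8 * Nm Φ := by unfold bb; rw [hB8]; nlinarith
  have hb1 : bb Z E r Φ ≤ B1 * Nm Φ := by unfold bb; rw [hB1]; nlinarith
  obtain ⟨hp, hsum, hanti⟩ := h2 ι η ζ hc.sη hc.sζ hc.sq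
  have bS : Bd fun X : Cfg ι => Sge (8 * r) X ^ 2 := (bd_Sge (by positivity)).pow 2
  have hS2 : Ex Φ (fun X => Sge (8 * r) X ^ 2) ≤ S * Nm Φ := by
    refine (hH.2.2 ι Φ hΦ).trans ?_
    rw [hS, mul_assoc]
    exact mul_le_mul_of_nonneg_left hb8 (by positivity)
  have lI : LocallyIntegrable fun X : Cfg ι => ∑ j, (g1 η (X j) + g1 ζ (X j)) := by
    have c1 := continuous_g1 hc.sη
    have c2 := continuous_g1 hc.sζ
    exact Continuous.locallyIntegrable (by fun_prop)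
  have hims := h1 ι (Finset ι) _ _ Φ Z hp hΦ.sm lI
  have hI : Ex Φ (fun X => ∑ j, (g1 η (X j) + g1 ζ (X j))) ≤ Cc / (4 * r) * (1 + S) * Nm Φ := by
    refine (Ex_mono hΦ.sm lI (((Bd.const 1).add bS).const_mul (Cc / (4 * r))).loc
      fun X _ => f1_ims hCc hr hc X).trans ?_
    rw [Ex_const_mul, Ex_add hΦ.sm (Bd.const 1).loc bS.loc, Ex_const, mul_assoc]
    exact mul_le_mul_of_nonneg_left (by linarith) (by positivity)
  have bζ : Bd fun y => ζ y ^ 2 := hc.bd_ζ.pow 2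
  have hz : ∀ y, ‖y‖ < 8 * r → ζ y ^ 2 = 0 := fun y hy => by rw [hc.inn y hy.le]; simp
  have hV : Ex Φ (fun X => ∑ j, ζ (X j) ^ 2 * Vscr Z (2 * r) X (X j)) ≤
      K₁ * (B1 + r * S) * Nm Φ := by
    refine (hLR ι Φ hΦ _ bζ (fun y => sq_nonneg _) hz).trans ?_
    have := Ex_mono hΦ.sm ((bd_Sw bζ (by positivity) hz).pow 2).loc bS.loc fun X _ => f1_sw hc X
    rw [mul_assoc]
    refine mul_le_mul_of_nonneg_left ?_ hK₁.le
    nlinarith
  have hsupp : ∀ (A : Finset ι) (X : Cfg ι), mul (lab η ζ A) Φ X ≠ 0 → lab η ζ A X ≠ 0 :=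
    fun A X hX h0 => hX (by simp [mul, h0])
  have hsm : ∀ A : Finset ι, Sm (mul (lab η ζ A) Φ) := fun A => hΦ.sm.mul (hp.sm A)
  have hpiece : ∀ A : Finset ι, (if A.card ≤ N then lam else E) * Nm (mul (lab η ζ A) Φ) ≤
      En Z (mul (lab η ζ A) Φ) +
        Ex (mul (lab η ζ A) Φ) fun X => ∑ j ∈ Aᶜ, Vscr Z (2 * r) X (X j) := by
    intro A
    refine f1_piece h4 (hsm A) (hanti Φ A hΦ.anti).1 ?_ fun X hX j hj => ?_
    · split_ifs with hA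
      · exact h5 Z lam N _ hZ hA hl
      · exact fun κ _ _ _ Ψ hΨ => hE κ Ψ hΨ
    · have := (f1_supp hc (hsupp A X hX)).2 j hj
      linarith
  have hsumV : ∑ A : Finset ι, Ex (mul (lab η ζ A) Φ)
      (fun X => ∑ j ∈ Aᶜ, Vscr Z (2 * r) X (X j)) =
      Ex Φ (fun X => ∑ j, ζ (X j) ^ 2 * Vscr Z (2 * r) X (X j)) := by
    simp only [Ex]
    rw [← integral_finsetSum _ fun A _ => (hsm A).int (loc_sum _ fun j _ => f1_loc Z (2 * r) j)]
    congr 1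
    ext X
    simp only [mul, norm_mul, Complex.norm_real, Real.norm_eq_abs, mul_pow, sq_abs, ← mul_assoc]
    rw [← Finset.sum_mul]
    congr 1
    simp only [← hsum, Finset.sum_mul]
    rw [Finset.sum_comm]
    refine Finset.sum_congr rfl fun A _ => ?_
    rw [← Finset.sum_add_sum_compl A, Finset.sum_eq_zero (s := A) fun j hj => by simp [hj],
      zero_add]
    exact Finset.sum_congr rfl fun j hj => by rw [if_neg (Finset.mem_compl.1 hj), mul_comm]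
  have bN : Bd fun X : Cfg ι => max (Nlt (2 * (8 * r)) X - Z) 0 ^ 2 :=
    (((bd_Nlt _).sub (Bd.const Z)).max (Bd.const 0)).pow 2
  have hbig : ∀ A : Finset ι, (if A.card ≤ N then 0 else 2 * T) * Nm (mul (lab η ζ A) Φ) ≤
      Ex (mul (lab η ζ A) Φ) fun X => max (Nlt (2 * (8 * r)) X - Z) 0 ^ 2 := by
    intro A
    rw [← Ex_const]
    refine Ex_mono (hsm A) (Bd.const _).loc bN.loc fun X hX => ?_
    split_ifs with hA
    · positivity
    · have h6 := f1_card (f1_supp hc (hsupp A X hX)).1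
      have h7 : (N : ℝ) ≤ A.card := by exact_mod_cast (not_le.1 hA).le
      rw [show 2 * (8 * r) = 16 * r by ring]
      have h8 : 1 + 2 * T ≤ max (Nlt (16 * r) X - Z) 0 := le_max_of_le_left (by linarith)
      nlinarith
  have hb2 := Finset.sum_le_sum fun A (_ : A ∈ Finset.univ) => hbig A
  rw [hp.sum_Ex hΦ.sm bN.loc] at hb2
  have hb3 : Ex Φ (fun X => max (Nlt (2 * (8 * r)) X - Z) 0 ^ 2) ≤ T * Nm Φ := by
    refine (hH.2.1 ι Φ hΦ).trans ?_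
    rw [hT, mul_assoc (K * (8 * r))]
    exact mul_le_mul_of_nonneg_left hb8 (by positivity)
  have hp2 := Finset.sum_le_sum fun A (_ : A ∈ Finset.univ) => hpiece A
  rw [Finset.sum_add_distrib, hsumV] at hp2
  obtain ⟨m, hm⟩ : ∃ m, m = ∑ A : Finset ι,
    (if A.card ≤ N then 0 else 1) * Nm (mul (lab η ζ A) Φ) := ⟨_, rfl⟩
  have e1 : ∑ A : Finset ι, (if A.card ≤ N then 0 else 2 * T) * Nm (mul (lab η ζ A) Φ) =
      2 * T * m := by
    rw [hm, Finset.mul_sum]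
    exact Finset.sum_congr rfl fun A _ => by split_ifs <;> ring
  have e2 : ∑ A : Finset ι, (if A.card ≤ N then lam else E) * Nm (mul (lab η ζ A) Φ) =
      lam * Nm Φ - (lam - E) * m := by
    rw [hm, ← hp.sum_Nm hΦ.sm, Finset.mul_sum, Finset.mul_sum, ← Finset.sum_sub_distrib]
    exact Finset.sum_congr rfl fun A _ => by split_ifs <;> ring
  rw [e1] at hb2
  rw [e2] at hp2
  have hm2 : 2 * m ≤ Nm Φ := by
    have : T * (2 * m) ≤ T * Nm Φ := by linarith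
    exact le_of_mul_le_mul_left this pT
  have hC' : C * Nm Φ = Cc / (4 * r) * (1 + S) * Nm Φ + K₁ * (B1 + r * S) * Nm Φ := by
    rw [hC]; ring
  have h9 : lam * Nm Φ - (lam - E) * m ≤ (E + 1) * Nm Φ + C * Nm Φ := by linarith
  have h10 : (lam - E) * (2 * m) ≤ (lam - E) * Nm Φ :=
    mul_le_mul_of_nonneg_left hm2 (by linarith)
  have h11 : (E + 2 * (1 + C)) * Nm Φ < lam * Nm Φ := mul_lt_mul_of_pos_right hcon hn
  nlinarith

end Pool.Agent.Lib.ION
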