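import Pool.Agent.Lib.ION.Basic

/-!
# The ionization bound for ground states: the weighted variational argument
-/

open MeasureTheory Set Metric Real Filter Topology
open scoped ContDiff ComplexConjugate

set_option linter.unusedSectionVars false

noncomputable section

namespace Pool.Agent.Lib.ION

open Pool.Agent.Lib.MP_689e73_mp

/-! ## The weight -/

lemma f2_g1_mul {u v : E3 → ℝ} (hu : Differentiable ℝ u) (hv : Differentiable ℝ v) (y : E3) :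
    g1 (fun y => u y * v y) y ≤ 2 * (u y ^ 2 * g1 v y + v y ^ 2 * g1 u y) := by
  unfold g1
  rw [fderiv_fun_mul (hu y) (hv y), Finset.mul_sum, Finset.mul_sum, ← Finset.sum_add_distrib,
    Finset.mul_sum]
  refine Finset.sum_le_sum fun a _ => ?_
  simp only [_root_.add_apply, _root_.smul_apply, smul_eq_mul]
  nlinarith [sq_nonneg (u y * fderiv ℝ v y (e1 a) - v y * fderiv ℝ u y (e1 a))]

lemma f2_w {a : ℝ} (ha : 0 < a) : ∃ w : E3 → ℝ, ContDiff ℝ ∞ w ∧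
    (∀ y, ‖y‖ ≤ w y ^ 2) ∧ (∀ y, w y ^ 2 ≤ ‖y‖ + a) ∧ ∀ y, y ≠ 0 → g1 w y ≤ ‖y‖⁻¹ := by
  have hp : ∀ y : E3, 0 < ‖y‖ ^ 2 + a ^ 2 := fun y => by positivity
  have hs : ContDiff ℝ ∞ fun y : E3 => ‖y‖ ^ 2 + a ^ 2 :=
    (contDiff_norm_sq ℝ).add contDiff_const
  have h1 : ContDiff ℝ ∞ fun y : E3 => √(‖y‖ ^ 2 + a ^ 2) := hs.sqrt fun y => (hp y).ne'
  have h2 : ContDiff ℝ ∞ fun y : E3 => √(√(‖y‖ ^ 2 + a ^ 2)) :=
    h1.sqrt fun y => (Real.sqrt_pos.2 (hp y)).ne'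
  have e2 : ∀ y : E3, √(√(‖y‖ ^ 2 + a ^ 2)) ^ 2 = √(‖y‖ ^ 2 + a ^ 2) := fun y =>
    Real.sq_sqrt (Real.sqrt_nonneg _)
  have l1 : ∀ y : E3, ‖y‖ ≤ √(‖y‖ ^ 2 + a ^ 2) := fun y =>
    Real.le_sqrt_of_sq_le (by nlinarith [sq_nonneg a])
  refine ⟨_, h2, fun y => (e2 y).symm ▸ l1 y, fun y => ?_, fun y hy => ?_⟩
  · rw [e2, Real.sqrt_le_iff]
    exact ⟨by positivity, by nlinarith [norm_nonneg y]⟩
  · set w : E3 → ℝ := fun y => √(√(‖y‖ ^ 2 + a ^ 2)) with hw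
    have e4 : (fun y => w y ^ 4) = fun y : E3 => ‖y‖ ^ 2 + a ^ 2 := by
      ext z
      rw [show w z ^ 4 = (w z ^ 2) ^ 2 by ring, e2, Real.sq_sqrt (hp z).le]
    have d1 : HasFDerivAt (fun y => w y ^ 4) ((4 * w y ^ 3) • fderiv ℝ w y) y := by
      simpa using ((h2.differentiable (by simp)) y).hasFDerivAt.pow 4
    have d2 : HasFDerivAt (fun y : E3 => ‖y‖ ^ 2 + a ^ 2) (2 • innerSL ℝ y) y :=
      (hasStrictFDerivAt_norm_sq y).hasFDerivAt.add_const _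
    rw [e4] at d1
    have e5 := d1.unique d2
    have e6 : ∀ b, 4 * w y ^ 3 * fderiv ℝ w y (e1 b) = 2 * y b := fun b => by
      have := congrArg (fun L : E3 →L[ℝ] ℝ => L (e1 b)) e5
      simpa [e1, EuclideanSpace.inner_single_right] using this
    have hw0 : 0 < w y := Real.sqrt_pos.2 (Real.sqrt_pos.2 (hp y))
    have e7 : 16 * w y ^ 6 * g1 w y = 4 * ‖y‖ ^ 2 := by
      unfold g1
      rw [EuclideanSpace.real_norm_sq_eq, Finset.mul_sum, Finset.mul_sum]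
      refine Finset.sum_congr rfl fun b _ => ?_
      have := e6 b
      calc 16 * w y ^ 6 * fderiv ℝ w y (e1 b) ^ 2 = (4 * w y ^ 3 * fderiv ℝ w y (e1 b)) ^ 2 := by
            ring
        _ = 4 * y b ^ 2 := by rw [this]; ring
    have hy0 : 0 < ‖y‖ := norm_pos_iff.2 hy
    have l2 : ‖y‖ ≤ w y ^ 2 := (e2 y).symm ▸ l1 y
    have l3 : ‖y‖ ^ 3 ≤ w y ^ 6 := by
      rw [show w y ^ 6 = (w y ^ 2) ^ 3 by ring]
      exact pow_le_pow_left₀ hy0.le l2 3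
    have g0 := g1_nonneg w y
    rw [← one_div, le_div_iff₀ hy0]
    have : 16 * ‖y‖ ^ 2 * (g1 w y * ‖y‖) ≤ 4 * ‖y‖ ^ 2 := by
      rw [← e7]; nlinarith [mul_le_mul_of_nonneg_right l3 g0]
    nlinarith [pow_pos hy0 2]

lemma f2_ph (h2 : St_cut) : ∃ C > 0, ∀ a L : ℝ, 0 < a → 2 * a ≤ L → ∃ ph : E3 → ℝ,
    ContDiff ℝ ∞ ph ∧ (∀ y, ‖y‖ < a → ph y = 0) ∧ (∀ y, ph y ^ 2 ≤ 2 * ‖y‖) ∧
    (∀ y, ph y ^ 2 ≤ 4 * L) ∧ (∀ y, 2 * a ≤ ‖y‖ → ‖y‖ < L → ‖y‖ ≤ ph y ^ 2) ∧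
    ∀ y, g1 ph y ≤ C * if a ≤ ‖y‖ then ‖y‖⁻¹ else 0 := by
  obtain ⟨C, hC, h⟩ := h2
  refine ⟨64 * C + 2, by positivity, fun a L ha hL => ?_⟩
  obtain ⟨η, ζ, h1⟩ := h a (2 * a) ha (by linarith)
  obtain ⟨η', ζ', h1'⟩ := h L (2 * L) (by linarith) (by linarith)
  obtain ⟨w, hw, w1, w2, w3⟩ := f2_w ha
  have z1 : ∀ y, ζ y ^ 2 ≤ 1 := fun y => by nlinarith [h1.sq y, sq_nonneg (η y)]
  have z2 : ∀ y, η' y ^ 2 ≤ 1 := fun y => by nlinarith [h1'.sq y, sq_nonneg (ζ' y)]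
  have z3 : ∀ y, (ζ y * η' y) ^ 2 ≤ 1 := fun y => by
    rw [mul_pow]; exact mul_le_one₀ (z1 y) (sq_nonneg _) (z2 y)
  have p2 : ∀ y, (ζ y * η' y * w y) ^ 2 ≤ 2 * ‖y‖ := fun y => by
    rcases le_total ‖y‖ a with hy | hy
    · rw [h1.inn y hy]; simp
    · rw [mul_pow]
      nlinarith [z3 y, w2 y, sq_nonneg (w y), sq_nonneg (ζ y * η' y)]
  refine ⟨fun y => ζ y * η' y * w y, (h1.sζ.mul h1'.sη).mul hw, fun y hy => ?_, p2, fun y => ?_,
    fun y hy hy' => ?_, fun y => ?_⟩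
  · simp [h1.inn y hy.le]
  · rcases le_total (2 * L) ‖y‖ with hy | hy
    · simp only [h1'.out y hy]; simp; linarith
    · linarith [p2 y]
  · have e1 : ζ y ^ 2 = 1 := by simpa [h1.out y hy] using h1.sq y
    have e2 : η' y ^ 2 = 1 := by simpa [h1'.inn y hy'.le] using h1'.sq y
    simp only [mul_pow, e1, e2, one_mul]
    exact w1 y
  · have dζ := h1.sζ.differentiable (by simp)
    have dη := h1'.sη.differentiable (by simp)
    have k1 := f2_g1_mul (u := fun y => ζ y * η' y) (dζ.mul dη) (hw.differentiable (by simp)) y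
    have k2 := f2_g1_mul dζ dη y
    have g1ζ := h1.grad y
    have g1η := h1'.grad y
    have n1 := g1_nonneg η y
    have n2 := g1_nonneg ζ y
    have n3 := g1_nonneg η' y
    have n4 := g1_nonneg ζ' y
    have n5 := g1_nonneg w y
    split_ifs with hy
    · have hy0 : 0 < ‖y‖ := lt_of_lt_of_le ha hy
      have w4 : w y ^ 2 ≤ 2 * ‖y‖ := by linarith [w2 y]
      have aux : ∀ (b g : ℝ), 0 < b → 0 ≤ g →
          g ≤ (if b ≤ ‖y‖ ∧ ‖y‖ ≤ 2 * b then C / (2 * b - b) ^ 2 else 0) →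
          w y ^ 2 * g ≤ 8 * C * ‖y‖⁻¹ := fun b g hb hg0 hg => by
        split_ifs at hg with hb'
        · rw [show 2 * b - b = b by ring, le_div_iff₀ (by positivity)] at hg
          rw [← div_eq_mul_inv, le_div_iff₀ hy0]
          have t1 : w y ^ 2 * g ≤ 2 * ‖y‖ * g := mul_le_mul_of_nonneg_right w4 hg0
          have t2 : ‖y‖ * ‖y‖ ≤ 2 * b * (2 * b) := mul_le_mul hb'.2 hb'.2 hy0.le (by positivity)
          nlinarith [mul_le_mul_of_nonneg_right t1 hy0.le, mul_le_mul_of_nonneg_right t2 hg0]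
        · rw [le_antisymm hg hg0, mul_zero]; positivity
      have a1 := aux a (g1 ζ y) ha n2 (by linarith)
      have a2 := aux L (g1 η' y) (by linarith) n3 (by linarith)
      have a3 := w3 y (norm_pos_iff.1 hy0)
      have a4 : (ζ y * η' y) ^ 2 * g1 w y ≤ ‖y‖⁻¹ :=
        (mul_le_of_le_one_left n5 (z3 y)).trans a3
      have a5 : g1 (fun y => ζ y * η' y) y ≤ 2 * (g1 η' y + g1 ζ y) := by
        nlinarith [mul_le_of_le_one_left n3 (z1 y), mul_le_of_le_one_left n2 (z2 y)]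
      have a6 := mul_le_mul_of_nonneg_left a5 (sq_nonneg (w y))
      nlinarith
    · have hy' : ‖y‖ < a := not_le.1 hy
      rw [if_neg fun h => hy h.1] at g1ζ
      have e1 : g1 ζ y = 0 := by linarith
      have e2 : ζ y = 0 := h1.inn y hy'.le
      have e3 : g1 (fun y => ζ y * η' y) y ≤ 0 := by simpa [e1, e2] using k2
      have e4 := mul_le_mul_of_nonneg_left e3 (sq_nonneg (w y))
      simp only [e2, zero_mul] at k1
      nlinarith

/-! ## The variational inequality -/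

section Many

variable {ι : Type} [Fintype ι] [DecidableEq ι] {Φ : Cfg ι → ℂ}

lemma f2_norm_sq (α β : ℝ) (D φ : ℂ) : ‖(α : ℂ) * D + (β : ℂ) * φ‖ ^ 2 =
    α ^ 2 * ‖D‖ ^ 2 + 2 * α * β * (D.re * φ.re + D.im * φ.im) + β ^ 2 * ‖φ‖ ^ 2 := by
  simp only [Complex.sq_norm, Complex.normSq_apply, Complex.add_re, Complex.mul_re,
    Complex.ofReal_re, Complex.ofReal_im, Complex.add_im, Complex.mul_im]
  ring

lemma f2_fderiv_mul {χ : Cfg ι → ℝ} (hχ : ContDiff ℝ ∞ χ) (h : Sm Φ) (X v : Cfg ι) :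
    fderiv ℝ (mul χ Φ) X v = (χ X : ℂ) * fderiv ℝ Φ X v + (fderiv ℝ χ X v : ℝ) * Φ X := by
  have d1 := (Complex.ofRealCLM.hasFDerivAt.comp X
    (hχ.differentiable (by simp) X).hasFDerivAt).mul
      (h.smooth.differentiable (by simp) X).hasFDerivAt
  have e : mul χ Φ = (⇑Complex.ofRealCLM ∘ χ) * Φ := rfl
  rw [e, d1.fderiv]
  simp [mul_comm]

/-- energy density -/
def f2_dens (Z lam : ℝ) (Ψ : Cfg ι → ℂ) (X : Cfg ι) : ℝ :=
  ∑ k, kin Ψ k X + (VOn Z Finset.univ X - lam) * ‖Ψ X‖ ^ 2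

lemma f2_loc (Z lam : ℝ) : LocallyIntegrable fun X : Cfg ι => VOn Z Finset.univ X - lam :=
  (loc_VOn Z _).sub (locallyIntegrable_const lam)

lemma f2_dens_int (Z lam : ℝ) (h : Sm Φ) : Integrable (f2_dens Z lam Φ) :=
  (integrable_finsetSum _ fun k _ => h.int_kin k).add (h.int (f2_loc Z lam))

lemma f2_dens_eq (Z lam : ℝ) (h : Sm Φ) : ∫ X, f2_dens Z lam Φ X = ee Z lam Φ := by
  unfold f2_dens
  rw [integral_add (integrable_finsetSum _ fun k _ => h.int_kin k) (h.int (f2_loc Z lam)),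
    integral_finsetSum _ fun k _ => h.int_kin k]
  have := Ex_sub h (loc_VOn Z Finset.univ) (locallyIntegrable_const lam)
  rw [Ex_const] at this
  unfold ee En EnOn Kn
  unfold Ex at this ⊢
  linarith

lemma f2_cd {u : E3 → ℝ} (hu : ContDiff ℝ ∞ u) (j : ι) : ContDiff ℝ ∞ fun X : Cfg ι => u (X j) :=
  hu.comp (contDiff_apply ℝ E3 j)

lemma f2_cdF {u : E3 → ℝ} (hu : ContDiff ℝ ∞ u) :
    ContDiff ℝ ∞ fun X : Cfg ι => ∑ j, u (X j) ^ 2 :=
  ContDiff.sum fun j _ => (f2_cd hu j).pow 2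

lemma f2_dF {u : E3 → ℝ} (hu : ContDiff ℝ ∞ u) (X v : Cfg ι) :
    fderiv ℝ (fun X : Cfg ι => ∑ j, u (X j) ^ 2) X v =
      ∑ j, 2 * u (X j) * fderiv ℝ (fun X : Cfg ι => u (X j)) X v := by
  have d : HasFDerivAt (fun X : Cfg ι => ∑ j, u (X j) ^ 2)
      (∑ j, (2 * u (X j)) • fderiv ℝ (fun X : Cfg ι => u (X j)) X) X :=
    HasFDerivAt.fun_sum fun j _ => by
      simpa using ((f2_cd hu j).differentiable (by simp) X).hasFDerivAt.pow 2
  rw [d.fderiv]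
  simp

lemma f2_pt_dir {u : E3 → ℝ} (hu : ContDiff ℝ ∞ u) (h : Sm Φ) (s : ℝ) (X v : Cfg ι) :
    ‖fderiv ℝ (mul (fun X => 1 - s * ∑ j, u (X j) ^ 2) Φ) X v‖ ^ 2 =
      ‖fderiv ℝ Φ X v‖ ^ 2 - 2 * s * ∑ j, (‖fderiv ℝ (mulj u j Φ) X v‖ ^ 2 -
        fderiv ℝ (fun X : Cfg ι => u (X j)) X v ^ 2 * ‖Φ X‖ ^ 2) +
      s ^ 2 * ‖fderiv ℝ (mul (fun X => ∑ j, u (X j) ^ 2) Φ) X v‖ ^ 2 := by
  have e1 : fderiv ℝ (fun X : Cfg ι => 1 - s * ∑ j, u (X j) ^ 2) X v =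
      -s * fderiv ℝ (fun X : Cfg ι => ∑ j, u (X j) ^ 2) X v := by
    have := (((f2_cdF (ι := ι) hu).differentiable (by simp) X).hasFDerivAt.const_mul s).const_sub 1
    rw [this.fderiv]
    simp
  have e2 : ∀ j, fderiv ℝ (mulj u j Φ) X v = (u (X j) : ℂ) * fderiv ℝ Φ X v +
      (fderiv ℝ (fun X : Cfg ι => u (X j)) X v : ℝ) * Φ X := fun j =>
    f2_fderiv_mul (f2_cd hu j) h X v
  rw [f2_fderiv_mul (contDiff_const.sub (contDiff_const.mul (f2_cdF hu))) h,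
    f2_fderiv_mul (f2_cdF hu) h, e1]
  simp only [e2, f2_norm_sq, add_sub_cancel_right]
  rw [Finset.sum_add_distrib, ← Finset.sum_mul, ← Finset.sum_mul, ← f2_dF hu]
  ring

lemma f2_pt_dens {u : E3 → ℝ} (hu : ContDiff ℝ ∞ u) (h : Sm Φ) (Z lam s : ℝ) (X : Cfg ι) :
    f2_dens Z lam (mul (fun X => 1 - s * ∑ j, u (X j) ^ 2) Φ) X =
      f2_dens Z lam Φ X - 2 * s * ∑ j, (f2_dens Z lam (mulj u j Φ) X - g1 u (X j) * ‖Φ X‖ ^ 2) +
      s ^ 2 * f2_dens Z lam (mul (fun X => ∑ j, u (X j) ^ 2) Φ) X := by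
  have e1 : ∀ j, g1 u (X j) = ∑ k, ∑ a, fderiv ℝ (fun X : Cfg ι => u (X j)) X (ev k a) ^ 2 :=
    fun j => (gsq_single (hu.differentiable (by simp)) j X).symm
  have e2 : ∑ k, kin (mul (fun X => 1 - s * ∑ j, u (X j) ^ 2) Φ) k X = ∑ k, kin Φ k X -
      2 * s * ∑ j, (∑ k, kin (mulj u j Φ) k X - g1 u (X j) * ‖Φ X‖ ^ 2) +
      s ^ 2 * ∑ k, kin (mul (fun X => ∑ j, u (X j) ^ 2) Φ) k X := by
    simp only [kin, f2_pt_dir hu h s, e1, Finset.sum_add_distrib, Finset.sum_sub_distrib,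
      ← Finset.mul_sum, Finset.sum_mul]
    have rot : ∀ f : ι → Fin 3 → ι → ℝ, ∑ k, ∑ a, ∑ j, f k a j = ∑ j, ∑ k, ∑ a, f k a j :=
      fun f => (Finset.sum_congr rfl fun k _ => Finset.sum_comm).trans Finset.sum_comm
    congr 3
    congr 1 <;> exact rot _
  have e3 : ∀ j, ‖mulj u j Φ X‖ ^ 2 = u (X j) ^ 2 * ‖Φ X‖ ^ 2 := fun j => by
    simp only [mulj, norm_mul, Complex.norm_real, Real.norm_eq_abs, mul_pow, sq_abs]
  have e4 : ∀ χ : Cfg ι → ℝ, ‖mul χ Φ X‖ ^ 2 = χ X ^ 2 * ‖Φ X‖ ^ 2 := fun χ => by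
    simp only [mul, norm_mul, Complex.norm_real, Real.norm_eq_abs, mul_pow, sq_abs]
  unfold f2_dens
  rw [e2]
  simp only [e3, e4, Finset.sum_add_distrib, Finset.sum_sub_distrib, ← Finset.mul_sum,
    ← Finset.sum_mul]
  ring

lemma f2_sym (u : E3 → ℝ) (i j : ι) (X : Cfg ι) :
    ∑ k, u ((X ∘ Equiv.swap i j) k) ^ 2 = ∑ k, u (X k) ^ 2 :=
  sum_swap (fun y => u y ^ 2) i j X

lemma f2_loc_g1 {u : E3 → ℝ} (hu : ContDiff ℝ ∞ u) (j : ι) :
    LocallyIntegrable fun X : Cfg ι => g1 u (X j) :=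
  ((continuous_g1 hu).comp (continuous_apply j)).locallyIntegrable

lemma f2_var {u : E3 → ℝ} (hu : ContDiff ℝ ∞ u) (h : Core Φ) {Z lam : ℝ} {N : ℕ}
    (hl : LBc Z N lam) (hN : Fintype.card ι = N) (s : ℝ) :
    2 * s * ∑ j, (ee Z lam (mulj u j Φ) - Ex Φ fun X => g1 u (X j)) ≤
      ee Z lam Φ + s ^ 2 * ee Z lam (mul (fun X => ∑ j, u (X j) ^ 2) Φ) := by
  have c1 : Core (mul (fun X => 1 - s * ∑ j, u (X j) ^ 2) Φ) :=
    h.mul (contDiff_const.sub (contDiff_const.mul (f2_cdF hu))) fun i j X => by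
      simp only [f2_sym]
  have k := sub_nonneg.2 (hl ι hN _ c1)
  change 0 ≤ ee Z lam _ at k
  have i1 : ∀ j, Integrable fun X => f2_dens Z lam (mulj u j Φ) X - g1 u (X j) * ‖Φ X‖ ^ 2 :=
    fun j => (f2_dens_int Z lam (h.sm.mulj hu j)).sub (h.sm.int (f2_loc_g1 hu j))
  have i2 := (integrable_finsetSum Finset.univ fun j _ => i1 j).const_mul (2 * s)
  have i3 := (f2_dens_int Z lam (h.sm.mul (f2_cdF hu))).const_mul (s ^ 2)
  have i4 := f2_dens_int Z lam h.sm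
  rw [← f2_dens_eq Z lam c1.sm] at k
  simp only [f2_pt_dens hu h.sm] at k
  have i5 : Integrable fun X => f2_dens Z lam Φ X -
      2 * s * ∑ j, (f2_dens Z lam (mulj u j Φ) X - g1 u (X j) * ‖Φ X‖ ^ 2) := i4.sub i2
  rw [integral_add i5 i3, integral_sub i4 i2, integral_const_mul, integral_const_mul,
    integral_finsetSum _ fun j _ => i1 j, f2_dens_eq Z lam h.sm,
    f2_dens_eq Z lam (h.sm.mul (f2_cdF hu))] at k
  have e : ∀ j, ∫ X, (f2_dens Z lam (mulj u j Φ) X - g1 u (X j) * ‖Φ X‖ ^ 2) =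
      ee Z lam (mulj u j Φ) - Ex Φ fun X => g1 u (X j) := fun j => by
    rw [integral_sub (f2_dens_int Z lam (h.sm.mulj hu j)) (h.sm.int (f2_loc_g1 hu j)),
      f2_dens_eq Z lam (h.sm.mulj hu j)]
    rfl
  simp only [e] at k
  linarith

lemma f2_pair (h1 : St_hardy) (h : Sm Φ) (i j : ι) :
    Ex Φ (fun X => ‖X i - X j‖⁻¹) ≤ Nm Φ + 4 * ∑ k, Kn Φ k := by
  have hk : 0 ≤ ∑ k, Kn Φ k := Finset.sum_nonneg fun k _ => Kn_nonneg Φ k
  by_cases hij : i = j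
  · subst hij
    simp only [sub_self, norm_zero, inv_zero, Ex_const, zero_mul]
    linarith [Nm_nonneg Φ]
  · obtain ⟨i1, i2⟩ := (h1 ι Φ h).2 i j hij
    have i3 : Kn Φ i ≤ ∑ k, Kn Φ k :=
      Finset.single_le_sum (fun k _ => Kn_nonneg Φ k) (Finset.mem_univ i)
    have i4 : Ex Φ (fun X => ‖X i - X j‖⁻¹) ≤
        ∫ X, (‖Φ X‖ ^ 2 + ‖X i - X j‖⁻¹ ^ 2 * ‖Φ X‖ ^ 2) := by
      refine integral_mono (h.int (loc_pair i j)) (h.int_sq.add i1) fun X => ?_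
      have : ‖X i - X j‖⁻¹ ≤ 1 + ‖X i - X j‖⁻¹ ^ 2 := by nlinarith [sq_nonneg (‖X i - X j‖⁻¹ - 1)]
      have := mul_le_mul_of_nonneg_right this (sq_nonneg ‖Φ X‖)
      simp only
      linarith
    rw [integral_add h.int_sq i1] at i4
    unfold Ex at i2
    unfold Nm
    linarith

lemma f2_upper (h1 : St_hardy) (h : Sm Φ) {χ : Cfg ι → ℝ} (hχ : ContDiff ℝ ∞ χ) {M M' B : ℝ}
    (hM : ∀ X, χ X ^ 2 ≤ M) (hM' : ∀ X, gsq χ X ≤ M') (hN : Nm Φ = 1) (hB : ∑ k, Kn Φ k ≤ B)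
    {Z : ℝ} (hZ : 0 ≤ Z) (lam : ℝ) : ee Z lam (mul χ Φ) ≤
      2 * M * B + 2 * M' + M * (Fintype.card ι * (Fintype.card ι * (1 + 4 * B)) + |lam|) := by
  have M0 : 0 ≤ M := (sq_nonneg _).trans (hM 0)
  have lp : LocallyIntegrable fun X : Cfg ι => ∑ i, ∑ j, ‖X i - X j‖⁻¹ :=
    loc_sum _ fun i _ => loc_sum _ fun j _ => loc_pair i j
  have ik := (integrable_finsetSum Finset.univ fun k _ => h.int_kin k).const_mul (2 * M)
  have lq : LocallyIntegrable fun X : Cfg ι => ∑ i, ∑ j, ‖X i - X j‖⁻¹ + |lam| :=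
    lp.add (locallyIntegrable_const _)
  have lg : LocallyIntegrable fun X : Cfg ι => 2 * M' + M * (∑ i, ∑ j, ‖X i - X j‖⁻¹ + |lam|) :=
    (locallyIntegrable_const _).add (loc_const_mul lq _)
  have k1 : ee Z lam (mul χ Φ) ≤ ∫ X, (2 * M * ∑ k, kin Φ k X +
      (2 * M' + M * (∑ i, ∑ j, ‖X i - X j‖⁻¹ + |lam|)) * ‖Φ X‖ ^ 2) := by
    rw [← f2_dens_eq Z lam (h.mul hχ)]
    refine integral_mono (f2_dens_int Z lam (h.mul hχ)) (ik.add (h.int lg)) fun X => ?_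
    have t1 : ∑ k, kin (mul χ Φ) k X ≤ 2 * χ X ^ 2 * ∑ k, kin Φ k X + 2 * gsq χ X * ‖Φ X‖ ^ 2 := by
      simp only [kin, gsq, Finset.mul_sum, Finset.sum_mul, ← Finset.sum_add_distrib]
      refine Finset.sum_le_sum fun k _ => Finset.sum_le_sum fun a _ => ?_
      have u1 := f2_norm_sq (χ X) (fderiv ℝ χ X (ev k a)) (fderiv ℝ Φ X (ev k a)) (Φ X)
      have u2 := f2_norm_sq (χ X) (-fderiv ℝ χ X (ev k a)) (fderiv ℝ Φ X (ev k a)) (Φ X)
      rw [f2_fderiv_mul hχ h, u1]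
      nlinarith [sq_nonneg ‖(χ X : ℂ) * fderiv ℝ Φ X (ev k a) +
        ((-fderiv ℝ χ X (ev k a) : ℝ) : ℂ) * Φ X‖]
    have t2 : ‖mul χ Φ X‖ ^ 2 = χ X ^ 2 * ‖Φ X‖ ^ 2 := by
      simp only [mul, norm_mul, Complex.norm_real, Real.norm_eq_abs, mul_pow, sq_abs]
    have p0 : 0 ≤ ∑ i, ∑ j, ‖X i - X j‖⁻¹ := by positivity
    have p1 : 0 ≤ Z * ∑ j, ‖X j‖⁻¹ := by positivity
    have t3 : VOn Z Finset.univ X - lam ≤ ∑ i, ∑ j, ‖X i - X j‖⁻¹ + |lam| := by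
      unfold VOn
      linarith [neg_abs_le lam]
    have p2 : 0 ≤ ∑ i, ∑ j, ‖X i - X j‖⁻¹ + |lam| := by positivity
    have p3 : 0 ≤ ∑ k, kin Φ k X := Finset.sum_nonneg fun k _ => kin_nonneg Φ k X
    have p4 : 0 ≤ ‖Φ X‖ ^ 2 := sq_nonneg _
    have t4 := mul_le_mul_of_nonneg_right t3 (mul_nonneg (sq_nonneg (χ X)) p4)
    have t5 := mul_le_mul_of_nonneg_right (hM X) (mul_nonneg p2 p4)
    have t6 := mul_le_mul_of_nonneg_right (hM X) p3
    have t7 := mul_le_mul_of_nonneg_right (hM' X) p4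
    simp only [f2_dens, t2]
    nlinarith
  rw [integral_add ik (h.int lg), integral_const_mul,
    integral_finsetSum _ fun k _ => h.int_kin k] at k1
  change _ ≤ 2 * M * ∑ k, Kn Φ k + Ex Φ _ at k1
  rw [Ex_add h (locallyIntegrable_const _) (loc_const_mul lq _),
    Ex_const, Ex_const_mul, Ex_add h lp (locallyIntegrable_const _), Ex_const, hN,
    Ex_sum _ h fun i _ => loc_sum _ fun j _ => loc_pair i j] at k1
  have k2 : ∑ i, Ex Φ (fun X => ∑ j, ‖X i - X j‖⁻¹) ≤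
      Fintype.card ι * (Fintype.card ι * (1 + 4 * B)) := by
    rw [← nsmul_eq_mul, ← Finset.card_univ, ← Finset.sum_const]
    refine Finset.sum_le_sum fun i _ => ?_
    rw [Ex_sum _ h fun j _ => loc_pair i j, ← nsmul_eq_mul, ← Finset.sum_const]
    refine Finset.sum_le_sum fun j _ => ?_
    linarith [f2_pair h1 h i j]
  nlinarith [mul_le_mul_of_nonneg_left k2 M0, mul_le_mul_of_nonneg_left hB M0]

lemma f2_VOn (Z : ℝ) (j : ι) (X : Cfg ι) : VOn Z Finset.univ X =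
    VOn Z (Finset.univ.erase j) X + (-Z * ‖X j‖⁻¹ + ∑ i, ‖X i - X j‖⁻¹) := by
  have e0 : ∀ f : ι → ℝ, ∑ i, f i = f j + ∑ i ∈ Finset.univ.erase j, f i := fun f =>
    (Finset.add_sum_erase _ f (Finset.mem_univ j)).symm
  unfold VOn
  simp only [e0, Finset.sum_add_distrib, sub_self, norm_zero, inv_zero, norm_sub_rev (X j)]
  ring

lemma f2_one (h3 : St_slice) (h4 : St_mono) {u : E3 → ℝ} (hu : ContDiff ℝ ∞ u) (h : Core Φ)
    {Z lam : ℝ} {N : ℕ} (hZ : 0 ≤ Z) (hl : LBc Z N lam) (hN : Fintype.card ι = N) (j : ι) :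
    Ex Φ (fun X => u (X j) ^ 2 * (-Z * ‖X j‖⁻¹ + ∑ i, ‖X i - X j‖⁻¹)) ≤ ee Z lam (mulj u j Φ) := by
  have hs := h.sm.mulj hu j
  obtain ⟨-, s2, s3⟩ := h3 ι (Finset.univ.erase j)
  have an : AntiOn (Finset.univ.erase j) (mulj u j Φ) := fun i hi k hk hik X => by
    have e : Equiv.swap i k j = j := Equiv.swap_apply_of_ne_of_ne
      (Finset.ne_of_mem_erase hi).symm (Finset.ne_of_mem_erase hk).symm
    simp only [mulj, Function.comp_apply, e,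
      h.anti i (Finset.mem_univ _) k (Finset.mem_univ _) hik X, mul_neg]
  have hl' := h4 Z lam N (Fintype.card (Finset.univ.erase j)) hZ
    (hN ▸ Fintype.card_le_of_injective _ Subtype.val_injective) hl
  have k := s3 (mulj u j Φ) (fun _ => 0) Z lam hs (locallyIntegrable_const 0)
    (Eventually.of_forall fun Y _ => by
      have := hl' _ rfl _ ((s2 _ Y hs).2.1 an)
      have e : Ex (slice (Finset.univ.erase j) Y (mulj u j Φ))
          (slice (Finset.univ.erase j) Y fun _ => (0 : ℝ)) = 0 := by simp [Ex, slice]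
      linarith)
  rw [Ex_const, zero_mul, add_zero] at k
  have lw : LocallyIntegrable fun X : Cfg ι => -Z * ‖X j‖⁻¹ + ∑ i, ‖X i - X j‖⁻¹ :=
    (loc_const_mul (loc_nuc j) _).add (loc_sum _ fun i _ => loc_pair i j)
  have e1 : Ex (mulj u j Φ) (VOn Z Finset.univ) = Ex (mulj u j Φ) (VOn Z (Finset.univ.erase j)) +
      Ex (mulj u j Φ) fun X => -Z * ‖X j‖⁻¹ + ∑ i, ‖X i - X j‖⁻¹ := by
    rw [← Ex_add hs (loc_VOn Z _) lw]
    exact Ex_congr fun X _ => f2_VOn Z j X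
  have e2 := Ex_mul Φ (fun X => u (X j)) fun X => -Z * ‖X j‖⁻¹ + ∑ i, ‖X i - X j‖⁻¹
  change Ex (mulj u j Φ) _ = _ at e2
  have e3 := Finset.add_sum_erase _ (Kn (mulj u j Φ)) (Finset.mem_univ j)
  have e4 := Kn_nonneg (mulj u j Φ) j
  unfold ee En
  unfold EnOn at k ⊢
  linarith

lemma f2_pt {u : E3 → ℝ} {a R L : ℝ} (hR : R ≤ a) (hu : ∀ y, a ≤ ‖y‖ → ‖y‖ < L → ‖y‖ ≤ u y ^ 2)
    (Z : ℝ) {X : Cfg ι} (hX : Function.Injective X) :
    Nbt a L X ^ 2 / 2 - Nbt a L X / 2 ≤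
      ∑ j, u (X j) ^ 2 * (-Z * ‖X j‖⁻¹ + ∑ i, ‖X i - X j‖⁻¹) +
        ∑ j, u (X j) ^ 2 * Vscr Z R X (X j) := by
  set e : ι → ℝ := fun j => if a ≤ ‖X j‖ ∧ ‖X j‖ < L then 1 else 0 with he
  have e0 : ∀ j, 0 ≤ e j := fun j => by simp only [he]; split_ifs <;> norm_num
  have e1 : ∀ j, e j * e j = e j := fun j => by simp only [he]; split_ifs <;> norm_num
  have k1 : ∑ j, ∑ i, e i * e j * (‖X j‖ * ‖X i - X j‖⁻¹) ≤
      ∑ j, u (X j) ^ 2 * (-Z * ‖X j‖⁻¹ + ∑ i, ‖X i - X j‖⁻¹) +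
        ∑ j, u (X j) ^ 2 * Vscr Z R X (X j) := by
    rw [← Finset.sum_add_distrib]
    refine Finset.sum_le_sum fun j _ => ?_
    have : u (X j) ^ 2 * (-Z * ‖X j‖⁻¹ + ∑ i, ‖X i - X j‖⁻¹) + u (X j) ^ 2 * Vscr Z R X (X j) =
        ∑ i, u (X j) ^ 2 * (‖X i - X j‖⁻¹ - if ‖X i‖ < R then ‖X j - X i‖⁻¹ else 0) := by
      rw [← Finset.mul_sum, Finset.sum_sub_distrib, Vscr]; ring
    rw [this]
    refine Finset.sum_le_sum fun i _ => ?_
    have p0 : 0 ≤ ‖X i - X j‖⁻¹ := by positivity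
    rw [norm_sub_rev (X j)]
    have p1 : 0 ≤ u (X j) ^ 2 * (‖X i - X j‖⁻¹ - if ‖X i‖ < R then ‖X i - X j‖⁻¹ else 0) := by
      split_ifs
      · simp
      · rw [sub_zero]; positivity
    by_cases hi : a ≤ ‖X i‖ ∧ ‖X i‖ < L
    · by_cases hj : a ≤ ‖X j‖ ∧ ‖X j‖ < L
      · simp only [he, if_pos hi, if_pos hj, if_neg (not_lt.2 (hR.trans hi.1)), one_mul, sub_zero]
        exact mul_le_mul_of_nonneg_right (hu _ hj.1 hj.2) p0
      · simpa only [he, if_neg hj, mul_zero, zero_mul] using p1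
    · simpa only [he, if_neg hi, zero_mul] using p1
  have k2 : ∑ j, ∑ i, e i * e j * (‖X j‖ * ‖X i - X j‖⁻¹) =
      ∑ j, ∑ i, e i * e j * (‖X i‖ * ‖X i - X j‖⁻¹) := by
    rw [Finset.sum_comm]
    refine Finset.sum_congr rfl fun j _ => Finset.sum_congr rfl fun i _ => ?_
    rw [norm_sub_rev (X j), mul_comm (e j)]
  have k3 : ∑ j, ∑ i, (e i * e j - if i = j then e j else 0) ≤
      ∑ j, ∑ i, e i * e j * (‖X j‖ * ‖X i - X j‖⁻¹) +
        ∑ j, ∑ i, e i * e j * (‖X i‖ * ‖X i - X j‖⁻¹) := by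
    rw [← Finset.sum_add_distrib]
    refine Finset.sum_le_sum fun j _ => ?_
    rw [← Finset.sum_add_distrib]
    refine Finset.sum_le_sum fun i _ => ?_
    split_ifs with hij
    · subst hij; simp [e1]
    · have p : 0 < ‖X i - X j‖ := norm_pos_iff.2 (sub_ne_zero.2 fun h => hij (hX h))
      have q : 1 ≤ (‖X j‖ + ‖X i‖) * ‖X i - X j‖⁻¹ := by
        rw [← div_eq_mul_inv, one_le_div p, add_comm]; exact norm_sub_le _ _
      nlinarith [mul_le_mul_of_nonneg_left q (mul_nonneg (e0 i) (e0 j))]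
  have k4 : ∑ j, ∑ i, (e i * e j - if i = j then e j else 0) = Nbt a L X ^ 2 - Nbt a L X := by
    change _ = (∑ j, e j) ^ 2 - ∑ j, e j
    simp only [Finset.sum_sub_distrib, Finset.sum_ite_eq', Finset.mem_univ, if_true,
      ← Finset.sum_mul, ← Finset.mul_sum, sq]
  linarith

lemma f2_split {a L : ℝ} (X : Cfg ι) :
    (Fintype.card ι : ℝ) ≤ Nlt a X + Nbt a L X + Nge L X := by
  unfold Nlt Nbt Nge
  rw [← Finset.sum_add_distrib, ← Finset.sum_add_distrib,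
    show (Fintype.card ι : ℝ) = ∑ _j : ι, (1 : ℝ) by simp]
  refine Finset.sum_le_sum fun j _ => ?_
  rcases lt_or_ge ‖X j‖ a with h | h
  · rw [if_pos h]; split_ifs <;> norm_num
  · rcases lt_or_ge ‖X j‖ L with h' | h'
    · rw [if_pos (show a ≤ ‖X j‖ ∧ ‖X j‖ < L from ⟨h, h'⟩)]; split_ifs <;> norm_num
    · rw [if_pos h']; split_ifs <;> norm_num

lemma f2_Nge_sq (L : ℝ) (X : Cfg ι) : Nge L X ^ 2 ≤ Fintype.card ι * Nge L X := by
  have h0 : 0 ≤ Nge L X := Finset.sum_nonneg fun _ _ => by split_ifs <;> norm_num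
  have h1 : Nge L X ≤ Fintype.card ι := by
    unfold Nge
    rw [show (Fintype.card ι : ℝ) = ∑ _j : ι, (1 : ℝ) by simp]
    exact Finset.sum_le_sum fun j _ => by split_ifs <;> norm_num
  nlinarith

lemma f2_Nge_mono {L L' : ℝ} (h : L ≤ L') (X : Cfg ι) : Nge L' X ≤ Nge L X :=
  Finset.sum_le_sum fun j _ => by
    by_cases h1 : L' ≤ ‖X j‖
    · rw [if_pos h1, if_pos (h.trans h1)]
    · rw [if_neg h1]; split_ifs <;> norm_num

lemma f2_Sw {u : E3 → ℝ} {a L : ℝ} (ha : 0 < a) (h0 : ∀ y, ‖y‖ < a → u y = 0)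
    (h1 : ∀ y, u y ^ 2 ≤ 2 * ‖y‖) (X : Cfg ι) : Sw (fun y => u y ^ 2) X ^ 2 ≤
      12 * (4 * a ^ 2 * Sge a X ^ 2 + Nbt (2 * a) L X ^ 2 + Nge L X ^ 2) := by
  have k0 : 0 ≤ Sw (fun y => u y ^ 2) X := Finset.sum_nonneg fun _ _ => by positivity
  have k1 : Sw (fun y => u y ^ 2) X ≤ 2 * (2 * a * Sge a X + Nbt (2 * a) L X + Nge L X) := by
    unfold Sw Sge Nbt Nge
    rw [Finset.mul_sum, ← Finset.sum_add_distrib, ← Finset.sum_add_distrib, Finset.mul_sum]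
    refine Finset.sum_le_sum fun j _ => ?_
    have n1 : 0 ≤ 2 * a * if a ≤ ‖X j‖ then ‖X j‖⁻¹ else 0 := by split_ifs <;> positivity
    have n2 : (0 : ℝ) ≤ if 2 * a ≤ ‖X j‖ ∧ ‖X j‖ < L then 1 else 0 := by split_ifs <;> norm_num
    have n3 : (0 : ℝ) ≤ if L ≤ ‖X j‖ then 1 else 0 := by split_ifs <;> norm_num
    rcases lt_or_ge ‖X j‖ a with h | h
    · simp only [h0 _ h]; linarith
    · have p : 0 < ‖X j‖ := lt_of_lt_of_le ha h
      have q : u (X j) ^ 2 * ‖X j‖⁻¹ ≤ 2 := by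
        rw [← div_eq_mul_inv, div_le_iff₀ p]; exact h1 _
      rcases lt_or_ge ‖X j‖ (2 * a) with h' | h'
      · have : 1 ≤ 2 * a * ‖X j‖⁻¹ := by rw [← div_eq_mul_inv, one_le_div p]; exact h'.le
        rw [if_pos h]; linarith
      · rcases lt_or_ge ‖X j‖ L with h'' | h''
        · rw [if_pos (show 2 * a ≤ ‖X j‖ ∧ ‖X j‖ < L from ⟨h', h''⟩)]; linarith
        · rw [if_pos h'']; linarith
  have k2 := pow_le_pow_left₀ k0 k1 2
  nlinarith [sq_nonneg (2 * a * Sge a X - Nbt (2 * a) L X), sq_nonneg (2 * a * Sge a X - Nge L X),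
    sq_nonneg (Nbt (2 * a) L X - Nge L X)]

lemma f2_Ex_le (h : Sm Φ) (hN : Nm Φ = 1) {G : Cfg ι → ℝ} (hG : Bd G) :
    Ex Φ G ≤ 1 / 4 * Ex Φ (fun X => G X ^ 2) + 1 := by
  have := Ex_mono h hG.loc (G' := fun X => 1 / 4 * G X ^ 2 + 1)
    (((hG.pow 2).const_mul _).add (Bd.const _)).loc fun X _ => by
      nlinarith [sq_nonneg (G X / 2 - 1)]
  rwa [Ex_add h ((hG.pow 2).const_mul _).loc (Bd.const _).loc, Ex_const_mul, Ex_const, hN,
    mul_one] at this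

lemma f2_g1_sq {u : E3 → ℝ} (hu : Differentiable ℝ u) (y : E3) :
    g1 (fun y => u y ^ 2) y ≤ 4 * (u y ^ 2 * g1 u y) := by
  have := f2_g1_mul hu hu y
  simp only [← sq] at this
  linarith

end Many

theorem st_f2 (h1 : St_hardy) (h2 : St_cut) (h3 : St_slice) (h4 : St_mono) : St_f2 := by
  obtain ⟨Cg, hCg, hph⟩ := f2_ph h2
  intro K hK K₁ hK₁ r hr C₁ hC₁
  obtain ⟨b, hb⟩ : ∃ b, b = C₁ + 1 + r⁻¹ ^ 7 := ⟨_, rfl⟩
  obtain ⟨S, hS⟩ : ∃ S, S = K / (8 * r) * b := ⟨_, rfl⟩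
  refine ⟨K * (8 * r) * b / 4 + 5 + Cg * (S / 4 + 1) + 96 * K₁ ^ 2 * r * b + 32 * r ^ 2 * S,
    fun Z E lam N hZ hE hLR hH hl hlam hB => ?_⟩
  obtain ⟨B, hB⟩ := hB
  obtain ⟨L₀, hL₀, hB⟩ := hB ((N : ℝ) + 1)⁻¹ (by positivity)
  obtain ⟨L, hL, hL'⟩ : ∃ L, L₀ ≤ L ∧ 2 * (8 * r) ≤ L :=
    ⟨max L₀ (2 * (8 * r)), le_max_left _ _, le_max_right _ _⟩
  obtain ⟨u, hu, u0, u1, u2, u3, u4⟩ := hph (8 * r) L (by positivity) hL'
  have du := hu.differentiable (by simp)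
  obtain ⟨B', hB', hup⟩ : ∃ B' ≥ 0, ∀ Φ : Cfg (Fin N) → ℂ, Sm Φ → Nm Φ = 1 → ∑ k, Kn Φ k ≤ B →
      ee Z lam (mul (fun X => ∑ j, u (X j) ^ 2) Φ) ≤ B' := by
    refine ⟨_, le_max_right _ _, fun Φ hΦ hN hk => le_trans (f2_upper h1 hΦ (f2_cdF hu)
      (M := (N * (4 * L)) ^ 2) (M' := N * (8 * Cg)) (fun X => ?_) (fun X => ?_) hN hk hZ lam)
      (le_max_left _ 0)⟩
    · refine pow_le_pow_left₀ (by positivity) ?_ 2
      simpa using Finset.sum_le_card_nsmul Finset.univ (fun j => u (X j) ^ 2) (4 * L)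
        fun j _ => u2 _
    · rw [gsq_sum (u := fun y => u y ^ 2) (du.pow 2)]
      have : ∀ y, g1 (fun y => u y ^ 2) y ≤ 8 * Cg := fun y => by
        have t1 := f2_g1_sq du y
        have t2 := u4 y
        have t3 := g1_nonneg u y
        have t4 := mul_le_mul_of_nonneg_right (u1 y) t3
        split_ifs at t2 with hy
        · have p : 0 < ‖y‖ := lt_of_lt_of_le (by positivity) hy
          rw [← div_eq_mul_inv, le_div_iff₀ p] at t2
          linarith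
        · have t5 := mul_le_mul_of_nonneg_left t2 (sq_nonneg (u y))
          linarith
      simpa using Finset.sum_le_card_nsmul Finset.univ (fun j => g1 (fun y => u y ^ 2) (X j))
        (8 * Cg) fun j _ => this _
  obtain ⟨s, hs0, hs1, hs2⟩ : ∃ s : ℝ, 0 < s ∧ s ≤ 1 ∧ s * B' ≤ 1 :=
    ⟨(B' + 1)⁻¹, by positivity, inv_le_one_of_one_le₀ (by linarith), by
      rw [inv_mul_le_iff₀ (by positivity)]; linarith⟩
  obtain ⟨Φ, hΦ, hN, hEn, hk, hge⟩ := hB s hs0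
  have hs := hΦ.sm
  have hcard := Fintype.card_fin N
  have hge' : Ex Φ (Nge L) ≤ ((N : ℝ) + 1)⁻¹ :=
    (Ex_mono hs (bd_Nge L).loc (bd_Nge L₀).loc fun X _ => f2_Nge_mono hL X).trans hge
  have hge1 : Ex Φ (Nge L) ≤ 1 :=
    hge'.trans (inv_le_one_of_one_le₀ (by linarith [Nat.cast_nonneg (α := ℝ) N]))
  have hge2 : Ex Φ (fun X => Nge L X ^ 2) ≤ 1 := by
    have t1 := Ex_mono hs ((bd_Nge L).pow 2).loc ((bd_Nge L).const_mul N).loc fun X _ => by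
      simpa using f2_Nge_sq L X
    rw [Ex_const_mul] at t1
    have t2 := mul_le_mul_of_nonneg_left hge' (Nat.cast_nonneg (α := ℝ) N)
    have t3 : (N : ℝ) * ((N : ℝ) + 1)⁻¹ ≤ 1 := by
      rw [← div_eq_mul_inv, div_le_one (by positivity)]; linarith
    linarith
  have b1 : bb Z E r Φ ≤ b := by unfold bb ee; rw [hN]; linarith
  have b8 : bb Z E (8 * r) Φ ≤ b := by
    have : (8 * r)⁻¹ ^ 7 ≤ r⁻¹ ^ 7 :=
      pow_le_pow_left₀ (by positivity) (inv_anti₀ hr (by linarith)) 7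
    unfold bb ee; rw [hN]; linarith
  have hS2 : Ex Φ (fun X => Sge (8 * r) X ^ 2) ≤ S :=
    hS ▸ (hH.2.2 _ Φ hΦ).trans (mul_le_mul_of_nonneg_left b8 (by positivity))
  have bS := bd_Sge (ι := Fin N) (R := 8 * r) (by positivity)
  have bn := bd_Nbt (ι := Fin N) (2 * (8 * r)) L
  have bu : Bd fun y => u y ^ 2 := ⟨(hu.continuous.pow 2).measurable, 4 * L, fun y => by
    rw [abs_of_nonneg (sq_nonneg _)]; exact u2 y⟩
  -- the variational inequality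
  have v1 : ∑ j, (ee Z lam (mulj u j Φ) - Ex Φ fun X => g1 u (X j)) ≤ 1 := by
    have t1 := f2_var hu hΦ hl hcard s
    have t2 : ee Z lam Φ ≤ s := by unfold ee; rw [hN]; linarith
    have t3 := mul_le_mul_of_nonneg_left (hup Φ hs hN hk) (sq_nonneg s)
    have t4 := mul_le_mul_of_nonneg_left hs2 hs0.le
    exact le_of_mul_le_mul_left (by nlinarith) (show 0 < 2 * s by positivity)
  have v2 : ∑ j, (Ex Φ fun X => g1 u (X j)) ≤ Cg * (S / 4 + 1) := by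
    rw [← Ex_sum _ hs fun j _ => f2_loc_g1 hu j]
    have t1 := Ex_mono hs (loc_sum Finset.univ fun j _ => f2_loc_g1 hu j) (bS.const_mul Cg).loc
      fun X _ => by
        unfold Sge
        rw [Finset.mul_sum]
        exact Finset.sum_le_sum fun j _ => u4 _
    rw [Ex_const_mul] at t1
    have t2 := f2_Ex_le hs hN bS
    exact t1.trans (mul_le_mul_of_nonneg_left (by linarith) hCg.le)
  have lw : ∀ j, LocallyIntegrable fun X : Cfg (Fin N) =>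
      u (X j) ^ 2 * (-Z * ‖X j‖⁻¹ + ∑ i, ‖X i - X j‖⁻¹) := fun j =>
    loc_mul_bd ((loc_const_mul (loc_nuc j) _).add (loc_sum _ fun i _ => loc_pair i j))
      (bu.comp (measurable_pi_apply j))
  have lV : LocallyIntegrable fun X : Cfg (Fin N) => ∑ j, u (X j) ^ 2 * Vscr Z (2 * r) X (X j) :=
    loc_sum _ fun j _ => loc_Vscr bu Z _ j
  have v3 : 1 / 2 * Ex Φ (fun X => Nbt (2 * (8 * r)) L X ^ 2) - 1 / 2 * Ex Φ (Nbt (2 * (8 * r)) L) ≤
      ∑ j, ee Z lam (mulj u j Φ) +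
        Ex Φ fun X => ∑ j, u (X j) ^ 2 * Vscr Z (2 * r) X (X j) := by
    have t1 := Ex_mono_ae hs (((bn.pow 2).const_mul (1 / 2)).sub (bn.const_mul (1 / 2))).loc
      (G' := fun X => ∑ j, u (X j) ^ 2 * (-Z * ‖X j‖⁻¹ + ∑ i, ‖X i - X j‖⁻¹) +
        ∑ j, u (X j) ^ 2 * Vscr Z (2 * r) X (X j))
      ((loc_sum _ fun j _ => lw j).add lV) (by
        filter_upwards [ae_inj] with X hX _
        linarith [f2_pt (R := 2 * r) (by linarith) u3 Z hX])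
    rw [Ex_sub hs ((bn.pow 2).const_mul _).loc (bn.const_mul _).loc, Ex_const_mul, Ex_const_mul,
      Ex_add hs (loc_sum _ fun j _ => lw j) lV, Ex_sum _ hs fun j _ => lw j] at t1
    have t2 := Finset.sum_le_sum fun j (_ : j ∈ Finset.univ) => f2_one h3 h4 hu hΦ hZ hl hcard j
    linarith
  have v4 : (Ex Φ fun X => ∑ j, u (X j) ^ 2 * Vscr Z (2 * r) X (X j)) ≤ 96 * K₁ ^ 2 * r * b +
      1 / 8 * (4 * (8 * r) ^ 2 * S + Ex Φ (fun X => Nbt (2 * (8 * r)) L X ^ 2) + 1) := by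
    obtain ⟨τ, hτ0, hτ⟩ : ∃ τ : ℝ, 0 < τ ∧ 96 * K₁ * r * τ = 1 :=
      ⟨(96 * K₁ * r)⁻¹, by positivity, mul_inv_cancel₀ (by positivity)⟩
    have t1 := hLR _ Φ hΦ (fun y => τ * u y ^ 2) (bu.const_mul τ) (fun y => by positivity)
      fun y hy => by simp [u0 y hy]
    have e1 : (fun X : Cfg (Fin N) => ∑ j, τ * u (X j) ^ 2 * Vscr Z (2 * r) X (X j)) =
        fun X => τ * ∑ j, u (X j) ^ 2 * Vscr Z (2 * r) X (X j) := by
      ext X; simp only [Finset.mul_sum, mul_assoc]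
    have e2 : (fun X : Cfg (Fin N) => Sw (fun y => τ * u y ^ 2) X ^ 2) =
        fun X => τ ^ 2 * Sw (fun y => u y ^ 2) X ^ 2 := by
      ext X; simp only [Sw, mul_assoc, ← Finset.mul_sum, mul_pow]
    rw [e1, e2, Ex_const_mul, Ex_const_mul] at t1
    have bw := bd_Sw (ι := Fin N) bu (R := 8 * r) (by positivity) fun y hy => by simp [u0 y hy]
    have c1 := (bS.pow 2).const_mul (4 * (8 * r) ^ 2)
    have t2 := Ex_mono hs (bw.pow 2).loc
      (((c1.add (bn.pow 2)).add ((bd_Nge L).pow 2)).const_mul 12).loc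
      fun X _ => f2_Sw (L := L) (by positivity) u0 u1 X
    rw [Ex_const_mul, Ex_add hs (c1.add (bn.pow 2)).loc ((bd_Nge L).pow 2).loc,
      Ex_add hs c1.loc (bn.pow 2).loc, Ex_const_mul] at t2
    have t3 := mul_le_mul_of_nonneg_left hS2 (show 0 ≤ 4 * (8 * r) ^ 2 by positivity)
    generalize (Ex Φ fun X => Sw (fun y => u y ^ 2) X ^ 2) = W at t1 t2
    generalize (Ex Φ fun X => ∑ j, u (X j) ^ 2 * Vscr Z (2 * r) X (X j)) = V at t1 ⊢
    generalize (Ex Φ fun X => Nbt (2 * (8 * r)) L X ^ 2) = n2 at t2 ⊢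
    have t4 : W ≤ 12 * (4 * (8 * r) ^ 2 * S + n2 + 1) := by linarith
    have t5 : τ * V ≤ K₁ * b + K₁ * r * τ ^ 2 * (12 * (4 * (8 * r) ^ 2 * S + n2 + 1)) := by
      have := mul_le_mul_of_nonneg_left t4 (show 0 ≤ K₁ * r * τ ^ 2 by positivity)
      have := mul_le_mul_of_nonneg_left b1 hK₁.le
      linarith
    refine le_of_mul_le_mul_left (t5.trans (le_of_eq ?_)) hτ0
    linear_combination (-K₁ * b + τ / 8 * (4 * (8 * r) ^ 2 * S + n2 + 1)) * hτ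
  have v5 := f2_Ex_le hs hN bn
  have bp := ((bd_Nlt (ι := Fin N) (2 * (8 * r))).sub (Bd.const Z)).max (Bd.const 0)
  have v6 := f2_Ex_le hs hN bp
  have v7 := (hH.2.1 _ Φ hΦ).trans (mul_le_mul_of_nonneg_left b8 (by positivity))
  have v8 := Ex_mono hs (Bd.const (N : ℝ)).loc
    ((((Bd.const Z).add bp).add bn).add (bd_Nge L)).loc fun X _ => by
      have := f2_split (a := 2 * (8 * r)) (L := L) X
      rw [hcard] at this
      linarith [le_max_left (Nlt (2 * (8 * r)) X - Z) 0]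
  rw [Ex_add hs (((Bd.const Z).add bp).add bn).loc (bd_Nge L).loc,
    Ex_add hs ((Bd.const Z).add bp).loc bn.loc, Ex_add hs (Bd.const Z).loc bp.loc, Ex_const,
    Ex_const, hN] at v8
  rw [Finset.sum_sub_distrib] at v1
  linarith

end Pool.Agent.Lib.ION
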