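import Pool.Agent.Lib.ION.Blue2

/-!
# Embedded eigenvalues: from the virial inequality to the bound on the particle number
-/

open MeasureTheory Set Metric Real Filter Topology
open scoped ContDiff

noncomputable section

namespace Pool.Agent.Lib.ION

open Pool.Agent.Lib.MP_689e73_mp

lemma f2K_int {N : ℕ} {u f : Cfg (Fin N) → ℝ} (hu : MemLp u 2) (hf : Bd f) :
    Integrable fun X => f X * u X ^ 2 := by
  obtain ⟨B, hB⟩ := hf.bdd
  exact hu.integrable_sq.bdd_mul hf.meas.aestronglyMeasurable (Eventually.of_forall hB)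

lemma f2K_le {N : ℕ} {u f f₁ f₂ f₃ : Cfg (Fin N) → ℝ} (hu : MemLp u 2) (hf : Bd f) (h1 : Bd f₁)
    (h2 : Bd f₂) (h3 : Bd f₃) (a b c d : ℝ)
    (h : ∀ X, f X ≤ a * f₁ X + b * f₂ X + c * f₃ X + d) :
    ∫ X, f X * u X ^ 2 ≤ a * (∫ X, f₁ X * u X ^ 2) + b * (∫ X, f₂ X * u X ^ 2) +
      c * (∫ X, f₃ X * u X ^ 2) + d * ∫ X, u X ^ 2 := by
  have i1 := (f2K_int hu h1).const_mul a
  have i2 := (f2K_int hu h2).const_mul b
  have i3 := (f2K_int hu h3).const_mul c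
  have i4 := hu.integrable_sq.const_mul d
  have i5 : Integrable fun X => a * (f₁ X * u X ^ 2) + b * (f₂ X * u X ^ 2) := i1.add i2
  have i6 : Integrable fun X => a * (f₁ X * u X ^ 2) + b * (f₂ X * u X ^ 2) +
      c * (f₃ X * u X ^ 2) := i5.add i3
  rw [← integral_const_mul, ← integral_const_mul, ← integral_const_mul, ← integral_const_mul,
    ← integral_add i1 i2, ← integral_add i5 i3, ← integral_add i6 i4]
  refine integral_mono (f2K_int hu hf) (i6.add i4) fun X => ?_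
  have := mul_le_mul_of_nonneg_right (h X) (sq_nonneg (u X))
  simp only
  linarith

lemma f2K_Nge {N : ℕ} (L : ℝ) (X : Cfg (Fin N)) : 0 ≤ Nge L X ∧ Nge L X ≤ N :=
  ⟨Finset.sum_nonneg fun _ _ => by split_ifs <;> simp,
    (Finset.sum_le_card_nsmul _ _ 1 fun j _ => by split_ifs <;> simp).trans (by simp)⟩

lemma f2K_tight {N : ℕ} {u : Cfg (Fin N) → ℝ} (hu : MemLp u 2) {ε : ℝ} (hε : 0 < ε) (R : ℝ) :
    ∃ L, R ≤ L ∧ ∫ X, Nge L X * u X ^ 2 ≤ ε := by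
  have tT : Tendsto (fun L : ℕ => ∫ X, Nge L X * u X ^ 2) atTop
      (𝓝 (∫ _ : Cfg (Fin N), (0 : ℝ))) := by
    refine tendsto_integral_of_dominated_convergence (fun X => N * u X ^ 2)
      (fun L => (f2K_int hu (bd_Nge L)).1) (hu.integrable_sq.const_mul _)
      (fun L => Eventually.of_forall fun X => ?_) (Eventually.of_forall fun X => ?_)
    · rw [Real.norm_of_nonneg (mul_nonneg (f2K_Nge _ X).1 (sq_nonneg _))]
      exact mul_le_mul_of_nonneg_right (f2K_Nge _ X).2 (sq_nonneg _)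
    · refine tendsto_const_nhds.congr' ?_
      filter_upwards [tendsto_natCast_atTop_atTop.eventually_gt_atTop ‖X‖] with L hL
      simp [Nge, fun j => not_le.2 ((norm_le_pi_norm X j).trans_lt hL)]
  obtain ⟨L, h1, h2⟩ := ((tT.eventually_lt_const (by simpa using hε)).and
    (tendsto_natCast_atTop_atTop.eventually_ge_atTop R)).exists
  exact ⟨L, h2, h1.le⟩

lemma f2K_Sw {N : ℕ} {β : E3 → ℝ} {r L : ℝ} (hr : 0 < r) (h1 : ∀ y, 0 ≤ β y ∧ β y ≤ 2 * ‖y‖)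
    (h2 : ∀ y, ‖y‖ < 8 * r → β y = 0) (X : Cfg (Fin N)) :
    0 ≤ Sw β X ∧ Sw β X ≤ 2 * (16 * r * Sge (8 * r) X + Nbt (16 * r) L X + Nge L X) := by
  refine ⟨Finset.sum_nonneg fun j _ => mul_nonneg (h1 _).1 (by positivity), ?_⟩
  unfold Sw Sge Nbt Nge
  rw [Finset.mul_sum, ← Finset.sum_add_distrib, ← Finset.sum_add_distrib, Finset.mul_sum]
  refine Finset.sum_le_sum fun j _ => ?_
  by_cases h : 8 * r ≤ ‖X j‖
  · have h0 : 0 < ‖X j‖ := lt_of_lt_of_le (by positivity) h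
    have k1 : β (X j) * ‖X j‖⁻¹ ≤ 2 := by
      rw [← div_eq_mul_inv, div_le_iff₀ h0]; exact (h1 _).2
    have k2 : 0 ≤ 16 * r * ‖X j‖⁻¹ := by positivity
    rw [if_pos h]
    by_cases h3 : 16 * r ≤ ‖X j‖
    · by_cases h4 : ‖X j‖ < L
      · rw [if_pos ⟨h3, h4⟩, if_neg (not_le.2 h4)]; linarith
      · rw [if_neg fun h => h4 h.2, if_pos (not_lt.1 h4)]; linarith
    · have k3 : 1 ≤ 16 * r * ‖X j‖⁻¹ := by
        rw [← div_eq_mul_inv, le_div_iff₀ h0]; linarith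
      rw [if_neg fun h => h3 h.1]
      split_ifs <;> linarith
  · rw [h2 _ (not_le.1 h), if_neg h]
    split_ifs <;> norm_num

lemma f2K_split {N : ℕ} {a L : ℝ} (h : a ≤ L) (X : Cfg (Fin N)) :
    (N : ℝ) = Nlt a X + Nbt a L X + Nge L X := by
  unfold Nlt Nbt Nge
  rw [← Finset.sum_add_distrib, ← Finset.sum_add_distrib,
    Finset.sum_congr rfl (g := fun _ => (1 : ℝ)) fun j _ => ?_]
  · simp
  · by_cases h1 : ‖X j‖ < a
    · simp [h1, not_le.2 h1, not_le.2 (h1.trans_le h)]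
    · by_cases h2 : ‖X j‖ < L
      · simp [h1, h2, not_lt.1 h1]
      · simp [h1, h2]

lemma f2K_half {x ρ : ℝ} (h : 0 < ρ) : x ≤ (2 * ρ)⁻¹ * x ^ 2 + ρ / 2 := by
  have : (2 * ρ)⁻¹ * x ^ 2 + ρ / 2 - x = (2 * ρ)⁻¹ * (x - ρ) ^ 2 := by field_simp; ring
  have : 0 ≤ (2 * ρ)⁻¹ * (x - ρ) ^ 2 := by positivity
  linarith

theorem st_f2K (h1 : St_vir) (h2 : St_br2) (h3 : St_kf) : St_f2K := by
  obtain ⟨Cv, hCv, hv⟩ := h1
  intro K hK K₁ hK₁
  refine ⟨2 + 8 * K + (240000 * K₁ ^ 2 + 16 * K + 2 + Cv * (K / 4 + 1)), by positivity, ?_⟩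
  intro N Z E lam r u G hZ hr hr1 hW ha h0 hL hH hE
  obtain ⟨Φ, hΦ, tE, tX⟩ := h2 N Z lam u G hW ha
  have hu := hW.hu
  set M := ∫ X, u X ^ 2 with hMd
  have hM : 0 < M := by
    refine (integral_nonneg fun X => sq_nonneg _).lt_of_ne' fun h => h0 ?_
    filter_upwards [(integral_eq_zero_iff_of_nonneg (fun X => sq_nonneg (u X))
      hu.integrable_sq).1 h] with X hX
    exact pow_eq_zero_iff (two_ne_zero) |>.1 hX
  have tN : Tendsto (fun n => Nm (Φ n)) atTop (𝓝 M) := by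
    simpa only [Ex_const, one_mul] using tX (fun _ => 1) (Bd.const 1)
  have tb : ∀ s, Tendsto (fun n => bb Z E s (Φ n)) atTop
      (𝓝 (lam * M - E * M + s⁻¹ ^ 7 * M)) := fun s =>
    (tE.sub (tN.const_mul E)).add (tN.const_mul _)
  obtain ⟨t, ht⟩ : ∃ t, t = r⁻¹ := ⟨_, rfl⟩
  have ht1 : 1 ≤ t := ht ▸ (one_le_inv₀ hr).2 hr1
  have ht0 : 0 < t := by linarith
  have hrt : r * t = 1 := ht ▸ mul_inv_cancel₀ hr.ne'
  rw [← ht] at hE ⊢
  have b1 : lam * M - E * M + r⁻¹ ^ 7 * M ≤ 2 * t ^ 7 * M := by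
    rw [← ht]; linarith [mul_le_mul_of_nonneg_right hE hM.le]
  have b8 : lam * M - E * M + (8 * r)⁻¹ ^ 7 * M ≤ 2 * t ^ 7 * M := by
    have : (8 * r)⁻¹ ^ 7 ≤ r⁻¹ ^ 7 :=
      pow_le_pow_left₀ (by positivity) (inv_anti₀ hr (by linarith)) 7
    linarith [mul_le_mul_of_nonneg_right this hM.le]
  have bp : Bd fun X : Cfg (Fin N) => max (Nlt (2 * (8 * r)) X - Z) 0 ^ 2 :=
    (((bd_Nlt _).sub (Bd.const Z)).max (Bd.const 0)).pow 2
  have bS : Bd (Sge (8 * r) : Cfg (Fin N) → ℝ) := bd_Sge (by positivity)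
  have q1 : ∫ X, max (Nlt (2 * (8 * r)) X - Z) 0 ^ 2 * u X ^ 2 ≤ 16 * K * t ^ 6 * M := by
    refine (le_of_tendsto_of_tendsto' (tX _ bp) ((tb (8 * r)).const_mul (K * (8 * r))) fun n =>
      hH.2.1 _ _ (hΦ n)).trans ((mul_le_mul_of_nonneg_left b8 (by positivity)).trans_eq ?_)
    linear_combination 16 * K * t ^ 6 * M * hrt
  have q2 : r ^ 2 * ∫ X, Sge (8 * r) X ^ 2 * u X ^ 2 ≤ K / 4 * t ^ 6 * M := by
    refine (mul_le_mul_of_nonneg_left ((le_of_tendsto_of_tendsto' (tX _ (bS.pow 2))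
      ((tb (8 * r)).const_mul (K / (8 * r))) fun n => hH.2.2 _ _ (hΦ n)).trans
      (mul_le_mul_of_nonneg_left b8 (by positivity))) (sq_nonneg r)).trans_eq ?_
    rw [show r ^ 2 * (K / (8 * r) * (2 * t ^ 7 * M)) = K / 4 * t ^ 6 * M * (r * t) by
      field_simp; ring, hrt, mul_one]
  obtain ⟨L, hL1, hL2⟩ := f2K_tight hu (ε := M / (N + 1)) (by positivity) (16 * r)
  obtain ⟨β, bβ, β1, β2, hvir⟩ := hv N Z lam r L u G hZ hW hr hL1
  have bn : Bd (Nbt (16 * r) L : Cfg (Fin N) → ℝ) := bd_Nbt _ _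
  have bg : Bd (Nge L : Cfg (Fin N) → ℝ) := bd_Nge _
  have g0 : 0 ≤ ∫ X, Nge L X * u X ^ 2 :=
    integral_nonneg fun X => mul_nonneg (f2K_Nge _ X).1 (sq_nonneg _)
  rw [le_div_iff₀ (by positivity)] at hL2
  obtain ⟨τ, hτ⟩ : ∃ τ, τ = (2400 * K₁ * r)⁻¹ := ⟨_, rfl⟩
  have hτ0 : 0 < τ := by rw [hτ]; positivity
  have hτ1 : 2400 * K₁ * r * τ = 1 := hτ ▸ mul_inv_cancel₀ (by positivity)
  have bβ' : Bd fun y => τ * β y := bβ.const_mul τ
  have β2' : ∀ y : E3, ‖y‖ < 8 * r → τ * β y = 0 := fun y hy => by rw [β2 y hy, mul_zero]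
  have bV := (h3.2 (Fin N) Z r (2 * r) β hr (by linarith) bβ β2).2
  have bV' := (h3.2 (Fin N) Z r (2 * r) _ hr (by linarith) bβ' β2').2
  have bW : Bd fun X : Cfg (Fin N) => Sw (fun y => τ * β y) X ^ 2 :=
    (bd_Sw bβ' (by positivity) β2').pow 2
  have q3 := (le_of_tendsto_of_tendsto' (tX _ bV') (((tb r).add ((tX _ bW).const_mul r)).const_mul
    K₁) fun n => hL _ _ (hΦ n) _ bβ' (fun y => mul_nonneg hτ0.le (β1 y).1) β2').trans
    (mul_le_mul_of_nonneg_left (add_le_add_left b1 _) hK₁.le)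
  have q4 := f2K_le hu bV bV' bV' bV' (2400 * K₁ * r) 0 0 0 fun X => by
    simp only [mul_assoc τ, ← Finset.mul_sum]
    rw [← mul_assoc, hτ1]
    simp
  have q5 := f2K_le hu bW (bS.pow 2) (bn.pow 2) bg (τ ^ 2 * 3072 * r ^ 2) (τ ^ 2 * 12)
    (τ ^ 2 * 12 * N) 0 fun X => by
    have e : Sw (fun y => τ * β y) X = τ * Sw β X := by
      simp only [Sw, Finset.mul_sum, mul_assoc]
    obtain ⟨s1, s2⟩ := f2K_Sw (L := L) hr β1 β2 X
    obtain ⟨s3, s4⟩ := f2K_Nge L X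
    have s5 := pow_le_pow_left₀ s1 s2 2
    have s6 : Sw β X ^ 2 ≤ 3072 * r ^ 2 * Sge (8 * r) X ^ 2 + 12 * Nbt (16 * r) L X ^ 2 +
        12 * N * Nge L X := by
      linarith [sq_nonneg (16 * r * Sge (8 * r) X - Nbt (16 * r) L X),
        sq_nonneg (16 * r * Sge (8 * r) X - Nge L X), sq_nonneg (Nbt (16 * r) L X - Nge L X),
        mul_le_mul_of_nonneg_right s4 s3]
    rw [e, mul_pow]
    linarith [mul_le_mul_of_nonneg_left s6 (sq_nonneg τ)]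
  have q6 := f2K_le hu (bn.pow 2) ((bn.pow 2).sub bn) bn bn (4 / 3) 0 0 (4 / 3) fun X => by
    linarith [sq_nonneg (Nbt (16 * r) L X - 2)]
  have t6 : 1 ≤ t ^ 6 := one_le_pow₀ ht1
  have q7 := f2K_le hu bS (bS.pow 2) bS bS (r ^ 2) 0 0 (t ^ 6) fun X => by
    have k1 : t ^ 2 ≤ t ^ 6 := pow_le_pow_right₀ ht1 (by norm_num)
    have k2 : Sge (8 * r) X = r * Sge (8 * r) X * t := by linear_combination -Sge (8 * r) X * hrt
    linarith [sq_nonneg (r * Sge (8 * r) X - t), sq_nonneg t, sq_nonneg (r * Sge (8 * r) X)]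
  have t3 : 0 < t ^ 3 := by positivity
  have q8 := f2K_le hu (Bd.const ((N : ℝ) - Z)) bp (bn.pow 2) bg (2 * t ^ 3)⁻¹ (2 * t ^ 3)⁻¹ 1
    (t ^ 3) fun X => by
    have k1 := f2K_split hL1 X
    have k2 := le_max_left (Nlt (2 * (8 * r)) X - Z) 0
    have k3 := f2K_half (x := max (Nlt (2 * (8 * r)) X - Z) 0) t3
    have k4 := f2K_half (x := Nbt (16 * r) L X) t3
    rw [show 16 * r = 2 * (8 * r) by ring] at k1 k4 ⊢
    linarith
  rw [integral_const_mul, ← hMd] at q8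
  rw [← hMd] at q4 q5 q6 q7
  generalize ∫ X, max (Nlt (2 * (8 * r)) X - Z) 0 ^ 2 * u X ^ 2 = P2 at *
  generalize ∫ X, Sge (8 * r) X ^ 2 * u X ^ 2 = S2 at *
  generalize ∫ X, Sge (8 * r) X * u X ^ 2 = S1 at *
  generalize ∫ X, (Nbt (16 * r) L X ^ 2 - Nbt (16 * r) L X) * u X ^ 2 = D at *
  generalize ∫ X, Nbt (16 * r) L X ^ 2 * u X ^ 2 = n2 at *
  generalize ∫ X, Nge L X * u X ^ 2 = g1 at *
  generalize ∫ X, Sw (fun y => τ * β y) X ^ 2 * u X ^ 2 = W at *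
  generalize ∫ X, (∑ j, τ * β (X j) * VK Z (2 * r) X (X j)) * u X ^ 2 = V' at *
  generalize ∫ X, (∑ j, β (X j) * VK Z (2 * r) X (X j)) * u X ^ 2 = V at *
  have N0 : (0 : ℝ) ≤ N := Nat.cast_nonneg N
  have m1 : M ≤ t ^ 6 * M := le_mul_of_one_le_left hM.le t6
  have m2 : W ≤ τ ^ 2 * (768 * K * t ^ 6 * M + 12 * n2 + 12 * M) := by
    have : 3072 * (r ^ 2 * S2) + 12 * n2 + 12 * (N * g1) ≤
        768 * K * t ^ 6 * M + 12 * n2 + 12 * M := by linarith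
    linarith [mul_le_mul_of_nonneg_left this (sq_nonneg τ)]
  have m3 : 50 * V ≤ 240000 * K₁ ^ 2 * t ^ 6 * M + (16 * K * t ^ 6 * M + n2 / 4 + M / 4) := by
    have a1 : V' ≤ K₁ * (2 * t ^ 7 * M +
        r * (τ ^ 2 * (768 * K * t ^ 6 * M + 12 * n2 + 12 * M))) :=
      q3.trans (by gcongr)
    have a2 := mul_le_mul_of_nonneg_left a1 (by positivity : 0 ≤ 2400 * K₁ * r)
    have a3 : 50 * (2400 * K₁ * r * (K₁ * (2 * t ^ 7 * M +
        r * (τ ^ 2 * (768 * K * t ^ 6 * M + 12 * n2 + 12 * M))))) =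
        240000 * K₁ ^ 2 * t ^ 6 * M * (r * t) +
          (2400 * K₁ * r * τ) ^ 2 * (16 * K * t ^ 6 * M + n2 / 4 + M / 4) := by ring
    rw [hrt, hτ1] at a3
    linarith
  have m4 : S1 ≤ (K / 4 + 1) * (t ^ 6 * M) := by linarith
  have m5 : n2 ≤ 2 * (240000 * K₁ ^ 2 + 16 * K + 2 + Cv * (K / 4 + 1)) * (t ^ 6 * M) := by
    have := mul_le_mul_of_nonneg_left m4 hCv.le
    linarith
  have m6 : g1 ≤ t ^ 3 * M := by
    have := le_mul_of_one_le_left hM.le (one_le_pow₀ ht1 : 1 ≤ t ^ 3)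
    linarith [mul_nonneg g0 N0]
  have i3 : 0 ≤ (2 * t ^ 3)⁻¹ := by positivity
  have m7 := mul_le_mul_of_nonneg_left q1 i3
  have m8 := mul_le_mul_of_nonneg_left m5 i3
  rw [show (2 * t ^ 3)⁻¹ * (16 * K * t ^ 6 * M) = 8 * K * t ^ 3 * M by field_simp; ring] at m7
  rw [show (2 * t ^ 3)⁻¹ * (2 * (240000 * K₁ ^ 2 + 16 * K + 2 + Cv * (K / 4 + 1)) * (t ^ 6 * M)) =
    (240000 * K₁ ^ 2 + 16 * K + 2 + Cv * (K / 4 + 1)) * t ^ 3 * M by field_simp] at m8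
  rw [← sub_le_iff_le_add']
  refine le_of_mul_le_mul_right ?_ hM
  linarith

end Pool.Agent.Lib.ION
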