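import Pool.Agent.Lib.ION.Basic

/-!
# The ionization bound for ground states: field multipliers and nets
-/

open MeasureTheory Set Metric Real Filter Topology
open scoped ContDiff ComplexConjugate

noncomputable section

namespace Pool.Agent.Lib.ION

open Pool.Agent.Lib.MP_689e73_mp

lemma fm_norm_e1 (a : Fin 3) : ‖e1 a‖ = 1 := by simp [e1]

lemma fm_cd (p : E3) {y : E3} (hy : p - y ≠ 0) :
    ContDiffAt ℝ ∞ (fun y : E3 => ‖p - y‖⁻¹) y :=
  ((contDiffAt_const.sub contDiffAt_id).norm ℝ hy).inv (norm_ne_zero_iff.2 hy)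

lemma fm_d (p : E3) {y : E3} (hy : p - y ≠ 0) (a : Fin 3) :
    |fderiv ℝ (fun y : E3 => ‖p - y‖⁻¹) y (e1 a)| ≤ ‖p - y‖⁻¹ ^ 2 := by
  have h1 : DifferentiableAt ℝ (fun y : E3 => ‖p - y‖) y :=
    ((contDiffAt_const.sub contDiffAt_id).norm ℝ hy (n := 1)).differentiableAt (by simp)
  have hn : ‖p - y‖ ≠ 0 := norm_ne_zero_iff.2 hy
  have h2 := (hasDerivAt_inv hn).comp_hasFDerivAt y h1.hasFDerivAt
  have h3 : fderiv ℝ (fun y : E3 => ‖p - y‖⁻¹) y =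
      (-(‖p - y‖ ^ 2)⁻¹) • fderiv ℝ (fun y : E3 => ‖p - y‖) y := h2.fderiv
  have hl : LipschitzWith 1 (fun y : E3 => ‖p - y‖) := by
    refine LipschitzWith.of_dist_le_mul fun x z => ?_
    rw [Real.dist_eq, NNReal.coe_one, one_mul, dist_eq_norm]
    refine (abs_norm_sub_norm_le _ _).trans (le_of_eq ?_)
    rw [sub_sub_sub_cancel_left, norm_sub_rev]
  have h4 : ‖fderiv ℝ (fun y : E3 => ‖p - y‖) y‖ ≤ 1 := by
    simpa using norm_fderiv_le_of_lipschitz ℝ hl (x₀ := y)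
  have h5 : |fderiv ℝ (fun y : E3 => ‖p - y‖) y (e1 a)| ≤ 1 := by
    have := (fderiv ℝ (fun y : E3 => ‖p - y‖) y).le_opNorm (e1 a)
    rw [fm_norm_e1, mul_one] at this
    exact this.trans h4
  rw [h3, smul_apply, smul_eq_mul, abs_mul, abs_neg,
    abs_of_nonneg (by positivity), inv_pow]
  exact mul_le_of_le_one_right (by positivity) h5

lemma fm_sq {A w k : ℝ} (hA : 0 ≤ A) (hAw : A ≤ w) (hw : w ≤ k) :
    A ^ 2 ≤ k * w ∧ (A ^ 2) ^ 2 ≤ k ^ 2 * (k * w) := by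
  have hw0 := hA.trans hAw
  have hk := hw0.trans hw
  have h1 : A ^ 2 ≤ k * w := by
    rw [sq]; exact mul_le_mul (hAw.trans hw) hAw hA hk
  refine ⟨h1, ?_⟩
  rw [sq (A ^ 2)]
  exact mul_le_mul (pow_le_pow_left₀ hA (hAw.trans hw) 2) h1 (sq_nonneg _) (sq_nonneg _)

lemma fm_alg {A B z s t d P Q : ℝ} (hA : 0 ≤ A) (hB : 0 ≤ B) (hz : z ^ 2 ≤ 1) (h1 : |s| ≤ A ^ 2)
    (h2 : |t| ≤ B ^ 2) (hA2 : A ^ 2 ≤ P) (hB2 : B ^ 2 ≤ P) (hA4 : (A ^ 2) ^ 2 ≤ Q)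
    (hB4 : (B ^ 2) ^ 2 ≤ Q) :
    (z ^ 2 * (s - t) + (A - B) * (2 * z * d)) ^ 2 ≤ 8 * Q + 16 * P * d ^ 2 := by
  have hs : s ^ 2 ≤ (A ^ 2) ^ 2 := sq_le_sq' (abs_le.1 h1).1 (abs_le.1 h1).2
  have ht : t ^ 2 ≤ (B ^ 2) ^ 2 := sq_le_sq' (abs_le.1 h2).1 (abs_le.1 h2).2
  have hst : (s - t) ^ 2 ≤ 4 * Q := by nlinarith [sq_nonneg (s + t)]
  have hAB : (A - B) ^ 2 ≤ 2 * P := by nlinarith [mul_nonneg hA hB]
  have k1 : (z ^ 2 * (s - t)) ^ 2 ≤ 4 * Q := by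
    rw [mul_pow]
    exact (mul_le_of_le_one_left (sq_nonneg _) (pow_le_one₀ (sq_nonneg z) hz)).trans hst
  have k2 : ((A - B) * (2 * z * d)) ^ 2 ≤ 2 * P * (4 * d ^ 2) := by
    rw [mul_pow]
    refine mul_le_mul hAB ?_ (sq_nonneg _) ((sq_nonneg _).trans hAB)
    have := mul_le_of_le_one_left (sq_nonneg d) hz
    calc (2 * z * d) ^ 2 = 4 * (z ^ 2 * d ^ 2) := by ring
      _ ≤ 4 * d ^ 2 := by linarith
  generalize z ^ 2 * (s - t) = u at *
  generalize (A - B) * (2 * z * d) = v at *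
  nlinarith [sq_nonneg (u - v)]

theorem st_fm : St_fm := by
  intro Cc hCc
  refine ⟨16 * Cc + 24, by positivity, fun b b₀ h η ζ p hc hh hp hb => ?_⟩
  have hhb : h ≤ b := by linarith [norm_nonneg p]
  have hb0 : 0 < b := hh.trans_le hhb
  have e0 : (fun y : E3 => ζ y ^ 2 * (‖p - y‖⁻¹ - ‖y‖⁻¹)) =
      fun y : E3 => ζ y ^ 2 * (‖p - y‖⁻¹ - ‖(0 : E3) - y‖⁻¹) := by simp
  have hz : ∀ y : E3, ‖y‖ < b →
      (fun y : E3 => ζ y ^ 2 * (‖p - y‖⁻¹ - ‖(0 : E3) - y‖⁻¹)) =ᶠ[𝓝 y] fun _ => 0 := by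
    intro y hy
    have : ∀ᶠ z in 𝓝 y, ‖z‖ < b := (isOpen_lt continuous_norm continuous_const).mem_nhds hy
    filter_upwards [this] with z hz
    simp [hc.inn z hz.le]
  have hpy : ∀ y : E3, b ≤ ‖y‖ → h * ‖y‖ / b ≤ ‖p - y‖ := by
    intro y hy
    have h1 : ‖y‖ - ‖p‖ ≤ ‖p - y‖ := by
      rw [norm_sub_rev]; exact norm_sub_norm_le y p
    rw [div_le_iff₀ hb0]
    nlinarith [mul_nonneg (sub_nonneg.2 hy) (sub_nonneg.2 hhb)]
  have hpos : ∀ y : E3, b ≤ ‖y‖ → 0 < h * ‖y‖ / b := fun y hy =>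
    div_pos (mul_pos hh (hb0.trans_le hy)) hb0
  have hne : ∀ y : E3, b ≤ ‖y‖ → p - y ≠ 0 := fun y hy =>
    norm_pos_iff.1 ((hpos y hy).trans_le (hpy y hy))
  have hne0 : ∀ y : E3, b ≤ ‖y‖ → (0 : E3) - y ≠ 0 := fun y hy =>
    norm_pos_iff.1 (by simpa using hb0.trans_le hy)
  rw [e0]
  refine ⟨contDiff_iff_contDiffAt.2 fun y => ?_, fun y => ?_⟩
  · rcases lt_or_ge ‖y‖ b with hy | hy
    · exact contDiffAt_const.congr_of_eventuallyEq (hz y hy)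
    · exact (hc.sζ.contDiffAt.pow 2).mul ((fm_cd p (hne y hy)).sub (fm_cd 0 (hne0 y hy)))
  rcases lt_or_ge ‖y‖ b with hy | hy
  · rw [if_neg (not_le.2 hy), g1, (hz y hy).fderiv_eq]
    simp
  rw [if_pos hy]
  have hy0 : 0 < ‖y‖ := hb0.trans_le hy
  have dζ : DifferentiableAt ℝ ζ y := hc.sζ.contDiffAt.differentiableAt (by simp)
  have dA := (fm_cd p (hne y hy)).differentiableAt (by simp)
  have dB := (fm_cd 0 (hne0 y hy)).differentiableAt (by simp)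
  have hD := ((dζ.hasFDerivAt.pow 2).fun_mul (dA.hasFDerivAt.fun_sub dB.hasFDerivAt)).fderiv
  obtain ⟨w, hw⟩ : ∃ w, w = b / h * ‖y‖⁻¹ := ⟨_, rfl⟩
  have hw0 : 0 ≤ w := by rw [hw]; positivity
  have hAw : ‖p - y‖⁻¹ ≤ w := by
    refine (inv_anti₀ (hpos y hy) (hpy y hy)).trans (le_of_eq ?_)
    rw [hw]; field_simp
  have hBw : ‖(0 : E3) - y‖⁻¹ ≤ w := by
    rw [hw, zero_sub, norm_neg]
    exact le_mul_of_one_le_left (by positivity) ((one_le_div hh).2 hhb)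
  have hwh : w ≤ h⁻¹ := by
    rw [hw, div_mul_eq_mul_div, div_le_iff₀ hh, inv_mul_cancel₀ hh.ne', mul_inv_le_iff₀ hy0]
    linarith
  have hA := fm_sq (by positivity) hAw hwh
  have hB := fm_sq (by positivity) hBw hwh
  have hζ1 : ζ y ^ 2 ≤ 1 := by linarith [hc.sq y, sq_nonneg (η y)]
  have hg : g1 ζ y ≤ Cc * h⁻¹ ^ 2 := by
    have h1 := hc.grad y
    have h2 := g1_nonneg η y
    have h3 : Cc / (b₀ - b) ^ 2 ≤ Cc * h⁻¹ ^ 2 := by
      rw [inv_pow, ← div_eq_mul_inv]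
      exact div_le_div_of_nonneg_left hCc.le (by positivity)
        (pow_le_pow_left₀ hh.le (by linarith) 2)
    have h4 : 0 ≤ Cc * h⁻¹ ^ 2 := by positivity
    split_ifs at h1 <;> linarith
  have key : ∀ a : Fin 3, fderiv ℝ
      (fun y : E3 => ζ y ^ 2 * (‖p - y‖⁻¹ - ‖(0 : E3) - y‖⁻¹)) y (e1 a) ^ 2 ≤
      8 * (h⁻¹ ^ 2 * (h⁻¹ * w)) + 16 * (h⁻¹ * w) * fderiv ℝ ζ y (e1 a) ^ 2 := by
    intro a
    refine le_of_eq_of_le ?_ (fm_alg (by positivity) (by positivity) hζ1 (fm_d p (hne y hy) a)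
      (fm_d 0 (hne0 y hy) a) hA.1 hB.1 hA.2 hB.2)
    rw [hD]
    simp only [add_apply, smul_apply, sub_apply, smul_eq_mul, nsmul_eq_mul, Nat.cast_ofNat,
      Nat.add_one_sub_one, pow_one]
  have hsum := Finset.sum_le_sum fun a (_ : a ∈ Finset.univ) => key a
  rw [Finset.sum_add_distrib, Finset.sum_const, ← Finset.mul_sum, Finset.card_univ,
    Fintype.card_fin] at hsum
  have hfin := mul_le_mul_of_nonneg_left hg (by positivity : 0 ≤ 16 * (h⁻¹ * w))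
  have e2 : (16 * Cc + 24) * b / h ^ 4 * ‖y‖⁻¹ =
      3 * (8 * (h⁻¹ ^ 2 * (h⁻¹ * w))) + 16 * (h⁻¹ * w) * (Cc * h⁻¹ ^ 2) := by
    rw [hw]; field_simp; ring
  rw [e2]
  simp only [nsmul_eq_mul, Nat.cast_ofNat] at hsum
  exact hsum.trans (add_le_add le_rfl hfin)

lemma fm_trunc (t : ℝ) : ∃ n : ℤ, |(n : ℝ)| ≤ |t| ∧ |t - n| ≤ 1 := by
  rcases le_total 0 t with h | h
  · have h1 := Int.floor_le t
    have h2 := Int.lt_floor_add_one t
    have h3 : (0 : ℝ) ≤ ⌊t⌋ := by exact_mod_cast Int.floor_nonneg.2 h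
    refine ⟨⌊t⌋, ?_, abs_le.2 ⟨by linarith, by linarith⟩⟩
    rwa [abs_of_nonneg h3, abs_of_nonneg h]
  · have h1 := Int.le_ceil t
    have h2 := Int.ceil_lt_add_one t
    have h3 : (⌈t⌉ : ℝ) ≤ 0 := by exact_mod_cast Int.ceil_nonpos.2 h
    refine ⟨⌈t⌉, ?_, abs_le.2 ⟨by linarith, by linarith⟩⟩
    rw [abs_of_nonpos h3, abs_of_nonpos h]
    linarith

theorem st_net : St_net := by
  refine ⟨125, by norm_num, fun a κ hκ ha => ?_⟩
  have ha0 : 0 < a := hκ.trans_le ha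
  set N : ℕ := ⌊2 * a / κ⌋₊ with hN
  set S : Finset (Fin 3 → ℤ) := Fintype.piFinset fun _ => Finset.Icc (-(N : ℤ)) N with hS
  let g : (Fin 3 → ℤ) → E3 := fun n => WithLp.toLp 2 fun i => κ / 2 * n i
  refine ⟨S.card, fun α => if ‖g (S.equivFin.symm α)‖ ≤ a then g (S.equivFin.symm α) else 0,
    ?_, fun α => ?_, fun x hx => ?_⟩
  · have h1 : S.card = (2 * N + 1) ^ 3 := by
      rw [hS, Fintype.card_piFinset, Finset.prod_const, Int.card_Icc, Finset.card_univ,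
        Fintype.card_fin]
      congr 1
      omega
    have h2 : (N : ℝ) ≤ 2 * a / κ := Nat.floor_le (by positivity)
    have h3 : 1 ≤ a / κ := (one_le_div hκ).2 ha
    rw [mul_div_assoc] at h2
    rw [h1]
    push_cast
    calc (2 * (N : ℝ) + 1) ^ 3 ≤ (5 * (a / κ)) ^ 3 :=
          pow_le_pow_left₀ (by positivity) (by linarith) 3
      _ = 125 * (a / κ) ^ 3 := by ring
  · dsimp only
    split_ifs with h
    · exact h
    · simpa using ha0.le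
  · choose n hn hn' using fun i => fm_trunc (2 * x i / κ)
    have h1 : ∀ i, |κ / 2 * n i| ≤ |x i| := fun i => by
      have := hn i
      rw [abs_div, abs_mul, abs_of_pos hκ, abs_two, le_div_iff₀ hκ] at this
      rw [abs_mul, abs_of_pos (half_pos hκ)]
      linarith
    have h2 : ∀ i, |x i - κ / 2 * n i| ≤ κ / 2 := fun i => by
      have e : x i - κ / 2 * n i = κ / 2 * (2 * x i / κ - n i) := by field_simp
      rw [e, abs_mul, abs_of_pos (half_pos hκ)]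
      exact mul_le_of_le_one_right (half_pos hκ).le (hn' i)
    have h3 : n ∈ S := by
      rw [hS, Fintype.mem_piFinset]
      intro i
      have h4 : |x i| ≤ a := by simpa using (PiLp.norm_apply_le x i).trans hx
      have h5 : ((n i).natAbs : ℝ) ≤ 2 * a / κ := by
        rw [Nat.cast_natAbs, Int.cast_abs]
        refine (hn i).trans ?_
        rw [abs_div, abs_mul, abs_of_pos hκ, abs_two]
        gcongr
      have h6 : (n i).natAbs ≤ N := Nat.le_floor h5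
      rw [Finset.mem_Icc]
      omega
    have h4 : ‖g n‖ ≤ a := by
      refine le_trans ?_ hx
      rw [EuclideanSpace.norm_eq, EuclideanSpace.norm_eq]
      refine Real.sqrt_le_sqrt (Finset.sum_le_sum fun i _ => ?_)
      exact pow_le_pow_left₀ (norm_nonneg _) (h1 i) 2
    refine ⟨S.equivFin ⟨n, h3⟩, ?_⟩
    simp only [Equiv.symm_apply_apply, if_pos h4]
    rw [EuclideanSpace.norm_eq]
    refine Real.sqrt_le_iff.2 ⟨hκ.le, ?_⟩
    have h5 : ∀ i, ‖(x - g n) i‖ ^ 2 ≤ (κ / 2) ^ 2 := fun i =>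
      pow_le_pow_left₀ (norm_nonneg _) (h2 i) 2
    refine (Finset.sum_le_sum fun i _ => h5 i).trans ?_
    simp only [Finset.sum_const, Finset.card_univ, Fintype.card_fin, nsmul_eq_mul]
    push_cast
    nlinarith [sq_nonneg κ]

end Pool.Agent.Lib.ION
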