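import Pool.Agent.Lib.ION.Basic

/-!
# Block FRAME: orthogonalisation of a finite family with frame bound one
-/

open MeasureTheory Set Metric Real Filter Topology
open scoped ContDiff ComplexConjugate

noncomputable section

namespace Pool.Agent.Lib.ION

open Pool.Agent.Lib.MP_689e73_mp

lemma frame_sq (z : ℂ) : ((‖z‖ ^ 2 : ℝ) : ℂ) = conj z * z := by
  rw [Complex.conj_mul']
  push_cast
  rfl

lemma frame_diag {m : ℕ} (G : Matrix (Fin m) (Fin m) ℂ) (hG : G.IsHermitian) :
    ∃ U : Matrix (Fin m) (Fin m) ℂ, star U * U = 1 ∧ U * star U = 1 ∧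
      ∀ i j, i ≠ j → (star U * G * U) i j = 0 := by
  refine ⟨hG.eigenvectorUnitary, hG.eigenvectorUnitary.2.1, hG.eigenvectorUnitary.2.2,
    fun i j hij => ?_⟩
  have h := hG.conjStarAlgAut_star_eigenvectorUnitary
  rw [Unitary.conjStarAlgAut_star_apply] at h
  rw [h, Matrix.diagonal_apply_ne _ hij]

lemma frame_norm {m : ℕ} (U : Matrix (Fin m) (Fin m) ℂ) (hU : U * star U = 1) (v : Fin m → ℂ) :
    ∑ i, ‖∑ k, U k i * v k‖ ^ 2 = ∑ i, ‖v i‖ ^ 2 := by
  have h : ∀ l k, ∑ i, U l i * conj (U k i) = if l = k then 1 else 0 := by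
    intro l k
    have := congrFun (congrFun hU l) k
    simpa only [Matrix.mul_apply, Matrix.star_apply, Matrix.one_apply, RCLike.star_def] using this
  apply Complex.ofReal_injective
  simp only [Complex.ofReal_sum, frame_sq, map_sum, map_mul]
  calc ∑ i, (∑ k, conj (U k i) * conj (v k)) * ∑ l, U l i * v l
      = ∑ i, ∑ k, ∑ l, conj (v k) * v l * (U l i * conj (U k i)) := by
        refine Finset.sum_congr rfl fun i _ => ?_
        rw [Finset.sum_mul_sum]
        exact Finset.sum_congr rfl fun k _ => Finset.sum_congr rfl fun l _ => by ring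
    _ = ∑ k, ∑ l, conj (v k) * v l * ∑ i, U l i * conj (U k i) := by
        rw [Finset.sum_comm]
        refine Finset.sum_congr rfl fun k _ => ?_
        rw [Finset.sum_comm]
        exact Finset.sum_congr rfl fun l _ => by rw [Finset.mul_sum]
    _ = ∑ k, conj (v k) * v k := by
        refine Finset.sum_congr rfl fun k _ => ?_
        simp [h]

lemma frame_col {m : ℕ} (U : Matrix (Fin m) (Fin m) ℂ) (hU : star U * U = 1) (i : Fin m) :
    ∑ k, ‖U k i‖ ^ 2 = 1 := by
  apply Complex.ofReal_injective
  have := congrFun (congrFun hU i) i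
  simpa only [Complex.ofReal_sum, frame_sq, Matrix.mul_apply, Matrix.star_apply,
    Matrix.one_apply_eq, RCLike.star_def, Complex.ofReal_one] using this

lemma frame_int {u v : E3 → ℂ} (hu : Sm u) (hv : Sm v) :
    Integrable fun y => conj (u y) * v y :=
  ((Complex.continuous_conj.comp hu.smooth.continuous).mul
    hv.smooth.continuous).integrable_of_hasCompactSupport hv.cpt.mul_left

theorem st_frame : St_frame := by
  intro m f hf hb
  let G : Matrix (Fin m) (Fin m) ℂ := fun i j => ∫ y, conj (f i y) * f j y
  have hG : G.IsHermitian := by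
    ext i j
    simp only [G, Matrix.conjTranspose_apply, RCLike.star_def]
    rw [← integral_conj]
    congr 1
    ext y
    simp only [map_mul, Complex.conj_conj, mul_comm]
  obtain ⟨U, h1, h2, h3⟩ := frame_diag G hG
  refine ⟨fun i y => ∑ k, U k i * f k y, fun i => ⟨?_, ?_⟩, fun i j hij => ?_, fun i => ?_,
    fun y => frame_norm U h2 _, fun y => ?_⟩
  · exact ContDiff.sum fun k _ => contDiff_const.mul (hf k).smooth
  · have : (fun y => ∑ k, U k i * f k y) = ∑ k, fun y => U k i * f k y := by
      ext y
      simp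
    change HasCompactSupport fun y => ∑ k, U k i * f k y
    rw [this]
    exact HasCompactSupport.finset_sum fun k _ => (hf k).cpt.mul_left
  · rw [← h3 i j hij]
    have e : ∀ y, conj (∑ k, U k i * f k y) * ∑ l, U l j * f l y =
        ∑ l, ∑ k, conj (U k i) * (conj (f k y) * f l y) * U l j := by
      intro y
      rw [map_sum, Finset.sum_mul_sum, Finset.sum_comm]
      refine Finset.sum_congr rfl fun l _ => Finset.sum_congr rfl fun k _ => ?_
      rw [map_mul]
      ring
    simp only [e]
    rw [integral_finsetSum _ fun l _ => integrable_finsetSum _ fun k _ =>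
      ((frame_int (hf k) (hf l)).const_mul _).mul_const _]
    simp only [Matrix.mul_apply, Matrix.star_apply, RCLike.star_def, Finset.sum_mul]
    refine Finset.sum_congr rfl fun l _ => ?_
    rw [integral_finsetSum _ fun k _ => ((frame_int (hf k) (hf l)).const_mul _).mul_const _]
    refine Finset.sum_congr rfl fun k _ => ?_
    rw [integral_mul_const, integral_const_mul]
  · exact (hb fun k => U k i).trans (frame_col U h1 i).le
  · unfold k1
    rw [Finset.sum_comm, Finset.sum_comm (f := fun i a => ‖fderiv ℝ (f i) y (e1 a)‖ ^ 2)]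
    refine Finset.sum_congr rfl fun a _ => ?_
    rw [← frame_norm U h2 fun k => fderiv ℝ (f k) y (e1 a)]
    refine Finset.sum_congr rfl fun i _ => ?_
    have hd : ∀ k, HasFDerivAt (fun y => U k i * f k y) (U k i • fderiv ℝ (f k) y) y := fun k =>
      (((hf k).smooth.differentiable (by simp)) y).hasFDerivAt.const_mul _
    rw [(HasFDerivAt.fun_sum fun k _ => hd k).fderiv]
    simp only [_root_.sum_apply, _root_.smul_apply, smul_eq_mul]

end Pool.Agent.Lib.ION
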