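import Pool.Agent.Lib.ION.Basic

/-!
# The ionization bound for ground states: the second moment of the excess charge
-/

open MeasureTheory Set Metric Real Filter Topology
open scoped ContDiff

noncomputable section

namespace Pool.Agent.Lib.ION

open Pool.Agent.Lib.MP_689e73_mp

lemma h2_g1 {η : E3 → ℝ} (hη : ContDiff ℝ ∞ η) (y : E3) :
    g1 (fun y => η y ^ 2) y = 4 * η y ^ 2 * g1 η y := by
  have h := (hη.differentiable (by simp) y).hasFDerivAt
  simp only [g1, (h.pow 2).fderiv, Finset.mul_sum]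
  refine Finset.sum_congr rfl fun a _ => ?_
  simp
  ring

lemma h2_grad {C R : ℝ} {η ζ : E3 → ℝ} (h : Cut C (2 * R) (4 * R) η ζ) (hC : 0 < C) (hR : 0 < R)
    (y : E3) : g1 (fun y => η y ^ 2) y ≤ 4 * C / R * if R ≤ ‖y‖ then ‖y‖⁻¹ else 0 := by
  have a := h.grad y
  have b := g1_nonneg η y
  have c := g1_nonneg ζ y
  have d : η y ^ 2 ≤ 1 := by nlinarith [h.sq y, sq_nonneg (ζ y)]
  rw [h2_g1 h.sη]
  refine le_trans (show _ ≤ 4 * g1 η y by nlinarith) ?_
  split_ifs at a with h1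
  · have e : 4 * (C / (4 * R - 2 * R) ^ 2) = 4 * C / R * (4 * R)⁻¹ := by
      rw [show 4 * R - 2 * R = 2 * R by ring]; field_simp; norm_num
    have f : 4 * C / R * (4 * R)⁻¹ ≤ 4 * C / R * ‖y‖⁻¹ :=
      mul_le_mul_of_nonneg_left (inv_anti₀ (by linarith [h1.1]) h1.2) (by positivity)
    rw [if_pos (by linarith [h1.1])]
    linarith
  · exact le_trans (by linarith) (mul_nonneg (by positivity) (by split_ifs <;> positivity))

theorem st_h2 (h1 : St_ims) (h2 : St_meas) (h3 : St_cut) : St_h2 := by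
  intro c c0 M₀ M0
  obtain ⟨Cm, Cm0, hm⟩ := h2
  obtain ⟨Cc, Cc0, hc⟩ := h3
  refine ⟨2 * ((1 + 2 / M₀) ^ 2 / c) + (M₀ + 2) ^ 2, by positivity, fun K K0 =>
    ⟨min 1 (2 * Cm * Cc * (K + 1))⁻¹, by positivity, fun Z E R R0 RD hE hK h3 ι _ _ Φ hΦ => ?_⟩⟩
  have R1 : R ≤ 1 := RD.trans (min_le_left _ _)
  have R2 : 2 * Cm * Cc * (K + 1) * R ≤ 1 := by
    have := RD.trans (min_le_right _ _)
    rwa [← one_div, le_div_iff₀' (by positivity)] at this
  obtain ⟨η, ζ, hη⟩ := hc (2 * R) (4 * R) (by positivity) (by linarith)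
  set w := R⁻¹ ^ 3 with hw
  have w0 : 0 < w := by positivity
  obtain ⟨m, χ, cc, hχ, hp⟩ := hm w w0 (Fintype.card ι)
  have su : ContDiff ℝ ∞ fun y => η y ^ 2 := hη.sη.pow 2
  set F : Cfg ι → ℝ := fun X => ∑ j, η (X j) ^ 2 with hF
  have sF : ContDiff ℝ ∞ F := ContDiff.sum fun j _ => su.comp (contDiff_apply ℝ E3 j)
  have P := hp ι F sF
  have gF : ∀ X, gsq F X = ∑ j, g1 (fun y => η y ^ 2) (X j) :=
    gsq_sum (u := fun y => η y ^ 2) (su.differentiable (by simp))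
  have lI : LocallyIntegrable fun X => Cm / w ^ 2 * gsq F X := by
    have := continuous_g1 su
    simp only [gF]
    exact Continuous.locallyIntegrable (by fun_prop)
  have η1 : ∀ y, η y ^ 2 ≤ 1 := fun y => by nlinarith [hη.sq y, sq_nonneg (ζ y)]
  have F1 : ∀ X, Nlt (2 * R) X ≤ F X := fun X => Finset.sum_le_sum fun j _ => by
    split_ifs with a
    · have := hη.sq (X j)
      rw [hη.inn _ a.le] at this
      linarith
    · positivity
  have F2 : ∀ X, F X ≤ Nlt (4 * R) X := fun X => Finset.sum_le_sum fun j _ => by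
    split_ifs with a
    · exact η1 _
    · rw [hη.out _ (not_lt.1 a)]; norm_num
  have F3 : ∀ X, |F X| ≤ Fintype.card ι := fun X => by
    rw [abs_of_nonneg (Finset.sum_nonneg fun _ _ => sq_nonneg _)]
    simpa using Finset.sum_le_card_nsmul Finset.univ _ 1 fun j _ => η1 (X j)
  have co : ∀ o, Core (mul (fun X => χ o (F X)) Φ) := fun o => hΦ.mul (P.sm o) fun i j X => by
    simp only [hF, sum_swap (fun y => η y ^ 2) i j X]
  have bG : Bd fun X : Cfg ι => max (Nlt (2 * R) X - Z) 0 ^ 2 :=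
    (((bd_Nlt _).sub (Bd.const Z)).max (Bd.const 0)).pow 2
  have e0 := hE.ee_nonneg hΦ
  have N0 := Nm_nonneg Φ
  have hb : bb Z E R Φ = ee Z E Φ + R⁻¹ ^ 7 * Nm Φ := rfl
  have N1 : 0 ≤ R⁻¹ ^ 7 * Nm Φ := by positivity
  have piece : ∀ o, Ex (mul (fun X => χ o (F X)) Φ) (fun X => max (Nlt (2 * R) X - Z) 0 ^ 2) ≤
      (1 + 2 / M₀) ^ 2 / c * R * ee Z E (mul (fun X => χ o (F X)) Φ) +
        ((M₀ + 2) * w) ^ 2 * Nm (mul (fun X => χ o (F X)) Φ) := fun o => by
    have sp : ∀ X, mul (fun X => χ o (F X)) Φ X ≠ 0 → |F X - cc o| ≤ w := fun X hX =>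
      hχ o _ (F3 X) fun a => hX (by simp [mul, a])
    have a1 := hE.ee_nonneg (co o)
    have a2 := Nm_nonneg (mul (fun X => χ o (F X)) Φ)
    have key : ∀ T, 0 ≤ T → cc o + w - Z ≤ T → Ex (mul (fun X => χ o (F X)) Φ)
        (fun X => max (Nlt (2 * R) X - Z) 0 ^ 2) ≤ T ^ 2 * Nm (mul (fun X => χ o (F X)) Φ) :=
      fun T T0 hT => by
        rw [← Ex_const]
        exact Ex_mono (co o).sm bG.loc (locallyIntegrable_const _) fun X hX =>
          pow_le_pow_left₀ (le_max_right _ _)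
            (max_le (by linarith [F1 X, (abs_le.1 (sp X hX)).2]) T0) 2
    rcases le_total (M₀ * w) (cc o - w - Z) with a | a
    · have k := hK ι _ (co o) _ a fun X hX => by linarith [F2 X, (abs_le.1 (sp X hX)).1]
      have p : 0 < M₀ * w := by positivity
      have l : 2 * w ≤ 2 / M₀ * (cc o - w - Z) := by
        rw [div_mul_eq_mul_div, le_div_iff₀ M0]; linarith
      refine (key ((1 + 2 / M₀) * (cc o - w - Z)) (by nlinarith) (by linarith)).trans
        (le_add_of_le_of_nonneg ?_ (by positivity))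
      refine le_trans (le_of_eq ?_) (mul_le_mul_of_nonneg_left k (by positivity))
      field_simp
    · exact (key ((M₀ + 2) * w) (by positivity) (by linarith)).trans
        (le_add_of_nonneg_left (by positivity))
  have cost : Ex Φ (fun X => Cm / w ^ 2 * gsq F X) ≤ bb Z E R Φ := by
    have bS := (bd_Sge (ι := ι) R0).pow 2
    have a := Ex_mono hΦ.sm lI ((bS.const_mul (2 * Cm * Cc * R ^ 9)).add
      (Bd.const (2 * Cm * Cc * R))).loc fun X _ => by
        have u : gsq F X ≤ 4 * Cc / R * Sge R X := by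
          rw [gF, Sge, Finset.mul_sum]
          exact Finset.sum_le_sum fun j _ => h2_grad hη Cc0 R0 _
        refine (mul_le_mul_of_nonneg_left u (by positivity)).trans ?_
        rw [show Cm / w ^ 2 * (4 * Cc / R * Sge R X) = 2 * Cm * Cc * R * (2 * (R ^ 4 * Sge R X)) by
          rw [hw]; field_simp; ring, show 2 * Cm * Cc * R ^ 9 * Sge R X ^ 2 + 2 * Cm * Cc * R =
          2 * Cm * Cc * R * ((R ^ 4 * Sge R X) ^ 2 + 1) by ring]
        exact mul_le_mul_of_nonneg_left (by nlinarith [sq_nonneg (R ^ 4 * Sge R X - 1)])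
          (by positivity)
    rw [Ex_add hΦ.sm (bS.const_mul _).loc (locallyIntegrable_const _),
      Ex_const_mul Φ fun X => Sge R X ^ 2, Ex_const] at a
    have b := mul_le_mul_of_nonneg_left (h3 ι Φ hΦ) (show 0 ≤ 2 * Cm * Cc * R ^ 9 by positivity)
    have d : 2 * Cm * Cc * R * Nm Φ ≤ 2 * Cm * Cc * R ^ 8 * bb Z E R Φ := by
      rw [show 2 * Cm * Cc * R * Nm Φ = 2 * Cm * Cc * R ^ 8 * (R⁻¹ ^ 7 * Nm Φ) by field_simp]
      exact mul_le_mul_of_nonneg_left (by linarith) (by positivity)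
    have f : 2 * Cm * Cc * (K + 1) * R ^ 8 ≤ 1 :=
      le_trans (mul_le_mul_of_nonneg_left (pow_le_of_le_one R0.le R1 (by norm_num))
        (by positivity)) R2
    rw [show 2 * Cm * Cc * R ^ 9 * (K / R * bb Z E R Φ) = 2 * Cm * Cc * K * R ^ 8 * bb Z E R Φ by
      field_simp] at b
    nlinarith [mul_le_mul_of_nonneg_right f (show 0 ≤ bb Z E R Φ by linarith)]
  have tot : ∑ o, ee Z E (mul (fun X => χ o (F X)) Φ) ≤ 2 * bb Z E R Φ := by
    have := h1 ι _ _ _ Φ Z P hΦ.sm lI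
    simp only [ee, Finset.sum_sub_distrib, ← Finset.mul_sum, P.sum_Nm hΦ.sm] at hb ⊢
    linarith [cost]
  rw [← P.sum_Ex hΦ.sm bG.loc]
  refine (Finset.sum_le_sum fun o _ => piece o).trans ?_
  rw [Finset.sum_add_distrib, ← Finset.mul_sum, ← Finset.mul_sum, P.sum_Nm hΦ.sm,
    show ((M₀ + 2) * w) ^ 2 * Nm Φ = (M₀ + 2) ^ 2 * R * (R⁻¹ ^ 7 * Nm Φ) by rw [hw]; field_simp]
  have x1 := mul_le_mul_of_nonneg_left tot (show 0 ≤ (1 + 2 / M₀) ^ 2 / c * R by positivity)
  have x2 := mul_le_mul_of_nonneg_left (show R⁻¹ ^ 7 * Nm Φ ≤ bb Z E R Φ by linarith)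
    (show 0 ≤ (M₀ + 2) ^ 2 * R by positivity)
  linarith

end Pool.Agent.Lib.ION
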