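import Pool.Agent.Lib.ION.Basic
import Pool.Agent.Lib.MP_6c3a95_mp.Fields

/-!
# The Hardy inequality on configuration space, relabelling, the best lower bound
-/

open MeasureTheory Set Metric Real Filter Topology
open scoped ContDiff ComplexConjugate

noncomputable section

namespace Pool.Agent.Lib.ION

open Pool.Agent.Lib.MP_689e73_mp

section

variable {ι : Type} [Fintype ι] [DecidableEq ι]

lemma hardy_real (L : Cfg ι →L[ℝ] E3) (j : ι) (hL : ∀ a, L (ev j a) = e1 a) {u : Cfg ι → ℝ}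
    (hu : MP_6c3a95_mp.Test u) : Integrable (fun X => ‖L X‖⁻¹ ^ 2 * u X ^ 2) ∧
      ∫ X, ‖L X‖⁻¹ ^ 2 * u X ^ 2 ≤ 4 * ∑ a, ∫ X, fderiv ℝ u X (ev j a) ^ 2 := by
  have m : ∀ {f : Cfg ι → ℝ}, MP_6c3a95_mp.Test f → MemLp f 2 := fun hf =>
    hf.smooth.continuous.memLp_of_hasCompactSupport hf.cpt
  have i : ∀ {f g : Cfg ι → ℝ}, MP_6c3a95_mp.Test f → MP_6c3a95_mp.Test g →
      Integrable fun X => f X * g X := fun hf hg => (m hf).integrable_mul (m hg)
  have hG : ∀ a, MemLp (fun X => fderiv ℝ u X (ev j a)) 2 := fun a => m (hu.dd (ev j a))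
  have hd : ∀ a, MP_6c3a95_mp.WD volume u (fun X => fderiv ℝ u X (ev j a)) (ev j a) :=
    fun a φ hφ => integral_mul_fderiv_eq_neg_fderiv_mul_of_integrable (i (hu.dd _) hφ)
      (i hu (hφ.dd _)) (i hu hφ) (fun x _ => hu.smooth.differentiable (by simp) x)
      fun x _ => hφ.smooth.differentiable (by simp) x
  have h := MP_6c3a95_mp.hardy L (ev j) hL (m hu) hG hd
  have e : (fun X => ‖L X‖⁻¹ ^ 2 * u X ^ 2) = fun X => 1 / ‖L X‖ * u X * (1 / ‖L X‖ * u X) := by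
    ext X
    ring
  rw [e]
  refine ⟨h.lim.integrable_mul h.lim, le_of_tendsto' (h.integral_mul h) fun n => ?_⟩
  simpa only [sq] using
    MP_6c3a95_mp.hardy_reg L (ev j) hL (m hu) hG hd (MP_6c3a95_mp.eta_pos n)

lemma hardy_cplx (L : Cfg ι →L[ℝ] E3) (j : ι) (hL : ∀ a, L (ev j a) = e1 a) {Φ : Cfg ι → ℂ}
    (h : Sm Φ) : Integrable (fun X => ‖L X‖⁻¹ ^ 2 * ‖Φ X‖ ^ 2) ∧
      Ex Φ (fun X => ‖L X‖⁻¹ ^ 2) ≤ 4 * Kn Φ j := by
  have t : ∀ ℓ : ℂ →L[ℝ] ℝ, MP_6c3a95_mp.Test fun X => ℓ (Φ X) := fun ℓ =>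
    ⟨ℓ.contDiff.comp h.smooth, h.cpt.comp_left (g := ℓ) ℓ.map_zero⟩
  have d : ∀ (ℓ : ℂ →L[ℝ] ℝ) X w, fderiv ℝ (fun X => ℓ (Φ X)) X w = ℓ (fderiv ℝ Φ X w) :=
    fun ℓ X w => congrArg (fun T : Cfg ι →L[ℝ] ℝ => T w)
      (ℓ.hasFDerivAt.comp X (h.smooth.differentiable (by simp) X).hasFDerivAt).fderiv
  have i : ∀ (ℓ : ℂ →L[ℝ] ℝ) w, Integrable fun X => fderiv ℝ (fun X => ℓ (Φ X)) X w ^ 2 :=
    fun ℓ w => (((t ℓ).dd w).smooth.continuous.memLp_of_hasCompactSupport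
      ((t ℓ).dd w).cpt).integrable_sq
  have n : ∀ z : ℂ, ‖z‖ ^ 2 = Complex.reCLM z ^ 2 + Complex.imCLM z ^ 2 := fun z => by
    rw [Complex.sq_norm, Complex.normSq_apply, sq, sq]
    rfl
  obtain ⟨a1, a2⟩ := hardy_real L j hL (t Complex.reCLM)
  obtain ⟨b1, b2⟩ := hardy_real L j hL (t Complex.imCLM)
  have e : Kn Φ j = (∑ a, ∫ X, fderiv ℝ (fun X => Complex.reCLM (Φ X)) X (ev j a) ^ 2) +
      ∑ a, ∫ X, fderiv ℝ (fun X => Complex.imCLM (Φ X)) X (ev j a) ^ 2 := by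
    rw [← Finset.sum_add_distrib,
      Finset.sum_congr rfl fun a _ => (integral_add (i _ _) (i _ _)).symm]
    refine Eq.trans ?_ (integral_finsetSum _ fun a _ => (i _ _).add (i _ _))
    simp only [d, ← n]
    rfl
  simp only [Ex, n, mul_add]
  refine ⟨a1.add b1, ?_⟩
  rw [integral_add a1 b1, e]
  linarith

end

theorem st_hardy : St_hardy := fun ι _ _ Φ h =>
  ⟨fun j => hardy_cplx (ContinuousLinearMap.proj j) j (fun a => by simp [ev]) h,
    fun i j hij => hardy_cplx (ContinuousLinearMap.proj (R := ℝ) (φ := fun _ : ι => E3) i -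
      ContinuousLinearMap.proj (R := ℝ) (φ := fun _ : ι => E3) j) i (fun a => by
        change ev i a i - ev i a j = _
        simp [ev, hij.symm]) h⟩

theorem st_reidx : St_reidx := fun Z E N H ι _ _ hι Φ hΦ => by
  let e : ι ≃ Fin N := Fintype.equivFinOfCardEq hι
  let T : Cfg (Fin N) ≃L[ℝ] Cfg ι := (LinearEquiv.funCongrLeft ℝ E3 e).toContinuousLinearEquiv
  have hT : ∀ X, T X = X ∘ e := fun _ => rfl
  have I : ∀ f : Cfg ι → ℝ, ∫ X, f (T X) = ∫ X, f X := fun f =>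
    (volume_preserving_arrowCongr' e.symm (MeasurableEquiv.refl E3)
      (MeasurePreserving.id _)).integral_comp' f
  have hc : Core fun X => Φ (T X) := by
    refine ⟨⟨hΦ.sm.smooth.comp T.contDiff, hΦ.sm.cpt.comp_homeomorph T.toHomeomorph⟩, ?_⟩
    intro i _ j _ hij X
    have := hΦ.anti (e.symm i) (Finset.mem_univ _) (e.symm j) (Finset.mem_univ _)
      (e.symm.injective.ne hij) (T X)
    rw [← this]
    refine congrArg Φ (funext fun k => ?_)
    simp only [hT, Function.comp_apply, e.injective.map_swap, Equiv.apply_symm_apply]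
  have k : ∀ j, Kn (fun X => Φ (T X)) (e j) = Kn Φ j := fun j => by
    rw [Kn, Kn, ← I]
    refine congrArg _ (funext fun X => Finset.sum_congr rfl fun a _ => ?_)
    have e1 : T (ev (e j) a) = ev j a := funext fun k => by
      simp [hT, ev, Pi.single_apply]
    rw [← e1]
    exact congrArg (fun S : Cfg (Fin N) →L[ℝ] ℂ => ‖S (ev (e j) a)‖ ^ 2)
      (T.comp_right_fderiv (f := Φ) (x := X))
  have v : ∀ X, VOn Z Finset.univ X = VOn Z Finset.univ (T X) := fun X => by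
    simp only [VOn, hT, Function.comp_apply]
    rw [← e.sum_comp, ← e.sum_comp fun i => ∑ j, ‖X i - X j‖⁻¹]
    simp only [← e.sum_comp fun j => ‖X _ - X j‖⁻¹]
  have := H _ hc
  rwa [Nm, En, EnOn, Ex, ← e.sum_comp, Finset.sum_congr rfl fun j _ => k j, funext v,
    I fun X => ‖Φ X‖ ^ 2, I fun X => VOn Z Finset.univ X * ‖Φ X‖ ^ 2] at this

theorem st_sup : St_sup := fun Z hZ => by
  have hb : BddAbove {E | IsLB Z E} := ⟨0, fun E hE => by
    have := hE Empty _ core_empty.1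
    rwa [core_empty.2.1, core_empty.2.2, mul_one] at this⟩
  obtain ⟨E, h1, h2⟩ := exists_lt_of_lt_csSup (s := {E | IsLB Z E}) hZ (sub_one_lt _)
  exact ⟨E, h1, fun h => by linarith [le_csSup hb h]⟩

end Pool.Agent.Lib.ION
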