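import Pool.Agent.Lib.ION.Basic

/-!
# Mean value properties of Coulomb potentials and the Cauchy-Schwarz inequality
-/

open MeasureTheory Set Metric Real Filter Topology

noncomputable section

namespace Pool.Agent.Lib.ION

open Pool.Agent.Lib.MP_689e73_mp

lemma harm_psi_eq (γ : ℝ → ℝ) (c p : E3) :
    ∫ y, γ ‖y - c‖ * ‖y - p‖⁻¹ = psi (fun y => γ ‖y - c‖) p := by
  unfold psi
  congr 1
  ext y
  rw [mul_comm, norm_sub_rev y p]

lemma harm_out (h1 : St_newton) {γ : ℝ → ℝ} {ℓ : ℝ} {c p : E3} (hγ : Rad γ ℓ)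
    (hp : p ∉ closedBall c ℓ) :
    psi (fun y => γ ‖y - c‖) p = (∫ y : E3, γ ‖y‖) * ‖c - p‖⁻¹ := by
  have hl : ℓ < ‖p - c‖ := by simpa [mem_closedBall, dist_eq_norm] using hp
  rw [h1 γ ℓ c p hγ, ← integral_mul_const]
  congr 1
  ext y
  rcases le_or_gt ‖y‖ ℓ with h | h
  · rw [max_eq_left (h.trans hl.le), norm_sub_rev]
  · rw [hγ.supp _ h, zero_mul, zero_mul]

lemma harm_le (h1 : St_newton) {γ : ℝ → ℝ} {ℓ : ℝ} {c p : E3} (hγ : Rad γ ℓ)
    (h0 : ∀ t, 0 ≤ γ t) (hp : c ≠ p) :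
    psi (fun y => γ ‖y - c‖) p ≤ (∫ y : E3, γ ‖y‖) * ‖c - p‖⁻¹ := by
  have hl : 0 < ‖p - c‖ := norm_pos_iff.2 (sub_ne_zero.2 hp.symm)
  have hi : Integrable fun y : E3 => γ ‖y‖ := by simpa using (hγ.ll 0).int
  rw [h1 γ ℓ c p hγ, ← integral_mul_const]
  refine integral_mono_of_nonneg (Eventually.of_forall fun y => ?_) (hi.mul_const _)
    (Eventually.of_forall fun y => ?_)
  · exact mul_nonneg (h0 _) (inv_nonneg.2 (hl.le.trans (le_max_left _ _)))
  · refine mul_le_mul_of_nonneg_left ?_ (h0 _)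
    rw [norm_sub_rev c p]
    exact inv_anti₀ hl (le_max_left _ _)

lemma harm_pt (h1 : St_newton) (p : E3) : Harm (fun y => ‖y - p‖⁻¹) {p}ᶜ := by
  refine ⟨ContinuousOn.inv₀ (by fun_prop) fun y hy => norm_ne_zero_iff.2 (sub_ne_zero.2 hy),
    fun c ℓ γ hc hγ => ?_⟩
  rw [harm_psi_eq, harm_out h1 hγ fun h => hc h rfl]

lemma harm_swap {σ : E3 → ℝ} (hσ : LL σ) {γ : ℝ → ℝ} {ℓ : ℝ} (hγ : Rad γ ℓ) (c : E3) :
    ∫ y, γ ‖y - c‖ * psi σ y = ∫ y, σ y * psi (fun y => γ ‖y - c‖) y :=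
  DD_symm (hγ.ll c) hσ

theorem st_harm (h1 : St_newton) : St_harm := by
  refine ⟨harm_pt h1, fun σ s hσ hs => ⟨hσ.continuous_psi.continuousOn, fun c ℓ γ hc hγ => ?_⟩,
    fun γ ℓ c p hγ h0 hp => ?_, fun σ γ ℓ c hσ hσ0 hγ h0 => ?_, fun V q a₀ hV => ?_⟩
  · rw [harm_swap hσ hγ, psi, ← integral_const_mul]
    congr 1
    ext y
    by_cases hy : y ∈ closedBall c ℓ
    · rw [hs y (hc hy)]; simp
    · rw [harm_out h1 hγ hy]; ring
  · rw [harm_psi_eq]
    exact harm_le h1 hγ h0 hp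
  · rw [harm_swap hσ hγ]
    unfold psi
    rw [← integral_const_mul]
    refine integral_mono_ae (LL.int_mul_psi hσ.int (hγ.ll c)) ((hσ.psi_int c).const_mul _) ?_
    filter_upwards [ae_ne c] with y hy
    have := mul_le_mul_of_nonneg_left (harm_le h1 hγ h0 (p := y) (Ne.symm hy)) (hσ0 y)
    unfold psi at this
    calc _ ≤ _ := this
      _ = _ := by ring
  · obtain ⟨m, z, p, hp, -, h⟩ := hV
    rw [funext h]
    refine Harm.sum _ fun α _ => Harm.const_mul ((harm_pt h1 (p α)).mono fun y hy hy' => ?_) _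
    rw [mem_singleton_iff] at hy'
    subst hy'
    exact absurd (hp α) (not_le.2 hy)

lemma harm_DD_self {a : E3 → ℝ} (ha : LL a) : 0 ≤ DD a a := by
  have hp : LL fun x => 2⁻¹ * (|a x| + a x) := (ha.abs.add ha).const_mul _
  have hn : LL fun x => 2⁻¹ * (|a x| - a x) := (ha.abs.sub ha).const_mul _
  have h := DD_amgm hn hp
    (fun x => mul_nonneg (by norm_num) (sub_nonneg.2 (le_abs_self _)))
    (fun x => mul_nonneg (by norm_num) (by linarith [neg_abs_le (a x)]))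
  have e := DD_expand hp hn (-1)
  have e' : (fun x => 2⁻¹ * (|a x| + a x) + -1 * (2⁻¹ * (|a x| - a x))) = a := by
    ext x; ring
  rw [e'] at e
  linarith

theorem st_cs : St_cs := by
  intro a b ha hb
  refine ⟨harm_DD_self ha, ?_⟩
  have h : ∀ t : ℝ, 0 ≤ DD b b * (t * t) + 2 * DD a b * t + DD a a := fun t => by
    have := harm_DD_self (ha.add (hb.const_mul t))
    rw [DD_expand ha hb t, DD_symm hb ha] at this
    linarith
  have hd := discrim_le_zero h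
  unfold discrim at hd
  rw [← Real.sqrt_mul (harm_DD_self ha)]
  exact Real.abs_le_sqrt (by linarith)

end Pool.Agent.Lib.ION
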