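import Pool.Agent.Lib.ION.Basic

/-!
# Harnack type Lipschitz bounds
-/

open MeasureTheory Set Metric Real Filter Topology

noncomputable section

namespace Pool.Agent.Lib.ION

open Pool.Agent.Lib.MP_689e73_mp

/-- the tent profile -/
def harnG (r t : ℝ) : ℝ := max (r / 4 - |t|) 0

/-- the indicator profile -/
def harnD (r t : ℝ) : ℝ := if t ≤ r / 2 then 1 else 0

/-- truncated inverse powers -/
def harnK (n : ℕ) (R : ℝ) (y : E3) : ℝ := indicator (ball 0 R) (fun y : E3 => ‖y‖⁻¹ ^ n) y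

lemma harnG_cont (r : ℝ) : Continuous (harnG r) := by unfold harnG; fun_prop

lemma harnG_zero {r t : ℝ} (h : r / 4 ≤ t) : harnG r t = 0 :=
  max_eq_right (by linarith [le_abs_self t])

lemma harnG_rad (r : ℝ) : Rad (harnG r) (r / 4) := by
  refine ⟨⟨(harnG_cont r).measurable, |r|, fun t => ?_⟩, fun t ht => harnG_zero ht.le⟩
  unfold harnG
  rw [abs_of_nonneg (le_max_right _ _)]
  refine max_le ?_ (abs_nonneg _)
  have := le_abs_self r
  have := abs_nonneg r
  have := abs_nonneg t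
  linarith

lemma harnD_rad (r : ℝ) : Rad (harnD r) (r / 2) :=
  ⟨Bd.ite (measurableSet_le measurable_id measurable_const) (Bd.const 1) (Bd.const 0),
    fun _ ht => if_neg (not_le.2 ht)⟩

lemma harnG_lip (r a b : ℝ) : |harnG r a - harnG r b| ≤ |a - b| := by
  refine (abs_max_sub_max_le_abs _ _ _).trans ?_
  rw [show r / 4 - |a| - (r / 4 - |b|) = -(|a| - |b|) by ring, abs_neg]
  exact abs_abs_sub_abs_le_abs_sub a b

lemma harnG_int {r : ℝ} (hr : 0 < r) :
    ∫ y : E3, harnG r ‖y‖ = r ^ 4 * ∫ y : E3, harnG 1 ‖y‖ := by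
  rw [integral_scale hr]
  have : ∀ y : E3, harnG r ‖r • y‖ = r * harnG 1 ‖y‖ := by
    intro y
    unfold harnG
    rw [norm_smul, Real.norm_of_nonneg hr.le, mul_max_of_nonneg _ _ hr.le, abs_mul, abs_of_pos hr]
    congr 1 <;> ring
  simp only [this]
  rw [integral_const_mul]
  ring

lemma harnD_int {r : ℝ} (hr : 0 < r) :
    ∫ y : E3, harnD r ‖y‖ = r ^ 3 * ∫ y : E3, harnD 1 ‖y‖ := by
  rw [integral_scale hr]
  have : ∀ y : E3, harnD r ‖r • y‖ = harnD 1 ‖y‖ := by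
    intro y
    unfold harnD
    rw [norm_smul, Real.norm_of_nonneg hr.le]
    refine if_congr ?_ rfl rfl
    rw [show r / 2 = r * (1 / 2) by ring]
    exact mul_le_mul_iff_right₀ hr
  simp only [this]

lemma harnG_pos : 0 < ∫ y : E3, harnG 1 ‖y‖ := by
  refine Continuous.integral_pos_of_hasCompactSupport_nonneg_nonzero (x := 0)
    ((harnG_cont 1).comp continuous_norm) ?_ (fun _ => le_max_right _ _) (by simp [harnG])
  refine HasCompactSupport.intro (isCompact_closedBall (0 : E3) (1 / 4)) fun y hy => ?_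
  rw [mem_closedBall_zero_iff, not_le] at hy
  exact harnG_zero hy.le

lemma harnD_nonneg (r t : ℝ) : 0 ≤ harnD r t := by unfold harnD; split_ifs <;> norm_num

lemma harn_one (P : E3 → ℝ) (p x x' : E3) (r : ℝ) (hr : 0 < r) (hP : Harm P (ball p r))
    (h0 : ∀ y ∈ ball p r, 0 ≤ P y) (hx : x ∈ ball p (r / 8)) (hx' : x' ∈ ball p (r / 8)) :
    |P x - P x'| ≤ (∫ y : E3, harnD 1 ‖y‖) / (∫ y : E3, harnG 1 ‖y‖) * P x' * ‖x - x'‖ / r := by
  rw [mem_ball] at hx hx'
  have s1 : closedBall x (r / 4) ⊆ ball p r := closedBall_subset_ball' (by linarith)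
  have s2 : closedBall x' (r / 4) ⊆ ball p r := closedBall_subset_ball' (by linarith)
  have s3 : closedBall x' (r / 2) ⊆ ball p r := closedBall_subset_ball' (by linarith)
  have hxx : ‖x - x'‖ < r / 4 := by
    have := dist_triangle_right x x' p
    rw [dist_eq_norm] at this
    linarith
  have i1 := Harm.int hP.cont s1 (harnG_rad r)
  have i2 := Harm.int hP.cont s2 (harnG_rad r)
  have i3 := Harm.int hP.cont s3 (harnD_rad r)
  have e1 := hP.mv _ _ _ s1 (harnG_rad r)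
  have e2 := hP.mv _ _ _ s2 (harnG_rad r)
  have e3 := hP.mv _ _ _ s3 (harnD_rad r)
  have key : |∫ y, (harnG r ‖y - x‖ * P y - harnG r ‖y - x'‖ * P y)| ≤
      ∫ y, ‖x - x'‖ * (harnD r ‖y - x'‖ * P y) := by
    rw [← Real.norm_eq_abs]
    refine norm_integral_le_of_norm_le (i3.const_mul _) (Eventually.of_forall fun y => ?_)
    have hd : |‖y - x‖ - ‖y - x'‖| ≤ ‖x - x'‖ := by
      refine (abs_norm_sub_norm_le _ _).trans (le_of_eq ?_)
      rw [show y - x - (y - x') = -(x - x') by abel, norm_neg]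
    by_cases hy : ‖y - x'‖ ≤ r / 2
    · have hy0 : 0 ≤ P y := h0 y (s3 (by rwa [mem_closedBall, dist_eq_norm]))
      rw [← sub_mul, Real.norm_eq_abs, abs_mul, abs_of_nonneg hy0, harnD, if_pos hy, one_mul]
      exact mul_le_mul_of_nonneg_right ((harnG_lip _ _ _).trans hd) hy0
    · have h1 := (abs_le.1 hd).1
      rw [not_le] at hy
      rw [harnG_zero (by linarith), harnG_zero (by linarith), harnD, if_neg (not_le.2 hy)]
      simp
  rw [integral_sub i1 i2, integral_const_mul, e1, e2, e3, ← mul_sub, abs_mul, harnG_int hr,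
    harnD_int hr, abs_of_pos (mul_pos (pow_pos hr 4) harnG_pos)] at key
  have hI := harnG_pos
  rw [le_div_iff₀ hr, div_mul_eq_mul_div, div_mul_eq_mul_div, le_div_iff₀ hI]
  refine le_of_mul_le_mul_left ?_ (pow_pos hr 3)
  calc r ^ 3 * (|P x - P x'| * r * ∫ y : E3, harnG 1 ‖y‖)
      = (r ^ 4 * ∫ y : E3, harnG 1 ‖y‖) * |P x - P x'| := by ring
    _ ≤ _ := key
    _ = _ := by ring

lemma harnK_nonneg (n : ℕ) (R : ℝ) (y : E3) : 0 ≤ harnK n R y :=
  indicator_nonneg (fun _ _ => by positivity) _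

lemma harnK_integrable {n : ℕ} (hn : n < 3) (R : ℝ) : Integrable (harnK n R) := by
  unfold harnK
  rw [integrable_indicator_iff measurableSet_ball]
  have h := integrableOn_rpow_ball (α := n) (by exact_mod_cast hn) R
  have e : (fun y : E3 => ‖y‖⁻¹ ^ n) = fun y : E3 => ‖y‖ ^ (-(n : ℝ)) := by
    funext y
    rw [Real.rpow_neg (norm_nonneg _), Real.rpow_natCast, inv_pow]
  rw [e]
  exact h

lemma harnK_int (n : ℕ) {R : ℝ} (hR : 0 < R) :
    ∫ y, harnK n R y = R ^ 3 * (R⁻¹ ^ n * ∫ y, harnK n 1 y) := by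
  rw [integral_scale hR]
  have : ∀ y : E3, harnK n R (R • y) = R⁻¹ ^ n * harnK n 1 y := by
    intro y
    unfold harnK
    have e : R • y ∈ ball (0 : E3) R ↔ y ∈ ball (0 : E3) 1 := by
      rw [mem_ball_zero_iff, mem_ball_zero_iff, norm_smul, Real.norm_of_nonneg hR.le]
      exact mul_lt_iff_lt_one_right hR
    by_cases h : y ∈ ball (0 : E3) 1
    · rw [indicator_of_mem h, indicator_of_mem (e.2 h), norm_smul, Real.norm_of_nonneg hR.le,
        mul_inv, mul_pow]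
    · rw [indicator_of_notMem h, indicator_of_notMem (fun h' => h (e.1 h')), mul_zero]
  simp only [this]
  rw [integral_const_mul]

lemma harnK_HI {n : ℕ} (hn : n < 3) {R : ℝ} (hR : 0 < R) (c : E3) :
    HI (fun y => harnK n R (y - c)) (R ^ 3 * (R⁻¹ ^ n * ∫ y, harnK n 1 y)) :=
  ⟨(harnK_integrable hn R).comp_sub_right c, by
    rw [integral_sub_right_eq_self (harnK n R) c, harnK_int n hR]⟩

lemma harnK_eq (n : ℕ) {r : ℝ} {p x y : E3} (hx : x ∈ ball p r) (hy : y ∈ ball p r) :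
    harnK n (2 * r) (y - x) = ‖x - y‖⁻¹ ^ n := by
  unfold harnK
  rw [indicator_of_mem, norm_sub_rev]
  rw [mem_ball] at hx hy
  have := dist_triangle_right y x p
  rw [mem_ball_zero_iff, ← dist_eq_norm]
  linarith

lemma harn_ker {a b d : ℝ} (ha : 0 < a) (hb : 0 < b) (hd : |a - b| ≤ d) :
    |a⁻¹ - b⁻¹| ≤ d / 2 * (a⁻¹ ^ 2 + b⁻¹ ^ 2) := by
  have e : a⁻¹ - b⁻¹ = -(a - b) * (a⁻¹ * b⁻¹) := by field_simp; ring
  rw [e, abs_mul, abs_neg, abs_of_pos (by positivity : 0 < a⁻¹ * b⁻¹)]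
  have h1 : a⁻¹ * b⁻¹ ≤ (a⁻¹ ^ 2 + b⁻¹ ^ 2) / 2 := by nlinarith [sq_nonneg (a⁻¹ - b⁻¹)]
  calc |a - b| * (a⁻¹ * b⁻¹) ≤ d * ((a⁻¹ ^ 2 + b⁻¹ ^ 2) / 2) :=
        mul_le_mul hd h1 (by positivity) ((abs_nonneg _).trans hd)
    _ = _ := by ring

lemma harn_two (σ : E3 → ℝ) (B r : ℝ) (p x x' : E3) (hr : 0 < r) (hm : Measurable σ)
    (hσ : ∀ y, 0 ≤ σ y ∧ σ y ≤ B) (hs : ∀ y, y ∉ ball p r → σ y = 0) (hx : x ∈ ball p r)
    (hx' : x' ∈ ball p r) :
    psi σ x ≤ (4 * ∫ y, harnK 1 1 y) * B * r ^ 2 ∧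
      |psi σ x - psi σ x'| ≤ (2 * ∫ y, harnK 2 1 y) * B * r * ‖x - x'‖ := by
  have hB : 0 ≤ B := (hσ 0).1.trans (hσ 0).2
  have hL : LL σ := LL_of_bd ⟨hm, B, fun y => by rw [abs_of_nonneg (hσ y).1]; exact (hσ y).2⟩
    (c := p) (L := r) fun y hy => hs y (by rw [mem_ball, dist_eq_norm, not_lt]; exact hy.le)
  have h2 : 0 < 2 * r := by positivity
  constructor
  · refine ((hL.Hpsi x).le ((harnK_HI (n := 1) (by norm_num) h2 x).const_mul B)
      (Eventually.of_forall fun y => ?_)).trans (le_of_eq ?_)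
    · by_cases hy : y ∈ ball p r
      · rw [harnK_eq 1 hx hy, pow_one, mul_comm B]
        exact mul_le_mul_of_nonneg_left (hσ y).2 (by positivity)
      · rw [hs y hy, mul_zero]
        exact mul_nonneg hB (harnK_nonneg _ _ _)
    · field_simp
      ring
  · have H1 := (hL.Hpsi x).sub (hL.Hpsi x')
    have H2 := ((harnK_HI (n := 2) (by norm_num) h2 x).add
      (harnK_HI (n := 2) (by norm_num) h2 x')).const_mul (‖x - x'‖ / 2 * B)
    rw [← H1.2, ← Real.norm_eq_abs]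
    refine (norm_integral_le_of_norm_le H2.1 ?_).trans (le_of_eq (H2.2.trans ?_))
    · filter_upwards [ae_ne x, ae_ne x'] with y h1 h1'
      by_cases hy : y ∈ ball p r
      · rw [harnK_eq 2 hx hy, harnK_eq 2 hx' hy, ← sub_mul, Real.norm_eq_abs, abs_mul,
          abs_of_nonneg (hσ y).1]
        have hd : |‖x - y‖ - ‖x' - y‖| ≤ ‖x - x'‖ := by
          refine (abs_norm_sub_norm_le _ _).trans (le_of_eq ?_)
          rw [show x - y - (x' - y) = x - x' by abel]
        have := harn_ker (norm_pos_iff.2 (sub_ne_zero.2 h1.symm))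
          (norm_pos_iff.2 (sub_ne_zero.2 h1'.symm)) hd
        calc _ ≤ ‖x - x'‖ / 2 * (‖x - y‖⁻¹ ^ 2 + ‖x' - y‖⁻¹ ^ 2) * B :=
              mul_le_mul this (hσ y).2 (hσ y).1 (by positivity)
          _ = _ := by ring
      · rw [hs y hy, mul_zero, mul_zero, sub_zero, norm_zero]
        exact mul_nonneg (by positivity) (add_nonneg (harnK_nonneg _ _ _) (harnK_nonneg _ _ _))
    · field_simp
      ring

theorem st_harn : St_harn := by
  have a1 : 0 ≤ (∫ y : E3, harnD 1 ‖y‖) / ∫ y : E3, harnG 1 ‖y‖ :=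
    div_nonneg (integral_nonneg fun _ => harnD_nonneg _ _) harnG_pos.le
  have a2 : 0 ≤ 4 * ∫ y, harnK 1 1 y :=
    mul_nonneg (by norm_num) (integral_nonneg (harnK_nonneg _ _))
  have a3 : 0 ≤ 2 * ∫ y, harnK 2 1 y :=
    mul_nonneg (by norm_num) (integral_nonneg (harnK_nonneg _ _))
  refine ⟨1 + (∫ y : E3, harnD 1 ‖y‖) / (∫ y : E3, harnG 1 ‖y‖) + (4 * ∫ y, harnK 1 1 y) +
    2 * ∫ y, harnK 2 1 y, by linarith, fun P p x x' r hr hP h0 hx hx' => ?_,
    fun σ B r p x x' hr hm hσ hs hx hx' => ?_⟩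
  · refine (harn_one P p x x' r hr hP h0 hx hx').trans ?_
    have : 0 ≤ P x' := h0 x' (ball_subset_ball (by linarith) hx')
    gcongr
    linarith
  · have hB : 0 ≤ B := (hσ 0).1.trans (hσ 0).2
    obtain ⟨h1, h2⟩ := harn_two σ B r p x x' hr hm hσ hs hx hx'
    refine ⟨h1.trans ?_, h2.trans ?_⟩
    · gcongr
      linarith
    · gcongr
      linarith

end Pool.Agent.Lib.ION
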