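import Pool.Agent.Lib.ION.Basic

/-!
# The ionization bound for ground states: induction on scales
-/

open MeasureTheory Set Metric Real Filter Topology

set_option linter.unusedSectionVars false

noncomputable section

namespace Pool.Agent.Lib.ION

open Pool.Agent.Lib.MP_689e73_mp

namespace IND

lemma pt {x a b c w Δ : ℝ} (hc : 0 < c) (hw : 0 < w) (hΔ : 0 ≤ Δ) (hb : b = c ^ 2 * w)
    (h : x ≤ a + c * √(w * Δ)) : max (x - a) 0 ^ 2 / b ≤ Δ := by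
  have h1 : max (x - a) 0 ≤ c * √(w * Δ) := max_le (by linarith) (by positivity)
  have h2 : max (x - a) 0 ^ 2 ≤ (c * √(w * Δ)) ^ 2 :=
    pow_le_pow_left₀ (le_max_right _ _) h1 2
  rw [mul_pow, Real.sq_sqrt (by positivity)] at h2
  rw [hb, div_le_iff₀ (by positivity)]
  nlinarith

lemma pt2 (x : ℝ) {a b : ℝ} (ha : 0 ≤ a) (hb : 0 < b) :
    max x 0 ^ 2 ≤ 2 * a ^ 2 + 2 * b * (max (x - a) 0 ^ 2 / b) := by
  have e : 2 * b * (max (x - a) 0 ^ 2 / b) = 2 * max (x - a) 0 ^ 2 := by field_simp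
  rw [e]
  have h0 : 0 ≤ max (x - a) 0 := le_max_right _ _
  have h1 : max x 0 ≤ a + max (x - a) 0 :=
    max_le (by linarith [le_max_left (x - a) 0]) (by linarith)
  have h2 : max x 0 ^ 2 ≤ (a + max (x - a) 0) ^ 2 := pow_le_pow_left₀ (le_max_right _ _) h1 2
  nlinarith [sq_nonneg (a - max (x - a) 0)]

section

variable {ι : Type} [Fintype ι] [DecidableEq ι] {Φ : Cfg ι → ℂ}

lemma bdG {f : Cfg ι → ℝ} (hf : Bd f) (a b : ℝ) : Bd fun X => max (f X - a) 0 ^ 2 / b :=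
  (((hf.sub (Bd.const a)).max (Bd.const 0)).pow 2).div_const b

lemma ex_sq (hΦ : Sm Φ) {f : Cfg ι → ℝ} (hf : Bd f) {a b B : ℝ} (ha : 0 ≤ a) (hb : 0 < b)
    (h : Ex Φ (fun X => max (f X - a) 0 ^ 2 / b) ≤ B) :
    Ex Φ (fun X => max (f X) 0 ^ 2) ≤ 2 * a ^ 2 * Nm Φ + 2 * b * B := by
  have h1 : Ex Φ (fun X => max (f X) 0 ^ 2) ≤
      Ex Φ (fun X => 2 * a ^ 2 + 2 * b * (max (f X - a) 0 ^ 2 / b)) :=
    Ex_mono hΦ ((hf.max (Bd.const 0)).pow 2).loc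
      ((Bd.const _).add ((bdG hf a b).const_mul _)).loc fun X _ => pt2 (f X) ha hb
  rw [Ex_add hΦ (Bd.const _).loc ((bdG hf a b).const_mul _).loc, Ex_const, Ex_const_mul] at h1
  have := mul_le_mul_of_nonneg_left h (by positivity : 0 ≤ 2 * b)
  linarith

lemma inv_pow_le {s r L : ℝ} (hs : 0 < s) (hr : 0 < r) (h : r ≤ L * s) (n : ℕ) :
    s⁻¹ ^ n ≤ L ^ n * r⁻¹ ^ n := by
  rw [← mul_pow]
  refine pow_le_pow_left₀ (by positivity) ?_ n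
  rw [← div_eq_mul_inv, le_div_iff₀ hr, ← div_eq_inv_mul, div_le_iff₀ hs]
  exact h

lemma nm_le {Z E r : ℝ} (hE : IsLB Z E) (hΦ : Core Φ) : r⁻¹ ^ 7 * Nm Φ ≤ bb Z E r Φ := by
  have := hE.ee_nonneg hΦ
  unfold bb
  linarith

lemma ee_le {Z E r : ℝ} (hr : 0 < r) : ee Z E Φ ≤ bb Z E r Φ := by
  have := mul_nonneg (by positivity : 0 ≤ r⁻¹ ^ 7) (Nm_nonneg Φ)
  unfold bb
  linarith

lemma bb_le {Z E s r L : ℝ} (hE : IsLB Z E) (hΦ : Core Φ) (hs : 0 < s) (hr : 0 < r)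
    (hL : 1 ≤ L) (h : r ≤ L * s) : bb Z E s Φ ≤ L ^ 7 * bb Z E r Φ := by
  have h1 := hE.ee_nonneg hΦ
  have h2 := mul_le_mul_of_nonneg_right (inv_pow_le hs hr h 7) (Nm_nonneg Φ)
  have h3 : 1 ≤ L ^ 7 := one_le_pow₀ hL
  unfold bb
  nlinarith

lemma Nlt_nonneg (R : ℝ) (X : Cfg ι) : 0 ≤ Nlt R X :=
  Finset.sum_nonneg fun _ _ => by split_ifs <;> norm_num

end

lemma stepG_mono {k : Cs} {C C' e e' Z E r : ℝ} (hE : IsLB Z E) (hr : 0 < r) (hC : C ≤ C')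
    (he : e ≤ e') (h : StepG k C e Z E r) : StepG k C' e' Z E r := by
  intro ι _ _ Φ hΦ G hG hc
  have h1 := h ι Φ hΦ G hG hc
  have h2 := mul_le_mul_of_nonneg_right hC (hE.ee_nonneg hΦ)
  have h3 := mul_le_mul_of_nonneg_right he (hE.bb_nonneg hΦ hr.le)
  linarith

lemma step0G_mono {k : Cs} {C₀ C C' e Z E r : ℝ} (hE : IsLB Z E) (hC : C ≤ C')
    (h : Step0G k C₀ C e Z E r) : Step0G k C₀ C' e Z E r := by
  intro ι _ _ Φ hΦ G hG hc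
  have h1 := h ι Φ hΦ G hG hc
  have h2 := mul_le_mul_of_nonneg_right hC (hE.ee_nonneg hΦ)
  linarith

lemma lr_mono {K K' Z E r : ℝ} (hE : IsLB Z E) (hr : 0 < r) (hK : K ≤ K') (h : LR K Z E r) :
    LR K' Z E r := by
  intro ι _ _ Φ hΦ β hβ h0 h1
  refine (h ι Φ hΦ β hβ h0 h1).trans (mul_le_mul_of_nonneg_right hK ?_)
  exact add_nonneg (hE.bb_nonneg hΦ hr.le)
    (mul_nonneg hr.le (Ex_nonneg Φ fun X => sq_nonneg _))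

lemma h1_mono {K K' Z E r : ℝ} (hE : IsLB Z E) (hr : 0 < r) (hK : K ≤ K') (h : H1 K Z E r) :
    H1 K' Z E r := fun ι _ _ Φ hΦ =>
  (h ι Φ hΦ).trans (mul_le_mul_of_nonneg_right (mul_le_mul_of_nonneg_right hK hr.le)
    (hE.bb_nonneg hΦ hr.le))

lemma h2_mono {K K' Z E r : ℝ} (hE : IsLB Z E) (hr : 0 < r) (hK : K ≤ K') (h : H2 K Z E r) :
    H2 K' Z E r := fun ι _ _ Φ hΦ =>
  (h ι Φ hΦ).trans (mul_le_mul_of_nonneg_right (mul_le_mul_of_nonneg_right hK hr.le)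
    (hE.bb_nonneg hΦ hr.le))

lemma h3_mono {K K' Z E r : ℝ} (hE : IsLB Z E) (hr : 0 < r) (hK : K ≤ K') (h : H3 K Z E r) :
    H3 K' Z E r := fun ι _ _ Φ hΦ =>
  (h ι Φ hΦ).trans (mul_le_mul_of_nonneg_right (div_le_div_of_nonneg_right hK hr.le)
    (hE.bb_nonneg hΦ hr.le))

lemma z_sq {Θ Z r₁ r L : ℝ} (h1 : 0 < r₁) (hr : 0 < r) (hZ : Z * r₁ ^ 3 = Θ) (h : r ≤ L * r₁) :
    Z ^ 2 ≤ Θ ^ 2 * L ^ 6 * r⁻¹ ^ 6 := by
  have e : Z ^ 2 = Θ ^ 2 * r₁⁻¹ ^ 6 := by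
    rw [← hZ]; field_simp
  rw [e, mul_assoc]
  exact mul_le_mul_of_nonneg_left (inv_pow_le h1 hr h 6) (sq_nonneg _)

lemma base1 {Θ Z E r₁ r : ℝ} (hE : IsLB Z E) (hZ0 : 0 ≤ Z) (h1 : 0 < r₁) (hr : 0 < r)
    (hZ : Z * r₁ ^ 3 = Θ) (h : r ≤ 64 * r₁) : H1 (Θ ^ 2 * 64 ^ 6) Z E r := by
  intro ι _ _ Φ hΦ
  have h2 : Ex Φ (fun X => max (Z - Nlt r X) 0 ^ 2) ≤ Ex Φ (fun _ => Z ^ 2) :=
    Ex_mono hΦ.sm ((((Bd.const Z).sub (bd_Nlt r)).max (Bd.const 0)).pow 2).loc (Bd.const _).loc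
      fun X _ => pow_le_pow_left₀ (le_max_right _ _)
        (max_le (by linarith [Nlt_nonneg r X]) hZ0) 2
  rw [Ex_const] at h2
  have h3 := mul_le_mul_of_nonneg_right (z_sq h1 hr hZ h) (Nm_nonneg Φ)
  have h4 := mul_le_mul_of_nonneg_left (nm_le (r := r) hE hΦ)
    (by positivity : 0 ≤ Θ ^ 2 * 64 ^ 6 * r)
  have e : Θ ^ 2 * 64 ^ 6 * r * (r⁻¹ ^ 7 * Nm Φ) = Θ ^ 2 * 64 ^ 6 * r⁻¹ ^ 6 * Nm Φ := by
    field_simp
  linarith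

lemma step0_bb {k : Cs} {C₀ C e Z E r₁ r : ℝ} (hC : 0 ≤ C) (he : 0 ≤ e) (hE : IsLB Z E)
    (h1 : 0 < r₁) (hr : 0 < r) (h : r ≤ 64 * r₁) (hs : Step0G k C₀ C e Z E r₁)
    {ι : Type} [Fintype ι] [DecidableEq ι] {Φ : Cfg ι → ℂ} (hΦ : Core Φ) {G : Cfg ι → ℝ}
    (hG : Bd G) (hc : ∀ X Δ, 0 ≤ Δ → Cert0 k C₀ Z r₁ X Δ → G X ≤ Δ) :
    Ex Φ G ≤ (C + e * 64 ^ 7) * bb Z E r Φ := by
  have h2 := hs ι Φ hΦ G hG hc
  have h3 := mul_le_mul_of_nonneg_left (ee_le (Z := Z) (E := E) (Φ := Φ) hr) hC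
  have h4 := mul_le_mul_of_nonneg_left
    ((nm_le (r := r₁) hE hΦ).trans (bb_le hE hΦ h1 hr (by norm_num) h)) he
  linarith

lemma base2 {k : Cs} {C₀ C e Z E r₁ r : ℝ} (hC₀ : 0 < C₀) (hC : 0 ≤ C) (he : 0 ≤ e)
    (hE : IsLB Z E) (h1 : 0 < r₁) (h0 : r₁ ≤ r) (h : r ≤ 64 * r₁)
    (hs : Step0G k C₀ C e Z E r₁) : H2 (4 * C₀ ^ 2 * (C + e * 64 ^ 7)) Z E r := by
  intro ι _ _ Φ hΦ
  have hr : 0 < r := h1.trans_le h0
  have hf : Bd fun X : Cfg ι => Nlt (2 * r) X - Z := (bd_Nlt _).sub (Bd.const Z)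
  have h2 := step0_bb hC he hE h1 hr h hs hΦ (bdG hf 0 (C₀ ^ 2 * (2 * r))) fun X Δ hΔ hc =>
    pt hC₀ (by positivity : 0 < 2 * r) hΔ rfl (by simpa using hc.d2 (2 * r) (by linarith))
  have h3 := ex_sq hΦ.sm hf le_rfl (by positivity) h2
  linarith

lemma base3 {k : Cs} {Θ C₀ C e Z E r₁ r : ℝ} (hC₀ : 0 < C₀) (hC : 0 ≤ C) (he : 0 ≤ e)
    (hE : IsLB Z E) (hZ0 : 0 ≤ Z) (h1 : 0 < r₁) (hZ : Z * r₁ ^ 3 = Θ) (h0 : r₁ ≤ r)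
    (h : r ≤ 64 * r₁) (hs : Step0G k C₀ C e Z E r₁) :
    H3 (2 * C₀ ^ 2 * (Θ ^ 2 * 64 ^ 6 + (C + e * 64 ^ 7))) Z E r := by
  intro ι _ _ Φ hΦ
  have hr : 0 < r := h1.trans_le h0
  have hf : Bd (Sge r : Cfg ι → ℝ) := bd_Sge hr
  have h2 := step0_bb hC he hE h1 hr h hs hΦ (bdG hf (C₀ * (Z / r)) (C₀ ^ 2 * r⁻¹))
    fun X Δ hΔ hc => pt hC₀ (by positivity : 0 < r⁻¹) hΔ rfl (by
      have := hc.d3 r h0
      rwa [mul_add, div_eq_inv_mul Δ r] at this)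
  have h3 := ex_sq hΦ.sm hf (by positivity) (by positivity) h2
  simp only [max_eq_left (Sge_nonneg r _)] at h3
  have h4 := mul_le_mul_of_nonneg_right (z_sq h1 hr hZ h) (Nm_nonneg Φ)
  have h5 := mul_le_mul_of_nonneg_left h4 (by positivity : 0 ≤ 2 * C₀ ^ 2 * r⁻¹ ^ 2)
  have h6 := mul_le_mul_of_nonneg_left (nm_le (r := r) hE hΦ)
    (by positivity : 0 ≤ 2 * C₀ ^ 2 * (Θ ^ 2 * 64 ^ 6) * r⁻¹)
  simp only [div_eq_mul_inv] at h3 ⊢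
  nlinarith

lemma base4 {Θ Z E r₁ r : ℝ} (hE : IsLB Z E) (h1 : 0 < r₁) (hr : 0 < r)
    (hZ : Z * r₁ ^ 3 = Θ) (h : r ≤ 8 * r₁) : LR (1 + Θ ^ 2 * 8 ^ 6) Z E r := by
  intro ι _ _ Φ hΦ β hβ h0 hs
  have hS : Bd (Sw β : Cfg ι → ℝ) := bd_Sw hβ (by positivity : 0 < 8 * r) hs
  have h2 : Ex Φ (fun X => ∑ j, β (X j) * Vscr Z (2 * r) X (X j)) ≤
      Ex Φ (fun X => Z ^ 2 * r⁻¹ + r * Sw β X ^ 2) := by
    refine Ex_mono hΦ.sm (loc_sum _ fun j _ => loc_Vscr hβ Z _ j)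
      ((Bd.const _).add ((hS.pow 2).const_mul r)).loc fun X _ => ?_
    have h3 : ∑ j, β (X j) * Vscr Z (2 * r) X (X j) ≤ Z * Sw β X := by
      unfold Sw
      rw [Finset.mul_sum]
      refine Finset.sum_le_sum fun j _ => ?_
      have h4 : Vscr Z (2 * r) X (X j) ≤ Z * ‖X j‖⁻¹ := by
        unfold Vscr
        have : 0 ≤ ∑ i, if ‖X i‖ < 2 * r then ‖X j - X i‖⁻¹ else 0 :=
          Finset.sum_nonneg fun _ _ => by split_ifs <;> positivity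
        linarith
      have := mul_le_mul_of_nonneg_left h4 (h0 (X j))
      linarith
    have h4 : 0 ≤ r⁻¹ * (Z - r * Sw β X) ^ 2 := by positivity
    have e : r⁻¹ * (Z - r * Sw β X) ^ 2 = Z ^ 2 * r⁻¹ + r * Sw β X ^ 2 - 2 * (Z * Sw β X) := by
      field_simp; ring
    have h5 : 0 ≤ Z ^ 2 * r⁻¹ + r * Sw β X ^ 2 := by positivity
    linarith
  rw [Ex_add hΦ.sm (Bd.const _).loc ((hS.pow 2).const_mul r).loc, Ex_const, Ex_const_mul] at h2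
  have h4 := mul_le_mul_of_nonneg_right (z_sq h1 hr hZ h) (Nm_nonneg Φ)
  have h5 := mul_le_mul_of_nonneg_left h4 (by positivity : 0 ≤ r⁻¹)
  have h6 := mul_le_mul_of_nonneg_left (nm_le (r := r) hE hΦ)
    (by positivity : 0 ≤ Θ ^ 2 * 8 ^ 6)
  have h7 := hE.bb_nonneg hΦ hr.le
  have h8 : 0 ≤ r * Ex Φ fun X => Sw β X ^ 2 :=
    mul_nonneg hr.le (Ex_nonneg Φ fun X => sq_nonneg _)
  have h9 := mul_nonneg (by positivity : 0 ≤ Θ ^ 2 * 8 ^ 6) h8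
  nlinarith

lemma step_bb {k : Cs} {C Z E s : ℝ} (hC : 0 ≤ C) (hs : 0 < s) (h : StepG k C 1 Z E s)
    {ι : Type} [Fintype ι] [DecidableEq ι] {Φ : Cfg ι → ℂ} (hΦ : Core Φ) {G : Cfg ι → ℝ}
    (hG : Bd G) (hc : ∀ X Δ, 0 ≤ Δ → Cert k Z s X Δ → G X ≤ Δ) :
    Ex Φ G ≤ (C + 1) * bb Z E s Φ := by
  have h2 := h ι Φ hΦ G hG hc
  have h3 := mul_le_mul_of_nonneg_left (ee_le (Z := Z) (E := E) (Φ := Φ) hs) hC
  linarith

lemma up1 {k : Cs} (hk : k.Pos) {C Z E s : ℝ} (hC : 0 ≤ C) (hE : IsLB Z E) (hs : 0 < s)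
    (h : StepG k C 1 Z E s) : H1 (2 * k.C ^ 2 * (C + 2) * 64 ^ 6) Z E (64 * s) := by
  intro ι _ _ Φ hΦ
  have hkC : 0 < k.C := by linarith [hk.C]
  have hf : Bd fun X : Cfg ι => Z - Nlt (64 * s) X := (Bd.const Z).sub (bd_Nlt _)
  have h2 := step_bb hC hs h hΦ (bdG hf (k.C * s⁻¹ ^ 3) (k.C ^ 2 * s)) fun X Δ hΔ hc =>
    pt hkC hs hΔ rfl (by simpa only [mul_add] using hc.d1)
  have h3 := ex_sq hΦ.sm hf (by positivity) (by positivity) h2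
  have h4 := mul_le_mul_of_nonneg_left (nm_le (r := s) hE hΦ)
    (by positivity : 0 ≤ 2 * k.C ^ 2 * s)
  have e : 2 * k.C ^ 2 * s * (s⁻¹ ^ 7 * Nm Φ) = 2 * (k.C * s⁻¹ ^ 3) ^ 2 * Nm Φ := by
    field_simp
  have h5 := mul_le_mul_of_nonneg_left
    (bb_le (r := 64 * s) (L := 64) hE hΦ hs (by positivity) (by norm_num) le_rfl)
    (by positivity : 0 ≤ 2 * k.C ^ 2 * s * (C + 2))
  linarith

lemma up3 {k : Cs} (hk : k.Pos) {C Z E s : ℝ} (hC : 0 ≤ C) (hE : IsLB Z E) (hs : 0 < s)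
    (h : StepG k C 1 Z E s) : H3 (2 * k.C ^ 2 * (C + 2) * 64 ^ 8) Z E (64 * s) := by
  intro ι _ _ Φ hΦ
  have hkC : 0 < k.C := by linarith [hk.C]
  have hf : Bd (Sge (64 * s) : Cfg ι → ℝ) := bd_Sge (by positivity)
  have h2 := step_bb hC hs h hΦ (bdG hf (k.C * s⁻¹ ^ 4) (k.C ^ 2 * s⁻¹)) fun X Δ hΔ hc =>
    pt hkC (by positivity : 0 < s⁻¹) hΔ rfl (by
      have := hc.d2
      rwa [mul_add, div_eq_inv_mul Δ s] at this)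
  have h3 := ex_sq hΦ.sm hf (by positivity) (by positivity) h2
  simp only [max_eq_left (Sge_nonneg (64 * s) _)] at h3
  have h4 := mul_le_mul_of_nonneg_left (nm_le (r := s) hE hΦ)
    (by positivity : 0 ≤ 2 * k.C ^ 2 * s⁻¹)
  have h5 := mul_le_mul_of_nonneg_left
    (bb_le (r := 64 * s) (L := 64) hE hΦ hs (by positivity) (by norm_num) le_rfl)
    (by positivity : 0 ≤ 2 * k.C ^ 2 * s⁻¹ * (C + 2))
  have e : 2 * k.C ^ 2 * (C + 2) * 64 ^ 8 / (64 * s) = 2 * k.C ^ 2 * s⁻¹ * (C + 2) * 64 ^ 7 := by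
    field_simp
  rw [e]
  linarith

lemma small {C₂ s : ℝ} (hC : 0 < C₂) (hs : 0 < s) (h : s ≤ C₂⁻¹ ^ 20) :
    C₂ * s ^ (1 / 20 : ℝ) ≤ 1 := by
  have h1 : s ^ (1 / 20 : ℝ) ≤ (C₂⁻¹ ^ 20) ^ (1 / 20 : ℝ) :=
    Real.rpow_le_rpow hs.le h (by norm_num)
  have e : (C₂⁻¹ ^ 20) ^ (1 / 20 : ℝ) = C₂⁻¹ := by
    have := Real.pow_rpow_inv_natCast (x := C₂⁻¹) (by positivity) (n := 20) (by norm_num)
    rw [one_div]
    exact_mod_cast this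
  rw [e] at h1
  calc C₂ * s ^ (1 / 20 : ℝ) ≤ C₂ * C₂⁻¹ := mul_le_mul_of_nonneg_left h1 hC.le
    _ = 1 := mul_inv_cancel₀ hC.ne'

lemma scale_ind {P : ℝ → Prop} {r₁ D : ℝ} (h1 : 0 < r₁)
    (h : ∀ r, r₁ ≤ r → r ≤ D → (∀ s, r₁ ≤ s → s ≤ r / 8 → P s) → P r) :
    ∀ r, r₁ ≤ r → r ≤ D → P r := by
  have key : ∀ n : ℕ, ∀ r, r₁ ≤ r → r ≤ D → r ≤ 8 ^ n * r₁ → P r := by
    intro n
    induction n with
    | zero =>
      intro r h2 h3 h4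
      refine h r h2 h3 fun s h5 h6 => ?_
      exfalso
      linarith
    | succ n ih =>
      intro r h2 h3 h4
      refine h r h2 h3 fun s h5 h6 => ih s h5 (by linarith) ?_
      rw [pow_succ] at h4
      linarith
  intro r h2 h3
  obtain ⟨n, hn⟩ := pow_unbounded_of_one_lt (r / r₁) (by norm_num : (1 : ℝ) < 8)
  exact key n r h2 h3 ((div_le_iff₀ h1).1 hn.le)

lemma cube_root {Θ Z D : ℝ} (hΘ : 0 < Θ) (hD : 0 < D) (hZ : Θ / D ^ 3 ≤ Z) :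
    ∃ r₁, 0 < r₁ ∧ r₁ ≤ D ∧ Z * r₁ ^ 3 = Θ := by
  have hZ0 : 0 < Z := lt_of_lt_of_le (by positivity) hZ
  have e : ((Θ / Z) ^ ((3 : ℕ) : ℝ)⁻¹) ^ 3 = Θ / Z :=
    Real.rpow_inv_natCast_pow (by positivity) (by norm_num)
  refine ⟨(Θ / Z) ^ ((3 : ℕ) : ℝ)⁻¹, by positivity, ?_, ?_⟩
  · refine le_of_pow_le_pow_left₀ (n := 3) (by norm_num) hD.le ?_
    rw [e, div_le_iff₀ hZ0]
    rw [div_le_iff₀ (by positivity)] at hZ
    linarith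
  · rw [e]; field_simp

end IND

open IND in
theorem st_ind (h1 : St_kl) (h2 : St_h2) : St_ind := by
  rintro k hk ⟨C₁, hC₁, hstep⟩ ⟨Θ, hΘ, C₀, hC₀, C₁', hC₁', hstep0⟩
  have hC : 0 < C₁ + C₁' := by positivity
  obtain ⟨c, hc, M₀, hM₀, e, he, hkl⟩ := h1 k hk C₀ hC₀ (C₁ + C₁') hC
  obtain ⟨K₀, hK₀, hh2⟩ := h2 c hc M₀ hM₀
  obtain ⟨K, hK, k0, k1, k2, k3, k4, k5⟩ : ∃ K > 0, K₀ ≤ K ∧ Θ ^ 2 * 64 ^ 6 ≤ K ∧
      4 * C₀ ^ 2 * (C₁ + C₁' + e * 64 ^ 7) ≤ K ∧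
      2 * C₀ ^ 2 * (Θ ^ 2 * 64 ^ 6 + (C₁ + C₁' + e * 64 ^ 7)) ≤ K ∧
      2 * k.C ^ 2 * (C₁ + C₁' + 2) * 64 ^ 6 ≤ K ∧ 2 * k.C ^ 2 * (C₁ + C₁' + 2) * 64 ^ 8 ≤ K := by
    have a1 : 0 ≤ Θ ^ 2 * 64 ^ 6 := by positivity
    have a2 : 0 ≤ 4 * C₀ ^ 2 * (C₁ + C₁' + e * 64 ^ 7) := by positivity
    have a3 : 0 ≤ 2 * C₀ ^ 2 * (Θ ^ 2 * 64 ^ 6 + (C₁ + C₁' + e * 64 ^ 7)) := by positivity
    have a4 : 0 ≤ 2 * k.C ^ 2 * (C₁ + C₁' + 2) * 64 ^ 6 := by positivity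
    have a5 : 0 ≤ 2 * k.C ^ 2 * (C₁ + C₁' + 2) * 64 ^ 8 := by positivity
    generalize Θ ^ 2 * 64 ^ 6 = b1 at *
    generalize 4 * C₀ ^ 2 * (C₁ + C₁' + e * 64 ^ 7) = b2 at *
    generalize 2 * C₀ ^ 2 * (b1 + (C₁ + C₁' + e * 64 ^ 7)) = b3 at *
    generalize 2 * k.C ^ 2 * (C₁ + C₁' + 2) * 64 ^ 6 = b4 at *
    generalize 2 * k.C ^ 2 * (C₁ + C₁' + 2) * 64 ^ 8 = b5 at *
    exact ⟨K₀ + b1 + b2 + b3 + b4 + b5, by positivity, by linarith, by linarith, by linarith,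
      by linarith, by linarith, by linarith⟩
  obtain ⟨K₁, hK₁, hstep⟩ := hstep K hK
  have hT : 0 < 1 + Θ ^ 2 * 8 ^ 6 := by positivity
  obtain ⟨C₂, hC₂, D₁, hD₁, hstep⟩ := hstep (K₁ + (1 + Θ ^ 2 * 8 ^ 6)) (by positivity)
  obtain ⟨D₂, hD₂, hkl⟩ := hkl C₂ hC₂
  obtain ⟨D₃, hD₃, hh2⟩ := hh2 K hK
  obtain ⟨Z₀, hstep0⟩ := hstep0 e he
  obtain ⟨D, hD, d1, d2, d3, d4⟩ : ∃ D > 0, D ≤ D₁ ∧ D ≤ D₂ ∧ D ≤ D₃ ∧ D ≤ C₂⁻¹ ^ 20 :=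
    ⟨min (min D₁ D₂) (min D₃ (C₂⁻¹ ^ 20)), by positivity,
      (min_le_left _ _).trans (min_le_left _ _), (min_le_left _ _).trans (min_le_right _ _),
      (min_le_right _ _).trans (min_le_left _ _), (min_le_right _ _).trans (min_le_right _ _)⟩
  refine ⟨K, hK, K₁ + (1 + Θ ^ 2 * 8 ^ 6), by positivity, D / 8, by positivity,
    max Z₀ (Θ / D ^ 3), fun Z hZ => ?_⟩
  obtain ⟨r₁, hr₁, hr₁D, hZr⟩ := cube_root hΘ hD ((le_max_right _ _).trans hZ)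
  have hZ0 : 0 ≤ Z := le_trans (by positivity) ((le_max_right _ _).trans hZ)
  obtain ⟨hex, hs0⟩ := hstep0 Z r₁ ((le_max_left _ _).trans hZ) hr₁ hZr
  refine ⟨hex, fun E hE => ?_⟩
  have hs0' : Step0G k C₀ (C₁ + C₁') e Z E r₁ := step0G_mono hE (by linarith) (hs0 E hE)
  have main := scale_ind (P := fun r => HH K Z E r ∧ LR (K₁ + (1 + Θ ^ 2 * 8 ^ 6)) Z E (r / 8))
    (D := D) hr₁ (by
      intro r hr1 hrD ih
      have hr : 0 < r := hr₁.trans_le hr1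
      rcases le_total r (64 * r₁) with h | h
      · exact ⟨⟨h1_mono hE hr k1 (base1 hE hZ0 hr₁ hr hZr h),
          h2_mono hE hr k2 (base2 hC₀ hC.le he.le hE hr₁ hr1 h hs0'),
          h3_mono hE hr k3 (base3 hC₀ hC.le he.le hE hZ0 hr₁ hZr hr1 h hs0')⟩,
          lr_mono hE (by positivity) (by linarith)
            (base4 hE hr₁ (by positivity) hZr (by linarith))⟩
      · have hS : ∀ s, r₁ ≤ s → s ≤ r / 8 →
            StepG k C₁ (C₂ * s ^ (1 / 20 : ℝ)) Z E s ∧ LR K₁ Z E s := fun s hs1 hs2 =>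
          hstep Z E s hZ0 (hr₁.trans_le hs1) (by linarith) hE (ih s hs1 hs2).1 (ih s hs1 hs2).2
        have hs : 0 < r / 64 := by positivity
        have hG : StepG k (C₁ + C₁') 1 Z E (r / 64) :=
          stepG_mono hE hs (by linarith) (small hC₂ hs (by linarith))
            (hS (r / 64) (by linarith) (by linarith)).1
        have e64 : 64 * (r / 64) = r := by ring
        have g1 := up1 hk hC.le hE hs hG
        have g3 := up3 hk hC.le hE hs hG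
        rw [e64] at g1 g3
        have g3' := h3_mono hE hr k5 g3
        have gk := hkl Z E r₁ r hE hr₁ h (by linarith) hs0' fun s hs1 hs2 =>
          stepG_mono hE (hr₁.trans_le hs1) (by linarith) le_rfl (hS s hs1 (by linarith)).1
        exact ⟨⟨h1_mono hE hr k4 g1, h2_mono hE hr k0 (hh2 Z E r hr (by linarith) hE gk g3'),
          g3'⟩, lr_mono hE (by positivity) (by linarith) (hS (r / 8) (by linarith) le_rfl).2⟩)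
    D hr₁D le_rfl
  have e8 : 8 * (D / 8) = D := by ring
  rw [e8]
  exact ⟨main.2, main.1⟩

end Pool.Agent.Lib.ION
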