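import Pool.Agent.Lib.ION.Basic

/-!
# The ionization bound for ground states: the inner kinetic bound
-/

open MeasureTheory Set Metric Real Filter Topology
open scoped ContDiff ComplexConjugate

set_option linter.unusedSectionVars false

noncomputable section

namespace Pool.Agent.Lib.ION

open Pool.Agent.Lib.MP_689e73_mp

/-- the weight `(1 + |y|^2 / ρ^2)⁻¹` -/
def innerChi (ρ : ℝ) (y : E3) : ℝ := (1 + ‖ρ⁻¹ • y‖ ^ 2)⁻¹

def innerI0 : ℝ := ∫ y : E3, (1 + ‖y‖ ^ 2)⁻¹ ^ 2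

/-- the square of `c` cut at radius `ρ` -/
def innerInd (c : E3 → ℝ) (ρ : ℝ) (y : E3) : ℝ := if ‖y‖ ≤ ρ then c y ^ 2 else 0

lemma innerI0_nonneg : 0 ≤ innerI0 := integral_nonneg fun _ => by positivity

lemma inner_int0 : Integrable fun y : E3 => (1 + ‖y‖ ^ 2)⁻¹ ^ 2 := by
  have h := integrable_rpow_neg_one_add_norm_sq (E := E3) (μ := volume) (r := 4)
    (by simp; norm_num)
  refine h.congr (Eventually.of_forall fun y => ?_)
  have : (-4 / 2 : ℝ) = -((2 : ℕ) : ℝ) := by norm_num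
  simp only [this]
  rw [Real.rpow_neg (by positivity), Real.rpow_natCast, inv_pow]

lemma innerChi_int {ρ : ℝ} (hρ : 0 < ρ) : Integrable fun y => innerChi ρ y ^ 2 :=
  inner_int0.comp_smul (inv_ne_zero hρ.ne')

lemma innerChi_integral {ρ : ℝ} (hρ : 0 < ρ) : ∫ y, innerChi ρ y ^ 2 = ρ ^ 3 * innerI0 := by
  have h := Measure.integral_comp_inv_smul_of_nonneg (μ := (volume : Measure E3))
    (fun y : E3 => (1 + ‖y‖ ^ 2)⁻¹ ^ 2) hρ.le
  simpa [innerChi, innerI0] using h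

lemma innerChi_pos (ρ : ℝ) (y : E3) : 0 < innerChi ρ y := by unfold innerChi; positivity

lemma innerChi_le (ρ : ℝ) (y : E3) : innerChi ρ y ≤ 1 :=
  inv_le_one_of_one_le₀ (by have := sq_nonneg ‖ρ⁻¹ • y‖; linarith)

lemma innerChi_ge {ρ : ℝ} (hρ : 0 < ρ) {y : E3} (hy : ‖y‖ ≤ ρ) : 1 / 2 ≤ innerChi ρ y := by
  have h1 : ‖ρ⁻¹ • y‖ ≤ 1 := by
    rw [norm_smul, Real.norm_of_nonneg (by positivity), inv_mul_le_iff₀ hρ]; simpa using hy
  have h2 : ‖ρ⁻¹ • y‖ ^ 2 ≤ 1 := pow_le_one₀ (norm_nonneg _) h1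
  rw [innerChi, one_div]
  exact inv_anti₀ (by positivity) (by linarith)

lemma innerChi_smooth (ρ : ℝ) : ContDiff ℝ ∞ (innerChi ρ) := by
  refine ContDiff.inv (contDiff_const.add ?_) fun y => by positivity
  exact (contDiff_norm_sq ℝ).comp (contDiff_id.const_smul ρ⁻¹)

lemma innerChi_g1 {ρ : ℝ} (hρ : 0 < ρ) (y : E3) :
    g1 (innerChi ρ) y ≤ innerChi ρ y ^ 2 / ρ ^ 2 := by
  have h1 : HasFDerivAt (fun y : E3 => ρ⁻¹ • y) (ρ⁻¹ • ContinuousLinearMap.id ℝ E3) y :=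
    (hasFDerivAt_id y).const_smul ρ⁻¹
  have h2 := (h1.norm_sq.const_add 1)
  have h3 := (hasDerivAt_inv (x := 1 + ‖ρ⁻¹ • y‖ ^ 2) (by positivity)).comp_hasFDerivAt y h2
  have e : innerChi ρ = (fun y : ℝ => y⁻¹) ∘ fun y : E3 => 1 + ‖ρ⁻¹ • y‖ ^ 2 := rfl
  have h4 : ∀ a, fderiv ℝ (innerChi ρ) y (e1 a) =
      -(2 * ρ⁻¹ * innerChi ρ y ^ 2) * (ρ⁻¹ • y) a := fun a => by
    rw [e, h3.fderiv]
    simp [e1, EuclideanSpace.inner_single_right]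
    ring
  simp only [g1, h4, mul_pow]
  rw [← Finset.mul_sum, ← EuclideanSpace.real_norm_sq_eq, neg_sq, mul_pow, mul_pow]
  set t := ‖ρ⁻¹ • y‖ ^ 2 with ht
  have ht0 : 0 ≤ t := by positivity
  have h5 : innerChi ρ y * (1 + t) = 1 := inv_mul_cancel₀ (by positivity)
  have h6 : 4 * innerChi ρ y ^ 2 * t ≤ 1 := by
    nlinarith [sq_nonneg (innerChi ρ y * (1 - t))]
  have h7 : 0 ≤ innerChi ρ y ^ 2 / ρ ^ 2 := by positivity
  calc 2 ^ 2 * ρ⁻¹ ^ 2 * (innerChi ρ y ^ 2) ^ 2 * t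
      = innerChi ρ y ^ 2 / ρ ^ 2 * (4 * innerChi ρ y ^ 2 * t) := by field_simp; ring
    _ ≤ innerChi ρ y ^ 2 / ρ ^ 2 * 1 := mul_le_mul_of_nonneg_left h6 h7
    _ = _ := mul_one _

lemma innerInd_bd {c : E3 → ℝ} (hc : Bd c) (ρ : ℝ) : Bd (innerInd c ρ) :=
  Bd.ite (measurableSet_le (by fun_prop) measurable_const) (hc.pow 2) (Bd.const 0)

lemma innerInd_nonneg (c : E3 → ℝ) (ρ : ℝ) (y : E3) : 0 ≤ innerInd c ρ y := by
  unfold innerInd; split_ifs <;> positivity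

lemma innerInd_le (c : E3 → ℝ) (ρ : ℝ) (y : E3) : innerInd c ρ y ≤ c y ^ 2 := by
  unfold innerInd; split_ifs
  · exact le_rfl
  · positivity

lemma innerInd_le_chi (c : E3 → ℝ) {ρ : ℝ} (hρ : 0 < ρ) (y : E3) :
    innerInd c ρ y ≤ 4 * (innerChi ρ y * c y) ^ 2 := by
  unfold innerInd; split_ifs with h
  · have := innerChi_ge hρ h
    have h2 : 1 ≤ 4 * innerChi ρ y ^ 2 := by nlinarith
    nlinarith [sq_nonneg (c y)]
  · positivity

section Many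

variable {ι : Type} [Fintype ι] [DecidableEq ι] {Φ : Cfg ι → ℂ}

lemma inner_fderiv {χ : E3 → ℝ} (hχ : Differentiable ℝ χ) (hΦ : Differentiable ℝ Φ) (j : ι)
    (a : Fin 3) (X : Cfg ι) : fderiv ℝ (mulj χ j Φ) X (ev j a) =
      (χ (X j) : ℂ) * fderiv ℝ Φ X (ev j a) + (fderiv ℝ χ (X j) (e1 a) : ℝ) * Φ X := by
  have h0 : Differentiable ℝ fun X : Cfg ι => χ (X j) := hχ.comp (differentiable_apply j)
  have h1 : HasFDerivAt (fun X : Cfg ι => ((χ (X j) : ℝ) : ℂ))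
      (Complex.ofRealCLM.comp (fderiv ℝ (fun X : Cfg ι => χ (X j)) X)) X :=
    Complex.ofRealCLM.hasFDerivAt.comp X (h0 X).hasFDerivAt
  have h2 := (h1.mul (hΦ X).hasFDerivAt).fderiv
  have e : mulj χ j Φ = (fun X => ((χ (X j) : ℝ) : ℂ)) * Φ := rfl
  rw [e, h2]
  simp [mul_comm, fderiv_comp_apply hχ]

lemma inner_kin {χ : E3 → ℝ} (hχ : Differentiable ℝ χ) (h1 : ∀ y, |χ y| ≤ 1)
    (hΦ : Differentiable ℝ Φ) (j : ι) (X : Cfg ι) :
    kin (mulj χ j Φ) j X ≤ 2 * kin Φ j X + 2 * (g1 χ (X j) * ‖Φ X‖ ^ 2) := by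
  simp only [kin, g1, Finset.mul_sum, Finset.sum_mul, ← Finset.sum_add_distrib]
  refine Finset.sum_le_sum fun a _ => ?_
  rw [inner_fderiv hχ hΦ]
  have h2 := norm_add_le ((χ (X j) : ℂ) * fderiv ℝ Φ X (ev j a))
    (((fderiv ℝ χ (X j) (e1 a) : ℝ) : ℂ) * Φ X)
  simp only [norm_mul, Complex.norm_real, Real.norm_eq_abs] at h2
  have h3 : |χ (X j)| * ‖fderiv ℝ Φ X (ev j a)‖ ≤ ‖fderiv ℝ Φ X (ev j a)‖ :=
    mul_le_of_le_one_left (norm_nonneg _) (h1 _)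
  have h4 := pow_le_pow_left₀ (norm_nonneg _) (h2.trans (add_le_add h3 le_rfl)) 2
  rw [← sq_abs (fderiv ℝ χ (X j) (e1 a))]
  nlinarith [sq_nonneg (‖fderiv ℝ Φ X (ev j a)‖ - |fderiv ℝ χ (X j) (e1 a)| * ‖Φ X‖)]

lemma inner_Kn {c : E3 → ℝ} (hc : ContDiff ℝ ∞ c) (hb : Bd c) (hΦ : Sm Φ) {ρ : ℝ} (hρ : 0 < ρ)
    (j : ι) : Kn (mulj (fun y => innerChi ρ y * c y) j Φ) j ≤ 2 * Kn (mulj c j Φ) j +
      2 / ρ ^ 2 * Ex Φ fun X => (innerChi ρ (X j) * c (X j)) ^ 2 := by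
  have e : mulj (fun y => innerChi ρ y * c y) j Φ = mulj (innerChi ρ) j (mulj c j Φ) := by
    ext X; simp [mulj, mul_assoc]
  have hΨ := hΦ.mulj hc j
  have hχ : Bd (innerChi ρ) := ⟨(innerChi_smooth ρ).continuous.measurable, 1, fun y => by
    rw [abs_of_pos (innerChi_pos ρ y)]; exact innerChi_le ρ y⟩
  have i1 := hΦ.int (((hχ.mul hb).pow 2).comp (measurable_pi_apply j)).loc
  rw [e, Kn, Kn, Ex, ← integral_const_mul, ← integral_const_mul,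
    ← integral_add ((hΨ.int_kin j).const_mul 2) (i1.const_mul _)]
  refine integral_mono ((hΨ.mulj (innerChi_smooth ρ) j).int_kin j)
    (((hΨ.int_kin j).const_mul 2).add (i1.const_mul _)) fun X => ?_
  refine (inner_kin ((innerChi_smooth ρ).differentiable (by simp)) (fun y => by
    rw [abs_of_pos (innerChi_pos ρ y)]; exact innerChi_le ρ y)
    (hΨ.smooth.differentiable (by simp)) j X).trans (add_le_add le_rfl ?_)
  have h1 := mul_le_mul_of_nonneg_right (innerChi_g1 hρ (X j)) (sq_nonneg ‖mulj c j Φ X‖)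
  have h2 : ‖mulj c j Φ X‖ ^ 2 = c (X j) ^ 2 * ‖Φ X‖ ^ 2 := by
    simp [mulj, mul_pow]
  rw [h2] at h1 ⊢
  calc 2 * (g1 (innerChi ρ) (X j) * (c (X j) ^ 2 * ‖Φ X‖ ^ 2))
      ≤ 2 * (innerChi ρ (X j) ^ 2 / ρ ^ 2 * (c (X j) ^ 2 * ‖Φ X‖ ^ 2)) := by linarith
    _ = _ := by ring

lemma inner_cell (h1 : St_cell) (hΦ : Core Φ) {χ : E3 → ℝ} (hχ : ContDiff ℝ ∞ χ) {ρ K u : ℝ}
    (hρ : 0 < ρ) (hle : ∀ y, χ y ^ 2 ≤ K * innerChi ρ y ^ 2) (hu : 0 ≤ u) :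
    u ^ 2 * Ex Φ (fun X => ∑ j, χ (X j) ^ 2) ≤
      ∑ j, Kn (mulj χ j Φ) j + 2 / 5 * c1 * K * innerI0 * (u ^ 5 * ρ ^ 3) * Nm Φ := by
  have i0 := (innerChi_int hρ).const_mul K
  have i1 : Integrable fun y => χ y ^ 2 :=
    i0.mono' (hχ.continuous.pow 2).aestronglyMeasurable (Eventually.of_forall fun y => by
      rw [Real.norm_of_nonneg (sq_nonneg _)]; exact hle y)
  have h := h1 ι Finset.univ Φ χ (u ^ 2) hΦ.sm hΦ.anti hχ i1 (sq_nonneg u)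
  have e : (u ^ 2) ^ (5 / 2 : ℝ) = u ^ 5 := by
    rw [← Real.rpow_natCast u 2, ← Real.rpow_mul hu, ← Real.rpow_natCast u 5]; norm_num
  have h2 : ∫ y, χ y ^ 2 ≤ K * (ρ ^ 3 * innerI0) := by
    rw [← innerChi_integral hρ, ← integral_const_mul]
    exact integral_mono i1 i0 hle
  rw [e] at h
  have h3 : 2 / 5 * c1 * u ^ 5 * (∫ y, χ y ^ 2) * Nm Φ ≤
      2 / 5 * c1 * u ^ 5 * (K * (ρ ^ 3 * innerI0)) * Nm Φ := by
    have := c1_pos
    exact mul_le_mul_of_nonneg_right (mul_le_mul_of_nonneg_left h2 (by positivity)) (Nm_nonneg Φ)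
  nlinarith

lemma inner_ball (h1 : St_cell) (hΦ : Core Φ) {c : E3 → ℝ} (hc : ContDiff ℝ ∞ c)
    (hb : ∀ y, |c y| ≤ 1) {ρ w u : ℝ} (hρ : 0 < ρ) (hw : 0 ≤ w) (hu : 0 ≤ u)
    (hwu : 8 * w + 2 / ρ ^ 2 ≤ u ^ 2) :
    w * Ex Φ (fun X => ∑ j, innerInd c ρ (X j)) ≤
      ∑ j, Kn (mulj c j Φ) j + 1 / 5 * c1 * innerI0 * (u ^ 5 * ρ ^ 3) * Nm Φ := by
  have bc : Bd c := ⟨hc.continuous.measurable, 1, hb⟩
  have hχ : Bd (innerChi ρ) := ⟨(innerChi_smooth ρ).continuous.measurable, 1, fun y => by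
    rw [abs_of_pos (innerChi_pos ρ y)]; exact innerChi_le ρ y⟩
  have h := inner_cell h1 hΦ ((innerChi_smooth ρ).mul hc) (K := 1) hρ (fun y => by
    have : c y ^ 2 ≤ 1 := (sq_le_one_iff_abs_le_one _).2 (hb y)
    nlinarith [sq_nonneg (innerChi ρ y)]) hu
  have l1 : ∀ j : ι, LocallyIntegrable fun X : Cfg ι => (innerChi ρ (X j) * c (X j)) ^ 2 :=
    fun j => (((hχ.mul bc).pow 2).comp (measurable_pi_apply j)).loc
  have h2 := Finset.sum_le_sum fun j (_ : j ∈ Finset.univ) => inner_Kn hc bc hΦ.sm hρ j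
  rw [Finset.sum_add_distrib, ← Finset.mul_sum, ← Finset.mul_sum,
    ← Ex_sum Finset.univ hΦ.sm fun j _ => l1 j] at h2
  have h3 : Ex Φ (fun X => ∑ j, innerInd c ρ (X j)) ≤
      4 * Ex Φ fun X => ∑ j, (innerChi ρ (X j) * c (X j)) ^ 2 := by
    rw [← Ex_const_mul]
    refine Ex_mono hΦ.sm (loc_sum _ fun j _ => ((innerInd_bd bc ρ).comp
      (measurable_pi_apply j)).loc) (loc_const_mul (loc_sum _ fun j _ => l1 j) 4) fun X _ => ?_
    rw [Finset.mul_sum]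
    exact Finset.sum_le_sum fun j _ => innerInd_le_chi c hρ _
  have h4 : 0 ≤ Ex Φ fun X => ∑ j, (innerChi ρ (X j) * c (X j)) ^ 2 :=
    Ex_nonneg Φ fun X => by positivity
  have h5 := mul_le_mul_of_nonneg_right hwu h4
  have h6 := mul_le_mul_of_nonneg_left h3 hw
  nlinarith

lemma inner_base (h2 : St_hardy) (hΦ : Sm Φ) {c : E3 → ℝ} (hc : ContDiff ℝ ∞ c)
    (hb : ∀ y, |c y| ≤ 1) {Z ρ : ℝ} (hZ : 0 ≤ Z) (hρ : 8 * Z * ρ ≤ 1) :
    Ex Φ (fun X => ∑ j, innerInd c ρ (X j) * (Z * ‖X j‖⁻¹)) ≤ 1 / 2 * ∑ j, Kn (mulj c j Φ) j := by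
  have bc : Bd c := ⟨hc.continuous.measurable, 1, hb⟩
  have l1 : ∀ j : ι, LocallyIntegrable fun X : Cfg ι => innerInd c ρ (X j) * (Z * ‖X j‖⁻¹) :=
    fun j => loc_mul_bd (loc_const_mul (loc_nuc j) Z)
      ((innerInd_bd bc ρ).comp (measurable_pi_apply j))
  rw [Ex_sum _ hΦ fun j _ => l1 j, Finset.mul_sum]
  refine Finset.sum_le_sum fun j _ => ?_
  obtain ⟨i1, h3⟩ := (h2 ι _ (hΦ.mulj hc j)).1 j
  have h4 : Ex Φ (fun X => innerInd c ρ (X j) * (Z * ‖X j‖⁻¹)) ≤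
      1 / 8 * Ex (mulj c j Φ) fun X => ‖X j‖⁻¹ ^ 2 := by
    rw [Ex, Ex, ← integral_const_mul]
    refine integral_mono (hΦ.int (l1 j)) (i1.const_mul _) fun X => ?_
    have e : ‖mulj c j Φ X‖ ^ 2 = c (X j) ^ 2 * ‖Φ X‖ ^ 2 := by simp [mulj, mul_pow]
    simp only [e]
    have h5 : innerInd c ρ (X j) * (Z * ‖X j‖⁻¹) ≤ 1 / 8 * ‖X j‖⁻¹ ^ 2 * c (X j) ^ 2 := by
      unfold innerInd
      split_ifs with h
      · have h6 : Z * ‖X j‖⁻¹ ≤ 1 / 8 * ‖X j‖⁻¹ ^ 2 := by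
          rcases eq_or_lt_of_le (norm_nonneg (X j)) with h0 | h0
          · simp [← h0]
          · have h7 : Z ≤ 1 / 8 * ‖X j‖⁻¹ := by
              rw [← div_eq_mul_inv, le_div_iff₀ h0]
              nlinarith
            have := mul_le_mul_of_nonneg_right h7 (inv_nonneg.2 h0.le)
            nlinarith
        nlinarith [sq_nonneg (c (X j))]
      · rw [zero_mul]; positivity
    have := mul_le_mul_of_nonneg_right h5 (sq_nonneg ‖Φ X‖)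
    linarith
  linarith

lemma inner_ind (h1 : St_cell) (h2 : St_hardy) (hΦ : Core Φ) {c : E3 → ℝ} (hc : ContDiff ℝ ∞ c)
    (hb : ∀ y, |c y| ≤ 1) {z : ℝ} (hz : 0 < z) (n : ℕ) : ∀ τ s : ℝ, 0 < τ → τ ≤ 1 → 0 < s →
    8 * z ^ 2 * s ^ 2 ≤ 256 ^ n →
    Ex Φ (fun X => ∑ j, innerInd c (s ^ 2) (X j) * (z ^ 2 * ‖X j‖⁻¹)) ≤
      (1 / 2 + τ ^ 2) * ∑ j, Kn (mulj c j Φ) j +
        65 ^ 5 / 5 * c1 * innerI0 * (z ^ 5 * s / τ ^ 3) * Nm Φ := by
  have bc : Bd c := ⟨hc.continuous.measurable, 1, hb⟩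
  have hT : 0 ≤ ∑ j, Kn (mulj c j Φ) j := Finset.sum_nonneg fun j _ => Kn_nonneg _ _
  have hN := Nm_nonneg Φ
  have hI := innerI0_nonneg
  have hc1 := c1_pos
  have base : ∀ τ s : ℝ, 0 < τ → 0 < s → 8 * z ^ 2 * s ^ 2 ≤ 1 →
      Ex Φ (fun X => ∑ j, innerInd c (s ^ 2) (X j) * (z ^ 2 * ‖X j‖⁻¹)) ≤
        (1 / 2 + τ ^ 2) * ∑ j, Kn (mulj c j Φ) j +
          65 ^ 5 / 5 * c1 * innerI0 * (z ^ 5 * s / τ ^ 3) * Nm Φ := fun τ s hτ hs h => by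
    have h3 := inner_base h2 hΦ.sm hc hb (sq_nonneg z) h
    have h4 : 0 ≤ 65 ^ 5 / 5 * c1 * innerI0 * (z ^ 5 * s / τ ^ 3) * Nm Φ := by positivity
    have h5 := mul_nonneg (sq_nonneg τ) hT
    linarith
  induction n with
  | zero => exact fun τ s hτ _ hs h => base τ s hτ hs (by simpa using h)
  | succ n ih =>
    intro τ s hτ hτ1 hs h
    rcases le_or_gt (8 * z ^ 2 * s ^ 2) 1 with h0 | h0
    · exact base τ s hτ hs h0
    have h3 := ih (τ / 2) (s / 16) (by positivity) (by linarith) (by positivity) (by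
      rw [pow_succ (256 : ℝ) n] at h; nlinarith)
    have h4 := inner_ball h1 hΦ hc hb (ρ := s ^ 2) (w := 512 * (z / (s * τ)) ^ 2)
      (u := 65 * (z / (s * τ))) (by positivity) (by positivity) (by positivity) (by
        have a1 : 2 / (s ^ 2) ^ 2 ≤ 16 * (z / s) ^ 2 := by
          rw [div_pow, ← mul_div_assoc, div_le_div_iff₀ (by positivity) (by positivity)]
          nlinarith [mul_le_mul_of_nonneg_left h0.le (sq_nonneg s)]
        have a2 : z / s ≤ z / (s * τ) :=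
          div_le_div_of_nonneg_left hz.le (by positivity) (by nlinarith)
        have a3 := pow_le_pow_left₀ (by positivity) a2 2
        nlinarith [sq_nonneg (z / (s * τ))])
    have l1 : ∀ (ρ : ℝ) (j : ι), LocallyIntegrable
        fun X : Cfg ι => innerInd c ρ (X j) * (z ^ 2 * ‖X j‖⁻¹) :=
      fun ρ j => loc_mul_bd (loc_const_mul (loc_nuc j) _)
        ((innerInd_bd bc ρ).comp (measurable_pi_apply j))
    have l2 : LocallyIntegrable fun X : Cfg ι => ∑ j, innerInd c (s ^ 2) (X j) :=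
      loc_sum _ fun j _ => ((innerInd_bd bc _).comp (measurable_pi_apply j)).loc
    have h5 : Ex Φ (fun X => ∑ j, innerInd c (s ^ 2) (X j) * (z ^ 2 * ‖X j‖⁻¹)) ≤
        Ex Φ (fun X => ∑ j, innerInd c ((s / 16) ^ 2) (X j) * (z ^ 2 * ‖X j‖⁻¹)) +
          256 * z ^ 2 / s ^ 2 * Ex Φ (fun X => ∑ j, innerInd c (s ^ 2) (X j)) := by
      rw [← Ex_const_mul, ← Ex_add hΦ.sm (loc_sum _ fun j _ => l1 _ j) (loc_const_mul l2 _)]
      refine Ex_mono hΦ.sm (loc_sum _ fun j _ => l1 _ j)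
        ((loc_sum _ fun j _ => l1 _ j).add (loc_const_mul l2 _)) fun X _ => ?_
      rw [Finset.mul_sum, ← Finset.sum_add_distrib]
      refine Finset.sum_le_sum fun j _ => ?_
      have b0 := innerInd_nonneg c (s ^ 2) (X j)
      by_cases hj : ‖X j‖ ≤ (s / 16) ^ 2
      · have b1 : innerInd c (s ^ 2) (X j) ≤ innerInd c ((s / 16) ^ 2) (X j) := by
          rw [innerInd, innerInd, if_pos hj]
          exact innerInd_le c (s ^ 2) (X j)
        have b2 := mul_le_mul_of_nonneg_right b1 (by positivity : 0 ≤ z ^ 2 * ‖X j‖⁻¹)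
        have b3 : 0 ≤ 256 * z ^ 2 / s ^ 2 * innerInd c (s ^ 2) (X j) := by positivity
        linarith
      · have b1 : ‖X j‖⁻¹ ≤ 256 / s ^ 2 := by
          refine (inv_anti₀ (by positivity) (not_le.1 hj).le).trans (le_of_eq ?_)
          field_simp; norm_num
        have b2 : z ^ 2 * ‖X j‖⁻¹ ≤ 256 * z ^ 2 / s ^ 2 :=
          (mul_le_mul_of_nonneg_left b1 (sq_nonneg z)).trans (le_of_eq (by ring))
        have b3 := mul_le_mul_of_nonneg_left b2 b0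
        have b4 : 0 ≤ innerInd c ((s / 16) ^ 2) (X j) * (z ^ 2 * ‖X j‖⁻¹) :=
          mul_nonneg (innerInd_nonneg _ _ _) (by positivity)
        linarith
    have h6 := mul_le_mul_of_nonneg_left h4 (by positivity : 0 ≤ τ ^ 2 / 2)
    have e1 : τ ^ 2 / 2 * (512 * (z / (s * τ)) ^ 2 *
        Ex Φ (fun X => ∑ j, innerInd c (s ^ 2) (X j))) =
        256 * z ^ 2 / s ^ 2 * Ex Φ (fun X => ∑ j, innerInd c (s ^ 2) (X j)) := by
      field_simp; ring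
    have e2 : τ ^ 2 / 2 * (∑ j, Kn (mulj c j Φ) j + 1 / 5 * c1 * innerI0 *
        ((65 * (z / (s * τ))) ^ 5 * (s ^ 2) ^ 3) * Nm Φ) = τ ^ 2 / 2 * ∑ j, Kn (mulj c j Φ) j +
        1 / 2 * (65 ^ 5 / 5 * c1 * innerI0 * (z ^ 5 * s / τ ^ 3) * Nm Φ) := by
      field_simp
    have e3 : 65 ^ 5 / 5 * c1 * innerI0 * (z ^ 5 * (s / 16) / (τ / 2) ^ 3) * Nm Φ =
        1 / 2 * (65 ^ 5 / 5 * c1 * innerI0 * (z ^ 5 * s / τ ^ 3) * Nm Φ) := by
      field_simp; ring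
    rw [e1, e2] at h6
    rw [e3] at h3
    have h7 := mul_nonneg (sq_nonneg τ) hT
    nlinarith

end Many

theorem st_inner (h1 : St_cell) (h2 : St_hardy) : St_inner := by
  have hI := innerI0_nonneg
  have hc1 := c1_pos
  refine ⟨8 * 65 ^ 5 / 5 * c1 * innerI0 + 1, by positivity, ?_⟩
  intro Z r v c ι _ _ Φ hZ hr hv hc hb hs hΦ
  have bc : Bd c := ⟨hc.continuous.measurable, 1, hb⟩
  have hZ0 : 0 < Z := by linarith
  have hN := Nm_nonneg Φ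
  have hind : ∀ y, innerInd c r y = c y ^ 2 := fun y => by
    unfold innerInd
    split_ifs with h
    · rfl
    · rw [hs y (not_le.1 h).le]; norm_num
  obtain ⟨n, hn⟩ := pow_unbounded_of_one_lt (8 * √Z ^ 2 * √r ^ 2) (by norm_num : (1 : ℝ) < 256)
  have h3 := inner_ind h1 h2 hΦ hc hb (Real.sqrt_pos.2 hZ0) n (1 / 2) √r (by norm_num)
    (by norm_num) (Real.sqrt_pos.2 hr) hn.le
  have h4 := inner_cell h1 hΦ hc (K := 4) (u := 2 * √v) hr (fun y => by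
    have a1 := innerInd_le_chi c hr y
    have a2 : c y ^ 2 ≤ 1 := (sq_le_one_iff_abs_le_one _).2 (hb y)
    rw [hind] at a1
    nlinarith [sq_nonneg (innerChi r y)]) (by positivity)
  have e1 : √Z ^ 5 * √r / (1 / 2) ^ 3 = 8 * (Z ^ 2 * √(Z * r)) := by
    rw [Real.sqrt_mul hZ0.le, show √Z ^ 5 = (√Z ^ 2) ^ 2 * √Z by ring, Real.sq_sqrt hZ0.le]
    ring
  have e2 : (2 * √v) ^ 5 = 32 * (v ^ 2 * √v) := by
    rw [show (2 * √v) ^ 5 = 32 * ((√v ^ 2) ^ 2 * √v) by ring, Real.sq_sqrt hv]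
  have e3 : (2 * √v) ^ 2 = 4 * v := by rw [mul_pow, Real.sq_sqrt hv]; norm_num
  rw [e1, Real.sq_sqrt hr.le, Real.sq_sqrt hZ0.le] at h3
  rw [e2, e3] at h4
  simp only [hind] at h3
  have l1 : LocallyIntegrable fun X : Cfg ι => ∑ j, c (X j) ^ 2 * (Z * ‖X j‖⁻¹) :=
    loc_sum _ fun j _ => loc_mul_bd (loc_const_mul (loc_nuc j) _)
      ((bc.pow 2).comp (measurable_pi_apply j))
  have l2 : LocallyIntegrable fun X : Cfg ι => ∑ j, c (X j) ^ 2 :=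
    loc_sum _ fun j _ => ((bc.pow 2).comp (measurable_pi_apply j)).loc
  have e4 : Ex Φ (fun X => ∑ j, c (X j) ^ 2 * (Z * ‖X j‖⁻¹ + v)) =
      Ex Φ (fun X => ∑ j, c (X j) ^ 2 * (Z * ‖X j‖⁻¹)) + v * Ex Φ fun X => ∑ j, c (X j) ^ 2 := by
    rw [← Ex_const_mul, ← Ex_add hΦ.sm l1 (loc_const_mul l2 v)]
    refine Ex_congr fun X _ => ?_
    rw [Finset.mul_sum, ← Finset.sum_add_distrib]
    exact Finset.sum_congr rfl fun j _ => by ring
  rw [e4]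
  have p1 : 0 ≤ Z ^ 2 * √(Z * r) * Nm Φ := by positivity
  have p2 : 0 ≤ Z ^ 2 * Nm Φ := by positivity
  have p3 : 0 ≤ v ^ 2 * √v * r ^ 3 * Nm Φ := by positivity
  have p4 : 0 ≤ r⁻¹ ^ 2 * Nm Φ := by positivity
  have p0 : 0 ≤ c1 * innerI0 := by positivity
  have q2 := mul_nonneg p0 p2
  have q3 := mul_nonneg p0 p3
  have q4 := mul_nonneg p0 p4
  nlinarith

end Pool.Agent.Lib.ION
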