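import Pool.Agent.Lib.ION.Basic

/-!
# The normalised radial bump
-/

open MeasureTheory Set Metric Real Filter Topology
open scoped ContDiff

noncomputable section

namespace Pool.Agent.Lib.ION

open Pool.Agent.Lib.MP_689e73_mp

lemma ker_sm : ContDiff ℝ ∞ fun y : E3 => smoothTransition (1 - ‖y‖ ^ 2) :=
  smoothTransition.contDiff.comp (contDiff_const.sub (contDiff_norm_sq ℝ))

lemma ker_zero {t : ℝ} (h : 1 ≤ t) : smoothTransition (1 - t ^ 2) = 0 :=
  smoothTransition.zero_of_nonpos (by nlinarith)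

lemma ker_pos : 0 < ∫ y : E3, smoothTransition (1 - ‖y‖ ^ 2) ^ 2 := by
  refine Continuous.integral_pos_of_hasCompactSupport_nonneg_nonzero (x := 0)
    (ker_sm.continuous.pow 2) ?_ (fun _ => sq_nonneg _) (by simp)
  refine HasCompactSupport.intro (isCompact_closedBall 0 1) fun y hy => ?_
  rw [mem_closedBall_zero_iff, not_le] at hy
  simp [ker_zero hy.le]

lemma ker_u : ContDiff ℝ ∞ fun y : E3 => gp0 ‖y‖ := ker_sm.div_const _

lemma ker_one : ∫ y : E3, gp0 ‖y‖ ^ 2 = 1 := by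
  simp only [gp0, div_pow, sq_sqrt ker_pos.le]
  rw [integral_div, div_self ker_pos.ne']

lemma ker_gp0 {t : ℝ} (h : 1 ≤ t) : gp0 t = 0 := by rw [gp0, ker_zero h, zero_div]

lemma ker_bd : Bd gp0 := by
  refine Bd.div_const ⟨?_, 1, fun t => ?_⟩ _
  · exact (smoothTransition.continuous.comp (by fun_prop)).measurable
  · rw [abs_of_nonneg (smoothTransition.nonneg _)]
    exact smoothTransition.le_one _

lemma ker_rad {s : ℝ} (hs : 0 < s) : Rad (gam s) s :=
  ⟨((ker_bd.comp (φ := fun t => t / s) (by fun_prop)).pow 2).const_mul _, fun t ht => by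
    rw [gam, ker_gp0 ((one_le_div hs).2 ht.le)]
    simp⟩

lemma ker_gs {s : ℝ} (hs : 0 < s) :
    gs s = fun y => (s * √s)⁻¹ * (fun y : E3 => gp0 ‖y‖) (s⁻¹ • y) := by
  funext y
  simp only [gs, norm_smul, norm_inv, Real.norm_of_nonneg hs.le, div_eq_inv_mul]

lemma ker_norm {s : ℝ} (hs : 0 < s) (y : E3) : ‖s • y‖ = s * ‖y‖ := by
  rw [norm_smul, Real.norm_of_nonneg hs.le]

lemma ker_sq {s : ℝ} (hs : 0 < s) : (s * √s)⁻¹ ^ 2 = (s ^ 3)⁻¹ := by
  rw [inv_pow, mul_pow, sq_sqrt hs.le]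
  ring

lemma ker_g1 {s : ℝ} (hs : 0 < s) (y : E3) :
    g1 (gs s) (s • y) = (s ^ 5)⁻¹ * g1 (fun y : E3 => gp0 ‖y‖) y := by
  have h1 : HasFDerivAt (fun y : E3 => gp0 ‖y‖) (fderiv ℝ (fun y : E3 => gp0 ‖y‖) y)
      (s⁻¹ • s • y) := by
    rw [inv_smul_smul₀ hs.ne']
    exact (ker_u.differentiable (by simp) y).hasFDerivAt
  have h2 := (h1.comp (s • y) ((hasFDerivAt_id (s • y)).const_smul s⁻¹)).const_mul (s * √s)⁻¹
  rw [g1, g1, ker_gs hs, Finset.mul_sum]
  refine Finset.sum_congr rfl fun a _ => ?_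
  rw [show fderiv ℝ (fun y => (s * √s)⁻¹ * (fun y : E3 => gp0 ‖y‖) (s⁻¹ • y)) (s • y) = _ from
    h2.fderiv]
  simp only [smul_apply, ContinuousLinearMap.comp_apply,
    ContinuousLinearMap.id_apply, map_smul, smul_eq_mul, mul_pow, ker_sq hs]
  field_simp

theorem st_ker (h1 : St_newton) : St_ker := by
  set A := ∫ y, g1 (fun y : E3 => gp0 ‖y‖) y with hA
  set B := ∫ y : E3, ‖y‖⁻¹ * gp0 ‖y‖ ^ 2 with hB
  refine ⟨max (max A B) 1, by positivity, fun s hs => ⟨?_, fun y hy => ?_, fun y => ?_,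
    ker_rad hs, fun t => by unfold gam; positivity, ?_, ?_, fun c x => ?_⟩⟩
  · rw [ker_gs hs]
    exact contDiff_const.mul (ker_u.comp (contDiff_id.const_smul _))
  · rw [gs, ker_gp0 ((one_le_div hs).2 hy), mul_zero]
  · rw [gs, gam, mul_pow, ker_sq hs]
  · rw [integral_scale hs]
    simp only [gam, ker_norm hs, mul_div_cancel_left₀ _ hs.ne']
    rw [integral_const_mul, ker_one]
    field_simp
  · rw [integral_scale hs]
    simp only [ker_g1 hs]
    rw [integral_const_mul, ← hA, show s ^ 3 * ((s ^ 5)⁻¹ * A) = A / s ^ 2 by field_simp]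
    gcongr
    exact (le_max_left _ _).trans (le_max_left _ _)
  · rw [h1 _ s c x (ker_rad hs)]
    have n : ∀ t, 0 ≤ gam s t := fun t => by unfold gam; positivity
    have i : Integrable fun y : E3 => ‖y‖⁻¹ * gam s ‖y‖ := by
      simpa using ((ker_rad hs).ll 0).psi_int 0
    refine (integral_mono_of_nonneg (Eventually.of_forall fun y => mul_nonneg (n _)
      (by positivity)) i ?_).trans ?_
    · filter_upwards [compl_mem_ae_iff.2 (measure_singleton (0 : E3))] with y hy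
      rw [mul_comm]
      exact mul_le_mul_of_nonneg_right (inv_anti₀ (norm_pos_iff.2 hy) (le_max_right _ _)) (n _)
    · rw [integral_scale hs]
      have e : ∀ y : E3, ‖s • y‖⁻¹ * gam s ‖s • y‖ = (s ^ 4)⁻¹ * (‖y‖⁻¹ * gp0 ‖y‖ ^ 2) :=
        fun y => by
          rw [gam, ker_norm hs, mul_div_cancel_left₀ _ hs.ne', mul_inv]
          ring
      simp only [e]
      rw [integral_const_mul, ← hB, show s ^ 3 * ((s ^ 4)⁻¹ * B) = B / s by field_simp]
      gcongr
      exact (le_max_right _ _).trans (le_max_left _ _)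

end Pool.Agent.Lib.ION
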