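import Pool.Agent.Lib.ION.Basic

/-!
# Excess charge costs energy: the chain of scales
-/

open MeasureTheory Set Metric Real Filter Topology

set_option linter.unusedSectionVars false

noncomputable section

namespace Pool.Agent.Lib.ION

open Pool.Agent.Lib.MP_689e73_mp

section

variable {ι : Type} [Fintype ι] [DecidableEq ι]

lemma kl_cnt_lt {s : Set E3} {X : Cfg ι} {a : ℝ} :
    cnt s X < a ↔ ∃ S : Finset ι, (S.card : ℝ) < a ∧ ∀ j, j ∉ S → X j ∉ s := by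
  classical
  have e : cnt s X = ((Finset.univ.filter fun j => X j ∈ s).card : ℝ) := by
    simp only [cnt, indicator, Finset.sum_boole]
  rw [e]
  refine ⟨fun h => ⟨_, h, fun j hj k => hj (by simpa using k)⟩, fun ⟨S, h1, h2⟩ => ?_⟩
  refine lt_of_le_of_lt (Nat.cast_le.2 (Finset.card_le_card fun j hj => ?_)) h1
  by_contra k
  exact h2 j k (by simpa using hj)

lemma kl_meas_PP (c κ r : ℝ) : MeasurableSet {X : Cfg ι | PP c κ r X} := by
  have e : {X : Cfg ι | PP c κ r X}ᶜ = ⋃ S : Finset ι, ⋃ _ : (S.card : ℝ) < c * κ ^ 3 * r⁻¹ ^ 3,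
      Prod.snd '' {z : sphere (0 : E3) (4 * r) × Cfg ι |
        ∀ j, j ∉ S → κ * r ≤ dist (z.2 j) z.1} := by
    ext X
    simp only [mem_compl_iff, mem_ofPred_eq, PP, not_forall, not_le, kl_cnt_lt, mem_iUnion,
      mem_ball, not_lt, mem_image]
    constructor
    · rintro ⟨p, hp, S, h1, h2⟩
      exact ⟨S, h1, (⟨p, mem_sphere_zero_iff_norm.2 hp⟩, X), h2, rfl⟩
    · rintro ⟨S, h1, ⟨p, Y⟩, h2, rfl⟩
      exact ⟨p.1, mem_sphere_zero_iff_norm.1 p.2, S, h1, h2⟩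
  rw [← MeasurableSet.compl_iff, e]
  refine MeasurableSet.iUnion fun S => MeasurableSet.iUnion fun _ => IsClosed.measurableSet ?_
  refine isClosedMap_snd_of_compactSpace _ ?_
  simp only [ofPred_forall]
  exact isClosed_iInter fun j => isClosed_iInter fun _ =>
    isClosed_le continuous_const (by fun_prop)

open Classical in
/-- the indicator function of a property -/
def klI (Q : Cfg ι → Prop) (X : Cfg ι) : ℝ := if Q X then 1 else 0

lemma kl_bd {Q : Cfg ι → Prop} (h : MeasurableSet {X | Q X}) : Bd (klI Q) := by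
  classical
  exact Bd.ite h (Bd.const 1) (Bd.const 0)

lemma kl_le {Q : Cfg ι → Prop} {X : Cfg ι} {a Δ : ℝ} (h0 : 0 ≤ Δ) (h : Q X → a ≤ Δ) :
    a * klI Q X ≤ Δ := by
  unfold klI
  split_ifs with k
  · simpa using h k
  · simpa using h0

lemma kl_all {Φ : Cfg ι → ℂ} {Q : Cfg ι → Prop} (h : ∀ X, Φ X ≠ 0 → Q X) :
    Ex Φ (klI Q) = Nm Φ := by
  rw [Ex_congr (G := klI Q) (G' := fun _ => 1) fun X hX => if_pos (h X hX), Ex_const, one_mul]

lemma kl_sq {M C R Δ : ℝ} (hM : 0 ≤ M) (hR : 0 < R) (hΔ : 0 ≤ Δ) (h : M ≤ C * √(4 * R * Δ)) :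
    M ^ 2 / R ≤ 4 * C ^ 2 * Δ := by
  have := pow_le_pow_left₀ hM h 2
  rw [mul_pow, Real.sq_sqrt (by positivity)] at this
  rw [div_le_iff₀ hR]
  linarith

/-- one link of the chain -/
lemma kl_step {k : Cs} (hk : k.Pos) {C₁ C₂ B Z E r : ℝ} {Φ : Cfg ι → ℂ} (hΦ : Core Φ)
    (hE : IsLB Z E) (hr : 0 < r) (hC₁ : 0 < C₁) (he : C₂ * r ^ (1 / 20 : ℝ) ≤ 1)
    (hB : B + C₂ * k.T ^ 7 / k.ε = B * k.T ^ (1 / 20 : ℝ))
    (hs : StepG k C₁ (C₂ * r ^ (1 / 20 : ℝ)) Z E r)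
    (ih : Ex Φ (klI fun X => ¬PP k.c k.κ r X) ≤
      2 * (C₁ + 1) / k.ε * r ^ 7 * ee Z E Φ + (1 / 4 + B * r ^ (1 / 20 : ℝ)) * Nm Φ)
    {Q : Cfg ι → Prop} (hQ : MeasurableSet {X | Q X})
    (h : ∀ X Δ, 0 ≤ Δ → Cert k Z r X Δ → PP k.c k.κ r X → Q X →
      Δ ≤ k.ε * (k.T * r)⁻¹ ^ 7 → False) :
    Ex Φ (klI Q) ≤ 2 * (C₁ + 1) / k.ε * (k.T * r) ^ 7 * ee Z E Φ +
      (1 / 4 + B * (k.T * r) ^ (1 / 20 : ℝ)) * Nm Φ := by
  have hT := hk.T
  have hε := hk.ε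
  have T0 : 0 < k.T := by linarith
  have m1 := kl_bd (kl_meas_PP (ι := ι) k.c k.κ r).compl
  have m2 : Bd (klI fun X => PP k.c k.κ r X ∧ Q X) := kl_bd ((kl_meas_PP k.c k.κ r).inter hQ)
  have h1 : Ex Φ (klI Q) ≤ Ex Φ (klI fun X => ¬PP k.c k.κ r X) +
      Ex Φ (klI fun X => PP k.c k.κ r X ∧ Q X) := by
    refine le_of_le_of_eq (Ex_mono hΦ.sm (kl_bd hQ).loc (m1.add m2).loc fun X _ => ?_)
      (Ex_add hΦ.sm m1.loc m2.loc)
    by_cases a : PP k.c k.κ r X <;> by_cases b : Q X <;> simp [klI, a, b]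
  have h2 := hs ι Φ hΦ _ (m2.const_mul (k.ε * (k.T * r)⁻¹ ^ 7)) fun X Δ h0 hc =>
    kl_le h0 fun a => le_of_not_gt fun b => h X Δ h0 hc a.1 a.2 b.le
  rw [Ex_const_mul, bb] at h2
  have e0 := hE.ee_nonneg hΦ
  have n0 := Nm_nonneg Φ
  rw [Real.mul_rpow T0.le hr.le]
  generalize ee Z E Φ = x at *
  generalize Nm Φ = n at *
  generalize r ^ (1 / 20 : ℝ) = s at *
  generalize Ex Φ (klI fun X => PP k.c k.κ r X ∧ Q X) = y at *
  have h3 : y ≤ (C₁ + C₂ * s) / k.ε * (k.T * r) ^ 7 * x + C₂ * k.T ^ 7 / k.ε * s * n := by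
    have := mul_le_mul_of_nonneg_left h2 (show 0 ≤ (k.T * r) ^ 7 / k.ε by positivity)
    refine le_of_eq_of_le (by field_simp) (this.trans (le_of_eq ?_))
    field_simp
    ring
  have h4 : (C₁ + C₂ * s) / k.ε * (k.T * r) ^ 7 * x ≤ (C₁ + 1) / k.ε * (k.T * r) ^ 7 * x := by
    gcongr
  have h5 : 2 * r ^ 7 ≤ (k.T * r) ^ 7 := by
    rw [mul_pow]
    have : (2 : ℝ) ^ 7 ≤ k.T ^ 7 := by gcongr
    have := pow_pos hr 7
    nlinarith
  have h6 : (C₁ + 1) / k.ε * (2 * r ^ 7) * x ≤ (C₁ + 1) / k.ε * (k.T * r) ^ 7 * x := by gcongr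
  have h7 : B * (k.T ^ (1 / 20 : ℝ) * s) * n = B * s * n + C₂ * k.T ^ 7 / k.ε * s * n := by
    rw [← mul_assoc, ← hB]
    ring
  have h8 : 2 * (C₁ + 1) / k.ε * r ^ 7 * x = (C₁ + 1) / k.ε * (2 * r ^ 7) * x := by ring
  have h9 : 2 * (C₁ + 1) / k.ε * (k.T * r) ^ 7 * x =
      2 * ((C₁ + 1) / k.ε * (k.T * r) ^ 7 * x) := by ring
  nlinarith

/-- the start of the chain -/
lemma kl_start {k : Cs} (hk : k.Pos) {C₀ C₁ e B Z E r : ℝ} {Φ : Cfg ι → ℂ} (hΦ : Core Φ)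
    (hE : IsLB Z E) (hr : 0 < r) (hC₁ : 0 < C₁) (he : e ≤ k.ε / 4) (hB : 0 ≤ B)
    (hs : Step0G k C₀ C₁ e Z E r) :
    Ex Φ (klI fun X => ¬PP k.c k.κ r X) ≤
      2 * (C₁ + 1) / k.ε * r ^ 7 * ee Z E Φ + (1 / 4 + B * r ^ (1 / 20 : ℝ)) * Nm Φ := by
  have hε := hk.ε
  have m1 : Bd (klI fun X : Cfg ι => ¬PP k.c k.κ r X) := kl_bd (kl_meas_PP k.c k.κ r).compl
  have h2 := hs ι Φ hΦ _ (m1.const_mul (k.ε * r⁻¹ ^ 7)) fun X Δ h0 hc =>
    kl_le h0 fun a => le_of_not_gt fun b => a (hc.d1 b.le)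
  rw [Ex_const_mul] at h2
  have e0 := hE.ee_nonneg hΦ
  have n0 := Nm_nonneg Φ
  have s0 : 0 ≤ r ^ (1 / 20 : ℝ) := by positivity
  generalize ee Z E Φ = x at *
  generalize Nm Φ = n at *
  generalize r ^ (1 / 20 : ℝ) = s at *
  generalize Ex Φ (klI fun X => ¬PP k.c k.κ r X) = y at *
  have h3 : y ≤ C₁ / k.ε * r ^ 7 * x + e / k.ε * n := by
    have := mul_le_mul_of_nonneg_left h2 (show 0 ≤ r ^ 7 / k.ε by positivity)
    refine le_of_eq_of_le ?_ (this.trans (le_of_eq ?_)) <;> field_simp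
  have h4 : C₁ / k.ε * r ^ 7 * x ≤ 2 * (C₁ + 1) / k.ε * r ^ 7 * x := by
    gcongr
    linarith
  have h5 : e / k.ε * n ≤ (1 / 4 + B * s) * n := by
    refine mul_le_mul_of_nonneg_right ?_ n0
    have : e / k.ε ≤ 1 / 4 := by
      rw [div_le_iff₀ hε]
      linarith
    have := mul_nonneg hB s0
    linarith
  linarith

end

lemma kl_cross {P : ℕ → Prop} (h0 : P 0) (h1 : ∃ n, ¬P n) : ∃ J, P J ∧ ¬P (J + 1) := by
  by_contra h
  obtain ⟨n, hn⟩ := h1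
  exact hn (Nat.rec h0 (fun j hj => by_contra fun k => h ⟨j, hj, k⟩) n)

theorem st_kl : St_kl := by
  intro k hk C₀ hC₀ C₁ hC₁
  have hT := hk.T
  have hε := hk.ε
  have hC := hk.C
  have T0 : 0 < k.T := by linarith
  have C0 : 0 < k.C := by linarith
  have T1 : 0 < k.T ^ (1 / 20 : ℝ) - 1 :=
    sub_pos.2 (Real.one_lt_rpow (by linarith) (by norm_num))
  refine ⟨min (8 * C₀ ^ 2 * C₁)⁻¹ (16 * (C₁ + 1) * k.T ^ 7 * k.C ^ 2)⁻¹, by positivity,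
    √(4 * k.C ^ 2 * k.ε * 64 ^ 7), by positivity, min (k.ε / 4) (k.C ^ 2 * k.ε / (2 * C₀ ^ 2)),
    by positivity, fun C₂ hC₂ => ?_⟩
  obtain ⟨B, hB0, hB⟩ : ∃ B > 0, B + C₂ * k.T ^ 7 / k.ε = B * k.T ^ (1 / 20 : ℝ) :=
    ⟨C₂ * k.T ^ 7 / k.ε / (k.T ^ (1 / 20 : ℝ) - 1), by positivity, by
      generalize k.T ^ (1 / 20 : ℝ) = t at *
      field_simp
      ring⟩
  have small : ∀ r, 0 < r → r ≤ (4 * (B + C₂))⁻¹ ^ 20 → (B + C₂) * r ^ (1 / 20 : ℝ) ≤ 1 / 4 := by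
    intro r hr h
    have h1 := Real.rpow_le_rpow hr.le h (show (0 : ℝ) ≤ 1 / 20 by norm_num)
    rw [one_div (20 : ℝ), show (20 : ℝ) = (20 : ℕ) by norm_num,
      Real.pow_rpow_inv_natCast (by positivity) (by norm_num)] at h1
    rw [one_div (20 : ℝ), show (20 : ℝ) = (20 : ℕ) by norm_num]
    refine (mul_le_mul_of_nonneg_left h1 (by positivity)).trans (le_of_eq ?_)
    field_simp
  refine ⟨(4 * (B + C₂))⁻¹ ^ 20 / k.T, by positivity, ?_⟩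
  intro Z E r₁ R hE hr₁ hR hD h0 hs ι _ _ Φ hΦ M hM hsupp
  have R0 : 0 < R := by linarith
  have M0 : 0 < M := lt_of_lt_of_le (by positivity) hM
  have e0 := hE.ee_nonneg hΦ
  have n0 := Nm_nonneg Φ
  have mQ : MeasurableSet {X : Cfg ι | M ≤ Nlt (4 * R) X - Z} :=
    measurableSet_le measurable_const ((bd_Nlt _).meas.sub_const Z)
  have MR : 0 < M ^ 2 / R := by positivity
  rw [mul_div_assoc]
  by_cases c0 : M ^ 2 / R ≤ 4 * k.C ^ 2 * (k.ε * r₁⁻¹ ^ 7)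
  · obtain ⟨J, c1, c2⟩ := kl_cross
      (P := fun j => M ^ 2 / R ≤ 4 * k.C ^ 2 * (k.ε * (k.T ^ j * r₁)⁻¹ ^ 7)) (by simpa using c0) (by
        have t1 : Tendsto (fun j : ℕ => k.T ^ j * r₁) atTop atTop :=
          (tendsto_pow_atTop_atTop_of_one_lt (by linarith)).atTop_mul_const hr₁
        have t2 := ((t1.inv_tendsto_atTop.pow 7).const_mul k.ε).const_mul (4 * k.C ^ 2)
        simp only [ne_eq, OfNat.ofNat_ne_zero, not_false_eq_true, zero_pow, mul_zero] at t2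
        obtain ⟨n, hn⟩ := (t2.eventually (gt_mem_nhds MR)).exists
        exact ⟨n, not_le.2 hn⟩)
    have rJ : 0 < k.T ^ J * r₁ := by positivity
    have hJ : k.T ^ J * r₁ ≤ R / 64 := by
      have h1 := pow_le_pow_left₀ (by positivity) hM 2
      rw [mul_pow, Real.sq_sqrt (by positivity)] at h1
      have h2 := (div_le_div_of_nonneg_right h1 R0.le).trans c1
      generalize k.T ^ J * r₁ = ρ at *
      have h3 := mul_le_mul_of_nonneg_left h2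
        (show 0 ≤ ρ ^ 7 * R ^ 7 / (4 * k.C ^ 2 * k.ε * 64 ^ 7) by positivity)
      refine le_of_pow_le_pow_left₀ (n := 7) (by norm_num) (by positivity) ?_
      refine le_of_eq_of_le ?_ (h3.trans (le_of_eq ?_)) <;> field_simp
    have hj : ∀ j ≤ J, r₁ ≤ k.T ^ j * r₁ ∧ k.T ^ j * r₁ ≤ R / 64 := fun j hj =>
      ⟨le_mul_of_one_le_left hr₁.le (one_le_pow₀ (by linarith)),
        (mul_le_mul_of_nonneg_right (pow_le_pow_right₀ (by linarith) hj) hr₁.le).trans hJ⟩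
    have hTR : k.T * R ≤ (4 * (B + C₂))⁻¹ ^ 20 := by
      rw [le_div_iff₀ T0] at hD
      linarith
    have he : ∀ j ≤ J, C₂ * (k.T ^ j * r₁) ^ (1 / 20 : ℝ) ≤ 1 := fun j h => by
      have h1 := small (k.T ^ j * r₁) (by positivity) (by
        have := (hj j h).2
        nlinarith)
      have : 0 ≤ B * (k.T ^ j * r₁) ^ (1 / 20 : ℝ) := by positivity
      linarith
    have inv : ∀ j ≤ J, Ex Φ (klI fun X => ¬PP k.c k.κ (k.T ^ j * r₁) X) ≤
        2 * (C₁ + 1) / k.ε * (k.T ^ j * r₁) ^ 7 * ee Z E Φ +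
          (1 / 4 + B * (k.T ^ j * r₁) ^ (1 / 20 : ℝ)) * Nm Φ := by
      intro j
      induction j with
      | zero =>
        intro _
        rw [pow_zero, one_mul]
        exact kl_start hk hΦ hE hr₁ hC₁ (min_le_left _ _) hB0.le h0
      | succ j ih =>
        intro h
        have h' : j ≤ J := by omega
        rw [pow_succ', mul_assoc k.T]
        exact kl_step hk hΦ hE (by positivity) hC₁ (he j h') hB (hs _ (hj j h').1 (hj j h').2)
          (ih h') (kl_meas_PP _ _ _).compl fun X Δ _ hc a b c => b (hc.d3 a c).1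
    have fin := kl_step hk hΦ hE rJ hC₁ (he J le_rfl) hB (hs _ (hj J le_rfl).1 hJ)
      (inv J le_rfl) mQ fun X Δ hΔ hc a b c => c2 (by
        rw [pow_succ' k.T, mul_assoc k.T]
        refine (kl_sq M0.le R0 hΔ (b.trans ((hc.d3 a c).2 _ (by linarith)))).trans ?_
        gcongr)
    rw [kl_all hsupp] at fin
    have h1 := small (k.T * (k.T ^ J * r₁)) (by positivity) (by nlinarith)
    have h2 : 0 ≤ C₂ * (k.T * (k.T ^ J * r₁)) ^ (1 / 20 : ℝ) := by positivity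
    have h3 : (1 / 4 + B * (k.T * (k.T ^ J * r₁)) ^ (1 / 20 : ℝ)) * Nm Φ ≤ 1 / 2 * Nm Φ :=
      mul_le_mul_of_nonneg_right (by linarith) n0
    have h4 : Nm Φ ≤ 4 * (C₁ + 1) / k.ε * (k.T * (k.T ^ J * r₁)) ^ 7 * ee Z E Φ := by
      have : 4 * (C₁ + 1) / k.ε * (k.T * (k.T ^ J * r₁)) ^ 7 * ee Z E Φ =
        2 * (2 * (C₁ + 1) / k.ε * (k.T * (k.T ^ J * r₁)) ^ 7 * ee Z E Φ) := by ring
      linarith
    generalize k.T ^ J * r₁ = ρ at *
    calc _ ≤ (16 * (C₁ + 1) * k.T ^ 7 * k.C ^ 2)⁻¹ * (4 * k.C ^ 2 * (k.ε * ρ⁻¹ ^ 7)) *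
          (4 * (C₁ + 1) / k.ε * (k.T * ρ) ^ 7 * ee Z E Φ) := by
          gcongr
          exact min_le_right _ _
      _ = _ := by field_simp; ring
  · have h2 := h0 ι Φ hΦ _ ((kl_bd mQ).const_mul (M ^ 2 / R / (4 * C₀ ^ 2))) fun X Δ hΔ hc =>
      kl_le hΔ fun a => by
        rw [div_le_iff₀ (by positivity), mul_comm Δ]
        exact kl_sq M0.le R0 hΔ (a.trans (hc.d2 _ (by linarith)))
    rw [Ex_const_mul, kl_all hsupp] at h2
    have h3 : min (k.ε / 4) (k.C ^ 2 * k.ε / (2 * C₀ ^ 2)) * r₁⁻¹ ^ 7 ≤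
        M ^ 2 / R / (8 * C₀ ^ 2) := by
      calc _ ≤ k.C ^ 2 * k.ε / (2 * C₀ ^ 2) * r₁⁻¹ ^ 7 := by
            gcongr
            exact min_le_right _ _
        _ = 4 * k.C ^ 2 * (k.ε * r₁⁻¹ ^ 7) / (8 * C₀ ^ 2) := by field_simp; ring
        _ ≤ _ := by
            gcongr
            exact (not_le.1 c0).le
    have h4 := mul_le_mul_of_nonneg_right h3 n0
    generalize M ^ 2 / R = w at *
    have h5 : w / (8 * C₀ ^ 2) * Nm Φ ≤ C₁ * ee Z E Φ := by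
      have : w / (4 * C₀ ^ 2) * Nm Φ = 2 * (w / (8 * C₀ ^ 2) * Nm Φ) := by field_simp; ring
      linarith
    calc _ ≤ (8 * C₀ ^ 2 * C₁)⁻¹ * w * Nm Φ := by
          gcongr
          exact min_le_left _ _
      _ = C₁⁻¹ * (w / (8 * C₀ ^ 2) * Nm Φ) := by field_simp
      _ ≤ C₁⁻¹ * (C₁ * ee Z E Φ) := by gcongr
      _ = _ := by field_simp

end Pool.Agent.Lib.ION
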