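import Pool.Agent.Lib.ION.Basic

/-!
# The ionization bound for ground states: the universal upper bound for Thomas-Fermi functions
-/

open MeasureTheory Set Metric Real Filter Topology
open scoped ContDiff ComplexConjugate

noncomputable section

namespace Pool.Agent.Lib.ION

open Pool.Agent.Lib.MP_689e73_mp

lemma ko_ext {V : E3 → ℝ} {q a₀ : ℝ} (h : Ext V q a₀) :
    ∃ M > 0, ∀ y, a₀ < ‖y‖ → V y ≤ M / (‖y‖ - a₀) := by
  obtain ⟨m, z, p, hp, -, h⟩ := h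
  refine ⟨∑ α, |z α| + 1, by positivity, fun y hy => ?_⟩
  have h0 : 0 < ‖y‖ - a₀ := sub_pos.2 hy
  rw [h, add_div, Finset.sum_div]
  refine le_trans (Finset.sum_le_sum fun α _ => ?_) (le_add_of_nonneg_right (by positivity))
  have := norm_sub_norm_le y (p α)
  rw [div_eq_mul_inv]
  exact mul_le_mul (le_abs_self _) (inv_anti₀ h0 (by linarith [hp α])) (by positivity)
    (abs_nonneg _)

lemma ko_der (A c : ℝ) {t : ℝ} (ht : t + c ≠ 0) :
    HasDerivAt (fun s => A * s * (s + c)⁻¹ ^ 4)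
      (A * (t + c)⁻¹ ^ 4 - 4 * A * t * (t + c)⁻¹ ^ 5) t ∧
    HasDerivAt (fun s => A * (s + c)⁻¹ ^ 4 - 4 * A * s * (s + c)⁻¹ ^ 5)
      (20 * A * t * (t + c)⁻¹ ^ 6 - 8 * A * (t + c)⁻¹ ^ 5) t := by
  have u : HasDerivAt (fun s : ℝ => (s + c)⁻¹) (-(t + c)⁻¹ ^ 2) t :=
    (((hasDerivAt_id t).add_const c).fun_inv ht).congr_deriv (by simp [div_eq_mul_inv])
  refine ⟨(((hasDerivAt_id t).const_mul A).fun_mul (u.fun_pow 4)).congr_deriv ?_,
    (((u.fun_pow 4).const_mul A).fun_sub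
      (((hasDerivAt_id t).const_mul (4 * A)).fun_mul (u.fun_pow 5))).congr_deriv ?_⟩
  · simp only [id]
    push_cast
    ring
  · simp only [id]
    push_cast
    ring

lemma ko_gp (u : ℝ) :
    c1 * gp (900 * π ^ 2 * u ^ 4) = 20 * (900 * π ^ 2) * u ^ 6 / (4 * π) := by
  rw [gp_of_nonneg (by positivity), rpow_three_halves (by positivity),
    show 900 * π ^ 2 * u ^ 4 = (30 * π * u ^ 2) ^ 2 by ring, Real.sqrt_sq (by positivity), c1]
  field_simp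
  ring

theorem st_ko (h1 : St_harm) (h2 : St_cmp) (h3 : St_rad) : St_ko := by
  refine ⟨9 * (900 * π ^ 2), by positivity, fun V ρ q a₀ a L hV h0 ha hL hρ => ?_⟩
  have kg := ko_gp
  have hA1 : 1 ≤ 900 * π ^ 2 := by nlinarith [Real.pi_gt_three]
  generalize 900 * π ^ 2 = A at *
  have hA : 0 < A := by linarith
  obtain ⟨M, hM, hVM⟩ := ko_ext hV
  have hB : 0 < M / (a - a₀) := div_pos hM (sub_pos.2 h0)
  obtain ⟨e, he, hea, heB⟩ : ∃ e > 0, e ≤ a ∧ M / (a - a₀) ≤ A * e⁻¹ ^ 4 := by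
    refine ⟨min a (M / (a - a₀) + 1)⁻¹, by positivity, min_le_left _ _, ?_⟩
    have k : M / (a - a₀) + 1 ≤ (min a (M / (a - a₀) + 1)⁻¹)⁻¹ :=
      le_inv_of_le_inv₀ (by positivity) (min_le_right _ _)
    have k2 := le_self_pow₀ (le_trans (by linarith) k) (n := 4) (by norm_num)
    nlinarith
  have hx : ∀ t, a ≤ t → 0 < t + (e - a) := fun t ht => by linarith
  obtain ⟨τ, hτ⟩ : ∃ τ : E3 → ℝ, ∀ y, τ y = if a ≤ ‖y‖ ∧ ‖y‖ ≤ L then
      (20 * A * ‖y‖ * (‖y‖ + (e - a))⁻¹ ^ 6 - 8 * A * (‖y‖ + (e - a))⁻¹ ^ 5) / (4 * π * ‖y‖)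
      else 0 := ⟨_, fun _ => rfl⟩
  have haL : a ≤ L := by linarith
  obtain ⟨t1, t2, t3⟩ := h3 _ _
    (fun t => 20 * A * t * (t + (e - a))⁻¹ ^ 6 - 8 * A * (t + (e - a))⁻¹ ^ 5) a L τ ha haL
    (fun t ht => ko_der A (e - a) (hx t ht.1).ne') (by
      have : ContinuousOn (fun t => (t + (e - a))⁻¹) (Icc a L) :=
        ContinuousOn.inv₀ (by fun_prop) fun t ht => (hx t ht.1).ne'
      exact ((continuousOn_const.mul continuousOn_id).mul (this.pow 6)).sub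
        (continuousOn_const.mul (this.pow 5))) hτ
  have hu : 0 < (L + (e - a))⁻¹ := inv_pos.2 (hx L haL)
  have hu1 : 1 ≤ L * (L + (e - a))⁻¹ := by
    rw [← div_eq_mul_inv, one_le_div (hx L haL)]
    linarith
  have hu2 : L * (L + (e - a))⁻¹ ≤ 2 := by
    rw [← div_eq_mul_inv, div_le_iff₀ (hx L haL)]
    linarith
  have hu3 : ∀ t, a < t → t ≤ L → (L + (e - a))⁻¹ ≤ (t - a)⁻¹ := fun t k1 k2 =>
    inv_anti₀ (sub_pos.2 k1) (by linarith)
  generalize (L + (e - a))⁻¹ = u at *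
  generalize hQ : A * a * (a + (e - a))⁻¹ ^ 4 - a * (A * (a + (e - a))⁻¹ ^ 4 -
    4 * A * a * (a + (e - a))⁻¹ ^ 5) = Q at t2
  have f1 : A * u ^ 4 - 4 * A * L * u ^ 5 ≤ 0 := by
    have : 0 < A * u ^ 4 := by positivity
    nlinarith
  have hρ0 := psi_nonneg hρ.dens.nn
  have s1 : ∀ y : E3, a ≤ ‖y‖ → ‖y‖ ≤ L → V y - Q * ‖y - 0‖⁻¹ - psi (fun y => ρ y - τ y) y =
      V y - psi ρ y - A * (‖y‖ + (e - a))⁻¹ ^ 4 + (A * u ^ 4 - 4 * A * L * u ^ 5) :=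
    fun y k1 k2 => by
      have : ‖y‖ ≠ 0 := (ha.trans_le k1).ne'
      rw [hρ.dens.ll.psi_sub t1, t2 y k1 k2, sub_zero]
      field_simp
      ring
  have hH : Harm (fun y => V y - Q * ‖y - 0‖⁻¹) {y | a ≤ ‖y‖} :=
    ((h1.2.2.2.2 V q a₀ hV).mono fun y hy => h0.trans_le hy).sub (((h1.1 0).mono fun y hy k => by
      have hy' : a ≤ ‖y‖ := hy
      rw [mem_singleton_iff.1 k, norm_zero] at hy'
      linarith).const_mul Q)
  have key := h2 (fun y => V y - Q * ‖y - 0‖⁻¹) (fun y => ρ y - τ y) a ha hH.cont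
    (hH.mono fun y (hy : a < ‖y‖) => hy.le) (hρ.dens.ll.sub t1) (fun y hy => by
      have k := hVM y (hy ▸ h0)
      rw [s1 y hy.ge (hy ▸ haL), hy, add_sub_cancel]
      rw [hy] at k
      linarith [hρ0 y]) (fun ε hε => ⟨max L (a₀ + M / ε), fun y hy => by
      have k1 : L ≤ ‖y‖ := (le_max_left _ _).trans hy
      have k2 : a₀ + M / ε ≤ ‖y‖ := (le_max_right _ _).trans hy
      have k3 : 0 < ‖y‖ := by linarith
      have k4 : M / (‖y‖ - a₀) ≤ ε := by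
        rw [div_le_comm₀ (by linarith) hε]
        linarith
      have k5 : psi τ y ≤ Q * ‖y‖⁻¹ := by
        rw [t3 y k1, ← div_eq_mul_inv, ← hQ]
        refine div_le_div_of_nonneg_right ?_ k3.le
        have : 0 ≤ A * L ^ 2 * u ^ 5 := by positivity
        nlinarith
      rw [hρ.dens.ll.psi_sub t1, sub_zero]
      linarith [hVM y (by linarith), hρ0 y]⟩) (fun y k1 k2 => by
      by_cases k3 : ‖y‖ ≤ L
      · rw [s1 y k1.le k3] at k2
        have k4 : 0 < ‖y‖ := ha.trans k1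
        have k5 := inv_pos.2 (hx _ k1.le)
        rw [hρ.eq, hτ, if_pos ⟨k1.le, k3⟩, if_pos ⟨k1.le, k3⟩, sub_nonneg]
        refine le_trans ?_ (mul_le_mul_of_nonneg_left (gp_mono
          (show A * (‖y‖ + (e - a))⁻¹ ^ 4 ≤ _ by linarith)) c1_pos.le)
        rw [kg, div_le_div_iff₀ (by positivity) (by positivity)]
        have : 0 ≤ A * (‖y‖ + (e - a))⁻¹ ^ 5 * π := by positivity
        nlinarith
      · rw [hρ.eq, hτ, if_neg fun k => k3 k.2, if_neg fun k => k3 k.2, sub_self])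
  intro y k1 k2
  have k := key y k1.le
  rw [s1 y k1.le k2] at k
  have k3 : (‖y‖ + (e - a))⁻¹ ^ 4 ≤ (‖y‖ - a)⁻¹ ^ 4 :=
    pow_le_pow_left₀ (inv_pos.2 (hx _ k1.le)).le (inv_anti₀ (sub_pos.2 k1) (by linarith)) 4
  have k4 : u ^ 4 ≤ (‖y‖ - a)⁻¹ ^ 4 := pow_le_pow_left₀ hu.le (hu3 _ k1 k2) 4
  have k5 := mul_le_mul_of_nonneg_left k3 hA.le
  have k6 := mul_le_mul_of_nonneg_left k4 hA.le
  have k7 : 0 < A * u ^ 4 := by positivity
  rw [div_eq_mul_inv, ← inv_pow]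
  nlinarith

end Pool.Agent.Lib.ION
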