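import Pool.Agent.Lib.ION.Basic

/-!
# The ionization bound for ground states: the lower bound for the outer particles
-/

open MeasureTheory Set Metric Real Filter Topology
open scoped ContDiff ComplexConjugate

noncomputable section

namespace Pool.Agent.Lib.ION

open Pool.Agent.Lib.MP_689e73_mp

lemma lb_V_bd {V : E3 → ℝ} {q a₀ a : ℝ} (h : Ext V q a₀) (ha : a₀ < a) :
    ∃ B, ∀ y, a ≤ ‖y‖ → |V y| ≤ B := by
  obtain ⟨m, z, p, hp, -, hV⟩ := h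
  refine ⟨∑ α, |z α| * (a - a₀)⁻¹, fun y hy => ?_⟩
  rw [hV]
  refine (Finset.abs_sum_le_sum_abs _ _).trans (Finset.sum_le_sum fun α _ => ?_)
  rw [abs_mul, abs_of_nonneg (by positivity : 0 ≤ ‖y - p α‖⁻¹)]
  refine mul_le_mul_of_nonneg_left (inv_anti₀ (sub_pos.2 ha) ?_) (abs_nonneg _)
  have h1 := norm_sub_norm_le y (p α)
  have h2 := hp α
  linarith

lemma lb_bd_mul {V ϑ : E3 → ℝ} {q a₀ a : ℝ} (h : Ext V q a₀) (ha : a₀ < a) (hϑ : Bd ϑ)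
    (h0 : ∀ y, ‖y‖ < a → ϑ y = 0) : Bd fun y => ϑ y * V y := by
  obtain ⟨B, hB⟩ := lb_V_bd h ha
  obtain ⟨C, hC⟩ := hϑ.bdd
  refine ⟨hϑ.meas.mul h.meas, C * |B|, fun y => ?_⟩
  have hC0 : 0 ≤ C := (abs_nonneg _).trans (hC y)
  rcases lt_or_ge ‖y‖ a with hy | hy
  · rw [h0 y hy, zero_mul, abs_zero]; positivity
  · rw [abs_mul]
    exact mul_le_mul (hC y) ((hB y hy).trans (le_abs_self _)) (abs_nonneg _) hC0

lemma lb_bd_psi {ρ : E3 → ℝ} (h : LL ρ) : Bd (psi ρ) := by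
  obtain ⟨C, hC⟩ := h.psi_bdd
  exact ⟨h.continuous_psi.measurable, C, fun x => (abs_psi_le_psi_abs ρ x).trans (hC x)⟩

/-- the truncated positive part of the Thomas-Fermi potential -/
def lbv (V ρ : E3 → ℝ) (a R : ℝ) (u : E3) : ℝ :=
  if a ≤ ‖u‖ ∧ ‖u‖ ≤ R then max (V u - psi ρ u) 0 else 0

lemma lbv_nonneg (V ρ : E3 → ℝ) (a R : ℝ) (u : E3) : 0 ≤ lbv V ρ a R u := by
  unfold lbv
  split_ifs
  · exact le_max_right _ _
  · exact le_rfl

lemma lbv_zero (V ρ : E3 → ℝ) (a R : ℝ) (u : E3) (h : R < ‖u‖) : lbv V ρ a R u = 0 :=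
  if_neg fun h' => absurd h'.2 (not_le.2 h)

lemma lb_shell (a R : ℝ) : MeasurableSet {u : E3 | a ≤ ‖u‖ ∧ ‖u‖ ≤ R} :=
  (measurableSet_le (g := fun u : E3 => ‖u‖) measurable_const (by fun_prop)).inter
    (measurableSet_le (f := fun u : E3 => ‖u‖) (by fun_prop) measurable_const)

lemma lbv_bd {V ρ : E3 → ℝ} {q a₀ a : ℝ} (h : Ext V q a₀) (ha : a₀ < a) (hρ : LL ρ) (R : ℝ) :
    Bd (lbv V ρ a R) := by
  have h1 : Bd fun y : E3 => if a ≤ ‖y‖ ∧ ‖y‖ ≤ R then (1 : ℝ) else 0 :=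
    Bd.ite (lb_shell a R) (Bd.const 1) (Bd.const 0)
  have h2 := lb_bd_mul h ha h1 fun y hy => if_neg fun h' => absurd h'.1 (not_le.2 hy)
  have h3 := (h2.sub (h1.mul (lb_bd_psi hρ))).max (Bd.const 0)
  have e : lbv V ρ a R = fun y => max ((if a ≤ ‖y‖ ∧ ‖y‖ ≤ R then (1 : ℝ) else 0) * V y -
      (if a ≤ ‖y‖ ∧ ‖y‖ ≤ R then (1 : ℝ) else 0) * psi ρ y) 0 := by
    ext y
    unfold lbv
    split_ifs <;> simp
  rwa [e]

lemma lb_bd_conv {v : E3 → ℝ} {γ : ℝ → ℝ} {s : ℝ} (hv : Bd v) (hγ : Rad γ s) :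
    Bd fun y : E3 => ∫ u, v u * γ ‖y - u‖ := by
  obtain ⟨B, hB⟩ := hv.bdd
  have hm : Measurable fun p : E3 × E3 => v p.2 * γ ‖p.1 - p.2‖ :=
    (hv.meas.comp measurable_snd).mul (hγ.bd.meas.comp (by fun_prop))
  refine ⟨hm.stronglyMeasurable.integral_prod_right'.measurable, B * ∫ u : E3, |γ ‖u‖|,
    fun y => ?_⟩
  have hi : Integrable fun u : E3 => B * |γ ‖u - y‖| := (hγ.ll y).int.abs.const_mul B
  rw [← integral_sub_right_eq_self (fun u : E3 => |γ ‖u‖|) y, ← integral_const_mul,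
    ← Real.norm_eq_abs]
  refine norm_integral_le_of_norm_le hi (Eventually.of_forall fun u => ?_)
  rw [Real.norm_eq_abs, abs_mul, norm_sub_rev]
  exact mul_le_mul_of_nonneg_right (hB u) (abs_nonneg _)

lemma lb_const : cT * c1 ^ (5 / 3 : ℝ) = 3 / 5 * c1 := by
  have h : (0 : ℝ) < 6 * π ^ 2 := by positivity
  unfold cT c1
  rw [Real.inv_rpow h.le, show (5 / 3 : ℝ) = 2 / 3 + 1 by norm_num, Real.rpow_add h,
    Real.rpow_one]
  have : (0 : ℝ) < (6 * π ^ 2) ^ (2 / 3 : ℝ) := by positivity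
  field_simp

lemma lb_point (φ : ℝ) :
    cT * |c1 * gp φ| ^ (5 / 3 : ℝ) - φ * (c1 * gp φ) = -(2 / 5 * c1 * max φ 0 ^ (5 / 2 : ℝ)) := by
  have ht : 0 ≤ max φ 0 := le_max_right _ _
  have h1 : |c1 * gp φ| ^ (5 / 3 : ℝ) = c1 ^ (5 / 3 : ℝ) * max φ 0 ^ (5 / 2 : ℝ) := by
    rw [abs_of_nonneg (mul_nonneg c1_pos.le (gp_nonneg φ)),
      Real.mul_rpow c1_pos.le (gp_nonneg φ), gp, ← Real.rpow_mul ht]
    norm_num
  have h2 : φ * gp φ = max φ 0 ^ (5 / 2 : ℝ) := by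
    rcases le_total φ 0 with h | h
    · rw [gp_of_nonpos h, max_eq_right h, Real.zero_rpow (by norm_num), mul_zero]
    · rw [gp_of_nonneg h, max_eq_left h, show (5 / 2 : ℝ) = 1 + 3 / 2 by norm_num,
        Real.rpow_add' h (by norm_num), Real.rpow_one]
  rw [h1, ← mul_assoc, lb_const, mul_left_comm, h2]
  ring

lemma lb_energy {V ρ : E3 → ℝ} {q a₀ a L R : ℝ} (h : Ext V q a₀) (ha : a₀ < a)
    (hρ : TFS V a L ρ) (hR : R ≤ L) :
    EV V ρ + 1 / 2 * DD ρ ρ ≤ -(2 / 5 * c1 * ∫ u, lbv V ρ a R u ^ (5 / 2 : ℝ)) := by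
  have hl := hρ.dens.ll
  obtain ⟨L', hL'⟩ := hρ.dens.supp
  have h0 : ∀ y, ‖y‖ < a → ρ y = 0 := fun y hy => by
    rw [hρ.eq y]; exact if_neg fun h' => absurd h'.1 (not_le.2 hy)
  have i1 : Integrable fun y => V y * ρ y := by
    have := (LL_of_bd (lb_bd_mul h ha hρ.dens.bd h0) (c := 0) (L := L') fun y hy => by
      rw [hL' y (by simpa using hy), zero_mul]).int
    simpa only [mul_comm] using this
  have hv := lbv_bd h ha hl R
  have i2 : Integrable fun u => lbv V ρ a R u ^ (5 / 2 : ℝ) := by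
    obtain ⟨B, hB⟩ := hv.bdd
    refine (LL_of_bd ⟨hv.meas.pow_const _, B ^ (5 / 2 : ℝ), fun u => ?_⟩ (c := 0) (L := R)
      fun y hy => ?_).int
    · rw [abs_of_nonneg (Real.rpow_nonneg (lbv_nonneg _ _ _ _ _) _)]
      exact Real.rpow_le_rpow (lbv_nonneg _ _ _ _ _) ((le_abs_self _).trans (hB u)) (by norm_num)
    · rw [lbv_zero _ _ _ _ _ (by simpa using hy), Real.zero_rpow (by norm_num)]
  have key := (((hl.HK.const_mul cT).sub (HI.of i1)).add (hl.HD hl)).le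
    ((HI.of i2).const_mul (-(2 / 5 * c1))) (Eventually.of_forall fun y => by
      have hc := c1_pos
      by_cases hy : a ≤ ‖y‖ ∧ ‖y‖ ≤ L
      · have e := hρ.eq y
        rw [if_pos hy] at e
        have p := lb_point (V y - psi ρ y)
        rw [← e] at p
        have b : lbv V ρ a R y ^ (5 / 2 : ℝ) ≤ max (V y - psi ρ y) 0 ^ (5 / 2 : ℝ) := by
          refine Real.rpow_le_rpow (lbv_nonneg _ _ _ _ _) ?_ (by norm_num)
          unfold lbv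
          split_ifs
          · exact le_rfl
          · exact le_max_right _ _
        nlinarith
      · have e := hρ.eq y
        rw [if_neg hy] at e
        have e2 : lbv V ρ a R y = 0 := if_neg fun h' => hy ⟨h'.1, h'.2.trans hR⟩
        rw [e, e2, abs_zero, Real.zero_rpow (by norm_num), Real.zero_rpow (by norm_num)]
        simp)
  unfold EV
  linarith

theorem st_lb (h1 : St_ons) (h2 : St_lbkin) (h3 : St_ker) : St_lb := by
  obtain ⟨Co, hCo, ho⟩ := h1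
  obtain ⟨Ck, hCk, hk⟩ := h2
  obtain ⟨_, -, hker⟩ := h3
  refine ⟨Co + 4 * Ck, by positivity, fun V ρ ζ q a₀ a s b R₁ L hV hg hρ hζ hζ1 hζ0 ι _ _ => ?_⟩
  have hs := hg.h2
  have hab : a < b := by linarith [hg.h4]
  have hb : 0 < b := hg.h1.trans hab
  have hR : 0 < R₁ := by linarith [hg.h6]
  have hv := lbv_bd hV hg.h0 hρ.dens.ll (3 * R₁)
  have hW := lb_bd_conv hv (hker s hs).2.2.2.1
  have hϑ : Bd fun y => ζ y ^ 2 := Bd.pow ⟨hζ.continuous.measurable, 1, hζ1⟩ 2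
  have hϑ0 : ∀ y, ‖y‖ < b → ζ y ^ 2 = 0 := fun y hy => by rw [hζ0 y hy]; norm_num
  have hϑV := lb_bd_mul hV (hg.h0.trans hab) hϑ hϑ0
  have hS : Bd (Sw (fun y => ζ y ^ 2) : Cfg ι → ℝ) := bd_Sw hϑ hb hϑ0
  have hT : Bd fun X : Cfg ι =>
      ∑ j, ζ (X j) ^ 2 * ∫ u, lbv V ρ a (3 * R₁) u * gam s ‖X j - u‖ :=
    Bd.sum _ fun j _ => (hϑ.mul hW).comp (measurable_pi_apply j)
  refine ⟨fun X => Ww (fun y => ζ y ^ 2) X - ∑ j, ζ (X j) ^ 2 * V (X j) + 1 / 2 * DD ρ ρ +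
    ∑ j, ζ (X j) ^ 2 * (∫ u, lbv V ρ a (3 * R₁) u * gam s ‖X j - u‖) +
    Co * (R₁ / s ^ 2 + R₁⁻¹ ^ 3) * Sw (fun y => ζ y ^ 2) X, ?_, fun X hX hL => ?_,
    fun A F hF hA hs0 => ?_⟩
  · exact ((((loc_Ww hϑ).sub (Bd.sum _ fun j _ => hϑV.comp (measurable_pi_apply j)).loc).add
      (locallyIntegrable_const _)).add hT.loc).add (hS.const_mul _).loc
  · exact ho V ρ (fun y => ζ y ^ 2) q a₀ a s b R₁ L ι X hV hg hρ
      (fun y => ⟨sq_nonneg _, (sq_le_one_iff_abs_le_one _).2 (hζ1 y)⟩) hϑ0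
      (fun i j hij hi hj => hX i j hij (fun h => hi (by simp [h])) fun h => hj (by simp [h]))
      fun j hj => hL j fun h => hj (by simp [h])
  · have k1 := hk ι A F ζ (lbv V ρ a (3 * R₁)) s (3 * R₁) hF hA hζ hζ1 hv
      (lbv_nonneg _ _ _ _) (lbv_zero _ _ _ _) hs
    have k2 := mul_le_mul_of_nonneg_right (lb_energy hV hg.h0 hρ hg.h7) (Nm_nonneg F)
    have hI : Bd fun X : Cfg ι => ∑ j ∈ A, ζ (X j) ^ 2 *
        ((∫ u, lbv V ρ a (3 * R₁) u * gam s ‖X j - u‖) -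
          if ‖X j‖ ≤ 3 * R₁ + s then Ck / s ^ 2 else 0) :=
      Bd.sum _ fun j _ => (hϑ.mul (hW.sub (Bd.ite (p := fun y : E3 => ‖y‖ ≤ 3 * R₁ + s)
        (measurableSet_le (by fun_prop) measurable_const) (Bd.const _) (Bd.const 0)))).comp
        (measurable_pi_apply j)
    have k3 := Ex_add hF hI.loc (locallyIntegrable_const (EV V ρ + 1 / 2 * DD ρ ρ))
    rw [Ex_const] at k3
    refine le_trans (le_of_eq (Ex_congr (G' := fun X => (EV V ρ + 1 / 2 * DD ρ ρ) +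
      ∑ j, ζ (X j) ^ 2 * (∫ u, lbv V ρ a (3 * R₁) u * gam s ‖X j - u‖) -
      4 * Ck * (R₁ / s ^ 2 + R₁⁻¹ ^ 3) * Sw (fun y => ζ y ^ 2) X) fun X _ => by ring)) ?_
    refine le_trans (Ex_mono hF (((Bd.const _).add hT).sub (hS.const_mul _)).loc
      (hI.add (Bd.const (EV V ρ + 1 / 2 * DD ρ ρ))).loc fun X hX => ?_) (by linarith)
    rw [Finset.sum_subset (Finset.subset_univ A) fun j _ hj => by rw [hs0 X hX j hj]; ring]
    have k4 : ∑ j, ζ (X j) ^ 2 * (if ‖X j‖ ≤ 3 * R₁ + s then Ck / s ^ 2 else 0) ≤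
        4 * Ck * (R₁ / s ^ 2 + R₁⁻¹ ^ 3) * Sw (fun y => ζ y ^ 2) X := by
      unfold Sw
      rw [Finset.mul_sum]
      refine Finset.sum_le_sum fun j _ => ?_
      rw [mul_left_comm]
      rcases lt_or_ge ‖X j‖ b with hj | hj
      · simp [hζ0 _ hj]
      refine mul_le_mul_of_nonneg_left ?_ (sq_nonneg _)
      have hp : 0 < ‖X j‖ := hb.trans_le hj
      split_ifs with h
      · have e1 : 1 ≤ 4 * R₁ * ‖X j‖⁻¹ := by
          rw [← div_eq_mul_inv, le_div_iff₀ hp]; linarith [hg.h6]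
        have e2 : Ck / s ^ 2 * 1 ≤ Ck / s ^ 2 * (4 * R₁ * ‖X j‖⁻¹) :=
          mul_le_mul_of_nonneg_left e1 (by positivity)
        have e3 : 0 ≤ 4 * Ck * R₁⁻¹ ^ 3 * ‖X j‖⁻¹ := by positivity
        have e4 : 4 * Ck * (R₁ / s ^ 2 + R₁⁻¹ ^ 3) * ‖X j‖⁻¹ =
            Ck / s ^ 2 * (4 * R₁ * ‖X j‖⁻¹) + 4 * Ck * R₁⁻¹ ^ 3 * ‖X j‖⁻¹ := by ring
        linarith
      · positivity
    simp only [mul_sub, Finset.sum_sub_distrib]
    linarith

end Pool.Agent.Lib.ION
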