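import Pool.Agent.Lib.ION.Basic

/-!
# Lower bound for the kinetic energy by sliding localisation
-/

open MeasureTheory Set Metric Real Filter Topology
open scoped ContDiff ComplexConjugate

set_option linter.unusedSectionVars false

noncomputable section

namespace Pool.Agent.Lib.ION

open Pool.Agent.Lib.MP_689e73_mp

section One

variable {g : E3 → ℝ} {s : ℝ}

lemma lbkin_cpt (h0 : ∀ y, s ≤ ‖y‖ → g y = 0) : HasCompactSupport g :=
  HasCompactSupport.intro (isCompact_closedBall 0 s) fun y hy =>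
    h0 y (le_of_lt (by simpa using hy))

lemma lbkin_cont (hg : ContDiff ℝ ∞ g) (a : Fin 3) : Continuous fun y => fderiv ℝ g y (e1 a) :=
  (hg.continuous_fderiv (by simp)).clm_apply continuous_const

lemma lbkin_d0 (h0 : ∀ y, s ≤ ‖y‖ → g y = 0) {y : E3} (hy : s < ‖y‖) : fderiv ℝ g y = 0 := by
  have : g =ᶠ[𝓝 y] fun _ => 0 :=
    (continuous_norm.continuousAt.eventually (lt_mem_nhds hy)).mono fun z hz => h0 z hz.le
  rw [this.fderiv_eq, fderiv_fun_const]
  rfl

lemma lbkin_int {f : E3 → ℝ} (hf : Continuous f) (h0 : ∀ y, s < ‖y‖ → f y = 0) : Integrable f :=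
  hf.integrable_of_hasCompactSupport
    (HasCompactSupport.intro (isCompact_closedBall 0 s) fun y hy => h0 y (by simpa using hy))

lemma lbkin_bd {f : E3 → ℝ} (hf : Continuous f) (h0 : ∀ y, s < ‖y‖ → f y = 0) : Bd f :=
  ⟨hf.measurable, hf.bounded_above_of_compact_support
    (HasCompactSupport.intro (isCompact_closedBall 0 s) fun y hy => h0 y (by simpa using hy))⟩

lemma lbkin_cross (hg : ContDiff ℝ ∞ g) (h0 : ∀ y, s ≤ ‖y‖ → g y = 0) (a : Fin 3) :
    ∫ y, g y * fderiv ℝ g y (e1 a) = 0 := by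
  have c := hg.continuous
  have d := lbkin_cont hg a
  have hd := hg.differentiable (by simp)
  have := integral_mul_fderiv_eq_neg_fderiv_mul_of_integrable (μ := volume) (f := g) (g := g)
    (v := e1 a) (lbkin_int (s := s) (d.mul c) fun y hy => by simp [h0 y hy.le])
    (lbkin_int (s := s) (c.mul d) fun y hy => by simp [h0 y hy.le])
    (lbkin_int (s := s) (c.mul c) fun y hy => by simp [h0 y hy.le])
    (fun x _ => hd x) fun x _ => hd x
  simp only [mul_comm (fderiv ℝ g _ (e1 a))] at this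
  linarith

lemma lbkin_sq (p q : ℝ) (z w : ℂ) : ‖(q : ℂ) * z + p * w‖ ^ 2 =
    q ^ 2 * ‖z‖ ^ 2 + p ^ 2 * ‖w‖ ^ 2 + p * q * (2 * (z * conj w).re) := by
  simp only [← Complex.normSq_eq_norm_sq, Complex.normSq_apply, Complex.add_re, Complex.add_im,
    Complex.mul_re, Complex.mul_im, Complex.ofReal_re, Complex.ofReal_im, Complex.conj_re,
    Complex.conj_im]
  ring

/-- the localised kinetic energy density -/
def lbkinK (g : E3 → ℝ) (z : ℂ) (w : Fin 3 → ℂ) (t : E3) : ℝ :=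
  g1 g t * ‖z‖ ^ 2 + g t ^ 2 * ∑ a, ‖w a‖ ^ 2 +
    ∑ a, g t * fderiv ℝ g t (e1 a) * (2 * (z * conj (w a)).re)

lemma lbkinK_eq (g : E3 → ℝ) (z : ℂ) (w : Fin 3 → ℂ) (t : E3) :
    lbkinK g z w t = ∑ a, ‖(fderiv ℝ g t (e1 a) : ℂ) * z + g t * w a‖ ^ 2 := by
  simp only [lbkin_sq, lbkinK, g1, Finset.sum_add_distrib, Finset.sum_mul, Finset.mul_sum]

lemma lbkin_pt (hg : ContDiff ℝ ∞ g) (h0 : ∀ y, s ≤ ‖y‖ → g y = 0) (h1 : ∫ y, g y ^ 2 = 1)
    {c : ℝ} (h2 : ∫ y, g1 g y ≤ c) (R : ℝ) (y : E3) (z : ℂ) (w : Fin 3 → ℂ) :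
    ∫ u in closedBall 0 R, lbkinK g z w (y - u) ≤
      ∑ a, ‖w a‖ ^ 2 + (if ‖y‖ ≤ R + s then c else 0) * ‖z‖ ^ 2 := by
  split_ifs with hy
  · have i1 : Integrable (g1 g) := lbkin_int (s := s) (continuous_g1 hg) fun y hy => by
      simp [g1, lbkin_d0 h0 hy]
    have i2 : Integrable fun y => g y ^ 2 :=
      lbkin_int (s := s) (hg.continuous.pow 2) fun y hy => by simp [h0 y hy.le]
    have i3 : ∀ a, Integrable fun y => g y * fderiv ℝ g y (e1 a) := fun a =>
      lbkin_int (s := s) (hg.continuous.mul (lbkin_cont hg a)) fun y hy => by simp [h0 y hy.le]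
    have j1 := i1.mul_const (‖z‖ ^ 2)
    have j2 := i2.mul_const (∑ a, ‖w a‖ ^ 2)
    have j3 := fun a => (i3 a).mul_const (2 * (z * conj (w a)).re)
    have j4 := integrable_finsetSum Finset.univ fun a _ => j3 a
    have j5 : Integrable fun t => g1 g t * ‖z‖ ^ 2 + g t ^ 2 * ∑ a, ‖w a‖ ^ 2 := j1.add j2
    have iK : Integrable (lbkinK g z w) := j5.add j4
    refine (setIntegral_le_integral (iK.comp_sub_left y) (Eventually.of_forall fun u => ?_)).trans ?_
    · simp only [lbkinK_eq]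
      positivity
    · rw [integral_sub_left_eq_self (lbkinK g z w) volume y]
      unfold lbkinK
      rw [integral_add j5 j4, integral_add j1 j2, integral_finsetSum _ fun a _ => j3 a]
      simp only [integral_mul_const, lbkin_cross hg h0, h1, zero_mul, Finset.sum_const_zero]
      have := mul_le_mul_of_nonneg_right h2 (sq_nonneg ‖z‖)
      linarith
  · rw [setIntegral_eq_zero_of_forall_eq_zero fun u hu => ?_]
    · positivity
    · have h3 : s < ‖y - u‖ := by
        rw [mem_closedBall_zero_iff] at hu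
        have := norm_sub_norm_le y u
        linarith [not_le.1 hy]
      simp [lbkinK, g1, h0 _ h3.le, lbkin_d0 h0 h3]

end One

section Many

variable {ι : Type} [Fintype ι] [DecidableEq ι]

lemma lbkin_kin {g : E3 → ℝ} (hg : ContDiff ℝ ∞ g) {ψ : Cfg ι → ℂ} (hψ : Sm ψ) (u : E3) (j : ι)
    (X : Cfg ι) : kin (mulj (fun y => g (y - u)) j ψ) j X =
      lbkinK g (ψ X) (fun a => fderiv ℝ ψ X (ev j a)) (X j - u) := by
  rw [lbkinK_eq]
  refine Finset.sum_congr rfl fun a _ => ?_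
  have d1 : Differentiable ℝ fun y => g (y - u) :=
    (hg.differentiable (by simp)).comp (differentiable_id.sub_const u)
  have d2 : DifferentiableAt ℝ (fun X : Cfg ι => g (X j - u)) X :=
    (d1.comp (differentiable_apply j)) X
  have d3 := (Complex.ofRealCLM.hasFDerivAt.comp X d2.hasFDerivAt).mul
    (hψ.smooth.differentiable (by simp) X).hasFDerivAt
  have e := fderiv_comp_apply d1 j j a X
  rw [if_pos rfl, fderiv_comp_sub] at e
  have e2 : fderiv ℝ (mulj (fun y => g (y - u)) j ψ) X = _ := d3.fderiv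
  rw [e2]
  simp only [_root_.add_apply, _root_.smul_apply,
    ContinuousLinearMap.comp_apply, Complex.ofRealCLM_apply, smul_eq_mul, Function.comp_apply, e]
  rw [add_comm, mul_comm (ψ X)]

lemma lbkin_prod (μ : Measure E3) [IsFiniteMeasure μ] {k : E3 × Cfg ι → ℝ} (hk : Bd k)
    {h : Cfg ι → ℝ} (hh : Integrable h) :
    Integrable (fun p : E3 × Cfg ι => k p * h p.2) (μ.prod volume) :=
  let ⟨_, hB⟩ := hk.bdd
  (hh.comp_snd μ).bdd_mul hk.meas.aestronglyMeasurable (Eventually.of_forall hB)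

lemma lbkin_sub {k : E3 → ℝ} (hk : Bd k) (j : ι) : Bd fun p : E3 × Cfg ι => k (p.2 j - p.1) :=
  hk.comp (by fun_prop)

lemma lbkin_intK (μ : Measure E3) [IsFiniteMeasure μ] {g : E3 → ℝ} {s : ℝ} (hg : ContDiff ℝ ∞ g)
    (h0 : ∀ y, s ≤ ‖y‖ → g y = 0) {ψ : Cfg ι → ℂ} (hψ : Sm ψ) (j : ι) :
    Integrable (fun p : E3 × Cfg ι => kin (mulj (fun y => g (y - p.1)) j ψ) j p.2)
      (μ.prod volume) := by
  simp only [lbkin_kin hg hψ]
  have b1 : Bd (g1 g) := lbkin_bd (s := s) (continuous_g1 hg) fun y hy => by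
    simp [g1, lbkin_d0 h0 hy]
  have b2 : Bd fun y => g y ^ 2 :=
    lbkin_bd (s := s) (hg.continuous.pow 2) fun y hy => by simp [h0 y hy.le]
  have b3 : ∀ a, Bd fun y => g y * fderiv ℝ g y (e1 a) := fun a =>
    lbkin_bd (s := s) (hg.continuous.mul (lbkin_cont hg a)) fun y hy => by simp [h0 y hy.le]
  have i3 : ∀ a, Integrable fun X => 2 * (ψ X * conj (fderiv ℝ ψ X (ev j a))).re := fun a => by
    have c1 := hψ.cont
    have c2 := hψ.smooth.continuous_fderiv (by simp)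
    refine Continuous.integrable_of_hasCompactSupport (by fun_prop) ?_
    exact hψ.cpt.mono fun X hX h => hX (by simp [h])
  exact ((lbkin_prod μ (lbkin_sub b1 j) hψ.int_sq).add
    (lbkin_prod μ (lbkin_sub b2 j) (hψ.int_kin j))).add
    (integrable_finsetSum _ fun a _ => lbkin_prod μ (lbkin_sub (b3 a) j) (i3 a))

lemma lbkin_one {g : E3 → ℝ} {s c : ℝ} (hg : ContDiff ℝ ∞ g) (h0 : ∀ y, s ≤ ‖y‖ → g y = 0)
    (h1 : ∫ y, g y ^ 2 = 1) (h2 : ∫ y, g1 g y ≤ c) (R : ℝ) {ψ : Cfg ι → ℂ} (hψ : Sm ψ) (j : ι) :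
    ∫ u in closedBall 0 R, Kn (mulj (fun y => g (y - u)) j ψ) j ≤
      Kn ψ j + Ex ψ fun X => if ‖X j‖ ≤ R + s then c else 0 := by
  have : Fact (volume (closedBall (0 : E3) R) < ⊤) := ⟨measure_closedBall_lt_top⟩
  have i := lbkin_intK (volume.restrict (closedBall 0 R)) hg h0 hψ j
  have b : Bd fun X : Cfg ι => if ‖X j‖ ≤ R + s then c else 0 :=
    Bd.ite (measurableSet_le (by fun_prop) measurable_const) (Bd.const c) (Bd.const 0)
  unfold Kn Ex
  rw [integral_integral_swap i, ← integral_add (hψ.int_kin j) (hψ.int b.loc)]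
  refine integral_mono i.integral_prod_right ((hψ.int_kin j).add (hψ.int b.loc)) fun X => ?_
  simp only [lbkin_kin hg hψ]
  exact lbkin_pt hg h0 h1 h2 R _ _ _

end Many

theorem st_lbkin (h1 : St_cell) (h2 : St_ker) : St_lbkin := by
  obtain ⟨C, hC, h2⟩ := h2
  refine ⟨C, hC, fun ι _ _ A F ζ v s R hF hA hζ hζ1 hv hv0 hvR hs => ?_⟩
  obtain ⟨k1, k2, k3, -, -, k6, k7, -⟩ := h2 s hs
  simp only [← k3] at k6 ⊢
  set g := gs s
  have : Fact (volume (closedBall (0 : E3) R) < ⊤) := ⟨measure_closedBall_lt_top⟩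
  set μ := volume.restrict (closedBall (0 : E3) R) with hμ
  have out : ∀ u, u ∉ closedBall (0 : E3) R → v u = 0 := fun u hu => hvR u (by simpa using hu)
  have bζ : Bd ζ := ⟨hζ.continuous.measurable, 1, hζ1⟩
  have b2 : Bd fun y => g y ^ 2 :=
    lbkin_bd (s := s) (k1.continuous.pow 2) fun y hy => by simp [k2 y hy.le]
  have i2 : Integrable fun y => g y ^ 2 :=
    lbkin_int (s := s) (k1.continuous.pow 2) fun y hy => by simp [k2 y hy.le]
  have cell : ∀ u, v u * Ex F (fun X => ∑ j ∈ A, (g (X j - u) * ζ (X j)) ^ 2) -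
      2 / 5 * c1 * v u ^ (5 / 2 : ℝ) * Nm F ≤
      ∑ j ∈ A, Kn (mulj (fun y => g (y - u)) j (mulj ζ j F)) j := by
    intro u
    have le : ∀ y, (g (y - u) * ζ y) ^ 2 ≤ g (y - u) ^ 2 := fun y => by
      rw [mul_pow]
      exact mul_le_of_le_one_right (sq_nonneg _) ((sq_le_one_iff_abs_le_one _).2 (hζ1 y))
    have sm : ContDiff ℝ ∞ fun y => g (y - u) * ζ y :=
      (k1.comp (contDiff_id.sub contDiff_const)).mul hζ
    have i : Integrable fun y => (g (y - u) * ζ y) ^ 2 :=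
      (i2.comp_sub_right u).mono' (sm.continuous.pow 2).aestronglyMeasurable
        (Eventually.of_forall fun y => by rw [Real.norm_of_nonneg (sq_nonneg _)]; exact le y)
    have h3 : ∫ y, (g (y - u) * ζ y) ^ 2 ≤ 1 := by
      refine (integral_mono i (i2.comp_sub_right u) le).trans_eq ?_
      rw [integral_sub_right_eq_self (fun y => g y ^ 2) u, k6]
    have h4 := h1 ι A F _ (v u) hF hA sm i (hv0 u)
    have e : ∀ j, mulj (fun y => g (y - u) * ζ y) j F =
        mulj (fun y => g (y - u)) j (mulj ζ j F) := fun j => by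
      funext X
      simp only [mulj, Complex.ofReal_mul, mul_assoc]
    simp only [e] at h4
    have h5 : 0 ≤ 2 / 5 * c1 * v u ^ (5 / 2 : ℝ) * Nm F :=
      mul_nonneg (mul_nonneg (mul_nonneg (by norm_num) c1_pos.le) (rpow_nonneg (hv0 u) _))
        (Nm_nonneg F)
    nlinarith [mul_le_mul_of_nonneg_left h3 h5]
  have sψ : ∀ j, Sm (mulj ζ j F) := fun j => hF.mulj hζ j
  have iP : Integrable (fun p : E3 × Cfg ι =>
      (v p.1 * ∑ j ∈ A, (g (p.2 j - p.1) * ζ (p.2 j)) ^ 2) * ‖F p.2‖ ^ 2) (μ.prod volume) := by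
    refine lbkin_prod μ ((hv.comp measurable_fst).mul (Bd.sum A fun j _ => ?_)) hF.int_sq
    simp only [mul_pow]
    exact (lbkin_sub b2 j).mul ((bζ.pow 2).comp (by fun_prop))
  have eP : ∀ X : Cfg ι, ∫ u, (v u * ∑ j ∈ A, (g (X j - u) * ζ (X j)) ^ 2) * ‖F X‖ ^ 2 ∂μ =
      (∑ j ∈ A, ζ (X j) ^ 2 * ∫ u, v u * g (X j - u) ^ 2) * ‖F X‖ ^ 2 := fun X => by
    rw [integral_mul_const, hμ, setIntegral_eq_integral_of_forall_compl_eq_zero fun u hu => by
      rw [out u hu, zero_mul]]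
    congr 1
    obtain ⟨B, hB⟩ := hv.bdd
    have i : ∀ j, Integrable fun u => ζ (X j) ^ 2 * (v u * g (X j - u) ^ 2) := fun j =>
      ((i2.comp_sub_left (X j)).bdd_mul hv.meas.aestronglyMeasurable
        (Eventually.of_forall hB)).const_mul _
    simp only [← integral_const_mul]
    rw [← integral_finsetSum _ fun j _ => i j]
    refine integral_congr_ae (Eventually.of_forall fun u => ?_)
    simp only [Finset.mul_sum]
    exact Finset.sum_congr rfl fun j _ => by ring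
  have e1 : ∀ u, v u * Ex F (fun X => ∑ j ∈ A, (g (X j - u) * ζ (X j)) ^ 2) =
      ∫ X, (v u * ∑ j ∈ A, (g (X j - u) * ζ (X j)) ^ 2) * ‖F X‖ ^ 2 := fun u =>
    (Ex_const_mul F _ _).symm
  have iv : Integrable (fun u => v u ^ (5 / 2 : ℝ)) μ := by
    obtain ⟨B, hB⟩ := hv.bdd
    refine (integrable_const (B ^ (5 / 2 : ℝ))).mono'
      (hv.meas.pow_const _).aestronglyMeasurable (Eventually.of_forall fun u => ?_)
    rw [Real.norm_of_nonneg (rpow_nonneg (hv0 u) _)]
    exact rpow_le_rpow (hv0 u) ((le_abs_self _).trans (hB u)) (by norm_num)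
  have iK : ∀ j, Integrable (fun u => Kn (mulj (fun y => g (y - u)) j (mulj ζ j F)) j) μ :=
    fun j => (lbkin_intK μ k1 k2 (sψ j) j).integral_prod_left
  have i1 : Integrable (fun u => v u * Ex F fun X => ∑ j ∈ A, (g (X j - u) * ζ (X j)) ^ 2) μ := by
    simp only [e1]
    exact iP.integral_prod_left
  have iv' := (iv.const_mul (2 / 5 * c1)).mul_const (Nm F)
  have main := integral_mono (i1.sub iv') (integrable_finsetSum A fun j _ => iK j) cell
  rw [integral_sub' i1 iv', integral_finsetSum _ fun j _ => iK j, integral_mul_const,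
    integral_const_mul] at main
  have e2 : ∫ u, v u ^ (5 / 2 : ℝ) ∂μ = ∫ u, v u ^ (5 / 2 : ℝ) :=
    setIntegral_eq_integral_of_forall_compl_eq_zero fun u hu => by
      rw [out u hu, zero_rpow (by norm_num)]
  have e3 : ∫ u, (v u * Ex F fun X => ∑ j ∈ A, (g (X j - u) * ζ (X j)) ^ 2) ∂μ =
      Ex F fun X => ∑ j ∈ A, ζ (X j) ^ 2 * ∫ u, v u * g (X j - u) ^ 2 := by
    simp only [e1]
    rw [integral_integral_swap iP]
    simp only [eP, Ex]
  have bi : ∀ j, Bd fun X : Cfg ι => ζ (X j) ^ 2 * if ‖X j‖ ≤ R + s then C / s ^ 2 else 0 :=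
    fun j => ((bζ.pow 2).comp (measurable_pi_apply j)).mul
      (Bd.ite (measurableSet_le (by fun_prop) measurable_const) (Bd.const _) (Bd.const 0))
  have h6 : ∑ j ∈ A, ∫ u, Kn (mulj (fun y => g (y - u)) j (mulj ζ j F)) j ∂μ ≤
      ∑ j ∈ A, Kn (mulj ζ j F) j + Ex F fun X => ∑ j ∈ A, ζ (X j) ^ 2 *
        if ‖X j‖ ≤ R + s then C / s ^ 2 else 0 := by
    rw [Ex_sum A hF fun j _ => (bi j).loc, ← Finset.sum_add_distrib]
    refine Finset.sum_le_sum fun j _ => (lbkin_one k1 k2 k6 k7 R (sψ j) j).trans_eq ?_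
    exact congrArg _ (Ex_mul F (fun X => ζ (X j)) _)
  have i4 : Integrable fun X : Cfg ι =>
      (∑ j ∈ A, ζ (X j) ^ 2 * ∫ u, v u * g (X j - u) ^ 2) * ‖F X‖ ^ 2 := by
    simp only [← eP]
    exact iP.integral_prod_right
  have e4 : Ex F (fun X => ∑ j ∈ A, ζ (X j) ^ 2 * ((∫ u, v u * g (X j - u) ^ 2) -
      if ‖X j‖ ≤ R + s then C / s ^ 2 else 0)) =
      Ex F (fun X => ∑ j ∈ A, ζ (X j) ^ 2 * ∫ u, v u * g (X j - u) ^ 2) -
      Ex F fun X => ∑ j ∈ A, ζ (X j) ^ 2 * if ‖X j‖ ≤ R + s then C / s ^ 2 else 0 := by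
    simp only [Ex]
    rw [← integral_sub i4 (hF.int (Bd.sum A fun j _ => bi j).loc)]
    simp only [mul_sub, Finset.sum_sub_distrib, sub_mul]
  rw [e2, e3] at main
  rw [e4]
  linarith

end Pool.Agent.Lib.ION
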