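import Pool.Agent.Lib.ION.Basic

/-!
# Neutrality, the lower barrier and the bare nucleus in Thomas-Fermi theory
-/

open MeasureTheory Set Metric Real Filter Topology

noncomputable section

namespace Pool.Agent.Lib.ION

open Pool.Agent.Lib.MP_689e73_mp

lemma low_psi_far {σ : E3 → ℝ} (h : LL σ) {L M : ℝ} (hM : 0 < M) (hs : ∀ y, L < ‖y‖ → σ y = 0)
    {y : E3} (hy : L + M ≤ ‖y‖) : |psi σ y| ≤ M⁻¹ * N1 σ := by
  refine (abs_psi_le_psi_abs σ y).trans ((h.abs.Hpsi y).le (h.HN.const_mul M⁻¹)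
    (Eventually.of_forall fun u => ?_))
  by_cases hu : L < ‖u‖
  · simp [hs u hu]
  · refine mul_le_mul_of_nonneg_right (inv_anti₀ hM ?_) (abs_nonneg _)
    have := norm_sub_norm_le y u
    linarith [not_lt.1 hu]

lemma low_decay_psi {σ : E3 → ℝ} (h : LL σ) {L : ℝ} (hs : ∀ y, L < ‖y‖ → σ y = 0) {ε : ℝ}
    (hε : 0 < ε) : ∃ R, ∀ y : E3, R ≤ ‖y‖ → |psi σ y| ≤ ε := by
  have hN := N1_nonneg σ
  have hM : 0 < (N1 σ + 1) / ε := by positivity
  refine ⟨L + (N1 σ + 1) / ε, fun y hy => (low_psi_far h hM hs hy).trans ?_⟩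
  rw [inv_div, div_mul_eq_mul_div, div_le_iff₀ (by positivity)]
  nlinarith

lemma low_decay_V {V : E3 → ℝ} {q a₀ : ℝ} (h : Ext V q a₀) {ε : ℝ} (hε : 0 < ε) :
    ∃ R, ∀ y : E3, R ≤ ‖y‖ → |V y| ≤ ε := by
  obtain ⟨m, z, p, hp, -, hV⟩ := h
  have hS : 0 ≤ ∑ α, |z α| := Finset.sum_nonneg fun _ _ => abs_nonneg _
  have hM : 0 < (∑ α, |z α| + 1) / ε := by positivity
  refine ⟨a₀ + (∑ α, |z α| + 1) / ε, fun y hy => ?_⟩
  rw [hV]
  have h1 : |∑ α, z α * ‖y - p α‖⁻¹| ≤ ∑ α, |z α| * ((∑ α, |z α| + 1) / ε)⁻¹ := by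
    refine (Finset.abs_sum_le_sum_abs _ _).trans (Finset.sum_le_sum fun α _ => ?_)
    rw [abs_mul, abs_of_nonneg (inv_nonneg.2 (norm_nonneg _))]
    refine mul_le_mul_of_nonneg_left (inv_anti₀ hM ?_) (abs_nonneg _)
    have := norm_sub_norm_le y (p α)
    linarith [hp α]
  refine h1.trans ?_
  rw [← Finset.sum_mul, inv_div, mul_div_assoc', div_le_iff₀ (by positivity)]
  nlinarith

lemma low_psi_neg (σ : E3 → ℝ) (x : E3) : psi (fun y => -σ y) x = -psi σ x := by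
  simpa using psi_const_mul σ (-1) x

theorem st_neut (h1 : St_harm) (h2 : St_cmp) (h3 : St_shell) : St_neut := by
  intro V ρ q a₀ a L t hV ha ht hT hb
  have hl := hT.dens.ll
  obtain ⟨L', hL'⟩ := hT.dens.supp
  have hH : Harm V {y | a₀ < ‖y‖} := h1.2.2.2.2 V q a₀ hV
  have hσ : LL fun y => -ρ y := by simpa using hl.const_mul (-1)
  have key : ∀ y, t ≤ ‖y‖ → 0 ≤ V y - psi ρ y := by
    have := h2 (fun y => -V y) (fun y => -ρ y) t ht
      (hH.cont.mono fun y hy => lt_of_lt_of_le ha hy).neg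
      (hH.mono fun y hy => lt_trans ha hy).neg hσ
      (fun y hy => by rw [low_psi_neg]; linarith [hb y hy])
      (fun ε hε => by
        obtain ⟨R₁, hR₁⟩ := low_decay_psi hl hL' (half_pos hε)
        obtain ⟨R₂, hR₂⟩ := low_decay_V hV (half_pos hε)
        refine ⟨max R₁ R₂, fun y hy => ?_⟩
        have e1 := abs_le.1 (hR₁ y ((le_max_left _ _).trans hy))
        have e2 := abs_le.1 (hR₂ y ((le_max_right _ _).trans hy))
        rw [low_psi_neg]; linarith [e1.2, e2.1])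
      (fun y _ hy => by
        rw [low_psi_neg] at hy
        rw [hT.eq y, gp_of_nonpos (by linarith)]
        simp)
    intro y hy
    have := this y hy
    rw [low_psi_neg] at this
    linarith
  refine ⟨key, ?_⟩
  set R := 2 * max t L' with hR
  have hR0 : 0 < R := by have := le_max_left t L'; linarith
  have hRt : t ≤ R / 2 := by have := le_max_left t L'; linarith
  have hRL : L' ≤ R / 2 := by have := le_max_right t L'; linarith
  obtain ⟨hrad, hnn, -, hpsi, hU⟩ := h3.1 R hR0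
  have hγ : LL fun y : E3 => sh R ‖y - 0‖ := hrad.ll 0
  obtain ⟨m, z, p, hp, hq, hVe⟩ := hV
  have i1 := hγ.HV z p
  have i2 := hγ.HD hl
  have e1 : ∑ i, z i * psi (fun y : E3 => sh R ‖y - 0‖) (p i) = q * Ub R 0 := by
    rw [← hq, Finset.sum_mul]
    refine Finset.sum_congr rfl fun i _ => ?_
    rw [hpsi, sub_zero, (hU _ (norm_nonneg _)).2.2.2 (by linarith [hp i])]
  have e2 : DD (fun y : E3 => sh R ‖y - 0‖) ρ = Ub R 0 * N1 ρ := by
    rw [DD_symm hγ hl]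
    refine (hl.HD hγ).eq ((hl.HN' hT.dens.nn).const_mul (Ub R 0))
      (Eventually.of_forall fun y => ?_)
    by_cases hy : L' < ‖y‖
    · simp [hL' y hy]
    · rw [hpsi, sub_zero, (hU _ (norm_nonneg _)).2.2.2 (by linarith [not_lt.1 hy]), mul_comm]
  have hle := i2.le i1 (Eventually.of_forall fun y => by
    have e : Vnuc z p y = V y := (hVe y).symm
    simp only [e, sub_zero]
    by_cases hy : R / 2 ≤ ‖y‖
    · have := mul_nonneg (hnn ‖y‖) (key y (hRt.trans hy))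
      linarith
    · have : sh R ‖y‖ = 0 := if_neg fun h => hy h.1
      simp [this])
  rw [e1, e2, mul_comm q] at hle
  have hpos : 0 < Ub R 0 :=
    lt_of_lt_of_le (inv_pos.2 (lt_of_lt_of_le hR0 (le_max_right _ _))) (hU 0 le_rfl).1
  exact le_of_mul_le_mul_left hle hpos

/-! ## The barrier -/

def low_f (α β s : ℝ) : ℝ := s⁻¹ * (α + β * s)⁻¹ ^ 2

def low_f1 (α β s : ℝ) : ℝ := -(s⁻¹ ^ 2 * (α + β * s)⁻¹ ^ 2) - 2 * β * (s⁻¹ * (α + β * s)⁻¹ ^ 3)

def low_f2 (α β s : ℝ) : ℝ := 2 * (s⁻¹ ^ 3 * (α + β * s)⁻¹ ^ 2) +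
  4 * β * (s⁻¹ ^ 2 * (α + β * s)⁻¹ ^ 3) + 6 * β ^ 2 * (s⁻¹ * (α + β * s)⁻¹ ^ 4)

lemma low_deriv {α β s : ℝ} (hs : s ≠ 0) (hg : α + β * s ≠ 0) :
    HasDerivAt (low_f α β) (low_f1 α β s) s ∧ HasDerivAt (low_f1 α β) (low_f2 α β s) s := by
  have d1 : HasDerivAt (fun s : ℝ => s⁻¹) (-(s⁻¹ ^ 2)) s := by
    simpa only [inv_pow] using hasDerivAt_inv hs
  have d2 : HasDerivAt (fun s : ℝ => (α + β * s)⁻¹) (-(β * (α + β * s)⁻¹ ^ 2)) s := by
    have h0 : HasDerivAt (fun s : ℝ => α + β * s) β s := by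
      simpa using ((hasDerivAt_id s).const_mul β).const_add α
    refine (h0.inv hg).congr_deriv ?_
    rw [inv_pow, neg_div, div_eq_mul_inv]
  constructor
  · refine (d1.mul (d2.pow 2)).congr_deriv ?_
    simp only [low_f1, Pi.pow_apply]
    push_cast
    ring
  · refine (((d1.pow 2).mul (d2.pow 2)).neg.sub
      ((d1.mul (d2.pow 3)).const_mul (2 * β))).congr_deriv ?_
    simp only [low_f2, Pi.pow_apply]
    push_cast
    ring

theorem st_low (h1 : St_harm) (h2 : St_cmp) (h3 : St_rad) : St_low := by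
  intro V ρ q a₀ a L t c hV ha0 ha hat htL hT hc hb
  have ht : 0 < t := lt_of_lt_of_le ha hat
  have hsc : 0 < √c := Real.sqrt_pos.2 hc
  set α := t / √c with hα
  set β := (6 * π)⁻¹ with hβ
  have hα0 : 0 < α := by positivity
  have hβ0 : 0 < β := by positivity
  have hg : ∀ s, 0 < s → 0 < α + β * s := fun s hs => by positivity
  set τ : E3 → ℝ := fun y =>
    if t ≤ ‖y‖ ∧ ‖y‖ ≤ L then low_f2 α β ‖y‖ / (4 * π * ‖y‖) else 0 with hτ
  have hc2 : ContinuousOn (low_f2 α β) (Icc t L) := by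
    have c1 : ContinuousOn (fun s : ℝ => s⁻¹) (Icc t L) :=
      continuousOn_id.inv₀ fun s hs => (lt_of_lt_of_le ht hs.1).ne'
    have c2 : ContinuousOn (fun s : ℝ => (α + β * s)⁻¹) (Icc t L) :=
      ContinuousOn.inv₀ (by fun_prop) fun s hs => (hg s (lt_of_lt_of_le ht hs.1)).ne'
    exact ((continuousOn_const.mul ((c1.pow 3).mul (c2.pow 2))).add
      (continuousOn_const.mul ((c1.pow 2).mul (c2.pow 3)))).add
      (continuousOn_const.mul (c1.mul (c2.pow 4)))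
  obtain ⟨hτl, hin, -⟩ := h3 (low_f α β) (low_f1 α β) (low_f2 α β) t L τ ht htL
    (fun s hs => low_deriv (lt_of_lt_of_le ht hs.1).ne' (hg s (lt_of_lt_of_le ht hs.1)).ne') hc2
    fun _ => rfl
  have hl := hT.dens.ll
  set Q := low_f α β t - t * low_f1 α β t with hQ
  have hH : Harm (fun y : E3 => Q * ‖y - 0‖⁻¹ + low_f1 α β L - V y) {y | a₀ < ‖y‖ ∧ 0 < ‖y‖} :=
    ((((h1.1 0).mono fun y hy => norm_pos_iff.1 hy.2).const_mul Q).add
      (Harm.const _ _)).sub ((h1.2.2.2.2 V q a₀ hV).mono fun y hy => hy.1)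
  have ha1 : a₀ < t := lt_of_lt_of_le ha0 hat
  have hu : ∀ s, 0 < s → low_f α β s / s = (s * (α + β * s))⁻¹ ^ 2 := fun s hs => by
    have := (hg s hs).ne'
    unfold low_f
    field_simp
  have he : ∀ y : E3, t ≤ ‖y‖ → ‖y‖ ≤ L →
      Q * ‖y - 0‖⁻¹ + low_f1 α β L - V y - psi (fun y => τ y - ρ y) y =
        (‖y‖ * (α + β * ‖y‖))⁻¹ ^ 2 - (V y - psi ρ y) := fun y h1 h2 => by
    rw [hτl.psi_sub hl, hin y h1 h2, ← hu _ (lt_of_lt_of_le ht h1), sub_zero]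
    ring
  have hz : ∀ y : E3, L < ‖y‖ → τ y - ρ y = 0 := fun y hy => by
    rw [hT.eq y, if_neg fun h => absurd h.2 (not_le.2 hy)]
    simp only [hτ]
    rw [if_neg fun h => absurd h.2 (not_le.2 hy), sub_zero]
  have key := h2 _ (fun y => τ y - ρ y) t ht
    (hH.cont.mono fun y hy => ⟨lt_of_lt_of_le ha1 hy, lt_of_lt_of_le ht hy⟩)
    (hH.mono fun y hy => ⟨lt_trans ha1 hy, lt_trans ht hy⟩) (hτl.sub hl)
    (fun y hy => by
      rw [he y hy.ge (hy ▸ htL), hy]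
      have e : c / t ^ 4 = (t * α)⁻¹ ^ 2 := by
        rw [hα]
        field_simp
        exact (Real.sq_sqrt hc.le).symm
      have : (t * (α + β * t))⁻¹ ^ 2 ≤ (t * α)⁻¹ ^ 2 := by
        gcongr
        exact le_add_of_nonneg_right (by positivity)
      linarith [hb y hy])
    (fun ε hε => by
      have hε3 : 0 < ε / 3 := by positivity
      obtain ⟨R₁, hR₁⟩ := low_decay_psi (hτl.sub hl) hz hε3
      obtain ⟨R₂, hR₂⟩ := low_decay_V hV hε3
      obtain ⟨R₃, hR₃⟩ := low_decay_V (ext_point Q) hε3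
      refine ⟨max R₁ (max R₂ R₃), fun y hy => ?_⟩
      have e1 := abs_le.1 (hR₁ y ((le_max_left _ _).trans hy))
      have e2 := abs_le.1 (hR₂ y ((le_max_left _ _).trans ((le_max_right _ _).trans hy)))
      have e3 := abs_le.1 (hR₃ y ((le_max_right _ _).trans ((le_max_right _ _).trans hy)))
      have hL0 : 0 < L := lt_of_lt_of_le ht htL
      have e4 : low_f1 α β L ≤ 0 := by
        have := hg L hL0
        have n1 : 0 ≤ L⁻¹ ^ 2 * (α + β * L)⁻¹ ^ 2 := by positivity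
        have n2 : 0 ≤ 2 * β * (L⁻¹ * (α + β * L)⁻¹ ^ 3) := by positivity
        unfold low_f1
        linarith
      rw [sub_zero]
      linarith [e1.1, e2.1, e3.2])
    (fun y hy hpos => by
      by_cases hyL : L < ‖y‖
      · exact (hz y hyL).ge
      have hyL' := not_lt.1 hyL
      have hs : 0 < ‖y‖ := lt_trans ht hy
      have hgs := hg _ hs
      rw [he y hy.le hyL'] at hpos
      rw [hT.eq y, if_pos ⟨hat.trans hy.le, hyL'⟩]
      simp only [hτ]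
      rw [if_pos ⟨hy.le, hyL'⟩, sub_nonneg]
      have g1 : gp (V y - psi ρ y) ≤ (‖y‖ * (α + β * ‖y‖))⁻¹ ^ 3 := by
        refine (gp_mono (sub_pos.1 hpos).le).trans (le_of_eq ?_)
        rw [gp_of_nonneg (by positivity), rpow_three_halves (by positivity),
          Real.sqrt_sq (by positivity)]
      refine (mul_le_mul_of_nonneg_left g1 c1_pos.le).trans ?_
      rw [le_div_iff₀ (by positivity)]
      have e : c1 * (‖y‖ * (α + β * ‖y‖))⁻¹ ^ 3 * (4 * π * ‖y‖) =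
          4 * β * (‖y‖⁻¹ ^ 2 * (α + β * ‖y‖)⁻¹ ^ 3) := by
        have := hgs.ne'
        generalize α + β * ‖y‖ = G at *
        rw [hβ]
        unfold c1
        field_simp
      have n1 : 0 ≤ 2 * (‖y‖⁻¹ ^ 3 * (α + β * ‖y‖)⁻¹ ^ 2) := by positivity
      have n2 : 0 ≤ 6 * β ^ 2 * (‖y‖⁻¹ * (α + β * ‖y‖)⁻¹ ^ 4) := by positivity
      rw [e]
      unfold low_f2
      linarith)
  intro y hy hy2 hyL
  have hs : 0 < ‖y‖ := lt_of_lt_of_le ht hy
  have k := key y hy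
  rw [he y hy hyL] at k
  have hαβ : α ≤ β * ‖y‖ := by
    rw [hβ, le_inv_mul_iff₀ (by positivity), hα, ← mul_div_assoc]
    exact hy2
  have e : 9 * π ^ 2 / ‖y‖ ^ 4 = (‖y‖ * (β * ‖y‖ + β * ‖y‖))⁻¹ ^ 2 := by
    rw [hβ]
    field_simp
    ring
  have : (‖y‖ * (β * ‖y‖ + β * ‖y‖))⁻¹ ^ 2 ≤ (‖y‖ * (α + β * ‖y‖))⁻¹ ^ 2 := by
    have := hg _ hs
    gcongr
  linarith

/-! ## The bare nucleus -/

lemma low_Ib {M : ℝ} (hM : 0 < M) : Ib M = √M * Ib 1 := by
  unfold Ib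
  rw [integral_scale hM]
  have e : ∀ y : E3, bM M (M • y) = M ^ (-(5 / 2) : ℝ) * bM 1 y := fun y => by
    have hn : ‖M • y‖ = M * ‖y‖ := by rw [norm_smul, Real.norm_of_nonneg hM.le]
    unfold bM
    by_cases hy : y ∈ ball (0 : E3) 1
    · have hy' : M • y ∈ ball (0 : E3) M := by
        rw [mem_ball_zero_iff] at hy ⊢
        rw [hn]; nlinarith
      rw [indicator_of_mem hy, indicator_of_mem hy', hn, Real.mul_rpow hM.le (norm_nonneg _)]
    · have hy' : M • y ∉ ball (0 : E3) M := by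
        rw [mem_ball_zero_iff, not_lt] at hy ⊢
        rw [hn]; nlinarith
      rw [indicator_of_notMem hy, indicator_of_notMem hy', mul_zero]
  simp only [e]
  rw [integral_const_mul, ← mul_assoc, Real.sqrt_eq_rpow, ← Real.rpow_natCast,
    ← Real.rpow_add hM]
  norm_num

lemma low_c1_le : c1 ≤ 1 := by
  unfold c1
  exact inv_le_one_of_one_le₀ (by nlinarith [Real.pi_gt_three])

lemma low_53 {Z M r : ℝ} (hZ : 0 < Z) (hM : 0 < M) (y : E3) (h0 : 0 ≤ r)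
    (h : r ≤ (Z * ‖y‖⁻¹) ^ (3 / 2 : ℝ)) :
    |r| ^ (5 / 3 : ℝ) ≤ Z ^ (5 / 2 : ℝ) * bM M (y - 0) + Z / M * r := by
  rw [abs_of_nonneg h0, sub_zero]
  have hv : 0 ≤ Z * ‖y‖⁻¹ := by positivity
  by_cases hy : y ∈ ball (0 : E3) M
  · have n : 0 ≤ Z / M * r := by positivity
    have : r ^ (5 / 3 : ℝ) ≤ Z ^ (5 / 2 : ℝ) * bM M y := by
      refine (Real.rpow_le_rpow h0 h (by norm_num)).trans (le_of_eq ?_)
      unfold bM
      rw [indicator_of_mem hy, ← Real.rpow_mul hv, Real.mul_rpow hZ.le (by positivity),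
        Real.inv_rpow (norm_nonneg _), Real.rpow_neg (norm_nonneg _)]
      norm_num
    linarith
  · have n : 0 ≤ Z ^ (5 / 2 : ℝ) * bM M y := mul_nonneg (by positivity) (bM_nonneg _ _)
    rw [mem_ball_zero_iff, not_lt] at hy
    have e : r ^ (5 / 3 : ℝ) = r ^ (2 / 3 : ℝ) * r := by
      rw [show (5 / 3 : ℝ) = 2 / 3 + 1 by norm_num, Real.rpow_add' h0 (by norm_num),
        Real.rpow_one]
    have l : r ^ (2 / 3 : ℝ) ≤ Z / M := by
      refine (Real.rpow_le_rpow h0 h (by norm_num)).trans ?_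
      rw [← Real.rpow_mul hv, show (3 / 2 * (2 / 3) : ℝ) = 1 by norm_num, Real.rpow_one,
        div_eq_mul_inv]
      exact mul_le_mul_of_nonneg_left (inv_anti₀ hM hy) hZ.le
    have := mul_le_mul_of_nonneg_right l h0
    linarith

theorem st_tf0 (h1 : St_neut) : St_tf0 := by
  have hI := Ib_nonneg 1
  refine ⟨2 * Ib 1 + 2, by positivity, fun Z a L z ρ hz hZ _ hT => ?_⟩
  have hZ0 : 0 < Z := by rw [hZ]; positivity
  have hl := hT.dens.ll
  have hn := hT.dens.nn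
  obtain ⟨B, hB⟩ := hl.psi_bdd
  rw [abs_fun_eq hn] at hB
  have hB0 : 0 ≤ B := (psi_nonneg hn 0).trans (hB 0)
  have hN : N1 ρ ≤ Z := by
    have ht : 0 < Z / (B + 1) := by positivity
    refine (h1 _ ρ Z 0 a L (Z / (B + 1)) (ext_point Z) ht ht hT fun y hy => ?_).2
    have e : Z * ‖y‖⁻¹ = B + 1 := by
      rw [hy]
      field_simp
    rw [e]
    linarith [hB y]
  refine ⟨hN, fun x => ?_⟩
  obtain ⟨w, hw, rfl⟩ : ∃ w > 0, z = w ^ 2 :=
    ⟨√z, Real.sqrt_pos.2 hz, (Real.sq_sqrt hz.le).symm⟩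
  have hM : 0 < w⁻¹ ^ 2 := by positivity
  have hθ : 0 < w⁻¹ ^ 6 := by positivity
  have eI : Ib (w⁻¹ ^ 2) = w⁻¹ * Ib 1 := by rw [low_Ib hM, Real.sqrt_sq (by positivity)]
  have eZ : Z ^ (5 / 2 : ℝ) = w ^ 15 := by
    rw [hZ, ← pow_mul, ← Real.rpow_natCast, ← Real.rpow_mul hw.le, ← Real.rpow_natCast]
    norm_num
  have eθ : (w⁻¹ ^ 6) ^ (-(3 / 2) : ℝ) = w ^ 9 := by
    rw [inv_pow, ← Real.rpow_natCast, ← Real.rpow_neg hw.le, ← Real.rpow_mul hw.le,
      ← Real.rpow_natCast]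
    norm_num
  have hK : KK ρ ≤ Z ^ (5 / 2 : ℝ) * Ib (w⁻¹ ^ 2) + Z / w⁻¹ ^ 2 * N1 ρ := by
    refine hl.HK.le (((HI_bM _ 0).const_mul _).add ((hl.HN' hn).const_mul _))
      (Eventually.of_forall fun y => low_53 hZ0 hM y (hn y) ?_)
    rw [hT.eq y]
    split_ifs
    · rw [← gp_of_nonneg (by positivity)]
      refine (mul_le_of_le_one_left (gp_nonneg _) low_c1_le).trans (gp_mono ?_)
      linarith [psi_nonneg hn y]
    · positivity
  have hP := hl.psi_abs_le hθ hM x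
  rw [abs_fun_eq hn, eθ, eI] at hP
  rw [eZ, eI] at hK
  have hK2 : KK ρ ≤ w ^ 14 * Ib 1 + w ^ 14 := by
    have e1 : w ^ 15 * (w⁻¹ * Ib 1) = w ^ 14 * Ib 1 := by field_simp
    have e2 : Z / w⁻¹ ^ 2 * Z = w ^ 14 := by rw [hZ]; field_simp
    have := mul_le_mul_of_nonneg_left hN (show 0 ≤ Z / w⁻¹ ^ 2 by positivity)
    linarith
  have t1 := mul_le_mul_of_nonneg_left hK2 hθ.le
  have t2 := mul_le_mul_of_nonneg_left hN (inv_pos.2 hM).le
  have e1 : w⁻¹ ^ 6 * (w ^ 14 * Ib 1 + w ^ 14) = w ^ 8 * Ib 1 + w ^ 8 := by field_simp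
  have e2 : (w⁻¹ ^ 2)⁻¹ * Z = w ^ 8 := by rw [hZ]; field_simp
  have e3 : w ^ 9 * (w⁻¹ * Ib 1) = w ^ 8 * Ib 1 := by field_simp
  have e4 : (2 * Ib 1 + 2) * (w ^ 2) ^ 4 = 2 * (w ^ 8 * Ib 1) + 2 * w ^ 8 := by ring
  linarith

end Pool.Agent.Lib.ION
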