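import Pool.Agent.Lib.ION.Basic

/-!
# Smooth partitions of unity of the line and radial cut-off functions
-/

open MeasureTheory Set Metric Real Filter Topology
open scoped ContDiff ComplexConjugate

noncomputable section

namespace Pool.Agent.Lib.ION

open Pool.Agent.Lib.MP_689e73_mp

def measA (x : ℝ) : ℝ := π / 2 * smoothTransition x

def measD (x : ℝ) : ℝ := π / 2 * deriv smoothTransition x

def measS (x : ℝ) : ℝ := sin (measA x)

def measC (x : ℝ) : ℝ := cos (measA x)

def measH (x : ℝ) : ℝ := if 0 < x then 1 else 0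

lemma meas_smA : ContDiff ℝ ∞ measA := contDiff_const.mul smoothTransition.contDiff

lemma meas_smS : ContDiff ℝ ∞ measS := contDiff_sin.comp meas_smA

lemma meas_smC : ContDiff ℝ ∞ measC := contDiff_cos.comp meas_smA

lemma meas_dA (x : ℝ) : HasDerivAt measA (measD x) x :=
  (((smoothTransition.contDiff (n := 1)).differentiable one_ne_zero) x).hasDerivAt.const_mul _

lemma meas_dS (x : ℝ) : HasDerivAt measS (measC x * measD x) x := (meas_dA x).sin

lemma meas_dC (x : ℝ) : HasDerivAt measC (-measS x * measD x) x := (meas_dA x).cos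

lemma meas_sq (x : ℝ) : measS x ^ 2 + measC x ^ 2 = 1 := sin_sq_add_cos_sq _

lemma meas_S0 {x : ℝ} (h : x ≤ 0) : measS x = 0 := by
  simp [measS, measA, smoothTransition.zero_of_nonpos h]

lemma meas_C1 {x : ℝ} (h : 1 ≤ x) : measC x = 0 := by
  simp [measC, measA, smoothTransition.one_of_one_le h]

lemma meas_D0 {x : ℝ} (h : x ≤ 0 ∨ 1 ≤ x) : measD x = 0 := by
  have : deriv smoothTransition x = 0 := by
    rcases h with h | h
    · refine IsLocalMin.deriv_eq_zero (Eventually.of_forall fun y => ?_)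
      rw [smoothTransition.zero_of_nonpos h]
      exact smoothTransition.nonneg y
    · refine IsLocalMax.deriv_eq_zero (Eventually.of_forall fun y => ?_)
      rw [smoothTransition.one_of_one_le h]
      exact smoothTransition.le_one y
  simp [measD, this]

lemma meas_bd : ∃ M > 0, ∀ x, measD x ^ 2 ≤ M * (measH x - measH (x - 1)) := by
  have hc : Continuous fun x => measD x ^ 2 :=
    (continuous_const.mul ((smoothTransition.contDiff (n := 1)).continuous_deriv le_rfl)).pow 2
  obtain ⟨M, hM⟩ := (isCompact_Icc (a := (0 : ℝ)) (b := 1)).exists_bound_of_continuousOn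
    hc.continuousOn
  refine ⟨|M| + 1, by positivity, fun x => ?_⟩
  unfold measH
  by_cases h0 : 0 < x
  · by_cases h1 : 0 < x - 1
    · simp only [if_pos h0, if_pos h1, meas_D0 (.inr (by linarith : 1 ≤ x))]
      simp
    · have := hM x ⟨h0.le, by linarith⟩
      simp only [if_pos h0, if_neg h1]
      have h2 := le_abs_self M
      have h3 := le_abs_self (measD x ^ 2)
      rw [Real.norm_eq_abs] at this
      linarith
  · have h1 : ¬ 0 < x - 1 := by linarith [not_lt.1 h0] |> fun (h : x - 1 ≤ 0) => not_lt.2 h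
    simp only [if_neg h0, if_neg h1, meas_D0 (.inl (not_lt.1 h0))]
    simp

lemma meas_H (x y : ℝ) : measH x - measH y ≤ 1 := by
  unfold measH
  split_ifs <;> norm_num

lemma meas_tel (x : ℝ) : (measS x * measC (x - 1)) ^ 2 = measS x ^ 2 - measS (x - 1) ^ 2 := by
  have h1 := meas_sq x
  have h2 := meas_sq (x - 1)
  rcases le_total x 1 with h | h
  · rw [meas_S0 (by linarith : x - 1 ≤ 0)] at h2 ⊢
    rw [mul_pow, show measC (x - 1) ^ 2 = 1 by linarith]
    ring
  · rw [meas_C1 h] at h1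
    rw [mul_pow, show measS x ^ 2 = 1 by linarith]
    linarith

/-- the pieces -/
def measP (n : ℕ) : ℕ → ℝ → ℝ
  | 0 => measC
  | 1 => fun u => measS (u - n)
  | k + 2 => fun u => measS (u - k) * measC (u - k - 1)

/-- their derivatives -/
def measQ (n : ℕ) : ℕ → ℝ → ℝ
  | 0 => fun u => -measS u * measD u
  | 1 => fun u => measC (u - n) * measD (u - n)
  | k + 2 => fun u => measC (u - k) * measD (u - k) * measC (u - k - 1) +
      measS (u - k) * (-measS (u - k - 1) * measD (u - k - 1))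

lemma meas_smP (n : ℕ) : ∀ k, ContDiff ℝ ∞ (measP n k)
  | 0 => meas_smC
  | 1 => meas_smS.comp (contDiff_id.sub contDiff_const)
  | _ + 2 => (meas_smS.comp (contDiff_id.sub contDiff_const)).mul
      (meas_smC.comp ((contDiff_id.sub contDiff_const).sub contDiff_const))

lemma meas_dP (n : ℕ) (u : ℝ) : ∀ k, HasDerivAt (measP n k) (measQ n k u) u
  | 0 => meas_dC u
  | 1 => (meas_dS (u - n)).comp_sub_const u n
  | k + 2 => ((meas_dS (u - k)).comp_sub_const u k).mul
      (((meas_dC (u - k - 1)).comp_sub_const (u - k) 1).comp_sub_const u k)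

lemma meas_sumP (n : ℕ) (u : ℝ) : ∑ k ∈ Finset.range (n + 2), measP n k u ^ 2 = 1 := by
  rw [Finset.sum_range_succ', Finset.sum_range_succ']
  have : ∀ k ∈ Finset.range n, measP n (k + 1 + 1) u ^ 2 =
      measS (u - (k : ℕ)) ^ 2 - measS (u - (k + 1 : ℕ)) ^ 2 := fun k _ => by
    rw [show u - (k + 1 : ℕ) = u - k - 1 by push_cast; ring]
    exact meas_tel _
  rw [Finset.sum_congr rfl this, Finset.sum_range_sub' (fun k : ℕ => measS (u - k) ^ 2)]
  have := meas_sq u
  simp only [measP, Nat.cast_zero, sub_zero]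
  linarith

lemma meas_sumQ {M : ℝ} (hM : 0 < M) (h : ∀ x, measD x ^ 2 ≤ M * (measH x - measH (x - 1)))
    (n : ℕ) (u : ℝ) : ∑ k ∈ Finset.range (n + 2), measQ n k u ^ 2 ≤ 6 * M := by
  have hS : ∀ x, measS x ^ 2 ≤ 1 := fun x => by nlinarith [meas_sq x, sq_nonneg (measC x)]
  have hC : ∀ x, measC x ^ 2 ≤ 1 := fun x => by nlinarith [meas_sq x, sq_nonneg (measS x)]
  have hD : ∀ x, measD x ^ 2 ≤ M := fun x =>
    (h x).trans (by nlinarith [meas_H x (x - 1)])
  have aux : ∀ a b d : ℝ, a ^ 2 ≤ 1 → b ^ 2 ≤ 1 → (a * d * b) ^ 2 ≤ d ^ 2 := fun a b d ha hb => by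
    have : a ^ 2 * b ^ 2 ≤ 1 := mul_le_one₀ ha (sq_nonneg b) hb
    nlinarith [sq_nonneg d]
  set T : ℕ → ℝ := fun k => 2 * M * (measH (u - k) + measH (u - k - 1)) with hT
  rw [Finset.sum_range_succ', Finset.sum_range_succ']
  have : ∀ k ∈ Finset.range n, measQ n (k + 1 + 1) u ^ 2 ≤ T k - T (k + 1) := fun k _ => by
    have e : u - (k + 1 : ℕ) = u - k - 1 := by push_cast; ring
    have h1 := aux _ _ (measD (u - k)) (hC (u - k)) (hC (u - k - 1))
    have h2 := aux _ _ (measD (u - k - 1)) (hS (u - k)) (hS (u - k - 1))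
    have h3 := h (u - k)
    have h4 := h (u - k - 1)
    simp only [measQ, hT, e]
    nlinarith [sq_nonneg (measC (u - k) * measD (u - k) * measC (u - k - 1) +
      measS (u - k) * measD (u - k - 1) * measS (u - k - 1))]
  have h1 := (Finset.sum_le_sum this).trans_eq (Finset.sum_range_sub' T n)
  have h2 : T 0 - T n ≤ 4 * M := by
    have := meas_H (u - (0 : ℕ)) (u - n)
    have := meas_H (u - (0 : ℕ) - 1) (u - n - 1)
    simp only [hT]
    nlinarith
  have h3 := aux _ 1 (measD (u - n)) (hC (u - n)) (by norm_num)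
  have h4 := aux _ 1 (measD u) (hS u) (by norm_num)
  have h5 := hD (u - n)
  have h6 := hD u
  simp only [measQ] at h1 ⊢
  nlinarith

lemma meas_chain {E : Type} [NormedAddCommGroup E] [NormedSpace ℝ E] {φ : ℝ → ℝ} {d : ℝ}
    {F : E → ℝ} {X : E} (h : HasDerivAt φ d (F X)) (hF : DifferentiableAt ℝ F X) (v : E) :
    fderiv ℝ (fun X => φ (F X)) X v = d * fderiv ℝ F X v := by
  have := (h.comp_hasFDerivAt X hF.hasFDerivAt).fderiv
  rw [show (fun X => φ (F X)) = φ ∘ F from rfl, this]
  simp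

theorem st_meas : St_meas := by
  obtain ⟨M, hM, h⟩ := meas_bd
  refine ⟨6 * M, by positivity, fun w hw B => ?_⟩
  obtain ⟨n, hn⟩ := exists_nat_ge (2 * |B| / w + 1)
  refine ⟨n + 2, fun o t => measP n o ((t + |B|) / w + 1), fun o => ((o : ℕ) - 2) * w - |B|,
    fun o t ht h0 => ?_, fun ι _ _ F hF => ⟨fun o => ?_, fun X => ?_, fun X => ?_⟩⟩
  · obtain ⟨o, ho⟩ := o
    have h1 := abs_le.1 (ht.trans (le_abs_self B))
    have h2 : 0 ≤ (t + |B|) / w := div_nonneg (by linarith) hw.le
    have h3 : (t + |B|) / w ≤ 2 * |B| / w := div_le_div_of_nonneg_right (by linarith) hw.le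
    match o with
    | 0 => exact absurd (meas_C1 (by linarith)) h0
    | 1 => exact absurd (meas_S0 (by linarith)) h0
    | k + 2 =>
      have h4 : 0 < (t + |B|) / w + 1 - k :=
        not_le.1 fun hh => (mul_ne_zero_iff.1 h0).1 (meas_S0 hh)
      have h5 : (t + |B|) / w + 1 - k - 1 < 1 :=
        not_le.1 fun hh => (mul_ne_zero_iff.1 h0).2 (meas_C1 hh)
      have h6 : (k : ℝ) - 1 < (t + |B|) / w := by linarith
      have h7 : (t + |B|) / w < k + 1 := by linarith
      rw [lt_div_iff₀ hw] at h6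
      rw [div_lt_iff₀ hw] at h7
      push_cast
      rw [abs_le]
      constructor <;> linarith
  · exact (meas_smP n o).comp (((hF.add contDiff_const).div_const w).add contDiff_const)
  · exact (Fin.sum_univ_eq_sum_range (fun k => measP n k ((F X + |B|) / w + 1) ^ 2) _).trans
      (meas_sumP n _)
  · have hd : ∀ o : ℕ, gsq (fun X => measP n o ((F X + |B|) / w + 1)) X =
        measQ n o ((F X + |B|) / w + 1) ^ 2 * (gsq F X / w ^ 2) := fun o => by
      have k : HasDerivAt (fun t => measP n o ((t + |B|) / w + 1))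
          (measQ n o ((F X + |B|) / w + 1) * (1 / w)) (F X) :=
        (meas_dP n _ o).comp (F X) ((((hasDerivAt_id (F X)).add_const |B|).div_const w).add_const 1)
      simp only [gsq, meas_chain k (hF.differentiable (by simp) X), Finset.sum_div, Finset.mul_sum]
      refine Finset.sum_congr rfl fun j _ => Finset.sum_congr rfl fun a _ => ?_
      field_simp
    have h0 : 0 ≤ gsq F X / w ^ 2 := by unfold gsq; positivity
    simp only [hd, ← Finset.sum_mul]
    rw [Fin.sum_univ_eq_sum_range (fun k => measQ n k ((F X + |B|) / w + 1) ^ 2)]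
    exact (mul_le_mul_of_nonneg_right (meas_sumQ hM h n _) h0).trans_eq (by ring)

theorem st_cut : St_cut := by
  obtain ⟨M, hM, h⟩ := meas_bd
  refine ⟨4 * M, by positivity, fun a₀ a₁ h0 h1 => ?_⟩
  have hp : 0 < a₁ ^ 2 - a₀ ^ 2 := by nlinarith
  set q : E3 → ℝ := fun y => (‖y‖ ^ 2 - a₀ ^ 2) / (a₁ ^ 2 - a₀ ^ 2) with hq
  have sq : ContDiff ℝ ∞ q := ((contDiff_norm_sq ℝ).sub contDiff_const).div_const _
  have q0 : ∀ y, ‖y‖ ≤ a₀ → q y ≤ 0 := fun y hy =>
    div_nonpos_of_nonpos_of_nonneg (by nlinarith [norm_nonneg y]) hp.le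
  have q1 : ∀ y, a₁ ≤ ‖y‖ → 1 ≤ q y := fun y hy => (one_le_div hp).2 (by nlinarith)
  have dq : ∀ y, g1 q y = 4 * ‖y‖ ^ 2 / (a₁ ^ 2 - a₀ ^ 2) ^ 2 := fun y => by
    have k := (((hasStrictFDerivAt_norm_sq y).hasFDerivAt.sub_const (a₀ ^ 2)).mul_const
      (a₁ ^ 2 - a₀ ^ 2)⁻¹).fderiv
    simp only [g1, hq, div_eq_mul_inv, k, e1, EuclideanSpace.real_norm_sq_eq y, Finset.mul_sum,
      Finset.sum_mul]
    refine Finset.sum_congr rfl fun a _ => ?_
    rw [← inv_pow]
    simp [EuclideanSpace.inner_single_right, -inv_pow]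
    ring
  refine ⟨fun y => measC (q y), fun y => measS (q y), meas_smC.comp sq, meas_smS.comp sq,
    fun y => by linarith [meas_sq (q y)], fun y hy => meas_S0 (q0 y hy),
    fun y hy => meas_C1 (q1 y hy), fun y => ?_⟩
  have e : g1 (fun y => measC (q y)) y + g1 (fun y => measS (q y)) y =
      measD (q y) ^ 2 * g1 q y := by
    have hd := sq.differentiable (by simp) y
    simp only [g1, meas_chain (meas_dC _) hd, meas_chain (meas_dS _) hd, Finset.mul_sum,
      ← Finset.sum_add_distrib]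
    refine Finset.sum_congr rfl fun a _ => ?_
    linear_combination (measD (q y) * fderiv ℝ q y (e1 a)) ^ 2 * meas_sq (q y)
  rw [e]
  split_ifs with hy
  · have h2 : measD (q y) ^ 2 ≤ M := (h _).trans (by nlinarith [meas_H (q y) (q y - 1)])
    have h3 : g1 q y ≤ 4 / (a₁ - a₀) ^ 2 := by
      have h4 : 0 < a₁ - a₀ := by linarith
      rw [dq, div_le_div_iff₀ (by positivity) (by positivity)]
      have h5 : ‖y‖ ^ 2 ≤ (a₁ + a₀) ^ 2 :=
        pow_le_pow_left₀ (norm_nonneg y) (by linarith [hy.2]) 2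
      nlinarith [mul_le_mul_of_nonneg_right h5 (sq_nonneg (a₁ - a₀))]
    exact (mul_le_mul h2 h3 (g1_nonneg q y) hM.le).trans_eq (by ring)
  · rw [meas_D0 (x := q y) (by
      rcases not_and_or.1 hy with k | k
      · exact .inl (q0 y (not_le.1 k).le)
      · exact .inr (q1 y (not_le.1 k).le))]
    simp

end Pool.Agent.Lib.ION
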