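import Pool.Agent.Lib.ION.Basic

/-!
# The Onsager type lower bound for the repulsion of smeared charges
-/

open MeasureTheory Set Metric Real Filter Topology
open scoped ContDiff ComplexConjugate

noncomputable section

namespace Pool.Agent.Lib.ION

open Pool.Agent.Lib.MP_689e73_mp

lemma ons_DD_left {κ : Type} (S : Finset κ) (θ : κ → ℝ) {m : κ → E3 → ℝ} (hm : ∀ j, LL (m j))
    {σ : E3 → ℝ} (hσ : LL σ) :
    DD (fun y => ∑ j ∈ S, θ j * m j y) σ = ∑ j ∈ S, θ j * DD (m j) σ :=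
  ((LL_sum S fun j _ => (hm j).const_mul (θ j)).HD hσ).eq
    (HI.sum S fun j _ => ((hm j).HD hσ).const_mul (θ j))
    (Eventually.of_forall fun x => by
      rw [Finset.sum_mul]
      exact Finset.sum_congr rfl fun j _ => mul_assoc _ _ _)

lemma ons_expand {κ : Type} [Fintype κ] (θ : κ → ℝ) {m : κ → E3 → ℝ} (hm : ∀ j, LL (m j))
    {ρ : E3 → ℝ} (hρ : LL ρ) :
    DD (fun y => ∑ j, θ j * m j y - ρ y) (fun y => ∑ j, θ j * m j y - ρ y) =
      ∑ i, ∑ j, θ i * θ j * DD (m i) (m j) - 2 * ∑ j, θ j * DD (m j) ρ + DD ρ ρ := by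
  have hμ : LL fun y => ∑ j, θ j * m j y := LL_sum _ fun j _ => (hm j).const_mul (θ j)
  rw [DD_sub_left hμ hρ (hμ.sub hρ), DD_symm hμ (hμ.sub hρ), DD_symm hρ (hμ.sub hρ),
    DD_sub_left hμ hρ hμ, DD_sub_left hμ hρ hρ, DD_symm hρ hμ, ons_DD_left _ θ hm hρ,
    ons_DD_left _ θ hm hμ]
  have : ∀ i, θ i * DD (m i) (fun y => ∑ j, θ j * m j y) =
      ∑ j, θ i * θ j * DD (m i) (m j) := by
    intro i
    rw [DD_symm (hm i) hμ, ons_DD_left _ θ hm (hm i), Finset.mul_sum]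
    refine Finset.sum_congr rfl fun j _ => ?_
    rw [DD_symm (hm j) (hm i), mul_assoc]
  simp only [this]
  ring

lemma ons_ell_pos {s R₁ : ℝ} (hs : 0 < s) (y : E3) : 0 < ell s R₁ y :=
  mul_pos hs (lt_of_lt_of_le one_pos (le_max_left _ _))

lemma ons_norm_ball {c y : E3} {l : ℝ} (h : ‖y - c‖ ≤ l) : ‖c‖ - l ≤ ‖y‖ ∧ ‖y‖ ≤ ‖c‖ + l := by
  have h1 := abs_norm_sub_norm_le y c
  rw [abs_le] at h1
  constructor <;> linarith [h1.1, h1.2]

theorem st_ons (h1 : St_harm) (h2 : St_ker) (h3 : St_ko) : St_ons := by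
  obtain ⟨-, -, hh3, hh4, hh5⟩ := h1
  obtain ⟨Ck, hCk, hk⟩ := h2
  obtain ⟨A, hA, hko⟩ := h3
  refine ⟨Ck + 2 * A, by positivity, ?_⟩
  intro V ρ ϑ q a₀ a s b R₁ L ι _ _ X hV hG hT hϑ hϑ0 hinj hL
  obtain ⟨g0, g1, g2, g3, g4, g5, g6, g7⟩ := hG
  have hR : 0 < R₁ := by linarith
  have hρ : LL ρ := hT.dens.ll
  have hl : ∀ j, 0 < ell s R₁ (X j) := fun j => ons_ell_pos g2 _
  have hrad : ∀ l, 0 < l → Rad (gam l) l := fun l h => (hk l h).2.2.2.1
  have hnn : ∀ l, 0 < l → ∀ t, 0 ≤ gam l t := fun l h => (hk l h).2.2.2.2.1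
  have hone : ∀ l, 0 < l → ∫ y : E3, gam l ‖y‖ = 1 := fun l h => (hk l h).2.2.2.2.2.1
  have hpsi : ∀ l, 0 < l → ∀ c x : E3, psi (fun y => gam l ‖y - c‖) x ≤ Ck / l :=
    fun l h => (hk l h).2.2.2.2.2.2.2
  have hm : ∀ j, LL fun y => gam (ell s R₁ (X j)) ‖y - X j‖ := fun j => (hrad _ (hl j)).ll _
  have hH := hh5 V q a₀ hV
  have hφ : ContinuousOn (fun y => V y - psi ρ y) {y | a₀ < ‖y‖} :=
    hH.cont.sub hρ.continuous_psi.continuousOn
  -- pair terms
  have hpair : ∀ i j, ϑ (X i) * ϑ (X j) * DD (fun y => gam (ell s R₁ (X i)) ‖y - X i‖)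
      (fun y => gam (ell s R₁ (X j)) ‖y - X j‖) ≤ ϑ (X i) * ϑ (X j) * ‖X i - X j‖⁻¹ +
        if i = j then ϑ (X i) * (Ck / ell s R₁ (X i)) else 0 := by
    intro i j
    have e1 : DD (fun y => gam (ell s R₁ (X i)) ‖y - X i‖)
        (fun y => gam (ell s R₁ (X j)) ‖y - X j‖) ≤
        psi (fun y => gam (ell s R₁ (X j)) ‖y - X j‖) (X i) := by
      have := hh4 _ _ _ (X i) (hm j) (fun y => hnn _ (hl j) _) (hrad _ (hl i)) (hnn _ (hl i))
      rwa [hone _ (hl i), one_mul] at this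
    have hi := hϑ (X i)
    have hj := hϑ (X j)
    split_ifs with hij
    · subst hij
      have e2 := e1.trans (hpsi _ (hl i) _ _)
      have e3 : 0 ≤ Ck / ell s R₁ (X i) := div_nonneg hCk.le (hl i).le
      have e4 : ϑ (X i) * ϑ (X i) ≤ ϑ (X i) := by nlinarith [hi.1, hi.2]
      simp only [sub_self, norm_zero, inv_zero, mul_zero, zero_add]
      exact (mul_le_mul_of_nonneg_left e2 (mul_nonneg hi.1 hi.1)).trans
        (mul_le_mul_of_nonneg_right e4 e3)
    · rw [add_zero]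
      by_cases hi0 : ϑ (X i) = 0
      · simp [hi0]
      by_cases hj0 : ϑ (X j) = 0
      · simp [hj0]
      refine mul_le_mul_of_nonneg_left (e1.trans ?_) (mul_nonneg hi.1 hj.1)
      have := hh3 _ _ (X j) (X i) (hrad _ (hl j)) (hnn _ (hl j)) (hinj i j hij hi0 hj0).symm
      rw [hone _ (hl j), one_mul, norm_sub_rev (X j)] at this
      refine le_of_eq_of_le ?_ this
      unfold psi
      congr 1
      ext y
      rw [norm_sub_rev (X i), mul_comm]
  -- one particle terms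
  have hone' : ∀ j, ϑ (X j) * (1 / 2 * (Ck / ell s R₁ (X j))) -
      ϑ (X j) * DD (fun y => gam (ell s R₁ (X j)) ‖y - X j‖) ρ ≤
      -(ϑ (X j) * V (X j)) + ϑ (X j) * (∫ u, (if a ≤ ‖u‖ ∧ ‖u‖ ≤ 3 * R₁ then
        max (V u - psi ρ u) 0 else 0) * gam s ‖X j - u‖) +
        (Ck + 2 * A) * (R₁ / s ^ 2 + R₁⁻¹ ^ 3) * (ϑ (X j) * ‖X j‖⁻¹) := by
    intro j
    by_cases hj0 : ϑ (X j) = 0
    · simp [hj0]
    have hb : b ≤ ‖X j‖ := not_lt.1 fun h => hj0 (hϑ0 _ h)
    have hLj := hL j hj0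
    have hy : 0 < ‖X j‖ := by linarith
    have key : ∀ l, 0 < l → (closedBall (X j) l ⊆ {y | a₀ < ‖y‖}) →
        -DD (fun y => gam l ‖y - X j‖) ρ =
          -V (X j) + ∫ y, gam l ‖y - X j‖ * (V y - psi ρ y) := by
      intro l hl0 hsub
      have e1 := hH.mv _ _ _ hsub (hrad l hl0)
      rw [hone l hl0, one_mul] at e1
      simp only [mul_sub]
      rw [integral_sub (Harm.int hH.cont hsub (hrad l hl0))
        (Harm.int hρ.continuous_psi.continuousOn hsub (hrad l hl0)), e1]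
      unfold DD
      ring
    suffices h : 1 / 2 * (Ck / ell s R₁ (X j)) -
        DD (fun y => gam (ell s R₁ (X j)) ‖y - X j‖) ρ ≤
        -V (X j) + (∫ u, (if a ≤ ‖u‖ ∧ ‖u‖ ≤ 3 * R₁ then
          max (V u - psi ρ u) 0 else 0) * gam s ‖X j - u‖) +
          (Ck + 2 * A) * (R₁ / s ^ 2 + R₁⁻¹ ^ 3) * ‖X j‖⁻¹ by
      have := mul_le_mul_of_nonneg_left h (hϑ (X j)).1
      linarith
    have hs2 : R₁ / s ≤ R₁ / s ^ 2 :=
      div_le_div_of_nonneg_left hR.le (by positivity) (by nlinarith)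
    have p1 : 0 ≤ R₁ / s ^ 2 * ‖X j‖⁻¹ := by positivity
    have p2 : 0 ≤ R₁⁻¹ ^ 3 * ‖X j‖⁻¹ := by positivity
    have p3 : R₁ / s * ‖X j‖⁻¹ ≤ R₁ / s ^ 2 * ‖X j‖⁻¹ :=
      mul_le_mul_of_nonneg_right hs2 (by positivity)
    rcases le_or_gt ‖X j‖ (2 * R₁) with hn | hn
    · have e0 : ell s R₁ (X j) = s := by
        unfold ell
        rw [max_eq_left ((div_le_one (by positivity)).2 hn), mul_one]
      rw [e0]
      have hsub : closedBall (X j) s ⊆ {y | a₀ < ‖y‖} := fun y hy => by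
        rw [mem_closedBall, dist_eq_norm] at hy
        have := (ons_norm_ball hy).1
        change a₀ < ‖y‖
        linarith
      have e1 := key s g2 hsub
      have e2 : (∫ u, (if a ≤ ‖u‖ ∧ ‖u‖ ≤ 3 * R₁ then max (V u - psi ρ u) 0 else 0) *
          gam s ‖X j - u‖) = ∫ u, gam s ‖u - X j‖ * max (V u - psi ρ u) 0 := by
        congr 1
        ext u
        rw [norm_sub_rev (X j)]
        rcases le_or_gt ‖u - X j‖ s with hu | hu
        · have := ons_norm_ball hu
          rw [if_pos ⟨by linarith [this.1], by linarith [this.2]⟩, mul_comm]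
        · rw [(hrad s g2).supp _ hu, mul_zero, zero_mul]
      have e3 : ∫ y, gam s ‖y - X j‖ * (V y - psi ρ y) ≤
          ∫ u, gam s ‖u - X j‖ * max (V u - psi ρ u) 0 :=
        integral_mono (Harm.int hφ hsub (hrad s g2))
          (Harm.int (hφ.sup continuousOn_const) hsub (hrad s g2))
          fun y => mul_le_mul_of_nonneg_left (le_max_left _ _) (hnn s g2 _)
      have e4 : 1 / 2 * (Ck / s) ≤ Ck * (R₁ / s * ‖X j‖⁻¹) := by
        have : 1 / 2 ≤ R₁ * ‖X j‖⁻¹ := by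
          rw [← div_eq_mul_inv, le_div_iff₀ hy]
          linarith
        calc 1 / 2 * (Ck / s) ≤ R₁ * ‖X j‖⁻¹ * (Ck / s) :=
              mul_le_mul_of_nonneg_right this (by positivity)
          _ = _ := by ring
      rw [e2]
      nlinarith [mul_le_mul_of_nonneg_left p3 hCk.le, mul_nonneg hCk.le p2, mul_nonneg hA.le p1,
        mul_nonneg hA.le p2]
    · have e0 : ell s R₁ (X j) = s * (‖X j‖ / (2 * R₁)) := by
        unfold ell
        rw [max_eq_right ((one_le_div (by positivity)).2 hn.le)]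
      have e5 : ell s R₁ (X j) ≤ ‖X j‖ / 4 := by
        rw [e0, ← mul_div_assoc, div_le_div_iff₀ (by positivity) (by norm_num)]
        nlinarith
      have hsub : closedBall (X j) (ell s R₁ (X j)) ⊆ {y | a₀ < ‖y‖} := fun y hy => by
        rw [mem_closedBall, dist_eq_norm] at hy
        have := (ons_norm_ball hy).1
        change a₀ < ‖y‖
        linarith
      have e1 := key _ (hl j) hsub
      have e2 : 0 ≤ ∫ u, (if a ≤ ‖u‖ ∧ ‖u‖ ≤ 3 * R₁ then max (V u - psi ρ u) 0 else 0) *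
          gam s ‖X j - u‖ :=
        integral_nonneg fun u => mul_nonneg (by split_ifs; exacts [le_max_right _ _, le_rfl])
          (hnn s g2 _)
      have e3 : ∫ y, gam (ell s R₁ (X j)) ‖y - X j‖ * (V y - psi ρ y) ≤
          2 * A * (R₁⁻¹ ^ 3 * ‖X j‖⁻¹) := by
        have e6 := (Harm.const (2 * A * (R₁⁻¹ ^ 3 * ‖X j‖⁻¹)) _).mv _ _ _ hsub (hrad _ (hl j))
        rw [hone _ (hl j), one_mul] at e6
        rw [← e6]
        refine integral_mono (Harm.int hφ hsub (hrad _ (hl j)))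
          (Harm.int continuousOn_const hsub (hrad _ (hl j))) fun y => ?_
        rcases le_or_gt ‖y - X j‖ (ell s R₁ (X j)) with hu | hu
        · refine mul_le_mul_of_nonneg_left ?_ (hnn _ (hl j) _)
          have hy2 := ons_norm_ball hu
          have e7 : ‖X j‖ / 2 ≤ ‖y‖ - a := by linarith [hy2.1]
          refine (hko V ρ q a₀ a L hV g0 g1 (by linarith) hT y (by linarith)
            (by linarith [hy2.2])).trans ?_
          calc A / (‖y‖ - a) ^ 4 ≤ A / (R₁ ^ 3 * (‖X j‖ / 2)) := by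
                refine div_le_div_of_nonneg_left hA.le (by positivity) ?_
                rw [pow_succ]
                exact mul_le_mul (pow_le_pow_left₀ hR.le (by linarith) 3) e7 (by positivity)
                  (pow_nonneg (by linarith) 3)
            _ = _ := by field_simp
        · simp only [(hrad _ (hl j)).supp _ hu, zero_mul, le_refl]
      have e4 : 1 / 2 * (Ck / ell s R₁ (X j)) = Ck * (R₁ / s * ‖X j‖⁻¹) := by
        rw [e0]
        field_simp
      nlinarith [mul_le_mul_of_nonneg_left p3 hCk.le, mul_nonneg hCk.le p2, mul_nonneg hA.le p1,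
        mul_nonneg hA.le p2]
  have s1 := Finset.sum_le_sum fun i (_ : i ∈ Finset.univ) =>
    Finset.sum_le_sum fun j (_ : j ∈ Finset.univ) => hpair i j
  have s2 := Finset.sum_le_sum fun j (_ : j ∈ Finset.univ) => hone' j
  simp only [Finset.sum_add_distrib, Finset.sum_ite_eq, Finset.mem_univ, if_true] at s1
  simp only [Finset.sum_add_distrib, Finset.sum_sub_distrib, Finset.sum_neg_distrib,
    mul_left_comm _ (1 / 2 : ℝ), ← Finset.mul_sum] at s2
  unfold Dv mu Ww Sw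
  rw [ons_expand (fun j => ϑ (X j)) hm hρ]
  linarith

end Pool.Agent.Lib.ION
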