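import Pool.Agent.Lib.ION.Basic

/-!
# The Pauli bound: the annihilation operator of `u` has norm at most the norm of `u`
-/

open MeasureTheory Set Metric Real Filter Topology
open scoped ContDiff ComplexConjugate InnerProductSpace

set_option linter.unusedSectionVars false

noncomputable section

namespace Pool.Agent.Lib.ION

open Pool.Agent.Lib.MP_689e73_mp

section

variable {ι : Type} [Fintype ι] [DecidableEq ι] {Φ : Cfg ι → ℂ} {u : E3 → ℂ}

lemma pauli_meas (hΦ : Sm Φ) (hu : Continuous u) (j : ι) : Measurable (ann u Φ j) := by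
  have h1 : Continuous fun p : Cfg ι × E3 => Function.update p.1 j p.2 :=
    continuous_fst.update j continuous_snd
  have h : Continuous fun p : Cfg ι × E3 => conj (u p.2) * Φ (Function.update p.1 j p.2) :=
    (Complex.continuous_conj.comp (hu.comp continuous_snd)).mul (hΦ.cont.comp h1)
  exact (h.stronglyMeasurable.integral_prod_right' (ν := volume)).measurable

lemma pauli_ann_ins (j : ι) (y : E3) (Y : Cfg {i // i ≠ j}) :
    ann u Φ j (ins j y Y) = ∫ z, conj (u z) * Φ (ins j z Y) := by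
  simp only [ann, update_ins]

lemma pauli_dom (hΦ : Sm Φ) (hu : Continuous u) :
    ∃ (L M : ℝ) (w : E3 → ℝ), 0 < L ∧ 0 ≤ M ∧ Integrable w ∧ (∀ y, 0 ≤ w y) ∧
      (∀ X, Φ X ≠ 0 → ∀ j, ‖X j‖ ≤ L) ∧ (∀ X, ‖Φ X‖ ≤ M) ∧ ∀ y, ‖y‖ ≤ L → ‖u y‖ ≤ w y := by
  obtain ⟨L, hL0, hL⟩ := hΦ.supp_bound
  obtain ⟨M, hM⟩ := hΦ.cont.bounded_above_of_compact_support hΦ.cpt
  refine ⟨L, M, indicator (closedBall 0 L) fun y => ‖u y‖, hL0, (norm_nonneg _).trans (hM 0), ?_,
    fun y => indicator_nonneg (fun _ _ => norm_nonneg _) _, hL, hM, fun y hy => ?_⟩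
  · rw [integrable_indicator_iff measurableSet_closedBall]
    exact hu.norm.continuousOn.integrableOn_compact (isCompact_closedBall 0 L)
  · rw [indicator_of_mem (mem_closedBall_zero_iff.2 hy)]

lemma pauli_int_b (hΦ : Sm Φ) (hu : Continuous u) (j : ι) :
    Integrable fun Y : Cfg {i // i ≠ j} => ‖∫ z, conj (u z) * Φ (ins j z Y)‖ ^ 2 := by
  obtain ⟨L, M, w, hL0, hM0, hw, hw0, hL, hM, hwu⟩ := pauli_dom hΦ hu
  have hm : Measurable fun Y : Cfg {i // i ≠ j} => ∫ z, conj (u z) * Φ (ins j z Y) := by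
    have h1 : Measurable fun Y : Cfg {i // i ≠ j} => ins j (0 : E3) Y :=
      (me_ins j).measurable.comp (measurable_const.prodMk measurable_id)
    simpa only [Function.comp_def, pauli_ann_ins] using (pauli_meas hΦ hu j).comp h1
  have h1 : Integrable (indicator (closedBall (0 : Cfg {i // i ≠ j}) L)
      fun _ => (∫ y, w y * M) ^ 2) := by
    rw [integrable_indicator_iff measurableSet_closedBall]
    exact integrableOn_const measure_closedBall_lt_top.ne
  refine h1.mono' (hm.norm.pow_const 2).aestronglyMeasurable (Eventually.of_forall fun Y => ?_)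
  rw [Real.norm_of_nonneg (by positivity)]
  by_cases hY : Y ∈ closedBall (0 : Cfg {i // i ≠ j}) L
  · rw [indicator_of_mem hY]
    refine pow_le_pow_left₀ (norm_nonneg _) ?_ 2
    refine norm_integral_le_of_norm_le (hw.mul_const M) (Eventually.of_forall fun z => ?_)
    by_cases h0 : Φ (ins j z Y) = 0
    · rw [h0, mul_zero, norm_zero]; exact mul_nonneg (hw0 z) hM0
    · rw [norm_mul, Complex.norm_conj]
      have := hL _ h0 j
      rw [ins_self] at this
      exact mul_le_mul (hwu z this) (hM _) (norm_nonneg _) (hw0 z)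
  · rw [indicator_of_notMem hY]
    have h0 : ∀ z, Φ (ins j z Y) = 0 := fun z => by
      by_contra h0
      refine hY (mem_closedBall_zero_iff.2 ((pi_norm_le_iff_of_nonneg hL0.le).2 fun i => ?_))
      have := hL _ h0 i
      rwa [ins_ne i.2] at this
    simp [h0]

lemma pauli_cross (hΦ : Core Φ) (hu : Continuous u) {i j : ι} (hij : i ≠ j) (X : Cfg ι) :
    ∫ x, conj (u x) * ann u Φ j (Function.update X i x) = 0 := by
  obtain ⟨L, M, w, hL0, hM0, hw, hw0, hL, hM, hwu⟩ := pauli_dom hΦ.sm hu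
  let G : E3 → E3 → ℂ := fun x y =>
    conj (u x) * (conj (u y) * Φ (Function.update (Function.update X i x) j y))
  have hG : ∀ x y, G y x = -G x y := fun x y => by
    have e : Function.update (Function.update X i y) j x =
        Function.update (Function.update X i x) j y ∘ Equiv.swap i j := by
      ext1 k
      by_cases hi : k = i
      · subst hi; simp [Function.update_of_ne hij]
      · by_cases hj : k = j
        · subst hj; simp [Function.update_of_ne hij]
        · simp [Equiv.swap_apply_of_ne_of_ne hi hj, Function.update_of_ne hi,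
            Function.update_of_ne hj]
    simp only [G, e, hΦ.anti i (Finset.mem_univ _) j (Finset.mem_univ _) hij]
    ring
  have hc : Continuous (Function.uncurry G) := by
    have h1 : Continuous fun p : E3 × E3 => Function.update (Function.update X i p.1) j p.2 :=
      Continuous.update (A := fun _ : ι => E3)
        (Continuous.update (A := fun _ : ι => E3) continuous_const i continuous_fst) j continuous_snd
    exact (Complex.continuous_conj.comp (hu.comp continuous_fst)).mul
      ((Complex.continuous_conj.comp (hu.comp continuous_snd)).mul (hΦ.sm.cont.comp h1))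
  have hi : Integrable (Function.uncurry G) (volume.prod volume) := by
    refine (hw.mul_prod (hw.mul_const M)).mono' hc.aestronglyMeasurable
      (Eventually.of_forall fun p => ?_)
    change ‖G p.1 p.2‖ ≤ _
    by_cases h0 : Φ (Function.update (Function.update X i p.1) j p.2) = 0
    · simp only [G, h0, mul_zero, norm_zero]
      exact mul_nonneg (hw0 _) (mul_nonneg (hw0 _) hM0)
    · simp only [G, norm_mul, Complex.norm_conj]
      have a1 := hL _ h0 i
      have a2 := hL _ h0 j
      rw [Function.update_of_ne hij, Function.update_self] at a1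
      rw [Function.update_self] at a2
      exact mul_le_mul (hwu _ a1) (mul_le_mul (hwu _ a2) (hM _) (norm_nonneg _) (hw0 _))
        (by positivity) (hw0 _)
  have e1 : ∫ x, conj (u x) * ann u Φ j (Function.update X i x) = ∫ x, ∫ y, G x y := by
    simp only [ann, G, integral_const_mul]
  have e2 : ∫ x, ∫ y, G x y = -∫ x, ∫ y, G x y := by
    conv_lhs => rw [integral_integral_swap hi]
    rw [← integral_neg]
    refine integral_congr_ae (Eventually.of_forall fun y => ?_)
    simp only
    rw [← integral_neg]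
    exact integral_congr_ae (Eventually.of_forall fun x => hG y x)
  rw [e1]
  linear_combination (1 / 2 : ℂ) * e2

lemma pauli_memLp (hΦ : Sm Φ) (hu : Continuous u) (hu2 : Integrable fun y => ‖u y‖ ^ 2) (j : ι) :
    MemLp (fun X : Cfg ι => u (X j) * ann u Φ j X) 2 volume := by
  have hm : Measurable fun X : Cfg ι => u (X j) * ann u Φ j X :=
    (hu.measurable.comp (measurable_pi_apply j)).mul (pauli_meas hΦ hu j)
  rw [memLp_two_iff_integrable_sq_norm hm.aestronglyMeasurable, ← integrable_ins j]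
  simpa only [ins_self, pauli_ann_ins, norm_mul, mul_pow] using
    hu2.mul_prod (pauli_int_b hΦ hu j)

lemma pauli_inner {f g : Cfg ι → ℂ} (hf : MemLp f 2 volume) (hg : MemLp g 2 volume) :
    Integrable (fun X => conj (f X) * g X) ∧
      ⟪hf.toLp f, hg.toLp g⟫_ℂ = ∫ X, conj (f X) * g X := by
  have e : (fun X => ⟪hf.toLp f X, hg.toLp g X⟫_ℂ) =ᵐ[volume] fun X => conj (f X) * g X := by
    filter_upwards [hf.coeFn_toLp, hg.coeFn_toLp] with X h1 h2
    rw [h1, h2, RCLike.inner_apply, mul_comm]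
  exact ⟨(L2.integrable_inner (𝕜 := ℂ) (hf.toLp f) (hg.toLp g)).congr e,
    (L2.inner_def _ _).trans (integral_congr_ae e)⟩

end

theorem st_pauli : St_pauli := by
  intro ι _ _ Φ u hΦ hu hu2
  have hP : MemLp Φ 2 volume :=
    (memLp_two_iff_integrable_sq_norm hΦ.sm.cont.aestronglyMeasurable).2 hΦ.sm.int_sq
  have hf := pauli_memLp hΦ.sm hu hu2
  obtain ⟨A, hA⟩ : ∃ A : ι → ℝ, ∀ j,
      A j = ∫ Y : Cfg {i // i ≠ j}, ‖∫ y, conj (u y) * Φ (ins j y Y)‖ ^ 2 := ⟨_, fun _ => rfl⟩
  obtain ⟨t, ht⟩ : ∃ t : ℝ, t = ∫ y, ‖u y‖ ^ 2 := ⟨_, rfl⟩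
  have ht0 : 0 ≤ t := ht ▸ integral_nonneg fun _ => by positivity
  have hA0 : ∀ j, 0 ≤ A j := fun j => (hA j) ▸ integral_nonneg fun _ => by positivity
  simp only [← hA, ← ht]
  have c1 : ∀ z : ℂ, conj z * z = ((‖z‖ ^ 2 : ℝ) : ℂ) := fun z => by
    rw [Complex.conj_mul']; push_cast; rfl
  have i1 : ∀ j, ⟪(hf j).toLp _, hP.toLp _⟫_ℂ = (A j : ℂ) := fun j => by
    obtain ⟨h1, h2⟩ := pauli_inner (hf j) hP
    rw [h2, integral_ins j h1, hA, ← integral_complex_ofReal]
    refine integral_congr_ae (Eventually.of_forall fun Y => ?_)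
    simp only [ins_self, pauli_ann_ins, map_mul]
    rw [← c1, ← integral_const_mul]
    exact integral_congr_ae (Eventually.of_forall fun y => by simp only; ring)
  have i2 : ∀ j, ⟪(hf j).toLp _, (hf j).toLp _⟫_ℂ = ((t * A j : ℝ) : ℂ) := fun j => by
    obtain ⟨h1, h2⟩ := pauli_inner (hf j) (hf j)
    rw [h2, integral_ins j h1, hA, ← integral_const_mul, ← integral_complex_ofReal]
    refine integral_congr_ae (Eventually.of_forall fun Y => ?_)
    simp only [ins_self, pauli_ann_ins, c1]
    rw [integral_complex_ofReal, ht, ← integral_mul_const]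
    simp only [norm_mul, mul_pow]
  have i3 : ∀ i j, i ≠ j → ⟪(hf i).toLp _, (hf j).toLp _⟫_ℂ = 0 := fun i j hij => by
    obtain ⟨h1, h2⟩ := pauli_inner (hf i) (hf j)
    rw [h2, integral_ins i h1]
    refine integral_eq_zero_of_ae (Eventually.of_forall fun Y => ?_)
    have h3 := pauli_cross hΦ hu hij (ins i 0 Y)
    simp only [update_ins] at h3
    simp only [ins_self, pauli_ann_ins, map_mul, ins_ne hij.symm, Pi.zero_apply]
    have h4 : ∀ y, conj (u y) * conj (∫ z, conj (u z) * Φ (ins i z Y)) *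
        (u (Y ⟨j, hij.symm⟩) * ann u Φ j (ins i y Y)) =
        (conj (∫ z, conj (u z) * Φ (ins i z Y)) * u (Y ⟨j, hij.symm⟩)) *
          (conj (u y) * ann u Φ j (ins i y Y)) := fun y => by ring
    simp only [h4]
    rw [integral_const_mul, h3, mul_zero]
  have n1 : ‖hP.toLp Φ‖ ^ 2 = Nm Φ := by
    obtain ⟨-, h2⟩ := pauli_inner hP hP
    simp only [c1] at h2
    rw [integral_complex_ofReal] at h2
    rw [← inner_self_eq_norm_sq (𝕜 := ℂ), h2]
    rfl
  have n2 : ‖∑ j, (hf j).toLp _‖ ^ 2 = t * ∑ j, A j := by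
    have h2 : ⟪∑ j, (hf j).toLp _, ∑ j, (hf j).toLp _⟫_ℂ = ((t * ∑ j, A j : ℝ) : ℂ) := by
      rw [sum_inner, Finset.mul_sum, Complex.ofReal_sum]
      refine Finset.sum_congr rfl fun i _ => ?_
      rw [inner_sum, Finset.sum_eq_single i (fun j _ hj => i3 i j (Ne.symm hj)) (by simp), i2]
    rw [← inner_self_eq_norm_sq (𝕜 := ℂ), h2]
    rfl
  have n3 : ∑ j, A j ≤ ‖∑ j, (hf j).toLp _‖ * ‖hP.toLp Φ‖ := by
    have h2 : ⟪∑ j, (hf j).toLp _, hP.toLp Φ⟫_ℂ = ((∑ j, A j : ℝ) : ℂ) := by
      rw [sum_inner, Complex.ofReal_sum]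
      exact Finset.sum_congr rfl fun i _ => i1 i
    have h3 := norm_inner_le_norm (𝕜 := ℂ) (∑ j, (hf j).toLp _) (hP.toLp Φ)
    rw [h2, Complex.norm_real] at h3
    exact (le_abs_self _).trans h3
  have hS : 0 ≤ ∑ j, A j := Finset.sum_nonneg fun j _ => hA0 j
  have h5 : (∑ j, A j) ^ 2 ≤ (t * ∑ j, A j) * Nm Φ := by
    rw [← n1, ← n2, ← mul_pow]
    exact pow_le_pow_left₀ hS n3 2
  rcases hS.eq_or_lt with h | h
  · rw [← h]; exact mul_nonneg ht0 (Nm_nonneg Φ)
  · refine le_of_mul_le_mul_left ?_ h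
    calc (∑ j, A j) * ∑ j, A j = (∑ j, A j) ^ 2 := by ring
      _ ≤ (t * ∑ j, A j) * Nm Φ := h5
      _ = (∑ j, A j) * (t * Nm Φ) := by ring

end Pool.Agent.Lib.ION
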