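import Pool.Agent.Lib.ION.PIECE1

/-!
# One piece of the partition
-/

open MeasureTheory Set Metric Real Filter Topology
open scoped ContDiff

set_option linter.unusedSectionVars false

noncomputable section

namespace Pool.Agent.Lib.ION

open Pool.Agent.Lib.MP_689e73_mp

theorem st_piece (h1 : St_ups) (h2 : St_lb) (h3 : St_cost) (h4 : St_tfex) (h5 : St_bin)
    (h6 : St_cs) (h7 : St_ker) : St_piece := by
  intro k hk Cc hCc Cn hCn
  obtain ⟨C0, hC0, hups, -⟩ := h1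
  obtain ⟨Cl, hCl, hlb⟩ := h2
  obtain ⟨C3, hC3, l3, hl3, hcost⟩ := h3 C0 hC0
  have hκ := hk.1.κ
  have hκ1 := hk.1.κ1
  have hT := hk.1.T
  refine ⟨401 * Cl + 200 * Cc + Cn + 2 * C3 + 1, by positivity, min l3 k.κ, by positivity, ?_⟩
  intro Z E l r t h m p Mb η ζ β ι _ _ A F G hZ hE hlay hl hh hm hp hnet hcut hβ hβ0 hβ8 hF hA hA'
    hsupp hG hdom
  have hl0 := hlay.l0
  have hr := hlay.r0
  have ht0 := hlay.t0
  have ht1 := hlay.t1
  have hll : l ≤ l3 := hl.trans (min_le_left _ _)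
  have hlκ : l ≤ k.κ := hl.trans (min_le_right _ _)
  have hl1 : l ≤ 1 / 64 := hlκ.trans hκ1
  have hr1 : r ≤ 1 := hlay.rl.trans (pow_le_one₀ hl0.le (by linarith))
  have hh0 : 0 < h := by rw [hh]; positivity
  have hh1 : 20 * h = l * r := by rw [hh]; ring
  have hlr : l * r ≤ r / 64 := by nlinarith
  have hR1 : 4 * r ≤ r / l := by rw [le_div_iff₀ hl0]; nlinarith
  obtain ⟨L0, hL0, hL⟩ := hF.supp_bound
  set L := 2 * L0 + 8 * k.T * r + 3 * (r / l) with hLd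
  have hTr : 0 < 8 * k.T * r := by positivity
  set q : ℝ := Z - A.card with hq
  set ep := l ^ 6 / r with hep
  set w := l ^ 11 * r⁻¹ ^ 4 with hw
  have hep0 : 0 < ep := by positivity
  obtain ⟨c, ρ, hρ, hc⟩ := h4 m q (t + 6 * h) (t + 8 * h) L ep p Mb hep0 (by linarith)
    (by linarith) hp
  have hV : Ext (Vq q c p) q (t + 6 * h) := ext_Vq q c (by linarith) hp
  have hgeo : Geo (t + 6 * h) (t + 8 * h) h (t + 10 * h) (r / l) L :=
    ⟨by linarith, by linarith, hh0, by linarith, by linarith, by linarith, by linarith, by linarith⟩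
  have hζ0 : ∀ y, ‖y‖ < t + 10 * h → ζ y = 0 := fun y hy => hcut.inn y hy.le
  obtain ⟨D, hDl, hD1, hD2⟩ := hlb _ ρ ζ q _ _ h _ (r / l) L hV hgeo hρ hcut.sζ hcut.abs_ζ hζ0 ι
  set ϑ : E3 → ℝ := fun y => ζ y ^ 2 with hϑ
  have hϑ0 : ∀ y, 0 ≤ ϑ y := fun y => sq_nonneg _
  have hϑ1 : ∀ y, ϑ y ≤ 1 := fun y => by nlinarith [hcut.sq y, sq_nonneg (η y)]
  have hϑi : ∀ y, ‖y‖ < t + 10 * h → ϑ y = 0 := fun y hy => by simp [hϑ, hζ0 y hy]
  have hϑb : Bd ϑ := hcut.bd_ζ.pow 2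
  have hwt : ∀ δ, l / 20 ≤ δ → Wt ϑ (ell h (r / l)) (t + 10 * h) (t + 12 * h) δ := fun δ hδ => by
    refine ⟨by linarith, hϑ0, hϑ1, hϑi, fun y hy => ?_, ell_pos hh0 _, fun y hy => ?_⟩
    · have := hcut.sq y
      rw [hcut.out y hy] at this
      simpa [hϑ] using this
    · refine le_trans ?_ (mul_le_mul_of_nonneg_right hδ (norm_nonneg y))
      have e : l / 20 * ‖y‖ = h * (‖y‖ / r) := by rw [hh]; field_simp
      rw [e, ell]
      refine mul_le_mul_of_nonneg_left (max_le ?_ ?_) hh0.le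
      · rw [le_div_iff₀ hr]; linarith
      · exact div_le_div_of_nonneg_left (norm_nonneg y) hr (by linarith)
  have hζA : ∀ X, F X ≠ 0 → ∀ i ∈ A, ζ (X i) = 0 := fun X hX i hi =>
    hζ0 _ (by linarith [(hsupp X hX).1 i hi])
  have hϑA : ∀ X, F X ≠ 0 → ∀ i ∈ A, ϑ (X i) = 0 := fun X hX i hi => by
    simp [hϑ, hζA X hX i hi]
  have hβA : ∀ X, F X ≠ 0 → ∀ i ∈ A, β (X i) = 0 := fun X hX i hi =>
    hβ8 _ (by linarith [(hsupp X hX).1 i hi])
  have hDv : ∀ X Y : Cfg ι, Function.Injective Y → (∀ j, j ∉ A → X j = Y j) → F X ≠ 0 →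
      Dv ϑ (ell h (r / l)) X ρ ≤ D X := fun X Y hY hXY hX => by
    refine hD1 X (fun i j hij hi hj => ?_) fun j _ => by linarith [hL X hX j]
    rw [hXY i fun hi' => hi (hζA X hX i hi'), hXY j fun hj' => hj (hζA X hX j hj')]
    exact fun e => hij (hY e)
  set B0 : Cfg ι → ℝ := fun X => r * Sw ϑ X ^ 2 + max (-q) 0 ^ 2 / r + r⁻¹ ^ 7 with hB0
  set W : Cfg ι → ℝ := fun X =>
    ∑ i ∈ A, (Uw ϑ X (X i) - Sw ϑ X + (Uw β X (X i) - Sw β X)) + (EQ q ρ + 3 / 4 * D X +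
      ep / 2 * ∑ α, c α ^ 2 + C3 * r * w ^ 2 / l ^ 5 + C3 * l * B0 X +
      C3 * (r * Sw β X ^ 2 + Sw β X * √(r * B0 X))) with hW
  have bS : Bd (Sw ϑ : Cfg ι → ℝ) := bd_Sw hϑb (by linarith) hϑi
  have bSb : Bd (Sw β : Cfg ι → ℝ) := bd_Sw hβ (by linarith) hβ8
  have bB0 : Bd B0 := (((bS.pow 2).const_mul r).add (Bd.const _)).add (Bd.const _)
  have lW : LocallyIntegrable W := by
    refine (loc_sum A fun i _ => ((loc_Uw hϑb i).sub bS.loc).add
      ((loc_Uw hβ i).sub bSb.loc)).add ?_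
    exact (((((locallyIntegrable_const _).add (loc_const_mul hDl _)).add
      (locallyIntegrable_const _)).add (locallyIntegrable_const _)).add
      (bB0.const_mul _).loc).add ((((bSb.pow 2).const_mul r).add
        (bSb.mul (bB0.const_mul r).sqrt)).const_mul C3).loc
  have up := hups Z E hZ hE ι A F W (t + 2 * h) h hF hA hh0 (by linarith)
    (fun X hX => (hsupp X hX).1) lW fun Y hY => by
      by_cases hex : ∃ X0 : Cfg ι, (∀ j, j ∉ A → X0 j = Y j) ∧ F X0 ≠ 0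
      swap
      · exact ⟨fun _ => 0, Dens.zero, fun _ _ => rfl, fun X hX hX0 => absurd ⟨X, hX, hX0⟩ hex⟩
      obtain ⟨X0, hX0, hF0⟩ := hex
      obtain ⟨ρt, d1, d2, d3, d4⟩ := hcost l r t h q L (t + 12 * h) w
        (Dv ϑ (ell h (r / l)) X0 ρ) m p c ρ ϑ (ell h (r / l)) β ι X0 hlay hll hh hp hnet
        (by linarith) hρ (hwt _ (by linarith)) le_rfl hβ0 hβ8 (by positivity) fun α => by
          have e : Uw ϑ X0 (p α) - Sw ϑ X0 - (psi ρ (p α) - psi ρ 0) =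
              (Uw ϑ X0 (p α) - Sw ϑ X0 - Mb α) + ep * c α := by rw [hc α]; ring
          rw [e]
          refine (abs_add_le _ _).trans (add_le_add ((hsupp X0 hF0).2.2 α) ?_)
          rw [abs_mul, abs_of_pos hep0]
      refine ⟨ρt, d1, fun y hy => d2 y (by linarith), fun X hX hFX => ?_⟩
      have hXX : ∀ j, j ∉ A → X0 j = X j := fun j hj => by rw [hX0 j hj, hX j hj]
      have s1 : Sw ϑ X0 = Sw ϑ X := piece_compat (hϑA X0 hF0) (hϑA X hFX) hXX fun y => ‖y‖⁻¹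
      have s2 : Sw β X0 = Sw β X := piece_compat (hβA X0 hF0) (hβA X hFX) hXX fun y => ‖y‖⁻¹
      have s3 : ∀ x, Uw ϑ X0 x = Uw ϑ X x := fun x =>
        piece_compat (hϑA X0 hF0) (hϑA X hFX) hXX fun y => ‖x - y‖⁻¹
      have s4 : ∀ x, Uw β X0 x = Uw β X x := fun x =>
        piece_compat (hβA X0 hF0) (hβA X hFX) hXX fun y => ‖x - y‖⁻¹
      have s5 : mu ϑ (ell h (r / l)) X0 = mu ϑ (ell h (r / l)) X := funext fun x =>
        piece_compat (hϑA X0 hF0) (hϑA X hFX) hXX fun y => gam (ell h (r / l) y) ‖x - y‖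
      have s6 : Dv ϑ (ell h (r / l)) X0 ρ ≤ D X := by
        rw [Dv, s5]; exact hDv X Y hY hX hFX
      simp only [s1, s2, s3, s4] at d3 d4
      have s7 : ∑ i ∈ A, psi ρt (X i) = A.card * psi ρt 0 +
          ∑ i ∈ A, (Uw ϑ X (X i) - Sw ϑ X + (Uw β X (X i) - Sw β X)) := by
        rw [← Finset.sum_congr rfl fun i hi => d3 (X i) ((hsupp X hFX).1 i hi)]
        simp
      have s8 : EQ Z ρt = EQ q ρt - A.card * psi ρt 0 := by simp only [EQ, hq]; ring
      simp only [hW, hB0]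
      linarith
  have lo := hD2 Aᶜ F hF hA' fun X hX j hj => hζA X hX j (by simpa using hj)
  have lg : ∀ j, LocallyIntegrable fun X : Cfg ι => g1 η (X j) + g1 ζ (X j) := fun j =>
    (((continuous_g1 hcut.sη).add (continuous_g1 hcut.sζ)).comp
      (continuous_apply j)).locallyIntegrable
  have bi : ∑ j ∈ Aᶜ, Kn (mulj ζ j F) j ≤ ∑ j ∈ Aᶜ, Kn F j +
      Ex F fun X => ∑ j ∈ Aᶜ, (g1 η (X j) + g1 ζ (X j)) := by
    rw [Ex_sum _ hF fun j _ => lg j, ← Finset.sum_add_distrib]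
    refine Finset.sum_le_sum fun j _ => ?_
    linarith [h5 ι η ζ F j hcut.sη hcut.sζ hcut.sq hF, Kn_nonneg (mulj η j F) j]
  have en : En Z F = EnOn Z A F + ∑ j ∈ Aᶜ, Kn F j +
      Ex F fun X => VOn Z Finset.univ X - VOn Z A X := by
    rw [Ex_sub hF (loc_VOn _ _) (loc_VOn _ _), En, EnOn, EnOn, ← Finset.sum_add_sum_compl A]
    ring
  set e1 := Cl * (r / l / h ^ 2 + (r / l)⁻¹ ^ 3) with he1
  set P : Cfg ι → ℝ := fun X => EV (Vq q c p) ρ + D X - e1 * Sw ϑ X - Ww ϑ X +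
    ∑ j, ϑ (X j) * Vq q c p (X j) with hP
  have lP : LocallyIntegrable P := by
    refine ((((locallyIntegrable_const _).add hDl).sub (bS.const_mul _).loc).sub
      (loc_Ww hϑb)).add ?_
    simp only [piece_Vq]
    refine Bd.loc ((bS.const_mul q).add (Bd.sum _ fun α _ => Bd.const_mul (Bd.sub ?_ bS) _))
    refine Bd.sum _ fun j _ => Bd.comp (f := fun y => ϑ y * ‖p α - y‖⁻¹) ?_ (measurable_pi_apply j)
    refine ⟨hϑb.meas.mul (by fun_prop), h⁻¹, fun y => ?_⟩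
    rcases lt_or_ge ‖y‖ (t + 10 * h) with hy | hy
    · rw [hϑi y hy]; simp only [zero_mul, abs_zero]; positivity
    · rw [abs_of_nonneg (mul_nonneg (hϑ0 y) (by positivity))]
      refine (mul_le_of_le_one_left (by positivity) (hϑ1 y)).trans (inv_anti₀ hh0 ?_)
      have := norm_sub_norm_le y (p α)
      rw [norm_sub_rev] at this
      linarith [hp α]
  set C := 401 * Cl + 200 * Cc + Cn + 2 * C3 + 1 with hC
  set Er : Cfg ι → ℝ := fun X => C * l * BB Z r X + Nbt t (t + l * r) X ^ 2 / r +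
    C * (r * Sw β X ^ 2 + Sw β X * √(r * BB Z r X)) +
    ∑ j ∈ Aᶜ, η (X j) ^ 2 * Vscr Z (r / 4) X (X j) with hEr
  have lE : LocallyIntegrable Er :=
    (Bd.loc ((((bd_BB Z hr).const_mul _).add (((bd_Nbt _ _).pow 2).div_const r)).add
      ((((bSb.pow 2).const_mul r).add (bSb.mul ((bd_BB Z hr).const_mul r).sqrt)).const_mul C))).add
      (loc_sum _ fun j _ => loc_Vscr (hcut.bd_η.pow 2) Z _ j)
  have lI := loc_sum Aᶜ fun j _ => lg j
  have lV := (loc_VOn Z (Finset.univ : Finset ι)).sub (loc_VOn Z A)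
  have main : Ex F (fun X => G X / 4 + ∑ j, β (X j) * Vscr Z (2 * r) X (X j)) ≤
      Ex F fun X => P X - ∑ j ∈ Aᶜ, (g1 η (X j) + g1 ζ (X j)) +
        (VOn Z Finset.univ X - VOn Z A X) - W X + Er X := by
    refine Ex_mono_ae hF ((hG.div_const 4).loc.add (loc_sum _ fun j _ => loc_Vscr hβ Z _ j))
      ((((lP.sub lI).add lV).sub lW).add lE) ?_
    filter_upwards [ae_inj] with X hX hFX
    obtain ⟨u1, u2, u3⟩ := hsupp X hFX
    have v1 := hDv X X hX (fun _ _ => rfl) hFX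
    have v0 : 0 ≤ D X := (Dv_nonneg h7 h6 (ell_pos hh0 _) hρ.dens.ll X).trans v1
    have hcert := piece_cert hk (Z := Z) (r := r) (A := A) (t := t) (t' := t + l * r) hV (by linarith)
      (by linarith) (by linarith) (by linarith) hρ (hwt _ (by linarith)) (by linarith) v1 v0
      (fun i hi => by linarith [u1 i hi]) (by linarith) u2 (by linarith)
    have hN : 0 ≤ Nbt t (t + l * r) X ^ 2 / r := by positivity
    have g0 := hdom X _ (add_nonneg v0 hN) hcert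
    have a1 := piece_split Z A X
    have a2 := piece_Ww (hϑA X hFX) hϑ0 hϑ1
    have a3 := piece_VA (hϑA X hFX) Z
    have a4 := piece_VA (hβA X hFX) Z
    have a5 : ∑ j ∈ Aᶜ, VA Z A X (X j) = ∑ j ∈ Aᶜ, η (X j) ^ 2 * VA Z A X (X j) +
        ∑ j ∈ Aᶜ, ϑ (X j) * VA Z A X (X j) := by
      rw [← Finset.sum_add_distrib]
      exact Finset.sum_congr rfl fun j _ => by rw [← add_mul, hcut.sq, one_mul]
    have a6 : ∑ j ∈ Aᶜ, η (X j) ^ 2 * VA Z A X (X j) ≤
        ∑ j ∈ Aᶜ, η (X j) ^ 2 * Vscr Z (r / 4) X (X j) :=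
      Finset.sum_le_sum fun j _ => mul_le_mul_of_nonneg_left
        (piece_VA_le (fun j hj => by linarith [u2 j hj]) Z _) (sq_nonneg _)
    have a7 : ∑ j, β (X j) * Vscr Z (2 * r) X (X j) ≤ ∑ j ∈ Aᶜ, β (X j) * VA Z A X (X j) := by
      rw [piece_compl (hβA X hFX)]
      exact Finset.sum_le_sum fun j _ => mul_le_mul_of_nonneg_left
        (piece_le_VA (fun i hi => by linarith [u1 i hi]) Z _) (hβ0 _)
    have a8 := piece_Vq q c p ϑ X
    have a9 := piece_EV q c p hρ.dens.ll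
    have a10 := piece_pen (F := fun α => Uw ϑ X (p α) - Sw ϑ X) hep0 hc u3
    have a11 : ∑ i ∈ A, (Uw ϑ X (X i) - Sw ϑ X + (Uw β X (X i) - Sw β X)) =
        ∑ i ∈ A, Uw ϑ X (X i) - A.card * Sw ϑ X +
          (∑ i ∈ A, Uw β X (X i) - A.card * Sw β X) := by
      simp [Finset.sum_add_distrib, Finset.sum_sub_distrib]
    obtain ⟨b1, b2, b3⟩ := piece_BB (Z := Z) hr X
    obtain ⟨n1, n2, n3, n4⟩ := piece_num hl0 (by linarith) hr hlay.rl
    rw [← hh] at n1 n2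
    have hS := piece_Sw_le hϑ1 (r := r) (fun y hy => hϑi y (by linarith)) X
    have hS0 := Sw_nonneg hϑ0 X
    have hSb := Sw_nonneg hβ0 X
    have hσ := Sge_nonneg r X
    have hBB : 0 ≤ BB Z r X := le_trans (by positivity) b2
    have hlB : 0 ≤ l * BB Z r X := by positivity
    have b4 : l * r⁻¹ ^ 3 * Sge r X ≤ l * BB Z r X := by
      rw [mul_assoc]
      refine mul_le_mul_of_nonneg_left ?_ hl0.le
      have : 0 ≤ r⁻¹ ^ 3 * Sge r X := by positivity
      linarith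
    have b5 : l * r⁻¹ ^ 7 ≤ l * BB Z r X := mul_le_mul_of_nonneg_left b2 hl0.le
    have c1 : e1 * Sw ϑ X ≤ 401 * Cl * (l * BB Z r X) := by
      calc e1 * Sw ϑ X ≤ Cl * (401 * (l * r⁻¹ ^ 3)) * Sge r X := by
            rw [he1]; gcongr
        _ = 401 * Cl * (l * r⁻¹ ^ 3 * Sge r X) := by ring
        _ ≤ _ := by gcongr
    have c2 : ∑ j ∈ Aᶜ, (g1 η (X j) + g1 ζ (X j)) ≤ 200 * Cc * (l * BB Z r X) := by
      refine (piece_ims hcut hCc.le hr (by linarith) (by linarith) Aᶜ X).trans ?_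
      calc Cc / (t + 12 * h - (t + 10 * h)) ^ 2 * (2 * r) * Sge r X
          = Cc * (1 / (2 * h) ^ 2 * (2 * r)) * Sge r X := by ring_nf
        _ ≤ Cc * (200 * (l * r⁻¹ ^ 3)) * Sge r X := by gcongr
        _ = 200 * Cc * (l * r⁻¹ ^ 3 * Sge r X) := by ring
        _ ≤ _ := by gcongr
    have c3 : m * (w ^ 2 / (2 * ep)) ≤ Cn * (l * BB Z r X) := by
      calc m * (w ^ 2 / (2 * ep)) ≤ Cn * l⁻¹ ^ 15 * (w ^ 2 / (2 * ep)) := by gcongr
        _ = Cn * (l⁻¹ ^ 15 * (w ^ 2 / (2 * ep))) := by ring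
        _ ≤ _ := mul_le_mul_of_nonneg_left (n3.trans b5) hCn.le
    have c4 : C3 * r * w ^ 2 / l ^ 5 ≤ C3 * (l * BB Z r X) := by
      rw [mul_assoc, mul_div_assoc]
      exact mul_le_mul_of_nonneg_left (n4.trans b5) hC3.le
    have c5 : B0 X ≤ BB Z r X := by
      have k1 : max (-q) 0 ≤ max (Nlt (2 * r) X - Z) 0 := max_le_max (by
        linarith [piece_card_le (R := 2 * r) fun i hi => by linarith [u1 i hi]]) le_rfl
      have k2 : max (-q) 0 ^ 2 / r ≤ max (Nlt (2 * r) X - Z) 0 ^ 2 / r := by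
        have := le_max_right (-q) 0
        gcongr
      have k3 : r * Sw ϑ X ^ 2 ≤ r * Sge r X ^ 2 := by gcongr
      have k4 : 0 ≤ max (Z - Nlt r X) 0 ^ 2 / r := by positivity
      simp only [hB0, BB]
      linarith
    have c6 : C3 * l * B0 X ≤ C3 * (l * BB Z r X) := by rw [mul_assoc]; gcongr
    have c7 : Sw β X * √(r * B0 X) ≤ Sw β X * √(r * BB Z r X) := by gcongr
    have c8 : q * Sw β X ≤ Sw β X * √(r * BB Z r X) := by
      rw [mul_comm]
      refine mul_le_mul_of_nonneg_left (le_trans (le_trans ?_ (le_max_left _ _)) b3) hSb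
      linarith [piece_le_card (R := r) fun j hj => ht0.trans (u2 j hj)]
    have c9 : 0 ≤ r * Sw β X ^ 2 := by positivity
    have c10 : 0 ≤ Sw β X * √(r * BB Z r X) := by positivity
    have c11 : C3 * (r * Sw β X ^ 2 + Sw β X * √(r * B0 X)) + q * Sw β X ≤
        C * (r * Sw β X ^ 2 + Sw β X * √(r * BB Z r X)) := by
      have k1 : 0 ≤ (401 * Cl + 200 * Cc + Cn + C3) *
          (r * Sw β X ^ 2 + Sw β X * √(r * BB Z r X)) := by positivity
      have k2 := mul_le_mul_of_nonneg_left c7 hC3.le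
      rw [hC]; linarith
    have c12 : C * l * BB Z r X = (401 * Cl + 200 * Cc + Cn + 2 * C3 + 1) * (l * BB Z r X) := by
      rw [hC]; ring
    have c13 : q * Sw ϑ X = Z * Sw ϑ X - A.card * Sw ϑ X := by rw [hq]; ring
    have c14 : q * Sw β X = Z * Sw β X - A.card * Sw β X := by rw [hq]; ring
    simp only [hP, hW, hEr]
    linarith
  have f1 := Ex_add hF (((lP.sub lI).add lV).sub lW) lE
  have f2 := Ex_sub hF ((lP.sub lI).add lV) lW
  have f3 := Ex_add hF (lP.sub lI) lV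
  have f4 := Ex_sub hF lP lI
  simp only [Pi.add_def, Pi.sub_def] at f1 f2 f3 f4
  unfold ee
  linarith

end Pool.Agent.Lib.ION
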