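import Pool.Agent.Lib.ION.Basic

/-!
# The ionization bound for ground states: potentials of radial charges on a shell
-/

open MeasureTheory Set Metric Real Filter Topology

noncomputable section

namespace Pool.Agent.Lib.ION

open Pool.Agent.Lib.MP_689e73_mp

lemma rad_rad {g : ℝ → ℝ} {a b : ℝ} (hg : ContinuousOn g (Icc a b)) :
    Rad (fun s => if a ≤ s ∧ s ≤ b then g s else 0) b := by
  classical
  obtain ⟨B, hB⟩ := isCompact_Icc.exists_bound_of_continuousOn hg
  have e : (fun s => if a ≤ s ∧ s ≤ b then g s else 0) = (Icc a b).piecewise g fun _ => 0 := by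
    funext s
    simp only [piecewise, mem_Icc]
  refine ⟨⟨?_, |B|, fun s => ?_⟩, fun t ht => if_neg fun h => absurd h.2 (not_le.2 ht)⟩
  · rw [e]
    exact hg.measurable_piecewise continuousOn_const measurableSet_Icc
  · split_ifs with h
    · exact (hB s h).trans (le_abs_self _)
    · simp

lemma rad_polar (F : ℝ → ℝ) :
    ∫ y : E3, F ‖y‖ = ∫ s in Ioi (0 : ℝ), 4 * π * (s ^ 2 * F s) := by
  rw [integral_fun_norm_addHaar volume F, integral_const_mul]
  have h : (volume : Measure E3).real (ball 0 1) = π * 4 / 3 := by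
    rw [Measure.real, EuclideanSpace.volume_ball_fin_three]
    simp only [ENNReal.ofReal_one, one_pow, one_mul]
    exact ENNReal.toReal_ofReal (by positivity)
  simp only [h, finrank_euclideanSpace, Fintype.card_fin, smul_eq_mul, nsmul_eq_mul]
  push_cast
  ring

lemma rad_psi (h1 : St_newton) {f₂ : ℝ → ℝ} {a b : ℝ} {τ : E3 → ℝ} (ha : 0 < a) (hab : a ≤ b)
    (hc : ContinuousOn f₂ (Icc a b))
    (hτ : ∀ y, τ y = if a ≤ ‖y‖ ∧ ‖y‖ ≤ b then f₂ ‖y‖ / (4 * π * ‖y‖) else 0) :
    LL τ ∧ ∀ y, psi τ y = ∫ s in a..b, s * f₂ s * (max ‖y‖ s)⁻¹ := by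
  have hg : ContinuousOn (fun s => f₂ s / (4 * π * s)) (Icc a b) :=
    hc.div (by fun_prop) fun s hs => by
      have := ha.trans_le hs.1
      positivity
  have hR := rad_rad hg
  have e : τ = fun y => (fun s => if a ≤ s ∧ s ≤ b then f₂ s / (4 * π * s) else 0) ‖y - 0‖ := by
    funext y
    rw [hτ, sub_zero]
  refine ⟨e ▸ hR.ll 0, fun y => ?_⟩
  rw [e, h1 _ b 0 y hR, sub_zero,
    rad_polar fun s => (if a ≤ s ∧ s ≤ b then f₂ s / (4 * π * s) else 0) * (max ‖y‖ s)⁻¹,
    intervalIntegral.integral_of_le hab, ← integral_Icc_eq_integral_Ioc,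
    ← integral_indicator measurableSet_Icc, ← integral_indicator measurableSet_Ioi]
  refine integral_congr_ae (Eventually.of_forall fun s => ?_)
  by_cases hs : s ∈ Icc a b
  · have h0 : 0 < s := ha.trans_le hs.1
    have h2 : a ≤ s ∧ s ≤ b := hs
    simp only [indicator_of_mem hs, indicator_of_mem (mem_Ioi.2 h0), if_pos h2]
    have := pi_pos
    field_simp
  · have h2 : ¬ (a ≤ s ∧ s ≤ b) := hs
    simp only [indicator, if_neg hs, if_neg h2, zero_mul, mul_zero, ite_self]

theorem st_rad (h1 : St_newton) : St_rad := by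
  intro f f₁ f₂ a b τ ha hab hd hc hτ
  obtain ⟨hL, hψ⟩ := rad_psi h1 ha hab hc hτ
  have inner : ∀ t u : ℝ, a ≤ t → t ≤ b → t ≤ u →
      ∫ s in a..t, s * f₂ s * (max u s)⁻¹ = (t * f₁ t - a * f₁ a - f t + f a) / u := by
    intro t u h2 h3 h4
    have hs : uIcc a t ⊆ Icc a b := by
      rw [uIcc_of_le h2]
      exact Icc_subset_Icc_right h3
    have e : ∫ s in a..t, s * f₂ s = (t * f₁ t - f t) - (a * f₁ a - f a) :=
      intervalIntegral.integral_eq_sub_of_hasDerivAt (f := fun s => s * f₁ s - f s)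
        (fun s h => by
          have := ((hasDerivAt_id' s).mul (hd s (hs h)).2).sub (hd s (hs h)).1
          refine this.congr_deriv ?_
          ring)
        ((continuousOn_id.mul (hc.mono hs)).intervalIntegrable)
    rw [intervalIntegral.integral_congr (g := fun s => s * f₂ s * u⁻¹) fun s h => by
      rw [uIcc_of_le h2] at h
      simp only [max_eq_left (h.2.trans h4)], intervalIntegral.integral_mul_const, e]
    ring
  refine ⟨hL, fun y h2 h3 => ?_, fun y h2 => ?_⟩
  · have h0 : 0 < ‖y‖ := ha.trans_le h2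
    have hs : uIcc ‖y‖ b ⊆ Icc a b := by
      rw [uIcc_of_le h3]
      exact Icc_subset_Icc_left h2
    have hs' : uIcc a ‖y‖ ⊆ Icc a b := by
      rw [uIcc_of_le h2]
      exact Icc_subset_Icc_right h3
    have hk : ContinuousOn (fun s => s * f₂ s * (max ‖y‖ s)⁻¹) (Icc a b) :=
      (continuousOn_id.mul hc).mul ((continuous_const.max continuous_id).continuousOn.inv₀
        fun s _ => (h0.trans_le (le_max_left _ _)).ne')
    have outer : ∫ s in ‖y‖..b, s * f₂ s * (max ‖y‖ s)⁻¹ = f₁ b - f₁ ‖y‖ := by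
      rw [← intervalIntegral.integral_eq_sub_of_hasDerivAt (fun s h => (hd s (hs h)).2)
        (hc.mono hs).intervalIntegrable]
      refine intervalIntegral.integral_congr fun s h => ?_
      rw [uIcc_of_le h3] at h
      have := h0.trans_le h.1
      simp only [max_eq_right h.1]
      field_simp
    rw [hψ, ← intervalIntegral.integral_add_adjacent_intervals
      (hk.mono hs').intervalIntegrable (hk.mono hs).intervalIntegrable, inner _ _ h2 h3 le_rfl,
      outer]
    field_simp
    ring
  · rw [hψ, inner b _ hab le_rfl h2]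

end Pool.Agent.Lib.ION
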