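import Pool.Agent.Lib.ION.Basic

/-!
# The ionization bound for ground states: slices
-/

open MeasureTheory Set Metric Real Filter Topology
open scoped ContDiff ComplexConjugate

noncomputable section

namespace Pool.Agent.Lib.ION

open Pool.Agent.Lib.MP_689e73_mp

variable {ι : Type} [Fintype ι] [DecidableEq ι] (A : Finset ι)

/-- joining the coordinates in `A` and the other coordinates -/
def sliceJ : Cfg A × Cfg {i // ¬ i ∈ A} ≃ᵐ Cfg ι :=
  (MeasurableEquiv.piEquivPiSubtypeProd (fun _ : ι => E3) fun i => i ∈ A).symm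

lemma slice_mp : MeasurePreserving (sliceJ A) (volume.prod volume) volume := by
  have h := (volume_preserving_piEquivPiSubtypeProd (fun _ : ι => E3) fun i => i ∈ A).symm
  have e : Subtype.fintype (fun i => i ∈ A) = (inferInstance : Fintype A) := Subsingleton.elim _ _
  rw [e] at h
  exact h

omit [Fintype ι] in
lemma slice_upd (X X' : Cfg A) (W : Cfg {i // ¬ i ∈ A}) :
    Function.updateFinset (sliceJ A (X', W)) A X = sliceJ A (X, W) := by
  ext1 i
  change (if h : i ∈ A then X ⟨i, h⟩ else if h : i ∈ A then X' ⟨i, h⟩ else W ⟨i, h⟩) =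
    if h : i ∈ A then X ⟨i, h⟩ else W ⟨i, h⟩
  split_ifs <;> rfl

lemma slice_one (f : Cfg ι → ℝ) (hf : Integrable f)
    (h : ∀ᵐ Y : Cfg ι, Integrable (slice A Y f) → 0 ≤ ∫ X, slice A Y f X) : 0 ≤ ∫ X, f X := by
  have hi := ((slice_mp A).integrable_comp_emb (sliceJ A).measurableEmbedding).2 hf
  rw [← (slice_mp A).integral_comp (sliceJ A).measurableEmbedding,
    integral_prod_symm (fun p => f (sliceJ A p)) hi]
  have h1 := Measure.ae_ae_of_ae_prod
    (((slice_mp A).comp Measure.measurePreserving_swap).quasiMeasurePreserving.ae h)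
  refine integral_nonneg_of_ae ?_
  filter_upwards [h1, hi.prod_left_ae] with W hW hW'
  obtain ⟨X', hX'⟩ := hW.exists
  have e : slice A (sliceJ A (X', W)) f = fun X => f (sliceJ A (X, W)) :=
    funext fun X => congrArg f (slice_upd A X X' W)
  change Integrable (slice A (sliceJ A (X', W)) f) → 0 ≤ ∫ X, slice A (sliceJ A (X', W)) f X
    at hX'
  rw [e] at hX'
  exact hX' hW'

/-- the linear part of the insertion -/
def sliceL : Cfg A →L[ℝ] Cfg ι :=
  ContinuousLinearMap.pi fun j => if h : j ∈ A then ContinuousLinearMap.proj ⟨j, h⟩ else 0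

omit [Fintype ι] in
lemma slice_der (Y : Cfg ι) (X : Cfg A) :
    HasFDerivAt (fun X : Cfg A => (Function.updateFinset Y A X : Cfg ι)) (sliceL A) X := by
  refine hasFDerivAt_pi.2 fun j => ?_
  by_cases h : j ∈ A
  · simp only [Function.updateFinset, dif_pos h]
    exact hasFDerivAt_apply _ _
  · simp only [Function.updateFinset, dif_neg h]
    exact hasFDerivAt_const _ _

omit [Fintype ι] in
lemma sliceL_ev (i : A) (a : Fin 3) : sliceL A (ev i a) = ev i.1 a := by
  ext1 j
  by_cases h : j ∈ A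
  · simp [sliceL, h, ev, Pi.single_apply, Subtype.ext_iff]
  · have : j ≠ i := fun e => h (e ▸ i.2)
    simp [sliceL, h, ev, this]

omit [Fintype ι] in
lemma slice_mem (Y : Cfg ι) (X : Cfg A) (i : A) : Function.updateFinset Y A X i = X i :=
  dif_pos i.2

variable {A} {F : Cfg ι → ℂ}

lemma slice_sm (Y : Cfg ι) (h : Sm F) : Sm (slice A Y F) := by
  refine ⟨h.smooth.comp (contDiff_pi.2 fun j => ?_), ?_⟩
  · by_cases h : j ∈ A
    · simp only [Function.updateFinset, dif_pos h]
      exact contDiff_apply _ _ _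
    · simp only [Function.updateFinset, dif_neg h]
      exact contDiff_const
  · obtain ⟨L, hL, h1⟩ := h.supp_bound
    refine HasCompactSupport.intro (isCompact_closedBall 0 L) fun X hX => ?_
    by_contra h0
    refine hX (mem_closedBall_zero_iff.2 ((pi_norm_le_iff_of_nonneg hL.le).2 fun i => ?_))
    have := h1 _ h0 i
    rwa [slice_mem] at this

omit [Fintype ι] in
lemma slice_anti (Y : Cfg ι) (h : AntiOn A F) : AntiOn Finset.univ (slice A Y F) := by
  intro i _ j _ hij X
  refine Eq.trans (congrArg F ?_) (h i i.2 j j.2 (fun e => hij (Subtype.ext e)) _)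
  ext1 k
  by_cases hk : k ∈ A
  · have e := Subtype.val_injective.map_swap i j ⟨k, hk⟩
    rw [Function.comp_apply, ← e, slice_mem]
    exact slice_mem A Y _ ⟨k, hk⟩
  · rw [Function.comp_apply, Equiv.swap_apply_of_ne_of_ne (fun e : k = i => hk (e ▸ i.2))
      fun e : k = j => hk (e ▸ j.2)]
    simp [Function.updateFinset, hk]

lemma slice_kin (Y : Cfg ι) (h : Sm F) (i : A) (X : Cfg A) :
    kin (slice A Y F) i X = slice A Y (kin F i) X := by
  have h1 := ((h.smooth.differentiable (by simp)) _).hasFDerivAt.comp X (slice_der A Y X)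
  have e : fderiv ℝ (slice A Y F) X = _ := h1.fderiv
  simp only [kin, slice, e, ContinuousLinearMap.comp_apply, sliceL_ev]

omit [Fintype ι] in
lemma slice_VOn (Z : ℝ) (Y : Cfg ι) (X : Cfg A) :
    slice A Y (VOn Z A) X = VOn Z Finset.univ X := by
  simp only [slice, VOn, ← Finset.sum_coe_sort A, slice_mem]

lemma slice_three {W : Cfg ι → ℝ} {Z e : ℝ} (h : Sm F) (hW : LocallyIntegrable W)
    (H : ∀ᵐ Y : Cfg ι, Integrable (fun X => slice A Y W X * ‖slice A Y F X‖ ^ 2) →
      e * Nm (slice A Y F) ≤ En Z (slice A Y F) + Ex (slice A Y F) (slice A Y W)) :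
    e * Nm F ≤ EnOn Z A F + Ex F W := by
  have key : ∀ (κ : Type) [Fintype κ] [DecidableEq κ] (B : Finset κ) (Φ : Cfg κ → ℂ), Sm Φ →
      Integrable (fun X => ∑ j ∈ B, kin Φ j X + VOn Z B X * ‖Φ X‖ ^ 2 - e * ‖Φ X‖ ^ 2) ∧
      ∫ X, (∑ j ∈ B, kin Φ j X + VOn Z B X * ‖Φ X‖ ^ 2 - e * ‖Φ X‖ ^ 2) =
        EnOn Z B Φ - e * Nm Φ := by
    intro κ _ _ B Φ hΦ
    have i1 := integrable_finsetSum B fun j _ => hΦ.int_kin j
    have i2 := hΦ.int (loc_VOn Z B)
    have i3 := hΦ.int_sq.const_mul e
    have i4 : Integrable fun X => ∑ j ∈ B, kin Φ j X + VOn Z B X * ‖Φ X‖ ^ 2 := i1.add i2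
    refine ⟨i4.sub i3, ?_⟩
    rw [integral_sub i4 i3, integral_add i1 i2,
      integral_finsetSum B fun j _ => hΦ.int_kin j, integral_const_mul]
    rfl
  have k1 := key ι A F h
  have := slice_one A _ (k1.1.add (h.int hW)) (by
    filter_upwards [H] with Y hY hi
    have k2 := key A Finset.univ _ (slice_sm Y h)
    have e1 : slice A Y ((fun X => ∑ j ∈ A, kin F j X + VOn Z A X * ‖F X‖ ^ 2 - e * ‖F X‖ ^ 2) +
        fun X => W X * ‖F X‖ ^ 2) = fun X => (∑ j, kin (slice A Y F) j X +
          VOn Z Finset.univ X * ‖slice A Y F X‖ ^ 2 - e * ‖slice A Y F X‖ ^ 2) +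
            slice A Y W X * ‖slice A Y F X‖ ^ 2 := by
      ext1 X
      simp only [slice_kin Y h, ← slice_VOn Z Y X]
      simp only [slice, Pi.add_apply, ← Finset.sum_coe_sort A]
    rw [e1] at hi ⊢
    have i4 : Integrable fun X => slice A Y W X * ‖slice A Y F X‖ ^ 2 :=
      (integrable_add_iff_integrable_right' k2.1).1 hi
    rw [integral_add k2.1 i4, k2.2]
    have := hY i4
    simp only [En, Ex] at this ⊢
    linarith)
  simp only [Pi.add_apply] at this
  rw [integral_add k1.1 (h.int hW), k1.2] at this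
  simp only [Ex] at this ⊢
  linarith

theorem st_slice : St_slice := fun _ _ _ A =>
  ⟨slice_one A, fun _ Y h => ⟨slice_sm Y h, fun h' => ⟨slice_sm Y h, slice_anti Y h'⟩,
    slice_kin Y h⟩, fun _ _ _ _ => slice_three⟩

theorem st_ups (h : St_up) : St_ups := by
  obtain ⟨C, hC, h⟩ := h
  refine ⟨C, hC, ?_, h⟩
  intro Z E hZ hE ι _ _ A F W a s hF hA hs ha hsupp hW H
  refine slice_three hF hW ?_
  filter_upwards [ae_inj] with Y hY hi
  obtain ⟨ρ, h1, h2, h3⟩ := H Y hY
  have hs' := slice_sm (A := A) Y hF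
  have := h Z E hZ hE A (slice A Y F) a s ρ ⟨hs', slice_anti Y hA⟩ hs ha (fun X hX j => by
    have := hsupp _ hX j j.2
    rwa [slice_mem] at this) h1 h2
  have hc : LocallyIntegrable fun X : Cfg A => ∑ j, psi ρ (X j) :=
    (continuous_finsetSum _ fun j _ =>
      h1.ll.continuous_psi.comp (continuous_apply j)).locallyIntegrable
  have e := Ex_add hs' hc (locallyIntegrable_const (EQ Z ρ + C / s ^ 2 * N1 ρ))
  rw [Ex_const] at e
  have m : Ex (slice A Y F) (fun X => ∑ j, psi ρ (X j) + (EQ Z ρ + C / s ^ 2 * N1 ρ)) ≤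
      Ex (slice A Y F) (slice A Y W) := by
    refine integral_mono (hs'.int (hc.add (locallyIntegrable_const _))) hi fun X => ?_
    by_cases h0 : slice A Y F X = 0
    · simp [h0]
    · refine mul_le_mul_of_nonneg_right ?_ (by positivity)
      have := h3 (Function.updateFinset Y A X) (fun j hj => dif_neg hj) h0
      simp only [← Finset.sum_coe_sort A, slice_mem] at this
      change _ ≤ W _
      linarith
  linarith

end Pool.Agent.Lib.ION
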