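import Pool.Agent.Lib.ION.Basic

/-!
# The ionization bound for ground states: the Thomas-Fermi scale
-/

open MeasureTheory Set Metric Real Filter Topology
open scoped ContDiff ComplexConjugate

set_option linter.unusedSectionVars false

noncomputable section

namespace Pool.Agent.Lib.ION

open Pool.Agent.Lib.MP_689e73_mp

/-! ## Densities -/

lemma step0_int_le {ρ : E3 → ℝ} (h : LL ρ) (h0 : ∀ y, 0 ≤ ρ y) {R : ℝ} (hR : 0 < R) :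
    ∫ y in {y : E3 | R / 16 ≤ ‖y‖}, ρ y * (max R ‖y‖)⁻¹ ≤ N1 ρ / R := by
  have hb : ∀ y : E3, ρ y * (max R ‖y‖)⁻¹ ≤ ρ y * R⁻¹ := fun y =>
    mul_le_mul_of_nonneg_left (inv_anti₀ hR (le_max_left _ _)) (h0 y)
  have hn : ∀ y : E3, 0 ≤ ρ y * (max R ‖y‖)⁻¹ := fun y =>
    mul_nonneg (h0 y) (inv_nonneg.2 (hR.le.trans (le_max_left _ _)))
  have hi : Integrable fun y : E3 => ρ y * R⁻¹ := h.int.mul_const _
  have hi' : Integrable fun y : E3 => ρ y * (max R ‖y‖)⁻¹ :=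
    hi.mono' (h.meas.mul (by fun_prop)).aestronglyMeasurable
      (Eventually.of_forall fun y => by rw [Real.norm_of_nonneg (hn y)]; exact hb y)
  calc ∫ y in {y : E3 | R / 16 ≤ ‖y‖}, ρ y * (max R ‖y‖)⁻¹
      ≤ ∫ y, ρ y * (max R ‖y‖)⁻¹ := setIntegral_le_integral hi' (Eventually.of_forall hn)
    _ ≤ ∫ y, ρ y * R⁻¹ := integral_mono hi' hi hb
    _ = N1 ρ / R := by rw [integral_mul_const, (h.HN' h0).2, div_eq_mul_inv]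

lemma step0_EV (Z : ℝ) (ρ : E3 → ℝ) : EV (fun y => Z * ‖y‖⁻¹) ρ = EQ Z ρ := by
  unfold EV EQ psi
  rw [← integral_const_mul]
  simp only [zero_sub, norm_neg, mul_assoc]

lemma step0_EQ_ge {Z P : ℝ} (hZ : 0 ≤ Z) {ρ : E3 → ℝ} (h0 : ∀ y, 0 ≤ ρ y) (hP : psi ρ 0 ≤ P) :
    -(Z * P) ≤ EQ Z ρ := by
  have h1 := mul_nonneg cT_pos.le (KK_nonneg ρ)
  have h2 := DD_nonneg h0 h0
  have h3 := mul_le_mul_of_nonneg_left hP hZ
  unfold EQ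
  linarith

/-- the two comparison bounds used at this scale -/
def Step0TR (C : ℝ) : Prop := ∀ (ρ ϑ ℓ : E3 → ℝ) (b b₀ δ D R Z : ℝ) (ι : Type) [Fintype ι]
  [DecidableEq ι] (X : Cfg ι), Dens ρ → N1 ρ ≤ Z → Wt ϑ ℓ b b₀ δ → δ ≤ 1 / 8 →
  Dv ϑ ℓ X ρ ≤ D → 0 < R →
  ∑ j, (if ‖X j‖ < R then ϑ (X j) else 0) ≤ Z + C * √(R * D) ∧
  ∑ j, (if R ≤ ‖X j‖ then ϑ (X j) * ‖X j‖⁻¹ else 0) ≤ C * (Z / R) + C * √(D / R)

lemma step0_tr (h : St_trans) : ∃ C > 0, Step0TR C := by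
  obtain ⟨C, hC, h⟩ := h
  refine ⟨C, hC, fun ρ ϑ ℓ b b₀ δ D R Z ι _ _ X hρ hN hW hδ hD hR => ?_⟩
  obtain ⟨h1, h2, -⟩ := h ρ ϑ ℓ b b₀ δ D R ι X hρ.ll hρ.nn hW hδ hD hR
  have h3 := (step0_int_le hρ.ll hρ.nn hR).trans (div_le_div_of_nonneg_right hN hR.le)
  have h4 := mul_le_mul_of_nonneg_left h3 hC.le
  exact ⟨by linarith, by linarith⟩

section Many

variable {ι : Type} [Fintype ι] [DecidableEq ι]

lemma step0_dv (hcs : St_cs) (hker : St_ker) {ϑ ℓ ρ : E3 → ℝ} (hl : ∀ y, 0 < ℓ y) (hρ : LL ρ)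
    (X : Cfg ι) : 0 ≤ Dv ϑ ℓ X ρ := by
  obtain ⟨C, -, hk⟩ := hker
  have h1 : LL (mu ϑ ℓ X) :=
    LL_sum Finset.univ (f := fun j y => ϑ (X j) * gam (ℓ (X j)) ‖y - X j‖) fun j _ =>
      ((hk _ (hl (X j))).2.2.2.1.ll (X j)).const_mul _
  have h2 := (hcs _ _ (h1.sub hρ) (h1.sub hρ)).1
  unfold Dv
  linarith

/-! ## Pointwise bounds -/

lemma step0_split {η ζ : E3 → ℝ} (hs : ∀ y, η y ^ 2 + ζ y ^ 2 = 1) (X : Cfg ι) :
    Ww (fun y => ζ y ^ 2) X + Ww (fun y => η y ^ 2) X ≤ 1 / 2 * ∑ i, ∑ j, ‖X i - X j‖⁻¹ := by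
  unfold Ww
  rw [← mul_add, ← Finset.sum_add_distrib]
  refine mul_le_mul_of_nonneg_left (Finset.sum_le_sum fun i _ => ?_) (by norm_num)
  rw [← Finset.sum_add_distrib]
  refine Finset.sum_le_sum fun j _ => ?_
  rw [← add_mul]
  refine mul_le_of_le_one_left (by positivity) ?_
  have h1 := hs (X i)
  have h2 := hs (X j)
  have h3 : 0 ≤ η (X i) ^ 2 * ζ (X j) ^ 2 := by positivity
  have h4 : 0 ≤ ζ (X i) ^ 2 * η (X j) ^ 2 := by positivity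
  have h5 : (η (X i) ^ 2 + ζ (X i) ^ 2) * (η (X j) ^ 2 + ζ (X j) ^ 2) = 1 := by
    rw [h1, h2, one_mul]
  nlinarith

lemma step0_rep {ϑ : E3 → ℝ} {r₀ : ℝ} (hr : 0 < r₀) (h0 : ∀ y, 0 ≤ ϑ y) (h1 : ∀ y, ϑ y ≤ 1)
    (ho : ∀ y, 2 * r₀ ≤ ‖y‖ → ϑ y = 0) {X : Cfg ι} (hX : Function.Injective X) :
    ((∑ j, ϑ (X j)) ^ 2 - 1) / (16 * r₀) ≤ Ww ϑ X := by
  have key : ∀ i j, (ϑ (X i) * ϑ (X j) - if i = j then ϑ (X i) else 0) * (4 * r₀)⁻¹ ≤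
      ϑ (X i) * ϑ (X j) * ‖X i - X j‖⁻¹ := fun i j => by
    by_cases hij : i = j
    · subst hij
      simp only [if_true, sub_self, norm_zero, inv_zero, mul_zero]
      refine mul_nonpos_of_nonpos_of_nonneg ?_ (by positivity)
      nlinarith [h0 (X i), h1 (X i)]
    · rw [if_neg hij, sub_zero]
      by_cases hi : ϑ (X i) = 0
      · simp [hi]
      by_cases hj : ϑ (X j) = 0
      · simp [hj]
      have a1 : ‖X i‖ < 2 * r₀ := not_le.1 fun h => hi (ho _ h)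
      have a2 : ‖X j‖ < 2 * r₀ := not_le.1 fun h => hj (ho _ h)
      have a3 : 0 < ‖X i - X j‖ := norm_pos_iff.2 (sub_ne_zero.2 fun h => hij (hX h))
      have a4 := norm_sub_le (X i) (X j)
      exact mul_le_mul_of_nonneg_left (inv_anti₀ a3 (by linarith)) (mul_nonneg (h0 _) (h0 _))
  have h2 : ∑ i, ∑ j, (ϑ (X i) * ϑ (X j) - if i = j then ϑ (X i) else 0) * (4 * r₀)⁻¹ =
      ((∑ j, ϑ (X j)) ^ 2 - ∑ j, ϑ (X j)) * (4 * r₀)⁻¹ := by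
    simp only [← Finset.sum_mul, Finset.sum_sub_distrib, Finset.sum_ite_eq, Finset.mem_univ,
      if_true, ← Finset.mul_sum, sq]
  have h3 : ∑ i, ∑ j, (ϑ (X i) * ϑ (X j) - if i = j then ϑ (X i) else 0) * (4 * r₀)⁻¹ ≤
      ∑ i, ∑ j, ϑ (X i) * ϑ (X j) * ‖X i - X j‖⁻¹ :=
    Finset.sum_le_sum fun i _ => Finset.sum_le_sum fun j _ => key i j
  rw [h2] at h3
  unfold Ww
  set k := ∑ j, ϑ (X j)
  have h4 : (k ^ 2 - 1) / (16 * r₀) = 1 / 2 * ((k ^ 2 / 2 - 1 / 2) * (4 * r₀)⁻¹) := by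
    field_simp; ring
  have h5 : (k ^ 2 / 2 - 1 / 2) * (4 * r₀)⁻¹ ≤ (k ^ 2 - k) * (4 * r₀)⁻¹ :=
    mul_le_mul_of_nonneg_right (by nlinarith [sq_nonneg (k - 1)]) (by positivity)
  linarith

lemma step0_ims {Cc r₀ : ℝ} (hC : 0 ≤ Cc) (hr : 0 < r₀) {η ζ : E3 → ℝ}
    (hc : Cut Cc r₀ (2 * r₀) η ζ) (y : E3) :
    g1 η y + g1 ζ y ≤ η y ^ 2 * (Cc / r₀ ^ 2) + 2 * Cc / r₀ * (ζ y ^ 2 * ‖y‖⁻¹) := by
  refine (hc.grad y).trans ?_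
  split_ifs with h
  · have e : (2 * r₀ - r₀) ^ 2 = r₀ ^ 2 := by ring
    have h1 : (2 * r₀)⁻¹ ≤ ‖y‖⁻¹ := inv_anti₀ (hr.trans_le h.1) h.2
    have h2 : 2 * Cc / r₀ * (ζ y ^ 2 * (2 * r₀)⁻¹) ≤ 2 * Cc / r₀ * (ζ y ^ 2 * ‖y‖⁻¹) :=
      mul_le_mul_of_nonneg_left (mul_le_mul_of_nonneg_left h1 (sq_nonneg _)) (by positivity)
    have h3 : 2 * Cc / r₀ * (ζ y ^ 2 * (2 * r₀)⁻¹) = ζ y ^ 2 * (Cc / r₀ ^ 2) := by
      field_simp
    have h4 : η y ^ 2 * (Cc / r₀ ^ 2) + ζ y ^ 2 * (Cc / r₀ ^ 2) = Cc / r₀ ^ 2 := by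
      rw [← add_mul, hc.sq, one_mul]
    rw [e]
    linarith
  · positivity

/-! ## The energy inequality -/

lemma step0_energy (hbin : St_bin) {Cc Z r₀ A A' B M : ℝ} {η ζ : E3 → ℝ} {Φ : Cfg ι → ℂ}
    {G D : Cfg ι → ℝ} (hC : 0 ≤ Cc) (hr : 0 < r₀) (hc : Cut Cc r₀ (2 * r₀) η ζ) (hΦ : Sm Φ)
    (hG : Bd G) (hD : LocallyIntegrable D)
    (hin : Ex Φ (fun X => ∑ j, η (X j) ^ 2 * (Z * ‖X j‖⁻¹ + Cc / r₀ ^ 2)) - A * Nm Φ ≤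
      ∑ j, Kn (mulj η j Φ) j)
    (hlb : Ex Φ (fun X => M + D X - B * Sw (fun y => ζ y ^ 2) X - Ww (fun y => ζ y ^ 2) X +
      ∑ j, ζ (X j) ^ 2 * (Z * ‖X j‖⁻¹)) ≤ ∑ j, Kn (mulj ζ j Φ) j)
    (hpt : ∀ X, Function.Injective X → Φ X ≠ 0 → G X / 2 - A' ≤
      D X - (B + 2 * Cc / r₀) * Sw (fun y => ζ y ^ 2) X + Ww (fun y => η y ^ 2) X) :
    Ex Φ G / 2 + (M - A - A') * Nm Φ ≤ En Z Φ := by
  have bη : ∀ j : ι, Bd fun X : Cfg ι => η (X j) ^ 2 := fun j =>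
    (hc.bd_η.pow 2).comp (measurable_pi_apply j)
  have bζ : ∀ j : ι, Bd fun X : Cfg ι => ζ (X j) ^ 2 := fun j =>
    (hc.bd_ζ.pow 2).comp (measurable_pi_apply j)
  have l1 : LocallyIntegrable fun X : Cfg ι => ∑ j, η (X j) ^ 2 * (Z * ‖X j‖⁻¹ + Cc / r₀ ^ 2) :=
    loc_sum _ fun j _ => loc_mul_bd
      ((loc_const_mul (loc_nuc j) Z).add (locallyIntegrable_const _)) (bη j)
  have lS : LocallyIntegrable (Sw (fun y => ζ y ^ 2) : Cfg ι → ℝ) :=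
    (bd_Sw (hc.bd_ζ.pow 2) hr fun y hy => by rw [hc.inn y hy.le]; norm_num).loc
  have l2 : LocallyIntegrable fun X : Cfg ι => M + D X - B * Sw (fun y => ζ y ^ 2) X -
      Ww (fun y => ζ y ^ 2) X + ∑ j, ζ (X j) ^ 2 * (Z * ‖X j‖⁻¹) :=
    ((((locallyIntegrable_const M).add hD).sub (loc_const_mul lS B)).sub
      (loc_Ww (hc.bd_ζ.pow 2))).add
      (loc_sum _ fun j _ => loc_mul_bd (loc_const_mul (loc_nuc j) Z) (bζ j))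
  have l3 : ∀ j : ι, LocallyIntegrable fun X : Cfg ι => g1 η (X j) + g1 ζ (X j) := fun j =>
    (((continuous_g1 hc.sη).add (continuous_g1 hc.sζ)).comp
      (continuous_apply j)).locallyIntegrable
  have l4 : LocallyIntegrable fun X : Cfg ι => ∑ j, (g1 η (X j) + g1 ζ (X j)) :=
    loc_sum _ fun j _ => l3 j
  have l5 := loc_VOn (ι := ι) Z Finset.univ
  have l6 : LocallyIntegrable fun X : Cfg ι => 1 / 2 * G X + (M - A') :=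
    (loc_const_mul hG.loc _).add (locallyIntegrable_const _)
  have e1 : ∑ j, Kn (mulj η j Φ) j + ∑ j, Kn (mulj ζ j Φ) j =
      ∑ j, Kn Φ j + Ex Φ fun X => ∑ j, (g1 η (X j) + g1 ζ (X j)) := by
    rw [Ex_sum _ hΦ fun j _ => l3 j, ← Finset.sum_add_distrib, ← Finset.sum_add_distrib]
    exact Finset.sum_congr rfl fun j _ => hbin ι η ζ Φ j hc.sη hc.sζ hc.sq hΦ
  have m := Ex_mono_ae hΦ (l6.add l4) ((l1.add l2).add l5) (by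
    filter_upwards [ae_inj] with X hX h0
    have p1 := hpt X hX h0
    have p2 := step0_split hc.sq X
    have p3 : ∑ j, (g1 η (X j) + g1 ζ (X j)) ≤ ∑ j, η (X j) ^ 2 * (Cc / r₀ ^ 2) +
        2 * Cc / r₀ * Sw (fun y => ζ y ^ 2) X := by
      unfold Sw
      rw [Finset.mul_sum, ← Finset.sum_add_distrib]
      exact Finset.sum_le_sum fun j _ => step0_ims hC hr hc (X j)
    have p4 : ∑ j, η (X j) ^ 2 * (Z * ‖X j‖⁻¹ + Cc / r₀ ^ 2) + ∑ j, ζ (X j) ^ 2 * (Z * ‖X j‖⁻¹) =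
        ∑ j, η (X j) ^ 2 * (Cc / r₀ ^ 2) + Z * ∑ j, ‖X j‖⁻¹ := by
      rw [Finset.mul_sum, ← Finset.sum_add_distrib, ← Finset.sum_add_distrib]
      refine Finset.sum_congr rfl fun j _ => ?_
      have := hc.sq (X j)
      linear_combination (Z * ‖X j‖⁻¹) * this
    simp only [Pi.add_apply, VOn]
    linarith)
  have e2 := Ex_add hΦ l6 l4
  have e3 := Ex_add hΦ (l1.add l2) l5
  have e4 := Ex_add hΦ l1 l2
  have e5 := Ex_add hΦ (loc_const_mul hG.loc (1 / 2)) (locallyIntegrable_const (M - A'))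
  rw [Ex_const_mul, Ex_const] at e5
  have m' : Ex Φ (fun X => (1 / 2 * G X + (M - A')) + ∑ j, (g1 η (X j) + g1 ζ (X j))) ≤
      Ex Φ (fun X => (∑ j, η (X j) ^ 2 * (Z * ‖X j‖⁻¹ + Cc / r₀ ^ 2) +
        (M + D X - B * Sw (fun y => ζ y ^ 2) X - Ww (fun y => ζ y ^ 2) X +
          ∑ j, ζ (X j) ^ 2 * (Z * ‖X j‖⁻¹))) + VOn Z Finset.univ X) := m
  have e3' : Ex Φ (fun X => (∑ j, η (X j) ^ 2 * (Z * ‖X j‖⁻¹ + Cc / r₀ ^ 2) +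
        (M + D X - B * Sw (fun y => ζ y ^ 2) X - Ww (fun y => ζ y ^ 2) X +
          ∑ j, ζ (X j) ^ 2 * (Z * ‖X j‖⁻¹))) + VOn Z Finset.univ X) =
      Ex Φ (fun X => ∑ j, η (X j) ^ 2 * (Z * ‖X j‖⁻¹ + Cc / r₀ ^ 2) +
        (M + D X - B * Sw (fun y => ζ y ^ 2) X - Ww (fun y => ζ y ^ 2) X +
          ∑ j, ζ (X j) ^ 2 * (Z * ‖X j‖⁻¹))) + Ex Φ (VOn Z Finset.univ) := e3
  unfold En EnOn
  linarith

lemma step0_point {g d k S W β Cr Z r₀ : ℝ} (hr : 0 < r₀) (hβ : 0 ≤ β) (hd : 0 ≤ d)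
    (hg : g ≤ d + k ^ 2 / (16 * r₀)) (hS : S ≤ Cr * (Z / r₀) + Cr * √(d / r₀))
    (hW : (k ^ 2 - 1) / (16 * r₀) ≤ W) :
    g / 2 - (1 / (16 * r₀) + β * Cr * (Z / r₀) + β ^ 2 * Cr ^ 2 / (2 * r₀)) ≤ d - β * S + W := by
  have h1 : √(d / r₀) ^ 2 = d / r₀ := Real.sq_sqrt (by positivity)
  set u := √(d / r₀)
  have h2 : d = r₀ * u ^ 2 := by rw [h1]; field_simp
  have h3 : β * Cr * u ≤ r₀ * u ^ 2 / 2 + β ^ 2 * Cr ^ 2 / (2 * r₀) := by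
    have : r₀ * u ^ 2 / 2 + β ^ 2 * Cr ^ 2 / (2 * r₀) - β * Cr * u =
        (r₀ * u - β * Cr) ^ 2 / (2 * r₀) := by field_simp; ring
    have h4 : 0 ≤ (r₀ * u - β * Cr) ^ 2 / (2 * r₀) := by positivity
    linarith
  have h5 := mul_le_mul_of_nonneg_left hS hβ
  have h6 : (k ^ 2 - 1) / (16 * r₀) = k ^ 2 / (16 * r₀) - 1 / (16 * r₀) := sub_div _ _ _
  have h7 : 0 ≤ k ^ 2 / (16 * r₀) := by positivity
  nlinarith

/-! ## The certificate -/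

lemma step0_wt {Cc r₀ κ R₁ : ℝ} {η ζ : E3 → ℝ} (hc : Cut Cc r₀ (2 * r₀) η ζ) (hr : 0 < r₀)
    (hκ : 0 < κ) (hR : r₀ ≤ R₁) :
    Wt (fun y => ζ y ^ 2) (ell (κ * r₀ / 32) R₁) r₀ (2 * r₀) (κ / 16) where
  pos := hr
  nn y := sq_nonneg _
  le y := by nlinarith [hc.sq y, sq_nonneg (η y)]
  inn y hy := by rw [hc.inn y hy.le]; norm_num
  out y hy := by have := hc.sq y; rw [hc.out y hy] at this; linarith
  lp y := mul_pos (by positivity) (lt_of_lt_of_le one_pos (le_max_left _ _))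
  ll y hy := by
    have hR1 : 0 < R₁ := hr.trans_le hR
    have hy0 : 0 ≤ ‖y‖ := norm_nonneg y
    unfold ell
    rcases max_choice 1 (‖y‖ / (2 * R₁)) with h | h <;> rw [h]
    · nlinarith
    · have h1 : r₀ / R₁ ≤ 1 := (div_le_one hR1).2 hR
      have h2 : κ * r₀ / 32 * (‖y‖ / (2 * R₁)) = κ * ‖y‖ / 64 * (r₀ / R₁) := by
        field_simp; ring
      have h3 : κ * ‖y‖ / 64 * (r₀ / R₁) ≤ κ * ‖y‖ / 64 :=
        mul_le_of_le_one_right (by positivity) h1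
      have h4 : 0 ≤ κ * ‖y‖ := by positivity
      rw [h2]
      linarith

lemma step0_cert {k : Cs} (hk : TFP k) {Cr Cc Z r r₀ R₁ L D : ℝ} (htr : Step0TR Cr)
    (hCr : 0 < Cr) {η ζ ρ : E3 → ℝ} (hc : Cut Cc r₀ (2 * r₀) η ζ) (hr : 0 < r₀)
    (h2 : 2 * r₀ ≤ r) (hR : r₀ ≤ R₁) (hL : 8 * k.T * r ≤ L)
    (hρ : TFS (fun y => Z * ‖y‖⁻¹) (r₀ / 2) L ρ) (hN : N1 ρ ≤ Z)
    (hlow : ∀ y, 3 * r ≤ ‖y‖ → ‖y‖ ≤ 5 * r → 9 * π ^ 2 / ‖y‖ ^ 4 ≤ Z * ‖y‖⁻¹ - psi ρ y)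
    (X : Cfg ι) (hD0 : 0 ≤ D) (hD : Dv (fun y => ζ y ^ 2) (ell (k.κ * r₀ / 32) R₁) X ρ ≤ D) :
    Cert0 k (Cr + 4) Z r X (D + (∑ j, η (X j) ^ 2) ^ 2 / (16 * r₀)) := by
  have hW := step0_wt hc hr hk.1.κ hR
  have hδ : k.κ / 16 ≤ 1 / 8 := by linarith [hk.1.κ1]
  have hZ : 0 ≤ Z := (N1_nonneg ρ).trans hN
  set n := ∑ j, η (X j) ^ 2 with hn
  have hΔ : D ≤ D + n ^ 2 / (16 * r₀) := le_add_of_nonneg_right (by positivity)
  refine ⟨fun h => ?_, fun R hR' => ?_, fun R hR' => ?_⟩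
  · exact (hk.2 _ ρ _ _ Z 0 (r₀ / 2) L r r₀ (2 * r₀) D ι X (ext_point Z) (by linarith)
      (by linarith) (by linarith) hL hρ hW (by linarith) hD).2.2.2 hlow (hΔ.trans h)
  · have hR0 : 0 < R := by linarith
    have a1 := (htr ρ _ _ _ _ _ D R Z ι X hρ.dens hN hW hδ hD hR0).1
    have a2 : Nlt R X ≤ n + ∑ j, (if ‖X j‖ < R then ζ (X j) ^ 2 else 0) := by
      unfold Nlt
      rw [hn, ← Finset.sum_add_distrib]
      refine Finset.sum_le_sum fun j _ => ?_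
      split_ifs
      · exact (hc.sq _).ge
      · positivity
    have a3 : √(R * D) ≤ √(R * (D + n ^ 2 / (16 * r₀))) :=
      Real.sqrt_le_sqrt (mul_le_mul_of_nonneg_left hΔ hR0.le)
    have a4 : n / 4 ≤ √(R * (D + n ^ 2 / (16 * r₀))) := by
      refine Real.le_sqrt_of_sq_le ?_
      have b1 : (n / 4) ^ 2 = r₀ * (n ^ 2 / (16 * r₀)) := by field_simp; ring
      have b2 : r₀ * (n ^ 2 / (16 * r₀)) ≤ R * (n ^ 2 / (16 * r₀)) :=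
        mul_le_mul_of_nonneg_right (by linarith) (by positivity)
      have b3 : 0 ≤ R * D := by positivity
      rw [b1, mul_add]
      linarith
    have a5 := mul_le_mul_of_nonneg_left a3 hCr.le
    rw [add_mul]
    linarith
  · have hR0 : 0 < R := by linarith
    have a1 := (htr ρ _ _ _ _ _ D R Z ι X hρ.dens hN hW hδ hD hR0).2
    have a2 : Sge R X = ∑ j, (if R ≤ ‖X j‖ then ζ (X j) ^ 2 * ‖X j‖⁻¹ else 0) := by
      refine Finset.sum_congr rfl fun j _ => ?_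
      split_ifs with h
      · have : ζ (X j) ^ 2 = 1 := hW.out (X j) (by linarith)
        rw [this, one_mul]
      · rfl
    have a3 : √(D / R) ≤ √((D + n ^ 2 / (16 * r₀)) / R) :=
      Real.sqrt_le_sqrt (div_le_div_of_nonneg_right hΔ hR0.le)
    have a4 := mul_le_mul_of_nonneg_left a3 hCr.le
    have a5 : 0 ≤ Z / R + √((D + n ^ 2 / (16 * r₀)) / R) := by positivity
    rw [a2, add_mul, mul_add]
    linarith

end Many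

lemma step0_low (hlow : St_low) {Ct T₀ z a L r : ℝ} {ρ : E3 → ℝ} (hCt : 0 < Ct) (hz : 0 < z)
    (hT : 1 ≤ T₀) (hT' : 2 * π / √((2 * Ct)⁻¹ ^ 3 / 2) ≤ T₀) (hr : r = T₀ * ((2 * Ct)⁻¹ / z))
    (ha : 0 < a) (hat : a ≤ r / T₀) (hL : 5 * r ≤ L) (hρ : TFS (fun y => z ^ 3 * ‖y‖⁻¹) a L ρ)
    (hψ : ∀ x, psi ρ x ≤ Ct * z ^ 4) (y : E3) (h3 : 3 * r ≤ ‖y‖) (h5 : ‖y‖ ≤ 5 * r) :
    9 * π ^ 2 / ‖y‖ ^ 4 ≤ z ^ 3 * ‖y‖⁻¹ - psi ρ y := by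
  set t := (2 * Ct)⁻¹ / z with ht
  have ht0 : 0 < t := by positivity
  have hT0 : 0 < T₀ := by linarith
  have h1 : r / T₀ = t := by rw [hr]; field_simp
  have h2 : t ≤ r := by rw [hr]; exact le_mul_of_one_le_left ht0.le hT
  refine hlow _ ρ (z ^ 3) 0 a L t ((2 * Ct)⁻¹ ^ 3 / 2) (ext_point _) ha ha (h1 ▸ hat)
    (by linarith) hρ (by positivity) (fun x hx => ?_) y (by linarith) ?_ (by linarith)
  · have e1 : (2 * Ct)⁻¹ ^ 3 / 2 / t ^ 4 = Ct * z ^ 4 := by rw [ht]; field_simp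
    have e2 : z ^ 3 * t⁻¹ = 2 * (Ct * z ^ 4) := by rw [ht]; field_simp
    have := hψ x
    simp only [hx]
    linarith
  · have e1 : 6 * π * t / √((2 * Ct)⁻¹ ^ 3 / 2) = 3 * (2 * π / √((2 * Ct)⁻¹ ^ 3 / 2) * t) := by
      ring
    have e2 := mul_le_mul_of_nonneg_right hT' ht0.le
    rw [e1]
    linarith

/-! ## The error terms -/

def step0B (Cl Cc r₀ s R₁ : ℝ) : ℝ := Cl * (R₁ / s ^ 2 + R₁⁻¹ ^ 3) + 2 * Cc / r₀

def step0In (Ci Cc Z r₀ : ℝ) : ℝ := Ci * (Z ^ 2 * √(Z * (2 * r₀)) + Z ^ 2 +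
  (Cc / r₀ ^ 2) ^ 2 * √(Cc / r₀ ^ 2) * (2 * r₀) ^ 3 + (2 * r₀)⁻¹ ^ 2)

def step0Out (β Cr Z r₀ : ℝ) : ℝ :=
  1 / (16 * r₀) + β * Cr * (Z / r₀) + β ^ 2 * Cr ^ 2 / (2 * r₀)

def step0Err (Ci Cl Cc Cr κ τ ep r : ℝ) : ℝ := step0In Ci Cc ((τ / r) ^ 3) (ep * r) +
  step0Out (step0B Cl Cc (ep * r) (κ * (ep * r) / 32) (r / ep)) Cr ((τ / r) ^ 3) (ep * r)

lemma step0_small {Ci Cl Cc Cr Cu κ τ ep₀ e : ℝ} (hκ : 0 < κ) (h0 : 0 < ep₀) (he : 0 < e) :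
    ∃ ep > 0, ep ≤ ep₀ ∧ ∃ r₁ > 0, ∀ r > 0, r ≤ r₁ →
      2 * (step0Err Ci Cl Cc Cr κ τ ep r + Cu / (ep * r / 4) ^ 2 * (τ / r) ^ 3) ≤
        e * r⁻¹ ^ 7 := by
  have c1 : Continuous fun ep : ℝ => Ci * (τ ^ 6 * √(2 * τ ^ 3 * ep)) + Cl * Cr * τ ^ 3 * ep ^ 2 +
      Cl ^ 2 * Cr ^ 2 * ep ^ 5 / 2 := by fun_prop
  have c2 := (c1.continuousAt (x := 0)).eventually_lt (continuousAt_const (y := e / 2))
    (by simpa using he)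
  obtain ⟨ep, h1, h2, h3⟩ :=
    ((c2.filter_mono nhdsWithin_le_nhds).and (Ioc_mem_nhdsGT h0)).exists
  refine ⟨ep, h2, h3, ?_⟩
  set g : ℝ → ℝ := fun r => Ci * (τ ^ 6 * √(2 * τ ^ 3 * ep) + τ ^ 6 * r +
    8 * Cc ^ 2 * √Cc * r ^ 5 / ep ^ 2 + r ^ 5 / (4 * ep ^ 2)) + r ^ 6 / (16 * ep) +
    ((1024 * Cl / (κ ^ 2 * ep ^ 3) + 2 * Cc / ep) * r ^ 2 + Cl * ep ^ 3) * Cr * τ ^ 3 / ep +
    ((1024 * Cl / (κ ^ 2 * ep ^ 3) + 2 * Cc / ep) * r ^ 2 + Cl * ep ^ 3) ^ 2 * Cr ^ 2 / (2 * ep) +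
    16 * Cu * τ ^ 3 * r ^ 2 / ep ^ 2 with hg
  have c3 : Continuous g := by rw [hg]; fun_prop
  have c4 : g 0 < e / 2 := by
    refine lt_of_eq_of_lt ?_ h1
    rw [hg]
    field_simp
    ring
  obtain ⟨δ, hδ, c5⟩ := Metric.eventually_nhds_iff.1
    ((c3.continuousAt (x := 0)).eventually_lt (continuousAt_const (y := e / 2)) c4)
  refine ⟨δ / 2, by positivity, fun r hr hr1 => ?_⟩
  have c6 : g r < e / 2 := c5 (by rw [Real.dist_eq, sub_zero, abs_of_pos hr]; linarith)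
  have s1 : √((τ / r) ^ 3 * (2 * (ep * r))) = √(2 * τ ^ 3 * ep) / r := by
    rw [show (τ / r) ^ 3 * (2 * (ep * r)) = 2 * τ ^ 3 * ep / r ^ 2 by field_simp,
      Real.sqrt_div' _ (sq_nonneg r), Real.sqrt_sq hr.le]
  have s2 : √(Cc / (ep * r) ^ 2) = √Cc / (ep * r) := by
    rw [Real.sqrt_div' _ (sq_nonneg _), Real.sqrt_sq (by positivity)]
  have e1 : step0Err Ci Cl Cc Cr κ τ ep r + Cu / (ep * r / 4) ^ 2 * (τ / r) ^ 3 =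
      g r * r⁻¹ ^ 7 := by
    unfold step0Err step0In step0Out step0B
    rw [s1, s2, hg]
    field_simp
    ring
  have e2 : g r * r⁻¹ ^ 7 ≤ e / 2 * r⁻¹ ^ 7 := mul_le_mul_of_nonneg_right c6.le (by positivity)
  rw [e1]
  linarith

/-! ## The block -/

lemma step0_main {k : Cs} (hk : TFP k) (h2 : St_lb) (h3 : St_inner) (h4 : St_tfex) (h5 : St_tf0)
    (h6 : St_low) (h7 : St_trans) (h8 : St_bin) (h9 : St_cut) (h10 : St_cs) (h11 : St_ker) :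
    ∃ τ > 0, ∃ ep₀ > 0, ∃ Cr > 0, ∃ Ci Cl Cc Ct : ℝ, ∀ ep r : ℝ, 0 < ep → ep ≤ ep₀ → 0 < r →
      r ≤ 1 → 1 ≤ (τ / r) ^ 3 → ∀ (ι : Type) [Fintype ι] [DecidableEq ι] (Φ : Cfg ι → ℂ)
      (G : Cfg ι → ℝ), Core Φ → Bd G →
      (∀ X Δ, 0 ≤ Δ → Cert0 k (Cr + 4) ((τ / r) ^ 3) r X Δ → G X ≤ Δ) →
      ∃ ρ, Dens ρ ∧ (∀ y, ‖y‖ < ep * r / 2 → ρ y = 0) ∧ N1 ρ ≤ (τ / r) ^ 3 ∧
        psi ρ 0 ≤ Ct * (τ / r) ^ 4 ∧
        Ex Φ G / 2 + (EQ ((τ / r) ^ 3) ρ - step0Err Ci Cl Cc Cr k.κ τ ep r) * Nm Φ ≤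
          En ((τ / r) ^ 3) Φ := by
  obtain ⟨Cl, hCl, hlb⟩ := h2
  obtain ⟨Ci, -, hin⟩ := h3
  obtain ⟨Ct, hCt, htf⟩ := h5
  obtain ⟨Cr, hCr, htr⟩ := step0_tr h7
  obtain ⟨Cc, hCc, hcut⟩ := h9
  set T₀ := max 1 (2 * π / √((2 * Ct)⁻¹ ^ 3 / 2)) with hT₀
  have hT1 : 1 ≤ T₀ := le_max_left _ _
  have hT0 : 0 < T₀ := by linarith
  refine ⟨T₀ * (2 * Ct)⁻¹, by positivity, 1 / (2 * T₀), by positivity, Cr, hCr, Ci, Cl, Cc, Ct,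
    fun ep r hep hep0 hr hr1 hZ ι _ _ Φ G hΦ hG hcert => ?_⟩
  set z := T₀ * (2 * Ct)⁻¹ / r with hz
  have hz0 : 0 < z := by positivity
  have hκ := hk.1.κ
  have hκ1 := hk.1.κ1
  have hT := hk.1.T
  have hep2 : ep ≤ 1 / 2 :=
    hep0.trans (one_div_le_one_div_of_le (by norm_num) (by linarith))
  set r₀ := ep * r with hr₀
  have hr0 : 0 < r₀ := by positivity
  have hr2 : 2 * r₀ ≤ r := by rw [hr₀]; nlinarith
  have hR1 : r ≤ r / ep := by rw [le_div_iff₀ hep]; nlinarith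
  obtain ⟨η, ζ, hc⟩ := hcut r₀ (2 * r₀) hr0 (by linarith)
  obtain ⟨L₀, hL₀, hsupp⟩ := hΦ.sm.supp_bound
  set L := 8 * k.T * r + 3 * (r / ep) + 2 * L₀ with hL
  have hTr : 16 * r ≤ 8 * k.T * r := by nlinarith
  obtain ⟨c, ρ, hρ', -⟩ := h4 0 (z ^ 3) 0 (r₀ / 2) L 1 Fin.elim0 Fin.elim0 one_pos (by linarith)
    (by linarith) fun α => α.elim0
  have hV : Vq (z ^ 3) c Fin.elim0 = fun y => z ^ 3 * ‖y‖⁻¹ := by
    ext y; simp [Vq]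
  rw [hV] at hρ'
  obtain ⟨hN, hψ⟩ := htf (z ^ 3) (r₀ / 2) L z ρ hz0 rfl (by linarith) hρ'
  have hκr : k.κ * r₀ ≤ 1 / 64 * r₀ := mul_le_mul_of_nonneg_right hκ1 hr0.le
  have hgeo : Geo 0 (r₀ / 2) (k.κ * r₀ / 32) r₀ (r / ep) L :=
    ⟨by linarith, by linarith, by positivity, by linarith, by linarith, by linarith, by linarith,
      by linarith⟩
  obtain ⟨D, hD, hD1, hD2⟩ := hlb _ ρ ζ (z ^ 3) 0 _ _ _ _ L (ext_point _) hgeo hρ' hc.sζ hc.abs_ζ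
    (fun y hy => hc.inn y hy.le) ι
  have hlow := step0_low h6 (T₀ := T₀) (r := r) hCt hz0 hT1 (le_max_right _ _)
    (by rw [hz]; field_simp) (by linarith : 0 < r₀ / 2)
    (by
      have : ep * r ≤ 1 / (2 * T₀) * r := mul_le_mul_of_nonneg_right hep0 hr.le
      have e : 1 / (2 * T₀) * r = r / T₀ / 2 := by field_simp
      have : 0 < r / T₀ := by positivity
      linarith)
    (by linarith) hρ' hψ
  have hW := step0_wt hc hr0 hκ (by linarith : r₀ ≤ r / ep)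
  refine ⟨ρ, hρ'.dens, fun y hy => ?_, hN, hψ 0, ?_⟩
  · rw [hρ'.eq, if_neg fun h => not_le.2 hy h.1]
  have key := step0_energy h8 (Z := z ^ 3) (A := step0In Ci Cc (z ^ 3) r₀)
    (A' := step0Out (step0B Cl Cc r₀ (k.κ * r₀ / 32) (r / ep)) Cr (z ^ 3) r₀) hCc.le hr0 hc hΦ.sm
    hG hD (hin (z ^ 3) (2 * r₀) (Cc / r₀ ^ 2) η ι Φ hZ (by linarith) (by positivity) hc.sη
      hc.abs_η hc.out hΦ)
    (hD2 Finset.univ Φ hΦ.sm hΦ.anti fun X _ j hj => absurd (Finset.mem_univ j) hj)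
    (fun X hX h0 => by
      have d1 := hD1 X (fun i j hij _ _ h => hij (hX h)) fun j _ => by
        have := hsupp X h0 j
        linarith
      have d0 := (step0_dv h10 h11 hW.lp hρ'.dens.ll X).trans d1
      have d2 := hcert X _ (by positivity) (step0_cert hk htr hCr hc hr0 hr2
        (by linarith : r₀ ≤ r / ep) (by linarith) hρ' hN hlow X d0 d1)
      have d3 := (htr ρ _ _ _ _ _ (D X) r₀ _ ι X hρ'.dens hN hW (by linarith) d1 hr0).2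
      have d4 : Sw (fun y => ζ y ^ 2) X =
          ∑ j, (if r₀ ≤ ‖X j‖ then ζ (X j) ^ 2 * ‖X j‖⁻¹ else 0) := by
        refine Finset.sum_congr rfl fun j _ => ?_
        split_ifs with h
        · rfl
        · simp [hc.inn _ (not_le.1 h).le]
      have d5 := step0_rep (ϑ := fun y => η y ^ 2) hr0 (fun y => sq_nonneg _)
        (fun y => by nlinarith [hc.sq y, sq_nonneg (ζ y)])
        (fun y hy => by rw [hc.out y hy]; norm_num) hX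
      exact step0_point hr0 (β := step0B Cl Cc r₀ (k.κ * r₀ / 32) (r / ep))
        (by unfold step0B; positivity) d0 d2 (d4 ▸ d3) d5)
  rw [step0_EV, sub_sub] at key
  exact key

theorem st_step0 (h1 : St_ups) (h2 : St_lb) (h3 : St_inner) (h4 : St_tfex) (h5 : St_tf0)
    (h6 : St_low) (h7 : St_trans) (h8 : St_bin) (h9 : St_cut) (h10 : St_cs) (h11 : St_ker) :
    St_step0 := by
  intro k hk
  obtain ⟨Cu, hCu, -, hup⟩ := h1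
  obtain ⟨τ, hτ, ep₀, hep₀, Cr, hCr, Ci, Cl, Cc, Ct, h⟩ :=
    step0_main hk h2 h3 h4 h5 h6 h7 h8 h9 h10 h11
  refine ⟨τ ^ 3, by positivity, Cr + 4, by positivity, 2, two_pos, fun e he => ?_⟩
  obtain ⟨ep, hep, hep1, r₁, hr₁, hs⟩ := step0_small (Ci := Ci) (Cl := Cl) (Cc := Cc) (Cr := Cr)
    (Cu := Cu) (τ := τ) hk.1.κ hep₀ he
  have hm : 0 < min r₁ 1 := lt_min hr₁ one_pos
  refine ⟨max 1 (τ ^ 3 / min r₁ 1 ^ 3), fun Z r hZ hr hΘ => ?_⟩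
  have hZ1 : 1 ≤ Z := (le_max_left _ _).trans hZ
  have hZ2 : τ ^ 3 ≤ Z * min r₁ 1 ^ 3 :=
    (div_le_iff₀ (by positivity)).1 ((le_max_right _ _).trans hZ)
  have hrm : r ≤ min r₁ 1 := by
    rw [← hΘ] at hZ2
    exact le_of_pow_le_pow_left₀ (n := 3) (by norm_num) hm.le
      (le_of_mul_le_mul_left hZ2 (by linarith))
  have eZ : Z = (τ / r) ^ 3 := by rw [div_pow, ← hΘ]; field_simp
  subst eZ
  have h' := h ep r hep hep1 hr (hrm.trans (min_le_right _ _)) hZ1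
  have hs' := hs r hr (hrm.trans (min_le_left _ _))
  refine ⟨⟨-((τ / r) ^ 3 * (Ct * (τ / r) ^ 4)) - step0Err Ci Cl Cc Cr k.κ τ ep r,
    fun ι _ _ Φ hΦ => ?_⟩, fun E hE ι _ _ Φ hΦ G hG hc => ?_⟩
  · obtain ⟨ρ, hρ, -, -, hψ, hen⟩ := h' ι Φ (fun _ => 0) hΦ (Bd.const 0) fun _ _ h _ => h
    have a1 := step0_EQ_ge (by linarith : 0 ≤ (τ / r) ^ 3) hρ.nn hψ
    have a2 := mul_le_mul_of_nonneg_right
      (sub_le_sub_right a1 (step0Err Ci Cl Cc Cr k.κ τ ep r)) (Nm_nonneg Φ)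
    rw [Ex_const] at hen
    linarith
  · obtain ⟨ρ, hρ, hρ0, hN, -, hen⟩ := h' ι Φ G hΦ hG hc
    have a1 := hup _ E (by linarith) hE Empty (fun _ => 1) 0 (ep * r / 4) ρ core_empty.1
      (by positivity) le_rfl (fun _ _ j => j.elim) hρ fun y hy => hρ0 y (by linarith)
    rw [core_empty.2.1, core_empty.2.2] at a1
    simp only [Finset.univ_eq_empty, Finset.sum_empty, Ex_const] at a1
    have a2 : Cu / (ep * r / 4) ^ 2 * N1 ρ ≤ Cu / (ep * r / 4) ^ 2 * (τ / r) ^ 3 :=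
      mul_le_mul_of_nonneg_left hN (by positivity)
    have a3 : 2 * E - e * r⁻¹ ^ 7 ≤ 2 * (EQ ((τ / r) ^ 3) ρ - step0Err Ci Cl Cc Cr k.κ τ ep r) := by
      linarith
    have a4 := mul_le_mul_of_nonneg_right a3 (Nm_nonneg Φ)
    unfold ee
    linarith

end Pool.Agent.Lib.ION
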