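import Pool.Agent.Lib.ION.Basic

/-!
# Sweeping a harmonic function onto a shell
-/

open MeasureTheory Set Metric Real Filter Topology

noncomputable section

namespace Pool.Agent.Lib.ION

open Pool.Agent.Lib.MP_689e73_mp

namespace SWEEP

/-- a neutral radial charge whose potential is a bump -/
lemma kernel (h2 : St_shell) {h : ℝ} (hh : 0 < h) : ∃ n m B : ℝ → ℝ, Rad n h ∧ Rad m h ∧ Rad B h ∧
    ∫ y : E3, n ‖y‖ = 0 ∧ (∀ t, |n t| ≤ m t) ∧ ∫ y : E3, m ‖y‖ = 2 ∧
    (∀ c x : E3, psi (fun y => n ‖y - c‖) x = B ‖x - c‖) ∧ h ^ 2 / 10 ≤ ∫ y : E3, B ‖y‖ := by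
  obtain ⟨r1, p1, i1, q1, u1⟩ := h2.1 (h / 4) (by positivity)
  obtain ⟨r2, p2, i2, q2, u2⟩ := h2.1 h hh
  have s1 : ∀ t, h < t → sh (h / 4) t = 0 := fun t ht => r1.supp t (by linarith)
  have j1 : Integrable fun y : E3 => sh (h / 4) ‖y‖ := by simpa using (r1.ll 0).int
  have j2 : Integrable fun y : E3 => sh h ‖y‖ := by simpa using (r2.ll 0).int
  have mU : ∀ R, (∀ c x : E3, psi (fun y => sh R ‖y - c‖) x = Ub R ‖x - c‖) → Rad (sh R) R →
      Measurable fun t : ℝ => Ub R |t| := fun R q r => by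
    have : (fun t : ℝ => Ub R |t|) = fun t => psi (fun y => sh R ‖y - 0‖) (t • e0) := by
      ext t
      rw [q, sub_zero, norm_smul, norm_e0, mul_one, Real.norm_eq_abs]
    rw [this]
    exact ((r.ll 0).continuous_psi.comp (by fun_prop)).measurable
  have b0 : ∀ t, 0 ≤ t → 0 ≤ Ub (h / 4) t - Ub h t := fun t ht => by
    have := inv_anti₀ (lt_max_of_lt_right (by positivity : 0 < h / 4))
      (max_le_max (le_refl t) (by linarith : h / 4 ≤ h / 2))
    linarith [(u1 t ht).1, (u2 t ht).2.1]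
  have rB : Rad (fun t => Ub (h / 4) |t| - Ub h |t|) h := by
    refine ⟨⟨(mU _ q1 r1).sub (mU _ q2 r2), (h / 4 / 2)⁻¹, fun t => ?_⟩, fun t ht => ?_⟩
    · rw [abs_of_nonneg (b0 _ (abs_nonneg t))]
      have h1 := inv_anti₀ (by positivity : 0 < h / 4 / 2) (le_max_right |t| _)
      have h3 : 0 ≤ (max |t| h)⁻¹ := inv_nonneg.2 (le_max_of_le_right hh.le)
      linarith [(u1 _ (abs_nonneg t)).2.1, (u2 _ (abs_nonneg t)).1]
    · have ht0 : 0 ≤ t := by linarith
      have a1 := (u1 t ht0).2.1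
      have a2 := (u2 t ht0).1
      rw [max_eq_left (by linarith)] at a1 a2
      rw [abs_of_nonneg ht0]
      linarith [b0 t ht0]
  refine ⟨fun t => sh (h / 4) t - sh h t, fun t => sh (h / 4) t + sh h t,
    fun t => Ub (h / 4) |t| - Ub h |t|,
    ⟨r1.bd.sub r2.bd, fun t ht => by rw [s1 t ht, r2.supp t ht, sub_zero]⟩,
    ⟨r1.bd.add r2.bd, fun t ht => by rw [s1 t ht, r2.supp t ht, add_zero]⟩, rB,
    by rw [integral_sub j1 j2, i1, i2, sub_self], fun t => ?_,
    by rw [integral_add j1 j2, i1, i2]; norm_num, fun c x => ?_, ?_⟩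
  · exact abs_le.2 ⟨by linarith [p1 t, p2 t], by linarith [p1 t, p2 t]⟩
  · simp only [(r1.ll c).psi_sub (r2.ll c), q1, q2, abs_norm]
  · have key : ∀ y : E3, h ^ 2 / 10 * sh (h / 4) ‖y‖ ≤ Ub (h / 4) |‖y‖| - Ub h |‖y‖| := fun y => by
      rw [abs_norm]
      unfold sh
      split_ifs with hy
      · have a1 := (u1 _ (norm_nonneg y)).1
        have a2 := (u2 _ (norm_nonneg y)).2.1
        rw [max_eq_right hy.2] at a1
        rw [max_eq_right (by linarith [hy.2])] at a2
        have a3 : h ^ 2 / 10 * (7 * π / 6 * (h / 4) ^ 3)⁻¹ ≤ (h / 4)⁻¹ - (h / 2)⁻¹ := by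
          have := pi_gt_three
          rw [← div_eq_mul_inv, div_le_iff₀ (by positivity)]
          have e : ((h / 4)⁻¹ - (h / 2)⁻¹) * (7 * π / 6 * (h / 4) ^ 3) = 7 * π / 192 * h ^ 2 := by
            field_simp
            ring
          rw [e]
          nlinarith [sq_nonneg h]
        linarith
      · rw [mul_zero]
        exact b0 _ (norm_nonneg y)
    have := integral_mono (j1.const_mul (h ^ 2 / 10)) (by simpa using (rB.ll 0).int) key
    rwa [integral_const_mul, i1, mul_one] at this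

variable {n : ℝ → ℝ} {g : E3 → ℝ} {h R : ℝ}

/-- the smeared charge -/
def conv (n : ℝ → ℝ) (g : E3 → ℝ) (x : E3) : ℝ := ∫ z, n ‖z - x‖ * g z

lemma conv_meas (hn : Rad n h) (hg : Measurable g) : Measurable (conv n g) :=
  (StronglyMeasurable.integral_prod_right (f := fun x z : E3 => n ‖z - x‖ * g z)
    ((hn.bd.meas.comp (measurable_snd.sub measurable_fst).norm).mul
      (hg.comp measurable_snd)).stronglyMeasurable).measurable

lemma conv_pt (hn : Rad n h) (hs : ∀ z, R < ‖z‖ → g z = 0) {x : E3} (hx : R + h < ‖x‖) (z : E3) :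
    n ‖z - x‖ * g z = 0 := by
  rcases lt_or_ge R ‖z‖ with hz | hz
  · rw [hs z hz, mul_zero]
  · rw [hn.supp _ (by linarith [norm_sub_norm_le x z, norm_sub_rev x z]), zero_mul]

lemma conv_out (hn : Rad n h) (hs : ∀ z, R < ‖z‖ → g z = 0) {x : E3} (hx : R + h < ‖x‖) :
    conv n g x = 0 := by
  simp only [conv, conv_pt hn hs hx, integral_zero]

lemma conv_le {m : ℝ → ℝ} {σ : ℝ} (hm : Rad m h) (hle : ∀ t, |n t| ≤ m t) (hg : ∀ z, |g z| ≤ σ)
    (x : E3) : |conv n g x| ≤ (∫ y : E3, m ‖y‖) * σ := by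
  rw [← integral_sub_right_eq_self (fun y : E3 => m ‖y‖) x, ← integral_mul_const]
  refine norm_integral_le_of_norm_le (f := fun z => n ‖z - x‖ * g z)
    ((hm.ll x).int.mul_const σ) (Eventually.of_forall fun z => ?_)
  rw [Real.norm_eq_abs, abs_mul]
  exact mul_le_mul (hle _) (hg z) (abs_nonneg _) ((abs_nonneg _).trans (hle _))

lemma psi_conv (hn : Rad n h) (hg : Bd g) (hs : ∀ z, R < ‖z‖ → g z = 0) (x : E3) :
    psi (conv n g) x = ∫ z, psi (fun y => n ‖y - z‖) x * g z := by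
  obtain ⟨M, hM⟩ := hn.bd.bdd
  have lg : LL g := LL_of_bd hg (c := 0) (L := R) (by simpa using hs)
  have hi : Integrable (Function.uncurry fun y z : E3 => ‖x - y‖⁻¹ * (n ‖z - y‖ * g z))
      (volume.prod volume) := by
    refine (((LL_chi (R + h + 1)).psi_int x).mul_prod (lg.int.abs.const_mul M)).mono'
      (((measurable_ker x).comp measurable_fst).mul
        ((hn.bd.meas.comp (measurable_snd.sub measurable_fst).norm).mul
          (hg.meas.comp measurable_snd))).aestronglyMeasurable (Eventually.of_forall fun p => ?_)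
    have M0 : 0 ≤ M := (abs_nonneg _).trans (hM 0)
    change ‖‖x - p.1‖⁻¹ * (n ‖p.2 - p.1‖ * g p.2)‖ ≤ _
    rcases lt_or_ge (R + h) ‖p.1‖ with hp | hp
    · rw [conv_pt hn hs hp, mul_zero, norm_zero]
      have := chi_nonneg (R + h + 1) p.1
      positivity
    · rw [chi, indicator_of_mem (mem_ball_zero_iff.2 (by linarith)), mul_one, norm_mul, norm_mul,
        Real.norm_of_nonneg (by positivity)]
      exact mul_le_mul_of_nonneg_left (mul_le_mul_of_nonneg_right (hM _) (norm_nonneg _))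
        (by positivity)
  have := integral_integral_swap hi
  simp only [psi, conv, ← integral_const_mul, ← integral_mul_const]
  rw [this]
  simp only [mul_assoc, norm_sub_rev]

lemma conv_harm {f : E3 → ℝ} (hn : Rad n h) (hf : Harm f (ball 0 R)) {x : E3}
    (hx : ‖x‖ < R - h) : conv n (indicator (ball 0 R) f) x = (∫ y : E3, n ‖y‖) * f x := by
  have hs : closedBall x h ⊆ ball 0 R := fun z hz => by
    rw [mem_closedBall, dist_eq_norm] at hz
    exact mem_ball_zero_iff.2 (by linarith [norm_sub_norm_le z x])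
  rw [← hf.mv x h n hs hn]
  refine integral_congr_ae (Eventually.of_forall fun z => ?_)
  rcases lt_or_ge h ‖z - x‖ with hz | hz
  · simp only [hn.supp _ hz, zero_mul]
  · simp only [indicator_of_mem (hs (mem_closedBall_iff_norm.2 hz))]

lemma shell (h1 : St_newton) (A a b : ℝ) : ∃ c : ℝ,
    LL (fun y : E3 => if a ≤ ‖y‖ ∧ ‖y‖ ≤ b then A else 0) ∧
    ∀ x : E3, ‖x‖ < a → psi (fun y => if a ≤ ‖y‖ ∧ ‖y‖ ≤ b then A else 0) x = c := by
  have r : Rad (fun t => if a ≤ t ∧ t ≤ b then A else 0) b :=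
    ⟨Bd.ite (p := fun t => a ≤ t ∧ t ≤ b) measurableSet_Icc (Bd.const A) (Bd.const 0),
      fun t ht => if_neg fun k => absurd k.2 (not_le.2 ht)⟩
  refine ⟨∫ y : E3, (if a ≤ ‖y‖ ∧ ‖y‖ ≤ b then A else 0) * ‖y‖⁻¹, by simpa using r.ll 0,
    fun x hx => ?_⟩
  have := h1 _ b 0 x r
  simp only [sub_zero] at this
  rw [this]
  refine integral_congr_ae (Eventually.of_forall fun y => ?_)
  by_cases hy : a ≤ ‖y‖ ∧ ‖y‖ ≤ b
  · simp only [max_eq_right (hx.le.trans hy.1)]
  · simp only [if_neg hy, zero_mul]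

end SWEEP

open SWEEP in
theorem st_sweep (h1 : St_newton) (h2 : St_shell) : St_sweep := by
  classical
  refine ⟨40, by norm_num, fun R h σ f hh hR hf hσ => ?_⟩
  obtain ⟨n, m, B, rn, rm, rB, n0, hle, m2, hB, hb⟩ := kernel h2 hh
  set b := ∫ y : E3, B ‖y‖ with hbd
  have b0 : 0 < b := lt_of_lt_of_le (by positivity) hb
  have σ0 : 0 ≤ σ := (abs_nonneg _).trans (hσ 0 (mem_ball_self (by linarith)))
  set g := indicator (ball (0 : E3) R) f with hg
  have gm : Measurable g := by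
    rw [hg, ← piecewise_eq_indicator]
    exact hf.cont.measurable_piecewise continuousOn_const measurableSet_ball
  have gb : ∀ z, |g z| ≤ σ := fun z => by
    by_cases hz : z ∈ ball (0 : E3) R
    · rw [hg, indicator_of_mem hz]
      exact hσ z hz
    · rwa [hg, indicator_of_notMem hz, abs_zero]
  have gs : ∀ z, R < ‖z‖ → g z = 0 := fun z hz =>
    indicator_of_notMem (fun k => absurd (mem_ball_zero_iff.1 k) (not_lt.2 hz.le)) f
  obtain ⟨c, ls, hc⟩ := shell h1 (20 * σ / h ^ 2) (R - h) (R + h)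
  have le : ∀ x, |b⁻¹ * conv n g x| ≤ 20 * σ / h ^ 2 := fun x => by
    have := conv_le rm hle gb x
    rw [m2] at this
    rw [abs_mul, abs_of_pos (inv_pos.2 b0), inv_mul_le_iff₀ b0]
    refine this.trans ?_
    calc 2 * σ = h ^ 2 / 10 * (20 * σ / h ^ 2) := by field_simp; ring
      _ ≤ _ := mul_le_mul_of_nonneg_right hb (by positivity)
  have z0 : ∀ y, ‖y‖ < R - h ∨ R + h < ‖y‖ → conv n g y = 0 := fun y hy =>
    hy.elim (fun k => by rw [hg, conv_harm rn hf k, n0, zero_mul]) (conv_out rn gs)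
  have cm : Measurable fun x => b⁻¹ * conv n g x := (conv_meas rn gm).const_mul _
  have lc : LL fun x => b⁻¹ * conv n g x := LL_of_bd ⟨cm, _, le⟩ (c := 0) (L := R + h)
    fun y hy => by rw [z0 y (.inr (by simpa using hy)), mul_zero]
  refine ⟨fun y => b⁻¹ * conv n g y + if R - h ≤ ‖y‖ ∧ ‖y‖ ≤ R + h then 20 * σ / h ^ 2 else 0, c,
    cm.add ls.meas, fun y => ?_, fun y hy => ?_, fun x hx => ?_⟩
  · have := abs_le.1 (le y)
    have e : 40 * σ / h ^ 2 = 20 * σ / h ^ 2 + 20 * σ / h ^ 2 := by ring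
    dsimp only
    split_ifs with hy
    · exact ⟨by linarith, by linarith⟩
    · rw [z0 y (by simpa only [not_and_or, not_le] using hy), mul_zero, add_zero]
      exact ⟨le_rfl, by positivity⟩
  · simp only [z0 y hy, mul_zero, zero_add]
    exact if_neg (by simpa only [not_and_or, not_le] using hy)
  · rw [lc.psi_add ls, hc x hx, psi_const_mul, psi_conv rn ⟨gm, _, gb⟩ gs]
    have := conv_harm rB hf hx
    simp only [hB, norm_sub_rev x]
    rw [show ∫ z, B ‖z - x‖ * g z = b * f x from this, inv_mul_cancel_left₀ b0.ne']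

end Pool.Agent.Lib.ION
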