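import Pool.Agent.Lib.ION.Basic

/-!
# A priori bounds for Thomas-Fermi solutions outside a ball
-/

open MeasureTheory Set Metric Real Filter Topology
open scoped ContDiff ComplexConjugate

noncomputable section

namespace Pool.Agent.Lib.ION

open Pool.Agent.Lib.MP_689e73_mp

lemma T12_scale {g : E3 → ℝ} (hg : Integrable g) {r : ℝ} (hr : 0 < r) (c : E3) :
    HI (fun z => g (r⁻¹ • (z - c))) (r ^ 3 * ∫ z, g z) :=
  ⟨(hg.comp_smul (inv_ne_zero hr.ne')).comp_sub_right c, by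
    rw [integral_sub_right_eq_self (fun z => g (r⁻¹ • z)) c,
      Measure.integral_comp_inv_smul_of_nonneg _ _ hr.le, finrank_E3, smul_eq_mul]⟩

lemma T12_far : ∃ C > 0, ∀ r > 0, ∃ (T : E3 → ℝ) (a : ℝ), HI T a ∧ a ≤ C * r⁻¹ ^ 3 ∧
    (∀ y, 0 ≤ T y) ∧ ∀ y, r ≤ ‖y‖ → 1 / ‖y‖ ^ 6 ≤ T y := by
  have hw : Integrable fun z : E3 => (1 + ‖z‖) ^ (-(4 : ℝ)) :=
    integrable_one_add_norm (by rw [finrank_E3]; norm_num)
  have h0 : 0 ≤ ∫ z : E3, (1 + ‖z‖) ^ (-(4 : ℝ)) := integral_nonneg fun z => by positivity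
  refine ⟨16 * (∫ z : E3, (1 + ‖z‖) ^ (-(4 : ℝ))) + 1, by positivity, fun r hr =>
    ⟨_, _, (T12_scale hw hr 0).const_mul (16 * r⁻¹ ^ 6), ?_, fun y => by positivity,
      fun y hy => ?_⟩⟩
  · have e : 16 * r⁻¹ ^ 6 * (r ^ 3 * ∫ z : E3, (1 + ‖z‖) ^ (-(4 : ℝ))) =
        16 * (∫ z : E3, (1 + ‖z‖) ^ (-(4 : ℝ))) * r⁻¹ ^ 3 := by field_simp
    rw [e]
    gcongr
    linarith
  · have hy0 : 0 < ‖y‖ := hr.trans_le hy
    rw [sub_zero, norm_smul, Real.norm_of_nonneg (by positivity), Real.rpow_neg (by positivity),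
      show (4 : ℝ) = (4 : ℕ) by norm_num, Real.rpow_natCast]
    have e : 1 + r⁻¹ * ‖y‖ = (r + ‖y‖) / r := by field_simp
    rw [e]
    have h1 : (r + ‖y‖) ^ 4 ≤ (2 * ‖y‖) ^ 4 := by gcongr; linarith
    have h2 : r ^ 2 ≤ ‖y‖ ^ 2 := by gcongr
    have h3 : r ^ 2 * (r + ‖y‖) ^ 4 ≤ ‖y‖ ^ 2 * (2 * ‖y‖) ^ 4 := by gcongr
    have e2 : ((4 : ℕ) : ℝ) = 4 := by norm_num
    have e3 : 16 * r⁻¹ ^ 6 * (((r + ‖y‖) / r) ^ 4)⁻¹ = 16 / (r ^ 2 * (r + ‖y‖) ^ 4) := by
      field_simp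
    rw [e3, div_le_div_iff₀ (by positivity) (by positivity)]
    nlinarith

lemma T12_near : ∃ C > 0, ∀ r > 0, ∀ c : E3, ∃ (T : E3 → ℝ) (a : ℝ), HI T a ∧ a ≤ C * r ^ 2 ∧
    (∀ y, 0 ≤ T y) ∧ ∀ z, ‖c - z‖ < r → ‖c - z‖⁻¹ ≤ T z := by
  have hk : Integrable (indicator (ball (0 : E3) 1) fun z => ‖z - 0‖⁻¹) :=
    (integrable_indicator_iff measurableSet_ball).2 (int_inv_ball 0 1)
  have hn : ∀ z, 0 ≤ indicator (ball (0 : E3) 1) (fun z => ‖z - 0‖⁻¹) z :=
    indicator_nonneg fun _ _ => by positivity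
  have h0 : 0 ≤ ∫ z, indicator (ball (0 : E3) 1) (fun z => ‖z - 0‖⁻¹) z := integral_nonneg hn
  refine ⟨(∫ z, indicator (ball (0 : E3) 1) (fun z => ‖z - 0‖⁻¹) z) + 1, by positivity,
    fun r hr c => ⟨_, _, (T12_scale hk hr c).const_mul r⁻¹, ?_,
      fun y => mul_nonneg (by positivity) (hn _), fun z hz => ?_⟩⟩
  · have e : r⁻¹ * (r ^ 3 * ∫ z, indicator (ball (0 : E3) 1) (fun z => ‖z - 0‖⁻¹) z) =
        (∫ z, indicator (ball (0 : E3) 1) (fun z => ‖z - 0‖⁻¹) z) * r ^ 2 := by field_simp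
    rw [e]
    gcongr
    linarith
  · have e : ‖r⁻¹ • (z - c)‖ = r⁻¹ * ‖c - z‖ := by
      rw [norm_smul, Real.norm_of_nonneg (by positivity), norm_sub_rev]
    rw [indicator_of_mem (by
      rw [mem_ball_zero_iff, e, inv_mul_lt_iff₀ hr, mul_one]; exact hz), sub_zero, e, mul_inv,
      inv_inv, inv_mul_cancel_left₀ hr.ne']

theorem st_tfb (h1 : St_ko) : St_tfb := by
  obtain ⟨A, hA, ko⟩ := h1
  obtain ⟨C1, hC1, far⟩ := T12_far
  obtain ⟨C2, hC2, near⟩ := T12_near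
  have hc := c1_pos
  obtain ⟨B, hB, eB⟩ : ∃ B > 0, B = c1 * (625 * A) ^ (3 / 2 : ℝ) := ⟨_, by positivity, rfl⟩
  refine ⟨B + 11 + B * C1 + B * C2, by positivity, fun V ρ q a₀ a L r hV h0 ha har hL hρ => ?_⟩
  have hr : 0 < r := by linarith
  have hn := hρ.dens.nn
  have hl := hρ.dens.ll
  have hp := psi_nonneg hn 0
  have h5 : 0 < B * C1 := by positivity
  have h6 : 0 < B * C2 := by positivity
  have key : ∀ y, 5 * r / 2 ≤ ‖y‖ → ρ y ≤ B / ‖y‖ ^ 6 := fun y hy => by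
    have hy0 : 0 < ‖y‖ := by linarith
    rw [hρ.eq y]
    split_ifs with h
    · have k := ko V ρ q a₀ a L hV h0 ha (by linarith) hρ y (by linarith) h.2
      have k2 : A / (‖y‖ - a) ^ 4 ≤ 625 * A / ‖y‖ ^ 4 := by
        have : ‖y‖ ^ 4 ≤ (5 * (‖y‖ - a)) ^ 4 := by gcongr; linarith
        have h7 : 0 < ‖y‖ - a := by linarith
        rw [div_le_div_iff₀ (by positivity) (by positivity)]
        nlinarith
      have k3 := gp_mono (k.trans k2)
      rw [gp_of_nonneg (u := 625 * A / ‖y‖ ^ 4) (by positivity),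
        Real.div_rpow (by positivity) (by positivity), ← Real.rpow_natCast,
        ← Real.rpow_mul hy0.le, show ((4 : ℕ) : ℝ) * (3 / 2) = (6 : ℕ) by norm_num,
        Real.rpow_natCast] at k3
      rw [eB, mul_div_assoc]
      gcongr
    · positivity
  refine ⟨fun y hy => (key y hy).trans (by gcongr; linarith), ?_, fun y hy hy' => ?_⟩
  · obtain ⟨T, t, hT, ht, T0, T1⟩ := far r hr
    have k := (hl.HN' hn).le (((hl.Hpsi 0).const_mul (5 * r / 2)).add (hT.const_mul B)) (by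
      filter_upwards [ae_ne 0] with y hy
      have hy0 : 0 < ‖y‖ := norm_pos_iff.2 hy
      have h7 := hn y
      have h8 := T0 y
      rw [zero_sub, norm_neg]
      rcases le_total (5 * r / 2) ‖y‖ with h | h
      · have h9 := mul_le_mul_of_nonneg_left (T1 y (by linarith)) hB.le
        have h10 := key y h
        rw [mul_one_div] at h9
        have : 0 ≤ 5 * r / 2 * (‖y‖⁻¹ * ρ y) := by positivity
        linarith
      · have h9 : ‖y‖ * (‖y‖⁻¹ * ρ y) ≤ 5 * r / 2 * (‖y‖⁻¹ * ρ y) := by gcongr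
        rw [mul_inv_cancel_left₀ hy0.ne'] at h9
        have : 0 ≤ B * T y := by positivity
        linarith)
    have h7 := mul_le_mul_of_nonneg_left ht hB.le
    have h8 : 0 ≤ r * psi ρ 0 := by positivity
    have h9 : 0 ≤ r⁻¹ ^ 3 := by positivity
    nlinarith [mul_nonneg hB.le h8, mul_nonneg h5.le h8, mul_nonneg h6.le h8,
      mul_nonneg hB.le h9, mul_nonneg h6.le h9]
  · obtain ⟨T, t, hT, ht, T0, T1⟩ := near r hr y
    have k := (hl.Hpsi y).le (((hl.Hpsi 0).const_mul 11).add (hT.const_mul (B * r⁻¹ ^ 6))) (by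
      filter_upwards [ae_ne 0] with z hz
      have hz0 : 0 < ‖z‖ := norm_pos_iff.2 hz
      have h7 := hn z
      have h8 := T0 z
      have h11 : ‖z‖ ≤ ‖y‖ + ‖y - z‖ := by
        simpa using norm_sub_le y (y - z)
      have h12 : ‖y‖ ≤ ‖z‖ + ‖y - z‖ := by
        simpa using norm_add_le z (y - z)
      rw [zero_sub, norm_neg]
      rcases lt_or_ge ‖y - z‖ (r / 2) with h | h
      · have h9 := T1 z (by linarith)
        have h10 : ρ z ≤ B * r⁻¹ ^ 6 := by
          refine (key z (by linarith)).trans ?_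
          rw [inv_pow, ← div_eq_mul_inv]
          gcongr
          linarith
        have h13 : ‖y - z‖⁻¹ * ρ z ≤ T z * (B * r⁻¹ ^ 6) := by gcongr
        have : 0 ≤ 11 * (‖z‖⁻¹ * ρ z) := by positivity
        linarith
      · have h9 : ‖y - z‖⁻¹ ≤ 11 * ‖z‖⁻¹ := by
          have h10 : 0 < ‖y - z‖ := by linarith
          rw [← div_eq_mul_inv, inv_eq_one_div, div_le_div_iff₀ h10 hz0]
          linarith
        have h10 := mul_le_mul_of_nonneg_right h9 h7
        have : 0 ≤ B * r⁻¹ ^ 6 * T z := by positivity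
        linarith)
    have h7 : B * r⁻¹ ^ 6 * t ≤ B * r⁻¹ ^ 6 * (C2 * r ^ 2) := by gcongr
    have e : B * r⁻¹ ^ 6 * (C2 * r ^ 2) = B * C2 * r⁻¹ ^ 4 := by field_simp
    have h9 : 0 ≤ r⁻¹ ^ 4 := by positivity
    nlinarith [mul_nonneg hB.le hp, mul_nonneg h5.le hp, mul_nonneg h6.le hp,
      mul_nonneg hB.le h9, mul_nonneg h5.le h9]

theorem st_t12 (h1 : St_ko) (h2 : St_tfb) (h3 : St_trans) (h4 : St_shell) : St_t12 := by
  obtain ⟨A, hA, ko⟩ := h1
  obtain ⟨B, hB, tfb⟩ := h2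
  obtain ⟨C, hC, tr⟩ := h3
  obtain ⟨C1, hC1, far⟩ := T12_far
  obtain ⟨K, hK, eK⟩ : ∃ K > 0, K = C * B * C1 + C := ⟨_, by positivity, rfl⟩
  refine ⟨8 * (A + K + C), by positivity,
    fun V ρ ϑ ℓ q a₀ a L r b b₀ δ D ι _ _ X hV h0 ha har hL hρ hW hδ hb hD => ?_⟩
  have hr : 0 < r := by linarith
  have hn := hρ.dens.nn
  have hl := hρ.dens.ll
  have hs : 0 ≤ √(D / r) := Real.sqrt_nonneg _
  have h9 : 0 ≤ r⁻¹ ^ 4 := by positivity
  have sq : ∀ m : ℝ, 1 ≤ m → √(D / (m * r)) ≤ √(D / r) := fun m hm => by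
    rcases le_total 0 D with h | h
    · refine Real.sqrt_le_sqrt ?_
      gcongr
      nlinarith
    · rw [Real.sqrt_eq_zero_of_nonpos (div_nonpos_of_nonpos_of_nonneg h (by positivity))]
      exact hs
  have T2 : Sge (64 * r) X ≤ K * (r⁻¹ ^ 4 + √(D / r)) := by
    have k := (tr ρ ϑ ℓ b b₀ δ D (64 * r) ι X hl hn hW hδ hD (by positivity)).2.1
    have e : Sge (64 * r) X =
        ∑ j, (if 64 * r ≤ ‖X j‖ then ϑ (X j) * ‖X j‖⁻¹ else 0) :=
      Finset.sum_congr rfl fun j _ => by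
        split_ifs with h
        · rw [hW.out _ (by linarith), one_mul]
        · rfl
    obtain ⟨T, t, hT, ht, T0, T1⟩ := far r hr
    have j := hT.const_mul (B * r⁻¹)
    have k2 : ∫ y in {y : E3 | 64 * r / 16 ≤ ‖y‖}, ρ y * (max (64 * r) ‖y‖)⁻¹ ≤ B * r⁻¹ * t := by
      rw [← integral_indicator (measurableSet_le measurable_const measurable_norm), ← j.2]
      refine integral_mono_of_nonneg (Eventually.of_forall fun y => ?_) j.1
        (Eventually.of_forall fun y => ?_)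
      · exact indicator_nonneg (fun z _ => mul_nonneg (hn z) (by positivity)) y
      · have h5 := T0 y
        refine indicator_apply_le' (fun hy => ?_) fun _ => by positivity
        have hy' : 64 * r / 16 ≤ ‖y‖ := hy
        have h6 := (tfb V ρ q a₀ a L r hV h0 ha har (by linarith) hρ).1 y (by linarith)
        have h7 := mul_le_mul_of_nonneg_left (T1 y (by linarith)) hB.le
        rw [mul_one_div] at h7
        have h8 : (max (64 * r) ‖y‖)⁻¹ ≤ r⁻¹ :=
          inv_anti₀ hr (le_trans (by linarith) (le_max_left _ _))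
        calc ρ y * (max (64 * r) ‖y‖)⁻¹ ≤ (B * T y) * r⁻¹ := by
              gcongr
              exact h6.trans h7
          _ = B * r⁻¹ * T y := by ring
    have k3 : B * r⁻¹ * t ≤ B * r⁻¹ * (C1 * r⁻¹ ^ 3) := by gcongr
    have k4 := mul_le_mul_of_nonneg_left (k2.trans k3) hC.le
    have k5 := mul_le_mul_of_nonneg_left (sq 64 (by norm_num)) hC.le
    have h5 : 0 < C * B * C1 := by positivity
    rw [e, eK]
    nlinarith [mul_nonneg h5.le hs, mul_nonneg hC.le h9]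
  have hAC : 0 < A + K + C := by positivity
  refine ⟨?_, T2.trans (by gcongr; linarith)⟩
  obtain ⟨s1, s2, s3, s4, s5⟩ := h4.1 (8 * r) (by positivity)
  have hβ : LL fun y : E3 => sh (8 * r) ‖y - 0‖ := s1.ll 0
  obtain ⟨m, z, p, hp, hz, eV⟩ := id hV
  have jV : HI (fun y => sh (8 * r) ‖y - 0‖ * V y) (q * Ub (8 * r) 0) := by
    have j := HI.sum Finset.univ fun α _ => (hβ.Hpsi (p α)).const_mul (z α)
    have e : ∑ α, z α * psi (fun y : E3 => sh (8 * r) ‖y - 0‖) (p α) = q * Ub (8 * r) 0 := by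
      rw [← hz, Finset.sum_mul]
      refine Finset.sum_congr rfl fun α _ => ?_
      rw [s4, sub_zero, (s5 _ (norm_nonneg _)).2.2.2 (by linarith [hp α])]
    rw [e] at j
    refine j.congr (Eventually.of_forall fun y => ?_)
    simp only [eV, Finset.mul_sum]
    refine Finset.sum_congr rfl fun α _ => ?_
    rw [norm_sub_rev (p α)]
    ring
  have j1 : HI (fun y : E3 => sh (8 * r) ‖y - 0‖) 1 := ⟨hβ.int, by simpa using s3⟩
  have k1 := (jV.sub (hβ.HD hl)).le (j1.const_mul (A * r⁻¹ ^ 4))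
    (Eventually.of_forall fun y => by
      rw [sub_zero, ← mul_sub, mul_comm (A * _)]
      by_cases h : 8 * r / 2 ≤ ‖y‖ ∧ ‖y‖ ≤ 8 * r
      · refine mul_le_mul_of_nonneg_left ((ko V ρ q a₀ a L hV h0 ha (by linarith) hρ y
          (by linarith [h.1]) (by linarith [h.2])).trans ?_) (s2 _)
        rw [inv_pow, ← div_eq_mul_inv]
        gcongr
        linarith [h.1]
      · rw [sh, if_neg h, zero_mul, zero_mul])
  have k2 : DD (fun y : E3 => sh (8 * r) ‖y - 0‖) ρ = ∫ y, ρ y * Ub (8 * r) ‖y‖ := by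
    rw [DD_symm hβ hl, DD]
    simp only [s4]
    simp only [sub_zero]
  have k3 := (tr ρ ϑ ℓ b b₀ δ D (8 * r) ι X hl hn hW hδ hD (by positivity)).2.2.1
  have k4 : ∑ j, ϑ (X j) * Ub (8 * r) ‖X j‖ ≤
      (∑ j, if ‖X j‖ < 64 * r then ϑ (X j) else 0) * Ub (8 * r) 0 + Sge (64 * r) X := by
    rw [Finset.sum_mul, Sge, ← Finset.sum_add_distrib]
    refine Finset.sum_le_sum fun j _ => ?_
    have h5 := s5 _ (norm_nonneg (X j))
    by_cases h : ‖X j‖ < 64 * r
    · rw [if_pos h, if_neg (not_le.2 h), add_zero]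
      exact mul_le_mul_of_nonneg_left h5.2.2.1 (hW.nn _)
    · rw [if_neg h, if_pos (not_lt.1 h), zero_mul, zero_add, hW.out _ (by linarith), one_mul]
      exact h5.2.1.trans (inv_anti₀ (by linarith) (le_max_left _ _))
  have k5 := mul_le_mul_of_nonneg_left (sq 8 (by norm_num)) hC.le
  have k6 : (8 * r)⁻¹ ≤ Ub (8 * r) 0 := by
    have := (s5 0 le_rfl).1
    rwa [max_eq_right (by positivity)] at this
  have k7 : (q - ∑ j, if ‖X j‖ < 64 * r then ϑ (X j) else 0) * Ub (8 * r) 0 ≤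
      (A + K + C) * (r⁻¹ ^ 4 + √(D / r)) := by
    rw [k2] at k1
    nlinarith [mul_nonneg hA.le hs, mul_nonneg hC.le h9]
  have e1 : √(r * D) = r * √(D / r) := by
    rw [show r * D = r ^ 2 * (D / r) by field_simp, Real.sqrt_mul (by positivity),
      Real.sqrt_sq hr.le]
  have e2 : 8 * (A + K + C) * (r⁻¹ ^ 3 + √(r * D)) =
      8 * r * ((A + K + C) * (r⁻¹ ^ 4 + √(D / r))) := by
    rw [e1]
    field_simp
  rw [e2]
  rcases le_total (q - ∑ j, if ‖X j‖ < 64 * r then ϑ (X j) else 0) 0 with h | h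
  · exact h.trans (by positivity)
  · rw [← inv_mul_le_iff₀ (by positivity), mul_comm]
    exact (mul_le_mul_of_nonneg_left k6 h).trans k7

end Pool.Agent.Lib.ION
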