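import Pool.Agent.Lib.ION.Basic

/-!
# Existence of the penalised Thomas-Fermi minimiser on a shell
-/

open MeasureTheory Set Metric Real Filter Topology

noncomputable section

namespace Pool.Agent.Lib.ION

open Pool.Agent.Lib.MP_689e73_mp

namespace TFEX

/-- the shell -/
def Om (a L : ℝ) : Set E3 := {y | a ≤ ‖y‖ ∧ ‖y‖ ≤ L}

lemma Om_meas (a L : ℝ) : MeasurableSet (Om a L) :=
  (measurableSet_le measurable_const measurable_norm).inter
    (measurableSet_le measurable_norm measurable_const)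

lemma Om_fin (a L : ℝ) : volume (Om a L) ≠ ⊤ :=
  ((measure_mono fun _ hy => mem_closedBall_zero_iff.2 hy.2).trans_lt
    (measure_closedBall_lt_top (x := (0 : E3)) (r := L))).ne

/-- densities on the shell -/
structure Cl (a L : ℝ) (ρ : E3 → ℝ) : Prop where
  ll : LL ρ
  nn : ∀ x, 0 ≤ ρ x
  supp : ∀ y, y ∉ Om a L → ρ y = 0

def gm : ℝ := (6 * π ^ 2) ^ (2 / 3 : ℝ)

lemma gm_pos : 0 < gm := by unfold gm; positivity

lemma gm_c1 : gm ^ (-(3 / 2) : ℝ) = c1 := by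
  rw [gm, c1, ← Real.rpow_mul (by positivity), ← Real.rpow_neg_one]; norm_num

variable {m : ℕ} {q a L η : ℝ} {p : Fin m → E3} {Mb : Fin m → ℝ} {ρ σ g : E3 → ℝ}

def MM (p : Fin m → E3) (ρ : E3 → ℝ) (α : Fin m) : ℝ := psi ρ (p α) - psi ρ 0

def Pn (η : ℝ) (p : Fin m → E3) (Mb : Fin m → ℝ) (ρ : E3 → ℝ) : ℝ :=
  1 / (2 * η) * ∑ α, (Mb α - MM p ρ α) ^ 2

def E0 (q : ℝ) (ρ : E3 → ℝ) : ℝ := EE gm (fun _ : Fin 1 => q) (fun _ => 0) ρ

def JJ (q η : ℝ) (p : Fin m → E3) (Mb : Fin m → ℝ) (ρ : E3 → ℝ) : ℝ := E0 q ρ + Pn η p Mb ρ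

lemma E0_eq (q : ℝ) (ρ : E3 → ℝ) :
    E0 q ρ = 3 / 5 * gm * KK ρ - q * psi ρ 0 + 1 / 2 * DD ρ ρ := by simp [E0, EE]

lemma Pn_nonneg (hη : 0 < η) (ρ : E3 → ℝ) : 0 ≤ Pn η p Mb ρ := by unfold Pn; positivity

lemma MM_comb (h : LL ρ) (h' : LL σ) (t : ℝ) (α : Fin m) :
    MM p (fun x => ρ x + t * σ x) α = MM p ρ α + t * MM p σ α := by
  simp only [MM, psi_comb h h']; ring

lemma MM_sub (h : LL ρ) (h' : LL σ) (α : Fin m) :
    MM p (fun x => ρ x - σ x) α = MM p ρ α - MM p σ α := by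
  simp only [MM, h.psi_sub h']; ring

lemma Cl.zero : Cl a L fun _ => 0 := ⟨LL.zero, fun _ => le_rfl, fun _ _ => rfl⟩

lemma Cl.comb (h : Cl a L ρ) (h' : Cl a L σ) {t : ℝ} (h0 : 0 ≤ t) (h1 : t ≤ 1) :
    Cl a L fun x => ρ x + t * (σ x - ρ x) :=
  ⟨h.ll.add ((h'.ll.sub h.ll).const_mul t), fun x => by
    have := h.nn x; have := h'.nn x; nlinarith, fun y hy => by
    simp [h.supp y hy, h'.supp y hy]⟩

lemma Cl.mass (h : Cl a L ρ) {θ : ℝ} (hθ : 0 < θ) :
    N1 ρ ≤ θ * KK ρ + θ ^ (-(3 / 2) : ℝ) * N1 (indicator (Om a L) fun _ => (1 : ℝ)) := by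
  refine h.ll.HN.le ((h.ll.HK.const_mul θ).add
    ((LL_indicator (Om_meas a L) (Om_fin a L)).HN.const_mul _)) (Eventually.of_forall fun x => ?_)
  by_cases hx : x ∈ Om a L
  · simpa [hx] using young53 hθ (abs_nonneg (ρ x)) zero_le_one
  · simp [hx, h.supp x hx]

lemma Cl.psi0 (h : Cl a L ρ) (ha : 0 < a) : psi ρ 0 ≤ a⁻¹ * N1 ρ := by
  refine (h.ll.Hpsi 0).le (h.ll.HN.const_mul _) (Eventually.of_forall fun x => ?_)
  by_cases hx : x ∈ Om a L
  · rw [zero_sub, norm_neg, abs_of_nonneg (h.nn x)]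
    exact mul_le_mul_of_nonneg_right (inv_anti₀ ha hx.1) (h.nn x)
  · simp [h.supp x hx]

lemma lower (ha : 0 < a) (hη : 0 < η) :
    ∃ C : ℝ, ∀ ρ, Cl a L ρ → 3 / 10 * gm * KK ρ - C ≤ JJ q η p Mb ρ := by
  have g0 := gm_pos
  set Z : ℝ := |q| * a⁻¹ with hZ
  have hZ0 : 0 ≤ Z := by positivity
  set θ : ℝ := 3 / 10 * gm / (Z + 1) with hθ
  have hθ0 : 0 < θ := by positivity
  refine ⟨Z * (θ ^ (-(3 / 2) : ℝ) * N1 (indicator (Om a L) fun _ => (1 : ℝ))), fun ρ h => ?_⟩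
  have h1 := mul_le_mul_of_nonneg_left (h.mass hθ0) hZ0
  have h2 : q * psi ρ 0 ≤ Z * N1 ρ :=
    (mul_le_mul_of_nonneg_right (le_abs_self q) (psi_nonneg h.nn 0)).trans
      ((mul_le_mul_of_nonneg_left (h.psi0 ha) (abs_nonneg q)).trans_eq (mul_assoc _ _ _).symm)
  have h3 := DD_nonneg h.nn h.nn
  have h4 : Z * θ ≤ 3 / 10 * gm := by
    rw [hθ, ← mul_div_assoc, div_le_iff₀ (by positivity)]; nlinarith
  have h5 := mul_le_mul_of_nonneg_right h4 (KK_nonneg ρ)
  have h6 := Pn_nonneg (p := p) (Mb := Mb) hη ρ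
  rw [JJ, E0_eq]
  nlinarith

lemma Pn_mid (hη : 0 < η) (h : LL ρ) (h' : LL σ) :
    Pn η p Mb (fun x => ρ x + 1 / 2 * (σ x - ρ x)) ≤ (Pn η p Mb ρ + Pn η p Mb σ) / 2 := by
  unfold Pn
  rw [← mul_add, mul_div_assoc, ← Finset.sum_add_distrib, Finset.sum_div]
  refine mul_le_mul_of_nonneg_left (Finset.sum_le_sum fun α _ => ?_) (by positivity)
  rw [MM_comb h (h'.sub h), MM_sub h' h]
  nlinarith [sq_nonneg (MM p ρ α - MM p σ α)]

lemma exists_min (ha : 0 < a) (hη : 0 < η) :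
    ∃ g, Cl a L g ∧ ∀ σ, Cl a L σ → JJ q η p Mb g ≤ JJ q η p Mb σ := by
  have g0 := gm_pos
  obtain ⟨C, hC⟩ := lower (q := q) (L := L) (p := p) (Mb := Mb) ha hη
  set S : Set ℝ := JJ q η p Mb '' {ρ | Cl a L ρ} with hS
  have hne : S.Nonempty := ⟨_, ⟨_, Cl.zero, rfl⟩⟩
  have hbd : BddBelow S := ⟨-C, by
    rintro _ ⟨ρ, hρ, rfl⟩
    have := hC ρ hρ
    have := mul_nonneg (show 0 ≤ 3 / 10 * gm by positivity) (KK_nonneg ρ)
    linarith⟩
  have hm : ∀ ρ, Cl a L ρ → sInf S ≤ JJ q η p Mb ρ := fun ρ hρ => csInf_le hbd ⟨ρ, hρ, rfl⟩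
  have hex : ∀ n : ℕ, ∃ ρ, Cl a L ρ ∧ JJ q η p Mb ρ < sInf S + 1 / ((n : ℝ) + 1) := fun n => by
    obtain ⟨_, ⟨ρ, hρ, rfl⟩, h⟩ := exists_lt_of_csInf_lt hne
      (show sInf S < sInf S + 1 / ((n : ℝ) + 1) by
        have : (0 : ℝ) < 1 / ((n : ℝ) + 1) := by positivity
        linarith)
    exact ⟨ρ, hρ, h⟩
  choose u hu hE using hex
  set K : ℝ := (sInf S + 1 + C) / (3 / 10 * gm) with hK
  have hKa : ∀ n, KK (u n) ≤ K := fun n => by
    have h1 : 1 / ((n : ℝ) + 1) ≤ 1 := by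
      rw [div_le_one (by positivity)]; linarith [Nat.cast_nonneg (α := ℝ) n]
    rw [hK, le_div_iff₀ (by positivity)]
    linarith [hE n, hC _ (hu n)]
  set lam : ℝ := K + N1 (indicator (Om a L) fun _ => (1 : ℝ)) with hlam
  have hg : ∀ n, Good lam (u n) := fun n => ⟨(hu n).ll, (hu n).nn, by
    have := (hu n).mass one_pos
    rw [Real.one_rpow] at this
    linarith [hKa n]⟩
  have ht : Tendsto (fun n : ℕ => 1 / ((n : ℝ) + 1)) atTop (𝓝 0) :=
    tendsto_one_div_add_atTop_nhds_zero_nat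
  obtain ⟨f, hf, hlim⟩ := cauchy_limit hg (fun ε hε => by
    obtain ⟨δ, hδ, H⟩ := stab g0 (fun _ : Fin 1 => q) K hε
    obtain ⟨N, hN⟩ := eventually_atTop.1 (ht.eventually (Iic_mem_nhds hδ))
    refine ⟨N, fun n hn k hk => H lam (fun _ => 0) _ _ (hg n) (hg k) (hKa n) (hKa k) ?_⟩
    have h1 := hm _ ((hu n).comb (hu k) (t := 1 / 2) (by norm_num) (by norm_num))
    have h2 : 1 / ((n : ℝ) + 1) ≤ δ := hN n hn
    have h3 : 1 / ((k : ℝ) + 1) ≤ δ := hN k hk
    have h4 := Pn_mid (p := p) (Mb := Mb) hη (hu n).ll (hu k).ll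
    have h5 := hE n
    have h6 := hE k
    unfold JJ E0 at h1 h5 h6
    linarith)
  set g : E3 → ℝ := indicator (Om a L) f with hgdef
  have gl : LL g := ⟨hf.ll.meas.indicator (Om_meas a L), hf.ll.int.indicator (Om_meas a L),
    hf.ll.lp.indicator (Om_meas a L)⟩
  have gn : ∀ x, 0 ≤ g x := fun x => indicator_nonneg (fun y _ => hf.nn y) x
  have gg : Good lam g := ⟨gl, gn, ((gl.HN' gn).le (hf.ll.HN' hf.nn) (Eventually.of_forall
    fun x => indicator_le_self' (fun y _ => hf.nn y) x)).trans hf.mass⟩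
  have hl2 : Tendsto (fun n => KK (fun x => u n x - g x)) atTop (𝓝 0) := by
    refine squeeze_zero (fun n => KK_nonneg _) (fun n => ?_) hlim
    refine ((hu n).ll.sub gl).HK.le ((hu n).ll.sub hf.ll).HK (Eventually.of_forall fun x => ?_)
    by_cases hx : x ∈ Om a L
    · rw [hgdef, indicator_of_mem hx]
    · rw [hgdef, indicator_of_notMem hx, (hu n).supp x hx, sub_zero, abs_zero,
        Real.zero_rpow (by norm_num)]
      positivity
  refine ⟨g, ⟨gl, gn, fun y hy => indicator_of_notMem hy _⟩, fun σ hσ => le_trans ?_ (hm σ hσ)⟩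
  have h2 : Tendsto (fun n : ℕ => sInf S + 1 / ((n : ℝ) + 1)) atTop (𝓝 (sInf S + 0)) :=
    ht.const_add _
  rw [add_zero] at h2
  have h3 : Tendsto (fun n => JJ q η p Mb (u n)) atTop (𝓝 (JJ q η p Mb g)) :=
    (tendsto_EE gm _ _ hg gg hl2).add ((tendsto_finsetSum _ fun α _ =>
      (((tendsto_psi hg gg hl2 tendsto_const_nhds).sub
        (tendsto_psi hg gg hl2 tendsto_const_nhds)).const_sub _).pow 2).const_mul _)
  exact le_of_tendsto_of_tendsto' h3 h2 fun n => (hE n).le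

/-- the first variation -/
def ww (q : ℝ) (c : Fin m → ℝ) (p : Fin m → E3) (g : E3 → ℝ) (x : E3) : ℝ :=
  gm * g x ^ (2 / 3 : ℝ) - Vq q c p x + psi g x

def LW (q : ℝ) (c : Fin m → ℝ) (p : Fin m → E3) (g σ : E3 → ℝ) : ℝ :=
  gm * T23 g σ - (q * psi σ 0 + ∑ α, c α * MM p σ α) + DD σ g

lemma HW (c : Fin m → ℝ) (hg : LL g) (h0 : ∀ x, 0 ≤ g x) (hσ : LL σ) :
    HI (fun x => ww q c p g x * σ x) (LW q c p g σ) := by
  refine ((((HI.of (int_23 hg h0 hσ)).const_mul gm).sub (((hσ.Hpsi 0).const_mul q).add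
    (HI.sum Finset.univ fun α _ => ((hσ.Hpsi (p α)).sub (hσ.Hpsi 0)).const_mul (c α)))).add
    (hσ.HD hg)).congr (Eventually.of_forall fun x => ?_)
  simp only [ww, Vq, zero_sub, norm_neg, norm_sub_rev x, sub_mul, add_mul, Finset.sum_mul,
    mul_assoc]
  ring

lemma var (hη : 0 < η) (hg : Cl a L g) (hm : ∀ σ, Cl a L σ → JJ q η p Mb g ≤ JJ q η p Mb σ)
    (hσ : Cl a L σ) : 0 ≤ LW q (fun α => (Mb α - MM p g α) / η) p g fun x => σ x - g x := by
  have g0 := gm_pos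
  have dl : LL (fun x => σ x - g x) := hσ.ll.sub hg.ll
  set d : E3 → ℝ := fun x => σ x - g x with hd
  set A := LW q (fun α => (Mb α - MM p g α) / η) p g d with hA
  set B := DD d d + 1 / η * ∑ α, MM p d α ^ 2 with hB
  have key : ∀ t : ℝ, 0 < t → t ≤ 1 → 0 ≤ A + gm * t ^ (2 / 3 : ℝ) * KK d + t / 2 * B := by
    intro t h0 h1
    have hc := hg.comb hσ h0.le h1
    have h2 : JJ q η p Mb g ≤ JJ q η p Mb fun x => g x + t * d x := hm _ hc
    have h4 : Pn η p Mb (fun x => g x + t * d x) = Pn η p Mb g -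
        t * ∑ α, (Mb α - MM p g α) / η * MM p d α + t ^ 2 / 2 * (1 / η * ∑ α, MM p d α ^ 2) := by
      simp only [Pn, MM_comb hg.ll dl, Finset.mul_sum, ← Finset.sum_add_distrib,
        ← Finset.sum_sub_distrib]
      refine Finset.sum_congr rfl fun α _ => ?_
      field_simp
      ring
    have h5 : KK (fun x => g x + t * d x) ≤ KK g + 5 / 3 * t * T23 g d +
        5 / 3 * KK (fun x => t * d x) := by
      refine (hc.ll.HK' hc.nn).le (((hg.ll.HK' hg.nn).add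
        ((HI.of (int_23 hg.ll hg.nn dl)).const_mul (5 / 3 * t))).add
        ((dl.const_mul t).HK.const_mul (5 / 3))) (Eventually.of_forall fun x => ?_)
      have := (le_abs_self _).trans (taylor53 (hg.nn x) (hc.nn x))
      rw [add_sub_cancel_left] at this
      simp only [hd]
      linarith
    rw [KK_smul d h0.le] at h5
    have h6 : t ^ (5 / 3 : ℝ) = t * t ^ (2 / 3 : ℝ) := by
      rw [show (5 / 3 : ℝ) = 1 + 2 / 3 by norm_num, Real.rpow_add h0, Real.rpow_one]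
    rw [h6] at h5
    rw [JJ, JJ, E0_eq, E0_eq, h4, DD_expand hg.ll dl t, psi_comb hg.ll dl] at h2
    have h7 := mul_le_mul_of_nonneg_left h5 (show 0 ≤ 3 / 5 * gm by positivity)
    have h8 : 0 ≤ t * (A + gm * t ^ (2 / 3 : ℝ) * KK d + t / 2 * B) := by
      rw [hA, hB, LW]
      linarith
    exact nonneg_of_mul_nonneg_right h8 h0 |> fun h => h
  have hc : Continuous (fun t : ℝ => A + gm * t ^ (2 / 3 : ℝ) * KK d + t / 2 * B) :=
    (continuous_const.add ((continuous_const.mul (continuous_id.rpow_const fun _ =>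
      Or.inr (by norm_num))).mul continuous_const)).add
      ((continuous_id.div_const 2).mul continuous_const)
  have hl := (hc.tendsto 0).mono_left (nhdsWithin_le_nhds (s := Ioi 0))
  have := ge_of_tendsto hl (by
    filter_upwards [Ioc_mem_nhdsGT (zero_lt_one' ℝ)] with t ht
    exact key t ht.1 ht.2)
  rw [Real.zero_rpow (by norm_num)] at this
  linarith

lemma meas_Vq (q : ℝ) (c : Fin m → ℝ) (p : Fin m → E3) : Measurable (Vq q c p) := by
  unfold Vq
  fun_prop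

lemma euler {c : Fin m → ℝ} (hg : Cl a L g)
    (hv : ∀ σ, Cl a L σ → 0 ≤ LW q c p g fun x => σ x - g x) :
    ∀ᵐ x, x ∈ Om a L → g x = c1 * gp (Vq q c p x - psi g x) := by
  have hw : Measurable (ww q c p g) :=
    (((hg.ll.meas.pow_const _).const_mul gm).sub (meas_Vq q c p)).add
      hg.ll.continuous_psi.measurable
  have hA : ∀ᵐ x, x ∈ Om a L → 0 ≤ ww q c p g x := by
    set s : Set E3 := Om a L ∩ {x | ww q c p g x < 0} with hs
    have hsm : MeasurableSet s := (Om_meas a L).inter (measurableSet_lt hw measurable_const)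
    have l1 := LL_indicator hsm ((measure_mono inter_subset_left).trans_lt
      (Om_fin a L).lt_top).ne
    have l2 : ∀ x, 0 ≤ indicator s (fun _ => (1 : ℝ)) x :=
      fun x => indicator_nonneg (fun _ _ => zero_le_one) _
    have cl : Cl a L fun x => g x + indicator s (fun _ => (1 : ℝ)) x :=
      ⟨hg.ll.add l1, fun x => add_nonneg (hg.nn x) (l2 x), fun y hy => by
        rw [hg.supp y hy, indicator_of_notMem fun h => hy h.1, add_zero]⟩
    have j := (HW (q := q) (p := p) c hg.ll hg.nn (cl.ll.sub hg.ll)).const_mul (-1)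
    have k1 := hv _ cl
    simp only [add_sub_cancel_left] at j k1
    have k2 : ∀ x, 0 ≤ -1 * (ww q c p g x * indicator s (fun _ => (1 : ℝ)) x) := by
      intro x
      by_cases hx : x ∈ s
      · rw [indicator_of_mem hx]
        have : ww q c p g x < 0 := hx.2
        linarith
      · rw [indicator_of_notMem hx]; simp
    have k3 := HI.zero.le j (Eventually.of_forall k2)
    have k4 := (integral_eq_zero_iff_of_nonneg k2 j.1).1 (by have := j.2; linarith)
    filter_upwards [k4] with x hx hxb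
    by_contra hneg
    have hx' : x ∈ s := ⟨hxb, not_le.1 hneg⟩
    rw [indicator_of_mem hx'] at hx
    simp only [Pi.zero_apply] at hx
    linarith [not_le.1 hneg]
  have hB : ∀ᵐ x, ww q c p g x * g x = 0 := by
    have j := (HW (q := q) (p := p) c hg.ll hg.nn (LL.zero.sub hg.ll)).const_mul (-1)
    have k1 := hv _ Cl.zero
    have j' := j.congr (g := fun x => ww q c p g x * g x) (Eventually.of_forall fun x => by ring)
    have k2 : ∀ᵐ x, 0 ≤ ww q c p g x * g x := hA.mono fun x hx => by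
      by_cases h : x ∈ Om a L
      · exact mul_nonneg (hx h) (hg.nn x)
      · rw [hg.supp x h, mul_zero]
    have k3 := HI.zero.le j' k2
    exact (integral_eq_zero_iff_of_nonneg_ae k2 j'.1).1 (by have := j'.2; linarith)
  filter_upwards [hA, hB] with x h1 h2 hx
  have h1 := h1 hx
  rw [← gm_c1]
  refine eq_gp gm_pos (hg.nn x) ?_
  unfold ww at h1 h2
  have h3 : 0 ≤ gm * g x ^ (2 / 3 : ℝ) := mul_nonneg gm_pos.le (Real.rpow_nonneg (hg.nn x) _)
  rcases mul_eq_zero.1 h2 with h | h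
  · rw [max_eq_left (by linarith)]; linarith
  · rw [h, Real.zero_rpow (by norm_num), mul_zero] at h1 ⊢
    rw [max_eq_right (by linarith)]

lemma Vq_le {a₀ : ℝ} (c : Fin m → ℝ) (ha : 0 < a) (h0 : a₀ < a) (hp : ∀ α, ‖p α‖ ≤ a₀) {y : E3}
    (hy : a ≤ ‖y‖) : Vq q c p y ≤ |q| * a⁻¹ + ∑ α, |c α| * ((a - a₀)⁻¹ + a⁻¹) := by
  have h1 : ‖y‖⁻¹ ≤ a⁻¹ := inv_anti₀ ha hy
  have h2 : 0 ≤ ‖y‖⁻¹ := by positivity
  refine add_le_add ((mul_le_mul_of_nonneg_right (le_abs_self q) h2).trans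
    (mul_le_mul_of_nonneg_left h1 (abs_nonneg q))) (Finset.sum_le_sum fun α _ => ?_)
  refine (le_abs_self _).trans ?_
  rw [abs_mul]
  refine mul_le_mul_of_nonneg_left ((abs_sub _ _).trans (add_le_add ?_ ?_)) (abs_nonneg _)
  · rw [abs_of_nonneg (by positivity)]
    exact inv_anti₀ (by linarith) (by linarith [norm_sub_norm_le y (p α), hp α])
  · rwa [abs_of_nonneg h2]

end TFEX

open TFEX in
set_option linter.unusedVariables false in
theorem st_tfex (h1 : St_cs) : St_tfex := by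
  intro m q a₀ a L η p Mb hη ha h0 hp
  obtain ⟨g, hg, hm⟩ := exists_min (q := q) (L := L) (p := p) (Mb := Mb) ha hη
  set c : Fin m → ℝ := fun α => (Mb α - MM p g α) / η with hc
  have he := euler (c := c) hg fun σ hσ => var hη hg hm hσ
  set ρ : E3 → ℝ := fun y => if a ≤ ‖y‖ ∧ ‖y‖ ≤ L then c1 * gp (Vq q c p y - psi g y) else 0
    with hρ
  have e : psi ρ = psi g := funext fun x => integral_congr_ae (he.mono fun y hy => by
    by_cases h : a ≤ ‖y‖ ∧ ‖y‖ ≤ L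
    · simp only [hρ]; rw [if_pos h, ← hy h]
    · simp only [hρ]; rw [if_neg h, hg.supp y h])
  have nn : ∀ y, 0 ≤ ρ y := fun y => by
    simp only [hρ]
    split_ifs
    exacts [mul_nonneg c1_pos.le (gp_nonneg _), le_rfl]
  refine ⟨c, ρ, ⟨⟨⟨?_, c1 * gp (|q| * a⁻¹ + ∑ α, |c α| * ((a - a₀)⁻¹ + a⁻¹)), fun y => ?_⟩, nn,
    L, fun y hy => if_neg fun h => hy.not_ge h.2⟩, fun y => by rw [e]⟩, fun α => ?_⟩
  · exact Measurable.ite (Om_meas a L) ((continuous_gp.measurable.comp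
      ((meas_Vq q c p).sub hg.ll.continuous_psi.measurable)).const_mul _) measurable_const
  · rw [abs_of_nonneg (nn y)]
    simp only [hρ]
    split_ifs with h
    · refine mul_le_mul_of_nonneg_left (gp_mono ?_) c1_pos.le
      linarith [Vq_le (q := q) c ha h0 hp h.1, psi_nonneg hg.nn y]
    · exact mul_nonneg c1_pos.le (gp_nonneg _)
  · rw [e, hc, mul_div_cancel₀ _ hη.ne', MM]

end Pool.Agent.Lib.ION
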