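import Pool.Agent.Lib.ION.Basic

/-!
# Comparison of a weighted point configuration with a density
-/

open MeasureTheory Set Metric Real Filter Topology

set_option linter.unusedSectionVars false

noncomputable section

namespace Pool.Agent.Lib.ION

open Pool.Agent.Lib.MP_689e73_mp

section TRANS

variable {ρ ϑ ℓ U U' : E3 → ℝ} {b b₀ δ D e e' : ℝ} {ι : Type} [Fintype ι] [DecidableEq ι]
  {X : Cfg ι}

/-- test potentials with error `e` -/
structure TransT (ρ ϑ ℓ : E3 → ℝ) (X : Cfg ι) (U : E3 → ℝ) (e : ℝ) : Prop where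
  i1 : Integrable fun y => ρ y * U y
  i2 : ∀ j, Integrable fun y => gam (ℓ (X j)) ‖y - X j‖ * U y
  le : |∑ j, ϑ (X j) * (∫ y, gam (ℓ (X j)) ‖y - X j‖ * U y) - ∫ y, ρ y * U y| ≤ e

lemma TransT.smul (h : TransT ρ ϑ ℓ X U e) {a : ℝ} (ha : 0 ≤ a) :
    TransT ρ ϑ ℓ X (fun y => a * U y) (a * e) := by
  refine ⟨by simpa only [mul_left_comm _ a] using h.i1.const_mul a,
    fun j => by simpa only [mul_left_comm _ a] using (h.i2 j).const_mul a, ?_⟩
  simp only [mul_left_comm _ a, integral_const_mul]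
  rw [← Finset.mul_sum, ← mul_sub, abs_mul, abs_of_nonneg ha]
  exact mul_le_mul_of_nonneg_left h.le ha

lemma TransT.sub (h : TransT ρ ϑ ℓ X U e) (h' : TransT ρ ϑ ℓ X U' e') :
    TransT ρ ϑ ℓ X (fun y => U y - U' y) (e + e') := by
  refine ⟨by simp only [mul_sub]; exact h.i1.sub h'.i1,
    fun j => by simp only [mul_sub]; exact (h.i2 j).sub (h'.i2 j), ?_⟩
  simp only [mul_sub, integral_sub h.i1 h'.i1, integral_sub (h.i2 _) (h'.i2 _),
    Finset.sum_sub_distrib]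
  have h1 := abs_le.1 h.le
  have h2 := abs_le.1 h'.le
  rw [abs_le]
  constructor <;> linarith

lemma trans_HI_gam (h4 : St_ker) {s : ℝ} (hs : 0 < s) (c : E3) :
    HI (fun y => gam s ‖y - c‖) 1 := by
  obtain ⟨C, -, h⟩ := h4
  obtain ⟨-, -, -, k1, -, k2, -⟩ := h s hs
  exact ⟨(k1.ll c).int, by rw [integral_sub_right_eq_self (fun y : E3 => gam s ‖y‖) c, k2]⟩

lemma trans_ball (h4 : St_ker) {s : ℝ} (hs : 0 < s) {c : E3} {u v : E3 → ℝ}
    (h : ∀ y, ‖y - c‖ ≤ s → u y ≤ v y) (y : E3) :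
    gam s ‖y - c‖ * u y ≤ gam s ‖y - c‖ * v y := by
  obtain ⟨C, -, h4⟩ := h4
  obtain ⟨-, -, -, k1, k2, -⟩ := h4 s hs
  rcases le_or_gt ‖y - c‖ s with hy | hy
  · exact mul_le_mul_of_nonneg_left (h y hy) (k2 _)
  · rw [k1.supp _ hy, zero_mul, zero_mul]

lemma TransT.lower (h4 : St_ker) (hw : Wt ϑ ℓ b b₀ δ) (h : TransT ρ ϑ ℓ X U e) (w : ι → ℝ)
    (hU : ∀ j y, ‖y - X j‖ ≤ δ * ‖X j‖ → w j ≤ U y) :
    ∑ j, ϑ (X j) * w j ≤ (∫ y, ρ y * U y) + e := by
  have h1 := (abs_le.1 h.le).2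
  refine le_trans (Finset.sum_le_sum fun j _ => ?_) (sub_le_iff_le_add'.1 h1)
  rcases lt_or_ge ‖X j‖ b with hb | hb
  · rw [hw.inn _ hb, zero_mul, zero_mul]
  refine mul_le_mul_of_nonneg_left ?_ (hw.nn _)
  have := ((trans_HI_gam h4 (hw.lp (X j)) (X j)).const_mul (w j)).le (HI.of (h.i2 j))
    (Eventually.of_forall fun y => by
      rw [mul_comm]
      exact trans_ball h4 (hw.lp _) (u := fun _ => w j)
        (fun y hy => hU j y (hy.trans (hw.ll _ hb))) y)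
  rwa [mul_one] at this

lemma TransT.upper (h4 : St_ker) (hw : Wt ϑ ℓ b b₀ δ) (h : TransT ρ ϑ ℓ X U e) (w : ι → ℝ)
    (hU : ∀ j y, ‖y - X j‖ ≤ δ * ‖X j‖ → U y ≤ w j) :
    ∫ y, ρ y * U y ≤ ∑ j, ϑ (X j) * w j + e := by
  have h1 := (abs_le.1 h.le).1
  refine le_trans (b := ∑ j, ϑ (X j) * (∫ y, gam (ℓ (X j)) ‖y - X j‖ * U y) + e) (by linarith)
    (add_le_add_left (Finset.sum_le_sum fun j _ => ?_) _)
  rcases lt_or_ge ‖X j‖ b with hb | hb
  · rw [hw.inn _ hb, zero_mul, zero_mul]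
  refine mul_le_mul_of_nonneg_left ?_ (hw.nn _)
  have := (HI.of (h.i2 j)).le ((trans_HI_gam h4 (hw.lp (X j)) (X j)).const_mul (w j))
    (Eventually.of_forall fun y => by
      rw [mul_comm (w j)]
      exact trans_ball h4 (hw.lp _) (v := fun _ => w j)
        (fun y hy => hU j y (hy.trans (hw.ll _ hb))) y)
  rwa [mul_one] at this

lemma trans_LL_gam (h4 : St_ker) {s : ℝ} (hs : 0 < s) (c : E3) : LL fun y => gam s ‖y - c‖ := by
  obtain ⟨C, -, h⟩ := h4
  exact (h s hs).2.2.2.1.ll c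

lemma trans_LL_mu (h4 : St_ker) (hw : Wt ϑ ℓ b b₀ δ) : LL (mu ϑ ℓ X) :=
  LL_sum _ fun j _ => (trans_LL_gam h4 (hw.lp _) (X j)).const_mul _

lemma trans_D_nonneg (h3 : St_cs) (h4 : St_ker) (hρ : LL ρ) (hw : Wt ϑ ℓ b b₀ δ)
    (hD : Dv ϑ ℓ X ρ ≤ D) : 0 ≤ D := by
  have := (h3 _ _ ((trans_LL_mu (X := X) h4 hw).sub hρ) hρ).1
  unfold Dv at hD
  linarith

lemma trans_shell (h2 : St_shell) (h3 : St_cs) (h4 : St_ker) (hρ : LL ρ) (hw : Wt ϑ ℓ b b₀ δ)
    (hD : Dv ϑ ℓ X ρ ≤ D) {S : ℝ} (hS : 0 < S) (c : E3) :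
    TransT ρ ϑ ℓ X (fun y => Ub S ‖y - c‖) (2 * √(D / S)) := by
  obtain ⟨k1, k2, k3, k4, k5⟩ := h2.1 S hS
  have hn := k1.ll c
  have hm := trans_LL_mu (X := X) h4 hw
  have e : (fun y => Ub S ‖y - c‖) = psi fun y => sh S ‖y - c‖ := funext fun y => (k4 c y).symm
  rw [e]
  have j1 := fun j => (trans_LL_gam h4 (hw.lp (X j)) (X j)).HD hn
  refine ⟨(hρ.HD hn).1, fun j => (j1 j).1, ?_⟩
  have e1 : ∑ j, ϑ (X j) * (∫ y, gam (ℓ (X j)) ‖y - X j‖ * psi (fun y => sh S ‖y - c‖) y) =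
      DD (mu ϑ ℓ X) fun y => sh S ‖y - c‖ :=
    (HI.sum Finset.univ fun j _ => (HI.of (j1 j).1).const_mul (ϑ (X j))).eq (hm.HD hn)
      (Eventually.of_forall fun y => by simp only [mu, Finset.sum_mul, mul_assoc])
  have e2 : DD (fun y => sh S ‖y - c‖) (fun y => sh S ‖y - c‖) ≤ 2 / S := by
    have i1 : N1 (fun y => sh S ‖y - c‖) = 1 := by
      rw [← (hn.HN' fun y => k2 _).2, integral_sub_right_eq_self (fun y : E3 => sh S ‖y‖) c, k3]
    have := abs_DD_le hn hn (ε := 2 / S) fun x => by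
      rw [abs_of_nonneg (psi_nonneg (fun y => k2 _) x), k4]
      refine (k5 _ (norm_nonneg _)).2.1.trans ?_
      rw [← inv_div S 2]
      exact inv_anti₀ (half_pos hS) (le_max_right _ _)
    rw [i1, mul_one] at this
    exact (le_abs_self _).trans this
  rw [e1, (hρ.HD hn).2, ← DD_sub_left hm hρ hn]
  refine (h3 _ _ (hm.sub hρ) hn).2.trans ?_
  have hD0 := trans_D_nonneg h3 h4 hρ hw hD
  calc _ ≤ √(2 * D) * √(2 / S) := by
        refine mul_le_mul (Real.sqrt_le_sqrt ?_) (Real.sqrt_le_sqrt e2) (Real.sqrt_nonneg _)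
          (Real.sqrt_nonneg _)
        unfold Dv at hD
        linarith
    _ = 2 * √(D / S) := by
        rw [← Real.sqrt_mul (by positivity), show 2 * D * (2 / S) = 2 ^ 2 * (D / S) by ring,
          Real.sqrt_mul (by positivity), Real.sqrt_sq (by norm_num)]

lemma trans_sqrt (hD : 0 ≤ D) {R S k : ℝ} (hR : 0 < R) (hS : 0 < S) (hk : 0 ≤ k)
    (h : R ≤ k ^ 2 * S) : √(D / S) ≤ k * √(D / R) := by
  rw [← Real.sqrt_sq hk, ← Real.sqrt_mul (by positivity)]
  refine Real.sqrt_le_sqrt ?_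
  rw [← mul_div_assoc, div_le_div_iff₀ hS hR]
  nlinarith

lemma trans_sqrt' {R : ℝ} (hR : 0 < R) : R * √(D / R) = √(R * D) := by
  rw [show R * D = R ^ 2 * (D / R) by field_simp, Real.sqrt_mul (by positivity),
    Real.sqrt_sq hR.le]

/-- the bump potential -/
def transB (S t : ℝ) : ℝ := 2 * S * (Ub S t - Ub (4 * S) t)

lemma trans_bump (h2 : St_shell) {S t : ℝ} (hS : 0 < S) (ht : 0 ≤ t) :
    0 ≤ transB S t ∧ transB S t ≤ 4 ∧ (t ≤ S → 1 ≤ transB S t) ∧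
      (4 * S ≤ t → transB S t = 0) := by
  obtain ⟨a1, a2, -⟩ := (h2.1 S hS).2.2.2.2 t ht
  obtain ⟨b1, b2, -⟩ := (h2.1 (4 * S) (by positivity)).2.2.2.2 t ht
  have c0 : 0 ≤ (max t (4 * S))⁻¹ := by positivity
  have c1 : (max t (4 * S / 2))⁻¹ ≤ (max t S)⁻¹ :=
    inv_anti₀ (by positivity) (max_le_max_left _ (by linarith))
  have c2 : (max t (S / 2))⁻¹ ≤ (S / 2)⁻¹ := inv_anti₀ (by positivity) (le_max_right _ _)
  have c3 : (max t (4 * S / 2))⁻¹ ≤ (4 * S / 2)⁻¹ := inv_anti₀ (by positivity) (le_max_right _ _)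
  unfold transB
  refine ⟨mul_nonneg (by positivity) (by linarith), ?_, fun h => ?_, fun h => ?_⟩
  · calc _ ≤ 2 * S * (S / 2)⁻¹ := mul_le_mul_of_nonneg_left (by linarith) (by positivity)
      _ = 4 := by field_simp; norm_num
  · rw [max_eq_right h] at a1
    calc (1 : ℝ) = 2 * S * (S⁻¹ - (4 * S / 2)⁻¹) := by field_simp; norm_num
      _ ≤ _ := mul_le_mul_of_nonneg_left (by linarith) (by positivity)
  · rw [max_eq_left (by linarith)] at a1 a2 b1 b2
    rw [le_antisymm a2 a1, le_antisymm b2 b1, sub_self, mul_zero]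

lemma trans_bumpT (h2 : St_shell) (h3 : St_cs) (h4 : St_ker) (hρ : LL ρ) (hw : Wt ϑ ℓ b b₀ δ)
    (hD : Dv ϑ ℓ X ρ ≤ D) {S : ℝ} (hS : 0 < S) (c : E3) :
    TransT ρ ϑ ℓ X (fun y => transB S ‖y - c‖) (2 * S * (2 * √(D / S) + 2 * √(D / (4 * S)))) :=
  ((trans_shell h2 h3 h4 hρ hw hD hS c).sub
    (trans_shell h2 h3 h4 hρ hw hD (by positivity : 0 < 4 * S) c)).smul (by positivity)

lemma trans_a (h2 : St_shell) (h3 : St_cs) (h4 : St_ker) (hρ : LL ρ) (h0 : ∀ y, 0 ≤ ρ y)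
    (hw : Wt ϑ ℓ b b₀ δ) (hδ : δ ≤ 1 / 8) (hD : Dv ϑ ℓ X ρ ≤ D) {R : ℝ} (hR : 0 < R) :
    ∑ j, (if ‖X j‖ < R then ϑ (X j) else 0) ≤ N1 ρ + 24 * √(R * D) := by
  have hD0 := trans_D_nonneg h3 h4 hρ hw hD
  have k5 := (h2.1 (4 * R) (by positivity)).2.2.2.2
  have u0 : (4 * R)⁻¹ ≤ Ub (4 * R) 0 := by
    have := (k5 0 le_rfl).1
    rwa [max_eq_right (by positivity)] at this
  have u1 : 0 < Ub (4 * R) 0 := lt_of_lt_of_le (by positivity) u0
  have T := (trans_shell h2 h3 h4 hρ hw hD (by positivity : 0 < 4 * R) 0).smul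
    (inv_nonneg.2 u1.le)
  have l1 := T.lower h4 hw (fun j => if ‖X j‖ < R then 1 else 0) fun j y hy => by
    rw [sub_zero]
    split_ifs with h
    · rw [(k5 _ (norm_nonneg y)).2.2.2 ?_, inv_mul_cancel₀ u1.ne']
      have := norm_le_norm_add_norm_sub' y (X j)
      nlinarith [norm_nonneg (X j)]
    · exact mul_nonneg (inv_nonneg.2 u1.le) (le_trans (by positivity) (k5 _ (norm_nonneg y)).1)
  have l2 := (HI.of T.i1).le (hρ.HN' h0) (Eventually.of_forall fun y => by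
    refine mul_le_of_le_one_right (h0 y) ?_
    rw [inv_mul_le_iff₀ u1, mul_one]
    exact (k5 _ (norm_nonneg _)).2.2.1)
  have l3 : (Ub (4 * R) 0)⁻¹ * (2 * √(D / (4 * R))) ≤ 4 * R * (2 * (1 * √(D / R))) :=
    mul_le_mul ((inv_le_comm₀ u1 (by positivity)).2 u0) (mul_le_mul_of_nonneg_left
      (trans_sqrt hD0 hR (by positivity) zero_le_one (by linarith)) (by norm_num))
      (by positivity) (by positivity)
  have l4 := trans_sqrt' (D := D) hR
  simp only [mul_ite, mul_one, mul_zero] at l1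
  nlinarith [Real.sqrt_nonneg (R * D)]

lemma trans_b (h2 : St_shell) (h3 : St_cs) (h4 : St_ker) (hρ : LL ρ) (h0 : ∀ y, 0 ≤ ρ y)
    (hw : Wt ϑ ℓ b b₀ δ) (hδ : δ ≤ 1 / 8) (hD : Dv ϑ ℓ X ρ ≤ D) {R : ℝ} (hR : 0 < R) :
    ∑ j, (if R ≤ ‖X j‖ then ϑ (X j) * ‖X j‖⁻¹ else 0) ≤
      24 * (∫ y in {y | R / 16 ≤ ‖y‖}, ρ y * (max R ‖y‖)⁻¹) + 24 * √(D / R) := by
  have hD0 := trans_D_nonneg h3 h4 hρ hw hD
  have ka := (h2.1 (R / 2) (by positivity)).2.2.2.2
  have kb := (h2.1 (R / 8) (by positivity)).2.2.2.2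
  have a0 : Ub (R / 2) 0 ≤ 4 / R := by
    have := (ka 0 le_rfl).2.1
    rw [max_eq_right (by positivity)] at this
    exact this.trans (le_of_eq (by field_simp; norm_num))
  have a1 : 0 ≤ Ub (R / 2) 0 := le_trans (by positivity) (ka 0 le_rfl).1
  have b0 : 8 / R ≤ Ub (R / 8) 0 := by
    have := (kb 0 le_rfl).1
    rwa [max_eq_right (by positivity), inv_div] at this
  have b1 : 0 < Ub (R / 8) 0 := lt_of_lt_of_le (by positivity) b0
  set th := Ub (R / 2) 0 / Ub (R / 8) 0 with hth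
  have t0 : 0 ≤ th := div_nonneg a1 b1.le
  have t1 : th ≤ 1 / 2 := by
    rw [hth, div_le_iff₀ b1]
    have : 4 / R = 1 / 2 * (8 / R) := by ring
    linarith
  have t2 : th * Ub (R / 8) 0 = Ub (R / 2) 0 := div_mul_cancel₀ _ b1.ne'
  have T := (trans_shell h2 h3 h4 hρ hw hD (by positivity : 0 < R / 2) 0).sub
    ((trans_shell h2 h3 h4 hρ hw hD (by positivity : 0 < R / 8) 0).smul t0)
  have far : ∀ t, R / 8 ≤ t → th * Ub (R / 8) t ≤ (2 * t)⁻¹ := fun t ht => by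
    have h := (kb t (le_trans (by positivity) ht)).2.1
    rw [max_eq_left (by linarith)] at h
    have : 0 < t := lt_of_lt_of_le (by positivity) ht
    calc _ ≤ th * t⁻¹ := mul_le_mul_of_nonneg_left h t0
      _ ≤ 1 / 2 * t⁻¹ := mul_le_mul_of_nonneg_right t1 (by positivity)
      _ = _ := by field_simp
  have l1 := T.lower h4 hw (fun j => if R ≤ ‖X j‖ then 4⁻¹ * ‖X j‖⁻¹ else 0) fun j y hy => by
    rw [sub_zero]
    have n1 := norm_le_norm_add_norm_sub' y (X j)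
    have n2 := norm_le_norm_add_norm_sub (X j) y
    have n3 := norm_le_norm_add_norm_sub y (X j)
    have n0 := norm_nonneg y
    split_ifs with h
    · have m1 : R / 2 ≤ ‖y‖ := by nlinarith
      have m2 : ‖y‖ ≤ 2 * ‖X j‖ := by nlinarith
      have m3 := (ka _ n0).1
      rw [max_eq_left m1] at m3
      have m4 := far ‖y‖ (by linarith)
      have m0 : 0 < ‖y‖ := lt_of_lt_of_le (by positivity) m1
      have m5 : 4⁻¹ * ‖X j‖⁻¹ ≤ (2 * ‖y‖)⁻¹ := by
        rw [← mul_inv]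
        exact inv_anti₀ (by positivity) (by linarith)
      have m6 : ‖y‖⁻¹ = (2 * ‖y‖)⁻¹ + (2 * ‖y‖)⁻¹ := by field_simp; norm_num
      linarith
    · rcases le_total ‖y‖ (R / 2 / 2) with h' | h'
      · rw [(ka _ n0).2.2.2 h', ← t2]
        exact sub_nonneg.2 (mul_le_mul_of_nonneg_left (kb _ n0).2.2.1 t0)
      · have m4 := far ‖y‖ (by linarith)
        have m5 : (2 * ‖y‖)⁻¹ ≤ (max ‖y‖ (R / 2))⁻¹ :=
          inv_anti₀ (by positivity) (max_le (by linarith) (by linarith))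
        linarith [(ka _ n0).1]
  have ms : MeasurableSet {y : E3 | R / 16 ≤ ‖y‖} :=
    measurableSet_le measurable_const (by fun_prop)
  have i1 : Integrable fun y => ρ y * (max R ‖y‖)⁻¹ :=
    hρ.int.mul_bdd (c := R⁻¹) (by fun_prop : Measurable fun y : E3 =>
      (max R ‖y‖)⁻¹).aestronglyMeasurable (Eventually.of_forall fun y => by
        rw [Real.norm_of_nonneg (by positivity)]
        exact inv_anti₀ hR (le_max_left _ _))
  have l2 := (HI.of T.i1).le ((HI.of (i1.indicator ms)).const_mul 4)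
    (Eventually.of_forall fun y => by
      rw [sub_zero]
      have n0 := norm_nonneg y
      by_cases h : y ∈ {y : E3 | R / 16 ≤ ‖y‖}
      · rw [indicator_of_mem h, mul_left_comm]
        refine mul_le_mul_of_nonneg_left ?_ (h0 y)
        have m1 : 0 ≤ th * Ub (R / 8) ‖y‖ := mul_nonneg t0 (le_trans (by positivity) (kb _ n0).1)
        have m2 : (max ‖y‖ (R / 2 / 2))⁻¹ ≤ 4 * (max R ‖y‖)⁻¹ := by
          rw [← div_eq_mul_inv, ← inv_div (max R ‖y‖) 4]
          refine inv_anti₀ (by positivity) ?_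
          rw [div_le_iff₀ (by norm_num)]
          exact max_le (by linarith [le_max_right ‖y‖ (R / 2 / 2)])
            (by linarith [le_max_left ‖y‖ (R / 2 / 2)])
        linarith [(ka _ n0).2.1]
      · have h' : ‖y‖ < R / 16 := not_le.1 h
        rw [indicator_of_notMem h, (ka _ n0).2.2.2 (by linarith), (kb _ n0).2.2.2 (by linarith),
          t2, sub_self, mul_zero, mul_zero])
  rw [integral_indicator ms] at l2
  have l3 := trans_sqrt hD0 hR (by positivity : 0 < R / 2) (k := 3 / 2) (by norm_num)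
    (by linarith)
  have l4 := trans_sqrt hD0 hR (by positivity : 0 < R / 8) (k := 3) (by norm_num) (by linarith)
  have l5 : th * (2 * √(D / (R / 8))) ≤ 1 / 2 * (2 * √(D / (R / 8))) :=
    mul_le_mul_of_nonneg_right t1 (by positivity)
  have l6 : 0 ≤ ∫ y in {y | R / 16 ≤ ‖y‖}, ρ y * (max R ‖y‖)⁻¹ :=
    integral_nonneg fun y => mul_nonneg (h0 y) (by positivity)
  have e : ∑ j, (if R ≤ ‖X j‖ then ϑ (X j) * ‖X j‖⁻¹ else 0) =
      4 * ∑ j, ϑ (X j) * if R ≤ ‖X j‖ then 4⁻¹ * ‖X j‖⁻¹ else 0 := by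
    rw [Finset.mul_sum]
    refine Finset.sum_congr rfl fun j _ => ?_
    split_ifs <;> ring
  rw [e]
  linarith

lemma trans_c (h1 : St_harm) (h2 : St_shell) (h3 : St_cs) (h4 : St_ker) (hρ : LL ρ)
    (hw : Wt ϑ ℓ b b₀ δ) (hD : Dv ϑ ℓ X ρ ≤ D) {R : ℝ} (hR : 0 < R) :
    ∫ y, ρ y * Ub R ‖y‖ ≤ ∑ j, ϑ (X j) * Ub R ‖X j‖ + 24 * √(D / R) := by
  have T := (abs_le.1 (trans_shell h2 h3 h4 hρ hw hD hR 0).le).1
  obtain ⟨k1, k2, -, k4, -⟩ := h2.1 R hR
  have l : ∑ j, ϑ (X j) * (∫ y, gam (ℓ (X j)) ‖y - X j‖ * Ub R ‖y - 0‖) ≤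
      ∑ j, ϑ (X j) * Ub R ‖X j‖ := Finset.sum_le_sum fun j _ => by
    refine mul_le_mul_of_nonneg_left ?_ (hw.nn _)
    obtain ⟨C, -, h4⟩ := h4
    obtain ⟨-, -, -, g1, g2, g3, -⟩ := h4 _ (hw.lp (X j))
    have := h1.2.2.2.1 _ _ _ (X j) (k1.ll 0) (fun y => k2 _) g1 g2
    simp only [k4, g3, one_mul] at this
    simpa only [sub_zero] using this
  simp only [sub_zero] at T l
  linarith [Real.sqrt_nonneg (D / R)]

lemma trans_near (hδ : δ ≤ 1 / 8) {R : ℝ} {p x y : E3} (hp : δ * ‖p‖ ≤ R / 4)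
    (hR : 0 < R) (hy : ‖y - x‖ ≤ δ * ‖x‖) : ‖y - x‖ ≤ R / 4 + ‖x - p‖ / 8 := by
  have n1 := norm_le_norm_add_norm_sub' x p
  have n2 := norm_nonneg (x - p)
  rcases le_total 0 δ with h | h
  · nlinarith
  · nlinarith [norm_nonneg x]

lemma trans_d (h2 : St_shell) (h3 : St_cs) (h4 : St_ker) (hρ : LL ρ) (h0 : ∀ y, 0 ≤ ρ y)
    (hw : Wt ϑ ℓ b b₀ δ) (hδ : δ ≤ 1 / 8) (hD : Dv ϑ ℓ X ρ ≤ D) {R : ℝ} (hR : 0 < R) {p : E3}
    (hp : δ * ‖p‖ ≤ R / 4) : ∑ j, (if ‖X j - p‖ < R then ϑ (X j) else 0) ≤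
      4 * (∫ y in ball p (8 * R), ρ y) + 24 * √(R * D) := by
  have hD0 := trans_D_nonneg h3 h4 hρ hw hD
  have hS : 0 < 2 * R := by positivity
  have T := trans_bumpT h2 h3 h4 hρ hw hD hS p
  have l1 := T.lower h4 hw (fun j => if ‖X j - p‖ < R then 1 else 0) fun j y hy => by
    have k := trans_bump h2 hS (norm_nonneg (y - p))
    split_ifs with h
    · have := trans_near hδ hp hR hy
      have := norm_sub_le_norm_sub_add_norm_sub y (X j) p
      exact k.2.2.1 (by linarith)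
    · exact k.1
  have l2 := (HI.of T.i1).le ((HI.of (hρ.int.indicator (measurableSet_ball (x := p)
    (ε := 8 * R)))).const_mul 4) (Eventually.of_forall fun y => by
      have k := trans_bump h2 hS (norm_nonneg (y - p))
      by_cases h : y ∈ ball p (8 * R)
      · rw [indicator_of_mem h, mul_comm]
        exact mul_le_mul_of_nonneg_right k.2.1 (h0 y)
      · rw [mem_ball_iff_norm, not_lt] at h
        rw [k.2.2.2 (by linarith), mul_zero]
        exact mul_nonneg (by norm_num) (indicator_nonneg (fun y _ => h0 y) y))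
  rw [integral_indicator measurableSet_ball] at l2
  have l3 := trans_sqrt hD0 hR hS zero_le_one (by linarith)
  have l4 := trans_sqrt hD0 hR (by positivity : 0 < 4 * (2 * R)) zero_le_one (by linarith)
  have l5 := trans_sqrt' (D := D) hR
  simp only [mul_ite, mul_one, mul_zero] at l1
  nlinarith [Real.sqrt_nonneg (R * D)]

lemma trans_e (h2 : St_shell) (h3 : St_cs) (h4 : St_ker) (hρ : LL ρ) (h0 : ∀ y, 0 ≤ ρ y)
    (hw : Wt ϑ ℓ b b₀ δ) (hδ : δ ≤ 1 / 8) (hD : Dv ϑ ℓ X ρ ≤ D) {R : ℝ} (hR : 0 < R) {p : E3}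
    (hp : δ * ‖p‖ ≤ R / 4) :
    ∫ y in ball p (R / 8), ρ y ≤ 4 * cnt (ball p R) X + 24 * √(R * D) := by
  have hD0 := trans_D_nonneg h3 h4 hρ hw hD
  have hS : 0 < R / 8 := by positivity
  have T := trans_bumpT h2 h3 h4 hρ hw hD hS p
  have l1 := T.upper h4 hw (fun j => 4 * indicator (ball p R) (fun _ => (1 : ℝ)) (X j))
    fun j y hy => by
      have k := trans_bump h2 hS (norm_nonneg (y - p))
      by_cases h : X j ∈ ball p R
      · rw [indicator_of_mem h, mul_one]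
        exact k.2.1
      · rw [indicator_of_notMem h, mul_zero]
        rw [mem_ball_iff_norm, not_lt] at h
        have := trans_near hδ hp hR hy
        have := norm_sub_le_norm_sub_add_norm_sub (X j) y p
        rw [norm_sub_rev (X j) y] at this
        exact (k.2.2.2 (by linarith)).le
  have l2 := (HI.of (hρ.int.indicator (measurableSet_ball (x := p) (ε := R / 8)))).le
    (HI.of T.i1) (Eventually.of_forall fun y => by
      have k := trans_bump h2 hS (norm_nonneg (y - p))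
      by_cases h : y ∈ ball p (R / 8)
      · rw [indicator_of_mem h]
        exact le_mul_of_one_le_right (h0 y) (k.2.2.1 (mem_ball_iff_norm.1 h).le)
      · rw [indicator_of_notMem h]
        exact mul_nonneg (h0 y) k.1)
  rw [integral_indicator measurableSet_ball] at l2
  have l0 : ∑ j, ϑ (X j) * (4 * indicator (ball p R) (fun _ => (1 : ℝ)) (X j)) ≤
      4 * cnt (ball p R) X := by
    rw [cnt, Finset.mul_sum]
    exact Finset.sum_le_sum fun j _ => mul_le_of_le_one_left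
      (mul_nonneg (by norm_num) (indicator_nonneg (fun _ _ => zero_le_one) _)) (hw.le _)
  have l3 := trans_sqrt hD0 hR hS (k := 3) (by norm_num) (by linarith)
  have l4 := trans_sqrt hD0 hR (by positivity : 0 < 4 * (R / 8)) (k := 3) (by norm_num)
    (by linarith)
  have l5 := trans_sqrt' (D := D) hR
  nlinarith [Real.sqrt_nonneg (R * D)]

end TRANS

theorem st_trans (h1 : St_harm) (h2 : St_shell) (h3 : St_cs) (h4 : St_ker) : St_trans :=
  ⟨24, by norm_num, fun _ _ _ _ _ _ _ _ _ _ _ _ hρ h0 hw hδ hD hR =>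
    ⟨trans_a h2 h3 h4 hρ h0 hw hδ hD hR, trans_b h2 h3 h4 hρ h0 hw hδ hD hR,
      trans_c h1 h2 h3 h4 hρ hw hD hR, fun _ hp =>
        ⟨trans_d h2 h3 h4 hρ h0 hw hδ hD hR hp, trans_e h2 h3 h4 hρ h0 hw hδ hD hR hp⟩⟩⟩

end Pool.Agent.Lib.ION
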