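import Pool.Agent.Lib.ION.Basic

/-!
# The ionization bound for ground states: the upper bound with a prescribed outer density
-/

open MeasureTheory Set Metric Real Filter Topology
open scoped ContDiff ComplexConjugate

noncomputable section

namespace Pool.Agent.Lib.ION

open Pool.Agent.Lib.MP_689e73_mp

lemma up_psi_mono {σ τ : E3 → ℝ} (hσ : LL σ) (hτ : LL τ) (h : ∀ y, σ y ≤ τ y) (x : E3) :
    psi σ x ≤ psi τ x :=
  (hσ.Hpsi x).le (hτ.Hpsi x) (Eventually.of_forall fun y =>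
    mul_le_mul_of_nonneg_left (h y) (by positivity))

lemma up_DD_le {σ τ : E3 → ℝ} (hσ : LL σ) (hτ : LL τ) (h0 : ∀ y, 0 ≤ σ y) (h1 : ∀ y, 0 ≤ τ y)
    (h : ∀ x, psi σ x ≤ psi τ x) : DD σ σ ≤ DD τ τ := by
  have a1 : DD σ σ ≤ DD σ τ := (hσ.HD hσ).le (hσ.HD hτ) (Eventually.of_forall fun y =>
    mul_le_mul_of_nonneg_left (h y) (h0 y))
  have a2 : DD τ σ ≤ DD τ τ := (hτ.HD hσ).le (hτ.HD hτ) (Eventually.of_forall fun y =>
    mul_le_mul_of_nonneg_left (h y) (h1 y))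
  rw [DD_symm hσ hτ] at a1
  exact a1.trans a2

lemma up_int_k1 {u : E3 → ℂ} (h : Sm u) : Integrable (k1 u) := by
  have h1 := h.smooth.continuous_fderiv (by simp)
  refine integrable_finsetSum _ fun a _ => Continuous.integrable_of_hasCompactSupport
    (by fun_prop) ?_
  refine (h.cpt.fderiv ℝ).mono fun y hy h0 => hy ?_
  simp only [h0]
  simp

/-- the smeared density -/
def upS (γ : ℝ → ℝ) (ρ : E3 → ℝ) (y : E3) : ℝ := ∫ u, ρ u * γ ‖y - u‖

section

variable {γ : ℝ → ℝ} {s : ℝ} {ρ : E3 → ℝ}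

lemma up_int (hγ : Rad γ s) (hρ : Dens ρ) (y : E3) : Integrable fun u => ρ u * γ ‖y - u‖ := by
  obtain ⟨B, hB⟩ := hγ.bd.bdd
  exact hρ.ll.int.mul_bdd (c := B) (hγ.bd.meas.comp (by fun_prop)).aestronglyMeasurable
    (Eventually.of_forall fun u => hB _)

lemma up_zero (hγ : Rad γ s) {y : E3} (h : ∀ u, ρ u ≠ 0 → s < ‖y - u‖) : upS γ ρ y = 0 := by
  refine integral_eq_zero_of_ae (Eventually.of_forall fun u => ?_)
  by_cases h0 : ρ u = 0
  · simp [h0]
  · simp [hγ.supp _ (h u h0)]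

lemma up_meas2 (hγ : Rad γ s) (hρ : Dens ρ) :
    Measurable fun p : E3 × E3 => ρ p.2 * γ ‖p.1 - p.2‖ :=
  (hρ.bd.meas.comp measurable_snd).mul (hγ.bd.meas.comp (by fun_prop))

lemma up_dens (hγ : Rad γ s) (h0 : ∀ t, 0 ≤ γ t) (hρ : Dens ρ) : Dens (upS γ ρ) := by
  have nn : ∀ y, 0 ≤ upS γ ρ y := fun y => integral_nonneg fun u => mul_nonneg (hρ.nn u) (h0 _)
  obtain ⟨B, hB⟩ := hγ.bd.bdd
  obtain ⟨L, hL⟩ := hρ.supp
  refine ⟨⟨(up_meas2 hγ hρ).stronglyMeasurable.integral_prod_right'.measurable,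
    ∫ u, ρ u * B, fun y => ?_⟩, nn, L + s, fun y hy => up_zero hγ fun u hu => ?_⟩
  · rw [abs_of_nonneg (nn y)]
    exact integral_mono (up_int hγ hρ y) (hρ.ll.int.mul_const B) fun u =>
      mul_le_mul_of_nonneg_left ((le_abs_self _).trans (hB _)) (hρ.nn u)
  · have h1 : ‖u‖ ≤ L := not_lt.1 fun h => hu (hL u h)
    linarith [norm_sub_norm_le y u]

lemma up_fubini (hγ : Rad γ s) (h0 : ∀ t, 0 ≤ γ t) (hρ : Dens ρ) (x : E3) :
    HI (fun u => ρ u * ∫ y, γ ‖y - u‖ * ‖y - x‖⁻¹) (psi (upS γ ρ) x) := by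
  have hi : Integrable (fun p : E3 × E3 => ‖x - p.1‖⁻¹ * (ρ p.2 * γ ‖p.1 - p.2‖))
      (volume.prod volume) := by
    have hm : Measurable fun p : E3 × E3 => ‖x - p.1‖⁻¹ * (ρ p.2 * γ ‖p.1 - p.2‖) :=
      ((measurable_ker x).comp measurable_fst).mul (up_meas2 hγ hρ)
    rw [integrable_prod_iff hm.aestronglyMeasurable]
    refine ⟨Eventually.of_forall fun y => (up_int hγ hρ y).const_mul ‖x - y‖⁻¹, ?_⟩
    refine ((up_dens hγ h0 hρ).ll.psi_int x).congr (Eventually.of_forall fun y => ?_)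
    simp only [upS]
    rw [← integral_const_mul]
    refine integral_congr_ae (Eventually.of_forall fun u => ?_)
    exact (Real.norm_of_nonneg (mul_nonneg (by positivity) (mul_nonneg (hρ.nn u) (h0 _)))).symm
  have e : ∀ u, ∫ y, ‖x - y‖⁻¹ * (ρ u * γ ‖y - u‖) = ρ u * ∫ y, γ ‖y - u‖ * ‖y - x‖⁻¹ := fun u => by
    rw [← integral_const_mul]
    refine integral_congr_ae (Eventually.of_forall fun y => ?_)
    simp only [norm_sub_rev x y]
    ring
  refine ⟨hi.integral_prod_right.congr (Eventually.of_forall e), ?_⟩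
  rw [← integral_congr_ae (Eventually.of_forall e), ← integral_integral_swap hi]
  refine integral_congr_ae (Eventually.of_forall fun y => ?_)
  simp only [upS]
  rw [integral_const_mul]

lemma up_psi_le (h4 : St_harm) (hγ : Rad γ s) (h0 : ∀ t, 0 ≤ γ t) (h1 : ∫ y : E3, γ ‖y‖ = 1)
    (hρ : Dens ρ) (x : E3) : psi (upS γ ρ) x ≤ psi ρ x := by
  refine (up_fubini hγ h0 hρ x).le (hρ.ll.Hpsi x) ?_
  filter_upwards [ae_ne x] with u hu
  have h2 := h4.2.2.1 γ s u x hγ h0 hu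
  rw [h1, one_mul, norm_sub_rev] at h2
  rw [mul_comm _ (ρ u)]
  exact mul_le_mul_of_nonneg_left h2 (hρ.nn u)

lemma up_psi_zero (h4 : St_harm) (hγ : Rad γ s) (h0 : ∀ t, 0 ≤ γ t) (h1 : ∫ y : E3, γ ‖y‖ = 1)
    (hρ : Dens ρ) (hs : ∀ u, ρ u ≠ 0 → s < ‖u‖) : psi (upS γ ρ) 0 = psi ρ 0 := by
  refine (up_fubini hγ h0 hρ 0).eq (hρ.ll.Hpsi 0) (Eventually.of_forall fun u => ?_)
  by_cases hu : ρ u = 0
  · simp [hu]
  · have h2 := (h4.1 0).mv u s γ (fun z hz h => by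
      rw [mem_singleton_iff.1 h, mem_closedBall, dist_zero_left] at hz
      exact absurd (hs u hu) (not_lt.2 hz)) hγ
    simp only [h2, h1, one_mul, norm_sub_rev u 0, mul_comm]

end

theorem st_up (h1 : St_coh) (h2 : St_frame) (h3 : St_upfin) (h4 : St_harm) (h5 : St_ker) :
    St_up := by
  obtain ⟨C, hC, h1⟩ := h1
  obtain ⟨C', -, h5⟩ := h5
  refine ⟨C, hC, fun Z E hZ hE ι _ _ ψ a s ρ hψ hs ha hsup hρ hρ0 => ?_⟩
  obtain ⟨-, -, -, hγ, hγ0, hγ1, -⟩ := h5 s hs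
  have hS := up_dens hγ hγ0 hρ
  obtain ⟨L, hL⟩ := hS.supp
  have hfar : ∀ u, ρ u ≠ 0 → a + 2 * s ≤ ‖u‖ := fun u hu => not_lt.1 fun h => hu (hρ0 u h)
  have hN := Nm_nonneg ψ
  have hP : 0 ≤ psi (chi (L + 1)) 0 := psi_nonneg (chi_nonneg _) 0
  refine le_of_forall_pos_le_add fun ε hε => ?_
  have hM : 0 < Nm ψ * (Z * psi (chi (L + 1)) 0) + 1 := by positivity
  obtain ⟨m, f, f1, f2, f3, f4, f5⟩ := h1 ρ s _ hρ hs (div_pos hε hM)
  obtain ⟨g, g1, g2, g3, g4, g5⟩ := h2 m f f1 f2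
  have hle : ∀ y, ∑ i, ‖g i y‖ ^ 2 ≤ upS (gam s) ρ y := fun y => (g4 y).trans_le (f3 y)
  have hnn : ∀ y, 0 ≤ ∑ i, ‖g i y‖ ^ 2 := fun y => by positivity
  have hcont : Continuous fun y => ∑ i, ‖g i y‖ ^ 2 :=
    continuous_finsetSum _ fun i _ => (g1 i).cont.norm.pow 2
  have hf : LL fun y => ∑ i, ‖g i y‖ ^ 2 := by
    obtain ⟨B, hB⟩ := hS.bd.bdd
    refine Dens.ll ⟨⟨hcont.measurable, B, fun y => ?_⟩, hnn, L, fun y hy =>
      le_antisymm ((hle y).trans_eq (hL y hy)) (hnn y)⟩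
    rw [abs_of_nonneg (hnn y)]
    exact (hle y).trans ((le_abs_self _).trans (hB y))
  have hpsi : ∀ x, psi (fun y => ∑ i, ‖g i y‖ ^ 2) x ≤ psi ρ x := fun x =>
    (up_psi_mono hf hS.ll hle x).trans (up_psi_le h4 hγ hγ0 hγ1 hρ x)
  have key := h3 Z E hE m g g1 g2 g3 ι ψ hψ fun i j X => ?_
  swap
  · refine integral_eq_zero_of_ae (Eventually.of_forall fun y => ?_)
    by_cases h0 : ψ (Function.update X j y) = 0
    · simp [h0]
    · have hy := hsup _ h0 j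
      rw [Function.update_self] at hy
      have h6 := (hle y).trans_eq (up_zero hγ fun u hu => by
        linarith [hfar u hu, norm_sub_norm_le u y, norm_sub_rev u y])
      have h7 := (Finset.single_le_sum (f := fun i => ‖g i y‖ ^ 2) (fun i _ => by positivity)
        (Finset.mem_univ i)).trans h6
      have h8 : g i y = 0 := norm_eq_zero.1 (pow_eq_zero_iff two_ne_zero |>.1
        (le_antisymm h7 (by positivity)))
      simp [h8]
  have loc : ∀ σ : E3 → ℝ, LL σ → LocallyIntegrable fun X : Cfg ι => ∑ j, psi σ (X j) :=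
    fun σ hσ => (continuous_finsetSum _ fun j _ =>
      hσ.continuous_psi.comp (continuous_apply j)).locallyIntegrable
  have a1 := Ex_mono hψ.sm (loc _ hf) (loc _ hρ.ll) fun X _ =>
    Finset.sum_le_sum fun j _ => hpsi (X j)
  have a2 : ∑ i, ∫ y, k1 (g i) y = ∑ i, ∫ y, k1 (f i) y := by
    rw [← integral_finsetSum _ fun i _ => up_int_k1 (g1 i),
      ← integral_finsetSum _ fun i _ => up_int_k1 (f1 i)]
    exact integral_congr_ae (Eventually.of_forall g5)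
  have a3 := up_DD_le hf hρ.ll hnn hρ.nn hpsi
  have a4 : psi ρ 0 ≤ psi (fun y => ∑ i, ‖g i y‖ ^ 2) 0 +
      ε / (Nm ψ * (Z * psi (chi (L + 1)) 0) + 1) * psi (chi (L + 1)) 0 := by
    rw [← psi_comb hf (LL_chi _), ← up_psi_zero h4 hγ hγ0 hγ1 hρ fun u hu => by
      linarith [hfar u hu]]
    refine up_psi_mono hS.ll (hf.add ((LL_chi _).const_mul _)) (fun y => ?_) 0
    by_cases hy : L < ‖y‖
    · rw [hL y hy]
      exact add_nonneg (hnn y) (mul_nonneg (div_pos hε hM).le (chi_nonneg _ _))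
    · have : chi (L + 1) y = 1 :=
        indicator_of_mem (mem_ball_zero_iff.2 (by linarith [not_lt.1 hy])) _
      rw [this, mul_one, g4 y]
      exact sub_le_iff_le_add.1 (f4 y)
  have a5 : Nm ψ * (Z * (ε / (Nm ψ * (Z * psi (chi (L + 1)) 0) + 1) * psi (chi (L + 1)) 0)) ≤ ε := by
    rw [show ∀ t, Nm ψ * (Z * (t * psi (chi (L + 1)) 0)) =
      t * (Nm ψ * (Z * psi (chi (L + 1)) 0)) from fun t => by ring, div_mul_eq_mul_div,
      div_le_iff₀ hM]
    nlinarith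
  have a6 := mul_le_mul_of_nonneg_left (add_le_add (a2.trans_le f5)
    (mul_le_mul_of_nonneg_left a4 hZ)) hN
  have a7 := mul_le_mul_of_nonneg_left a3 hN
  unfold EQ
  generalize ε / (Nm ψ * (Z * psi (chi (L + 1)) 0) + 1) = t at a5 a6
  linarith

end Pool.Agent.Lib.ION
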