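import Pool.Agent.Lib.ION.Basic

/-!
# Adding finitely many orbitals, and monotonicity of the energy in the particle number
-/

open MeasureTheory Set Metric Real Filter Topology
open scoped ContDiff ComplexConjugate

noncomputable section

namespace Pool.Agent.Lib.ION

open Pool.Agent.Lib.MP_689e73_mp

lemma upfin_ll {e : E3 → ℂ} (h : Sm e) : LL fun y => ‖e y‖ ^ 2 := by
  have h1 : Continuous fun y => ‖e y‖ ^ 2 := h.cont.norm.pow 2
  have h2 : HasCompactSupport fun y => ‖e y‖ ^ 2 :=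
    h.cpt.comp_left (g := fun z : ℂ => ‖z‖ ^ 2) (by simp)
  exact ⟨h1.measurable, h1.integrable_of_hasCompactSupport h2, h1.memLp_of_hasCompactSupport h2⟩

lemma upfin_loc {ι : Type} [Fintype ι] {ρ : E3 → ℝ} (h : LL ρ) :
    LocallyIntegrable fun X : Cfg ι => ∑ j, psi ρ (X j) := by
  have := h.continuous_psi
  exact Continuous.locallyIntegrable (by fun_prop)

theorem st_upfin (h1 : St_wedge) (_h2 : St_cs) : St_upfin := by
  intro Z E hE m
  induction m with
  | zero =>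
    intro g _ _ _ ι _ _ ψ hψ _
    simpa [psi, DD, Ex] using hE ι ψ hψ
  | succ m ih =>
    intro g hg ho hn ι _ _ ψ hψ ha
    obtain ⟨Θ, t1, t2, t3, t4, t5⟩ := h1 ι Z ψ (g 0) hψ (hg 0) (ha 0)
    have ho' : ∀ i j : Fin m, i ≠ j → ∫ y, conj (g i.succ y) * g j.succ y = 0 :=
      fun i j h => ho _ _ fun k => h (Fin.succ_injective _ k)
    have i1 := ih (fun i => g i.succ) (fun i => hg _) ho' (fun i => hn _) ι ψ hψ fun i => ha _
    have i2 := ih (fun i => g i.succ) (fun i => hg _) ho' (fun i => hn _) (Option ι) Θ t1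
      fun i => t5 _ (hg _) (ho _ _ (Fin.succ_ne_zero i)) (ha _)
    have l0 := upfin_ll (hg 0)
    have l1 : LL fun y => ∑ i : Fin m, ‖g i.succ y‖ ^ 2 := LL_sum _ fun i _ => upfin_ll (hg _)
    rw [t2, t4 _ l1.continuous_psi] at i2
    have e1 : ∫ y, psi (fun y => ∑ i : Fin m, ‖g i.succ y‖ ^ 2) y * ‖g 0 y‖ ^ 2 =
        DD (fun y => ‖g 0 y‖ ^ 2) fun y => ∑ i : Fin m, ‖g i.succ y‖ ^ 2 := by
      simp only [DD, mul_comm]
    have e2 := DD_expand l1 l0 1
    simp only [one_mul, mul_one, one_pow, add_comm (∑ i : Fin m, ‖g i.succ _‖ ^ 2)] at e2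
    have d0 : 0 ≤ DD (fun y => ‖g 0 y‖ ^ 2) fun y => ‖g 0 y‖ ^ 2 :=
      DD_nonneg (fun _ => by positivity) fun _ => by positivity
    simp only [Fin.sum_univ_succ, l0.psi_add l1, Finset.sum_add_distrib]
    rw [Ex_add hψ.sm (upfin_loc l0) (upfin_loc l1), e2]
    rw [e1] at i2
    have c0 : (0 : ℝ) < Fintype.card ι + 1 := by positivity
    have i3 := le_of_mul_le_mul_left (a := (Fintype.card ι + 1 : ℝ))
      (b := E * ((∫ y, ‖g 0 y‖ ^ 2) * Nm ψ))
      (c := (∫ y, ‖g 0 y‖ ^ 2) * En Z ψ +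
        Nm ψ * ((∫ y, k1 (g 0) y) - Z * psi (fun y => ‖g 0 y‖ ^ 2) 0) +
        Ex ψ (fun X => ∑ j, psi (fun y => ‖g 0 y‖ ^ 2) (X j)) +
        ((∫ y, ‖g 0 y‖ ^ 2) * Ex ψ (fun X => ∑ j, psi (fun y => ∑ i : Fin m, ‖g i.succ y‖ ^ 2) (X j))
          + Nm ψ * DD (fun y => ‖g 0 y‖ ^ 2) fun y => ∑ i : Fin m, ‖g i.succ y‖ ^ 2) +
        (∫ y, ‖g 0 y‖ ^ 2) * Nm ψ * (∑ i : Fin m, (∫ y, k1 (g i.succ) y) -
          Z * psi (fun y => ∑ i : Fin m, ‖g i.succ y‖ ^ 2) 0 +
          1 / 2 * DD (fun y => ∑ i : Fin m, ‖g i.succ y‖ ^ 2)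
            fun y => ∑ i : Fin m, ‖g i.succ y‖ ^ 2)) (by linarith) c0
    have i4 := mul_le_mul_of_nonneg_left i1 (sub_nonneg.2 (hn 0))
    have i5 := mul_nonneg (Nm_nonneg ψ) d0
    linarith

lemma upfin_k1 {u : E3 → ℝ} (hu : ContDiff ℝ ∞ u) (c y : E3) :
    k1 (fun y => (u (y - c) : ℂ)) y = g1 u (y - c) := by
  have h := Complex.ofRealCLM.hasFDerivAt.comp y
    ((hu.differentiable (by simp) (y - c)).hasFDerivAt.comp y ((hasFDerivAt_id y).sub_const c))
  have h' : fderiv ℝ (fun y => (u (y - c) : ℂ)) y = _ := h.fderiv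
  simp [k1, g1, h']

lemma upfin_step (h1 : St_wedge) (h2 : St_ker) {Z E : ℝ} {m : ℕ} (hZ : 0 ≤ Z)
    (h : LBc Z (m + 1) E) : LBc Z m E := by
  intro ι _ _ hc Φ hΦ
  obtain ⟨C, hC, hk⟩ := h2
  obtain ⟨L, hL, hs⟩ := hΦ.sm.supp_bound
  have key : ∀ s : ℝ, 1 ≤ s → E * Nm Φ ≤ En Z Φ + (m + 1) * C * Nm Φ / s := by
    intro s hs1
    have s0 : 0 < s := by linarith
    obtain ⟨k1', k2, k3, -, k5, k6, k7, k8⟩ := hk s s0
    set c : E3 := (s + L) • e1 0 with hcdef
    have nc : ‖c‖ = s + L := by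
      rw [hcdef, norm_smul, e1, EuclideanSpace.norm_single, norm_one, mul_one,
        Real.norm_of_nonneg (by linarith)]
    have sm : Sm fun y => (gs s (y - c) : ℂ) := by
      refine ⟨Complex.ofRealCLM.contDiff.comp (k1'.comp (contDiff_id.sub contDiff_const)),
        HasCompactSupport.intro (isCompact_closedBall c s) fun y hy => ?_⟩
      rw [k2 _ (le_of_lt (by simpa [mem_closedBall, dist_eq_norm] using hy)), Complex.ofReal_zero]
    have sq : ∀ y, ‖(gs s (y - c) : ℂ)‖ ^ 2 = gam s ‖y - c‖ := fun y => by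
      rw [Complex.norm_real, Real.norm_eq_abs, sq_abs, k3]
    obtain ⟨Θ, t1, t2, t3, -⟩ := h1 ι Z Φ _ hΦ sm fun j X => by
      refine (integral_congr_ae (Eventually.of_forall fun y => ?_)).trans (integral_zero _ _)
      by_cases hy : s ≤ ‖y - c‖
      · simp [k2 _ hy]
      · have : Φ (Function.update X j y) = 0 := by
          by_contra h0
          have a1 := hs _ h0 j
          rw [Function.update_self] at a1
          have a2 := norm_sub_norm_le c y
          rw [norm_sub_rev] at a2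
          linarith
        simp [this]
    have i := h (Option ι) (by rw [Fintype.card_option, hc]) Θ t1
    simp only [sq, upfin_k1 k1'] at t2 t3
    rw [integral_sub_right_eq_self (fun y : E3 => gam s ‖y‖) c, k6, one_mul, hc] at t2 t3
    rw [integral_sub_right_eq_self (g1 (gs s)) c] at t3
    have ll : LL fun y => gam s ‖y - c‖ := by simpa only [sq] using upfin_ll sm
    have b1 : Ex Φ (fun X => ∑ j, psi (fun y => gam s ‖y - c‖) (X j)) ≤ m * (C / s) * Nm Φ := by
      rw [← Ex_const]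
      refine Ex_mono hΦ.sm (upfin_loc ll) (locallyIntegrable_const _) fun X _ => ?_
      refine (Finset.sum_le_sum fun j _ => k8 c (X j)).trans ?_
      simp [hc]
    have b2 : 0 ≤ Z * psi (fun y => gam s ‖y - c‖) 0 :=
      mul_nonneg hZ (psi_nonneg (fun _ => k5 _) 0)
    have b3 : C / s ^ 2 ≤ C / s := div_le_div_of_nonneg_left hC.le s0 (by nlinarith)
    have b4 := mul_le_mul_of_nonneg_left (show (∫ y, g1 (gs s) y) -
      Z * psi (fun y => gam s ‖y - c‖) 0 ≤ C / s by linarith) (Nm_nonneg Φ)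
    rw [t2] at i
    have c0 : (0 : ℝ) < m + 1 := by positivity
    refine le_of_mul_le_mul_left ?_ c0
    have b5 := mul_le_mul_of_nonneg_left (add_le_add b4 b1) c0.le
    have e : (m + 1) * C * Nm Φ / s = Nm Φ * (C / s) + m * (C / s) * Nm Φ := by ring
    rw [e]
    linarith
  have lim : Tendsto (fun s : ℝ => En Z Φ + (m + 1) * C * Nm Φ / s) atTop (𝓝 (En Z Φ + 0)) :=
    tendsto_const_nhds.add (tendsto_const_nhds.div_atTop tendsto_id)
  rw [add_zero] at lim
  exact ge_of_tendsto lim ((eventually_ge_atTop 1).mono key)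

theorem st_mono (h1 : St_wedge) (h2 : St_ker) : St_mono := by
  intro Z E n m hZ hmn h
  induction hmn with
  | refl => exact h
  | step _ ih => exact ih (upfin_step h1 h2 hZ h)

end Pool.Agent.Lib.ION
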