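import Pool.Agent.Lib.ION.WEDGE2

/-!
# Adding an orbital to a state that it annihilates
-/

open MeasureTheory Set Metric Real Filter Topology
open scoped ContDiff ComplexConjugate

set_option linter.unusedSectionVars false

noncomputable section

namespace Pool.Agent.Lib.ION

open Pool.Agent.Lib.MP_689e73_mp

section Opt

variable {ι : Type} [Fintype ι] [DecidableEq ι] {Φ Ψ : Cfg ι → ℂ} {u e : E3 → ℂ}

lemma wedge_csq (hu : Sm u) : Continuous fun y => ‖u y‖ ^ 2 := hu.cont.norm.pow 2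

lemma wedge_ssq (hu : Sm u) : HasCompactSupport fun y => ‖u y‖ ^ 2 :=
  hu.cpt.comp_left (g := fun z : ℂ => ‖z‖ ^ 2) (by simp)

lemma wedge_LLsq (hu : Sm u) : LL fun y => ‖u y‖ ^ 2 := wedge_LL (wedge_csq hu) (wedge_ssq hu)

lemma wedge_one (hu : Sm u) (hΨ : Sm Ψ) :
    wB (fun _ => 1) (wP u Ψ) (wP u Ψ) = (∫ y, ‖u y‖ ^ 2) * Nm Ψ := by
  rw [wedge_diag (locallyIntegrable_const 1) hu hΨ]
  simp only [one_mul, Ex_const]

lemma wedge_nm (he : Sm e) (hΦ : Core Φ) (h0 : ∀ j X, ann e Φ j X = 0) :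
    Nm (wT e Φ) = (Fintype.card ι + 1) * ((∫ y, ‖e y‖ ^ 2) * Nm Φ) := by
  have h := fun j => wedge_V0 (locallyIntegrable_const 1) (g := fun _ => 1) (fun _ _ => rfl) he
    hΦ.sm he hΦ.sm j (h0 j)
  rw [← wB_one, wedge_form (wForm_B (locallyIntegrable_const 1) fun _ _ => rfl) he hΦ,
    wedge_one he hΦ.sm]
  simp only [h, Finset.sum_const_zero, sub_zero]

lemma wedge_W (he : Sm e) (hΦ : Core Φ) (h0 : ∀ j X, ann e Φ j X = 0) {W : E3 → ℝ}
    (hW : Continuous W) : Ex (wT e Φ) (fun X => ∑ j, W (X j)) =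
      (Fintype.card ι + 1) * ((∫ y, ‖e y‖ ^ 2) * Ex Φ (fun X => ∑ j, W (X j)) +
        Nm Φ * ∫ y, W y * ‖e y‖ ^ 2) := by
  have c0 : Continuous fun X : Cfg (Option ι) => ∑ j, W (X j) := by fun_prop
  have c1 : Continuous fun X : Cfg (Option ι) => W (X none) := by fun_prop
  have c2 : Continuous fun X : Cfg (Option ι) => ∑ j, W (X (some j)) := by fun_prop
  have c3 : Continuous fun X : Cfg ι => ∑ j, W (X j) := by fun_prop
  have sP := wedge_sm_P he hΦ.sm
  have h : ∀ j, wB (fun X => ∑ k, W (X k)) (wP e Φ)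
      (fun X => wP e Φ (X ∘ Equiv.swap none (some j))) = 0 := fun j => by
    simp only [Fintype.sum_option]
    rw [wB_add c1.locallyIntegrable c2.locallyIntegrable sP (wedge_sm_perm sP _),
      wedge_V0 c2.locallyIntegrable (g := fun X => ∑ j, W (X j)) (fun _ _ => rfl) he hΦ.sm he
        hΦ.sm j (h0 j),
      wedge_V1 j (c1.comp (wedgeP _).continuous).locallyIntegrable (g := fun X => W (X j))
        (fun _ _ => rfl) he hΦ.sm he hΦ.sm (h0 j), add_zero]
  rw [← wB_self, wedge_form (wForm_B c0.locallyIntegrable fun σ X =>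
    Equiv.sum_comp σ fun k => W (X k)) he hΦ, wedge_diag c0.locallyIntegrable he hΦ.sm]
  have i1 : Integrable fun y => W y * ‖e y‖ ^ 2 :=
    (hW.mul (wedge_csq he)).integrable_of_hasCompactSupport (wedge_ssq he).mul_left
  have e1 : ∀ X : Cfg ι, ∫ y, (∑ k, W (wX y X k)) * ‖e y‖ ^ 2 =
      (∫ y, ‖e y‖ ^ 2) * ∑ j, W (X j) + ∫ y, W y * ‖e y‖ ^ 2 := fun X => by
    simp only [Fintype.sum_option, wX_none, wX_some, add_mul]
    rw [integral_add i1 ((wedge_LLsq he).int.const_mul _), integral_const_mul]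
    ring
  simp only [h, e1, Finset.sum_const_zero, sub_zero]
  rw [Ex_add hΦ.sm (loc_const_mul c3.locallyIntegrable _) (locallyIntegrable_const _),
    Ex_const_mul, Ex_const]
  ring

lemma wedge_Kn (hΦ : Sm Φ) (j : ι) : Kn Φ j = ∑ a, Nm (wD (ev j a) Φ) :=
  integral_finsetSum _ fun a _ => (wedge_sm_D hΦ (ev j a)).int_sq

lemma wedge_kin (he : Sm e) (hΦ : Core Φ) (h0 : ∀ j X, ann e Φ j X = 0) :
    ∑ k, Kn (wT e Φ) k = (Fintype.card ι + 1) *
      ((∫ y, ‖e y‖ ^ 2) * ∑ j, Kn Φ j + Nm Φ * ∫ y, k1 e y) := by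
  have sP := wedge_sm_P he hΦ.sm
  have l1 := locallyIntegrable_const (μ := (volume : Measure (Cfg (Option ι)))) (1 : ℝ)
  have h : ∀ j, wK (wP e Φ) (fun X => wP e Φ (X ∘ Equiv.swap none (some j))) = 0 := fun j => by
    refine Finset.sum_eq_zero fun k _ => Finset.sum_eq_zero fun a _ => ?_
    rw [wB_parts (wedge_sm_D sP _) (wedge_sm_perm sP _), neg_eq_zero]
    cases k with
    | none =>
      rw [wedge_D_none he hΦ.sm, wedge_D_none (wedge_sm_D he _) hΦ.sm]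
      exact wedge_V1 j l1 (g := fun _ => 1) (fun _ _ => rfl) (wedge_sm_D (wedge_sm_D he _) _)
        hΦ.sm he hΦ.sm (h0 j)
    | some i =>
      rw [wedge_D_some he hΦ.sm, wedge_D_some he (wedge_sm_D hΦ.sm _)]
      exact wedge_V0 l1 (g := fun _ => 1) (fun _ _ => rfl) he
        (wedge_sm_D (wedge_sm_D hΦ.sm _) _) he hΦ.sm j (h0 j)
  have e1 : ∫ y, k1 e y = ∑ a, ∫ y, ‖wD (e1 a) e y‖ ^ 2 :=
    integral_finsetSum _ fun a _ => (wedge_LLsq (wedge_sm_D he (e1 a))).int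
  rw [← wK_self (wedge_sm_T he hΦ.sm), wedge_form wForm_K he hΦ, e1]
  simp only [h, Finset.sum_const_zero, sub_zero]
  simp only [wK, Fintype.sum_option, wedge_D_none he hΦ.sm, wedge_D_some he hΦ.sm,
    wedge_one (wedge_sm_D he _) hΦ.sm, wedge_one he (wedge_sm_D hΦ.sm _), wedge_Kn hΦ.sm,
    ← Finset.mul_sum, ← Finset.sum_mul]
  ring

lemma wedge_VOn_opt (Z : ℝ) (X : Cfg (Option ι)) : VOn Z Finset.univ X =
    VOn Z Finset.univ (X ∘ some) + (-Z * ‖X none‖⁻¹ + ∑ i, ‖X (some i) - X none‖⁻¹) := by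
  simp only [VOn, Fintype.sum_option, Function.comp, sub_self, norm_zero, inv_zero, zero_add,
    Finset.sum_add_distrib, norm_sub_rev (X none)]
  ring

lemma wedge_pot (h1 : St_cs) (Z : ℝ) (he : Sm e) (hΦ : Core Φ) (h0 : ∀ j X, ann e Φ j X = 0) :
    Ex (wT e Φ) (VOn Z Finset.univ) ≤ (Fintype.card ι + 1) *
      ((∫ y, ‖e y‖ ^ 2) * Ex Φ (VOn Z Finset.univ) - Nm Φ * (Z * psi (fun y => ‖e y‖ ^ 2) 0) +
        Ex Φ fun X => ∑ j, psi (fun y => ‖e y‖ ^ 2) (X j)) := by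
  have sP := wedge_sm_P he hΦ.sm
  have L := wedge_LLsq he
  have l0 : LocallyIntegrable fun X : Cfg (Option ι) => VOn Z Finset.univ (X ∘ some) :=
    (loc_const_mul (loc_sum _ fun j _ => loc_nuc (some j)) _).add
      (loc_const_mul (loc_sum _ fun i _ => loc_sum _ fun j _ => loc_pair (some i) (some j)) _)
  have h : ∀ j, 0 ≤ wB (VOn Z Finset.univ) (wP e Φ)
      (fun X => wP e Φ (X ∘ Equiv.swap none (some j))) := fun j => by
    have l1 : ∀ σ : Option ι → Option ι, LocallyIntegrable fun X : Cfg (Option ι) =>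
        -Z * ‖X (σ none)‖⁻¹ + ∑ i ∈ Finset.univ.erase j, ‖X (σ (some i)) - X (σ none)‖⁻¹ :=
      fun σ => (loc_const_mul (loc_nuc _) _).add (loc_sum _ fun i _ => loc_pair _ _)
    have e0 : (VOn Z Finset.univ : Cfg (Option ι) → ℝ) = fun X =>
        (VOn Z Finset.univ (X ∘ some) + (-Z * ‖X none‖⁻¹ +
          ∑ i ∈ Finset.univ.erase j, ‖X (some i) - X none‖⁻¹)) + ‖X (some j) - X none‖⁻¹ := by
      ext X
      rw [wedge_VOn_opt, ← Finset.sum_erase_add _ _ (Finset.mem_univ j)]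
      ring
    have l2 : LocallyIntegrable fun X : Cfg (Option ι) =>
        -Z * ‖X none‖⁻¹ + ∑ i ∈ Finset.univ.erase j, ‖X (some i) - X none‖⁻¹ := l1 id
    have l3 : LocallyIntegrable fun X : Cfg (Option ι) => VOn Z Finset.univ (X ∘ some) +
        (-Z * ‖X none‖⁻¹ + ∑ i ∈ Finset.univ.erase j, ‖X (some i) - X none‖⁻¹) := l0.add l2
    rw [e0, wB_add l3 (loc_pair _ _) sP (wedge_sm_perm sP _),
      wB_add l0 l2 sP (wedge_sm_perm sP _),
      wedge_V0 l0 (g := VOn Z Finset.univ) (fun _ _ => rfl) he hΦ.sm he hΦ.sm j (h0 j),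
      wedge_V1 j (l1 (Equiv.swap none (some j)))
        (g := fun X => -Z * ‖X j‖⁻¹ + ∑ i ∈ Finset.univ.erase j, ‖X i - X j‖⁻¹)
        (fun y X => by
          simp only [wX_none, wX_some]
          rw [Finset.sum_congr rfl fun i hi => by
            rw [Function.update_of_ne (Finset.ne_of_mem_erase hi)]]) he hΦ.sm he hΦ.sm (h0 j),
      add_zero, zero_add]
    exact wedge_V2 h1 he hΦ.sm j
  have e1 : ∀ X : Cfg ι, ∫ y, VOn Z Finset.univ (wX y X) * ‖e y‖ ^ 2 =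
      ((∫ y, ‖e y‖ ^ 2) * VOn Z Finset.univ X + -Z * psi (fun y => ‖e y‖ ^ 2) 0) +
        ∑ j, psi (fun y => ‖e y‖ ^ 2) (X j) := fun X => by
    have i1 : Integrable fun y => -Z * (‖(0 : E3) - y‖⁻¹ * ‖e y‖ ^ 2) := (L.psi_int 0).const_mul _
    have i2 : Integrable fun y => ∑ j, ‖X j - y‖⁻¹ * ‖e y‖ ^ 2 :=
      integrable_finsetSum _ fun j _ => L.psi_int (X j)
    have e2 : ∀ y, VOn Z Finset.univ (wX y X) * ‖e y‖ ^ 2 =
        (VOn Z Finset.univ X * ‖e y‖ ^ 2 + -Z * (‖(0 : E3) - y‖⁻¹ * ‖e y‖ ^ 2)) +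
          ∑ j, ‖X j - y‖⁻¹ * ‖e y‖ ^ 2 := fun y => by
      rw [wedge_VOn_opt, ← Finset.sum_mul]
      simp only [wX_comp, wX_none, wX_some, zero_sub, norm_neg]
      ring
    have i3 : Integrable fun y => VOn Z Finset.univ X * ‖e y‖ ^ 2 +
        -Z * (‖(0 : E3) - y‖⁻¹ * ‖e y‖ ^ 2) := (L.int.const_mul _).add i1
    simp only [e2]
    rw [integral_add i3 i2, integral_add (L.int.const_mul _) i1,
      integral_finsetSum _ fun j _ => L.psi_int (X j), integral_const_mul, integral_const_mul,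
      mul_comm]
    rfl
  have c3 : Continuous fun X : Cfg ι => ∑ j, psi (fun y => ‖e y‖ ^ 2) (X j) :=
    continuous_finsetSum _ fun j _ => L.continuous_psi.comp (continuous_apply j)
  rw [← wB_self, wedge_form (wForm_B (loc_VOn Z _) (wedge_VOn Z)) he hΦ,
    wedge_diag (loc_VOn Z _) he hΦ.sm]
  have l4 : LocallyIntegrable fun X : Cfg ι => (∫ y, ‖e y‖ ^ 2) * VOn Z Finset.univ X +
      -Z * psi (fun y => ‖e y‖ ^ 2) 0 :=
    (loc_const_mul (loc_VOn Z _) _).add (locallyIntegrable_const _)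
  simp only [e1]
  rw [Ex_add hΦ.sm l4 c3.locallyIntegrable, Ex_add hΦ.sm (loc_const_mul (loc_VOn Z _) _)
    (locallyIntegrable_const _), Ex_const_mul, Ex_const]
  refine mul_le_mul_of_nonneg_left ?_ (by positivity)
  have := Finset.sum_nonneg (s := Finset.univ) fun j _ => h j
  linarith

end Opt

theorem st_wedge (h1 : St_cs) : St_wedge := by
  intro ι _ _ Z Φ e hΦ he h0
  refine ⟨wT e Φ, ⟨wedge_sm_T he hΦ.sm, fun i _ j _ hij X => ?_⟩, wedge_nm he hΦ h0, ?_,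
    fun W hW => wedge_W he hΦ h0 hW, fun u hu h2 h3 => wedge_ann he hΦ hu h2 h3⟩
  · rw [wedge_T_perm hΦ.anti, wS_swap hij, neg_smul, one_smul]
  · have := wedge_pot h1 Z he hΦ h0
    simp only [En, EnOn]
    rw [wedge_kin he hΦ h0]
    linarith

end Pool.Agent.Lib.ION
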