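import Pool.Agent.Lib.ION.Final1
import Pool.Agent.Lib.ION.BRIDGE
import Pool.Agent.Lib.ION.CELL
import Pool.Agent.Lib.ION.CMP
import Pool.Agent.Lib.ION.COH
import Pool.Agent.Lib.ION.COST
import Pool.Agent.Lib.ION.DET
import Pool.Agent.Lib.ION.F1
import Pool.Agent.Lib.ION.F2
import Pool.Agent.Lib.ION.FM
import Pool.Agent.Lib.ION.FRAME
import Pool.Agent.Lib.ION.H2
import Pool.Agent.Lib.ION.HARDY
import Pool.Agent.Lib.ION.HARM
import Pool.Agent.Lib.ION.HARN
import Pool.Agent.Lib.ION.IMS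
import Pool.Agent.Lib.ION.IND
import Pool.Agent.Lib.ION.INNER
import Pool.Agent.Lib.ION.KER
import Pool.Agent.Lib.ION.KL
import Pool.Agent.Lib.ION.KO
import Pool.Agent.Lib.ION.LB
import Pool.Agent.Lib.ION.LBKIN
import Pool.Agent.Lib.ION.LOW
import Pool.Agent.Lib.ION.MEAS
import Pool.Agent.Lib.ION.NEWTON
import Pool.Agent.Lib.ION.ONS
import Pool.Agent.Lib.ION.PAULI
import Pool.Agent.Lib.ION.PIECE
import Pool.Agent.Lib.ION.RAD
import Pool.Agent.Lib.ION.SLICE
import Pool.Agent.Lib.ION.STEP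
import Pool.Agent.Lib.ION.STEP0
import Pool.Agent.Lib.ION.SWEEP
import Pool.Agent.Lib.ION.T12
import Pool.Agent.Lib.ION.TFEX
import Pool.Agent.Lib.ION.TRANS
import Pool.Agent.Lib.ION.UP
import Pool.Agent.Lib.ION.UPFIN
import Pool.Agent.Lib.ION.WEDGE

/-!
# Assembly
-/

namespace Pool.Agent.Lib.ION

theorem a_harm : St_harm := st_harm st_newton

theorem a_ker : St_ker := st_ker st_newton

theorem a_cmp : St_cmp := st_cmp a_harm

theorem a_rad : St_rad := st_rad st_newton

theorem a_trans : St_trans := st_trans a_harm st_shell st_cs a_ker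

theorem a_ko : St_ko := st_ko a_harm a_cmp a_rad

theorem a_neut : St_neut := st_neut a_harm a_cmp st_shell

theorem a_low : St_low := st_low a_harm a_cmp a_rad

theorem a_tfb : St_tfb := st_tfb a_ko

theorem a_det : St_det :=
  st_det (st_t12 a_ko a_tfb a_trans st_shell) (st_up3 a_trans)
    (st_down a_ko a_tfb a_trans a_harm st_harn) a_low a_neut a_trans

theorem a_cell : St_cell := st_cell st_pauli st_slice

theorem a_wedge : St_wedge := st_wedge st_cs

theorem a_mono : St_mono := st_mono a_wedge a_ker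

theorem a_ups : St_ups :=
  st_ups (st_up (st_coh a_ker) st_frame (st_upfin a_wedge st_cs) a_harm a_ker)

theorem a_lb : St_lb := st_lb (st_ons a_harm a_ker a_ko) (st_lbkin a_cell a_ker) a_ker

theorem a_cost : St_cost :=
  st_cost a_harm st_shell st_cs (st_sweep st_newton st_shell) a_trans a_tfb

theorem a_piece : St_piece := st_piece a_ups a_lb a_cost (st_tfex st_cs) st_bin st_cs a_ker

theorem a_step : St_step := st_step a_piece st_ims st_partpi st_lab st_meas st_cut st_fm st_net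

theorem a_step0 : St_step0 :=
  st_step0 a_ups a_lb (st_inner a_cell st_hardy) (st_tfex st_cs) (st_tf0 a_neut) a_low a_trans
    st_bin st_cut st_cs a_ker

theorem a_ind : St_ind := st_ind st_kl (st_h2 st_ims st_meas st_cut)

theorem a_f1 : St_f1 := st_f1 st_ims st_lab st_cut st_slice a_mono

theorem a_f2 : St_f2 := st_f2 st_hardy st_cut st_slice a_mono

theorem a_core : CORE := core_of a_det a_step a_step0 a_ind a_f1 a_f2 st_sup

theorem a_exlb : ∃ Z₀ : ℝ, ∀ Z, Z₀ ≤ Z → ∃ E, IsLB Z E := by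
  obtain ⟨k, hk⟩ := a_det
  obtain ⟨K, -, K₁, -, r, -, Z₀, h⟩ := a_ind k hk.1 (a_step k hk) (a_step0 k hk)
  exact ⟨Z₀, fun Z hZ => (h Z hZ).1⟩

end Pool.Agent.Lib.ION
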