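import Pool.Agent.Lib.ION.Basic
import Pool.Agent.Lib.MP_6c3a95_mp.Main

/-!
# From weak solutions to the core statement
-/

open MeasureTheory Set Filter Topology
open scoped ContDiff

noncomputable section

namespace Pool.Agent.Lib.ION

open Pool.Agent.Lib.MP_6c3a95_mp

lemma VOn_eq {N : ℕ} (Z : ℝ) (X : Cfg (Fin N)) : VOn Z Finset.univ X = Vc Z X := by
  have h : ∑ i, ∑ j, ‖X i - X j‖⁻¹ = 2 * ∑ i, ∑ j ∈ Finset.Ioi i, 1 / ‖X i - X j‖ := by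
    have h1 : ∀ i j : Fin N, ‖X i - X j‖⁻¹ = (if i < j then ‖X i - X j‖⁻¹ else 0) +
        if j < i then ‖X j - X i‖⁻¹ else 0 := fun i j => by
      rcases lt_trichotomy i j with h | h | h
      · simp [h, h.not_gt]
      · simp [h]
      · simp [h, h.not_gt, norm_sub_rev]
    have h2 : ∑ i, ∑ j ∈ Finset.Ioi i, 1 / ‖X i - X j‖ =
        ∑ i, ∑ j, if i < j then ‖X i - X j‖⁻¹ else 0 := by
      refine Finset.sum_congr rfl fun i _ => ?_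
      rw [← Finset.sum_filter]
      exact Finset.sum_congr (by ext j; simp) fun j _ => one_div _
    rw [Finset.sum_congr rfl fun i _ => Finset.sum_congr rfl fun j _ => h1 i j, h2]
    simp only [Finset.sum_add_distrib]
    rw [Finset.sum_comm (f := fun i j : Fin N => if j < i then ‖X j - X i‖⁻¹ else 0)]
    ring
  simp only [VOn, Vc, h, div_eq_mul_inv Z, ← Finset.mul_sum]
  ring

/-- the real and imaginary parts of a weak solution are weak solutions -/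
theorem parts {N : ℕ} {Z lam : ℝ} {Ψ : Cf N → ℂ} {G : Fin N × Fin 3 → Cf N → ℂ}
    (hu : MemLp Ψ 2 volume) (hG : ∀ α, MemLp (G α) 2 volume)
    (hw : ∀ α φ, Test φ → ∫ x, Ψ x * (fderiv ℝ φ x (ed α) : ℝ) = -∫ x, G α x * (φ x : ℝ))
    (heq : ∀ φ, Test φ → ∫ x, (∑ α, G α x * (fderiv ℝ φ x (ed α) : ℝ) +
      (Vc Z x : ℝ) * Ψ x * (φ x : ℝ)) = lam * ∫ x, Ψ x * (φ x : ℝ)) (T : ℂ →L[ℝ] ℝ) :
    (∀ α, WD volume (fun x => T (Ψ x)) (fun x => T (G α x)) (ed α)) ∧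
    ∀ φ, Test φ → ∫ x, (∑ α, T (G α x) * fderiv ℝ φ x (ed α) + Vc Z x * T (Ψ x) * φ x) =
      lam * ∫ x, T (Ψ x) * φ x := by
  have int : ∀ {f : Cf N → ℂ} {φ : Cf N → ℝ}, MemLp f 2 volume → Test φ →
      Integrable (fun x => f x * (φ x : ℝ)) := fun hf hφ =>
    hf.integrable_mul (hφ.memLp.ofReal (K := ℂ))
  have hT : ∀ (T : ℂ →L[ℝ] ℝ) (z : ℂ) (r : ℝ), T (z * r) = T z * r := fun T z r => by
    rw [mul_comm z, ← Complex.real_smul, map_smul, smul_eq_mul, mul_comm]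
  have hT' : ∀ (T : ℂ →L[ℝ] ℝ) (z : ℂ) (r : ℝ), T (r * z) = r * T z := fun T z r => by
    rw [mul_comm, hT, mul_comm]
  have iT : ∀ (T : ℂ →L[ℝ] ℝ) {f : Cf N → ℂ} {φ : Cf N → ℝ}, MemLp f 2 volume → Test φ →
      ∫ x, T (f x) * φ x = T (∫ x, f x * (φ x : ℝ)) := fun T f φ hf hφ => by
    rw [← T.integral_comp_comm (int hf hφ)]
    simp only [hT]
  have wd : ∀ (T : ℂ →L[ℝ] ℝ) α, WD volume (fun x => T (Ψ x)) (fun x => T (G α x)) (ed α) := by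
    intro T α φ hφ
    have := iT T hu (hφ.dd (ed α))
    simp only [dd] at this
    rw [this, hw α φ hφ, iT T (hG α) hφ, map_neg]
  have mV : ∀ T : ℂ →L[ℝ] ℝ, MemLp (fun x => (Vc Z x - 0) * T (Ψ x)) 2 volume := fun T =>
    Vc_memLp (T.comp_memLp' hu) (fun α => T.comp_memLp' (hG α)) (wd T) Z 0
  have mVc : MemLp (fun x => (Vc Z x : ℝ) * Ψ x) 2 volume := by
    have := ((mV Complex.reCLM).ofReal (K := ℂ)).add
      (((mV Complex.imCLM).ofReal (K := ℂ)).mul_const Complex.I)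
    refine this.ae_eq (Eventually.of_forall fun x => ?_)
    apply Complex.ext <;> simp
  refine ⟨wd T, fun φ hφ => ?_⟩
  have h : T (∫ x, (∑ α, G α x * (dd φ (ed α) x : ℝ) + (Vc Z x : ℝ) * Ψ x * (φ x : ℝ))) = _ :=
    congrArg T (heq φ hφ)
  have i : Integrable (fun x => ∑ α, G α x * (dd φ (ed α) x : ℝ) +
      (Vc Z x : ℝ) * Ψ x * (φ x : ℝ)) := (integrable_finsetSum Finset.univ fun α _ =>
    int (hG α) (hφ.dd (ed α))).add (int mVc hφ)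
  rw [← T.integral_comp_comm i, hT', ← iT T hu hφ] at h
  simpa only [map_add, map_sum, hT, hT', dd] using h

lemma Nm_smul {ι : Type} [Fintype ι] (Φ : Cfg ι → ℂ) (c : ℝ) :
    Nm (fun X => (c : ℂ) * Φ X) = c ^ 2 * Nm Φ := by
  simp only [Nm, norm_mul, mul_pow, Complex.norm_real, Real.norm_eq_abs, sq_abs]
  exact integral_const_mul _ _

lemma En_smul {ι : Type} [Fintype ι] [DecidableEq ι] {Φ : Cfg ι → ℂ} (h : Sm Φ) (Z c : ℝ) :
    En Z (fun X => (c : ℂ) * Φ X) = c ^ 2 * En Z Φ := by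
  have hd : Differentiable ℝ Φ := h.smooth.differentiable (by simp)
  have h1 : ∀ j X, kin (fun X => (c : ℂ) * Φ X) j X = c ^ 2 * kin Φ j X := fun j X => by
    simp only [kin, fderiv_const_mul (hd X), Finset.mul_sum]
    simp [mul_pow]
  simp only [En, EnOn, Kn, Ex, h1, norm_mul, mul_pow, Complex.norm_real, Real.norm_eq_abs, sq_abs,
    mul_left_comm _ (c ^ 2), integral_const_mul, mul_add, Finset.mul_sum]

lemma lb_of_norm {ι : Type} [Fintype ι] [DecidableEq ι] {Z E : ℝ}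
    (h : ∀ Φ : Cfg ι → ℂ, Core Φ → Nm Φ = 1 → E ≤ En Z Φ) (Φ : Cfg ι → ℂ) (hΦ : Core Φ) :
    E * Nm Φ ≤ En Z Φ := by
  rcases (Nm_nonneg Φ).eq_or_lt with h0 | h0
  · have h1 : (fun X => ‖Φ X‖ ^ 2) =ᵐ[volume] 0 :=
      (integral_eq_zero_iff_of_nonneg (fun X => by positivity) hΦ.sm.int_sq).1 h0.symm
    have h2 := (Continuous.ae_eq_iff_eq volume (hΦ.sm.cont.norm.pow 2) continuous_const).1 h1
    have h3 : Φ = fun X => ((0 : ℝ) : ℂ) * Φ X := by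
      ext X
      have h4 : ‖Φ X‖ ^ 2 = 0 := congrFun h2 X
      simpa using h4
    rw [← h0, h3, En_smul hΦ.sm]
    simp
  · have hs : (√(Nm Φ))⁻¹ ^ 2 = (Nm Φ)⁻¹ := by rw [inv_pow, Real.sq_sqrt h0.le]
    have := h (fun X => (((√(Nm Φ))⁻¹ : ℝ) : ℂ) * Φ X)
      (hΦ.mul (χ := fun _ => (√(Nm Φ))⁻¹) contDiff_const fun _ _ _ => rfl)
      (by rw [Nm_smul, hs, inv_mul_cancel₀ h0.ne'])
    rwa [En_smul hΦ.sm, hs, ← div_eq_inv_mul, le_div_iff₀ h0] at this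

lemma En_eq {N : ℕ} {Φ : Cfg (Fin N) → ℂ} (h : Sm Φ) (Z : ℝ) :
    En Z Φ = ∫ X, (∑ j, kin Φ j X + Vc Z X * ‖Φ X‖ ^ 2) := by
  simp only [← VOn_eq]
  rw [integral_add (integrable_finsetSum _ fun j _ => h.int_kin j) (h.int (loc_VOn _ _)),
    integral_finsetSum _ fun j _ => h.int_kin j]
  rfl

theorem ground_of (hcore : CORE) (hb : St_bridge) (hr : St_reidx)
    (hlb : ∃ Z₀ : ℝ, ∀ Z, Z₀ ≤ Z → ∃ E, IsLB Z E) :
    ∃ C : ℝ, ∀ (Z : ℝ) (N : ℕ), 0 ≤ Z → Z + C < N → ∀ (Ψ : Cf N → ℂ)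
      (G : Fin N × Fin 3 → Cf N → ℂ), MemLp Ψ 2 volume → (∀ α, MemLp (G α) 2 volume) →
      (∀ α φ, Test φ → ∫ x, Ψ x * (fderiv ℝ φ x (ed α) : ℝ) = -∫ x, G α x * (φ x : ℝ)) →
      (∀ φ, Test φ → ∫ x, (∑ α, G α x * (fderiv ℝ φ x (ed α) : ℝ) +
        (Vc Z x : ℝ) * Ψ x * (φ x : ℝ)) =
        (sInf {e | ∃ Φ : Cfg (Fin N) → ℂ, Core Φ ∧ Nm Φ = 1 ∧ e = En Z Φ} : ℝ) *
          ∫ x, Ψ x * (φ x : ℝ)) →
      (∀ i j, i ≠ j → ∀ᵐ x : Cf N, Ψ (x ∘ Equiv.swap i j) = -Ψ x) → Ψ =ᵐ[volume] 0 := by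
  obtain ⟨C, Z₀, h⟩ := hcore
  obtain ⟨Z₁, h1⟩ := hlb
  set Z₂ := max (max Z₀ Z₁) 0 with hZ₂
  have hZ2 : 0 ≤ Z₂ := le_max_right _ _
  refine ⟨max C (Z₂ + √(4 * Z₂ + 1 / 2) + 3 / 4), fun Z N hZ hN Ψ G hu hG hw heq ha => ?_⟩
  rcases le_total Z Z₂ with hz | hz
  · refine complex_main hZ ?_ hu hG hw heq
    have : √(4 * Z + 1 / 2) ≤ √(4 * Z₂ + 1 / 2) := Real.sqrt_le_sqrt (by linarith)
    linarith [le_max_right C (Z₂ + √(4 * Z₂ + 1 / 2) + 3 / 4)]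
  obtain ⟨E, hE⟩ := h1 Z (((le_max_right _ _).trans (le_max_left _ _)).trans hz)
  set lam := sInf {e | ∃ Φ : Cfg (Fin N) → ℂ, Core Φ ∧ Nm Φ = 1 ∧ e = En Z Φ}
  have hl : LBc Z N lam := hr Z lam N (lb_of_norm fun Φ hΦ h1 => csInf_le ⟨E, by
    rintro e ⟨Φ, hΦ, h1, rfl⟩
    simpa [h1] using hE _ Φ hΦ⟩ ⟨Φ, hΦ, h1, rfl⟩)
  have key : ∀ T : ℂ →L[ℝ] ℝ, (fun x => T (Ψ x)) =ᵐ[volume] 0 := fun T => by
    by_contra h0
    obtain ⟨p1, p2⟩ := parts hu hG hw heq T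
    have := h Z lam N (((le_max_left _ _).trans (le_max_left _ _)).trans hz) hl
      (hb N Z lam (fun x => T (Ψ x)) (fun j a x => T (G (j, a) x)) (T.comp_memLp' hu)
        (fun j a => T.comp_memLp' (hG (j, a))) (fun j a φ f1 f2 => p1 (j, a) φ ⟨f1, f2⟩)
        (fun φ f1 f2 => by
          have := p2 φ ⟨f1, f2⟩
          simp only [Fintype.sum_prod_type] at this
          simp only [VOn_eq]
          exact this)
        (fun i j hij => (ha i j hij).mono fun x hx => by simp only [hx, map_neg]) h0)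
    linarith [le_max_left C (Z₂ + √(4 * Z₂ + 1 / 2) + 3 / 4)]
  filter_upwards [key Complex.reCLM, key Complex.imCLM] with x a b
  exact Complex.ext a b

end Pool.Agent.Lib.ION
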