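import Pool.Agent.Lib.ION.Basic

/-!
# The ionization bound for ground states: localisation formulas
-/

open MeasureTheory Set Metric Real Filter Topology
open scoped ContDiff ComplexConjugate

set_option linter.unusedSectionVars false

noncomputable section

namespace Pool.Agent.Lib.ION

open Pool.Agent.Lib.MP_689e73_mp

section Many

variable {ι : Type} [Fintype ι] [DecidableEq ι] {Φ : Cfg ι → ℂ}

lemma IMS.fderiv_mul_apply {χ : Cfg ι → ℝ} (hχ : Differentiable ℝ χ) (hΦ : Differentiable ℝ Φ)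
    (X v : Cfg ι) : fderiv ℝ (mul χ Φ) X v =
      (χ X : ℂ) * fderiv ℝ Φ X v + (fderiv ℝ χ X v : ℝ) * Φ X := by
  have h1 : HasFDerivAt (fun X => ((χ X : ℝ) : ℂ)) (Complex.ofRealCLM.comp (fderiv ℝ χ X)) X :=
    Complex.ofRealCLM.hasFDerivAt.comp X (hχ X).hasFDerivAt
  have h2 := (h1.mul (hΦ X).hasFDerivAt).fderiv
  have e : mul χ Φ = (fun X => ((χ X : ℝ) : ℂ)) * Φ := rfl
  rw [e, h2]
  simp [mul_comm]

lemma IMS.sum_mul_fderiv {Ω : Type} [Fintype Ω] {χ : Ω → Cfg ι → ℝ}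
    (hχ : ∀ o, Differentiable ℝ (χ o)) (hs : ∀ X, ∑ o, χ o X ^ 2 = 1) (X v : Cfg ι) :
    ∑ o, χ o X * fderiv ℝ (χ o) X v = 0 := by
  have h1 : HasFDerivAt (fun X => ∑ o, χ o X * χ o X)
      (∑ o, (χ o X • fderiv ℝ (χ o) X + χ o X • fderiv ℝ (χ o) X)) X :=
    HasFDerivAt.fun_sum fun o _ => (hχ o X).hasFDerivAt.mul (hχ o X).hasFDerivAt
  have e : (fun X => ∑ o, χ o X * χ o X) = fun _ => (1 : ℝ) := by
    ext X; simpa only [sq] using hs X
  rw [e] at h1
  have h2 := congrArg (fun L : Cfg ι →L[ℝ] ℝ => L v) (h1.unique (hasFDerivAt_const 1 X))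
  simp only [_root_.sum_apply, _root_.add_apply,
    _root_.smul_apply, smul_eq_mul, Finset.sum_add_distrib,
    _root_.zero_apply] at h2
  linarith

lemma IMS.sum_normsq {Ω : Type} [Fintype Ω] (c d : Ω → ℝ) (a b : ℂ) (h1 : ∑ o, c o ^ 2 = 1)
    (h2 : ∑ o, c o * d o = 0) :
    ∑ o, ‖(c o : ℂ) * a + (d o : ℂ) * b‖ ^ 2 = ‖a‖ ^ 2 + (∑ o, d o ^ 2) * ‖b‖ ^ 2 := by
  have e : ∀ o, ‖(c o : ℂ) * a + (d o : ℂ) * b‖ ^ 2 = c o ^ 2 * ‖a‖ ^ 2 + d o ^ 2 * ‖b‖ ^ 2 +
      c o * d o * (2 * (a.re * b.re + a.im * b.im)) := fun o => by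
    simp only [Complex.sq_norm, Complex.normSq_apply, Complex.add_re, Complex.add_im,
      Complex.re_ofReal_mul, Complex.im_ofReal_mul]
    ring
  simp only [e, Finset.sum_add_distrib, ← Finset.sum_mul, h1, h2]
  ring

/-- the pointwise localisation formula -/
lemma IMS.kin_part {Ω : Type} [Fintype Ω] {χ : Ω → Cfg ι → ℝ} (hχ : ∀ o, Differentiable ℝ (χ o))
    (hs : ∀ X, ∑ o, χ o X ^ 2 = 1) (hΦ : Differentiable ℝ Φ) (j : ι) (X : Cfg ι) :
    ∑ o, kin (mul (χ o) Φ) j X =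
      kin Φ j X + (∑ o, ∑ a, fderiv ℝ (χ o) X (ev j a) ^ 2) * ‖Φ X‖ ^ 2 := by
  unfold kin
  rw [Finset.sum_comm, Finset.sum_comm (f := fun o a => fderiv ℝ (χ o) X (ev j a) ^ 2),
    Finset.sum_mul, ← Finset.sum_add_distrib]
  refine Finset.sum_congr rfl fun a _ => ?_
  simp only [IMS.fderiv_mul_apply (hχ _) hΦ]
  exact IMS.sum_normsq _ _ _ _ (hs X) (IMS.sum_mul_fderiv hχ hs X _)

lemma IMS.cont_dsq {χ : Cfg ι → ℝ} (hχ : ContDiff ℝ ∞ χ) (j : ι) :
    Continuous fun X => ∑ a, fderiv ℝ χ X (ev j a) ^ 2 := by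
  have := hχ.continuous_fderiv (by simp)
  fun_prop

lemma IMS.cont_gsq {χ : Cfg ι → ℝ} (hχ : ContDiff ℝ ∞ χ) : Continuous (gsq χ) :=
  continuous_finsetSum _ fun j _ => IMS.cont_dsq hχ j

/-- the localisation formula for the kinetic energy of one particle -/
lemma IMS.Kn_part {Ω : Type} [Fintype Ω] {χ : Ω → Cfg ι → ℝ} (hχ : ∀ o, ContDiff ℝ ∞ (χ o))
    (hs : ∀ X, ∑ o, χ o X ^ 2 = 1) (h : Sm Φ) (j : ι) :
    ∑ o, Kn (mul (χ o) Φ) j =
      Kn Φ j + Ex Φ fun X => ∑ o, ∑ a, fderiv ℝ (χ o) X (ev j a) ^ 2 := by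
  unfold Kn Ex
  rw [← integral_finsetSum _ fun o _ => (h.mul (hχ o)).int_kin j, ← integral_add (h.int_kin j)
    (h.int (continuous_finsetSum _ fun o _ => IMS.cont_dsq (hχ o) j).locallyIntegrable)]
  congr 1
  ext X
  exact IMS.kin_part (fun o => (hχ o).differentiable (by simp)) hs (h.smooth.differentiable (by simp))
    j X

lemma IMS.reindex {Ω Ω' : Type} [Fintype Ω] [Fintype Ω'] {χ : Ω → Cfg ι → ℝ} {I : Cfg ι → ℝ}
    (h : Part χ I) (e : Ω' ≃ Ω) : Part (fun o => χ (e o)) I :=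
  ⟨fun _ => h.sm _, fun X => (e.sum_comp fun o => χ o X ^ 2).trans (h.sum X),
    fun X => (e.sum_comp fun o => gsq (χ o) X).trans_le (h.grad X)⟩

end Many

theorem st_ims : St_ims := by
  intro ι Ω _ _ _ χ I Φ Z hp h hI
  have h1 : ∑ o, En Z (mul (χ o) Φ) = En Z Φ + Ex Φ fun X => ∑ o, gsq (χ o) X := by
    simp only [En, EnOn, Finset.sum_add_distrib]
    rw [hp.sum_Ex h (loc_VOn Z _), Finset.sum_comm]
    simp only [IMS.Kn_part hp.sm hp.sum h, Finset.sum_add_distrib]
    rw [← Ex_sum _ h fun j _ =>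
      (continuous_finsetSum _ fun o _ => IMS.cont_dsq (hp.sm o) j).locallyIntegrable]
    have e : (fun X => ∑ j, ∑ o, ∑ a, fderiv ℝ (χ o) X (ev j a) ^ 2) =
        fun X => ∑ o, gsq (χ o) X := by
      ext X; exact Finset.sum_comm
    rw [e]
    ring
  rw [h1]
  exact add_le_add le_rfl (Ex_mono h
    (continuous_finsetSum _ fun o _ => IMS.cont_gsq (hp.sm o)).locallyIntegrable hI
    fun X _ => hp.grad X)

lemma IMS.sum_prod_sq {κ Ω : Type} [Fintype κ] [DecidableEq κ] [Fintype Ω] (c d : κ → Ω → ℝ)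
    (h1 : ∀ α, ∑ o, c α o ^ 2 = 1) (h2 : ∀ α, ∑ o, c α o * d α o = 0) :
    ∑ n : κ → Ω, (∑ α, (∏ β ∈ Finset.univ.erase α, c β (n β)) * d α (n α)) ^ 2 =
      ∑ α, ∑ o, d α o ^ 2 := by
  have e : ∀ (n : κ → Ω) α, (∏ β ∈ Finset.univ.erase α, c β (n β)) * d α (n α) =
      ∏ β, if β = α then d β (n β) else c β (n β) := fun n α => by
    rw [← Finset.prod_erase_mul _ _ (Finset.mem_univ α), if_pos rfl]
    congr 1
    exact Finset.prod_congr rfl fun β hβ => (if_neg (Finset.ne_of_mem_erase hβ)).symm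
  simp only [e, sq, Finset.sum_mul_sum, ← Finset.prod_mul_distrib]
  rw [Finset.sum_comm]
  refine Finset.sum_congr rfl fun α _ => ?_
  rw [Finset.sum_comm]
  have e2 : ∀ α', ∑ n : κ → Ω, ∏ β, ((if β = α then d β (n β) else c β (n β)) *
      if β = α' then d β (n β) else c β (n β)) =
      ∏ β, ∑ o, ((if β = α then d β o else c β o) * if β = α' then d β o else c β o) :=
    fun α' => by rw [Finset.prod_univ_sum, Fintype.piFinset_univ]
  simp only [e2]
  rw [Finset.sum_eq_single α]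
  · rw [Finset.prod_eq_single α]
    · simp
    · intro β _ hβ
      simpa only [if_neg hβ, sq] using h1 β
    · simp
  · intro α' _ hα
    refine Finset.prod_eq_zero (Finset.mem_univ α') ?_
    simpa only [if_neg hα, if_true] using h2 α'
  · simp

theorem st_partpi : St_partpi := by
  intro ι κ Ω _ _ _ _ _ χ I hp
  have hd : ∀ α o, Differentiable ℝ (χ α o) := fun α o => ((hp α).sm o).differentiable (by simp)
  refine ⟨fun n => contDiff_prod fun α _ => (hp α).sm _, fun X => ?_, fun X => ?_⟩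
  · simp only [← Finset.prod_pow]
    have := Finset.prod_univ_sum (fun _ : κ => (Finset.univ : Finset Ω))
      fun α o => χ α o X ^ 2
    rw [Fintype.piFinset_univ] at this
    rw [← this]
    exact Finset.prod_eq_one fun α _ => (hp α).sum X
  · refine le_trans (le_of_eq ?_) (Finset.sum_le_sum fun α _ => (hp α).grad X)
    unfold gsq
    have e : ∀ (n : κ → Ω) v, fderiv ℝ (fun X => ∏ α, χ α (n α) X) X v =
        ∑ α, (∏ β ∈ Finset.univ.erase α, χ β (n β) X) * fderiv ℝ (χ α (n α)) X v := fun n v => by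
      rw [fderiv_finsetProd (g := fun α => χ α (n α)) fun α _ => hd α _ X]
      simp only [_root_.sum_apply, _root_.smul_apply, smul_eq_mul]
    simp only [e]
    have e2 : ∀ v, ∑ n : κ → Ω, (∑ α, (∏ β ∈ Finset.univ.erase α, χ β (n β) X) *
        fderiv ℝ (χ α (n α)) X v) ^ 2 = ∑ α, ∑ o, fderiv ℝ (χ α o) X v ^ 2 := fun v =>
      IMS.sum_prod_sq (fun α o => χ α o X) (fun α o => fderiv ℝ (χ α o) X v) (fun α => (hp α).sum X)
        fun α => IMS.sum_mul_fderiv (hd α) (hp α).sum X v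
    calc _ = ∑ j, ∑ a, ∑ n : κ → Ω, (∑ α, (∏ β ∈ Finset.univ.erase α, χ β (n β) X) *
          fderiv ℝ (χ α (n α)) X (ev j a)) ^ 2 := by
          rw [Finset.sum_comm]
          exact Finset.sum_congr rfl fun j _ => Finset.sum_comm
      _ = ∑ j, ∑ a, ∑ α, ∑ o, fderiv ℝ (χ α o) X (ev j a) ^ 2 := by simp only [e2]
      _ = ∑ j, ∑ α, ∑ o, ∑ a, fderiv ℝ (χ α o) X (ev j a) ^ 2 := by
          refine Finset.sum_congr rfl fun j _ => ?_
          rw [Finset.sum_comm]
          exact Finset.sum_congr rfl fun α _ => Finset.sum_comm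
      _ = _ := by
          rw [Finset.sum_comm]
          exact Finset.sum_congr rfl fun α _ => Finset.sum_comm

lemma IMS.sum_ite_prod {ι : Type} [Fintype ι] [DecidableEq ι] (a b : ι → ℝ) :
    ∑ A : Finset ι, ∏ k, (if k ∈ A then a k else b k) = ∏ k, (a k + b k) := by
  rw [Fintype.prod_add]
  refine Finset.sum_congr rfl fun A _ => ?_
  rw [← Finset.prod_mul_prod_compl A]
  congr 1
  · exact Finset.prod_congr rfl fun k hk => if_pos hk
  · exact Finset.prod_congr rfl fun k hk => if_neg (Finset.mem_compl.1 hk)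

/-- subsets as Boolean functions -/
def IMS.boolE (ι : Type) [Fintype ι] [DecidableEq ι] : Finset ι ≃ (ι → Bool) where
  toFun A j := decide (j ∈ A)
  invFun n := Finset.univ.filter fun j => n j = true
  left_inv A := by ext j; simp
  right_inv n := by ext j; simp

lemma IMS.part_bool {ι : Type} [Fintype ι] [DecidableEq ι] {η ζ : E3 → ℝ} (hη : ContDiff ℝ ∞ η)
    (hζ : ContDiff ℝ ∞ ζ) (hs : ∀ y, η y ^ 2 + ζ y ^ 2 = 1) (j : ι) :
    Part (fun (b : Bool) (X : Cfg ι) => (bif b then η else ζ) (X j))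
      fun X => g1 η (X j) + g1 ζ (X j) := by
  refine ⟨fun b => ?_, fun X => by simpa using hs (X j), fun X => ?_⟩
  · cases b
    · exact hζ.comp (contDiff_apply ℝ E3 j)
    · exact hη.comp (contDiff_apply ℝ E3 j)
  · rw [Fintype.sum_bool]
    simp only [cond_true, cond_false]
    rw [gsq_single (hη.differentiable (by simp)), gsq_single (hζ.differentiable (by simp))]

lemma IMS.lab_swap {ι : Type} [Fintype ι] [DecidableEq ι] (η ζ : E3 → ℝ) (A : Finset ι) {i j : ι}
    (h : i ∈ A ↔ j ∈ A) (X : Cfg ι) : lab η ζ A (X ∘ Equiv.swap i j) = lab η ζ A X := by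
  unfold lab
  rw [← Equiv.prod_comp (Equiv.swap i j) fun k => if k ∈ A then η (X k) else ζ (X k)]
  refine Finset.prod_congr rfl fun k _ => ?_
  have : Equiv.swap i j k ∈ A ↔ k ∈ A := by
    rw [Equiv.swap_apply_def]
    split_ifs with h1 h2
    · rw [h1, h]
    · rw [h2, h]
    · rfl
  simp only [this, Function.comp]

theorem st_lab : St_lab := by
  intro ι _ _ η ζ hη hζ hs
  refine ⟨?_, fun j X => ?_, fun Φ A hΦ => ⟨fun i hi j hj hij X => ?_, fun i hi j hj hij X => ?_⟩⟩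
  · have h := IMS.reindex (st_partpi ι ι Bool _ _ (IMS.part_bool hη hζ hs)) (IMS.boolE ι)
    have e : (lab η ζ : Finset ι → Cfg ι → ℝ) =
        fun A X => ∏ α, (bif IMS.boolE ι A α then η else ζ) (X α) := by
      ext A X
      refine Finset.prod_congr rfl fun k _ => ?_
      by_cases hk : k ∈ A <;> simp [IMS.boolE, hk]
    rw [e]
    exact h
  · have e : ∀ A : Finset ι, (if j ∈ A then 0 else lab η ζ A X ^ 2) =
        ∏ k, if k ∈ A then (if k = j then 0 else η (X k) ^ 2) else ζ (X k) ^ 2 := fun A => by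
      split_ifs with hj
      · exact (Finset.prod_eq_zero (Finset.mem_univ j) (by simp [hj])).symm
      · rw [lab, ← Finset.prod_pow]
        refine Finset.prod_congr rfl fun k _ => ?_
        by_cases hk : k ∈ A
        · have : k ≠ j := fun h => hj (h ▸ hk)
          simp [hk, this]
        · simp [hk]
    simp only [e]
    rw [IMS.sum_ite_prod, Finset.prod_eq_single j]
    · simp
    · intro k _ hk
      rw [if_neg hk, hs]
    · simp
  · simp only [mul, IMS.lab_swap η ζ A (iff_of_true hi hj),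
      hΦ i (Finset.mem_univ _) j (Finset.mem_univ _) hij X, mul_neg]
  · simp only [mul, IMS.lab_swap η ζ A (iff_of_false (Finset.mem_compl.1 hi) (Finset.mem_compl.1 hj)),
      hΦ i (Finset.mem_univ _) j (Finset.mem_univ _) hij X, mul_neg]

theorem st_bin : St_bin := by
  intro ι _ _ η ζ F j hη hζ hs h
  have hp := IMS.part_bool hη hζ hs j
  have h1 := IMS.Kn_part hp.sm hp.sum h j
  rw [Fintype.sum_bool] at h1
  refine Eq.trans h1 ?_
  congr 2
  ext X
  rw [Fintype.sum_bool]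
  simp only [cond_true, cond_false, fderiv_comp_apply (hη.differentiable (by simp)),
    fderiv_comp_apply (hζ.differentiable (by simp)), if_true, g1]

end Pool.Agent.Lib.ION
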