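import Pool.Agent.Lib.ION.Blue2
import Pool.Agent.Lib.ION.IND

/-!
# Embedded eigenvalues: induction on scales, estimates kept at every scale
-/

open MeasureTheory Set Metric Real Filter Topology

noncomputable section

namespace Pool.Agent.Lib.ION

open Pool.Agent.Lib.MP_689e73_mp

open IND in
theorem st_indK (h1 : St_kl) (h2 : St_h2) : St_indK := by
  rintro k hk ⟨C₁, hC₁, hstep⟩ ⟨Θ, hΘ, C₀, hC₀, C₁', hC₁', hstep0⟩
  have hC : 0 < C₁ + C₁' := by positivity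
  obtain ⟨c, hc, M₀, hM₀, e, he, hkl⟩ := h1 k hk C₀ hC₀ (C₁ + C₁') hC
  obtain ⟨K₀, hK₀, hh2⟩ := h2 c hc M₀ hM₀
  obtain ⟨K, hK, k0, k1, k2, k3, k4, k5⟩ : ∃ K > 0, K₀ ≤ K ∧ Θ ^ 2 * 64 ^ 6 ≤ K ∧
      4 * C₀ ^ 2 * (C₁ + C₁' + e * 64 ^ 7) ≤ K ∧
      2 * C₀ ^ 2 * (Θ ^ 2 * 64 ^ 6 + (C₁ + C₁' + e * 64 ^ 7)) ≤ K ∧
      2 * k.C ^ 2 * (C₁ + C₁' + 2) * 64 ^ 6 ≤ K ∧ 2 * k.C ^ 2 * (C₁ + C₁' + 2) * 64 ^ 8 ≤ K := by
    have a1 : 0 ≤ Θ ^ 2 * 64 ^ 6 := by positivity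
    have a2 : 0 ≤ 4 * C₀ ^ 2 * (C₁ + C₁' + e * 64 ^ 7) := by positivity
    have a3 : 0 ≤ 2 * C₀ ^ 2 * (Θ ^ 2 * 64 ^ 6 + (C₁ + C₁' + e * 64 ^ 7)) := by positivity
    have a4 : 0 ≤ 2 * k.C ^ 2 * (C₁ + C₁' + 2) * 64 ^ 6 := by positivity
    have a5 : 0 ≤ 2 * k.C ^ 2 * (C₁ + C₁' + 2) * 64 ^ 8 := by positivity
    generalize Θ ^ 2 * 64 ^ 6 = b1 at *
    generalize 4 * C₀ ^ 2 * (C₁ + C₁' + e * 64 ^ 7) = b2 at *
    generalize 2 * C₀ ^ 2 * (b1 + (C₁ + C₁' + e * 64 ^ 7)) = b3 at *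
    generalize 2 * k.C ^ 2 * (C₁ + C₁' + 2) * 64 ^ 6 = b4 at *
    generalize 2 * k.C ^ 2 * (C₁ + C₁' + 2) * 64 ^ 8 = b5 at *
    exact ⟨K₀ + b1 + b2 + b3 + b4 + b5, by positivity, by linarith, by linarith, by linarith,
      by linarith, by linarith, by linarith⟩
  obtain ⟨K₁, hK₁, hstep⟩ := hstep K hK
  have hT : 0 < 1 + Θ ^ 2 * 8 ^ 6 := by positivity
  obtain ⟨C₂, hC₂, D₁, hD₁, hstep⟩ := hstep (K₁ + (1 + Θ ^ 2 * 8 ^ 6)) (by positivity)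
  obtain ⟨D₂, hD₂, hkl⟩ := hkl C₂ hC₂
  obtain ⟨D₃, hD₃, hh2⟩ := hh2 K hK
  obtain ⟨Z₀, hstep0⟩ := hstep0 e he
  obtain ⟨D, hD, d1, d2, d3, d4⟩ : ∃ D > 0, D ≤ D₁ ∧ D ≤ D₂ ∧ D ≤ D₃ ∧ D ≤ C₂⁻¹ ^ 20 :=
    ⟨min (min D₁ D₂) (min D₃ (C₂⁻¹ ^ 20)), by positivity,
      (min_le_left _ _).trans (min_le_left _ _), (min_le_left _ _).trans (min_le_right _ _),
      (min_le_right _ _).trans (min_le_left _ _), (min_le_right _ _).trans (min_le_right _ _)⟩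
  refine ⟨K, hK, K₁ + (1 + Θ ^ 2 * 8 ^ 6), by positivity, D, hD, Θ, hΘ,
    max Z₀ (Θ / D ^ 3), fun Z hZ => ?_⟩
  obtain ⟨r₁, hr₁, hr₁D, hZr⟩ := cube_root hΘ hD ((le_max_right _ _).trans hZ)
  have hZ0 : 0 ≤ Z := le_trans (by positivity) ((le_max_right _ _).trans hZ)
  obtain ⟨hex, hs0⟩ := hstep0 Z r₁ ((le_max_left _ _).trans hZ) hr₁ hZr
  refine ⟨hex, fun E hE ρ hρ hρD hΘρ => ?_⟩
  have hs0' : Step0G k C₀ (C₁ + C₁') e Z E r₁ := step0G_mono hE (by linarith) (hs0 E hE)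
  have main := scale_ind (P := fun r => HH K Z E r ∧ LR (K₁ + (1 + Θ ^ 2 * 8 ^ 6)) Z E (r / 8))
    (D := D) hr₁ (by
      intro r hr1 hrD ih
      have hr : 0 < r := hr₁.trans_le hr1
      rcases le_total r (64 * r₁) with h | h
      · exact ⟨⟨h1_mono hE hr k1 (base1 hE hZ0 hr₁ hr hZr h),
          h2_mono hE hr k2 (base2 hC₀ hC.le he.le hE hr₁ hr1 h hs0'),
          h3_mono hE hr k3 (base3 hC₀ hC.le he.le hE hZ0 hr₁ hZr hr1 h hs0')⟩,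
          lr_mono hE (by positivity) (by linarith)
            (base4 hE hr₁ (by positivity) hZr (by linarith))⟩
      · have hS : ∀ s, r₁ ≤ s → s ≤ r / 8 →
            StepG k C₁ (C₂ * s ^ (1 / 20 : ℝ)) Z E s ∧ LR K₁ Z E s := fun s hs1 hs2 =>
          hstep Z E s hZ0 (hr₁.trans_le hs1) (by linarith) hE (ih s hs1 hs2).1 (ih s hs1 hs2).2
        have hs : 0 < r / 64 := by positivity
        have hG : StepG k (C₁ + C₁') 1 Z E (r / 64) :=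
          stepG_mono hE hs (by linarith) (small hC₂ hs (by linarith))
            (hS (r / 64) (by linarith) (by linarith)).1
        have e64 : 64 * (r / 64) = r := by ring
        have g1 := up1 hk hC.le hE hs hG
        have g3 := up3 hk hC.le hE hs hG
        rw [e64] at g1 g3
        have g3' := h3_mono hE hr k5 g3
        have gk := hkl Z E r₁ r hE hr₁ h (by linarith) hs0' fun s hs1 hs2 =>
          stepG_mono hE (hr₁.trans_le hs1) (by linarith) le_rfl (hS s hs1 (by linarith)).1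
        exact ⟨⟨h1_mono hE hr k4 g1, h2_mono hE hr k0 (hh2 Z E r hr (by linarith) hE gk g3'),
          g3'⟩, lr_mono hE (by positivity) (by linarith) (hS (r / 8) (by linarith) le_rfl).2⟩)
  have hZ1 : 0 < Z := lt_of_lt_of_le (by positivity) ((le_max_right _ _).trans hZ)
  refine main ρ (le_of_pow_le_pow_left₀ (n := 3) (by norm_num) hρ.le ?_) hρD
  exact le_of_mul_le_mul_left (hZr.le.trans hΘρ) hZ1

end Pool.Agent.Lib.ION
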