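import Pool.Agent.Lib.ION.Blue2

/-!
# The radial force kernel
-/

open MeasureTheory Set Metric Real Filter Topology

noncomputable section

namespace Pool.Agent.Lib.ION

open Pool.Agent.Lib.MP_689e73_mp

lemma kf_lim {f : ℕ → E3 → ℝ} {g : E3 → ℝ} {s : Set E3} {B : ℝ} (hf : ∀ n, Harm (f n) s)
    (hB : ∀ n, ∀ x ∈ s, |f n x| ≤ B) (hg : ContinuousOn g s)
    (hl : ∀ x ∈ s, Tendsto (fun n => f n x) atTop (𝓝 (g x))) : Harm g s := by
  refine ⟨hg, fun c ℓ γ hc hγ => ?_⟩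
  have hz : ∀ y, y ∉ closedBall c ℓ → γ ‖y - c‖ = 0 := fun y hy =>
    hγ.supp _ (by simpa [mem_closedBall, dist_eq_norm] using hy)
  have h1 : Tendsto (fun n => ∫ y, γ ‖y - c‖ * f n y) atTop (𝓝 (∫ y, γ ‖y - c‖ * g y)) := by
    refine tendsto_integral_of_dominated_convergence (fun y => |γ ‖y - c‖| * B)
      (fun n => (Harm.int (hf n).cont hc hγ).aestronglyMeasurable)
      ((hγ.ll c).int.abs.mul_const B) (fun n => Eventually.of_forall fun y => ?_)
      (Eventually.of_forall fun y => ?_)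
    · by_cases hy : y ∈ closedBall c ℓ
      · rw [Real.norm_eq_abs, abs_mul]
        exact mul_le_mul_of_nonneg_left (hB n y (hc hy)) (abs_nonneg _)
      · simp [hz y hy]
    · by_cases hy : y ∈ closedBall c ℓ
      · exact (hl y (hc hy)).const_mul _
      · simp [hz y hy]
  rcases lt_or_ge ℓ 0 with h0 | h0
  · have h2 : ∀ y : E3, γ ‖y‖ = 0 := fun y => hγ.supp _ (h0.trans_le (norm_nonneg _))
    simp [h2]
  · have h2 := (hl c (hc (mem_closedBall_self h0))).const_mul (∫ y : E3, γ ‖y‖)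
    refine tendsto_nhds_unique h1 (h2.congr fun n => ((hf n).mv c ℓ γ hc hγ).symm)

lemma kf_quot (x y : E3) {s : ℝ} (hs : s ≠ 0) (ha : 0 < ‖x - (1 - s) • y‖) (hb : 0 < ‖x - y‖) :
    s⁻¹ * (‖x - (1 - s) • y‖⁻¹ - ‖x - y‖⁻¹) = (2 * inner ℝ y (y - x) - s * ‖y‖ ^ 2) /
      (‖x - (1 - s) • y‖ * ‖x - y‖ * (‖x - (1 - s) • y‖ + ‖x - y‖)) := by
  have e : x - (1 - s) • y = (x - y) + s • y := by module
  have h : ‖x - (1 - s) • y‖ ^ 2 = ‖x - y‖ ^ 2 - 2 * s * inner ℝ y (y - x) + s ^ 2 * ‖y‖ ^ 2 := by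
    rw [e, norm_add_sq_real, inner_smul_right, norm_smul, mul_pow, Real.norm_eq_abs, sq_abs,
      real_inner_comm, ← neg_sub y x, inner_neg_right]
    ring
  generalize ‖x - (1 - s) • y‖ = a at *
  generalize ‖x - y‖ = b at *
  field_simp
  linear_combination (-1 : ℝ) * h

lemma kf_far {r : ℝ} {x y : E3} (hy : 8 * r ≤ ‖y‖) (hx : ‖x‖ ≤ 4 * r) : ‖y‖ / 2 ≤ ‖y - x‖ := by
  have := norm_sub_norm_le y x
  linarith

lemma kf_bound {r : ℝ} {x y : E3} (hr : 0 < r) (hy : 8 * r ≤ ‖y‖) (hx : ‖x‖ ≤ 4 * r) :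
    0 ≤ Kf x y ∧ Kf x y ≤ 4 * ‖y‖⁻¹ := by
  have h1 := kf_far hy hx
  have hy0 : 0 < ‖y‖ := by linarith
  have hd : 0 < ‖y - x‖ := by linarith
  constructor
  · refine div_nonneg ?_ (by positivity)
    rw [inner_sub_right, real_inner_self_eq_norm_sq]
    have := real_inner_le_norm y x
    nlinarith [norm_nonneg x]
  · unfold Kf
    rw [div_le_iff₀ (by positivity)]
    refine (real_inner_le_norm _ _).trans ?_
    have h2 : ‖y‖ ^ 2 ≤ 4 * ‖y - x‖ ^ 2 := by nlinarith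
    calc ‖y‖ * ‖y - x‖ = ‖y‖⁻¹ * ‖y - x‖ * ‖y‖ ^ 2 := by field_simp
      _ ≤ ‖y‖⁻¹ * ‖y - x‖ * (4 * ‖y - x‖ ^ 2) := by gcongr
      _ = _ := by ring

lemma kf_harm (h1 : St_harm) {r : ℝ} {y : E3} (hr : 0 < r) (hy : 8 * r ≤ ‖y‖) :
    Harm (fun x => Kf x y) (ball 0 (4 * r)) := by
  have hp : ∀ s : ℝ, 0 ≤ s → s ≤ 1 / 4 → ∀ x ∈ ball (0 : E3) (4 * r),
      2 * r ≤ ‖x - (1 - s) • y‖ := fun s h0 h4 x hx => by
    rw [mem_ball_zero_iff] at hx
    have h2 := norm_sub_norm_le ((1 - s) • y) x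
    rw [norm_smul, Real.norm_of_nonneg (by linarith), norm_sub_rev] at h2
    nlinarith
  have hp0 : ∀ x ∈ ball (0 : E3) (4 * r), 2 * r ≤ ‖x - y‖ := fun x hx => by
    simpa using hp 0 le_rfl (by norm_num) x hx
  have hH : ∀ s : ℝ, 0 ≤ s → s ≤ 1 / 4 →
      Harm (fun x => ‖x - (1 - s) • y‖⁻¹) (ball 0 (4 * r)) := fun s h0 h4 =>
    (h1.1 _).mono fun x hx hx' => by
      have := hp s h0 h4 x hx
      rw [mem_singleton_iff.1 hx', sub_self, norm_zero] at this
      linarith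
  have hH0 : Harm (fun x => ‖x - y‖⁻¹) (ball 0 (4 * r)) := by
    simpa using hH 0 le_rfl (by norm_num)
  let s : ℕ → ℝ := fun n => 1 / 4 * (1 / ((n : ℝ) + 1))
  have s0 : ∀ n, 0 < s n := fun n => by positivity
  have s4 : ∀ n, s n ≤ 1 / 4 := fun n => by
    have : 1 / ((n : ℝ) + 1) ≤ 1 := by
      rw [div_le_one (by positivity)]
      linarith [Nat.cast_nonneg (α := ℝ) n]
    simp only [s]
    linarith
  have sl : Tendsto s atTop (𝓝 0) := by
    have := (tendsto_one_div_add_atTop_nhds_zero_nat (𝕜 := ℝ)).const_mul (1 / 4)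
    rwa [mul_zero] at this
  refine kf_lim (f := fun n x => (s n)⁻¹ * (‖x - (1 - s n) • y‖⁻¹ - ‖x - y‖⁻¹))
    (B := ‖y‖ / (2 * r * (2 * r)))
    (fun n => ((hH _ (s0 n).le (s4 n)).sub hH0).const_mul _) (fun n x hx => ?_) ?_ fun x hx => ?_
  · have ha := hp _ (s0 n).le (s4 n) x hx
    have hb := hp0 x hx
    have hd : |‖x - y‖ - ‖x - (1 - s n) • y‖| ≤ s n * ‖y‖ := by
      refine (abs_norm_sub_norm_le _ _).trans (le_of_eq ?_)
      rw [show x - y - (x - (1 - s n) • y) = -(s n • y) by module, norm_neg, norm_smul,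
        Real.norm_of_nonneg (s0 n).le]
    have hs := s0 n
    generalize ‖x - (1 - s n) • y‖ = a at *
    generalize ‖x - y‖ = b at *
    have ha0 : 0 < a := by linarith
    have hb0 : 0 < b := by linarith
    rw [show (s n)⁻¹ * (a⁻¹ - b⁻¹) = (b - a) / (s n * (a * b)) by field_simp, abs_div,
      abs_of_pos (by positivity : 0 < s n * (a * b))]
    calc |b - a| / (s n * (a * b)) ≤ s n * ‖y‖ / (s n * (a * b)) := by gcongr
      _ = ‖y‖ / (a * b) := by field_simp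
      _ ≤ _ := by gcongr
  · refine ContinuousOn.div (by fun_prop) (by fun_prop) fun x hx => ?_
    have := hp0 x hx
    rw [norm_sub_rev] at this
    exact pow_ne_zero _ (by linarith)
  · have hb : 0 < ‖x - y‖ := by linarith [hp0 x hx]
    have hc : ContinuousAt (fun t : ℝ => (2 * inner ℝ y (y - x) - t * ‖y‖ ^ 2) /
        (‖x - (1 - t) • y‖ * ‖x - y‖ * (‖x - (1 - t) • y‖ + ‖x - y‖))) 0 := by
      refine ContinuousAt.div (by fun_prop) (by fun_prop) ?_
      simp only [sub_zero, one_smul]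
      positivity
    have h2 := hc.tendsto.comp sl
    have e : (2 * inner ℝ y (y - x) - 0 * ‖y‖ ^ 2) /
        (‖x - (1 - (0 : ℝ)) • y‖ * ‖x - y‖ * (‖x - (1 - (0 : ℝ)) • y‖ + ‖x - y‖)) = Kf x y := by
      simp only [sub_zero, one_smul, Kf, norm_sub_rev y x]
      field_simp
      ring
    rw [e] at h2
    refine h2.congr fun n => ?_
    exact (kf_quot x y (s0 n).ne' (by linarith [hp _ (s0 n).le (s4 n) x hx]) hb).symm

theorem st_kf (h1 : St_harm) : St_kf := by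
  refine ⟨fun r y hr hy => ⟨kf_harm h1 hr hy, ?_, fun x hx => kf_bound hr hy hx⟩, ?_⟩
  · have hy0 : 0 < ‖y‖ := by linarith
    simp only [Kf, sub_zero, real_inner_self_eq_norm_sq]
    field_simp
  intro ι _ _ Z r R β hr hR hβ h0
  have key : ∀ i j : ι,
      Bd fun X : Cfg ι => β (X j) * if ‖X i‖ < R then Kf (X i) (X j) else 0 := fun i j => by
    obtain ⟨B, hB⟩ := hβ.bdd
    have hB0 : 0 ≤ B := (abs_nonneg _).trans (hB 0)
    refine ⟨(hβ.meas.comp (measurable_pi_apply j)).mul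
      (Measurable.ite (measurableSet_lt (by fun_prop) measurable_const) ?_ measurable_const),
      B * (4 * (8 * r)⁻¹), fun X => ?_⟩
    · unfold Kf
      exact Measurable.div (Continuous.measurable (by fun_prop)) (by fun_prop)
    · rcases lt_or_ge ‖X j‖ (8 * r) with h | h
      · rw [h0 _ h, zero_mul, abs_zero]; positivity
      · rw [abs_mul]
        refine mul_le_mul (hB _) ?_ (abs_nonneg _) hB0
        split_ifs with hi
        · obtain ⟨k0, k1⟩ := kf_bound hr h (hi.le.trans hR)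
          rw [abs_of_nonneg k0]
          refine k1.trans ?_
          gcongr
        · rw [abs_zero]; positivity
  refine ⟨key, Bd.sum _ fun j _ => ?_⟩
  have h2 := (((bd_mul_inv hβ (by positivity) h0).comp
    (measurable_pi_apply (X := fun _ : ι => E3) j)).const_mul Z).sub
    (Bd.sum Finset.univ fun i _ => key i j)
  convert h2 using 2 with X
  simp only [VK, mul_sub, Finset.mul_sum]
  ring

end Pool.Agent.Lib.ION
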