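import Pool.Agent.Lib.ION.Blue2

/-!
# Choice of the scale
-/

noncomputable section

namespace Pool.Agent.Lib.ION

theorem p2_coreK : St_coreK := by
  rintro ⟨K, hK, K₂, hK₂, D, hD, Θ, hΘ, Z₀, h⟩ hstep hf1 hf2 hsup
  obtain ⟨K₁, hK₁, D', hD', hs⟩ := hstep K hK K₂ hK₂
  obtain ⟨C₁, hC₁, C₂, hC₂, h1⟩ := hf1 K hK K₂ hK₂ (D / 8) (by positivity)
  obtain ⟨C, hC, h2⟩ := hf2 K hK K₁ hK₁
  set D₀ := min (D / 8) (min D' 1) with hD₀
  have d0 : 0 < D₀ := by positivity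
  set A := D₀⁻¹ ^ 3 + C₁ ^ (3 / 7 : ℝ) + 1 with hA
  have a0 : 0 < D₀⁻¹ ^ 3 + C₁ ^ (3 / 7 : ℝ) := by positivity
  refine ⟨C₂ + (C + 4 * Θ) * A, by positivity, max (max Z₀ 0) (Θ / D ^ 3),
    fun N Z lam μ u G hZ ws ha h0 hμ hN => ?_⟩
  simp only [max_le_iff] at hZ
  obtain ⟨⟨z1, z2⟩, z3⟩ := hZ
  obtain ⟨hE, h3⟩ := h Z z1
  obtain ⟨E, e1, e2⟩ := hsup Z hE
  set y := max (lam - μ) 0 with hy
  have y0 : 0 ≤ y := le_max_right _ _
  have y1 : 0 ≤ y ^ (3 / 7 : ℝ) := by positivity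
  have q0 : 0 ≤ (C + 4 * Θ) * A := by positivity
  rcases le_total (N : ℝ) (Z + C₂) with hc | hc
  · nlinarith [mul_nonneg (add_nonneg hC₂.le q0) y1]
  obtain ⟨a1, a2⟩ := h3 E e1 D hD le_rfl (by rwa [div_le_iff₀ (by positivity)] at z3)
  have m := h1 Z E μ N z2 e1 e2 a2 (by rwa [mul_div_cancel₀ _ (by norm_num)]) hc hμ
  have x0 : 0 < y + C₁ := by positivity
  set s := (y + C₁) ^ (1 / 7 : ℝ) with hs'
  have s0 : 0 < s := by positivity
  have s7 : s ^ 7 = y + C₁ := by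
    rw [hs', ← Real.rpow_natCast, ← Real.rpow_mul x0.le]; norm_num
  have s3 : s ^ 3 ≤ y ^ (3 / 7 : ℝ) + C₁ ^ (3 / 7 : ℝ) := by
    rw [hs', ← Real.rpow_natCast, ← Real.rpow_mul x0.le]
    norm_num
    exact Real.rpow_add_le_add_rpow y0 hC₁.le (by norm_num) (by norm_num)
  set r := min D₀ s⁻¹ with hr
  have r0 : 0 < r := by positivity
  have r1 : r ≤ D₀ := min_le_left _ _
  have r2 : r ≤ D / 8 := r1.trans (min_le_left _ _)
  have r3 : r ≤ min D' 1 := r1.trans (min_le_right _ _)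
  have r4 : r⁻¹ ^ 3 ≤ A * (1 + y ^ (3 / 7 : ℝ)) := by
    have : r⁻¹ ^ 3 ≤ D₀⁻¹ ^ 3 + s ^ 3 := by
      rcases min_choice D₀ s⁻¹ with e | e <;> rw [hr, e]
      · exact le_add_of_nonneg_right (by positivity)
      · rw [inv_inv]; exact le_add_of_nonneg_left (by positivity)
    nlinarith [mul_nonneg a0.le y1]
  have fin : (N : ℝ) ≤ Z + (C + 4 * Θ) * r⁻¹ ^ 3 := by
    have p3 : 0 < r⁻¹ ^ 3 := by positivity
    rcases le_total Θ (Z * r ^ 3) with t | t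
    · obtain ⟨b1, b2⟩ := h3 E e1 r r0 (by linarith) t
      obtain ⟨b3, -⟩ := h3 E e1 (8 * r) (by positivity) (by linarith)
        (by nlinarith [mul_nonneg z2 (pow_pos r0 3).le])
      have := h2 N Z E lam r u G z2 r0 (r3.trans (min_le_right _ _)) ws ha h0
        (hs Z E r z2 r0 (r3.trans (min_le_left _ _)) e1 b1 b2) b3 (by
          have : s ≤ r⁻¹ := le_inv_of_le_inv₀ r0 (min_le_right _ _)
          linarith [pow_le_pow_left₀ s0.le this 7, le_max_left (lam - μ) 0])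
      nlinarith [mul_pos hΘ p3]
    · have : Z ≤ Θ * r⁻¹ ^ 3 := by
        rwa [inv_pow, ← div_eq_mul_inv, le_div_iff₀ (by positivity)]
      nlinarith [mul_pos hC p3]
  nlinarith [mul_le_mul_of_nonneg_left r4 (by positivity : 0 ≤ C + 4 * Θ), mul_nonneg hC₂.le y1]

end Pool.Agent.Lib.ION
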