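import Pool.Agent.Lib.ION.Blue2
import Pool.Agent.Lib.ION.HARDY
import Pool.Agent.Lib.MP_6c3a95_mp.Main

/-!
# Complex eigenfunctions and the ground state energy
-/

open MeasureTheory Filter Topology Finset
open scoped ContDiff

noncomputable section

namespace Pool.Agent.Lib.ION

open Pool.Agent.Lib.MP_6c3a95_mp

variable {N : ℕ}

lemma p2_V (Z : ℝ) (x : Cfg (Fin N)) : Vc Z x = VOn Z univ x := by
  have h := sum_sum_Ioi_add_eq_sum_sum_off_diag fun j i : Fin N => ‖x i - x j‖⁻¹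
  have e : ∀ i, ∑ j ∈ ({i}ᶜ : Finset (Fin N)), ‖x i - x j‖⁻¹ = ∑ j, ‖x i - x j‖⁻¹ := fun i => by
    rw [← sum_add_sum_compl {i}]; simp
  simp only [e, norm_sub_rev (x _) (x _), ← two_mul, ← mul_sum] at h
  simp only [Vc, VOn, div_eq_mul_inv Z, one_div ‖_‖, ← mul_sum]
  linarith

lemma p2_bdd (Z : ℝ) {Φ : Cfg (Fin N) → ℂ} (h : Sm Φ) :
    -(N * Z ^ 2) * Nm Φ ≤ En Z Φ := by
  have hh := (st_hardy (Fin N) Φ h).1
  have i1 := ((HI.sum univ fun j _ => HI.of (hh j).1).const_mul (-(1 / 4))).add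
    ((HI.of h.int_sq).const_mul (-(N * Z ^ 2)))
  have := i1.le (HI.of (h.int (loc_VOn Z univ))) (Eventually.of_forall fun x => by
    simp only [← sum_mul, ← mul_assoc, ← add_mul, VOn]
    refine mul_le_mul_of_nonneg_right ?_ (by positivity)
    have a : ∑ j, Z * ‖x j‖⁻¹ ≤ ∑ j, (1 / 4 * ‖x j‖⁻¹ ^ 2 + Z ^ 2) :=
      sum_le_sum fun j _ => by nlinarith [sq_nonneg (‖x j‖⁻¹ / 2 - Z)]
    have b : 0 ≤ ∑ i, ∑ j, ‖x i - x j‖⁻¹ := by positivity
    simp only [sum_add_distrib, ← mul_sum, sum_const, card_univ, Fintype.card_fin,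
      nsmul_eq_mul] at a
    linarith)
  have s := sum_le_sum fun j (_ : j ∈ univ) => (hh j).2
  simp only [← mul_sum, Ex] at s
  simp only [En, EnOn, Ex, Nm]
  linarith

lemma p2_En (Z : ℝ) {Φ : Cfg (Fin N) → ℂ} (h : Sm Φ) :
    ∫ x, (∑ i, ∑ a, ‖fderiv ℝ Φ x (ev i a)‖ ^ 2 + Vc Z x * ‖Φ x‖ ^ 2) = En Z Φ := by
  simp only [p2_V]
  exact ((HI.sum univ fun j _ => HI.of (h.int_kin j)).add (HI.of (h.int (loc_VOn Z univ)))).eq

/-- a lower bound for normalised functions is a lower bound of the form -/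
lemma p2_scale {Z μ : ℝ}
    (H : ∀ Φ : Cfg (Fin N) → ℂ, Core Φ → Nm Φ = 1 → μ ≤ En Z Φ) (Φ : Cfg (Fin N) → ℂ)
    (h : Core Φ) : μ * Nm Φ ≤ En Z Φ := by
  rcases (Nm_nonneg Φ).eq_or_lt with h0 | h0
  · simpa [← h0] using p2_bdd Z h.sm
  set c := (√(Nm Φ))⁻¹ with hc
  have c2 : c ^ 2 * Nm Φ = 1 := by
    rw [hc, inv_pow, Real.sq_sqrt h0.le, inv_mul_cancel₀ h0.ne']
  have hk : ∀ j, Kn (mul (fun _ => c) Φ) j = c ^ 2 * Kn Φ j := fun j => by
    rw [Kn, Kn, ← integral_const_mul]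
    congr 1
    funext X
    simp only [kin, mul_sum]
    refine sum_congr rfl fun a _ => ?_
    have := ((h.sm.smooth.differentiable (by simp) X).hasFDerivAt.const_mul (c : ℂ)).fderiv
    rw [show mul (fun _ => c) Φ = fun y => (c : ℂ) * Φ y from rfl, this]
    simp [mul_pow]
  have := H _ (h.mul contDiff_const fun _ _ _ => rfl) (by rw [Nm_mul, Ex_const, c2])
  have e : En Z (mul (fun _ => c) Φ) = c ^ 2 * En Z Φ := by
    simp only [En, EnOn, hk, Ex_mul, ← mul_sum, mul_add, Ex_const_mul]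
  rw [e] at this
  have := mul_le_mul_of_nonneg_right this h0.le
  rwa [mul_right_comm, c2, one_mul] at this

theorem p2_cx (hc : COREK) : ∃ C > 0, ∀ (N : ℕ) (Z lam μ : ℝ) (Ψ : Cfg (Fin N) → ℂ)
    (G : Fin N → Fin 3 → Cfg (Fin N) → ℂ), 0 ≤ Z → MemLp Ψ 2 → (∀ j a, MemLp (G j a) 2) →
    (∀ j a φ, Test φ → ∫ x, Ψ x * (fderiv ℝ φ x (ev j a) : ℝ) = -∫ x, G j a x * (φ x : ℝ)) →
    (∀ φ, Test φ → ∫ x, (∑ j, ∑ a, G j a x * (fderiv ℝ φ x (ev j a) : ℝ) +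
      (Vc Z x : ℝ) * Ψ x * (φ x : ℝ)) = lam * ∫ x, Ψ x * (φ x : ℝ)) →
    (∀ i j, i ≠ j → ∀ᵐ X : Cfg (Fin N), Ψ (X ∘ Equiv.swap i j) = -Ψ X) → ¬Ψ =ᵐ[volume] 0 →
    (∀ Φ : Cfg (Fin N) → ℂ, Core Φ → Nm Φ = 1 → μ ≤ En Z Φ) →
    (N : ℝ) ≤ Z + C * (1 + max (lam - μ) 0 ^ (3 / 7 : ℝ)) := by
  obtain ⟨C, hC, Z₀, hc⟩ := hc
  refine ⟨C + 4 * max Z₀ 1, by positivity, fun N Z lam μ Ψ G hZ hu hG hw heq ha h0 hμ => ?_⟩
  have hp : 0 ≤ max (lam - μ) 0 ^ (3 / 7 : ℝ) := by positivity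
  have hN : (N : ℝ) < 2 * Z + √(4 * Z + 1 / 2) + 3 / 4 := not_le.1 fun hN =>
    h0 (complex_main (lam := lam) (G := fun α => G α.1 α.2) hZ hN hu (fun α => hG α.1 α.2)
      (fun α => hw α.1 α.2) fun φ hφ => by
        simp only [Fintype.sum_prod_type]
        exact heq φ hφ)
  have h5 : ∀ Y, 1 ≤ Y → Z ≤ Y → (N : ℝ) ≤ Z + 4 * Y := fun Y h1 h2 => by
    have : √(4 * Z + 1 / 2) ≤ 9 / 4 * Y := Real.sqrt_le_iff.2 ⟨by positivity, by nlinarith⟩
    linarith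
  have h1 := le_max_right Z₀ 1
  rcases le_total Z (max Z₀ 1) with hz | hz
  · have := h5 _ h1 hz
    nlinarith [mul_nonneg (by positivity : 0 ≤ C + 4 * max Z₀ 1) hp]
  have int : ∀ {f : Cf N → ℂ} {φ : Cf N → ℝ}, MemLp f 2 volume → Test φ →
      Integrable (fun x => f x * (φ x : ℝ)) := fun hf hφ =>
    hf.integrable_mul (hφ.memLp.ofReal (K := ℂ))
  have hT : ∀ (T : ℂ →L[ℝ] ℝ) (z : ℂ) (r : ℝ), T (z * r) = T z * r := fun T z r => by
    rw [mul_comm z, ← Complex.real_smul, map_smul, smul_eq_mul, mul_comm]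
  have hT' : ∀ (T : ℂ →L[ℝ] ℝ) (z : ℂ) (r : ℝ), T (r * z) = r * T z := fun T z r => by
    rw [mul_comm, hT, mul_comm]
  have iT : ∀ (T : ℂ →L[ℝ] ℝ) {f : Cf N → ℂ} {φ : Cf N → ℝ}, MemLp f 2 volume → Test φ →
      ∫ x, T (f x) * φ x = T (∫ x, f x * (φ x : ℝ)) := fun T f φ hf hφ => by
    rw [← T.integral_comp_comm (int hf hφ)]
    simp only [hT]
  have wd : ∀ (T : ℂ →L[ℝ] ℝ) (α : Fin N × Fin 3),
      WD volume (fun x => T (Ψ x)) (fun x => T (G α.1 α.2 x)) (ed α) := by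
    intro T α φ hφ
    exact (iT T hu (hφ.dd (ed α))).trans ((congrArg T (hw α.1 α.2 φ hφ)).trans
      (by rw [iT T (hG _ _) hφ, map_neg]))
  have mV : ∀ T : ℂ →L[ℝ] ℝ, MemLp (fun x => (Vc Z x - 0) * T (Ψ x)) 2 volume := fun T =>
    Vc_memLp (T.comp_memLp' hu) (fun α => T.comp_memLp' (hG α.1 α.2)) (wd T) Z 0
  have mVc : MemLp (fun x => (Vc Z x : ℝ) * Ψ x) 2 volume := by
    have := ((mV Complex.reCLM).ofReal (K := ℂ)).add
      (((mV Complex.imCLM).ofReal (K := ℂ)).mul_const Complex.I)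
    refine this.ae_eq (Eventually.of_forall fun x => ?_)
    apply Complex.ext <;> simp
  obtain ⟨T, hT0⟩ : ∃ T : ℂ →L[ℝ] ℝ, ¬(fun x => T (Ψ x)) =ᵐ[volume] 0 := by
    by_contra hn
    push Not at hn
    refine h0 ?_
    filter_upwards [hn Complex.reCLM, hn Complex.imCLM] with x a b
    exact Complex.ext a b
  have := hc N Z lam μ (fun x => T (Ψ x)) (fun j a x => T (G j a x)) ((le_max_left _ _).trans hz)
    ⟨T.comp_memLp' hu, fun j a => T.comp_memLp' (hG j a),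
      fun j a φ a1 a2 => wd T (j, a) φ ⟨a1, a2⟩, fun φ a1 a2 => by
        have hφ : Test φ := ⟨a1, a2⟩
        have h := congrArg T (heq φ hφ)
        have i : Integrable fun x => ∑ j, ∑ a, G j a x * (fderiv ℝ φ x (ev j a) : ℝ) +
            (Vc Z x : ℝ) * Ψ x * (φ x : ℝ) := (integrable_finsetSum univ fun j _ =>
          integrable_finsetSum univ fun a _ => int (hG j a) (hφ.dd (ev j a))).add (int mVc hφ)
        rw [hT', ← iT T hu hφ, ← T.integral_comp_comm i] at h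
        simpa only [map_add, map_sum, hT, hT', p2_V] using h⟩
    (fun i j hij => by
      filter_upwards [ha i j hij] with X hX
      rw [hX, map_neg]) hT0 (st_reidx Z μ N (p2_scale hμ)) (by linarith [h5 Z (h1.trans hz) le_rfl])
  nlinarith [mul_nonneg (by positivity : 0 ≤ 4 * max Z₀ 1) hp]

end Pool.Agent.Lib.ION
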