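import Pool.Agent.Lib.ION.Basic

/-!
# One scale: summation over the pieces
-/

open MeasureTheory Set Metric Real Filter Topology
open scoped ContDiff

set_option linter.unusedSectionVars false

noncomputable section

namespace Pool.Agent.Lib.ION

open Pool.Agent.Lib.MP_689e73_mp

section

variable {ι : Type} [Fintype ι] [DecidableEq ι] {Φ : Cfg ι → ℂ}

lemma step_Nbt {a b : ℝ} (h : a ≤ b) (X : Cfg ι) : Nbt a b X = Nlt b X - Nlt a X := by
  simp only [Nbt, Nlt, ← Finset.sum_sub_distrib]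
  refine Finset.sum_congr rfl fun j _ => ?_
  by_cases h1 : ‖X j‖ < a
  · simp [h1, h1.trans_le h, not_le.2 h1]
  · by_cases h2 : ‖X j‖ < b <;> simp [h1, h2, not_lt.1 h1]

lemma step_Nbt_nn (a b : ℝ) (X : Cfg ι) : 0 ≤ Nbt a b X :=
  Finset.sum_nonneg fun _ _ => by split_ifs <;> norm_num

lemma step_BB_nn (Z : ℝ) {r : ℝ} (hr : 0 < r) (X : Cfg ι) : 0 ≤ BB Z r X := by
  unfold BB; positivity

lemma step_sge (Z : ℝ) {r : ℝ} (hr : 0 < r) (X : Cfg ι) : r⁻¹ ^ 3 * Sge r X ≤ BB Z r X := by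
  have h1 : r⁻¹ ^ 3 = r * r⁻¹ ^ 4 := by field_simp
  have h2 : r⁻¹ ^ 7 = r * (r⁻¹ ^ 4) ^ 2 := by field_simp
  have h3 : 0 ≤ max (Z - Nlt r X) 0 ^ 2 / r := by positivity
  have h4 : 0 ≤ max (Nlt (2 * r) X - Z) 0 ^ 2 / r := by positivity
  have h5 : 0 ≤ r * (Sge r X - r⁻¹ ^ 4) ^ 2 := by positivity
  have h6 : 0 ≤ r * Sge r X ^ 2 := by positivity
  have h7 : 0 ≤ r * (r⁻¹ ^ 4) ^ 2 := by positivity
  rw [BB, h1, h2]
  nlinarith

lemma step_exBB {K Z E r : ℝ} (hr : 0 < r) (hE : IsLB Z E) (hH : HH K Z E r) (hΦ : Core Φ) :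
    Ex Φ (BB Z r) ≤ (3 * K + 1) * bb Z E r Φ := by
  have b1 : Bd fun X : Cfg ι => r * Sge r X ^ 2 := ((bd_Sge hr).pow 2).const_mul r
  have b2 : Bd fun X : Cfg ι => r⁻¹ * max (Z - Nlt r X) 0 ^ 2 :=
    ((((Bd.const Z).sub (bd_Nlt r)).max (Bd.const 0)).pow 2).const_mul _
  have b3 : Bd fun X : Cfg ι => r⁻¹ * max (Nlt (2 * r) X - Z) 0 ^ 2 :=
    ((((bd_Nlt (2 * r)).sub (Bd.const Z)).max (Bd.const 0)).pow 2).const_mul _
  have e : (BB Z r : Cfg ι → ℝ) = fun X => r * Sge r X ^ 2 + r⁻¹ * max (Z - Nlt r X) 0 ^ 2 +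
      r⁻¹ * max (Nlt (2 * r) X - Z) 0 ^ 2 + r⁻¹ ^ 7 := by
    ext X; simp only [BB, div_eq_inv_mul]
  rw [e, Ex_add hΦ.sm ((b1.add b2).add b3).loc (Bd.const _).loc, Ex_add hΦ.sm (b1.add b2).loc b3.loc,
    Ex_add hΦ.sm b1.loc b2.loc, Ex_const, Ex_const_mul, Ex_const_mul, Ex_const_mul]
  have h1 := mul_le_mul_of_nonneg_left (hH.1 ι Φ hΦ) (inv_pos.2 hr).le
  have h2 := mul_le_mul_of_nonneg_left (hH.2.1 ι Φ hΦ) (inv_pos.2 hr).le
  have h3 := mul_le_mul_of_nonneg_left (hH.2.2 ι Φ hΦ) hr.le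
  have e1 : r⁻¹ * (K * r * bb Z E r Φ) = K * bb Z E r Φ := by field_simp
  have e2 : r * (K / r * bb Z E r Φ) = K * bb Z E r Φ := by field_simp
  have h4 : r⁻¹ ^ 7 * Nm Φ ≤ bb Z E r Φ := le_add_of_nonneg_left (hE.ee_nonneg hΦ)
  linarith

lemma step_layer (Z : ℝ) {l r : ℝ} (hl : 0 < l) (hl2 : l ≤ 1 / 2) (hr : 0 < r) (hrl : r ≤ l ^ 10)
    (hΦ : Sm Φ) : ∃ t, Lay l r t ∧
      Ex Φ (fun X => Nbt t (t + l * r) X ^ 2) ≤ 4 * l * r * Ex Φ (BB Z r) := by
  have n1 : (⌊l⁻¹⌋₊ : ℝ) * l ≤ 1 :=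
    (le_div_iff₀ hl).1 (by rw [one_div]; exact Nat.floor_le (inv_pos.2 hl).le)
  have n2 : 1 / 2 ≤ (⌊l⁻¹⌋₊ : ℝ) * l := by
    have := mul_lt_mul_of_pos_right (Nat.lt_floor_add_one l⁻¹) hl
    rw [inv_mul_cancel₀ hl.ne'] at this
    linarith
  generalize ⌊l⁻¹⌋₊ = n at n1 n2
  have lr : 0 < l * r := mul_pos hl hr
  have b : ∀ i : ℕ, Bd fun X : Cfg ι => Nbt (r + i * (l * r)) (r + i * (l * r) + l * r) X ^ 2 :=
    fun i => (bd_Nbt _ _).pow 2
  have B0 := Ex_nonneg Φ (step_BB_nn (ι := ι) Z hr)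
  have key : ∑ i ∈ Finset.range n,
      Ex Φ (fun X => Nbt (r + i * (l * r)) (r + i * (l * r) + l * r) X ^ 2) ≤
      ∑ _i ∈ Finset.range n, 4 * l * r * Ex Φ (BB Z r) := by
    rw [← Ex_sum _ hΦ fun i _ => (b i).loc]
    refine (Ex_mono hΦ (Bd.sum _ fun i _ => b i).loc ((bd_BB Z hr).const_mul (2 * r)).loc
      fun X _ => ?_).trans ?_
    · have h1 : ∑ i ∈ Finset.range n, Nbt (r + i * (l * r)) (r + i * (l * r) + l * r) X =
          Nlt (r + n * (l * r)) X - Nlt r X := by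
        have := Finset.sum_range_sub (fun i : ℕ => Nlt (r + i * (l * r)) X) n
        simp only [Nat.cast_zero, zero_mul, add_zero] at this
        rw [← this]
        refine Finset.sum_congr rfl fun i _ => ?_
        rw [step_Nbt (by linarith)]
        congr 2
        push_cast; ring
      have h2 := step_Nbt_nn (r + n * (l * r)) (2 * r) X
      rw [step_Nbt (by nlinarith)] at h2
      have h3 := Finset.sum_sq_le_sq_sum_of_nonneg (s := Finset.range n)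
        fun i _ => step_Nbt_nn (r + i * (l * r)) (r + i * (l * r) + l * r) X
      have h4 : 0 ≤ ∑ i ∈ Finset.range n, Nbt (r + i * (l * r)) (r + i * (l * r) + l * r) X :=
        Finset.sum_nonneg fun i _ => step_Nbt_nn _ _ X
      have h5 := pow_le_pow_left₀ h4 (b := max (Z - Nlt r X) 0 + max (Nlt (2 * r) X - Z) 0) (by
        have := le_max_left (Z - Nlt r X) 0
        have := le_max_left (Nlt (2 * r) X - Z) 0
        linarith) 2
      have h6 : 2 * r * BB Z r X = 2 * (r * Sge r X) ^ 2 + 2 * max (Z - Nlt r X) 0 ^ 2 +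
          2 * max (Nlt (2 * r) X - Z) 0 ^ 2 + 2 * (r⁻¹ ^ 3) ^ 2 := by
        rw [BB]; field_simp
      nlinarith [sq_nonneg (max (Z - Nlt r X) 0 - max (Nlt (2 * r) X - Z) 0),
        sq_nonneg (r * Sge r X), sq_nonneg (r⁻¹ ^ 3)]
    · rw [Ex_const_mul, Finset.sum_const, Finset.card_range, nsmul_eq_mul]
      nlinarith [mul_nonneg hr.le B0]
  have hn : (Finset.range n).Nonempty := Finset.nonempty_range_iff.2 fun h => by
    rw [h] at n2; norm_num at n2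
  obtain ⟨i, hi, h⟩ := Finset.exists_le_of_sum_le hn key
  have hi' : (i : ℝ) + 1 ≤ n := by exact_mod_cast Finset.mem_range.1 hi
  refine ⟨_, ⟨hl, hr, hrl, le_add_of_nonneg_right (by positivity), ?_⟩, h⟩
  nlinarith [mul_le_mul_of_nonneg_right hi' lr.le]

lemma step_part (h2 : St_ims) {Ω : Type} [Fintype Ω] {χ : Ω → Cfg ι → ℝ} {I I' L R : Cfg ι → ℝ}
    {Z E : ℝ} (hp : Part χ I) (hle : ∀ X, I X ≤ I' X) (hΦ : Sm Φ) (hI : LocallyIntegrable I')
    (hL : LocallyIntegrable L) (hR : LocallyIntegrable R) {W : Ω → ℝ}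
    (h : ∀ o, Ex (mul (χ o) Φ) L ≤ ee Z E (mul (χ o) Φ) + (Ex (mul (χ o) Φ) R + W o)) :
    Ex Φ L ≤ ee Z E Φ + (Ex Φ (fun X => I' X + R X) + ∑ o, W o) := by
  have h3 := h2 ι Ω χ I' Φ Z ⟨hp.sm, hp.sum, fun X => (hp.grad X).trans (hle X)⟩ hΦ hI
  have h4 := Finset.sum_le_sum fun o (_ : o ∈ Finset.univ) => h o
  simp only [ee, Finset.sum_add_distrib, Finset.sum_sub_distrib, ← Finset.mul_sum, hp.sum_Ex hΦ hL,
    hp.sum_Ex hΦ hR, hp.sum_Nm hΦ] at h4
  rw [Ex_add hΦ hI hR, ee]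
  linarith

lemma step_labsum {η ζ : E3 → ℝ} (hs : ∀ A : Finset ι, ContDiff ℝ ∞ (lab η ζ A))
    (h : ∀ (j : ι) (X : Cfg ι),
      ∑ A : Finset ι, (if j ∈ A then 0 else lab η ζ A X ^ 2) = ζ (X j) ^ 2)
    (hΦ : Sm Φ) {f : ι → Cfg ι → ℝ} (hf : ∀ j, LocallyIntegrable (f j)) :
    ∑ A : Finset ι, Ex (mul (lab η ζ A) Φ) (fun X => ∑ j ∈ Aᶜ, f j X) =
      Ex Φ fun X => ∑ j, ζ (X j) ^ 2 * f j X := by
  simp only [Ex]
  rw [← integral_finsetSum _ fun A _ => (hΦ.mul (hs A)).int (loc_sum _ fun j _ => hf j)]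
  congr 1; ext X
  simp only [mul, norm_mul, Complex.norm_real, Real.norm_eq_abs, mul_pow, sq_abs, ← mul_assoc,
    ← Finset.sum_mul, ← h]
  congr 1
  simp only [Finset.sum_mul]
  rw [Finset.sum_comm]
  refine Finset.sum_congr rfl fun A _ => ?_
  rw [← Finset.sum_subset (Finset.subset_univ Aᶜ) fun j _ hj => by
    rw [if_pos (by simpa using hj), zero_mul]]
  exact Finset.sum_congr rfl fun j hj => by rw [if_neg (by simpa using hj), mul_comm]

lemma step_sum_le {g : E3 → ℝ} {c r : ℝ} (h : ∀ y, g y ≤ if r ≤ ‖y‖ then c * ‖y‖⁻¹ else 0)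
    (X : Cfg ι) : ∑ j, g (X j) ≤ c * Sge r X := by
  rw [Sge, Finset.mul_sum]
  refine Finset.sum_le_sum fun j _ => (h _).trans_eq ?_
  split_ifs <;> simp

end

lemma step_master (h1 : St_piece) (h2 : St_ims) (h3 : St_partpi) (h4 : St_lab) (h5 : St_meas)
    (h6 : St_cut) (h7 : St_fm) (h8 : St_net) (k : Cs) (hk : TFP k) : ∃ C > 0, ∃ l₀ > 0,
    ∀ (Z E l r t : ℝ) (ι : Type) [Fintype ι] [DecidableEq ι] (Φ : Cfg ι → ℂ) (G : Cfg ι → ℝ)
    (β : E3 → ℝ), 0 ≤ Z → IsLB Z E → Lay l r t → l ≤ l₀ → r = l ^ 10 → Core Φ → Bd G →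
    (∀ X Δ, 0 ≤ Δ → Cert k Z r X Δ → G X ≤ Δ) → Bd β → (∀ y, 0 ≤ β y) →
    (∀ y, ‖y‖ < 8 * r → β y = 0) → ∃ β₀ : E3 → ℝ, Bd β₀ ∧ (∀ y, 0 ≤ β₀ y) ∧
    (∀ y, β₀ y ≤ if t ≤ ‖y‖ ∧ ‖y‖ < t + l * r then 1 else 0) ∧
    Ex Φ (fun X => G X / 4 + ∑ j, β (X j) * Vscr Z (2 * r) X (X j)) ≤ ee Z E Φ +
      Ex Φ fun X => C * l * BB Z r X + r⁻¹ * Nbt t (t + l * r) X ^ 2 +
        C * (r * Sw β X ^ 2 + Sw β X * √(r * BB Z r X)) +
        ∑ j, β₀ (X j) * Vscr Z (r / 4) X (X j) := by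
  obtain ⟨Cm, Cm0, h5⟩ := h5
  obtain ⟨Cc, Cc0, h6⟩ := h6
  obtain ⟨Cf, Cf0, h7⟩ := h7 Cc Cc0
  obtain ⟨Cn, Cn0, h8⟩ := h8
  obtain ⟨C, C0, l₀, l0, h1⟩ := h1 k hk Cc Cc0 (8 * Cn) (by positivity)
  refine ⟨C + 200 * Cc + 8 * Cn * Cm * Cf * 320000, by positivity, min l₀ 1, by positivity,
    fun Z E l r t ι _ _ Φ G β hZ hE hL hl hr hΦ hG hC hβ β0 β1 => ?_⟩
  have l0 := hL.l0
  have r0 := hL.r0
  have t0 := hL.t0
  have t1 := hL.t1
  have l1 : l ≤ 1 := hl.trans (min_le_right _ _)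
  have lp : ∀ n : ℕ, l ^ n ≤ 1 := fun n => pow_le_one₀ l0.le l1
  obtain ⟨h, hh⟩ : ∃ h, h = l * r / 20 := ⟨_, rfl⟩
  have h0 : 0 < h := by rw [hh]; positivity
  have h20 : l * r = 20 * h := by rw [hh]; ring
  have tp : 0 < t := r0.trans_le t0
  obtain ⟨m, p, hm, p1, p2⟩ := h8 (t + 6 * h) (l ^ 5 * r) (by positivity)
    (by nlinarith [lp 5])
  have hm' : (m : ℝ) ≤ 8 * Cn * l⁻¹ ^ 15 := by
    refine hm.trans ?_
    have : (t + 6 * h) / (l ^ 5 * r) ≤ 2 * l⁻¹ ^ 5 := by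
      rw [div_le_iff₀ (by positivity), show 2 * l⁻¹ ^ 5 * (l ^ 5 * r) = 2 * r by field_simp]
      linarith
    calc _ ≤ Cn * (2 * l⁻¹ ^ 5) ^ 3 := by gcongr
      _ = _ := by ring
  obtain ⟨η', ζ', c'⟩ := h6 t (t + 2 * h) (by linarith) (by linarith)
  obtain ⟨η, ζ, c⟩ := h6 (t + 10 * h) (t + 12 * h) (by linarith) (by linarith)
  have fm := fun α => h7 _ _ h η ζ (p α) c h0 (by linarith [p1 α]) (by linarith)
  let F : Fin m → Cfg ι → ℝ := fun α X => ∑ j, ζ (X j) ^ 2 * (‖p α - X j‖⁻¹ - ‖X j‖⁻¹)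
  have Fs : ∀ α, ContDiff ℝ ∞ (F α) := fun α =>
    ContDiff.sum fun j _ => (fm α).1.comp (contDiff_apply ℝ E3 j)
  obtain ⟨B, hB⟩ := hΦ.sm.cpt.isCompact.exists_bound_of_continuousOn
    (f := fun X α => F α X) (continuous_pi fun α => (Fs α).continuous).continuousOn
  obtain ⟨m', χ, cc, hχ, h5⟩ := h5 (l ^ 11 * r⁻¹ ^ 4) (by positivity) B
  have P1 := h3 ι _ _ _ _ fun α => h5 ι (F α) (Fs α)
  obtain ⟨P2, P3, P4⟩ := h4 ι η' ζ' c'.sη c'.sζ c'.sq
  have bB := bd_BB (ι := ι) Z r0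
  have bS := bd_Sw (ι := ι) hβ (by positivity) β1
  have b0 : Bd fun y => ζ' y ^ 2 * η y ^ 2 := (c'.bd_ζ.pow 2).mul (c.bd_η.pow 2)
  have iL : LocallyIntegrable fun X : Cfg ι =>
      G X / 4 + ∑ j, β (X j) * Vscr Z (2 * r) X (X j) :=
    (hG.div_const 4).loc.add (loc_sum _ fun j _ => loc_Vscr hβ _ _ j)
  have bR : ∀ C, Bd fun X : Cfg ι => C * l * BB Z r X + r⁻¹ * Nbt t (t + l * r) X ^ 2 +
      C * (r * Sw β X ^ 2 + Sw β X * √(r * BB Z r X)) := fun C =>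
    ((bB.const_mul _).add (((bd_Nbt _ _).pow 2).const_mul _)).add
      ((((bS.pow 2).const_mul _).add (bS.mul (bB.const_mul r).sqrt)).const_mul _)
  have iT : LocallyIntegrable fun X : Cfg ι =>
      ∑ j, ζ' (X j) ^ 2 * η (X j) ^ 2 * Vscr Z (r / 4) X (X j) :=
    loc_sum _ fun j _ => loc_Vscr b0 _ _ j
  have iV : ∀ j, LocallyIntegrable fun X : Cfg ι => η (X j) ^ 2 * Vscr Z (r / 4) X (X j) :=
    fun j => loc_Vscr (c.bd_η.pow 2) _ _ j
  have I2 : ∀ X : Cfg ι, ∑ j, (g1 η' (X j) + g1 ζ' (X j)) ≤ 200 * Cc * l * BB Z r X := fun X => by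
    refine (step_sum_le (g := fun y => g1 η' y + g1 ζ' y) (c := 200 * Cc * l * r⁻¹ ^ 3) (r := r)
      (fun y => (c'.grad y).trans ?_) X).trans ?_
    · split_ifs with a b b
      · have y0 : 0 < ‖y‖ := by linarith
        rw [← div_eq_mul_inv, div_le_div_iff₀ (by nlinarith) y0, add_sub_cancel_left,
          show 200 * Cc * l * r⁻¹ ^ 3 * (2 * h) ^ 2 = Cc * (2 * l ^ 3 * r⁻¹) by
            rw [hh]; field_simp; norm_num]
        refine mul_le_mul_of_nonneg_left ?_ Cc0.le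
        rw [← div_eq_mul_inv, le_div_iff₀ r0]
        have : r * r ≤ l ^ 3 := by
          rw [hr, show l ^ 10 * l ^ 10 = l ^ 3 * l ^ 17 by ring]
          exact mul_le_of_le_one_right (by positivity) (lp 17)
        nlinarith [a.2]
      · exact absurd (t0.trans a.1) b
      · positivity
      · exact le_rfl
    · rw [mul_assoc _ (r⁻¹ ^ 3)]
      exact mul_le_mul_of_nonneg_left (step_sge Z r0 X) (by positivity)
  have I1 : ∀ X : Cfg ι, ∑ α, Cm / (l ^ 11 * r⁻¹ ^ 4) ^ 2 * gsq (F α) X ≤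
      8 * Cn * Cm * Cf * 320000 * l * BB Z r X := fun X => by
    have S0 := Sge_nonneg r X
    have g : ∀ α, gsq (F α) X ≤ Cf * (2 * r) / h ^ 4 * Sge r X := fun α => by
      rw [gsq_sum ((fm α).1.differentiable (by simp))]
      refine step_sum_le (fun y => ((fm α).2 y).trans ?_) X
      split_ifs with a b b
      · gcongr
        linarith
      · exact absurd (by linarith) b
      · positivity
      · exact le_rfl
    calc _ ≤ ∑ _α : Fin m, Cm / (l ^ 11 * r⁻¹ ^ 4) ^ 2 * (Cf * (2 * r) / h ^ 4 * Sge r X) :=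
          Finset.sum_le_sum fun α _ => mul_le_mul_of_nonneg_left (g α) (by positivity)
      _ = m * (Cm / (l ^ 11 * r⁻¹ ^ 4) ^ 2 * (Cf * (2 * r) / h ^ 4 * Sge r X)) := by simp
      _ ≤ 8 * Cn * l⁻¹ ^ 15 *
          (Cm / (l ^ 11 * r⁻¹ ^ 4) ^ 2 * (Cf * (2 * r) / h ^ 4 * Sge r X)) := by gcongr
      _ = 8 * Cn * Cm * Cf * 320000 * l * (l ^ 38 * (r⁻¹ ^ 3 * Sge r X)) := by
          generalize Sge r X = S
          rw [hh, hr]; field_simp; ring
      _ ≤ _ := mul_le_mul_of_nonneg_left ((mul_le_of_le_one_left (by positivity) (lp 38)).trans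
          (step_sge Z r0 X)) (by positivity)
  refine ⟨_, b0, fun y => by positivity, fun y => ?_, ?_⟩
  · split_ifs with a
    · exact mul_le_one₀ ((sq_le_one_iff_abs_le_one _).2 (c'.abs_ζ y)) (sq_nonneg _)
        ((sq_le_one_iff_abs_le_one _).2 (c.abs_η y))
    · rcases not_and_or.1 a with a | a
      · simp [c'.inn y (not_le.1 a).le]
      · simp [c.out y (by linarith [not_lt.1 a])]
  have main := step_part (Z := Z) (E := E) (W := fun _ => 0) h2 P1 I1 hΦ.sm (bB.const_mul _).loc iL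
    (((bB.const_mul (200 * Cc * l)).add (bR C)).loc.add iT) fun n => by
      have hΨ : Core (mul (fun X => ∏ α, χ (n α) (F α X)) Φ) := hΦ.mul (P1.sm n) fun i j X =>
        Finset.prod_congr rfl fun α _ => congrArg _
          (sum_swap (fun y => ζ y ^ 2 * (‖p α - y‖⁻¹ - ‖y‖⁻¹)) i j X)
      have q := step_part (Z := Z) (E := E) h2 P2 I2 hΨ.sm (bB.const_mul _).loc iL (bR C).loc
        fun A => by
          have sF := hΨ.sm.mul (P2.sm A)
          rw [← Ex_add sF (bR C).loc (loc_sum Aᶜ fun j _ => iV j)]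
          simp only [← div_eq_inv_mul]
          refine h1 Z E l r t h m p (fun α => cc (n α)) η ζ β ι A _ G hZ hE hL
            (hl.trans (min_le_left _ _)) hh hm' p1 p2 c hβ β0 β1 sF (P4 _ A hΨ.anti).1
            (P4 _ A hΨ.anti).2 (fun X hX => ?_) hG hC
          obtain ⟨x1, x2⟩ := mul_ne_zero_iff.1 hX
          obtain ⟨x2, x3⟩ := mul_ne_zero_iff.1 x2
          have x4 := Finset.prod_ne_zero_iff.1 (Complex.ofReal_ne_zero.1 x1)
          have x5 := Finset.prod_ne_zero_iff.1 (Complex.ofReal_ne_zero.1 x2)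
          refine ⟨fun i hi => ?_, fun j hj => ?_, fun α => ?_⟩
          · have := x4 i (Finset.mem_univ _)
            rw [if_pos hi] at this
            exact (not_le.1 fun a => this (c'.out _ a)).le
          · have := x4 j (Finset.mem_univ _)
            rw [if_neg hj] at this
            exact (not_le.1 fun a => this (c'.inn _ a)).le
          · have := hχ (n α) (F α X)
              ((norm_le_pi_norm (fun α => F α X) α).trans (hB X (subset_tsupport _ x3)))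
              (x5 α (Finset.mem_univ _))
            simpa only [F, Uw, Sw, mul_sub, Finset.sum_sub_distrib] using this
      rw [step_labsum P2.sm P3 hΨ.sm iV] at q
      rw [add_zero, Pi.add_def, Ex_add hΨ.sm ((bB.const_mul _).add (bR C)).loc iT]
      simpa only [mul_assoc] using q
  rw [Finset.sum_const_zero, add_zero] at main
  refine main.trans (add_le_add le_rfl (Ex_mono hΦ.sm ((bB.const_mul _).loc.add
    (((bB.const_mul _).add (bR C)).loc.add iT)) ((bR _).loc.add iT) fun X _ => ?_))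
  have : 0 ≤ (200 * Cc + 8 * Cn * Cm * Cf * 320000) *
      (r * Sw β X ^ 2 + Sw β X * √(r * BB Z r X)) := by
    have : 0 ≤ Sw β X := Finset.sum_nonneg fun j _ => mul_nonneg (β0 _) (by positivity)
    positivity
  simp only [Pi.add_apply]
  linarith

theorem st_step (h1 : St_piece) (h2 : St_ims) (h3 : St_partpi) (h4 : St_lab) (h5 : St_meas)
    (h6 : St_cut) (h7 : St_fm) (h8 : St_net) : St_step := by
  intro k hk
  obtain ⟨C, C0, l₀, l0, H⟩ := step_master h1 h2 h3 h4 h5 h6 h7 h8 k hk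
  refine ⟨4, by norm_num, fun K K0 => ⟨2 + 2 * C + C * (3 * K + 1), by positivity, fun K₂ K2 => ?_⟩⟩
  obtain ⟨C', hC'⟩ : ∃ C', C' = (C + 4 + K₂) * (3 * K + 1) + 8 ^ 7 * K₂ := ⟨_, rfl⟩
  have C1 : 0 < C' := by rw [hC']; positivity
  refine ⟨4 * C', by positivity, min (1 / 2) (min l₀ C'⁻¹) ^ 20, by positivity,
    fun Z E r hZ r0 rD hE hH hR => ?_⟩
  have s0 : 0 < r ^ (1 / 20 : ℝ) := by positivity
  have hs : (r ^ (1 / 20 : ℝ)) ^ 20 = r := by
    simpa using Real.rpow_inv_natCast_pow r0.le (n := 20) (by norm_num)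
  generalize r ^ (1 / 20 : ℝ) = s at s0 hs
  have s1 : s ≤ min (1 / 2) (min l₀ C'⁻¹) :=
    le_of_pow_le_pow_left₀ (by norm_num) (by positivity) (hs.trans_le rD)
  obtain ⟨s1, s2, s3⟩ : s ≤ 1 / 2 ∧ s ≤ l₀ ∧ s ≤ C'⁻¹ := by simpa only [le_min_iff] using s1
  have ls : s ^ 2 ≤ s := by nlinarith
  have hr : r = (s ^ 2) ^ 10 := by rw [← hs]; ring
  have key : ∀ (ι : Type) [Fintype ι] [DecidableEq ι] (Φ : Cfg ι → ℂ) (G : Cfg ι → ℝ)
      (β : E3 → ℝ), Core Φ → Bd G → (∀ X Δ, 0 ≤ Δ → Cert k Z r X Δ → G X ≤ Δ) → Bd β →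
      (∀ y, 0 ≤ β y) → (∀ y, ‖y‖ < 8 * r → β y = 0) →
      Ex Φ (fun X => G X / 4 + ∑ j, β (X j) * Vscr Z (2 * r) X (X j)) ≤ ee Z E Φ +
        C' * s * bb Z E r Φ +
        C * Ex Φ fun X => r * Sw β X ^ 2 + Sw β X * √(r * BB Z r X) := by
    intro ι _ _ Φ G β hΦ hG hC hβ β0 β1
    obtain ⟨t, hL, ht⟩ := step_layer Z (by positivity) (ls.trans s1) r0 hr.le hΦ.sm
    obtain ⟨β₀, b0, b1, b2, h⟩ := H Z E _ r t ι Φ G β hZ hE hL (ls.trans s2) hr hΦ hG hC hβ β0 β1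
    have bB := bd_BB (ι := ι) Z r0
    have bS := bd_Sw (ι := ι) hβ (by positivity) β1
    have bN := (bd_Nbt (ι := ι) t (t + s ^ 2 * r)).pow 2
    have bT := (((bS.pow 2).const_mul r).add (bS.mul (bB.const_mul r).sqrt)).const_mul C
    have b3 : ∀ y : E3, ‖y‖ < r → β₀ y = 0 := fun y hy => le_antisymm ((b2 y).trans_eq
      (if_neg fun a => absurd (hL.t0.trans a.1) (not_le.2 hy))) (b1 y)
    rw [Ex_add hΦ.sm (((bB.const_mul _).add (bN.const_mul _)).add bT).loc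
      (loc_sum _ fun j _ => loc_Vscr b0 _ _ j),
      Ex_add hΦ.sm ((bB.const_mul _).add (bN.const_mul _)).loc bT.loc,
      Ex_add hΦ.sm (bB.const_mul _).loc (bN.const_mul _).loc, Ex_const_mul, Ex_const_mul,
      Ex_const_mul] at h
    have q := hR ι Φ hΦ (fun y => s⁻¹ * β₀ y) (b0.const_mul _)
      (fun y => mul_nonneg (by positivity) (b1 y)) fun y hy => by
        rw [b3 y (by linarith), mul_zero]
    simp only [mul_assoc, ← Finset.mul_sum, Ex_const_mul, show 2 * (r / 8) = r / 4 by ring] at q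
    have q2 : Ex Φ (fun X => Sw (fun y => s⁻¹ * β₀ y) X ^ 2) ≤
        (s⁻¹ * r⁻¹) ^ 2 * Ex Φ fun X => Nbt t (t + s ^ 2 * r) X ^ 2 := by
      rw [← Ex_const_mul]
      refine Ex_mono hΦ.sm ((bd_Sw (b0.const_mul _) r0 fun y hy => by
        rw [b3 y hy, mul_zero]).pow 2).loc (bN.const_mul _).loc fun X _ => ?_
      rw [← mul_pow]
      refine pow_le_pow_left₀ (Finset.sum_nonneg fun j _ => mul_nonneg
        (mul_nonneg (by positivity) (b1 _)) (by positivity)) ?_ 2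
      rw [Nbt, Finset.mul_sum]
      refine Finset.sum_le_sum fun j _ => ?_
      rcases lt_or_ge ‖X j‖ r with a | a
      · rw [b3 _ a, mul_zero, zero_mul]
        split_ifs <;> positivity
      · rw [mul_right_comm]
        exact mul_le_mul (mul_le_mul_of_nonneg_left (inv_anti₀ r0 a) (by positivity)) (b2 _) (b1 _)
          (by positivity)
    have e0 := hE.ee_nonneg hΦ
    have n0 : 0 ≤ r⁻¹ ^ 7 * Nm Φ := mul_nonneg (by positivity) (Nm_nonneg Φ)
    have q3 : bb Z E (r / 8) Φ ≤ 8 ^ 7 * bb Z E r Φ := by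
      rw [bb, bb, show (r / 8)⁻¹ ^ 7 = 8 ^ 7 * r⁻¹ ^ 7 by field_simp]
      linarith
    have q4 := step_exBB r0 hE hH hΦ
    have B0 := Ex_nonneg Φ (step_BB_nn (ι := ι) Z r0)
    have q5 := mul_le_mul_of_nonneg_left ht (inv_pos.2 r0).le
    have q6 := mul_le_mul_of_nonneg_left (q2.trans (mul_le_mul_of_nonneg_left ht (by positivity)))
      (by positivity : 0 ≤ r / 8)
    have q7 := (inv_mul_le_iff₀ s0).1 (q.trans (mul_le_mul_of_nonneg_left (add_le_add q3 q6) K2.le))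
    generalize Ex Φ (BB Z r) = x at *
    rw [show r⁻¹ * (4 * s ^ 2 * r * x) = 4 * s ^ 2 * x by field_simp] at q5
    rw [show r / 8 * ((s⁻¹ * r⁻¹) ^ 2 * (4 * s ^ 2 * r * x)) = x / 2 by field_simp; ring] at q7
    have q8 := mul_le_mul_of_nonneg_left (mul_le_mul_of_nonneg_right ls B0)
      (by positivity : 0 ≤ C + 4)
    have q9 := mul_le_mul_of_nonneg_left q4 (by positivity : 0 ≤ (C + 4 + K₂) * s)
    have q10 : 0 ≤ K₂ * s * x := by positivity
    rw [hC']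
    nlinarith
  refine ⟨fun ι _ _ Φ hΦ G hG hC => ?_, fun ι _ _ Φ hΦ β hβ β0 β1 => ?_⟩
  · have := key ι Φ G (fun _ => 0) hΦ hG hC (Bd.const 0) (fun _ => le_rfl) fun _ _ => rfl
    simp only [Sw, zero_mul, Finset.sum_const_zero, add_zero, div_eq_inv_mul, Ex_const_mul,
      Ex_const, ne_eq, OfNat.ofNat_ne_zero, not_false_eq_true, zero_pow, mul_zero] at this
    linarith
  · have h := key ι Φ (fun _ => 0) β hΦ (Bd.const 0) (fun _ _ a _ => a) hβ β0 β1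
    simp only [zero_div, zero_add] at h
    have bB := bd_BB (ι := ι) Z r0
    have bS := bd_Sw (ι := ι) hβ (by positivity) β1
    have q : Ex Φ (fun X => r * Sw β X ^ 2 + Sw β X * √(r * BB Z r X)) ≤
        Ex Φ fun X => 2 * r * Sw β X ^ 2 + BB Z r X := by
      refine Ex_mono hΦ.sm (((bS.pow 2).const_mul r).add (bS.mul (bB.const_mul r).sqrt)).loc
        (((bS.pow 2).const_mul _).add bB).loc fun X _ => le_of_mul_le_mul_left ?_ r0
      have := Real.sq_sqrt (mul_nonneg r0.le (step_BB_nn Z r0 X))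
      nlinarith [sq_nonneg (r * Sw β X - √(r * BB Z r X)), sq_nonneg (r * Sw β X),
        sq_nonneg √(r * BB Z r X)]
    rw [Ex_add hΦ.sm ((bS.pow 2).const_mul _).loc bB.loc, Ex_const_mul] at q
    have q4 := step_exBB r0 hE hH hΦ
    have b0 := hE.bb_nonneg hΦ r0.le
    have q1 : ee Z E Φ ≤ bb Z E r Φ :=
      le_add_of_nonneg_right (mul_nonneg (by positivity) (Nm_nonneg Φ))
    have q2 : C' * s * bb Z E r Φ ≤ bb Z E r Φ :=
      mul_le_of_le_one_left b0 (by rwa [← le_inv_mul_iff₀ C1, mul_one])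
    have q3 : 0 ≤ r * Ex Φ fun X => Sw β X ^ 2 :=
      mul_nonneg r0.le (Ex_nonneg Φ fun _ => sq_nonneg _)
    have q5 := mul_le_mul_of_nonneg_left (q.trans (add_le_add le_rfl q4)) C0.le
    have q6 : 0 ≤ (2 + C * (3 * K + 1)) * (r * Ex Φ fun X => Sw β X ^ 2) := by positivity
    have q7 : 0 ≤ C * bb Z E r Φ := by positivity
    nlinarith

end Pool.Agent.Lib.ION
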