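import Pool.Agent.Lib.ION.Blue2
import Pool.Agent.Lib.ION.STEP

/-!
# One scale for the force kernel
-/

open MeasureTheory Set Metric Real Filter Topology
open scoped ContDiff

set_option linter.unusedSectionVars false

noncomputable section

namespace Pool.Agent.Lib.ION

open Pool.Agent.Lib.MP_689e73_mp

lemma stepK_master (h1 : St_pieceK) (h2 : St_ims) (h3 : St_partpi) (h4 : St_lab) (h5 : St_meas)
    (h6 : St_cut) (h7 : St_fm) (h8 : St_net) (h9 : St_kf) : ∃ C > 0, ∃ l₀ > 0,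
    ∀ (Z E l r t : ℝ) (ι : Type) [Fintype ι] [DecidableEq ι] (Φ : Cfg ι → ℂ)
    (β : E3 → ℝ), 0 ≤ Z → IsLB Z E → Lay l r t → l ≤ l₀ → r = l ^ 10 → Core Φ →
    Bd β → (∀ y, 0 ≤ β y) →
    (∀ y, ‖y‖ < 8 * r → β y = 0) → ∃ β₀ : E3 → ℝ, Bd β₀ ∧ (∀ y, 0 ≤ β₀ y) ∧
    (∀ y, β₀ y ≤ if t ≤ ‖y‖ ∧ ‖y‖ < t + l * r then 1 else 0) ∧
    Ex Φ (fun X => ∑ j, β (X j) * VK Z (2 * r) X (X j)) ≤ ee Z E Φ +
      Ex Φ fun X => C * l * BB Z r X +
        C * (r * Sw β X ^ 2 + Sw β X * √(r * BB Z r X)) +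
        ∑ j, β₀ (X j) * Vscr Z (r / 4) X (X j) := by
  obtain ⟨Cm, Cm0, h5⟩ := h5
  obtain ⟨Cc, Cc0, h6⟩ := h6
  obtain ⟨Cf, Cf0, h7⟩ := h7 Cc Cc0
  obtain ⟨Cn, Cn0, h8⟩ := h8
  obtain ⟨C, C0, l₀, l0, h1⟩ := h1 Cc Cc0 (8 * Cn) (by positivity)
  refine ⟨C + 200 * Cc + 8 * Cn * Cm * Cf * 320000, by positivity, min l₀ 1, by positivity,
    fun Z E l r t ι _ _ Φ β hZ hE hL hl hr hΦ hβ β0 β1 => ?_⟩
  have l0 := hL.l0
  have r0 := hL.r0
  have t0 := hL.t0
  have t1 := hL.t1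
  have l1 : l ≤ 1 := hl.trans (min_le_right _ _)
  have lp : ∀ n : ℕ, l ^ n ≤ 1 := fun n => pow_le_one₀ l0.le l1
  obtain ⟨h, hh⟩ : ∃ h, h = l * r / 20 := ⟨_, rfl⟩
  have h0 : 0 < h := by rw [hh]; positivity
  have h20 : l * r = 20 * h := by rw [hh]; ring
  have tp : 0 < t := r0.trans_le t0
  obtain ⟨m, p, hm, p1, p2⟩ := h8 (t + 6 * h) (l ^ 5 * r) (by positivity)
    (by nlinarith [lp 5])
  have hm' : (m : ℝ) ≤ 8 * Cn * l⁻¹ ^ 15 := by
    refine hm.trans ?_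
    have : (t + 6 * h) / (l ^ 5 * r) ≤ 2 * l⁻¹ ^ 5 := by
      rw [div_le_iff₀ (by positivity), show 2 * l⁻¹ ^ 5 * (l ^ 5 * r) = 2 * r by field_simp]
      linarith
    calc _ ≤ Cn * (2 * l⁻¹ ^ 5) ^ 3 := by gcongr
      _ = _ := by ring
  obtain ⟨η', ζ', c'⟩ := h6 t (t + 2 * h) (by linarith) (by linarith)
  obtain ⟨η, ζ, c⟩ := h6 (t + 10 * h) (t + 12 * h) (by linarith) (by linarith)
  have fm := fun α => h7 _ _ h η ζ (p α) c h0 (by linarith [p1 α]) (by linarith)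
  let F : Fin m → Cfg ι → ℝ := fun α X => ∑ j, ζ (X j) ^ 2 * (‖p α - X j‖⁻¹ - ‖X j‖⁻¹)
  have Fs : ∀ α, ContDiff ℝ ∞ (F α) := fun α =>
    ContDiff.sum fun j _ => (fm α).1.comp (contDiff_apply ℝ E3 j)
  obtain ⟨B, hB⟩ := hΦ.sm.cpt.isCompact.exists_bound_of_continuousOn
    (f := fun X α => F α X) (continuous_pi fun α => (Fs α).continuous).continuousOn
  obtain ⟨m', χ, cc, hχ, h5⟩ := h5 (l ^ 11 * r⁻¹ ^ 4) (by positivity) B
  have P1 := h3 ι _ _ _ _ fun α => h5 ι (F α) (Fs α)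
  obtain ⟨P2, P3, P4⟩ := h4 ι η' ζ' c'.sη c'.sζ c'.sq
  have bB := bd_BB (ι := ι) Z r0
  have bS := bd_Sw (ι := ι) hβ (by positivity) β1
  have b0 : Bd fun y => ζ' y ^ 2 * η y ^ 2 := (c'.bd_ζ.pow 2).mul (c.bd_η.pow 2)
  have iL : LocallyIntegrable fun X : Cfg ι => ∑ j, β (X j) * VK Z (2 * r) X (X j) :=
    (h9.2 ι Z r (2 * r) β r0 (by linarith) hβ β1).2.loc
  have bR : ∀ C, Bd fun X : Cfg ι => C * l * BB Z r X +
      C * (r * Sw β X ^ 2 + Sw β X * √(r * BB Z r X)) := fun C =>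
    (bB.const_mul _).add
      ((((bS.pow 2).const_mul _).add (bS.mul (bB.const_mul r).sqrt)).const_mul _)
  have iT : LocallyIntegrable fun X : Cfg ι =>
      ∑ j, ζ' (X j) ^ 2 * η (X j) ^ 2 * Vscr Z (r / 4) X (X j) :=
    loc_sum _ fun j _ => loc_Vscr b0 _ _ j
  have iV : ∀ j, LocallyIntegrable fun X : Cfg ι => η (X j) ^ 2 * Vscr Z (r / 4) X (X j) :=
    fun j => loc_Vscr (c.bd_η.pow 2) _ _ j
  have I2 : ∀ X : Cfg ι, ∑ j, (g1 η' (X j) + g1 ζ' (X j)) ≤ 200 * Cc * l * BB Z r X := fun X => by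
    refine (step_sum_le (g := fun y => g1 η' y + g1 ζ' y) (c := 200 * Cc * l * r⁻¹ ^ 3) (r := r)
      (fun y => (c'.grad y).trans ?_) X).trans ?_
    · split_ifs with a b b
      · have y0 : 0 < ‖y‖ := by linarith
        rw [← div_eq_mul_inv, div_le_div_iff₀ (by nlinarith) y0, add_sub_cancel_left,
          show 200 * Cc * l * r⁻¹ ^ 3 * (2 * h) ^ 2 = Cc * (2 * l ^ 3 * r⁻¹) by
            rw [hh]; field_simp; norm_num]
        refine mul_le_mul_of_nonneg_left ?_ Cc0.le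
        rw [← div_eq_mul_inv, le_div_iff₀ r0]
        have : r * r ≤ l ^ 3 := by
          rw [hr, show l ^ 10 * l ^ 10 = l ^ 3 * l ^ 17 by ring]
          exact mul_le_of_le_one_right (by positivity) (lp 17)
        nlinarith [a.2]
      · exact absurd (t0.trans a.1) b
      · positivity
      · exact le_rfl
    · rw [mul_assoc _ (r⁻¹ ^ 3)]
      exact mul_le_mul_of_nonneg_left (step_sge Z r0 X) (by positivity)
  have I1 : ∀ X : Cfg ι, ∑ α, Cm / (l ^ 11 * r⁻¹ ^ 4) ^ 2 * gsq (F α) X ≤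
      8 * Cn * Cm * Cf * 320000 * l * BB Z r X := fun X => by
    have S0 := Sge_nonneg r X
    have g : ∀ α, gsq (F α) X ≤ Cf * (2 * r) / h ^ 4 * Sge r X := fun α => by
      rw [gsq_sum ((fm α).1.differentiable (by simp))]
      refine step_sum_le (fun y => ((fm α).2 y).trans ?_) X
      split_ifs with a b b
      · gcongr
        linarith
      · exact absurd (by linarith) b
      · positivity
      · exact le_rfl
    calc _ ≤ ∑ _α : Fin m, Cm / (l ^ 11 * r⁻¹ ^ 4) ^ 2 * (Cf * (2 * r) / h ^ 4 * Sge r X) :=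
          Finset.sum_le_sum fun α _ => mul_le_mul_of_nonneg_left (g α) (by positivity)
      _ = m * (Cm / (l ^ 11 * r⁻¹ ^ 4) ^ 2 * (Cf * (2 * r) / h ^ 4 * Sge r X)) := by simp
      _ ≤ 8 * Cn * l⁻¹ ^ 15 *
          (Cm / (l ^ 11 * r⁻¹ ^ 4) ^ 2 * (Cf * (2 * r) / h ^ 4 * Sge r X)) := by gcongr
      _ = 8 * Cn * Cm * Cf * 320000 * l * (l ^ 38 * (r⁻¹ ^ 3 * Sge r X)) := by
          generalize Sge r X = S
          rw [hh, hr]; field_simp; ring
      _ ≤ _ := mul_le_mul_of_nonneg_left ((mul_le_of_le_one_left (by positivity) (lp 38)).trans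
          (step_sge Z r0 X)) (by positivity)
  refine ⟨_, b0, fun y => by positivity, fun y => ?_, ?_⟩
  · split_ifs with a
    · exact mul_le_one₀ ((sq_le_one_iff_abs_le_one _).2 (c'.abs_ζ y)) (sq_nonneg _)
        ((sq_le_one_iff_abs_le_one _).2 (c.abs_η y))
    · rcases not_and_or.1 a with a | a
      · simp [c'.inn y (not_le.1 a).le]
      · simp [c.out y (by linarith [not_lt.1 a])]
  have main := step_part (Z := Z) (E := E) (W := fun _ => 0) h2 P1 I1 hΦ.sm (bB.const_mul _).loc iL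
    (((bB.const_mul (200 * Cc * l)).add (bR C)).loc.add iT) fun n => by
      have hΨ : Core (mul (fun X => ∏ α, χ (n α) (F α X)) Φ) := hΦ.mul (P1.sm n) fun i j X =>
        Finset.prod_congr rfl fun α _ => congrArg _
          (sum_swap (fun y => ζ y ^ 2 * (‖p α - y‖⁻¹ - ‖y‖⁻¹)) i j X)
      have q := step_part (Z := Z) (E := E) h2 P2 I2 hΨ.sm (bB.const_mul _).loc iL (bR C).loc
        fun A => by
          have sF := hΨ.sm.mul (P2.sm A)
          rw [← Ex_add sF (bR C).loc (loc_sum Aᶜ fun j _ => iV j)]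
          refine h1 Z E l r t h m p (fun α => cc (n α)) η ζ β ι A _ hZ hE hL
            (hl.trans (min_le_left _ _)) hh hm' p1 p2 c hβ β0 β1 sF (P4 _ A hΨ.anti).1
            (P4 _ A hΨ.anti).2 (fun X hX => ?_)
          obtain ⟨x1, x2⟩ := mul_ne_zero_iff.1 hX
          obtain ⟨x2, x3⟩ := mul_ne_zero_iff.1 x2
          have x4 := Finset.prod_ne_zero_iff.1 (Complex.ofReal_ne_zero.1 x1)
          have x5 := Finset.prod_ne_zero_iff.1 (Complex.ofReal_ne_zero.1 x2)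
          refine ⟨fun i hi => ?_, fun j hj => ?_, fun α => ?_⟩
          · have := x4 i (Finset.mem_univ _)
            rw [if_pos hi] at this
            exact (not_le.1 fun a => this (c'.out _ a)).le
          · have := x4 j (Finset.mem_univ _)
            rw [if_neg hj] at this
            exact (not_le.1 fun a => this (c'.inn _ a)).le
          · have := hχ (n α) (F α X)
              ((norm_le_pi_norm (fun α => F α X) α).trans (hB X (subset_tsupport _ x3)))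
              (x5 α (Finset.mem_univ _))
            simpa only [F, Uw, Sw, mul_sub, Finset.sum_sub_distrib] using this
      rw [step_labsum P2.sm P3 hΨ.sm iV] at q
      rw [add_zero, Pi.add_def, Ex_add hΨ.sm ((bB.const_mul _).add (bR C)).loc iT]
      simpa only [mul_assoc] using q
  rw [Finset.sum_const_zero, add_zero] at main
  refine main.trans (add_le_add le_rfl (Ex_mono hΦ.sm ((bB.const_mul _).loc.add
    (((bB.const_mul _).add (bR C)).loc.add iT)) ((bR _).loc.add iT) fun X _ => ?_))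
  have : 0 ≤ (200 * Cc + 8 * Cn * Cm * Cf * 320000) *
      (r * Sw β X ^ 2 + Sw β X * √(r * BB Z r X)) := by
    have : 0 ≤ Sw β X := Finset.sum_nonneg fun j _ => mul_nonneg (β0 _) (by positivity)
    positivity
  simp only [Pi.add_apply]
  linarith

theorem st_stepK (h1 : St_pieceK) (h2 : St_ims) (h3 : St_partpi) (h4 : St_lab) (h5 : St_meas)
    (h6 : St_cut) (h7 : St_fm) (h8 : St_net) (h9 : St_kf) : St_stepK := by
  obtain ⟨C, C0, l₀, l0, H⟩ := stepK_master h1 h2 h3 h4 h5 h6 h7 h8 h9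
  intro K K0 K₂ K2
  refine ⟨1 + 2 * C + 2 * C * (3 * K + 1) + K₂ * (8 ^ 7 + K), by positivity, min 1 l₀ ^ 10,
    by positivity, fun Z E r hZ r0 rD hE hH hR ι _ _ Φ hΦ β hβ β0 β1 => ?_⟩
  have s0 : 0 < r ^ (1 / 10 : ℝ) := by positivity
  have hs : (r ^ (1 / 10 : ℝ)) ^ 10 = r := by
    simpa using Real.rpow_inv_natCast_pow r0.le (n := 10) (by norm_num)
  generalize r ^ (1 / 10 : ℝ) = l at s0 hs
  have s1 : l ≤ min 1 l₀ :=
    le_of_pow_le_pow_left₀ (by norm_num) (by positivity) (hs.trans_le rD)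
  obtain ⟨s1, s2⟩ := le_min_iff.1 s1
  obtain ⟨β₀, b0, b1, b2, h⟩ := H Z E l r r ι Φ β hZ hE
    ⟨s0, r0, hs.ge, le_rfl, by nlinarith⟩ s2 hs.symm hΦ hβ β0 β1
  have bB := bd_BB (ι := ι) Z r0
  have bS := bd_Sw (ι := ι) hβ (by positivity) β1
  have bT := ((bS.pow 2).const_mul r).add (bS.mul (bB.const_mul r).sqrt)
  have b3 : ∀ y : E3, ‖y‖ < r → β₀ y = 0 := fun y hy => le_antisymm ((b2 y).trans_eq
    (if_neg fun a => absurd a.1 (not_le.2 hy))) (b1 y)
  rw [Ex_add hΦ.sm ((bB.const_mul _).add (bT.const_mul C)).loc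
    (loc_sum _ fun j _ => loc_Vscr b0 _ _ j),
    Ex_add hΦ.sm (bB.const_mul _).loc (bT.const_mul C).loc, Ex_const_mul, Ex_const_mul] at h
  have q := hR ι Φ hΦ β₀ b0 b1 fun y hy => b3 y (by linarith)
  rw [show 2 * (r / 8) = r / 4 by ring] at q
  have q2 : Ex Φ (fun X => Sw β₀ X ^ 2) ≤ K / r * bb Z E r Φ := by
    refine le_trans (Ex_mono hΦ.sm ((bd_Sw b0 r0 b3).pow 2).loc ((bd_Sge r0).pow 2).loc
      fun X _ => ?_) (hH.2.2 ι Φ hΦ)
    refine pow_le_pow_left₀ (Finset.sum_nonneg fun j _ => mul_nonneg (b1 _) (by positivity))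
      (Finset.sum_le_sum fun j _ => ?_) 2
    split_ifs with a
    · exact mul_le_of_le_one_left (by positivity) ((b2 _).trans (by split_ifs <;> norm_num))
    · rw [b3 _ (not_le.1 a), zero_mul]
  have e0 := hE.ee_nonneg hΦ
  have n0 : 0 ≤ r⁻¹ ^ 7 * Nm Φ := mul_nonneg (by positivity) (Nm_nonneg Φ)
  have q3 : bb Z E (r / 8) Φ ≤ 8 ^ 7 * bb Z E r Φ := by
    rw [bb, bb, show (r / 8)⁻¹ ^ 7 = 8 ^ 7 * r⁻¹ ^ 7 by field_simp]
    linarith
  have q4 := step_exBB r0 hE hH hΦ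
  have B0 := Ex_nonneg Φ (step_BB_nn (ι := ι) Z r0)
  have q5 : Ex Φ (fun X => r * Sw β X ^ 2 + Sw β X * √(r * BB Z r X)) ≤
      Ex Φ fun X => 2 * r * Sw β X ^ 2 + BB Z r X := by
    refine Ex_mono hΦ.sm bT.loc (((bS.pow 2).const_mul _).add bB).loc
      fun X _ => le_of_mul_le_mul_left ?_ r0
    have := Real.sq_sqrt (mul_nonneg r0.le (step_BB_nn Z r0 X))
    nlinarith [sq_nonneg (r * Sw β X - √(r * BB Z r X)), sq_nonneg (r * Sw β X),
      sq_nonneg √(r * BB Z r X)]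
  rw [Ex_add hΦ.sm ((bS.pow 2).const_mul _).loc bB.loc, Ex_const_mul] at q5
  have c0 := hE.bb_nonneg hΦ r0.le
  have q1 : ee Z E Φ ≤ bb Z E r Φ := le_add_of_nonneg_right n0
  have q6 := mul_le_mul_of_nonneg_left q2 (by positivity : 0 ≤ r / 8)
  rw [show r / 8 * (K / r * bb Z E r Φ) = K / 8 * bb Z E r Φ by field_simp] at q6
  have q7 := q.trans (mul_le_mul_of_nonneg_left (add_le_add q3 q6) K2.le)
  have q8 : 0 ≤ r * Ex Φ fun X => Sw β X ^ 2 :=
    mul_nonneg r0.le (Ex_nonneg Φ fun _ => sq_nonneg _)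
  have q9 := mul_le_mul_of_nonneg_left (q5.trans (add_le_add le_rfl q4)) C0.le
  have q10 : C * l * Ex Φ (BB Z r) ≤ C * ((3 * K + 1) * bb Z E r Φ) := by
    rw [mul_assoc]
    exact mul_le_mul_of_nonneg_left ((mul_le_of_le_one_left B0 s1).trans q4) C0.le
  have q11 : 0 ≤ (1 + 2 * C * (3 * K + 1) + K₂ * (8 ^ 7 + K)) *
      (r * Ex Φ fun X => Sw β X ^ 2) := by positivity
  have q12 : 0 ≤ C * bb Z E r Φ := by positivity
  have q13 : 0 ≤ K₂ * K * bb Z E r Φ := by positivity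
  nlinarith

end Pool.Agent.Lib.ION
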