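import Pool.Agent.Lib.ION.VIR1

/-!
# The potential terms of the localised virial identity
-/

open MeasureTheory Filter Topology Finset
open scoped ContDiff ENNReal RealInnerProductSpace

noncomputable section

namespace Pool.Agent.Lib.ION.Vir

open Pool.Agent.Lib.MP_6c3a95_mp hiding vf dvf mf dmf Lam good_vf good_mf mf_bd div_vf vv sum_vf
  sum_vf_inner Lam_HI Lam_cv Lam_good Lam_self Lam_W Lam_nuc Lam_pair kinetic kin_pt

variable {N : ℕ} {a ε : ℝ}

/-- the virial functional -/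
def Lam (a ε : ℝ) (u : Cf N → ℝ) (G : Fin N × Fin 3 → Cf N → ℝ) (F : Cf N → ℝ) : ℝ :=
  ∑ α, Tri volume (vf a ε α) (G α) F + Tri volume (mf a ε) u F

/-- the radial weight -/
def be (a ε : ℝ) (y : E3) : ℝ := ph a ε (sL a y)

lemma sum_vf (a ε : ℝ) (x : Cf N) : ∑ α, vf a ε α x • ed α = fun i => be a ε (x i) • x i := by
  ext i b
  rw [Fintype.sum_prod_type, Finset.sum_apply, sum_eq_single i]
  · simp only [Finset.sum_apply, Pi.smul_apply, ed_apply, if_true, Fin.sum_univ_three, vf, be,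
      inner_bv]
    fin_cases b <;> simp [bv_apply]
  · intro j _ hj
    simp [Finset.sum_apply, ed_apply, hj.symm]
  · simp

lemma sum_vf_inner (a ε : ℝ) (L : Cf N →L[ℝ] E3) (x : Cf N) :
    ∑ α, vf a ε α x * ⟪L x, L (ed α)⟫ = ⟪L x, L fun i => be a ε (x i) • x i⟫ := by
  rw [← sum_vf, map_sum, inner_sum]
  simp only [map_smul, real_inner_smul_right]

lemma be_eq (a ε : ℝ) (y : E3) :
    be a ε y = sL a y * fA ε (sL a y) * pp (fZ a (sL a y)) ^ 3 := by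
  have := pp_mul (fZ a (sL a y))
  simp only [be, ph]
  linear_combination (sL a y * fA ε (sL a y) * pp (fZ a (sL a y))) * this

lemma be_nonneg (ha : 0 < a) (ε : ℝ) (y : E3) : 0 ≤ be a ε y := by
  have := sL_pos ha y
  have := fA_pos ε (sL a y)
  have := pp_nonneg (fZ a (sL a y))
  rw [be_eq]; positivity

lemma be_zero (ha : 0 < a) (ε : ℝ) {y : E3} (hy : ‖y‖ < a) : be a ε y = 0 := by
  simp [be_eq, pp_zero ha hy]

lemma be_le (ha : 0 < a) (ε : ℝ) (y : E3) : be a ε y ≤ 2 * ‖y‖ := by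
  rcases lt_or_ge ‖y‖ a with h | h
  · rw [be_zero ha ε h]; positivity
  have h1 := sL_pos ha y
  have h2 := sL_le ha.le y
  have h3 : pp (fZ a (sL a y)) ≤ 1 := max_le (by
    have : 0 ≤ fZ a (sL a y) := by unfold fZ; positivity
    linarith) zero_le_one
  have h4 := pp_nonneg (fZ a (sL a y))
  have h5 := fA_le ε (sL a y)
  have h6 := fA_pos ε (sL a y)
  rw [be_eq]
  calc _ ≤ sL a y * 1 * 1 ^ 3 := by gcongr
    _ ≤ _ := by linarith

lemma be_bd (ha : 0 < a) (hε : 0 < ε) : Bd (be a ε) := bph (ContinuousLinearMap.id ℝ E3) ha hε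

/-- monotonicity of the radial profile -/
lemma be_mono (ha : 0 < a) (ε : ℝ) {x y : E3} (h : ‖y‖ ≤ ‖x‖) :
    ‖x‖ / sL a x * pp (fZ a (sL a x)) ^ 3 * (fA ε (sL a x) * fA ε (sL a y) * (‖x‖ ^ 2 - ‖y‖ ^ 2)) ≤
      be a ε x * ‖x‖ - be a ε y * ‖y‖ := by
  have hs := sL_pos ha x
  have ht := sL_pos ha y
  have hs2 := sL_sq a x
  have ht2 := sL_sq a y
  have h2 : ‖y‖ ^ 2 ≤ ‖x‖ ^ 2 := pow_le_pow_left₀ (norm_nonneg _) h 2
  have a1 : ‖y‖ / sL a y ≤ ‖x‖ / sL a x := by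
    rw [div_le_div_iff₀ ht hs]
    refine abs_le_of_sq_le_sq' ?_ (by positivity) |>.2
    rw [mul_pow, mul_pow, hs2, ht2]
    nlinarith [mul_le_mul_of_nonneg_right h2 (sq_nonneg a)]
  have a2 : pp (fZ a (sL a y)) ≤ pp (fZ a (sL a x)) := by
    refine max_le_max ?_ le_rfl
    have : fZ a (sL a x) ≤ fZ a (sL a y) := by
      exact div_le_div_of_nonneg_left (sq_nonneg a) (by positivity) (by linarith)
    linarith
  have a3 := pp_nonneg (fZ a (sL a y))
  have a4 := fA_pos ε (sL a y)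
  have e1 := fA_eq ε (sL a x)
  have e2 := fA_eq ε (sL a y)
  have e : ∀ z : E3, be a ε z * ‖z‖ =
      ‖z‖ / sL a z * pp (fZ a (sL a z)) ^ 3 * (sL a z ^ 2 * fA ε (sL a z)) := fun z => by
    have := sL_pos ha z
    rw [be_eq]; field_simp
  have e3 : fA ε (sL a x) * fA ε (sL a y) * (‖x‖ ^ 2 - ‖y‖ ^ 2) =
      sL a x ^ 2 * fA ε (sL a x) - sL a y ^ 2 * fA ε (sL a y) := by
    have : ‖x‖ ^ 2 - ‖y‖ ^ 2 = sL a x ^ 2 - sL a y ^ 2 := by linarith
    rw [this]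
    linear_combination (sL a x ^ 2 * fA ε (sL a x)) * e2 - (sL a y ^ 2 * fA ε (sL a y)) * e1
  rw [e, e, e3, mul_sub]
  gcongr

/-- numerator of the pair kernel -/
def Nu (a ε : ℝ) (x y : E3) : ℝ := ⟪x - y, be a ε x • x - be a ε y • y⟫

lemma Nu_eq (a ε : ℝ) (x y : E3) : Nu a ε x y =
    (be a ε x * ‖x‖ - be a ε y * ‖y‖) * (‖x‖ - ‖y‖) +
      (be a ε x + be a ε y) * (‖x‖ * ‖y‖ - ⟪x, y⟫) := by
  simp only [Nu, inner_sub_left, inner_sub_right, real_inner_smul_right,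
    real_inner_self_eq_norm_sq, real_inner_comm x y]
  ring

lemma Nu_comm (a ε : ℝ) (x y : E3) : Nu a ε x y = Nu a ε y x := by
  rw [Nu_eq, Nu_eq, real_inner_comm x y]; ring

lemma Nu_nonneg (ha : 0 < a) (ε : ℝ) (x y : E3) : 0 ≤ Nu a ε x y := by
  wlog h : ‖y‖ ≤ ‖x‖ generalizing x y
  · rw [Nu_comm]; exact this y x (le_of_not_ge h)
  have h1 := be_mono ha ε h
  have := sL_pos ha x
  have := pp_nonneg (fZ a (sL a x))
  have := fA_pos ε (sL a x)
  have := fA_pos ε (sL a y)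
  have : 0 ≤ ‖x‖ ^ 2 - ‖y‖ ^ 2 := sub_nonneg.2 (pow_le_pow_left₀ (norm_nonneg _) h 2)
  rw [Nu_eq]
  exact add_nonneg (mul_nonneg (le_trans (by positivity) h1) (sub_nonneg.2 h))
    (mul_nonneg (add_nonneg (be_nonneg ha ε x) (be_nonneg ha ε y))
      (sub_nonneg.2 (real_inner_le_norm x y)))

lemma far {L : ℝ} (ha : 0 < a) (hL : ε ^ 2 * (L ^ 2 + a ^ 2) ≤ 1) {x : E3} (h1 : 2 * a ≤ ‖x‖)
    (h2 : ‖x‖ < L) : 1 / 2 ≤ fA ε (sL a x) ∧ 3 / 5 ≤ pp (fZ a (sL a x)) ∧ 4 / 5 ≤ ‖x‖ / sL a x := by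
  have hs := sL_pos ha x
  have hs2 := sL_sq a x
  have h3 := pow_le_pow_left₀ (by positivity) h1 2
  have h4 := pow_le_pow_left₀ (norm_nonneg _) h2.le 2
  refine ⟨?_, le_max_of_le_left ?_, ?_⟩
  · unfold fA
    refine one_div_le_one_div_of_le (by positivity) ?_
    nlinarith [mul_le_mul_of_nonneg_left h4 (sq_nonneg ε)]
  · have : fZ a (sL a x) ≤ 1 / 5 := by
      rw [fZ, div_le_div_iff₀ (by positivity) (by positivity)]; nlinarith
    linarith
  · rw [div_le_div_iff₀ (by positivity) hs]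
    refine abs_le_of_sq_le_sq' ?_ (by positivity) |>.2
    nlinarith

lemma Nu_far {L : ℝ} (ha : 0 < a) (hL : ε ^ 2 * (L ^ 2 + a ^ 2) ≤ 1) {x y : E3} (h1 : 2 * a ≤ ‖x‖)
    (h2 : ‖x‖ < L) (h3 : 2 * a ≤ ‖y‖) (h4 : ‖y‖ < L) : 1 / 25 * ‖x - y‖ ^ 3 ≤ Nu a ε x y := by
  wlog h : ‖y‖ ≤ ‖x‖ generalizing x y
  · rw [Nu_comm, norm_sub_rev]; exact this h3 h4 h1 h2 (le_of_not_ge h)
  have b : ∀ z : E3, 2 * a ≤ ‖z‖ → ‖z‖ < L → 2 / 25 * ‖z‖ ≤ be a ε z := fun z z1 z2 => by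
    obtain ⟨c1, c2, -⟩ := far ha hL z1 z2
    have := norm_le_sL a z
    rw [be_eq]
    calc 2 / 25 * ‖z‖ ≤ ‖z‖ * (1 / 2) * (3 / 5) ^ 3 := by nlinarith [norm_nonneg z]
      _ ≤ _ := by gcongr; exacts [mul_nonneg ((norm_nonneg _).trans this) (fA_pos _ _).le,
        (norm_nonneg _).trans this]
  obtain ⟨c1, c2, c3⟩ := far ha hL h1 h2
  obtain ⟨c4, -, -⟩ := far ha hL h3 h4
  have m := be_mono ha ε h
  have d : 0 ≤ ‖x‖ ^ 2 - ‖y‖ ^ 2 := sub_nonneg.2 (pow_le_pow_left₀ (norm_nonneg _) h 2)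
  have m2 : 4 / 5 * (3 / 5) ^ 3 * (1 / 2 * (1 / 2) * (‖x‖ ^ 2 - ‖y‖ ^ 2)) ≤
      be a ε x * ‖x‖ - be a ε y * ‖y‖ := by
    refine le_trans ?_ m
    have := sL_pos ha x
    have := pp_nonneg (fZ a (sL a x))
    gcongr
  have i := sub_nonneg.2 (real_inner_le_norm x y)
  have n := norm_sub_sq_real x y
  have n2 := norm_sub_le x y
  have k1 := mul_le_mul_of_nonneg_right m2 (sub_nonneg.2 h)
  have k2 := mul_le_mul_of_nonneg_right (add_le_add (b x h1 h2) (b y h3 h4)) i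
  have k3 := mul_le_mul_of_nonneg_right n2 (sq_nonneg ‖x - y‖)
  have k4 := mul_nonneg d (sub_nonneg.2 h)
  rw [Nu_eq, pow_succ' _ 2]
  rw [n] at k3 ⊢
  nlinarith

section
variable (ha : 0 < a) (hε : 0 < ε) {u : Cf N → ℝ} {G : Fin N × Fin 3 → Cf N → ℝ}
  (hu : MemLp u 2 volume) (hG : ∀ α, MemLp (G α) 2 volume) (hw : ∀ α, WD volume u (G α) (ed α))

include ha hε hu hG in
lemma Lam_HI {F : Cf N → ℝ} (hF : MemLp F 2 volume) :
    HI volume (fun x => ∑ α, vf a ε α x * G α x * F x + mf a ε x * u x * F x) (Lam a ε u G F) :=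
  (HI.sum univ fun α _ => HI.tri (good_vf ha hε α α).bd (hG α) hF).add
    (HI.tri (mf_bd ha hε) hu hF)

include ha hε hu hG in
lemma Lam_cv {F : ℕ → Cf N → ℝ} {F0 : Cf N → ℝ} (h : Cv volume F F0) :
    Tendsto (fun n => Lam a ε u G (F n)) atTop (𝓝 (Lam a ε u G F0)) :=
  (tendsto_finsetSum univ fun α _ => (Cv.const (hG α)).tri h (good_vf ha hε α α).bd).add
    ((Cv.const hu).tri h (mf_bd ha hε))

include ha hε hu hG hw in
lemma Lam_good {c : Cf N → ℝ} {dc : Fin N × Fin 3 → Cf N → ℝ} (hc0 : MemLp c ⊤ volume)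
    (hc : ∀ α, Good volume c (dc α) (ed α)) :
    HI volume (fun x => -(1 / 2) * ((∑ α, vf a ε α x * dc α x) * u x * u x))
      (Lam a ε u G fun x => c x * u x) := by
  have g := fun α => (good_vf ha hε α α).mul (hc α)
  have h0 := sum_eq_zero (s := univ) fun α _ => ibpW (g α) hu (hG α) (hw α)
  have i1 := HI.sum univ fun α _ => (HI.tri (g α).bd' hu hu).add
      ((HI.tri (g α).bd hu (hG α)).const_mul 2)
  have i2 := Lam_HI ha hε hu hG (hu.mul' (r := 2) hc0)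
  have i3 := (HI.tri (memLp_finsetSum univ fun α _ =>
    (hc α).bd'.mul' (r := ⊤) (good_vf ha hε α α).bd) hu hu).const_mul (-(1 / 2))
  have e := (i3.add (i1.const_mul (1 / 2))).eq_of i2 fun x => by
    have hd := div_vf (ε := ε) ha x
    simp only [add_mul, sum_add_distrib, ← sum_mul, ← mul_sum, hd]
    have : ∑ α, vf a ε α x * c x * u x * G α x = (∑ α, vf a ε α x * G α x) * (c x * u x) := by
      rw [sum_mul]; exact sum_congr rfl fun α _ => by ring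
    rw [this]; ring
  rw [h0, mul_zero, add_zero] at e
  exact e ▸ i3

include ha hε hu hG hw in
lemma Lam_self : Lam a ε u G u = 0 := by
  have h := (Lam_good ha hε hu hG hw (c := fun _ => 1) (dc := fun _ _ => 0) (memLp_top_const _)
    fun α => ⟨memLp_top_const _, memLp_top_const _, LD.const _ _⟩).eq
  simpa using h.symm

include ha hε hu hG hw in
lemma Lam_W (L : Cf N →L[ℝ] E3) {η : ℝ} (hη : 0 < η) :
    HI volume (fun x => 1 / 2 * (⟪L x, L fun i => be a ε (x i) • x i⟫ / sL η (L x) ^ 3 * u x ^ 2))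
      (Lam a ε u G fun x => 1 / sL η (L x) * u x) := by
  have h := Lam_good ha hε hu hG hw (Bd_inv L hη).memLp fun α => good_W L hη (ed α)
  have e : (fun x => 1 / 2 * (⟪L x, L fun i => be a ε (x i) • x i⟫ / sL η (L x) ^ 3 * u x ^ 2)) =
      fun x => -(1 / 2) *
        ((∑ α, vf a ε α x * -(⟪L x, L (ed α)⟫ / sL η (L x) ^ 3)) * u x * u x) := by
    ext x
    rw [← sum_vf_inner]
    simp only [mul_neg, sum_neg_distrib, ← mul_div_assoc, ← sum_div]
    ring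
  rw [e]; exact h

include ha hε hu hG hw in
lemma Lam_nuc (i : Fin N) (hi : Integrable fun x : Cf N => be a ε (x i) * ‖x i‖⁻¹ * u x ^ 2) :
    Lam a ε u G (fun x => 1 / ‖x i‖ * u x) ≤
      1 / 2 * ∫ x : Cf N, be a ε (x i) * ‖x i‖⁻¹ * u x ^ 2 := by
  refine le_of_tendsto' (Lam_cv ha hε hu hG (cv_nuc hu hG hw i)) fun n => ?_
  refine (Lam_W ha hε hu hG hw (pr i) (eta_pos n)).le ((HI.of hi).const_mul (1 / 2)) ?_
  filter_upwards [ae_nz] with x hx
  have hr : 0 < ‖x i‖ := norm_pos_iff.2 (hx i)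
  have := be_nonneg ha ε (x i)
  simp only [pr_apply, real_inner_smul_right, real_inner_self_eq_norm_sq]
  rw [show be a ε (x i) * ‖x i‖⁻¹ = be a ε (x i) * ‖x i‖ ^ 2 / ‖x i‖ ^ 3 by field_simp]
  gcongr
  exact norm_le_sL _ _

include ha hε hu hG hw in
lemma Lam_pair {i j : Fin N} (hij : j ≠ i) {B : Cf N → ℝ} {M : ℝ} (hM : ∀ x, |B x| ≤ M)
    (hi : Integrable fun x => B x * u x ^ 2)
    (hB : ∀ x, x i ≠ x j → B x * ‖x i - x j‖ ^ 3 ≤ Nu a ε (x i) (x j)) :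
    1 / 2 * ∫ x, B x * u x ^ 2 ≤ Lam a ε u G (fun x => 1 / ‖x i - x j‖ * u x) := by
  have hM0 : 0 ≤ M := (abs_nonneg _).trans (hM 0)
  have c := (be_bd ha hε).cont
  have hm : ∀ η, Measurable fun x : Cf N => Nu a ε (x i) (x j) / sL η (x i - x j) ^ 3 := fun η => by
    have := sL_cont η
    unfold Nu
    exact Measurable.div (Continuous.measurable (by fun_prop)) (Continuous.measurable (by fun_prop))
  have h0 : ∀ η (x : Cf N), 0 ≤ Nu a ε (x i) (x j) / sL η (x i - x j) ^ 3 := fun η x =>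
    div_nonneg (Nu_nonneg ha ε _ _) (pow_nonneg (Real.sqrt_nonneg _) 3)
  have ht := (min_tendsto hM0 (fun n => hm (eta n)) (fun n => h0 _) hu
    (g := fun x : Cf N => Nu a ε (x i) (x j) / sL 0 (x i - x j) ^ 3) (by
      filter_upwards [ae_inj] with x hx
      rw [sL_zero]
      exact tendsto_const_nhds.div ((sL_tendsto eta_tendsto _).pow 3) (pow_ne_zero _
        (norm_ne_zero_iff.2 (sub_ne_zero.2 fun h => hij (hx h).symm))))).const_mul (1 / 2)
  refine le_trans ?_ (le_of_tendsto_of_tendsto' ht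
    (Lam_cv ha hε hu hG (cv_pair hu hG hw hij)) fun n => ?_)
  · refine ((HI.of hi).const_mul (1 / 2)).le ((HI.of (min_int hM0 (hm 0)
      (Eventually.of_forall (h0 0)) hu)).const_mul (1 / 2)) ?_
    filter_upwards [ae_inj] with x hx
    have hn : x i ≠ x j := fun h => hij (hx h).symm
    have hp := norm_pos_iff.2 (sub_ne_zero.2 hn)
    refine mul_le_mul_of_nonneg_left (mul_le_mul_of_nonneg_right
      (le_min ?_ (le_of_abs_le (hM x))) (sq_nonneg _)) (by norm_num)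
    rw [sL_zero, le_div_iff₀ (by positivity)]
    exact hB x hn
  · refine ((HI.of (min_int hM0 (hm (eta n)) (Eventually.of_forall (h0 _)) hu)).const_mul
      (1 / 2)).le (Lam_W ha hε hu hG hw (pr i - pr j) (eta_pos n)) (Eventually.of_forall fun x => ?_)
    exact mul_le_mul_of_nonneg_left (mul_le_mul_of_nonneg_right (min_le_left _ _) (sq_nonneg _))
      (by norm_num)

end

end Pool.Agent.Lib.ION.Vir
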