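import Pool.Agent.Lib.ION.Blue2
import Pool.Agent.Lib.ION.VIR2

/-!
# The localised virial inequality
-/

open MeasureTheory Filter Topology Finset
open scoped ContDiff RealInnerProductSpace

noncomputable section

namespace Pool.Agent.Lib.ION

open Pool.Agent.Lib.MP_6c3a95_mp hiding vf dvf mf dmf Lam good_vf good_mf mf_bd div_vf vv sum_vf
  sum_vf_inner Lam_HI Lam_cv Lam_good Lam_self Lam_W Lam_nuc Lam_pair kinetic kin_pt

namespace Vir

lemma int_bd {N : ℕ} {f u : Cfg (Fin N) → ℝ} (hf : Bd f) (hu : MemLp u 2) :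
    Integrable fun x => f x * u x ^ 2 := by
  obtain ⟨M, hM⟩ := hf.bdd
  exact hu.integrable_sq.bdd_mul hf.meas.aestronglyMeasurable (Eventually.of_forall hM)

/-- indicator of the outer shell -/
def Io (r L : ℝ) (y : E3) : ℝ := if 16 * r ≤ ‖y‖ ∧ ‖y‖ < L then 1 else 0

lemma pair_pt {r ε L : ℝ} (hr : 0 < r) (hL : ε ^ 2 * (L ^ 2 + (8 * r) ^ 2) ≤ 1) {x y : E3}
    (hxy : x ≠ y) :
    ((be (8 * r) ε y * if ‖x‖ < 2 * r then Kf x y else 0) +
      (be (8 * r) ε x * if ‖y‖ < 2 * r then Kf y x else 0) + 1 / 25 * (Io r L x * Io r L y)) *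
      ‖x - y‖ ^ 3 ≤ Nu (8 * r) ε x y := by
  have ha : 0 < 8 * r := by positivity
  have k : ∀ x y : E3, x ≠ y → ‖x‖ < 2 * r → be (8 * r) ε x = 0 ∧ Io r L x = 0 ∧
      be (8 * r) ε y * Kf x y * ‖y - x‖ ^ 3 = Nu (8 * r) ε x y := fun x y hxy h => by
    have h0 := be_zero ha ε (show ‖x‖ < 8 * r by linarith)
    have hp := norm_pos_iff.2 (sub_ne_zero.2 hxy.symm)
    refine ⟨h0, if_neg fun h2 => by linarith [h2.1], ?_⟩
    rw [Nu, h0, zero_smul, zero_sub, inner_neg_right, ← inner_neg_left, neg_sub,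
      real_inner_smul_right, real_inner_comm, Kf]
    field_simp
  by_cases h1 : ‖x‖ < 2 * r
  · obtain ⟨k1, k2, k3⟩ := k x y hxy h1
    rw [if_pos h1, k1, k2, ← k3, norm_sub_rev]
    simp
  by_cases h2 : ‖y‖ < 2 * r
  · obtain ⟨k1, k2, k3⟩ := k y x hxy.symm h2
    rw [if_pos h2, k1, k2, Nu_comm, ← k3]
    simp
  simp only [if_neg h1, if_neg h2, mul_zero, zero_add, Io]
  split_ifs with h3 h4
  · simpa using Nu_far ha hL (by linarith [h3.1]) h3.2 (by linarith [h4.1]) h4.2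
  · simpa using Nu_nonneg ha ε x y
  · simpa using Nu_nonneg ha ε x y
  · simpa using Nu_nonneg ha ε x y

end Vir

open Vir in
theorem st_vir (h : St_kf) : St_vir := by
  obtain ⟨C, hC, hk⟩ := kinetic
  refine ⟨100 * C, by positivity, fun N Z lam r L u G hZ ws hr hL => ?_⟩
  have ha : 0 < 8 * r := by positivity
  obtain ⟨ε, hε, hεL⟩ : ∃ ε > 0, ε ^ 2 * (L ^ 2 + (8 * r) ^ 2) ≤ 1 :=
    ⟨(√(L ^ 2 + (8 * r) ^ 2))⁻¹, by positivity, by
      rw [inv_pow, Real.sq_sqrt (by positivity), inv_mul_cancel₀ (by positivity)]⟩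
  have hβ : Bd (be (8 * r) ε) := ⟨(be_bd ha hε).cont.measurable, (be_bd ha hε).bd⟩
  have h0 : ∀ y : E3, ‖y‖ < 8 * r → be (8 * r) ε y = 0 := fun y => be_zero ha ε
  refine ⟨be (8 * r) ε, hβ, fun y => ⟨be_nonneg ha ε y, be_le ha ε y⟩, h0, ?_⟩
  obtain ⟨b1, b2⟩ := h.2 (Fin N) Z r (2 * r) _ hr (by linarith) hβ h0
  have hu := ws.hu
  have hG : ∀ α : Fin N × Fin 3, MemLp (G α.1 α.2) 2 := fun α => ws.hG _ _
  have hw : ∀ α : Fin N × Fin 3, WD volume u (G α.1 α.2) (ed α) := fun α φ hφ =>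
    ws.hd α.1 α.2 φ hφ.1 hφ.2
  have q : ∀ i, MemLp (fun x : Cf N => 1 / ‖x i‖ * u x) 2 := fun i => (cv_nuc hu hG hw i).lim
  have p : ∀ i j, MemLp (fun x : Cf N => 1 / ‖x i - x j‖ * u x) 2 := fun i j => by
    by_cases hij : j = i
    · exact (MemLp.zero' (p := 2)).ae_eq (Eventually.of_forall fun x => by simp [hij])
    · exact (cv_pair hu hG hw hij).lim
  have eF : ∀ x, (VOn Z univ x - lam) * u x = -Z * ∑ i, 1 / ‖x i‖ * u x +
      1 / 2 * ∑ i, ∑ j, 1 / ‖x i - x j‖ * u x - lam * u x := fun x => by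
    simp only [VOn, ← sum_mul, one_div ‖_‖]; ring
  have hF : MemLp (fun x => (VOn Z univ x - lam) * u x) 2 := by
    exact ((((memLp_finsetSum univ fun i _ => q i).const_mul (-Z)).add
      ((memLp_finsetSum univ fun i _ => memLp_finsetSum univ fun j _ => p i j).const_mul
        (1 / 2))).sub (hu.const_mul lam)).ae_eq (Eventually.of_forall fun x => (eF x).symm)
  have po := pohozaev ed hu hG hF hw (fun φ hφ => by
    have i1 := HI.sum univ fun α _ => HI.of ((hG α).integrable_mul (hφ.dd (ed α)).memLp)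
    have i2 := HI.of (hF.integrable_mul hφ.memLp)
    have i3 := (HI.of (hu.integrable_mul hφ.memLp)).const_mul lam
    have e := ((i1.add i2).add i3).eq
    have e2 := ws.heq φ hφ.1 hφ.2
    simp only [Pi.mul_apply, dd] at e
    have e3 : ∫ X, (∑ j, ∑ a, G j a X * fderiv ℝ φ X (ev j a) + VOn Z univ X * u X * φ X) = _ :=
      (integral_congr_ae (Eventually.of_forall fun x => by
        simp only [Fintype.sum_prod_type]
        change _ = ∑ j, ∑ a, G j a x * fderiv ℝ φ x (ev j a) + _ + _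
        ring)).trans e
    linarith) (good_vf ha hε) (good_mf ha hε) (mf_bd ha hε) (div_vf ha)
  have k := hk ha hε hG hu (int_bd (bd_Sge ha) hu)
  have l : Lam (8 * r) ε u (fun α => G α.1 α.2) (fun x => (VOn Z univ x - lam) * u x) = _ :=
    (Lam_HI ha hε hu hG hF).eq_of
      ((((HI.sum univ fun i _ => Lam_HI ha hε hu hG (q i)).const_mul (-Z)).add
      ((HI.sum univ fun i _ => HI.sum univ fun j _ => Lam_HI ha hε hu hG (p i j)).const_mul
        (1 / 2))).sub ((Lam_HI ha hε hu hG hu).const_mul lam)) fun x => by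
      simp only [← sum_mul, ← add_mul, eF, ← mul_sum]
      ring
  rw [Lam_self ha hε hu hG hw] at l
  have bn : ∀ i, Bd fun x : Cf N => be (8 * r) ε (x i) * ‖x i‖⁻¹ := fun i =>
    (bd_mul_inv hβ ha h0).comp (measurable_pi_apply i)
  have n1 := mul_le_mul_of_nonneg_left
    (sum_le_sum fun i (_ : i ∈ univ) => Lam_nuc ha hε hu hG hw i (int_bd (bn i) hu)) hZ
  have bI : ∀ i, Bd fun x : Cf N => Io r L (x i) := fun i =>
    Bd.ite (by measurability) (Bd.const 1) (Bd.const 0)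
  set B : Fin N → Fin N → Cf N → ℝ := fun i j x =>
    (be (8 * r) ε (x j) * if ‖x i‖ < 2 * r then Kf (x i) (x j) else 0) +
      (be (8 * r) ε (x i) * if ‖x j‖ < 2 * r then Kf (x j) (x i) else 0) +
      1 / 25 * (Io r L (x i) * Io r L (x j) - if j = i then Io r L (x i) else 0) with hB
  have bB : ∀ i j, Bd (B i j) := fun i j =>
    ((b1 i j).add (b1 j i)).add ((((bI i).mul (bI j)).sub
      (Bd.ite (MeasurableSet.const _) (bI i) (Bd.const 0))).const_mul _)
  have n2 : ∀ i j, 1 / 2 * ∫ x, B i j x * u x ^ 2 ≤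
      Lam (8 * r) ε u (fun α => G α.1 α.2) fun x => 1 / ‖x i - x j‖ * u x := fun i j => by
    by_cases hij : j = i
    · subst hij
      have : ∀ x, B j j x = 0 := fun x => by
        simp only [hB, Kf, Io]
        split_ifs <;> simp
      simp [this, Lam, Tri]
    · obtain ⟨M, hM⟩ := (bB i j).bdd
      refine Lam_pair ha hε hu hG hw hij hM (int_bd (bB i j) hu) fun x hx => ?_
      simpa only [hB, if_neg hij, sub_zero] using pair_pt hr hεL hx
  have n3 := sum_le_sum fun i (_ : i ∈ univ) => sum_le_sum fun j (_ : j ∈ univ) => n2 i j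
  have e := ((HI.of (int_bd (((bd_Nbt (16 * r) L).pow 2).sub (bd_Nbt (16 * r) L)) hu)).sub
    ((HI.of (int_bd b2 hu)).const_mul 50)).eq_of
    (((HI.sum univ fun i _ => HI.sum univ fun j _ => HI.of (int_bd (bB i j) hu)).const_mul 25).sub
      ((HI.sum univ fun i _ => HI.of (int_bd (bn i) hu)).const_mul (50 * Z))) fun x => by
      have e1 : Nbt (16 * r) L x = ∑ i, Io r L (x i) := rfl
      simp only [← sum_mul, hB, VK, e1, sum_add_distrib, ← mul_sum, sum_sub_distrib, mul_sub,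
        sum_ite_eq', mem_univ, if_true]
      rw [sum_comm]
      simp only [← mul_sum, mul_left_comm _ Z]
      ring
  simp only [← mul_sum] at n1 n3
  unfold Lam at l n1 n3
  change -C * ∫ x, Sge (8 * r) x * u x ^ 2 ≤ _ at k
  linarith

end Pool.Agent.Lib.ION
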