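import Pool.Agent.Lib.ION.BR2
import Pool.Agent.Lib.ION.CELL
import Pool.Agent.Lib.ION.CMP
import Pool.Agent.Lib.ION.COH
import Pool.Agent.Lib.ION.P2Core
import Pool.Agent.Lib.ION.COST
import Pool.Agent.Lib.ION.COSTK
import Pool.Agent.Lib.ION.DET
import Pool.Agent.Lib.ION.F1
import Pool.Agent.Lib.ION.F2K
import Pool.Agent.Lib.ION.FM
import Pool.Agent.Lib.ION.FRAME
import Pool.Agent.Lib.ION.H2
import Pool.Agent.Lib.ION.HARDY
import Pool.Agent.Lib.ION.HARM
import Pool.Agent.Lib.ION.HARN
import Pool.Agent.Lib.ION.IMS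
import Pool.Agent.Lib.ION.INDK
import Pool.Agent.Lib.ION.INNER
import Pool.Agent.Lib.ION.KER
import Pool.Agent.Lib.ION.KF
import Pool.Agent.Lib.ION.KL
import Pool.Agent.Lib.ION.KO
import Pool.Agent.Lib.ION.LB
import Pool.Agent.Lib.ION.LBKIN
import Pool.Agent.Lib.ION.LOW
import Pool.Agent.Lib.ION.MEAS
import Pool.Agent.Lib.ION.NEWTON
import Pool.Agent.Lib.ION.ONS
import Pool.Agent.Lib.ION.PAULI
import Pool.Agent.Lib.ION.PIECE
import Pool.Agent.Lib.ION.PIECEK
import Pool.Agent.Lib.ION.RAD
import Pool.Agent.Lib.ION.SLICE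
import Pool.Agent.Lib.ION.STEP
import Pool.Agent.Lib.ION.STEP0
import Pool.Agent.Lib.ION.STEPK
import Pool.Agent.Lib.ION.SWEEP
import Pool.Agent.Lib.ION.T12
import Pool.Agent.Lib.ION.TFEX
import Pool.Agent.Lib.ION.TRANS
import Pool.Agent.Lib.ION.UP
import Pool.Agent.Lib.ION.UPFIN
import Pool.Agent.Lib.ION.VIR
import Pool.Agent.Lib.ION.WEDGE
import Pool.Agent.Lib.ION.P2Cx

/-!
# The excess charge is bounded by the excitation energy
-/

noncomputable section

namespace Pool.Agent.Lib.ION

theorem p2_core : COREK := by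
  have harm := st_harm st_newton
  have ker := st_ker st_newton
  have cmp := st_cmp harm
  have rad := st_rad st_newton
  have ko := st_ko harm cmp rad
  have neut := st_neut harm cmp st_shell
  have low := st_low harm cmp rad
  have tfb := st_tfb ko
  have trans := st_trans harm st_shell st_cs ker
  have wedge := st_wedge st_cs
  have ups := st_ups (st_up (st_coh ker) st_frame (st_upfin wedge st_cs) harm ker)
  have cell := st_cell st_pauli st_slice
  have lb := st_lb (st_ons harm ker ko) (st_lbkin cell ker) ker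
  have sweep := st_sweep st_newton st_shell
  have tfex := st_tfex st_cs
  have kf := st_kf harm
  obtain ⟨k, hk⟩ := st_det (st_t12 ko tfb trans st_shell) (st_up3 trans)
    (st_down ko tfb trans harm st_harn) low neut trans
  have step := st_step (st_piece ups lb (st_cost harm st_shell st_cs sweep trans tfb) tfex st_bin
    st_cs ker) st_ims st_partpi st_lab st_meas st_cut st_fm st_net
  have step0 := st_step0 ups lb (st_inner cell st_hardy) tfex (st_tf0 neut) low trans st_bin st_cut
    st_cs ker
  exact p2_coreK (st_indK st_kl (st_h2 st_ims st_meas st_cut) k hk.1 (step k hk) (step0 k hk))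
    (st_stepK (st_pieceK ups lb (st_costK harm st_shell st_cs sweep trans tfb) tfex st_bin st_cs ker
      kf) st_ims st_partpi st_lab st_meas st_cut st_fm st_net kf)
    (st_f1 st_ims st_lab st_cut st_slice (st_mono wedge ker))
    (st_f2K (st_vir kf) st_br2 kf) st_sup

end Pool.Agent.Lib.ION
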