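import Pool.Agent.Lib.ION.Basic

/-!
# One piece of the partition: pointwise lemmas
-/

open MeasureTheory Set Metric Real Filter Topology
open scoped ContDiff

set_option linter.unusedSectionVars false

noncomputable section

namespace Pool.Agent.Lib.ION

open Pool.Agent.Lib.MP_689e73_mp

variable {ι : Type} [Fintype ι] [DecidableEq ι]

/-- the nuclear potential screened by the particles in `A` -/
def VA (Z : ℝ) (A : Finset ι) (X : Cfg ι) (y : E3) : ℝ := Z * ‖y‖⁻¹ - ∑ i ∈ A, ‖y - X i‖⁻¹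

lemma piece_split (Z : ℝ) (A : Finset ι) (X : Cfg ι) :
    VOn Z Finset.univ X - VOn Z A X =
      1 / 2 * ∑ i ∈ Aᶜ, ∑ j ∈ Aᶜ, ‖X i - X j‖⁻¹ - ∑ j ∈ Aᶜ, VA Z A X (X j) := by
  have h1 : ∑ i ∈ A, ∑ j ∈ Aᶜ, ‖X i - X j‖⁻¹ = ∑ j ∈ Aᶜ, ∑ i ∈ A, ‖X j - X i‖⁻¹ := by
    rw [Finset.sum_comm]
    simp only [norm_sub_rev]
  simp only [VOn, VA, ← Finset.sum_add_sum_compl A, Finset.sum_add_distrib,
    Finset.sum_sub_distrib, ← Finset.mul_sum, h1]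
  ring

lemma piece_compl {A : Finset ι} {X : Cfg ι} {ϑ : E3 → ℝ} (h : ∀ i ∈ A, ϑ (X i) = 0)
    (f : ι → ℝ) : ∑ j, ϑ (X j) * f j = ∑ j ∈ Aᶜ, ϑ (X j) * f j := by
  rw [← Finset.sum_add_sum_compl A, Finset.sum_eq_zero fun i hi => by rw [h i hi, zero_mul],
    zero_add]

lemma piece_VA {A : Finset ι} {X : Cfg ι} {ϑ : E3 → ℝ} (h : ∀ i ∈ A, ϑ (X i) = 0) (Z : ℝ) :
    ∑ j ∈ Aᶜ, ϑ (X j) * VA Z A X (X j) = Z * Sw ϑ X - ∑ i ∈ A, Uw ϑ X (X i) := by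
  rw [← piece_compl h]
  simp only [VA, Sw, Uw, mul_sub, Finset.sum_sub_distrib, Finset.mul_sum]
  rw [Finset.sum_comm]
  simp only [norm_sub_rev, mul_left_comm]

lemma piece_Ww {A : Finset ι} {X : Cfg ι} {ϑ : E3 → ℝ} (h : ∀ i ∈ A, ϑ (X i) = 0)
    (h0 : ∀ y, 0 ≤ ϑ y) (h1 : ∀ y, ϑ y ≤ 1) :
    Ww ϑ X ≤ 1 / 2 * ∑ i ∈ Aᶜ, ∑ j ∈ Aᶜ, ‖X i - X j‖⁻¹ := by
  unfold Ww
  simp only [mul_assoc, ← Finset.mul_sum]
  rw [piece_compl h]
  refine mul_le_mul_of_nonneg_left (Finset.sum_le_sum fun i _ => ?_) (by norm_num)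
  rw [piece_compl h]
  refine (mul_le_of_le_one_left (Finset.sum_nonneg fun j _ => mul_nonneg (h0 _) (by positivity))
    (h1 _)).trans (Finset.sum_le_sum fun j _ => mul_le_of_le_one_left (by positivity) (h1 _))

lemma piece_VA_le {A : Finset ι} {X : Cfg ι} {R : ℝ} (h : ∀ j, j ∉ A → R ≤ ‖X j‖) (Z : ℝ)
    (y : E3) : VA Z A X y ≤ Vscr Z R X y := by
  unfold VA Vscr
  rw [← Finset.sum_add_sum_compl A, Finset.sum_eq_zero (s := Aᶜ) fun j hj =>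
    if_neg (not_lt.2 (h j (Finset.mem_compl.1 hj))), add_zero]
  refine sub_le_sub_left (Finset.sum_le_sum fun i _ => ?_) _
  split_ifs
  · exact le_rfl
  · positivity

lemma piece_le_VA {A : Finset ι} {X : Cfg ι} {R : ℝ} (h : ∀ i ∈ A, ‖X i‖ < R) (Z : ℝ)
    (y : E3) : Vscr Z R X y ≤ VA Z A X y := by
  unfold VA Vscr
  rw [← Finset.sum_add_sum_compl A]
  refine sub_le_sub_left ?_ _
  rw [Finset.sum_congr rfl fun i hi => if_pos (h i hi)]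
  exact le_add_of_nonneg_right (Finset.sum_nonneg fun j _ => by split_ifs <;> positivity)

lemma piece_card_le {A : Finset ι} {X : Cfg ι} {R : ℝ} (h : ∀ i ∈ A, ‖X i‖ < R) :
    (A.card : ℝ) ≤ Nlt R X := by
  unfold Nlt
  rw [← Finset.sum_add_sum_compl A, Finset.sum_congr rfl fun i hi => if_pos (h i hi)]
  simp only [Finset.sum_const, nsmul_eq_mul, mul_one]
  exact le_add_of_nonneg_right (Finset.sum_nonneg fun j _ => by split_ifs <;> positivity)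

lemma piece_le_card {A : Finset ι} {X : Cfg ι} {R : ℝ} (h : ∀ j, j ∉ A → R ≤ ‖X j‖) :
    Nlt R X ≤ A.card := by
  unfold Nlt
  rw [← Finset.sum_add_sum_compl A, Finset.sum_eq_zero (s := Aᶜ) fun j hj =>
    if_neg (not_lt.2 (h j (Finset.mem_compl.1 hj))), add_zero]
  refine (Finset.sum_le_sum (g := fun _ => (1 : ℝ)) fun i _ => ?_).trans (by simp)
  split_ifs <;> norm_num

lemma piece_compat {A : Finset ι} {X Y : Cfg ι} {ϑ : E3 → ℝ} (hX : ∀ i ∈ A, ϑ (X i) = 0)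
    (hY : ∀ i ∈ A, ϑ (Y i) = 0) (h : ∀ j, j ∉ A → X j = Y j) (f : E3 → ℝ) :
    ∑ j, ϑ (X j) * f (X j) = ∑ j, ϑ (Y j) * f (Y j) := by
  refine Finset.sum_congr rfl fun j _ => ?_
  by_cases hj : j ∈ A
  · rw [hX j hj, hY j hj, zero_mul, zero_mul]
  · rw [h j hj]

lemma piece_Vq {m : ℕ} (q : ℝ) (c : Fin m → ℝ) (p : Fin m → E3) (ϑ : E3 → ℝ) (X : Cfg ι) :
    ∑ j, ϑ (X j) * Vq q c p (X j) = q * Sw ϑ X + ∑ α, c α * (Uw ϑ X (p α) - Sw ϑ X) := by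
  simp only [Vq, Sw, Uw, mul_add, Finset.sum_add_distrib, Finset.mul_sum,
    ← Finset.sum_sub_distrib]
  rw [Finset.sum_comm]
  congr 1
  · exact Finset.sum_congr rfl fun j _ => by ring
  · refine Finset.sum_congr rfl fun α _ => Finset.sum_congr rfl fun j _ => ?_
    rw [norm_sub_rev (p α)]; ring

lemma piece_EV {m : ℕ} (q : ℝ) (c : Fin m → ℝ) (p : Fin m → E3) {ρ : E3 → ℝ} (h : LL ρ) :
    EV (Vq q c p) ρ = EQ q ρ - ∑ α, c α * (psi ρ (p α) - psi ρ 0) := by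
  have h1 := ((h.Hpsi 0).const_mul q).add
    (HI.sum Finset.univ fun α _ => ((h.Hpsi (p α)).sub (h.Hpsi 0)).const_mul (c α))
  have h2 : HI (fun y => Vq q c p y * ρ y) _ := h1.congr (Eventually.of_forall fun y => by
    simp only [Vq, zero_sub, norm_neg, add_mul, Finset.sum_mul, norm_sub_rev (p _)]
    congr 1
    · ring
    · exact Finset.sum_congr rfl fun α _ => by ring)
  rw [EV, EQ, h2.2]
  ring

lemma piece_pen {m : ℕ} {c F M Mb : Fin m → ℝ} {η w : ℝ} (hη : 0 < η)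
    (hc : ∀ α, η * c α = Mb α - M α) (hF : ∀ α, |F α - Mb α| ≤ w) :
    η / 2 * ∑ α, c α ^ 2 - m * (w ^ 2 / (2 * η)) ≤ ∑ α, c α * F α - ∑ α, c α * M α := by
  have : ∀ α, η / 2 * c α ^ 2 - w ^ 2 / (2 * η) ≤ c α * F α - c α * M α := fun α => by
    have h1 : c α * F α - c α * M α = η * c α ^ 2 + c α * (F α - Mb α) := by
      have : M α = Mb α - η * c α := by linarith [hc α]
      rw [this]; ring
    have h2 : (F α - Mb α) ^ 2 ≤ w ^ 2 := sq_le_sq' (abs_le.1 (hF α)).1 (abs_le.1 (hF α)).2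
    have h3 : (F α - Mb α) ^ 2 / (2 * η) ≤ w ^ 2 / (2 * η) := by gcongr
    have h4 : 0 ≤ (η * c α + (F α - Mb α)) ^ 2 / (2 * η) := by positivity
    have h5 : (η * c α + (F α - Mb α)) ^ 2 / (2 * η) =
        η / 2 * c α ^ 2 + c α * (F α - Mb α) + (F α - Mb α) ^ 2 / (2 * η) := by
      field_simp; ring
    linarith
  have := Finset.sum_le_sum fun α (_ : α ∈ Finset.univ) => this α
  simpa [Finset.sum_sub_distrib, Finset.mul_sum] using this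

lemma piece_Sw_le {ϑ : E3 → ℝ} (h1 : ∀ y, ϑ y ≤ 1) {r : ℝ} (h : ∀ y, ‖y‖ < r → ϑ y = 0)
    (X : Cfg ι) : Sw ϑ X ≤ Sge r X := by
  refine Finset.sum_le_sum fun j _ => ?_
  split_ifs with hj
  · exact mul_le_of_le_one_left (by positivity) (h1 _)
  · rw [h _ (not_le.1 hj), zero_mul]

lemma Sw_nonneg {ϑ : E3 → ℝ} (h0 : ∀ y, 0 ≤ ϑ y) (X : Cfg ι) : 0 ≤ Sw ϑ X :=
  Finset.sum_nonneg fun _ _ => mul_nonneg (h0 _) (by positivity)

lemma piece_BB {Z r : ℝ} (hr : 0 < r) (X : Cfg ι) :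
    2 * (r⁻¹ ^ 3 * Sge r X) ≤ BB Z r X ∧ r⁻¹ ^ 7 ≤ BB Z r X ∧
      max (Z - Nlt r X) 0 ≤ √(r * BB Z r X) := by
  have h1 : 0 ≤ max (Z - Nlt r X) 0 ^ 2 / r := by positivity
  have h2 : 0 ≤ max (Nlt (2 * r) X - Z) 0 ^ 2 / r := by positivity
  have h3 : 0 ≤ r * Sge r X ^ 2 := by positivity
  have h4 : 0 ≤ r⁻¹ ^ 7 := by positivity
  have h5 : 0 ≤ r * (Sge r X - r⁻¹ ^ 4) ^ 2 := by positivity
  have h6 : r * (Sge r X - r⁻¹ ^ 4) ^ 2 = r * Sge r X ^ 2 + r⁻¹ ^ 7 - 2 * (r⁻¹ ^ 3 * Sge r X) := by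
    field_simp; ring
  refine ⟨by unfold BB; linarith, by unfold BB; linarith, Real.le_sqrt_of_sq_le ?_⟩
  have : max (Z - Nlt r X) 0 ^ 2 / r ≤ BB Z r X := by unfold BB; linarith
  rwa [div_le_iff₀' hr] at this

lemma piece_cert {k : Cs} (hk : TFP k) {V ρ ϑ ℓ : E3 → ℝ} {Z a₀ a L r b b₀ D t t' : ℝ}
    {A : Finset ι} {X : Cfg ι} (hV : Ext V (Z - A.card) a₀) (h0 : a₀ < a) (h1 : 0 < a)
    (h2 : a ≤ 2 * r) (hL : 8 * k.T * r ≤ L) (hρ : TFS V a L ρ) (hw : Wt ϑ ℓ b b₀ (k.κ / 16))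
    (hb : b₀ ≤ 2 * r) (hD : Dv ϑ ℓ X ρ ≤ D) (hD0 : 0 ≤ D) (hA : ∀ i ∈ A, ‖X i‖ < b)
    (hbb : b ≤ b₀) (hB : ∀ j, j ∉ A → t ≤ ‖X j‖) (ht : b₀ ≤ t') :
    Cert k Z r X (D + Nbt t t' X ^ 2 / r) := by
  have hr : 0 < r := by linarith
  obtain ⟨t1, t2, t3, -⟩ := hk.2 V ρ ϑ ℓ _ a₀ a L r b b₀ D ι X hV h0 h1 h2 hL hρ hw hb hD
  have hC := hk.1.C
  have hN : 0 ≤ Nbt t t' X := Finset.sum_nonneg fun j _ => by split_ifs <;> norm_num
  have hle : D ≤ D + Nbt t t' X ^ 2 / r := le_add_of_nonneg_right (by positivity)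
  refine ⟨?_, t2.trans (by gcongr), fun hP hΔ => ?_⟩
  · have : (A.card : ℝ) + ∑ j, (if ‖X j‖ < 64 * r then ϑ (X j) else 0) ≤ Nlt (64 * r) X := by
      unfold Nlt
      rw [← Finset.sum_add_sum_compl A, ← Finset.sum_add_sum_compl A (f := fun j =>
        if ‖X j‖ < 64 * r then (1 : ℝ) else 0), Finset.sum_eq_zero (s := A) fun i hi => by
          rw [hw.inn _ (hA i hi), ite_self], zero_add,
        Finset.sum_congr (s₁ := A) rfl fun i hi =>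
          if_pos (by linarith [hA i hi] : ‖X i‖ < 64 * r)]
      simp only [Finset.sum_const, nsmul_eq_mul, mul_one]
      refine add_le_add le_rfl (Finset.sum_le_sum fun j _ => ?_)
      split_ifs
      · exact hw.le _
      · exact le_rfl
    refine le_trans (by linarith) (t1.trans ?_)
    gcongr
  · obtain ⟨p1, p2⟩ := t3 hP (hle.trans hΔ)
    refine ⟨p1, fun R hR => ?_⟩
    have hR0 : 0 < R := hr.trans_le hR
    have e1 : Nlt R X ≤ A.card + Nbt t t' X + ∑ j, (if ‖X j‖ < R then ϑ (X j) else 0) := by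
      have : (A.card : ℝ) = ∑ j, if j ∈ A then 1 else 0 := by simp
      rw [this]
      unfold Nlt Nbt
      simp only [← Finset.sum_add_distrib]
      refine Finset.sum_le_sum fun j _ => ?_
      have := hw.nn (X j)
      by_cases hj : j ∈ A
      · split_ifs <;> linarith
      · by_cases h3 : ‖X j‖ < t'
        · rw [if_neg hj, if_pos (show t ≤ ‖X j‖ ∧ ‖X j‖ < t' from ⟨hB j hj, h3⟩)]
          split_ifs <;> linarith
        · rw [hw.out _ (ht.trans (not_lt.1 h3))]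
          split_ifs <;> linarith
    have e2 : Nbt t t' X ≤ √(R * (D + Nbt t t' X ^ 2 / r)) := by
      refine Real.le_sqrt_of_sq_le ?_
      have : r * (D + Nbt t t' X ^ 2 / r) = r * D + Nbt t t' X ^ 2 := by field_simp
      have h5 : r * (D + Nbt t t' X ^ 2 / r) ≤ R * (D + Nbt t t' X ^ 2 / r) := by gcongr
      nlinarith [mul_nonneg hr.le hD0]
    have e3 : (k.C - 1) * √(R * D) ≤ (k.C - 1) * √(R * (D + Nbt t t' X ^ 2 / r)) := by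
      have : 0 ≤ k.C - 1 := by linarith
      gcongr
    linarith [p2 R hR0]

lemma piece_ims {Cc b b₀ r : ℝ} {η ζ : E3 → ℝ} (h : Cut Cc b b₀ η ζ) (hC : 0 ≤ Cc) (hr : 0 < r)
    (h1 : r ≤ b) (h2 : b₀ ≤ 2 * r) (A : Finset ι) (X : Cfg ι) :
    ∑ j ∈ A, (g1 η (X j) + g1 ζ (X j)) ≤ Cc / (b₀ - b) ^ 2 * (2 * r) * Sge r X := by
  have key : ∀ y : E3, g1 η y + g1 ζ y ≤
      Cc / (b₀ - b) ^ 2 * (2 * r) * if r ≤ ‖y‖ then ‖y‖⁻¹ else 0 := fun y => by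
    refine (h.grad y).trans ?_
    split_ifs with h3 h4 h4
    · have hy : 0 < ‖y‖ := hr.trans_le h4
      have : 1 ≤ 2 * r * ‖y‖⁻¹ := by
        rw [← div_eq_mul_inv, le_div_iff₀ hy]; linarith [h3.2]
      rw [mul_assoc]
      exact le_mul_of_one_le_right (by positivity) this
    · exact absurd (h1.trans h3.1) h4
    · positivity
    · simp
  rw [Sge, Finset.mul_sum]
  exact (Finset.sum_le_sum_of_subset_of_nonneg (Finset.subset_univ A) fun j _ _ =>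
    add_nonneg (g1_nonneg _ _) (g1_nonneg _ _)).trans (Finset.sum_le_sum fun j _ => key _)

lemma piece_ll_mu (hk : St_ker) {ϑ ℓ : E3 → ℝ} (hl : ∀ y, 0 < ℓ y) (X : Cfg ι) :
    LL (mu ϑ ℓ X) := by
  obtain ⟨C, -, h⟩ := hk
  exact LL_sum _ fun j _ => ((h _ (hl (X j))).2.2.2.1.ll (X j)).const_mul _

lemma Dv_nonneg (hk : St_ker) (hc : St_cs) {ϑ ℓ ρ : E3 → ℝ} (hl : ∀ y, 0 < ℓ y) (hρ : LL ρ)
    (X : Cfg ι) : 0 ≤ Dv ϑ ℓ X ρ := by
  have := (piece_ll_mu hk (ϑ := ϑ) hl X).sub hρ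
  exact mul_nonneg (by norm_num) (hc _ _ this this).1

lemma ell_pos {s : ℝ} (hs : 0 < s) (R₁ : ℝ) (y : E3) : 0 < ell s R₁ y :=
  mul_pos hs (lt_of_lt_of_le one_pos (le_max_left _ _))

lemma piece_num {l r : ℝ} (hl : 0 < l) (hl1 : l ≤ 1) (hr : 0 < r) (h : r ≤ l ^ 10) :
    r / l / (l * r / 20) ^ 2 + (r / l)⁻¹ ^ 3 ≤ 401 * (l * r⁻¹ ^ 3) ∧
    1 / (2 * (l * r / 20)) ^ 2 * (2 * r) ≤ 200 * (l * r⁻¹ ^ 3) ∧
    l⁻¹ ^ 15 * ((l ^ 11 * r⁻¹ ^ 4) ^ 2 / (2 * (l ^ 6 / r))) ≤ l * r⁻¹ ^ 7 ∧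
    r * (l ^ 11 * r⁻¹ ^ 4) ^ 2 / l ^ 5 ≤ l * r⁻¹ ^ 7 := by
  have h1 : r ≤ l ^ 2 := h.trans (pow_le_pow_of_le_one hl.le hl1 (by norm_num))
  have h2 : r ^ 2 ≤ l ^ 4 := by nlinarith
  have h3 : l ^ 4 ≤ l ^ 3 := pow_le_pow_of_le_one hl.le hl1 (by norm_num)
  have h4 : l ^ 2 ≤ 1 := pow_le_one₀ hl.le hl1
  have h5 : l ^ 16 ≤ 1 := pow_le_one₀ hl.le hl1
  refine ⟨?_, ?_, ?_, ?_⟩
  · have e : r / l / (l * r / 20) ^ 2 + (r / l)⁻¹ ^ 3 =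
        (400 * (r ^ 2 / l ^ 4) + l ^ 2) * (l * r⁻¹ ^ 3) := by field_simp; ring
    have : r ^ 2 / l ^ 4 ≤ 1 := (div_le_one (by positivity)).2 h2
    rw [e]; gcongr; linarith
  · have e : 1 / (2 * (l * r / 20)) ^ 2 * (2 * r) = 200 * (r ^ 2 / l ^ 3) * (l * r⁻¹ ^ 3) := by
      field_simp; ring
    have : r ^ 2 / l ^ 3 ≤ 1 := (div_le_one (by positivity)).2 (h2.trans h3)
    rw [e]; gcongr; linarith
  · have e : l⁻¹ ^ 15 * ((l ^ 11 * r⁻¹ ^ 4) ^ 2 / (2 * (l ^ 6 / r))) = 1 / 2 * (l * r⁻¹ ^ 7) := by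
      field_simp
    have : 0 ≤ l * r⁻¹ ^ 7 := by positivity
    rw [e]; linarith
  · have e : r * (l ^ 11 * r⁻¹ ^ 4) ^ 2 / l ^ 5 = l ^ 16 * (l * r⁻¹ ^ 7) := by field_simp
    rw [e]
    exact mul_le_of_le_one_left (by positivity) h5

end Pool.Agent.Lib.ION
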