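import Pool.Agent.Lib.MP_6c3a95_mp.Pot

/-!
# A virial vector field that vanishes near the nucleus
-/

open MeasureTheory Filter Topology Finset
open scoped ContDiff ENNReal RealInnerProductSpace

noncomputable section

namespace Pool.Agent.Lib.ION.Vir

open Pool.Agent.Lib.MP_6c3a95_mp

def pp (z : ℝ) : ℝ := max (1 - 2 * z) 0
def Rv (A z : ℝ) : ℝ := 6 * z * (1 - z) + 1 / 2 * ((1 - 2 * z) * ((1 - z) * (2 * A - 1) + 3))
def Sv (A z : ℝ) : ℝ := -2 * A * (1 - A) * ((1 - 2 * z) * (1 - z)) -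
  2 * z * (6 * (1 - 2 * z) - ((1 - z) * (2 * A - 1) + 3) - 1 / 2 * (1 - 2 * z) * (2 * A - 1))
def Pv (A z : ℝ) : ℝ := (2 * A - 1) * pp z * Rv A z + 8 * z * Rv A z + pp z * Sv A z
def ph (a ε s : ℝ) : ℝ := s * fA ε s * (pp (fZ a s) ^ 2 * (1 - 2 * fZ a s))
def ph' (a ε s : ℝ) : ℝ :=
  fA ε s * pp (fZ a s) ^ 2 * ((2 * fA ε s - 1) * (1 - 2 * fZ a s) + 12 * fZ a s)
def mv (a ε s : ℝ) : ℝ := s * fA ε s * (pp (fZ a s) ^ 2 * Rv (fA ε s) (fZ a s))
def mv' (a ε s : ℝ) : ℝ := fA ε s * pp (fZ a s) * Pv (fA ε s) (fZ a s)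

lemma pp_cont : Continuous pp := by unfold pp; fun_prop

lemma pp_nonneg (z : ℝ) : 0 ≤ pp z := le_max_right _ _

lemma pp_mul (z : ℝ) : pp z * (1 - 2 * z) = pp z ^ 2 := by
  unfold pp
  rcases le_total (1 - 2 * z) 0 with h | h
  · simp [max_eq_right h]
  · rw [max_eq_left h, sq]

lemma d_max (w : ℝ) : HasDerivAt (fun w : ℝ => max w 0 ^ 2) (2 * max w 0) w := by
  rcases lt_trichotomy w 0 with h | rfl | h
  · rw [max_eq_right h.le, mul_zero]
    refine (hasDerivAt_const w (0 : ℝ)).congr_of_eventuallyEq ?_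
    filter_upwards [eventually_lt_nhds h] with v hv
    simp [max_eq_right hv.le]
  · rw [hasDerivAt_iff_isLittleO_nhds_zero]
    refine Asymptotics.IsBigO.trans_isLittleO (g := fun h : ℝ => h ^ 2) ?_
      (Asymptotics.isLittleO_pow_id (by norm_num))
    refine Asymptotics.IsBigO.of_bound 1 (Eventually.of_forall fun v => ?_)
    rcases le_total v 0 with h | h
    · simp [max_eq_right h]; positivity
    · simp [max_eq_left h]
  · rw [max_eq_left h.le]
    refine HasDerivAt.congr_of_eventuallyEq (by simpa using hasDerivAt_pow 2 w) ?_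
    filter_upwards [eventually_gt_nhds h] with v hv
    simp [max_eq_left hv.le]

lemma dq (a : ℝ) {s : ℝ} (hs : 0 < s) :
    HasDerivAt (fun s => pp (fZ a s) ^ 2) (2 * pp (fZ a s) * (4 * fZ a s / s)) s := by
  have h := (d_max (1 - 2 * fZ a s)).comp s (((dZ a hs).const_mul 2).const_sub 1)
  refine HasDerivAt.congr_deriv (f := fun s => pp (fZ a s) ^ 2) h ?_
  simp only [pp]; ring

lemma dph (a ε s : ℝ) (hs : 0 < s) : HasDerivAt (ph a ε) (ph' a ε s) s := by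
  refine HasDerivAt.congr_deriv (f := ph a ε) (((hasDerivAt_id' s).fun_mul (dA ε hs)).fun_mul
    ((dq a hs).fun_mul (((dZ a hs).const_mul 2).const_sub 1))) ?_
  have := pp_mul (fZ a s)
  simp only [ph']; field_simp
  linear_combination (8 * fA ε s * fZ a s) * this

lemma dmv (a ε s : ℝ) (hs : 0 < s) : HasDerivAt (mv a ε) (mv' a ε s) s := by
  have A := dA ε hs
  have z := dZ a hs
  refine HasDerivAt.congr_deriv (f := mv a ε) (((hasDerivAt_id' s).fun_mul A).fun_mul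
    ((dq a hs).fun_mul (((z.const_mul 6).fun_mul (z.const_sub 1)).fun_add
      ((((z.const_mul 2).const_sub 1).fun_mul
        (((z.const_sub 1).fun_mul ((A.const_mul 2).sub_const 1)).add_const 3)).const_mul
          (1 / 2))))) ?_
  simp only [mv', Pv, Rv, Sv]; field_simp; ring

section
variable {X : Type*} [NormedAddCommGroup X] [NormedSpace ℝ X] (L : X →L[ℝ] E3) {a ε : ℝ}

lemma bA (a ε : ℝ) : Bd fun x => fA ε (sL a (L x)) := by
  have := (sL_cont a).comp L.continuous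
  refine ⟨Continuous.div continuous_const (by fun_prop) fun x => by positivity, 1, fun x => ?_⟩
  rw [abs_of_pos (fA_pos _ _)]; exact fA_le _ _

lemma bssA (a : ℝ) (hε : 0 < ε) : Bd fun x => sL a (L x) * (sL a (L x) * fA ε (sL a (L x))) := by
  refine (((bA L a ε).mul (Bd.const (-1 / ε ^ 2))).add (Bd.const (1 / ε ^ 2))).congr fun x => ?_
  have := fA_eq ε (sL a (L x))
  field_simp
  linear_combination this

end

section
variable {X : Type*} [NormedAddCommGroup X] [NormedSpace ℝ X] [FiniteDimensional ℝ X]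
  [MeasurableSpace X] [BorelSpace X] (L : X →L[ℝ] E3) {a ε : ℝ}

lemma bsA (ha : 0 < a) (hε : 0 < ε) : Bd fun x => sL a (L x) * fA ε (sL a (L x)) := by
  refine ((bssA L a hε).mul (Bd_inv L ha)).congr fun x => ?_
  have := sL_pos ha (L x)
  field_simp

lemma bAZ (ha : 0 < a) (ε : ℝ) (P : ℝ → ℝ → ℝ) (hP : Continuous fun p : ℝ × ℝ => P p.1 p.2) :
    Bd fun x => P (fA ε (sL a (L x))) (fZ a (sL a (L x))) :=
  (bA L a ε).comp2 (Bd_Z L ha) P hP

lemma bph (ha : 0 < a) (hε : 0 < ε) : Bd fun x => ph a ε (sL a (L x)) :=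
  (bsA L ha hε).mul (bAZ L ha ε (fun _ z => pp z ^ 2 * (1 - 2 * z))
    (by have := pp_cont; fun_prop))

end

variable {N : ℕ} {a ε : ℝ}

def vf (a ε : ℝ) (α : Fin N × Fin 3) (x : Cf N) : ℝ := ph a ε (sL a (x α.1)) * ⟪x α.1, bv α.2⟫

def dvf (a ε : ℝ) (α β : Fin N × Fin 3) (x : Cf N) : ℝ :=
  if α.1 = β.1 then ph' a ε (sL a (x α.1)) * (x α.1 β.2 / sL a (x α.1)) * x α.1 α.2 +
    ph a ε (sL a (x α.1)) * (if α.2 = β.2 then 1 else 0) else 0

def mf (a ε : ℝ) (x : Cf N) : ℝ := ∑ i, mv a ε (sL a (x i))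

def dmf (a ε : ℝ) (β : Fin N × Fin 3) (x : Cf N) : ℝ :=
  mv' a ε (sL a (x β.1)) * (x β.1 β.2 / sL a (x β.1))

lemma good_vf (ha : 0 < a) (hε : 0 < ε) (α β : Fin N × Fin 3) :
    Good volume (vf a ε α) (dvf a ε α β) (ed β) := by
  have c := pp_cont
  refine (good_vec (μ := volume) (pr α.1) ha (ed β) (bv α.2) (dph a ε) (bph _ ha hε)
    (((bssA (pr α.1) a hε).mul (bAZ (pr α.1) ha ε (fun _ z => pp z ^ 2 * (1 - 2 * z))
      (by fun_prop))).congr fun x => by simp only [ph]; ring)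
    (((bsA (pr α.1) ha hε).mul (bAZ (pr α.1) ha ε
      (fun A z => pp z ^ 2 * ((2 * A - 1) * (1 - 2 * z) + 12 * z))
      (by fun_prop))).congr fun x => by simp only [ph']; ring)).congr fun x => ?_
  simp only [pr_apply, ed_apply, dvf]
  split_ifs with h h2 <;> simp [inner_bv, bv_apply, norm_bv, *]

lemma bmv (ha : 0 < a) (hε : 0 < ε) (i : Fin N) : Bd fun x : Cf N => mv a ε (sL a (pr i x)) :=
  (bsA (pr i) ha hε).mul (bAZ (pr i) ha ε (fun A z => pp z ^ 2 * Rv A z)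
    (by have := pp_cont; unfold Rv; fun_prop))

lemma mf_bd (ha : 0 < a) (hε : 0 < ε) : MemLp (mf (N := N) a ε) ⊤ volume :=
  memLp_finsetSum univ fun i _ => (bmv ha hε i).memLp

lemma Pv_cont : Continuous fun p : ℝ × ℝ => Pv p.1 p.2 := by
  have := pp_cont; unfold Pv Rv Sv; fun_prop

lemma good_mf (ha : 0 < a) (hε : 0 < ε) (β : Fin N × Fin 3) :
    Good volume (mf a ε) (dmf a ε β) (ed β) := by
  refine (Good.sum univ fun i _ => good_rad (μ := volume) (pr i) ha (ed β) (dmv a ε) (bmv ha hε i)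
    (bAZ (pr i) ha ε (fun A z => A * pp z * Pv A z)
      (by have := pp_cont; have := Pv_cont; fun_prop))).congr fun x => ?_
  rw [sum_eq_single β.1]
  · simp [ed_apply, inner_bv, dmf]
  · intro i _ hi; simp [ed_apply, hi]
  · simp

lemma div_vf (ha : 0 < a) (x : Cf N) : ∑ α, dvf a ε α α x = 2 * mf a ε x := by
  rw [Fintype.sum_prod_type, mf, mul_sum]
  refine sum_congr rfl fun i _ => ?_
  have h := fZ_eq ha (x i)
  have := sL_pos ha (x i)
  simp only [dvf, if_true, Fin.sum_univ_three, ph, ph', mv, Rv]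
  generalize pp (fZ a (sL a (x i))) = p
  have e : fZ a (sL a (x i)) = 1 - (x i 0 ^ 2 + x i 1 ^ 2 + x i 2 ^ 2) / sL a (x i) ^ 2 := by
    linarith
  rw [e]; field_simp; ring

lemma Pv_bd : ∃ C > 0, ∀ A z : ℝ, 0 ≤ A → A ≤ 1 → 0 ≤ z → z ≤ 1 → Pv A z ^ 2 ≤ C := by
  obtain ⟨B, hB⟩ := ((isCompact_Icc (a := (0 : ℝ)) (b := 1)).prod
    (isCompact_Icc (a := (0 : ℝ)) (b := 1))).exists_bound_of_continuousOn Pv_cont.continuousOn
  refine ⟨B ^ 2 + 1, by positivity, fun A z h1 h2 h3 h4 => ?_⟩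
  have := pow_le_pow_left₀ (norm_nonneg _) (hB (A, z) ⟨⟨h1, h2⟩, h3, h4⟩) 2
  rw [Real.norm_eq_abs, sq_abs] at this
  linarith

lemma kin_pt {A z s P n0 n1 n2 g0 g1 g2 u : ℝ} (hA0 : 0 ≤ A) (hA1 : A ≤ 1) (hz0 : 0 ≤ z)
    (hs : 0 < s) (hn : n0 ^ 2 + n1 ^ 2 + n2 ^ 2 = 1 - z) :
    -(P ^ 2 / (8 * s) * u ^ 2) ≤
      s * (A * pp z ^ 2 * ((2 * A - 1) * (1 - 2 * z) + 12 * z)) * (n0 * g0 + n1 * g1 + n2 * g2) ^ 2 +
      s * A * (pp z ^ 2 * (1 - 2 * z)) * (g0 ^ 2 + g1 ^ 2 + g2 ^ 2) +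
      A * pp z * P * u * (n0 * g0 + n1 * g1 + n2 * g2) := by
  set t := n0 * g0 + n1 * g1 + n2 * g2 with ht
  set g := g0 ^ 2 + g1 ^ 2 + g2 ^ 2 with hg
  have hg0 : 0 ≤ g := by positivity
  have cs : t ^ 2 ≤ (1 - z) * g := by
    rw [← hn, ht, hg]
    nlinarith [sq_nonneg (n0 * g1 - n1 * g0), sq_nonneg (n0 * g2 - n2 * g0),
      sq_nonneg (n1 * g2 - n2 * g1)]
  have cs2 : 0 ≤ g - t ^ 2 := by nlinarith [mul_nonneg hz0 hg0]
  have hp := pp_nonneg z
  have hm := pp_mul z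
  have e : s * (A * pp z ^ 2 * ((2 * A - 1) * (1 - 2 * z) + 12 * z)) * t ^ 2 +
      s * A * (pp z ^ 2 * (1 - 2 * z)) * g + A * pp z * P * u * t + P ^ 2 / (8 * s) * u ^ 2 =
      s * A * pp z ^ 3 * (g - t ^ 2) + s * A * pp z ^ 2 * z * (12 - 4 * A) * t ^ 2 +
        (4 * s * A * pp z * t + P * u) ^ 2 / (8 * s) := by
    field_simp
    linear_combination (8 * s ^ 2 * A * pp z * (g - t ^ 2)) * hm
  have t1 : 0 ≤ s * A * pp z ^ 3 * (g - t ^ 2) := by positivity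
  have t2 : 0 ≤ s * A * pp z ^ 2 * z * (12 - 4 * A) * t ^ 2 := by
    have : 0 ≤ 12 - 4 * A := by linarith
    positivity
  have t3 : 0 ≤ (4 * s * A * pp z * t + P * u) ^ 2 / (8 * s) := by positivity
  linarith

lemma pp_zero (ha : 0 < a) {y : E3} (hy : ‖y‖ < a) : pp (fZ a (sL a y)) = 0 := by
  refine max_eq_right ?_
  have := sL_pos ha y
  have h := sL_sq a y
  have h2 := pow_le_pow_left₀ (norm_nonneg _) hy.le 2
  rw [fZ, sub_nonpos, ← mul_div_assoc, le_div_iff₀ (by positivity)]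
  linarith

/-- the weight of the error term -/
def Sg (a : ℝ) (x : Cf N) : ℝ := ∑ j, if a ≤ ‖x j‖ then ‖x j‖⁻¹ else 0

theorem kinetic : ∃ C > 0, ∀ {N : ℕ} {a ε : ℝ}, 0 < a → 0 < ε →
    ∀ {u : Cf N → ℝ} {G : Fin N × Fin 3 → Cf N → ℝ}, (∀ α, MemLp (G α) 2 volume) →
    MemLp u 2 volume → Integrable (fun x => Sg a x * u x ^ 2) →
    -C * ∫ x, Sg a x * u x ^ 2 ≤
      ∑ α, ∑ β, Tri volume (dvf a ε α β) (G α) (G β) + ∑ β, Tri volume (dmf a ε β) u (G β) := by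
  obtain ⟨C, hC, hP⟩ := Pv_bd
  refine ⟨C, hC, fun {N a ε} ha hε u G hG hu hi => ?_⟩
  refine ((HI.of hi).const_mul (-C)).le ((HI.sum univ fun α _ => HI.sum univ fun β _ =>
    HI.tri (good_vf ha hε α β).bd' (hG α) (hG β)).add
    (HI.sum univ fun β _ => HI.tri (good_mf ha hε β).bd' hu (hG β)))
    (Eventually.of_forall fun x => ?_)
  simp only [Fintype.sum_prod_type, ← sum_add_distrib, Sg, sum_mul, mul_sum]
  refine sum_le_sum fun i _ => ?_
  have e : ∀ b, ∑ j, ∑ c, dvf a ε (i, b) (j, c) x * G (i, b) x * G (j, c) x =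
      ∑ c, dvf a ε (i, b) (i, c) x * G (i, b) x * G (i, c) x := fun b => by
    rw [sum_eq_single i]
    · intro j _ hj; simp [dvf, hj.symm]
    · simp
  simp only [e]
  have hs := sL_pos ha (x i)
  have hn := fZ_eq ha (x i)
  have hz : 0 ≤ fZ a (sL a (x i)) := by unfold fZ; positivity
  split_ifs with h
  · have k := kin_pt (A := fA ε (sL a (x i))) (z := fZ a (sL a (x i)))
      (P := Pv (fA ε (sL a (x i))) (fZ a (sL a (x i))))
      (n0 := x i 0 / sL a (x i)) (n1 := x i 1 / sL a (x i)) (n2 := x i 2 / sL a (x i))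
      (g0 := G (i, 0) x) (g1 := G (i, 1) x) (g2 := G (i, 2) x) (u := u x)
      (fA_pos _ _).le (fA_le _ _) hz hs (by rw [← hn]; ring)
    have h1 := hP _ _ (fA_pos ε (sL a (x i))).le (fA_le _ _) hz (fZ_le ha _)
    have hx : 0 < ‖x i‖ := ha.trans_le h
    have h2 : Pv (fA ε (sL a (x i))) (fZ a (sL a (x i))) ^ 2 / (8 * sL a (x i)) ≤ C / ‖x i‖ := by
      gcongr
      linarith [norm_le_sL a (x i)]
    refine le_trans ?_ (k.trans (le_of_eq ?_))
    · rw [div_eq_mul_inv C] at h2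
      nlinarith [mul_le_mul_of_nonneg_right h2 (sq_nonneg (u x))]
    · simp only [Fin.sum_univ_three, dvf, dmf, ph, ph', mv', if_true]
      simp
      field_simp
      ring
  · simp [dvf, dmf, ph, ph', mv', pp_zero ha (not_le.1 h)]

end Pool.Agent.Lib.ION.Vir
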