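import Pool.Agent.Lib.ION.Basic

/-!
# Adding an orbital: forms, permutations and products
-/

open MeasureTheory Set Metric Real Filter Topology
open scoped ContDiff ComplexConjugate

set_option linter.unusedSectionVars false

noncomputable section

namespace Pool.Agent.Lib.ION

open Pool.Agent.Lib.MP_689e73_mp

section Gen

variable {κ : Type} [Fintype κ] [DecidableEq κ] {A C : Cfg κ → ℂ} {G G' : Cfg κ → ℝ}

lemma wedge_sm {F : Cfg κ → ℂ} (h : ContDiff ℝ ∞ F) {L : ℝ} (hL : 0 ≤ L)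
    (hb : ∀ X, F X ≠ 0 → ∀ j, ‖X j‖ ≤ L) : Sm F := by
  refine ⟨h, HasCompactSupport.intro (isCompact_closedBall (0 : Cfg κ) L) fun X hX => ?_⟩
  by_contra h0
  exact hX (mem_closedBall_zero_iff.2 ((pi_norm_le_iff_of_nonneg hL).2 (hb X h0)))

/-- reindexing as a continuous linear map -/
def wedgeP {τ : Type} (σ : τ → κ) : Cfg κ →L[ℝ] Cfg τ :=
  ContinuousLinearMap.pi fun i => ContinuousLinearMap.proj (σ i)

lemma wedgeP_apply {τ : Type} (σ : τ → κ) (X : Cfg κ) : wedgeP σ X = X ∘ σ := rfl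

lemma wedge_sm_perm (h : Sm A) (σ : Equiv.Perm κ) : Sm fun X : Cfg κ => A (X ∘ σ) := by
  obtain ⟨L, hL, hb⟩ := h.supp_bound
  refine wedge_sm (h.smooth.comp (wedgeP σ).contDiff) hL.le fun X hX j => ?_
  simpa using hb _ hX (σ.symm j)

lemma wedge_sm_sum {τ : Type} (S : Finset τ) (s : τ → ℝ) {F : τ → Cfg κ → ℂ}
    (h : ∀ k, Sm (F k)) : Sm fun X => ∑ k ∈ S, s k • F k X := by
  classical
  induction S using Finset.induction_on with
  | empty =>
    simp only [Finset.sum_empty]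
    exact ⟨contDiff_const, HasCompactSupport.zero⟩
  | insert a S ha ih =>
    simp only [Finset.sum_insert ha]
    exact ⟨((h a).smooth.const_smul (s a)).add ih.smooth,
      ((h a).cpt.comp_left (g := fun z : ℂ => s a • z) (by simp)).add ih.cpt⟩

lemma wedge_int_perm (f : Cfg κ → ℝ) (σ : Equiv.Perm κ) : ∫ X : Cfg κ, f (X ∘ σ) = ∫ X, f X :=
  (volume_measurePreserving_piCongrLeft (fun _ : κ => E3) σ).symm.integral_comp' f

/-- directional derivative -/
def wD {α : Type} [NormedAddCommGroup α] [NormedSpace ℝ α] (v : α) (F : α → ℂ) (x : α) : ℂ :=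
  fderiv ℝ F x v

lemma wedge_sm_D {α : Type} [NormedAddCommGroup α] [NormedSpace ℝ α] {F : α → ℂ} (h : Sm F)
    (v : α) : Sm (wD v F) :=
  ⟨(h.smooth.fderiv_right (m := ∞) le_rfl).clm_apply contDiff_const,
    h.cpt.fderiv_apply (𝕜 := ℝ) v⟩

lemma wedge_diff {α : Type} [NormedAddCommGroup α] [NormedSpace ℝ α] {F : α → ℂ} (h : Sm F) :
    Differentiable ℝ F := h.smooth.differentiable (by simp)

lemma wedge_D_sum {τ : Type} (S : Finset τ) (s : τ → ℝ) {F : τ → Cfg κ → ℂ}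
    (h : ∀ k, Sm (F k)) (v : Cfg κ) :
    wD v (fun X => ∑ k ∈ S, s k • F k X) = fun X => ∑ k ∈ S, s k • wD v (F k) X := by
  ext X
  have : HasFDerivAt (fun X => ∑ k ∈ S, s k • F k X) (∑ k ∈ S, s k • fderiv ℝ (F k) X) X :=
    HasFDerivAt.fun_sum fun k _ => (wedge_diff (h k) X).hasFDerivAt.const_smul (s k)
  simp only [wD, this.fderiv, _root_.sum_apply, _root_.smul_apply]

lemma wedge_D_perm (h : Sm A) (σ : Equiv.Perm κ) (k : κ) (a : Fin 3) :
    wD (ev k a) (fun X : Cfg κ => A (X ∘ σ)) = fun X => wD (ev (σ.symm k) a) A (X ∘ σ) := by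
  ext X
  have h1 : HasFDerivAt (fun X : Cfg κ => A (X ∘ σ))
      ((fderiv ℝ A (X ∘ σ)).comp (wedgeP σ)) X :=
    (wedge_diff h (wedgeP σ X)).hasFDerivAt.comp X (wedgeP σ).hasFDerivAt
  have h2 : wedgeP σ (ev k a) = ev (σ.symm k) a := by
    ext1 i
    simp only [wedgeP_apply, ev, Function.comp, Pi.single_apply, Equiv.eq_symm_apply]
  simp only [wD, h1.fderiv, ContinuousLinearMap.comp_apply, h2]

/-- the real form of a multiplication operator -/
def wB (G : Cfg κ → ℝ) (A C : Cfg κ → ℂ) : ℝ := ∫ X, G X * inner ℝ (A X) (C X)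

/-- the real kinetic form -/
def wK (A C : Cfg κ → ℂ) : ℝ := ∑ k, ∑ a, wB (fun _ => 1) (wD (ev k a) A) (wD (ev k a) C)

lemma wedge_int (hG : LocallyIntegrable G) (hA : Sm A) (hC : Sm C) :
    Integrable fun X => G X * inner ℝ (A X) (C X) := by
  have h1 : Continuous fun X => inner ℝ (A X) (C X) := hA.cont.inner hC.cont
  have h2 : HasCompactSupport fun X => inner ℝ (A X) (C X) :=
    hA.cpt.mono fun X hX h0 => hX (by simp [h0])
  simpa only [smul_eq_mul] using hG.integrable_smul_right_of_hasCompactSupport h1 h2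

lemma wB_symm (G : Cfg κ → ℝ) (A C : Cfg κ → ℂ) : wB G A C = wB G C A := by
  simp only [wB, real_inner_comm]

lemma wB_self (G : Cfg κ → ℝ) (A : Cfg κ → ℂ) : wB G A A = Ex A G := by
  simp only [wB, Ex, real_inner_self_eq_norm_sq]

lemma wB_one (A : Cfg κ → ℂ) : wB (fun _ => 1) A A = Nm A := by
  rw [wB_self, Ex_const, one_mul]

lemma wK_self (hA : Sm A) : wK A A = ∑ k, Kn A k := by
  refine Finset.sum_congr rfl fun k _ => ?_
  simp only [wB_one, Kn, kin, Nm]
  exact (integral_finsetSum _ fun a _ => (wedge_sm_D hA (ev k a)).int_sq).symm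

lemma wB_add (hG : LocallyIntegrable G) (hG' : LocallyIntegrable G') (hA : Sm A) (hC : Sm C) :
    wB (fun X => G X + G' X) A C = wB G A C + wB G' A C := by
  simp only [wB, add_mul]
  exact integral_add (wedge_int hG hA hC) (wedge_int hG' hA hC)

lemma wB_lin (hG : LocallyIntegrable G) {τ : Type} (S : Finset τ) (s : τ → ℝ)
    {F : τ → Cfg κ → ℂ} (h : ∀ k, Sm (F k)) (hC : Sm C) :
    wB G (fun X => ∑ k ∈ S, s k • F k X) C = ∑ k ∈ S, s k * wB G (F k) C := by
  simp only [wB, sum_inner, real_inner_smul_left, Finset.mul_sum, mul_left_comm (G _)]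
  rw [integral_finsetSum _ fun k _ => (wedge_int hG (h k) hC).const_mul (s k)]
  simp only [integral_const_mul]

lemma wB_perm (G : Cfg κ → ℝ) (A C : Cfg κ → ℂ) (σ : Equiv.Perm κ) :
    wB (fun X => G (X ∘ σ)) (fun X => A (X ∘ σ)) (fun X => C (X ∘ σ)) = wB G A C :=
  wedge_int_perm (fun X => G X * inner ℝ (A X) (C X)) σ

lemma wB_parts (hA : Sm A) (hC : Sm C) (v : Cfg κ) :
    wB (fun _ => 1) A (wD v C) = -wB (fun _ => 1) (wD v A) C := by
  have h1 := locallyIntegrable_const (μ := (volume : Measure (Cfg κ))) (1 : ℝ)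
  have i1 := wedge_int h1 (wedge_sm_D hA v) hC
  have i2 := wedge_int h1 hA (wedge_sm_D hC v)
  have i3 := wedge_int h1 hA hC
  simp only [wB, one_mul] at i1 i2 i3 ⊢
  exact integral_bilinear_fderiv_right_eq_neg_left_of_integrable (B := innerSL ℝ) i1 i2 i3
    (fun x _ => wedge_diff hA x) fun x _ => wedge_diff hC x

/-- symmetric real forms that are invariant under permutations -/
structure WForm (B : (Cfg κ → ℂ) → (Cfg κ → ℂ) → ℝ) : Prop where
  symm : ∀ A C, B A C = B C A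
  lin : ∀ (τ : Type) (S : Finset τ) (s : τ → ℝ) (F : τ → Cfg κ → ℂ) (C : Cfg κ → ℂ),
    (∀ k, Sm (F k)) → Sm C → B (fun X => ∑ k ∈ S, s k • F k X) C = ∑ k ∈ S, s k * B (F k) C
  inv : ∀ (σ : Equiv.Perm κ) (A C : Cfg κ → ℂ), Sm A → Sm C →
    B (fun X => A (X ∘ σ)) (fun X => C (X ∘ σ)) = B A C

lemma wForm_B (hG : LocallyIntegrable G) (hs : ∀ (σ : Equiv.Perm κ) X, G (X ∘ σ) = G X) :
    WForm (wB G) :=
  ⟨wB_symm G, fun _ S s _ _ h hC => wB_lin hG S s h hC, fun σ A C _ _ => by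
    simpa only [hs] using wB_perm G A C σ⟩

lemma wForm_K : WForm (wK (κ := κ)) := by
  refine ⟨fun A C => by simp only [wK, wB_symm _ (wD _ A)], fun τ S s F C h hC => ?_,
    fun σ A C hA hC => ?_⟩
  · simp only [wK, wedge_D_sum S s h, wB_lin (locallyIntegrable_const 1) S s
      (fun k => wedge_sm_D (h k) _) (wedge_sm_D hC _), Finset.mul_sum]
    rw [Finset.sum_comm (s := S)]
    exact Finset.sum_congr rfl fun k _ => Finset.sum_comm
  · simp only [wK, wedge_D_perm hA, wedge_D_perm hC]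
    rw [← Equiv.sum_comp σ.symm fun k => ∑ a, wB (fun _ => 1) (wD (ev k a) A) (wD (ev k a) C)]
    refine Finset.sum_congr rfl fun k _ => Finset.sum_congr rfl fun a _ => ?_
    exact wB_perm (fun _ => 1) _ _ σ

/-- the sign of a permutation as a real number -/
def wS (σ : Equiv.Perm κ) : ℝ := ((Equiv.Perm.sign σ : ℤ) : ℝ)

lemma wS_mul (σ ρ : Equiv.Perm κ) : wS (σ * ρ) = wS σ * wS ρ := by simp [wS]

lemma wS_sq (σ : Equiv.Perm κ) : wS σ * wS σ = 1 := by
  rcases Int.units_eq_one_or (Equiv.Perm.sign σ) with h | h <;> simp [wS, h]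

lemma wS_swap {i j : κ} (h : i ≠ j) : wS (Equiv.swap i j) = -1 := by
  simp [wS, Equiv.Perm.sign_swap h]

lemma wS_self (i : κ) : wS (Equiv.swap i i) = 1 := by simp [wS]

lemma wedge_anti (h : AntiOn Finset.univ A) (σ : Equiv.Perm κ) (X : Cfg κ) :
    A (X ∘ σ) = wS σ • A X := by
  induction σ using Equiv.Perm.swap_induction_on generalizing X with
  | one => simp [wS]
  | swap_mul σ i j hij ih =>
    rw [wS_mul, wS_swap hij, Equiv.Perm.coe_mul, ← Function.comp_assoc, ih,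
      h i (Finset.mem_univ _) j (Finset.mem_univ _) hij]
    simp

lemma wedge_VOn (Z : ℝ) (σ : Equiv.Perm κ) (X : Cfg κ) :
    VOn Z Finset.univ (X ∘ σ) = VOn Z Finset.univ X := by
  simp only [VOn, Function.comp]
  rw [Equiv.sum_comp σ fun j => ‖X j‖⁻¹,
    ← Equiv.sum_comp σ fun i => ∑ j, ‖X i - X j‖⁻¹]
  have := fun i => Equiv.sum_comp σ fun j => ‖X (σ i) - X j‖⁻¹
  simp only [this]

end Gen

end Pool.Agent.Lib.ION
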