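import Pool.Agent.Lib.ION.WEDGE1

/-!
# Adding an orbital: products and the antisymmetrised product
-/

open MeasureTheory Set Metric Real Filter Topology
open scoped ContDiff ComplexConjugate

set_option linter.unusedSectionVars false

noncomputable section

namespace Pool.Agent.Lib.ION

open Pool.Agent.Lib.MP_689e73_mp

section Opt

variable {ι : Type} [Fintype ι] [DecidableEq ι] {Φ Ψ Ψ' : Cfg ι → ℂ} {u u' e : E3 → ℂ}

/-- add a particle at `y` -/
def wX (y : E3) (X : Cfg ι) : Cfg (Option ι) := fun o => o.elim y X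

lemma wX_none (y : E3) (X : Cfg ι) : wX y X none = y := rfl

lemma wX_some (y : E3) (X : Cfg ι) (j : ι) : wX y X (some j) = X j := rfl

lemma wX_comp (y : E3) (X : Cfg ι) : wX y X ∘ some = X := rfl

lemma wX_swap (y : E3) (X : Cfg ι) (j : ι) :
    wX y X ∘ Equiv.swap none (some j) = wX (X j) (Function.update X j y) := by
  ext1 o
  cases o with
  | none => simp [wX]
  | some i =>
    by_cases h : i = j
    · subst h; simp [wX]
    · simp [wX, Equiv.swap_apply_of_ne_of_ne, h]

lemma wX_update (y : E3) (X : Cfg (Option ι)) :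
    Function.update X none y = wX y (X ∘ some) := by
  ext1 o
  cases o <;> simp [wX]

/-- splitting off the new particle -/
def wE (ι : Type) : E3 × Cfg ι ≃ᵐ Cfg (Option ι) where
  toFun p := wX p.1 p.2
  invFun X := (X none, X ∘ some)
  left_inv _ := rfl
  right_inv X := by
    ext1 o
    cases o <;> rfl
  measurable_toFun := by
    refine measurable_pi_lambda _ fun o => ?_
    cases o with
    | none => exact measurable_fst
    | some i => exact (measurable_pi_apply i).comp measurable_snd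
  measurable_invFun := by
    change Measurable fun X : Cfg (Option ι) => (X none, fun i : ι => X (some i))
    fun_prop

lemma wedge_mp : MeasurePreserving (wE ι) (volume.prod volume) volume := by
  refine ⟨(wE ι).measurable, (Measure.pi_eq fun s hs => ?_).symm⟩
  rw [(wE ι).measurableEmbedding.map_apply]
  have e : wE ι ⁻¹' univ.pi s = s none ×ˢ univ.pi fun i : ι => s (some i) := by
    ext p
    simp only [mem_preimage, Set.mem_pi, mem_univ, true_imp_iff, mem_prod]
    exact ⟨fun h => ⟨h none, fun i => h (some i)⟩, fun h o => by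
      cases o with
      | none => exact h.1
      | some i => exact h.2 i⟩
  rw [e, Measure.prod_prod, volume_pi_pi, Fintype.prod_option]

lemma wedge_fubini {f : Cfg (Option ι) → ℝ} (hf : Integrable f) :
    ∫ X, f X = ∫ X : Cfg ι, ∫ y, f (wX y X) := by
  rw [← wedge_mp.integral_comp']
  exact integral_prod_symm _ ((wedge_mp.integrable_comp_emb (wE ι).measurableEmbedding).2 hf)

/-- the product of an orbital and a state -/
def wP (u : E3 → ℂ) (Ψ : Cfg ι → ℂ) (X : Cfg (Option ι)) : ℂ := u (X none) * Ψ (X ∘ some)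

lemma wP_X (u : E3 → ℂ) (Ψ : Cfg ι → ℂ) (y : E3) (X : Cfg ι) : wP u Ψ (wX y X) = u y * Ψ X := rfl

lemma wedge_sm_P (hu : Sm u) (hΨ : Sm Ψ) : Sm (wP u Ψ) := by
  obtain ⟨L, hL, hb⟩ := hΨ.supp_bound
  obtain ⟨L', hL'⟩ := hu.cpt.isCompact.isBounded.subset_closedBall 0
  refine wedge_sm (L := max L L') ((hu.smooth.comp (contDiff_apply ℝ E3 none)).mul
    (hΨ.smooth.comp (wedgeP (some : ι → Option ι)).contDiff)) (by positivity) fun X hX o => ?_
  cases o with
  | none =>
    have := hL' (subset_tsupport _ (left_ne_zero_of_mul hX))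
    exact (mem_closedBall_zero_iff.1 this).trans (le_max_right _ _)
  | some i => exact (hb _ (right_ne_zero_of_mul hX) i).trans (le_max_left _ _)

lemma wedge_D_P (hu : Sm u) (hΨ : Sm Ψ) (v : Cfg (Option ι)) (X : Cfg (Option ι)) :
    wD v (wP u Ψ) X = wP u (wD (v ∘ some) Ψ) X + wP (wD (v none) u) Ψ X := by
  have h1 : HasFDerivAt (fun X : Cfg (Option ι) => u (X none))
      ((fderiv ℝ u (X none)).comp (ContinuousLinearMap.proj none)) X :=
    (wedge_diff hu (X none)).hasFDerivAt.comp X (hasFDerivAt_apply (𝕜 := ℝ) none X)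
  have h2 : HasFDerivAt (fun X : Cfg (Option ι) => Ψ (X ∘ some))
      ((fderiv ℝ Ψ (X ∘ some)).comp (wedgeP some)) X :=
    (wedge_diff hΨ (wedgeP some X)).hasFDerivAt.comp X (wedgeP some).hasFDerivAt
  have h3 : HasFDerivAt (wP u Ψ) _ X := h1.mul h2
  simp only [wD, wP, h3.fderiv, _root_.add_apply, _root_.smul_apply,
    ContinuousLinearMap.comp_apply, wedgeP_apply, ContinuousLinearMap.proj_apply, smul_eq_mul]
  ring

lemma wedge_D_none (hu : Sm u) (hΨ : Sm Ψ) (a : Fin 3) :
    wD (ev none a) (wP u Ψ) = wP (wD (e1 a) u) Ψ := by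
  ext X
  have h : (ev none a : Cfg (Option ι)) ∘ some = 0 := by
    ext1 i; simp [ev]
  rw [wedge_D_P hu hΨ, h]
  simp [wP, wD, ev]

lemma wedge_D_some (hu : Sm u) (hΨ : Sm Ψ) (j : ι) (a : Fin 3) :
    wD (ev (some j) a) (wP u Ψ) = wP u (wD (ev j a) Ψ) := by
  ext X
  have h : (ev (some j) a : Cfg (Option ι)) ∘ some = ev j a := by
    ext1 i; simp [ev, Pi.single_apply]
  rw [wedge_D_P hu hΨ, h]
  simp [wP, wD, ev]

/-- diagonal terms -/
lemma wedge_diag {G : Cfg (Option ι) → ℝ} (hG : LocallyIntegrable G) (hu : Sm u) (hΨ : Sm Ψ) :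
    wB G (wP u Ψ) (wP u Ψ) = Ex Ψ fun X => ∫ y, G (wX y X) * ‖u y‖ ^ 2 := by
  rw [wB_self, Ex, wedge_fubini ((wedge_sm_P hu hΨ).int hG)]
  simp only [Ex, wP_X, norm_mul, mul_pow, ← mul_assoc, integral_mul_const]

lemma wedge_int1 (hu : Sm u) {f : E3 → ℂ} (hf : Continuous f) :
    Integrable fun y => conj (u y) * f y :=
  (((Complex.continuous_conj.comp hu.cont).mul hf).integrable_of_hasCompactSupport
    (HasCompactSupport.mul_right (hu.cpt.comp_left (g := fun z : ℂ => conj z) (by simp))))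

lemma wedge_cont_upd (hΨ : Sm Ψ) (X : Cfg ι) (j : ι) :
    Continuous fun y : E3 => Ψ (Function.update X j y) :=
  hΨ.cont.comp (continuous_const.update j continuous_id)

lemma wedge_inner (a b c d : ℂ) :
    inner ℝ (a * b) (c * d) = (conj b * c * (conj a * d)).re := by
  simp only [Complex.inner, map_mul]
  congr 1
  ring

/-- cross terms whose multiplier does not involve the new particle -/
lemma wedge_V0 {G : Cfg (Option ι) → ℝ} (hG : LocallyIntegrable G) {g : Cfg ι → ℝ}
    (hg : ∀ y X, G (wX y X) = g X) (hu : Sm u) (hΨ : Sm Ψ) (hu' : Sm u') (hΨ' : Sm Ψ') (j : ι)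
    (h0 : ∀ X, ann u Ψ' j X = 0) :
    wB G (wP u Ψ) (fun X => wP u' Ψ' (X ∘ Equiv.swap none (some j))) = 0 := by
  rw [wB, wedge_fubini (wedge_int hG (wedge_sm_P hu hΨ) (wedge_sm_perm (wedge_sm_P hu' hΨ') _))]
  refine integral_eq_zero_of_ae (Eventually.of_forall fun X => ?_)
  simp only [hg, wX_swap, wP_X, wedge_inner, integral_const_mul, Pi.zero_apply]
  have h1 := integral_re (𝕜 := ℂ) ((wedge_int1 hu (wedge_cont_upd hΨ' X j)).const_mul
    (conj (Ψ X) * u' (X j)))
  have h2 := h0 X
  rw [ann] at h2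
  rw [integral_const_mul, h2] at h1
  simp only [RCLike.re_to_complex, mul_zero, Complex.zero_re] at h1
  rw [h1, mul_zero]

/-- cross terms whose multiplier does not involve the particle `j` -/
lemma wedge_V1 {G : Cfg (Option ι) → ℝ} (j : ι)
    (hG : LocallyIntegrable fun X : Cfg (Option ι) => G (X ∘ Equiv.swap none (some j)))
    {g : Cfg ι → ℝ} (hg : ∀ y X, G (wX (X j) (Function.update X j y)) = g X) (hu : Sm u)
    (hΨ : Sm Ψ) (hu' : Sm u') (hΨ' : Sm Ψ') (h0 : ∀ X, ann u' Ψ j X = 0) :
    wB G (wP u Ψ) (fun X => wP u' Ψ' (X ∘ Equiv.swap none (some j))) = 0 := by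
  rw [← wB_perm _ _ _ (Equiv.swap none (some j)), wB_symm]
  have := wedge_V0 hG (g := g) (fun y X => by rw [wX_swap, hg]) hu' hΨ' hu hΨ j h0
  simpa only [Function.comp_assoc, ← Equiv.Perm.coe_mul, Equiv.swap_mul_self, Equiv.Perm.coe_one,
    Function.comp_id] using this

lemma wedge_LL {f : E3 → ℝ} (hf : Continuous f) (hc : HasCompactSupport f) : LL f :=
  ⟨hf.measurable, hf.integrable_of_hasCompactSupport hc, hf.memLp_of_hasCompactSupport hc⟩

/-- the exchange term -/
lemma wedge_V2 (h1 : St_cs) (hu : Sm u) (hΨ : Sm Ψ) (j : ι) :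
    0 ≤ wB (fun X => ‖X (some j) - X none‖⁻¹) (wP u Ψ)
      fun X => wP u Ψ (X ∘ Equiv.swap none (some j)) := by
  rw [wB, wedge_fubini (wedge_int (loc_pair _ _) (wedge_sm_P hu hΨ)
    (wedge_sm_perm (wedge_sm_P hu hΨ) _))]
  simp only [wX_swap, wP_X, wedge_inner, wX_none, wX_some]
  by_cases hi : Integrable fun X : Cfg ι => ∫ y, ‖X j - y‖⁻¹ *
    (conj (Ψ X) * u (X j) * (conj (u y) * Ψ (Function.update X j y))).re
  swap
  · rw [integral_undef hi]
  rw [integral_ins j hi]
  refine integral_nonneg fun Y => ?_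
  simp only [ins_self, update_ins, Pi.zero_apply]
  let f : E3 → ℂ := fun y => conj (u y) * Ψ (ins j y Y)
  have fc : Continuous f := by
    have := wedge_cont_upd hΨ (ins j 0 Y) j
    simp only [update_ins] at this
    exact (Complex.continuous_conj.comp hu.cont).mul this
  have fs : HasCompactSupport f :=
    HasCompactSupport.mul_right (hu.cpt.comp_left (g := fun z : ℂ => conj z) (by simp))
  have La : LL fun y => (f y).re :=
    wedge_LL (Complex.continuous_re.comp fc) (fs.comp_left (g := Complex.re) rfl)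
  have Lb : LL fun y => (f y).im :=
    wedge_LL (Complex.continuous_im.comp fc) (fs.comp_left (g := Complex.im) rfl)
  have e : ∀ z, ∫ y, ‖z - y‖⁻¹ * (conj (Ψ (ins j z Y)) * u z * (conj (u y) * Ψ (ins j y Y))).re =
      (f z).re * psi (fun y => (f y).re) z + (f z).im * psi (fun y => (f y).im) z := fun z => by
    simp only [psi, ← integral_const_mul]
    rw [← integral_add ((La.psi_int z).const_mul _) ((Lb.psi_int z).const_mul _)]
    refine integral_congr_ae (Eventually.of_forall fun y => ?_)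
    simp only [f, Complex.mul_re, Complex.mul_im, Complex.conj_re, Complex.conj_im]
    ring
  simp only [e]
  rw [integral_add (LL.int_mul_psi La.int La) (LL.int_mul_psi Lb.int Lb)]
  exact add_nonneg (h1 _ _ La La).1 (h1 _ _ Lb Lb).1

/-- the antisymmetrised product -/
def wT (e : E3 → ℂ) (Φ : Cfg ι → ℂ) (X : Cfg (Option ι)) : ℂ :=
  ∑ k, wS (Equiv.swap none k) • wP e Φ (X ∘ Equiv.swap none k)

lemma wedge_sm_T (he : Sm e) (hΦ : Sm Φ) : Sm (wT e Φ) :=
  wedge_sm_sum _ _ fun _ => wedge_sm_perm (wedge_sm_P he hΦ) _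

lemma wedge_P_perm (h : AntiOn Finset.univ Φ) (ρ : Equiv.Perm (Option ι)) (X : Cfg (Option ι)) :
    wP e Φ (X ∘ ρ) = (wS (Equiv.swap none (ρ none)) * wS ρ) •
      wP e Φ (X ∘ Equiv.swap none (ρ none)) := by
  have h1 := map_equiv_removeNone ρ
  have h2 : wS (Equiv.removeNone ρ) = wS (Equiv.swap none (ρ none)) * wS ρ := by
    rw [← wS_mul, ← h1, wS, wS, Equiv.optionCongr_sign]
  have h3 : (X ∘ ρ) ∘ some = ((X ∘ Equiv.swap none (ρ none)) ∘ some) ∘ Equiv.removeNone ρ := by
    ext1 i
    have := congrArg (fun σ : Equiv.Perm (Option ι) => Equiv.swap none (ρ none) (σ (some i))) h1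
    simp only [Equiv.optionCongr_apply, Option.map_some, Equiv.Perm.coe_mul, Function.comp,
      Equiv.swap_apply_self] at this
    simp only [Function.comp, this]
  simp only [wP]
  rw [h3, wedge_anti h, h2, mul_smul_comm]
  simp only [Function.comp_apply, Equiv.swap_apply_left]

lemma wedge_T_perm (h : AntiOn Finset.univ Φ) (τ : Equiv.Perm (Option ι)) (X : Cfg (Option ι)) :
    wT e Φ (X ∘ τ) = wS τ • wT e Φ X := by
  simp only [wT, Finset.smul_sum]
  rw [← Equiv.sum_comp τ fun k => wS τ • wS (Equiv.swap none k) • wP e Φ (X ∘ Equiv.swap none k)]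
  refine Finset.sum_congr rfl fun k _ => ?_
  have h1 := wedge_P_perm (e := e) h (τ * Equiv.swap none k) X
  simp only [Equiv.Perm.coe_mul, Function.comp_apply, Equiv.swap_apply_left, wS_mul,
    ← Function.comp_assoc] at h1
  rw [h1, smul_smul, smul_smul]
  congr 1
  linear_combination wS τ * wS (Equiv.swap none (τ k)) * wS_sq (Equiv.swap none k)

lemma wedge_form {B : (Cfg (Option ι) → ℂ) → (Cfg (Option ι) → ℂ) → ℝ} (hB : WForm B)
    (he : Sm e) (hΦ : Core Φ) : B (wT e Φ) (wT e Φ) = (Fintype.card ι + 1) *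
      (B (wP e Φ) (wP e Φ) - ∑ j, B (wP e Φ) fun X => wP e Φ (X ∘ Equiv.swap none (some j))) := by
  have sP := wedge_sm_P he hΦ.sm
  have sT := wedge_sm_T he hΦ.sm
  have lin : ∀ C, Sm C → B (wT e Φ) C = ∑ k, wS (Equiv.swap none k) *
      B (fun X => wP e Φ (X ∘ Equiv.swap none k)) C := fun C hC =>
    hB.lin _ _ _ _ C (fun _ => wedge_sm_perm sP _) hC
  have h1 : ∀ σ : Equiv.Perm (Option ι),
      wS σ * B (fun X => wP e Φ (X ∘ σ)) (wT e Φ) = B (wP e Φ) (wT e Φ) := fun σ => by
    have h2 := hB.lin Unit Finset.univ (fun _ => wS σ) (fun _ => wT e Φ) _ (fun _ => sT)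
      (wedge_sm_perm sP σ)
    simp only [Finset.univ_unique, Finset.sum_singleton, ← wedge_T_perm hΦ.anti] at h2
    rw [hB.symm, ← h2, hB.inv σ _ _ sT sP, hB.symm]
  rw [lin _ sT]
  simp only [h1, Finset.sum_const, Finset.card_univ, Fintype.card_option, nsmul_eq_mul]
  rw [hB.symm, lin _ sP, Fintype.sum_option, wS_self]
  have h3 : ∀ j : ι, wS (Equiv.swap none (some j)) = -1 := fun j => wS_swap (by simp)
  simp only [h3, Equiv.swap_self, Equiv.coe_refl, Function.comp_id, hB.symm _ (wP e Φ)]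
  simp [sub_eq_add_neg]

lemma wedge_ann (he : Sm e) (hΦ : Core Φ) (hu : Sm u) (h0 : ∫ y, conj (u y) * e y = 0)
    (h1 : ∀ j X, ann u Φ j X = 0) (k : Option ι) (X : Cfg (Option ι)) :
    ann u (wT e Φ) k X = 0 := by
  have key : ∀ X : Cfg ι, ∫ y, conj (u y) * wT e Φ (wX y X) = 0 := fun X => by
    have h3 : ∀ j : ι, wS (Equiv.swap none (some j)) = -1 := fun j => wS_swap (by simp)
    have e1 : ∀ y, conj (u y) * wT e Φ (wX y X) = conj (u y) * e y * Φ X +
        ∑ j, -e (X j) * (conj (u y) * Φ (Function.update X j y)) := fun y => by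
      rw [wT, Fintype.sum_option, wS_self]
      simp only [h3, wX_swap, wP_X, Equiv.swap_self,
        Equiv.coe_refl, Function.comp_id, mul_add, Finset.mul_sum, one_smul, neg_smul]
      congr 1
      · ring
      · exact Finset.sum_congr rfl fun j _ => by ring
    have i1 := fun j => (wedge_int1 hu (wedge_cont_upd hΦ.sm X j)).const_mul (-e (X j))
    simp only [e1]
    rw [integral_add ((wedge_int1 hu he.cont).mul_const _) (integrable_finsetSum _ fun j _ => i1 j),
      integral_finsetSum _ fun j _ => i1 j, integral_mul_const, h0]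
    have h2 := fun j => h1 j X
    simp only [ann] at h2
    simp only [integral_const_mul, h2]
    simp
  have e2 : ∀ y, Function.update X k y =
      wX y ((X ∘ Equiv.swap none k) ∘ some) ∘ Equiv.swap none k := fun y => by
    rw [← wX_update, Function.update_comp_equiv]
    simp only [Equiv.symm_swap, Equiv.swap_apply_left, Function.comp_assoc, ← Equiv.Perm.coe_mul,
      Equiv.swap_mul_self, Equiv.Perm.coe_one, Function.comp_id]
  simp only [ann, e2, wedge_T_perm hΦ.anti, mul_smul_comm, integral_smul, key, smul_zero]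

end Opt

end Pool.Agent.Lib.ION
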